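import Pool.Agent.SSQ.Defs
import Pool.Agent.SSC3N.Cubic
import Pool.Agent.SSC3N.GaussRot

/-!
Part V: dimension reduction for positive correlation, `q` parts (port of `Pool.Agent.SSCP`, A1-A16).
-/

set_option autoImplicit false
open MeasureTheory ProbabilityTheory Set Real
open scoped ENNReal

namespace Pool.Agent.SSQ
open Pool.Agent.SSC3N (gam GG TT gam_prob)

/-- fractional partition into `q` parts -/
def FP {q : ℕ} {X : Type} [MeasurableSpace X] (f : Fin q → X → ℝ) : Prop :=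
  (∀ i, Measurable (f i)) ∧ (∀ i x, 0 ≤ f i x) ∧ (∀ x, ∑ i, f i x = 1)

/-- noise stability of a fractional partition of `ℝⁿ` -/
noncomputable def Fn {q n : ℕ} (ρ : ℝ) (f : Fin q → (Fin n → ℝ) → ℝ) : ℝ := ∑ i, GG ρ (f i) (f i)

/-- penalty for unequal masses -/
noncomputable def pen {q n : ℕ} (f : Fin q → (Fin n → ℝ) → ℝ) : ℝ :=
  ∑ i, ((∫ x, f i x ∂(gam n)) - 1 / (q : ℝ)) ^ 2

/-- correlation `ρ` in the first `k` coordinates and `r` in the other ones -/
noncomputable def SS {k m : ℕ} (ρ r : ℝ) (F : (Fin k → ℝ) → (Fin m → ℝ) → ℝ) : ℝ :=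
  ∫ x, ∫ z, GG r (F x) (F (ρ • x + Real.sqrt (1 - ρ ^ 2) • z)) ∂(gam k) ∂(gam k)

/-- currying -/
def cur {k m : ℕ} (f : (Fin (k + m) → ℝ) → ℝ) (x : Fin k → ℝ) (y : Fin m → ℝ) : ℝ :=
  f (Fin.append x y)

/-- average over the last `m` coordinates -/
noncomputable def bar {k m : ℕ} (F : (Fin k → ℝ) → (Fin m → ℝ) → ℝ) (x : Fin k → ℝ) : ℝ :=
  ∫ y, F x y ∂(gam m)

theorem split_mp (k m : ℕ) :
    MeasurePreserving (fun x : Fin (k + m) → ℝ =>
      ((fun i : Fin k => x (Fin.castAdd m i)), (fun j : Fin m => x (Fin.natAdd k j))))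
      (gam (k + m)) ((gam k).prod (gam m)) := by
  have h1 := measurePreserving_piCongrLeft (α := fun _ : Fin (k + m) => ℝ)
    (fun _ : Fin (k + m) => gaussianReal 0 1) (finSumFinEquiv (m := k) (n := m))
  have h2 := measurePreserving_sumPiEquivProdPi (X := fun _ : Fin k ⊕ Fin m => ℝ)
    (fun _ => gaussianReal 0 1)
  exact h2.comp (h1.symm)

end Pool.Agent.SSQ
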