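import Pool.Agent.SSQ.N9
import Pool.Agent.SSQ.DDefs

set_option autoImplicit false
open MeasureTheory ProbabilityTheory Set Real

namespace Pool.Agent.SSQ
open Pool.Agent.SSC3N (gam GG TT)

open Matrix in
theorem c1_bound {n : ℕ} {U : Matrix (Fin n) (Fin n) ℝ} (hU : U * Uᵀ = 1) (i j : Fin n) :
    U i j ∈ Icc (-1 : ℝ) 1 := by
  have h1 : ∑ l, U i l * U i l = 1 := by
    have h := congrFun (congrFun hU i) i
    rw [Matrix.mul_apply, Matrix.one_apply_eq] at h
    simpa only [Matrix.transpose_apply] using h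
  have h2 : U i j * U i j ≤ 1 := by
    rw [← h1]
    exact Finset.single_le_sum (f := fun l => U i l * U i l) (fun l _ => mul_self_nonneg _)
      (Finset.mem_univ j)
  have h3 : |U i j| ≤ 1 := abs_le_one_iff_mul_self_le_one.mpr h2
  exact abs_le.mp h3

open Matrix in
theorem c1_compact (n : ℕ) : IsCompact {U : Matrix (Fin n) (Fin n) ℝ | U * Uᵀ = 1} := by
  have hcl : IsClosed {U : Matrix (Fin n) (Fin n) ℝ | U * Uᵀ = 1} :=
    isClosed_eq (Continuous.matrix_mul continuous_id continuous_id.matrix_transpose)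
      continuous_const
  have hK : IsCompact (Set.pi univ (fun _ : Fin n => Set.pi univ (fun _ : Fin n => Icc (-1 : ℝ) 1))) :=
    isCompact_univ_pi (fun _ => isCompact_univ_pi (fun _ => isCompact_Icc))
  exact IsCompact.of_isClosed_subset hK hcl (fun U hU i _ j _ => c1_bound hU i j)

open Matrix in
theorem c1_refl {n : ℕ} (v : Fin n → ℝ) (hv : v ⬝ᵥ v ≠ 0) :
    ((1 : Matrix (Fin n) (Fin n) ℝ) - (2 / (v ⬝ᵥ v)) • vecMulVec v v) *
      ((1 : Matrix (Fin n) (Fin n) ℝ) - (2 / (v ⬝ᵥ v)) • vecMulVec v v)ᵀ = 1 := by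
  have ht : ((1 : Matrix (Fin n) (Fin n) ℝ) - (2 / (v ⬝ᵥ v)) • vecMulVec v v)ᵀ =
      (1 : Matrix (Fin n) (Fin n) ℝ) - (2 / (v ⬝ᵥ v)) • vecMulVec v v := by
    rw [Matrix.transpose_sub, Matrix.transpose_one, Matrix.transpose_smul,
      Matrix.transpose_vecMulVec]
  rw [ht, Matrix.mul_sub, Matrix.mul_one, Matrix.sub_mul, Matrix.one_mul, Matrix.smul_mul,
    Matrix.mul_smul, Matrix.vecMulVec_mul_vecMulVec]
  ext i j
  simp only [Matrix.sub_apply, Matrix.smul_apply, Matrix.vecMulVec_apply, Pi.smul_apply,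
    smul_eq_mul]
  field_simp
  ring

open Matrix in
theorem c1_tr {n : ℕ} (N : Matrix (Fin n) (Fin n) ℝ) (v : Fin n → ℝ) (a : ℝ) :
    (N * ((1 : Matrix (Fin n) (Fin n) ℝ) - a • vecMulVec v v)).trace =
      N.trace - a * (v ⬝ᵥ (N *ᵥ v)) := by
  rw [Matrix.mul_sub, Matrix.mul_one, Matrix.mul_smul, Matrix.mul_vecMulVec, Matrix.trace_sub,
    Matrix.trace_smul, Matrix.trace_vecMulVec, smul_eq_mul, dotProduct_comm]

open Matrix in
theorem c1_quad {n : ℕ} (N : Matrix (Fin n) (Fin n) ℝ) (v : Fin n → ℝ) :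
    v ⬝ᵥ (N *ᵥ v) = ∑ i, ∑ j, v i * v j * N i j := by
  unfold dotProduct Matrix.mulVec dotProduct
  refine Finset.sum_congr rfl ?_
  intro i _
  rw [Finset.mul_sum]
  refine Finset.sum_congr rfl ?_
  intro j _
  ring

theorem c1_alg (D S : ℝ) (hS : 0 ≤ S) (h : ∀ t : ℝ, 0 ≤ t * D + t ^ 2 * S) : D = 0 := by
  have h1 := h (-D / (S + 1))
  have hS1 : 0 < S + 1 := by linarith
  have h2 : -D / (S + 1) * D + (-D / (S + 1)) ^ 2 * S = -(D / (S + 1)) ^ 2 := by
    field_simp
    ring
  rw [h2] at h1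
  have h3 : (D / (S + 1)) ^ 2 ≤ 0 := by linarith
  have h4 : D / (S + 1) = 0 := by
    have := le_antisymm h3 (sq_nonneg _)
    exact pow_eq_zero_iff (two_ne_zero) |>.mp this
  rcases div_eq_zero_iff.mp h4 with h5 | h5
  · exact h5
  · linarith

open Matrix in
theorem c1_polar (n : ℕ) (M : Matrix (Fin n) (Fin n) ℝ) : ∃ U ∈ Matrix.orthogonalGroup (Fin n) ℝ,
    (∀ i j, (M * U) i j = (M * U) j i) ∧
    ∀ v : Fin n → ℝ, 0 ≤ ∑ i, ∑ j, v i * v j * (M * U) i j := by
  classical
  obtain ⟨U, hU, hmax⟩ := (c1_compact n).exists_isMaxOn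
    (f := fun U : Matrix (Fin n) (Fin n) ℝ => (M * U).trace)
    ⟨1, by simp⟩ (Continuous.matrix_trace
      (Continuous.matrix_mul continuous_const continuous_id)).continuousOn
  have hU' : U * Matrix.transpose U = 1 := hU
  have hR : ∀ R : Matrix (Fin n) (Fin n) ℝ, R * Matrix.transpose R = 1 →
      ((M * U) * R).trace ≤ (M * U).trace := by
    intro R hR
    have hmem : (U * R) * Matrix.transpose (U * R) = 1 := by
      rw [Matrix.transpose_mul, Matrix.mul_assoc, ← Matrix.mul_assoc R, hR, Matrix.one_mul, hU']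
    have h := hmax hmem
    simp only [mem_ofPred_eq] at h
    rw [Matrix.mul_assoc]
    exact h
  -- nonnegativity
  have hnn : ∀ v : Fin n → ℝ, 0 ≤ v ⬝ᵥ ((M * U) *ᵥ v) := by
    intro v
    by_cases hv : v ⬝ᵥ v = 0
    · have : v = 0 := dotProduct_self_eq_zero.mp hv
      rw [this]
      simp
    · have h1 := hR _ (c1_refl v hv)
      rw [c1_tr] at h1
      have h2 : 0 < v ⬝ᵥ v := by
        have h3 : 0 ≤ v ⬝ᵥ v := by
          unfold dotProduct
          exact Finset.sum_nonneg (fun i _ => mul_self_nonneg _)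
        exact lt_of_le_of_ne h3 (Ne.symm hv)
      have h4 : 0 < 2 / (v ⬝ᵥ v) := by positivity
      have h5 : 0 ≤ 2 / (v ⬝ᵥ v) * (v ⬝ᵥ ((M * U) *ᵥ v)) := by linarith
      exact nonneg_of_mul_nonneg_right h5 h4
  refine ⟨U, ?_, ?_, ?_⟩
  · rw [Matrix.mem_orthogonalGroup_iff]
    exact hU'
  · intro i j
    by_cases hij : i = j
    · rw [hij]
    have hquad : ∀ t : ℝ, 0 ≤ t * ((M * U) i j - (M * U) j i) +
        t ^ 2 * ((M * U) i i + (M * U) j j) := by
      intro t
      have hvi : ((Pi.single i 1 : Fin n → ℝ) ⬝ᵥ (Pi.single i 1 : Fin n → ℝ)) = 1 := by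
        rw [single_one_dotProduct, Pi.single_eq_same]
      have hvj : ((Pi.single j 1 : Fin n → ℝ) ⬝ᵥ (Pi.single j 1 : Fin n → ℝ)) = 1 := by
        rw [single_one_dotProduct, Pi.single_eq_same]
      have hvij : ((Pi.single i 1 : Fin n → ℝ) ⬝ᵥ (Pi.single j 1 : Fin n → ℝ)) = 0 := by
        rw [single_one_dotProduct, Pi.single_eq_of_ne hij]
      have hvji : ((Pi.single j 1 : Fin n → ℝ) ⬝ᵥ (Pi.single i 1 : Fin n → ℝ)) = 0 := by
        rw [single_one_dotProduct, Pi.single_eq_of_ne (Ne.symm hij)]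
      have hv : ((Pi.single i 1 + t • Pi.single j 1 : Fin n → ℝ) ⬝ᵥ
          (Pi.single i 1 + t • Pi.single j 1 : Fin n → ℝ)) = 1 + t ^ 2 := by
        rw [add_dotProduct, dotProduct_add, dotProduct_add, smul_dotProduct, dotProduct_smul,
          smul_dotProduct, dotProduct_smul, hvi, hvj, hvij, hvji]
        simp only [smul_eq_mul]
        ring
      have hpos : 0 < 1 + t ^ 2 := by positivity
      have hr1 := c1_refl (Pi.single i 1 : Fin n → ℝ) (by rw [hvi]; exact one_ne_zero)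
      have hr2 := c1_refl (Pi.single i 1 + t • Pi.single j 1 : Fin n → ℝ)
        (by rw [hv]; exact hpos.ne')
      rw [hvi] at hr1
      rw [hv] at hr2
      generalize hA : (1 : Matrix (Fin n) (Fin n) ℝ) - (2 / 1 : ℝ) •
        Matrix.vecMulVec (Pi.single i 1 : Fin n → ℝ) (Pi.single i 1 : Fin n → ℝ) = A at hr1
      generalize hB : (1 : Matrix (Fin n) (Fin n) ℝ) - (2 / (1 + t ^ 2) : ℝ) •
        Matrix.vecMulVec (Pi.single i 1 + t • Pi.single j 1 : Fin n → ℝ)
          (Pi.single i 1 + t • Pi.single j 1 : Fin n → ℝ) = B at hr2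
      have hAB : (A * B) * Matrix.transpose (A * B) = 1 := by
        rw [Matrix.transpose_mul, Matrix.mul_assoc, ← Matrix.mul_assoc B, hr2, Matrix.one_mul, hr1]
      have h1 := hR _ hAB
      rw [← Matrix.mul_assoc, ← hB, c1_tr, ← Matrix.mulVec_mulVec, ← hA, c1_tr] at h1
      have hAv : ((1 : Matrix (Fin n) (Fin n) ℝ) - (2 / 1 : ℝ) •
          Matrix.vecMulVec (Pi.single i 1 : Fin n → ℝ) (Pi.single i 1 : Fin n → ℝ)) *ᵥ
          (Pi.single i 1 + t • Pi.single j 1 : Fin n → ℝ) =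
          (-(Pi.single i 1) + t • Pi.single j 1 : Fin n → ℝ) := by
        rw [Matrix.sub_mulVec, Matrix.one_mulVec, Matrix.smul_mulVec, Matrix.vecMulVec_mulVec,
          dotProduct_add, dotProduct_smul, hvi, hvij]
        ext k
        simp only [Pi.sub_apply, Pi.add_apply, Pi.smul_apply, Pi.neg_apply, smul_eq_mul,
          MulOpposite.smul_eq_mul_unop, MulOpposite.unop_op]
        ring
      rw [hAv] at h1
      have hNN : ∀ a b : Fin n, (Pi.single a 1 : Fin n → ℝ) ⬝ᵥ
          ((M * U) *ᵥ (Pi.single b 1 : Fin n → ℝ)) = (M * U) a b := by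
        intro a b
        rw [single_one_dotProduct, Matrix.mulVec_single_one]
        rfl
      have hexp : (Pi.single i 1 + t • Pi.single j 1 : Fin n → ℝ) ⬝ᵥ
          ((M * U) *ᵥ (-(Pi.single i 1) + t • Pi.single j 1 : Fin n → ℝ)) =
          -(M * U) i i + t * (M * U) i j - t * (M * U) j i + t ^ 2 * (M * U) j j := by
        rw [Matrix.mulVec_add, Matrix.mulVec_neg, Matrix.mulVec_smul, add_dotProduct,
          dotProduct_add, dotProduct_add, dotProduct_neg, dotProduct_neg, dotProduct_smul,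
          dotProduct_smul, smul_dotProduct, smul_dotProduct, hNN, hNN, hNN, hNN]
        simp only [smul_eq_mul]
        ring
      rw [hexp, hNN] at h1
      have h2 : 2 / (1 + t ^ 2) * (-(M * U) i i + t * (M * U) i j - t * (M * U) j i
          + t ^ 2 * (M * U) j j) + 2 * (M * U) i i ≥ 0 := by
        have e : (2 / 1 : ℝ) = 2 := by norm_num
        rw [e] at h1
        linarith
      have h3 : 0 ≤ ((1 + t ^ 2) / 2) * (2 / (1 + t ^ 2) * (-(M * U) i i + t * (M * U) i j
          - t * (M * U) j i + t ^ 2 * (M * U) j j) + 2 * (M * U) i i) := by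
        positivity
      have h4 : ((1 + t ^ 2) / 2) * (2 / (1 + t ^ 2) * (-(M * U) i i + t * (M * U) i j
          - t * (M * U) j i + t ^ 2 * (M * U) j j) + 2 * (M * U) i i) =
          t * ((M * U) i j - (M * U) j i) + t ^ 2 * ((M * U) i i + (M * U) j j) := by
        field_simp
        ring
      rw [h4] at h3
      exact h3
    have hS : 0 ≤ (M * U) i i + (M * U) j j := by
      have hNN : ∀ a : Fin n, (Pi.single a 1 : Fin n → ℝ) ⬝ᵥ
          ((M * U) *ᵥ (Pi.single a 1 : Fin n → ℝ)) = (M * U) a a := by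
        intro a
        rw [single_one_dotProduct, Matrix.mulVec_single_one]
        rfl
      have h1 := hnn (Pi.single i 1)
      have h2 := hnn (Pi.single j 1)
      rw [hNN] at h1 h2
      linarith
    have := c1_alg _ _ hS hquad
    linarith
  · intro v
    rw [← c1_quad]
    exact hnn v

/-- [C1] POLAR DECOMPOSITION of a real square matrix (possibly singular), orthogonal factor on the right.
PROOF.  The orthogonal group is compact (closed and bounded; `Metric.isCompact_of_isClosed_isBounded` on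
`Matrix (Fin n) (Fin n) ℝ`, entries in `[-1,1]`), `U ↦ tr (M U)` is continuous: let `U` be a maximiser, `N = M U`;
then `tr (N R) ≤ tr N` for every orthogonal `R`.
(i) `R = 1 - 2vvᵀ` (`|v| = 1`) gives `vᵀNv ≥ 0` (for all `v` by scaling).
(ii) symmetry: for `i ≠ j` take for `R` the rotation of angle `θ` in the plane `(i,j)`:
`tr(NR) - tr N = (cos θ - 1)(N_ii + N_jj) + sin θ (N_ij - N_ji)` (up to sign) `≤ 0` for all `θ`; dividing by `θ → 0±`
gives `N_ij = N_ji`.  (Alternatively `R = (1-2uuᵀ)(1-2vvᵀ)` with `u = e_i`, `v = cos θ e_i + sin θ e_j`.) -/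
theorem polar (n : ℕ) (M : Matrix (Fin n) (Fin n) ℝ) : ∃ U ∈ Matrix.orthogonalGroup (Fin n) ℝ,
    (∀ i j, (M * U) i j = (M * U) j i) ∧
    ∀ v : Fin n → ℝ, 0 ≤ ∑ i, ∑ j, v i * v j * (M * U) i j :=
  c1_polar n M

end Pool.Agent.SSQ
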