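import Pool.Agent.SSQ.C1

set_option autoImplicit false
open MeasureTheory ProbabilityTheory Set Real

namespace Pool.Agent.SSQ
open Pool.Agent.SSC3N (gam GG TT)

/-- regular simplex with unit vertices: `a aᵀ = (q/(q-1)) Π`. -/
def IsSx {q n : ℕ} (a : Fin q → Fin n → ℝ) : Prop :=
  (∀ i, ∑ l, a i l * a i l = 1) ∧ (∀ i j, i ≠ j → ∑ l, a i l * a j l = -1 / ((q : ℝ) - 1))

/-- [C2a] the vertices sum to zero: `|∑ a_i|² = q - q(q-1)/(q-1) = 0`; and `∑_l a_il a_jl = (q/(q-1)) Π_ij`. -/
theorem sx_sum {q n : ℕ} (hq : 2 ≤ q) (a : Fin q → Fin n → ℝ) (ha : IsSx a) :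
    (∀ l, ∑ i, a i l = 0) ∧ ∀ i j, ∑ l, a i l * a j l = (q : ℝ) / ((q : ℝ) - 1) * Pc q i j := by
  have hq1 : (0 : ℝ) < (q : ℝ) - 1 := by
    have h1 : (2 : ℝ) ≤ q := by exact_mod_cast hq
    linarith
  have hq0 : (q : ℝ) ≠ 0 := by linarith
  have hg : ∀ i j, ∑ l, a i l * a j l = (q : ℝ) / ((q : ℝ) - 1) * Pc q i j := by
    intro i j
    unfold Pc
    by_cases hij : i = j
    · subst hij
      rw [if_pos rfl, ha.1 i]
      field_simp
    · rw [if_neg hij, ha.2 i j hij]
      field_simp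
      ring
  refine ⟨?_, hg⟩
  have h1 : ∀ i : Fin q, ∑ j, Pc q i j = 0 := by
    intro i
    unfold Pc
    rw [Finset.sum_sub_distrib, Finset.sum_ite_eq, if_pos (Finset.mem_univ i), Finset.sum_const,
      Finset.card_univ, Fintype.card_fin, nsmul_eq_mul]
    field_simp
    ring
  have h2 : ∑ l, (∑ i, a i l) ^ 2 = 0 := by
    have h3 : ∀ l, (∑ i, a i l) ^ 2 = ∑ i, ∑ j, a i l * a j l := by
      intro l
      rw [pow_two, Finset.sum_mul_sum]
    rw [Finset.sum_congr rfl fun l _ => h3 l, Finset.sum_comm]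
    refine Finset.sum_eq_zero fun i _ => ?_
    rw [Finset.sum_comm, Finset.sum_congr rfl fun j _ => hg i j, ← Finset.mul_sum, h1 i, mul_zero]
  intro l
  have h3 := (Finset.sum_eq_zero_iff_of_nonneg fun l _ => sq_nonneg (∑ i, a i l)).1 h2 l
    (Finset.mem_univ l)
  exact pow_eq_zero_iff two_ne_zero |>.1 h3

private theorem c2_fro {m n : ℕ} (X : Matrix (Fin m) (Fin n) ℝ) :
    ∑ i, ∑ j, X i j ^ 2 = (X * X.transpose).trace := by
  unfold Matrix.trace
  refine Finset.sum_congr rfl fun i _ => ?_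
  rw [Matrix.diag_apply, Matrix.mul_apply]
  exact Finset.sum_congr rfl fun j _ => by rw [Matrix.transpose_apply, pow_two]

private theorem c2_pc {q n : ℕ} (X : Matrix (Fin q) (Fin n) ℝ) (hX : ∀ l, ∑ i, X i l = 0) :
    (Matrix.of (Pc q)) * X = X := by
  ext i l
  rw [Matrix.mul_apply]
  have h1 : ∀ j, (Matrix.of (Pc q)) i j * X j l
      = (if i = j then X j l else 0) - 1 / (q : ℝ) * X j l := by
    intro j
    rw [Matrix.of_apply]
    unfold Pc
    split_ifs <;> ring
  rw [Finset.sum_congr rfl fun j _ => h1 j, Finset.sum_sub_distrib, Finset.sum_ite_eq,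
    if_pos (Finset.mem_univ i), ← Finset.mul_sum, hX l, mul_zero, sub_zero]

private theorem c2_psd {n : ℕ} (H E : Matrix (Fin n) (Fin n) ℝ)
    (hH : ∀ v : Fin n → ℝ, 0 ≤ ∑ i, ∑ j, v i * v j * H i j) :
    0 ≤ (E.transpose * (H * E)).trace := by
  unfold Matrix.trace
  refine Finset.sum_nonneg fun l _ => ?_
  refine (hH fun i => E i l).trans (le_of_eq ?_)
  rw [Matrix.diag_apply, Matrix.mul_apply]
  refine Finset.sum_congr rfl fun i _ => ?_
  rw [Matrix.transpose_apply, Matrix.mul_apply, Finset.mul_sum]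
  exact Finset.sum_congr rfl fun j _ => by ring

/-- [C2b] DISTANCE TO THE ROTATED SIMPLEX.  Let `ρ = (q-1)/q`, `κ'² = κ²/ρ`, matrices `K, a : q × n`.
PROOF.  `polar` for `M = aᵀK` (`n × n`): `U` orthogonal with `N = aᵀK'` symmetric positive semidefinite, `K' = K U`.
`a aᵀ = ρ⁻¹ Π`, and `ΠK' = K'` (zero column sums), so `K' = ρ a aᵀ K' = a H` with `H = ρ N`.  `P = ρ aᵀa` is a symmetric
projection (`n × n`), `aP = a`, `HP = PH = H` (`N = K'ᵀa` by symmetry).  With `E = H - κP`, `D = H² - κ²P`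
(`PE = EP = E`, `PDP = D`):
`|K' - κa|² = |aE|² = tr(E aᵀa E) = ρ⁻¹ |E|²`,
`K'K'ᵀ - κ'²Π = a H² aᵀ - κ² a aᵀ = a D aᵀ`, `|a D aᵀ|² = tr(aᵀa D aᵀa D) = ρ⁻² |D|²`,
`D = E (H + κP)` (`H`, `P` commute), `|D|² = tr(E (H+κP)² E) = tr(E H² E) + 2κ tr(E H E) + κ² tr(E E) ≥ κ² |E|²`.
So `|KKᵀ - κ'²Π|² = ρ⁻²|D|² ≥ ρ⁻²κ²|E|² = ρ⁻¹ κ² |K' - κa|² = κ'² |K - κ a Uᵀ|²`.  Use `Uᵀ` as the matrix of the
statement.  (`|K U - κ a|² = |K - κ a Uᵀ|²`.) -/
theorem rot_near {q n : ℕ} (hq : 2 ≤ q) (a : Fin q → Fin n → ℝ) (ha : IsSx a)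
    (K : Fin q → Fin n → ℝ) (hK : ∀ l, ∑ i, K i l = 0) (κ : ℝ) (hκ : 0 < κ) :
    ∃ U ∈ Matrix.orthogonalGroup (Fin n) ℝ,
      κ ^ 2 * ((q : ℝ) / ((q : ℝ) - 1)) * ∑ i, ∑ l, (K i l - κ * ∑ p, a i p * U p l) ^ 2 ≤
        ∑ i, ∑ j, (∑ l, K i l * K j l - κ ^ 2 * ((q : ℝ) / ((q : ℝ) - 1)) * Pc q i j) ^ 2 := by
  obtain ⟨hs, hg⟩ := sx_sum hq a ha
  set r : ℝ := (q : ℝ) / ((q : ℝ) - 1) with hr
  have hr0 : 0 < r := by
    have h1 : (2 : ℝ) ≤ q := by exact_mod_cast hq
    exact div_pos (by linarith) (by linarith)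
  obtain ⟨A, hA⟩ : ∃ A : Matrix (Fin q) (Fin n) ℝ, A = Matrix.of a := ⟨_, rfl⟩
  obtain ⟨Km, hKm⟩ : ∃ A : Matrix (Fin q) (Fin n) ℝ, A = Matrix.of K := ⟨_, rfl⟩
  obtain ⟨Pm, hPm⟩ : ∃ A : Matrix (Fin q) (Fin q) ℝ, A = Matrix.of (Pc q) := ⟨_, rfl⟩
  have hAA : A * A.transpose = r • Pm := by
    ext i j
    rw [Matrix.mul_apply, hA, hPm]
    exact hg i j
  obtain ⟨U, hU, hsym, hpos⟩ := polar n (A.transpose * Km)
  have hUU : U * U.transpose = 1 := by
    have h1 := (Matrix.mem_orthogonalGroup_iff (Fin n) ℝ).1 hU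
    exact h1
  have hUU' : U.transpose * U = 1 := by
    have h1 := (Matrix.mem_orthogonalGroup_iff' (Fin n) ℝ).1 hU
    exact h1
  obtain ⟨K', hK'⟩ : ∃ A : Matrix (Fin q) (Fin n) ℝ, A = Km * U := ⟨_, rfl⟩
  obtain ⟨H, hH⟩ : ∃ H : Matrix (Fin n) (Fin n) ℝ, H = r⁻¹ • (A.transpose * K') := ⟨_, rfl⟩
  obtain ⟨P, hP⟩ : ∃ H : Matrix (Fin n) (Fin n) ℝ, H = r⁻¹ • (A.transpose * A) := ⟨_, rfl⟩
  have hK's : ∀ l, ∑ i, K' i l = 0 := by
    intro l
    have h1 : ∀ i, K' i l = ∑ p, K i p * U p l := fun i => by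
      rw [hK', hKm]
      exact Matrix.mul_apply
    rw [Finset.sum_congr rfl fun i _ => h1 i, Finset.sum_comm]
    refine Finset.sum_eq_zero fun p _ => ?_
    rw [← Finset.sum_mul, hK p, zero_mul]
  have hPK : Pm * K' = K' := by
    rw [hPm]
    exact c2_pc K' hK's
  have hPA : Pm * A = A := by
    rw [hPm]
    exact c2_pc A fun l => by
      rw [hA]
      exact hs l
  have hAH : A * H = K' := by
    rw [hH, Matrix.mul_smul, ← Matrix.mul_assoc, hAA, Matrix.smul_mul, hPK, smul_smul,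
      inv_mul_cancel₀ hr0.ne', one_smul]
  have hAP : A * P = A := by
    rw [hP, Matrix.mul_smul, ← Matrix.mul_assoc, hAA, Matrix.smul_mul, hPA, smul_smul,
      inv_mul_cancel₀ hr0.ne', one_smul]
  have hHs : H.transpose = H := by
    have h1 : (A.transpose * Km * U).transpose = A.transpose * Km * U := by
      ext i j
      rw [Matrix.transpose_apply]
      exact hsym j i
    rw [hH, hK', Matrix.transpose_smul, ← Matrix.mul_assoc, h1]
  have hPs : P.transpose = P := by
    rw [hP, Matrix.transpose_smul, Matrix.transpose_mul, Matrix.transpose_transpose]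
  have hATA : A.transpose * A = r • P := by
    rw [hP, smul_smul, mul_inv_cancel₀ hr0.ne', one_smul]
  have hPAT : P * A.transpose = A.transpose := by
    have h1 := congrArg Matrix.transpose hAP
    rw [Matrix.transpose_mul, hPs] at h1
    exact h1
  have hPH : P * H = H := by
    rw [hH, Matrix.mul_smul, ← Matrix.mul_assoc, hPAT]
  have hHP : H * P = H := by
    have h1 := congrArg Matrix.transpose hPH
    rw [Matrix.transpose_mul, hPs, hHs] at h1
    exact h1
  have hPP : P * P = P := by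
    conv_lhs => rw [hP, Matrix.mul_smul, ← Matrix.mul_assoc, ← hP, hPAT]
    rw [← hP]
  obtain ⟨E, hE⟩ : ∃ E : Matrix (Fin n) (Fin n) ℝ, E = H - κ • P := ⟨_, rfl⟩
  obtain ⟨F, hF⟩ : ∃ E : Matrix (Fin n) (Fin n) ℝ, E = H + κ • P := ⟨_, rfl⟩
  have hEs : E.transpose = E := by
    rw [hE, Matrix.transpose_sub, Matrix.transpose_smul, hHs, hPs]
  have hFs : F.transpose = F := by
    rw [hF, Matrix.transpose_add, Matrix.transpose_smul, hHs, hPs]
  have hEP : E * P = E := by
    rw [hE, Matrix.sub_mul, Matrix.smul_mul, hHP, hPP]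
  have hEF : E * F = H * H - κ ^ 2 • P := by
    rw [hE, hF, Matrix.sub_mul, Matrix.mul_add, Matrix.mul_add, Matrix.smul_mul, Matrix.smul_mul,
      Matrix.mul_smul, Matrix.mul_smul, hHP, hPH, hPP, smul_smul, pow_two]
    abel
  have hFE : F * E = E * F := by
    have h1 := congrArg Matrix.transpose hEF
    rw [Matrix.transpose_mul, hEs, hFs, Matrix.transpose_sub, Matrix.transpose_mul,
      Matrix.transpose_smul, hHs, hPs] at h1
    rw [h1, hEF]
  have hAE : K' - κ • A = A * E := by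
    rw [hE, Matrix.mul_sub, Matrix.mul_smul, hAH, hAP]
  have hAD : K' * K'.transpose - (κ ^ 2 * r) • Pm = A * (E * F) * A.transpose := by
    rw [hEF, Matrix.mul_sub, Matrix.sub_mul, Matrix.mul_smul, Matrix.smul_mul, hAP, hAA, smul_smul,
      ← Matrix.mul_assoc, hAH]
    congr 1
    rw [Matrix.mul_assoc]
    congr 1
    rw [← hAH, Matrix.transpose_mul, hHs]
  have t1 : ((A * E) * (A * E).transpose).trace = r * (E * E).trace := by
    rw [Matrix.transpose_mul, hEs, Matrix.mul_assoc, Matrix.trace_mul_comm, Matrix.mul_assoc,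
      Matrix.mul_assoc, hATA, Matrix.mul_smul, Matrix.mul_smul, Matrix.trace_smul, hEP,
      smul_eq_mul]
  have t2 : ((A * (E * F) * A.transpose) * (A * (E * F) * A.transpose).transpose).trace
      = r ^ 2 * ((E * F) * (E * F)).trace := by
    have hDP : (E * F) * P = E * F := by
      rw [← hFE, Matrix.mul_assoc, hEP]
    have h1 : (A * (E * F) * A.transpose).transpose = A * (E * F) * A.transpose := by
      rw [Matrix.transpose_mul, Matrix.transpose_mul, Matrix.transpose_transpose,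
        Matrix.transpose_mul, hEs, hFs, hFE]
      simp only [Matrix.mul_assoc]
    rw [h1]
    have h2 : A * (E * F) * A.transpose * (A * (E * F) * A.transpose)
        = A * ((r • (E * F)) * ((E * F) * A.transpose)) := by
      have h3 : A * (E * F) * A.transpose * (A * (E * F) * A.transpose)
          = A * (((E * F) * (A.transpose * A)) * ((E * F) * A.transpose)) := by
        simp only [Matrix.mul_assoc]
      rw [h3, hATA, Matrix.mul_smul, hDP]
    have h4 : (r • (E * F)) * ((E * F) * A.transpose) * A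
        = r • (r • ((E * F) * (E * F))) := by
      have h5 : (r • (E * F)) * ((E * F) * A.transpose) * A
          = (r • (E * F)) * ((E * F) * (A.transpose * A)) := by
        simp only [Matrix.mul_assoc]
      rw [h5, hATA, Matrix.mul_smul, hDP, Matrix.mul_smul, Matrix.smul_mul]
    rw [h2, Matrix.trace_mul_comm, h4, Matrix.trace_smul, Matrix.trace_smul, smul_eq_mul,
      smul_eq_mul]
    ring
  have hFF : F * F = H * H + (2 * κ) • H + κ ^ 2 • P := by
    rw [hF, Matrix.add_mul, Matrix.mul_add, Matrix.mul_add, Matrix.smul_mul, Matrix.smul_mul,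
      Matrix.mul_smul, Matrix.mul_smul, hHP, hPH, hPP, smul_smul, pow_two, two_mul, add_smul]
    abel
  have hPE : P * E = E := by
    have h1 := congrArg Matrix.transpose hEP
    rw [Matrix.transpose_mul, hPs, hEs] at h1
    exact h1
  have t3 : κ ^ 2 * (E * E).trace ≤ ((E * F) * (E * F)).trace := by
    have h1 : (E * F) * (E * F) = (H * E).transpose * (H * E)
        + (2 * κ) • (E.transpose * (H * E)) + κ ^ 2 • (E * E) := by
      have h2 : (E * F) * (E * F) = E * (F * F) * E := by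
        have h3 : (E * F) * (E * F) = (E * F) * (F * E) := by rw [hFE]
        rw [h3]
        simp only [Matrix.mul_assoc]
      rw [h2, hFF, Matrix.mul_add, Matrix.mul_add, Matrix.add_mul, Matrix.add_mul,
        Matrix.mul_smul, Matrix.mul_smul, Matrix.smul_mul, Matrix.smul_mul, hEP,
        Matrix.transpose_mul, hEs, hHs]
      simp only [Matrix.mul_assoc]
    have h4 : 0 ≤ ((H * E).transpose * (H * E)).trace := by
      have h5 := c2_fro (H * E).transpose
      rw [Matrix.transpose_transpose] at h5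
      rw [← h5]
      exact Finset.sum_nonneg fun i _ => Finset.sum_nonneg fun j _ => sq_nonneg _
    have h6 : 0 ≤ (E.transpose * (H * E)).trace := by
      refine c2_psd H E fun v => ?_
      have h7 := hpos v
      have h8 : ∑ i, ∑ j, v i * v j * H i j
          = r⁻¹ * ∑ i, ∑ j, v i * v j * (A.transpose * Km * U) i j := by
        rw [Finset.mul_sum]
        refine Finset.sum_congr rfl fun i _ => ?_
        rw [Finset.mul_sum]
        refine Finset.sum_congr rfl fun j _ => ?_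
        have h9 : H i j = r⁻¹ * (A.transpose * Km * U) i j := by
          rw [hH, hK', ← Matrix.mul_assoc]
          rfl
        rw [h9]
        ring
      rw [h8]
      exact mul_nonneg (inv_pos.2 hr0).le h7
    rw [h1, Matrix.trace_add, Matrix.trace_add, Matrix.trace_smul, Matrix.trace_smul, smul_eq_mul,
      smul_eq_mul]
    have h10 : 0 ≤ 2 * κ * (E.transpose * (H * E)).trace := mul_nonneg (by linarith) h6
    linarith
  refine ⟨U.transpose, ?_, ?_⟩
  · rw [Matrix.mem_orthogonalGroup_iff]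
    show U.transpose * U.transpose.transpose = 1
    rw [Matrix.transpose_transpose]
    exact hUU'
  · have l1 : ∑ i, ∑ l, (K i l - κ * ∑ p, a i p * U.transpose p l) ^ 2
        = r * (E * E).trace := by
      have h1 : ∀ i l, K i l - κ * ∑ p, a i p * U.transpose p l
          = ((K' - κ • A) * U.transpose) i l := by
        intro i l
        have h2 : (K' - κ • A) * U.transpose = Km - κ • (A * U.transpose) := by
          rw [hK', Matrix.sub_mul, Matrix.mul_assoc, hUU, Matrix.mul_one, Matrix.smul_mul]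
        rw [h2, hKm, hA]
        rfl
      rw [Finset.sum_congr rfl fun i _ => Finset.sum_congr rfl fun l _ => by rw [h1 i l],
        c2_fro, ← t1, ← hAE, Matrix.transpose_mul, Matrix.transpose_transpose]
      congr 1
      rw [Matrix.mul_assoc, ← Matrix.mul_assoc U.transpose, hUU', Matrix.one_mul]
    have l2 : ∑ i, ∑ j, (∑ l, K i l * K j l - κ ^ 2 * r * Pc q i j) ^ 2
        = r ^ 2 * ((E * F) * (E * F)).trace := by
      have h1 : ∀ i j, ∑ l, K i l * K j l - κ ^ 2 * r * Pc q i j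
          = (A * (E * F) * A.transpose) i j := by
        intro i j
        rw [← hAD]
        have h2 : K' * K'.transpose = Km * Km.transpose := by
          rw [hK', Matrix.transpose_mul, Matrix.mul_assoc, ← Matrix.mul_assoc U, hUU, Matrix.one_mul]
        rw [h2, Matrix.sub_apply, Matrix.mul_apply, hKm, hPm]
        rfl
      rw [Finset.sum_congr rfl fun i _ => Finset.sum_congr rfl fun j _ => by rw [h1 i j],
        c2_fro, t2]
    rw [l1, l2]
    have h1 : r ^ 2 * (κ ^ 2 * (E * E).trace) ≤ r ^ 2 * ((E * F) * (E * F)).trace :=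
      mul_le_mul_of_nonneg_left t3 (sq_nonneg r)
    calc κ ^ 2 * r * (r * (E * E).trace) = r ^ 2 * (κ ^ 2 * (E * E).trace) := by ring
      _ ≤ _ := h1

end Pool.Agent.SSQ
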