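import Pool.Agent.SSQ.N11

set_option autoImplicit false
open MeasureTheory ProbabilityTheory Set Real

namespace Pool.Agent.SSQ
open Pool.Agent.SSC3N (gam GG TT)

private lemma n12_psd {n q : ℕ} (C : Fin n → Fin q → ℝ) (y : Fin q → ℝ) :
    ∑ i, ∑ j, y i * y j * Gr C i j = ∑ a, (∑ i, y i * C a i) ^ 2 := by
  have h1 : ∀ a, (∑ i, y i * C a i) ^ 2 = ∑ i, ∑ j, y i * y j * (C a i * C a j) := by
    intro a
    rw [sq, Finset.sum_mul_sum]
    exact Finset.sum_congr rfl fun i _ => Finset.sum_congr rfl fun j _ => by ring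
  have h2 : ∑ a, (∑ i, y i * C a i) ^ 2 = ∑ a, ∑ i, ∑ j, y i * y j * (C a i * C a j) :=
    Finset.sum_congr rfl fun a _ => h1 a
  rw [h2]
  symm
  rw [Finset.sum_comm]
  refine Finset.sum_congr rfl fun i _ => ?_
  rw [Finset.sum_comm]
  refine Finset.sum_congr rfl fun j _ => ?_
  rw [Gr, Finset.mul_sum]

private lemma n12_psd0 {n q : ℕ} (C : Fin n → Fin q → ℝ) (y : Fin q → ℝ) :
    0 ≤ ∑ i, ∑ j, y i * y j * Gr C i j := by
  rw [n12_psd]
  exact Finset.sum_nonneg fun a _ => sq_nonneg _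

private lemma n12_symm {n q : ℕ} (C : Fin n → Fin q → ℝ) (i j : Fin q) : Gr C i j = Gr C j i := by
  unfold Gr
  exact Finset.sum_congr rfl fun a _ => mul_comm _ _

private lemma n12_rows {n q : ℕ} (C : Fin n → Fin q → ℝ) (h : ∀ a, ∑ i, C a i = 0) (i : Fin q) :
    ∑ j, Gr C i j = 0 := by
  unfold Gr
  rw [Finset.sum_comm]
  refine Finset.sum_eq_zero fun a _ => ?_
  rw [← Finset.mul_sum, h a, mul_zero]

private lemma n12_trace {n q : ℕ} (C : Fin n → Fin q → ℝ) :
    ∑ i, Gr C i i = ∑ a, ∑ i, C a i ^ 2 := by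
  unfold Gr
  rw [Finset.sum_comm]
  exact Finset.sum_congr rfl fun a _ => Finset.sum_congr rfl fun i _ => by ring

private lemma n12_Pc_row {q : ℕ} (hq : 0 < q) (i : Fin q) : ∑ j, Pc q i j = 0 := by
  have hq' : (q : ℝ) ≠ 0 := by
    have : (0:ℝ) < q := by exact_mod_cast hq
    exact this.ne'
  unfold Pc
  rw [Finset.sum_sub_distrib, Finset.sum_const, Finset.card_univ, Fintype.card_fin, nsmul_eq_mul]
  simp
  field_simp
  simp

private lemma n12_Pc_symm {q : ℕ} (i j : Fin q) : Pc q i j = Pc q j i := by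
  unfold Pc
  by_cases h : i = j
  · subst h
    rfl
  · rw [if_neg h, if_neg (fun e => h e.symm)]

private lemma n12_Gr_Pc {q : ℕ} (hq : 0 < q) (i j : Fin q) : Gr (Pc q) i j = Pc q i j := by
  have h0 : ∑ a, Pc q a j = 0 := by
    rw [← n12_Pc_row hq j]
    exact Finset.sum_congr rfl fun a _ => n12_Pc_symm a j
  unfold Gr
  have h1 : ∀ a, Pc q a i * Pc q a j = (if a = i then Pc q a j else 0) - 1 / (q:ℝ) * Pc q a j := by
    intro a
    rw [show Pc q a i = (if a = i then 1 else 0) - 1 / (q:ℝ) from rfl]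
    by_cases h : a = i
    · simp only [if_pos h]
      ring
    · simp only [if_neg h]
      ring
  simp only [h1]
  rw [Finset.sum_sub_distrib, ← Finset.mul_sum, h0, mul_zero, sub_zero]
  simp

private lemma n12_Pc_trace {q : ℕ} (hq : 0 < q) : ∑ i, Pc q i i = (q : ℝ) - 1 := by
  have hq' : (q : ℝ) ≠ 0 := by
    have : (0:ℝ) < q := by exact_mod_cast hq
    exact this.ne'
  unfold Pc
  rw [Finset.sum_sub_distrib, Finset.sum_const, Finset.card_univ, Fintype.card_fin, nsmul_eq_mul]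
  simp
  field_simp

private lemma n12_bd {k : ℕ} (x : Fin (k + 1) → ℝ) : |mx x| ≤ 1 * (1 + ∑ l, |x l|) := by
  have h := (cl_basic k).2.2.2.2.2 x
  linarith

private lemma n12_cont {k : ℕ} : Continuous (mx (k := k)) := (cl_basic k).2.2.2.2.1

private lemma n12_law {n n' k : ℕ} (C : Fin n → Fin (k + 1) → ℝ) (C' : Fin n' → Fin (k + 1) → ℝ)
    (h : ∀ i j, Gr C i j = Gr C' i j) (lam : Fin (k + 1) → ℝ) :
    ∫ z, mx (lam + ∑ a, z a • C a) ∂(gam n) = ∫ z, mx (lam + ∑ a, z a • C' a) ∂(gam n') := by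
  have hm := law_map C C' h
  have hc : Continuous (fun y : Fin (k + 1) → ℝ => mx (lam + y)) :=
    n12_cont.comp (continuous_const.add continuous_id)
  have e : ∀ {n : ℕ} (C : Fin n → Fin (k + 1) → ℝ),
      ∫ z, mx (lam + ∑ a, z a • C a) ∂(gam n) =
        ∫ y, mx (lam + y) ∂((gam n).map (fun z => ∑ a, z a • C a)) := by
    intro n C
    rw [integral_map]
    · refine Continuous.aemeasurable ?_
      fun_prop
    · exact hc.aestronglyMeasurable
  rw [e C, e C', hm]

private lemma n12_le {k : ℕ} (x : Fin (k + 1) → ℝ) (i : Fin (k + 1)) : x i ≤ mx x :=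
  Finset.le_sup' x (Finset.mem_univ i)

private lemma n12_shift {k : ℕ} (x : Fin (k + 1) → ℝ) (t : ℝ) :
    mx (fun i => x i + t) = mx x + t := by
  apply le_antisymm
  · unfold mx
    refine Finset.sup'_le _ _ fun i _ => ?_
    have := n12_le x i
    unfold mx at this
    linarith
  · obtain ⟨j, -, hj⟩ := Finset.exists_mem_eq_sup' (Finset.univ_nonempty (α := Fin (k + 1))) x
    have h1 : mx x = x j := hj
    have h2 := n12_le (fun i => x i + t) j
    rw [h1]
    exact h2

private lemma n12_int_coord {n : ℕ} (j : Fin n) :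
    Integrable (fun z : Fin n → ℝ => z j) (gam n) := by
  have h := integrable_abs_coord j
  exact (integrable_norm_iff (measurable_pi_apply j).aestronglyMeasurable).1 h

private lemma n12_int_lin {n q : ℕ} (C : Fin n → Fin q → ℝ) (lam : Fin q → ℝ) (i : Fin q) :
    Integrable (fun z : Fin n → ℝ => (lam + ∑ a, z a • C a) i) (gam n) := by
  have := j9_prob n
  simp only [Pi.add_apply, Pi.smul_apply, Finset.sum_apply, smul_eq_mul]
  exact Integrable.add (integrable_const _)
    (integrable_finsetSum _ fun a _ => (n12_int_coord a).mul_const _)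

private lemma n12_mean {n q : ℕ} (C : Fin n → Fin q → ℝ) (lam : Fin q → ℝ) (i : Fin q) :
    ∫ z, (lam + ∑ a, z a • C a) i ∂(gam n) = lam i := by
  have := j9_prob n
  simp only [Pi.add_apply, Pi.smul_apply, Finset.sum_apply, smul_eq_mul]
  rw [integral_add (integrable_const _)
    (integrable_finsetSum _ fun a _ => (n12_int_coord a).mul_const _), integral_const,
    integral_finsetSum _ (fun a _ => (n12_int_coord a).mul_const _)]
  simp only [integral_mul_const, integral_coord, zero_mul, Finset.sum_const_zero,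
    add_zero, probReal_univ, one_smul]

private lemma n12_int_mx {n k : ℕ} (C : Fin n → Fin (k + 1) → ℝ) (lam : Fin (k + 1) → ℝ) :
    Integrable (fun z : Fin n → ℝ => mx (lam + ∑ a, z a • C a)) (gam n) := by
  have := j9_prob n
  have hg : Integrable (fun z : Fin n → ℝ => ∑ i, |(lam + ∑ a, z a • C a) i|) (gam n) :=
    integrable_finsetSum _ fun i _ => (n12_int_lin C lam i).abs
  refine Integrable.mono' hg ?_ (Filter.Eventually.of_forall fun z => ?_)
  · refine Continuous.aestronglyMeasurable ?_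
    refine n12_cont.comp ?_
    fun_prop
  · rw [Real.norm_eq_abs]
    exact (cl_basic k).2.2.2.2.2 _

private lemma n12_Dq0 {q : ℕ} (G : Fin q → Fin q → ℝ) : 0 ≤ Dq G :=
  Finset.sum_nonneg fun i _ => Finset.sum_nonneg fun j _ => sq_nonneg _

private lemma n12_Dq_s {q : ℕ} (G : Fin q → Fin q → ℝ) (s : ℝ) :
    Dq (fun i j => (1 - s) * Pc q i j + s * G i j) = s ^ 2 * Dq G := by
  unfold Dq
  rw [Finset.mul_sum]
  refine Finset.sum_congr rfl fun i _ => ?_
  rw [Finset.mul_sum]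
  refine Finset.sum_congr rfl fun j _ => ?_
  ring

/-- the lower bound at the end point `s = 0` -/
private lemma n12_h0 {n : ℕ} (m : ℕ) (C : Fin n → Fin (m + 2) → ℝ) (lam : Fin (m + 2) → ℝ) :
    eqv (m + 1) ≤ Gm (k := m + 2) (Pc (m + 2)) C mx 0 lam - (∑ j, lam j) / (((m + 1 : ℕ) : ℝ) + 1) := by
  rw [law_Gm (Pc (m + 2)) C (Pc (m + 2)) 0 le_rfl zero_le_one
    (fun i j => by ring) mx n12_cont 1 n12_bd lam]
  have h := int_cols m (fun _ _ => 0) (fun _ _ => rfl) lam
  simp only [add_zero, zero_mul, Finset.sum_const_zero] at h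
  have h2 := eqv_le (m + 1) lam
  have e : ∫ z, mx (lam + ∑ a, z a • Pc (m + 2) a) ∂(gam (m + 2)) =
      ∫ x, mx (lam + x) ∂(gam (m + 1 + 1)) := by
    refine h.trans ?_
    refine integral_congr_ae (Filter.Eventually.of_forall fun x => ?_)
    show mx (fun i => x i + lam i) = mx (lam + x)
    congr 1
    funext i
    rw [Pi.add_apply, add_comm]
  rw [e]
  exact h2

/-- the lower bound at the end point `s = 1` -/
private lemma n12_h1 {n : ℕ} (m : ℕ) (C : Fin n → Fin (m + 2) → ℝ) (g : ℝ)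
    (hno : ∀ lam : Fin (m + 2) → ℝ, ∑ i, lam i = 0 →
      g < ∫ z, mx (lam + ∑ a, z a • C a) ∂(gam n)) (lam : Fin (m + 2) → ℝ) :
    g ≤ Gm (k := m + 2) (Pc (m + 2)) C mx 1 lam - (∑ j, lam j) / (((m + 1 : ℕ) : ℝ) + 1) := by
  have := j9_prob n
  rw [law_Gm (Pc (m + 2)) C C 1 zero_le_one le_rfl
    (fun i j => by ring) mx n12_cont 1 n12_bd lam]
  have hm : (((m + 1 : ℕ) : ℝ) + 1) ≠ 0 := by positivity
  set t : ℝ := (∑ j, lam j) / (((m + 1 : ℕ) : ℝ) + 1) with ht
  have hs : ∑ i, (fun i => lam i - t) i = 0 := by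
    simp only
    rw [Finset.sum_sub_distrib, Finset.sum_const, Finset.card_univ, Fintype.card_fin, nsmul_eq_mul,
      ht]
    have e : ((m + 2 : ℕ) : ℝ) = ((m + 1 : ℕ) : ℝ) + 1 := by
      push_cast
      ring
    rw [e]
    field_simp
    simp
  have h := hno (fun i => lam i - t) hs
  have e : ∫ z, mx (lam + ∑ a, z a • C a) ∂(gam n) =
      (∫ z, mx ((fun i => lam i - t) + ∑ a, z a • C a) ∂(gam n)) + t := by
    have e1 : ∀ z : Fin n → ℝ, mx (lam + ∑ a, z a • C a) =
        mx ((fun i => lam i - t) + ∑ a, z a • C a) + t := by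
      intro z
      rw [← n12_shift]
      congr 1
      funext i
      simp only [Pi.add_apply]
      ring
    simp only [e1]
    rw [integral_add (n12_int_mx C _) (integrable_const _), integral_const, probReal_univ, one_smul]
  rw [e]
  linarith

/-- [N11c] GAP THEOREM.
PROOF.  `δ, c₀, K₀` from `gap_near`.  If `D = Dq (Gr C) ≤ δ`: `gap_near` with `G = Gr C` (positive semidefinite:
`∑ y_i y_j G_ij = ∑_a (∑ y_i C_ai)²`; zero row sums), and `law_Gm` with `s = 0` / `law_map` to pass from `C2` to `C`.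
If `D > δ`: suppose that every `λ` with `∑λ = 0` has `∫ mx(λ + Cz) > eqv - cD`.  Let `s = √(δ/D) < 1`,
`G_s = (1-s)Π + s Gr C` (row sums zero, trace `m+1`, positive semidefinite, `Dq G_s = s² D = δ`).  `conc_max` with
`C0 = Π` (columns, `Gr Π = Π`), `C1 = C`, `g0 = eqv` (`h0`: `Gm` at `s = 0` is `∫ mx(λ + Πz)`
`= ∫ mx (λ + z) ≥ ...`, `eqv_le`, `int_cols` with `B = 0`), `g1 = eqv - cD` (subtract the mean of `λ`:
`mx (x + t·1) = mx x + t`): for all `λ`: `(1-s) eqv + s (eqv - cD) ≤ Gm Π C mx s λ - mean λ`.  By `law_Gm` and `gap_near`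
some `λ` with mean zero has `Gm Π C mx s λ ≤ eqv - c₀δ`.  So `c s D ≥ c₀ δ`, i.e. `c ≥ c₀ √(δ/D) ≥ c₀ √δ/(2(m+2))`
(`Dq_le`): false for `c` smaller than this.  The `λ` found has `λ_i ≤ ∫ mx ≤ eqv` (`∫ (λ_i + (Cz)_i) = λ_i`), hence
`λ_i ≥ -(m+1) eqv`, and `λ_i² ≤ (m+1)² eqv² ≤ K D` with `K = (m+1)² eqv²/δ`. -/
theorem gap (m : ℕ) : ∃ c K : ℝ, 0 < c ∧ 0 ≤ K ∧ ∀ (n : ℕ) (C : Fin n → Fin (m + 2) → ℝ),
    (∀ a, ∑ i, C a i = 0) → ∑ a, ∑ i, C a i ^ 2 = (m : ℝ) + 1 →
    ∃ lam : Fin (m + 2) → ℝ, ∑ i, lam i = 0 ∧ (∀ i, lam i ^ 2 ≤ K * Dq (Gr C)) ∧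
      ∫ z, mx (lam + ∑ a, z a • C a) ∂(gam n) ≤ eqv (m + 1) - c * Dq (Gr C) := by
  obtain ⟨δ, c₀, K₀, hδ, hc₀, hK₀, hnear⟩ := gap_near m
  have hm2 : (0:ℝ) < (m:ℝ) + 2 := by positivity
  have hsδ : 0 < √δ := Real.sqrt_pos.2 hδ
  have hc1 : 0 < c₀ * √δ / (4 * ((m:ℝ) + 2)) := by positivity
  refine ⟨min c₀ (c₀ * √δ / (4 * ((m:ℝ) + 2))), max K₀ (((m:ℝ) + 1) ^ 2 * eqv (m + 1) ^ 2 / δ),
    lt_min hc₀ hc1, le_max_of_le_left hK₀, ?_⟩
  intro n C hC ht
  set c : ℝ := min c₀ (c₀ * √δ / (4 * ((m:ℝ) + 2))) with hc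
  set K : ℝ := max K₀ (((m:ℝ) + 1) ^ 2 * eqv (m + 1) ^ 2 / δ) with hK
  have hcc0 : c ≤ c₀ := min_le_left _ _
  have hcc1 : c ≤ c₀ * √δ / (4 * ((m:ℝ) + 2)) := min_le_right _ _
  have hcpos : 0 < c := lt_min hc₀ hc1
  have hD0 : 0 ≤ Dq (Gr C) := n12_Dq0 _
  have htr : ∑ i, Gr C i i = (m:ℝ) + 1 := by rw [n12_trace, ht]
  rcases le_or_gt (Dq (Gr C)) δ with hD | hD
  · obtain ⟨C2, lam, h1, h2, h3, h4⟩ := hnear (Gr C) (n12_symm C) (n12_psd0 C) (n12_rows C hC) htr hD
    refine ⟨lam, h2, fun i => (h3 i).trans ?_, ?_⟩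
    · exact mul_le_mul_of_nonneg_right (le_max_left _ _) hD0
    · rw [← n12_law C2 C h1 lam]
      refine h4.trans ?_
      have := mul_le_mul_of_nonneg_right hcc0 hD0
      linarith
  · have hDpos : 0 < Dq (Gr C) := hδ.trans hD
    have hex : ∃ lam : Fin (m + 2) → ℝ, ∑ i, lam i = 0 ∧
        ∫ z, mx (lam + ∑ a, z a • C a) ∂(gam n) ≤ eqv (m + 1) - c * Dq (Gr C) := by
      by_contra hno
      push Not at hno
      have h0 := n12_h0 m C
      have h1 := n12_h1 m C (eqv (m + 1) - c * Dq (Gr C)) hno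
      have hq : 0 < m + 2 := by omega
      set D : ℝ := Dq (Gr C) with hDdef
      set s : ℝ := √(δ / D) with hs
      have hs0 : 0 ≤ s := Real.sqrt_nonneg _
      have hs2 : s ^ 2 = δ / D := Real.sq_sqrt (div_nonneg hδ.le hDpos.le)
      have hs2D : s ^ 2 * D = δ := by
        rw [hs2]
        field_simp
      have hs1 : s ≤ 1 := by
        refine Real.sqrt_le_one.2 ?_
        rw [div_le_one hDpos]
        exact hD.le
      have hs1' : 0 ≤ 1 - s := by linarith
      have hGD : Dq (fun i j => (1 - s) * Pc (m + 2) i j + s * Gr C i j) = δ := by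
        rw [n12_Dq_s, ← hDdef, hs2D]
      obtain ⟨C2, lam, g1, g2, g3, g4⟩ := hnear
        (fun i j => (1 - s) * Pc (m + 2) i j + s * Gr C i j)
        (fun i j => by
          rw [n12_symm C i j, n12_Pc_symm i j])
        (fun y => by
          have e : ∑ i, ∑ j, y i * y j * ((1 - s) * Pc (m + 2) i j + s * Gr C i j) =
              (1 - s) * (∑ i, ∑ j, y i * y j * Gr (Pc (m + 2)) i j) +
                s * ∑ i, ∑ j, y i * y j * Gr C i j := by
            rw [Finset.mul_sum, Finset.mul_sum, ← Finset.sum_add_distrib]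
            refine Finset.sum_congr rfl fun i _ => ?_
            rw [Finset.mul_sum, Finset.mul_sum, ← Finset.sum_add_distrib]
            refine Finset.sum_congr rfl fun j _ => ?_
            rw [n12_Gr_Pc hq]
            ring
          rw [e]
          exact add_nonneg (mul_nonneg hs1' (n12_psd0 _ _)) (mul_nonneg hs0 (n12_psd0 _ _)))
        (fun i => by
          rw [Finset.sum_add_distrib, ← Finset.mul_sum, ← Finset.mul_sum, n12_Pc_row hq,
            n12_rows C hC, mul_zero, mul_zero, add_zero])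
        (by
          rw [Finset.sum_add_distrib, ← Finset.mul_sum, ← Finset.mul_sum, n12_Pc_trace hq, htr]
          push_cast
          ring)
        hGD.le
      rw [hGD] at g4
      have hGm := law_Gm (Pc (m + 2)) C C2 s hs0 hs1 (fun i j => by
        rw [g1, n12_Gr_Pc hq]) mx n12_cont 1 n12_bd lam
      have hcm := conc_max (k := m + 1) (Pc (m + 2)) C (eqv (m + 1)) (eqv (m + 1) - c * D) h0 h1 s
        hs0 hs1 lam
      rw [hGm, g2, zero_div, sub_zero] at hcm
      have hkey : c₀ * δ ≤ c * (s * D) := by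
        have e : (1 - s) * eqv (m + 1) + s * (eqv (m + 1) - c * D) = eqv (m + 1) - c * (s * D) := by
          ring
        rw [e] at hcm
        linarith
      have hDle : D ≤ 4 * ((m:ℝ) + 2) ^ 2 := by
        have h := Dq_le n (m + 2) hq C (by
          rw [ht]
          push_cast
          ring)
        push_cast at h
        exact h
      have hsD : s * D ≤ √δ * (2 * ((m:ℝ) + 2)) := by
        refine (le_abs_self _).trans (abs_le_of_sq_le_sq ?_ (by positivity))
        have e1 : (s * D) ^ 2 = δ * D := by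
          rw [mul_pow, sq D, ← mul_assoc, hs2D]
        have e2 : (√δ * (2 * ((m:ℝ) + 2))) ^ 2 = δ * (4 * ((m:ℝ) + 2) ^ 2) := by
          rw [mul_pow, Real.sq_sqrt hδ.le]
          ring
        rw [e1, e2]
        exact mul_le_mul_of_nonneg_left hDle hδ.le
      have hfin : c * (s * D) ≤ c₀ * δ / 2 := by
        have e1 : c * (s * D) ≤ c₀ * √δ / (4 * ((m:ℝ) + 2)) * (√δ * (2 * ((m:ℝ) + 2))) := by
          refine mul_le_mul hcc1 hsD ?_ hc1.le
          exact mul_nonneg hs0 hDpos.le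
        have e2 : c₀ * √δ / (4 * ((m:ℝ) + 2)) * (√δ * (2 * ((m:ℝ) + 2))) = c₀ * δ / 2 := by
          have e3 : √δ * √δ = δ := Real.mul_self_sqrt hδ.le
          have e4 : c₀ * √δ / (4 * ((m:ℝ) + 2)) * (√δ * (2 * ((m:ℝ) + 2))) =
              c₀ * (√δ * √δ) / 2 := by
            field_simp
            ring
          rw [e4, e3]
        rw [e2] at e1
        exact e1
      have : 0 < c₀ * δ := mul_pos hc₀ hδ
      linarith
    obtain ⟨lam, hl0, hl1⟩ := hex
    have hup : ∀ i, lam i ≤ eqv (m + 1) := by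
      intro i
      have h1 : lam i ≤ ∫ z, mx (lam + ∑ a, z a • C a) ∂(gam n) := by
        rw [← n12_mean C lam i]
        exact integral_mono (n12_int_lin C lam i) (n12_int_mx C lam) fun z => n12_le _ i
      have : 0 ≤ c * Dq (Gr C) := mul_nonneg hcpos.le hD0
      linarith
    have hlow : ∀ i, -(((m:ℝ) + 1) * eqv (m + 1)) ≤ lam i := by
      intro i
      have h1 := Finset.add_sum_erase Finset.univ lam (Finset.mem_univ i)
      rw [hl0] at h1
      have h2 : ∑ j ∈ Finset.univ.erase i, lam j ≤ ((m:ℝ) + 1) * eqv (m + 1) := by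
        have h3 := Finset.sum_le_card_nsmul (Finset.univ.erase i) lam (eqv (m + 1))
          (fun j _ => hup j)
        rw [Finset.card_erase_of_mem (Finset.mem_univ i), Finset.card_univ, Fintype.card_fin,
          nsmul_eq_mul] at h3
        have e : ((m + 2 - 1 : ℕ) : ℝ) = (m:ℝ) + 1 := by
          rw [show m + 2 - 1 = m + 1 by omega]
          push_cast
          ring
        rw [e] at h3
        exact h3
      linarith
    have hE : 0 ≤ eqv (m + 1) := by
      have h1 := hup 0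
      have h2 := hlow 0
      nlinarith
    refine ⟨lam, hl0, fun i => ?_, hl1⟩
    have h1 : lam i ^ 2 ≤ (((m:ℝ) + 1) * eqv (m + 1)) ^ 2 := by
      refine sq_le_sq' (hlow i) ((hup i).trans ?_)
      nlinarith [Nat.cast_nonneg (α := ℝ) m, mul_nonneg (Nat.cast_nonneg (α := ℝ) m) hE]
    have h2 : (((m:ℝ) + 1) * eqv (m + 1)) ^ 2 ≤ K * δ := by
      have h3 : ((m:ℝ) + 1) ^ 2 * eqv (m + 1) ^ 2 / δ ≤ K := le_max_right _ _
      rw [div_le_iff₀ hδ] at h3
      rw [mul_pow]
      exact h3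
    have hKpos : 0 ≤ K := le_max_of_le_left hK₀
    exact h1.trans (h2.trans (mul_le_mul_of_nonneg_left hD.le hKpos))

end Pool.Agent.SSQ
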