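import Pool.Agent.SSQ.C2
import Pool.Agent.SSQ.N12

set_option autoImplicit false
open MeasureTheory ProbabilityTheory Set Real

namespace Pool.Agent.SSQ
open Pool.Agent.SSC3N (gam GG TT)

/-- centroid matrix of a fractional partition -/
noncomputable def Kf {q n : ℕ} (f : Fin q → (Fin n → ℝ) → ℝ) (i : Fin q) (l : Fin n) : ℝ :=
  ∫ x, x l * f i x ∂(gam n)

/-- `|K|²` -/
noncomputable def Tf {q n : ℕ} (f : Fin q → (Fin n → ℝ) → ℝ) : ℝ := ∑ i, ∑ l, Kf f i l ^ 2

/-- the optimal value `T* = (E max)²/(q-1)`, `q = m + 2` -/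
noncomputable def Tst (m : ℕ) : ℝ := eqv (m + 1) ^ 2 / (m + 1)

/-- `κ = √(T*/q)` -/
noncomputable def kap (m : ℕ) : ℝ := Real.sqrt (Tst m / (m + 2))

private theorem c3_prob (m : ℕ) : IsProbabilityMeasure (gam m) := by
  unfold gam; infer_instance

private instance c3_inst (m : ℕ) : IsProbabilityMeasure (gam m) := c3_prob m

private theorem c3_int (n : ℕ) (k : Fin n) : Integrable (fun x : Fin n → ℝ => x k) (gam n) := by
  have h : MeasurePreserving (Function.eval k) (gam n) (gaussianReal 0 1) := by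
    unfold gam; exact measurePreserving_eval _ k
  have h2 : Integrable (fun x : ℝ => x) (gaussianReal 0 1) :=
    (memLp_id_gaussianReal (μ := 0) (v := 1) 1).integrable (by norm_num)
  exact h.integrable_comp_of_integrable h2

private theorem c3_zero (n : ℕ) (k : Fin n) : ∫ x : Fin n → ℝ, x k ∂(gam n) = 0 := by
  have h : MeasurePreserving (Function.eval k) (gam n) (gaussianReal 0 1) := by
    unfold gam; exact measurePreserving_eval _ k
  have h2 : ∫ x : Fin n → ℝ, x k ∂(gam n) = ∫ x : ℝ, x ∂(gaussianReal 0 1) := by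
    rw [← h.map_eq, integral_map h.measurable.aemeasurable (by fun_prop)]
  rw [h2, integral_id_gaussianReal]

private theorem c3_le_one {q : ℕ} {X : Type} [MeasurableSpace X] (f : Fin q → X → ℝ) (hf : FP f)
    (i : Fin q) (x : X) : f i x ≤ 1 := by
  rw [← hf.2.2 x]
  exact Finset.single_le_sum (f := fun i => f i x) (fun j _ => hf.2.1 j x) (Finset.mem_univ i)

private theorem c3_abs {q : ℕ} {X : Type} [MeasurableSpace X] (f : Fin q → X → ℝ) (hf : FP f)
    (i : Fin q) (x : X) : ‖f i x‖ ≤ 1 := by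
  rw [Real.norm_eq_abs, abs_of_nonneg (hf.2.1 i x)]
  exact c3_le_one f hf i x

private theorem c3_mul {q n : ℕ} (f : Fin q → (Fin n → ℝ) → ℝ) (hf : FP f) (i : Fin q)
    (g : (Fin n → ℝ) → ℝ) (hg : Integrable g (gam n)) :
    Integrable (fun x => g x * f i x) (gam n) :=
  hg.mul_bdd (c := 1) (hf.1 i).aestronglyMeasurable
    (Filter.Eventually.of_forall fun x => c3_abs f hf i x)

/-- [C3a] `∑_i K_i = ∫ x = 0`, integrability. -/
theorem Kf_sum {q n : ℕ} (f : Fin q → (Fin n → ℝ) → ℝ) (hf : FP f) :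
    (∀ i l, Integrable (fun x => x l * f i x) (gam n)) ∧ ∀ l, ∑ i, Kf f i l = 0 := by
  have h1 : ∀ i l, Integrable (fun x => x l * f i x) (gam n) := fun i l =>
    c3_mul f hf i (fun x => x l) (c3_int n l)
  refine ⟨h1, fun l => ?_⟩
  unfold Kf
  rw [← integral_finsetSum _ (fun i _ => h1 i l)]
  simp_rw [← Finset.mul_sum, hf.2.2, mul_one]
  exact c3_zero n l

/-- [C3b] DUALITY.  For every `C : Fin n → Fin q → ℝ` and `λ`:
`∑_a ∑_i C_ai K_ia + ∑ λ_i m_i = ∑_i ∫ f_i (λ + Cz)_i ≤ ∫ mx(λ + Cz)` (`∑ f_i = 1`, `f_i ≥ 0`, `y_i ≤ mx y`). -/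
theorem dual {k n : ℕ} (f : Fin (k + 1) → (Fin n → ℝ) → ℝ) (hf : FP f)
    (C : Fin n → Fin (k + 1) → ℝ) (lam : Fin (k + 1) → ℝ) :
    ∑ a, ∑ i, C a i * Kf f i a + ∑ i, lam i * ∫ x, f i x ∂(gam n) ≤
      ∫ z, mx (lam + ∑ a, z a • C a) ∂(gam n) := by
  have hK := (Kf_sum f hf).1
  have hfi : ∀ i, Integrable (f i) (gam n) := fun i =>
    Integrable.of_bound (hf.1 i).aestronglyMeasurable 1
      (Filter.Eventually.of_forall fun x => c3_abs f hf i x)
  have hy : ∀ i, Integrable (fun z : Fin n → ℝ => (lam + ∑ a, z a • C a) i) (gam n) := by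
    intro i
    have : (fun z : Fin n → ℝ => (lam + ∑ a, z a • C a) i) =
        fun z => lam i + ∑ a, z a * C a i := by
      funext z
      simp [Finset.sum_apply]
    rw [this]
    refine (integrable_const _).add (integrable_finsetSum _ fun a _ => ?_)
    exact (c3_int n a).mul_const _
  have hmxc : Continuous (fun z : Fin n → ℝ => mx (lam + ∑ a, z a • C a)) := by
    have h1 := (cl_basic k).2.2.2.2.1
    have h2 : Continuous (fun z : Fin n → ℝ => lam + ∑ a, z a • C a) := by fun_prop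
    exact h1.comp h2
  have hmx : Integrable (fun z : Fin n → ℝ => mx (lam + ∑ a, z a • C a)) (gam n) := by
    have hs : Integrable (fun z : Fin n → ℝ => ∑ i, |(lam + ∑ a, z a • C a) i|) (gam n) :=
      integrable_finsetSum _ fun i _ => (hy i).abs
    refine hs.mono' hmxc.aestronglyMeasurable (Filter.Eventually.of_forall fun z => ?_)
    rw [Real.norm_eq_abs]
    exact (cl_basic k).2.2.2.2.2 _
  have hle : ∀ z : Fin n → ℝ,
      ∑ i, (lam + ∑ a, z a • C a) i * f i z ≤ mx (lam + ∑ a, z a • C a) := by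
    intro z
    have h1 : ∀ i, (lam + ∑ a, z a • C a) i * f i z ≤ mx (lam + ∑ a, z a • C a) * f i z := by
      intro i
      refine mul_le_mul_of_nonneg_right ?_ (hf.2.1 i z)
      unfold mx
      exact Finset.le_sup' (fun i => (lam + ∑ a, z a • C a) i) (Finset.mem_univ i)
    refine le_trans (Finset.sum_le_sum fun i _ => h1 i) ?_
    rw [← Finset.mul_sum, hf.2.2, mul_one]
  have hint : ∀ i, Integrable (fun z : Fin n → ℝ => (lam + ∑ a, z a • C a) i * f i z) (gam n) :=
    fun i => c3_mul f hf i _ (hy i)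
  have e1 : ∀ i, ∫ z, (lam + ∑ a, z a • C a) i * f i z ∂(gam n) =
      ∑ a, C a i * Kf f i a + lam i * ∫ x, f i x ∂(gam n) := by
    intro i
    have : (fun z : Fin n → ℝ => (lam + ∑ a, z a • C a) i * f i z) =
        fun z => (∑ a, C a i * (z a * f i z)) + lam i * f i z := by
      funext z
      simp only [Pi.add_apply, Finset.sum_apply, Pi.smul_apply, smul_eq_mul]
      rw [add_mul, Finset.sum_mul, add_comm]
      congr 1
      refine Finset.sum_congr rfl fun a _ => ?_
      ring
    rw [this, integral_add (integrable_finsetSum _ fun a _ => (hK i a).const_mul _)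
      ((hfi i).const_mul _), integral_finsetSum _ (fun a _ => (hK i a).const_mul _),
      integral_const_mul]
    congr 1
    refine Finset.sum_congr rfl fun a _ => ?_
    rw [integral_const_mul]
    rfl
  have e2 : ∑ a, ∑ i, C a i * Kf f i a + ∑ i, lam i * ∫ x, f i x ∂(gam n) =
      ∫ z, ∑ i, (lam + ∑ a, z a • C a) i * f i z ∂(gam n) := by
    rw [integral_finsetSum _ (fun i _ => hint i), Finset.sum_comm, ← Finset.sum_add_distrib]
    exact Finset.sum_congr rfl fun i _ => (e1 i).symm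
  rw [e2]
  exact integral_mono (integrable_finsetSum _ fun i _ => hint i) hmx hle

end Pool.Agent.SSQ
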