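import Pool.Agent.SSQ.C3

set_option autoImplicit false
open MeasureTheory ProbabilityTheory Set Real

namespace Pool.Agent.SSQ
open Pool.Agent.SSC3N (gam GG TT)

private theorem c3c_Dq_nonneg {q : ℕ} (G : Fin q → Fin q → ℝ) : 0 ≤ Dq G := by
  unfold Dq
  exact Finset.sum_nonneg fun _ _ => Finset.sum_nonneg fun _ _ => sq_nonneg _

/-- [C3c] LEVEL ONE INEQUALITY WITH GAP.  Let `T = Tf f > 0`, `C_ai = √((m+1)/T) K_ia` (`∑_i C_ai = 0`,
`∑ C² = m+1`, `Gr C = ((m+1)/T) KKᵀ`), `λ` from `gap`.  `dual`: `√((m+1)T) + ∑ λ_i m_i ≤ eqv - c D`, `D = Dq (Gr C)`;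
`∑λ = 0`, so `|∑ λ_i m_i| = |∑ λ_i (m_i - 1/q)| ≤ √(∑λ_i²) √pen ≤ √(q K D) √pen ≤ (c/2) D + (qK/(2c)) pen`. -/
theorem level_one (m : ℕ) : ∃ c C : ℝ, 0 < c ∧ 0 ≤ C ∧ ∀ (n : ℕ)
    (f : Fin (m + 2) → (Fin n → ℝ) → ℝ), FP f → 0 < Tf f →
    Real.sqrt ((m + 1) * Tf f) ≤ eqv (m + 1)
      - c * Dq (fun i j => (m + 1) / Tf f * ∑ l, Kf f i l * Kf f j l) + C * pen f := by
  obtain ⟨c, K, hc, hK, hgap⟩ := gap m
  have hqK : 0 < ((m : ℝ) + 2) * K + 1 := by positivity
  refine ⟨c / 2, (((m : ℝ) + 2) * K + 1) / (2 * c), by positivity, by positivity, ?_⟩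
  intro n f hf hT
  set T := Tf f with hTdef
  have hm : (0 : ℝ) < (m : ℝ) + 1 := by positivity
  set s := Real.sqrt (((m : ℝ) + 1) / T) with hs
  have hs2 : s ^ 2 = ((m : ℝ) + 1) / T := Real.sq_sqrt (by positivity)
  have hs0 : 0 < s := Real.sqrt_pos.2 (by positivity)
  set C : Fin n → Fin (m + 2) → ℝ := fun a i => s * Kf f i a with hC
  have hC0 : ∀ a, ∑ i, C a i = 0 := by
    intro a
    simp only [hC]
    rw [← Finset.mul_sum, (Kf_sum f hf).2 a, mul_zero]
  have hTs : ∑ a, ∑ i, Kf f i a ^ 2 = T := by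
    rw [Finset.sum_comm, hTdef]; rfl
  have hC2 : ∑ a, ∑ i, C a i ^ 2 = (m : ℝ) + 1 := by
    simp only [hC, mul_pow]
    simp_rw [← Finset.mul_sum]
    rw [hTs, hs2]
    field_simp
  have hGr : Gr C = fun i j => ((m : ℝ) + 1) / T * ∑ l, Kf f i l * Kf f j l := by
    funext i j
    unfold Gr
    simp only [hC]
    rw [Finset.mul_sum]
    refine Finset.sum_congr rfl fun a _ => ?_
    rw [← hs2]; ring
  obtain ⟨lam, hl0, hl2, hle⟩ := hgap n C hC0 hC2
  have hd := dual f hf C lam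
  rw [← hGr]
  set D := Dq (Gr C) with hD
  have hD0 : 0 ≤ D := c3c_Dq_nonneg _
  have e1 : ∑ a, ∑ i, C a i * Kf f i a = Real.sqrt (((m : ℝ) + 1) * T) := by
    have h1 : ∑ a, ∑ i, C a i * Kf f i a = s * T := by
      rw [← hTs, Finset.mul_sum]
      refine Finset.sum_congr rfl fun a _ => ?_
      rw [Finset.mul_sum]
      refine Finset.sum_congr rfl fun i _ => ?_
      simp only [hC]; ring
    rw [h1]
    symm
    rw [Real.sqrt_eq_iff_mul_self_eq (by positivity) (by positivity)]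
    have : s * T * (s * T) = s ^ 2 * (T * T) := by ring
    rw [this, hs2]
    field_simp
  rw [e1] at hd
  -- the penalty
  set d : Fin (m + 2) → ℝ := fun i => (∫ x, f i x ∂(gam n)) - 1 / ((m + 2 : ℕ) : ℝ) with hdd
  have e2 : ∑ i, lam i * ∫ x, f i x ∂(gam n) = ∑ i, lam i * d i := by
    simp only [hdd, mul_sub]
    rw [Finset.sum_sub_distrib, ← Finset.sum_mul, hl0, zero_mul, sub_zero]
  have hpen : pen f = ∑ i, d i ^ 2 := rfl
  set η := c / (((m : ℝ) + 2) * K + 1) with hη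
  have hη0 : 0 < η := by positivity
  have e3 : ∀ i, -(lam i * d i) ≤ η / 2 * (K * D) + 1 / (2 * η) * d i ^ 2 := by
    intro i
    have h1 : -(lam i * d i) ≤ η / 2 * lam i ^ 2 + 1 / (2 * η) * d i ^ 2 := by
      have h2 : 0 ≤ (η * lam i + d i) ^ 2 / (2 * η) := by positivity
      have h3 : (η * lam i + d i) ^ 2 / (2 * η) =
          η / 2 * lam i ^ 2 + lam i * d i + 1 / (2 * η) * d i ^ 2 := by
        field_simp
        ring
      linarith
    have h4 : η / 2 * lam i ^ 2 ≤ η / 2 * (K * D) :=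
      mul_le_mul_of_nonneg_left (hl2 i) (by positivity)
    linarith
  have e4 : -∑ i, lam i * d i ≤ c / 2 * D + (((m : ℝ) + 2) * K + 1) / (2 * c) * pen f := by
    have h1 : -∑ i, lam i * d i ≤ ∑ i, (η / 2 * (K * D) + 1 / (2 * η) * d i ^ 2) := by
      rw [← Finset.sum_neg_distrib]
      exact Finset.sum_le_sum fun i _ => e3 i
    rw [Finset.sum_add_distrib, Finset.sum_const, Finset.card_univ, Fintype.card_fin,
      nsmul_eq_mul, ← Finset.mul_sum, ← hpen] at h1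
    have h2 : 1 / (2 * η) = (((m : ℝ) + 2) * K + 1) / (2 * c) := by
      rw [hη]; field_simp
    rw [h2] at h1
    have h3 : ((m + 2 : ℕ) : ℝ) * (η / 2 * (K * D)) ≤ c / 2 * D := by
      have h4 : ((m + 2 : ℕ) : ℝ) * (η / 2 * (K * D)) = (η * (((m : ℝ) + 2) * K)) / 2 * D := by
        push_cast; ring
      rw [h4]
      refine mul_le_mul_of_nonneg_right ?_ hD0
      have h5 : η * (((m : ℝ) + 2) * K) ≤ c := by
        have h6 : η * (((m : ℝ) + 2) * K + 1) = c := by rw [hη]; field_simp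
        nlinarith
      linarith
    linarith
  rw [e2] at hd
  linarith

/-- [C3e] the level one inequality: balanced fractional partitions have `|K|² ≤ T*` (`level_one`, `pen = 0`, `D ≥ 0`;
trivial if `Tf f = 0`). -/
theorem level_le (m n : ℕ) (f : Fin (m + 2) → (Fin n → ℝ) → ℝ) (hf : FP f)
    (hb : ∀ i, ∫ x, f i x ∂(gam n) = 1 / ((m + 2 : ℕ) : ℝ)) : Tf f ≤ Tst m := by
  have hm : (0 : ℝ) < (m : ℝ) + 1 := by positivity
  have hT0 : 0 ≤ Tf f := by
    unfold Tf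
    exact Finset.sum_nonneg fun _ _ => Finset.sum_nonneg fun _ _ => sq_nonneg _
  rcases hT0.lt_or_eq with hT | hT
  · obtain ⟨c, C, hc, hC, h⟩ := level_one m
    have h1 := h n f hf hT
    have hpen : pen f = 0 := by
      unfold pen
      refine Finset.sum_eq_zero fun i _ => ?_
      rw [hb i, sub_self]; norm_num
    rw [hpen, mul_zero, add_zero] at h1
    have hD0 := mul_nonneg hc.le (c3c_Dq_nonneg
      (fun i j => ((m : ℝ) + 1) / Tf f * ∑ l, Kf f i l * Kf f j l))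
    have h2 : Real.sqrt (((m : ℝ) + 1) * Tf f) ≤ eqv (m + 1) := by linarith
    have h3 : ((m : ℝ) + 1) * Tf f ≤ eqv (m + 1) ^ 2 := by
      have h4 := Real.sq_sqrt (show (0 : ℝ) ≤ ((m : ℝ) + 1) * Tf f by positivity)
      rw [← h4]
      exact pow_le_pow_left₀ (Real.sqrt_nonneg _) h2 2
    unfold Tst
    rw [le_div_iff₀ hm]
    linarith
  · rw [← hT]
    unfold Tst
    positivity

end Pool.Agent.SSQ
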