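import Pool.Agent.SSQ.C3c

set_option autoImplicit false
open MeasureTheory ProbabilityTheory Set Real

namespace Pool.Agent.SSQ
open Pool.Agent.SSC3N (gam GG TT)

private lemma c3d_real (M e c1 C1 P : ℝ) (hM : 0 < M) (he : 0 < e) (hc1 : 0 < c1) (hC1 : 0 ≤ C1)
    (hP : 0 ≤ P) : ∃ c C : ℝ, 0 < c ∧ c ≤ 1 ∧ 0 ≤ C ∧ ∀ T D p X : ℝ, 0 < T → 0 ≤ D → 0 ≤ p → p ≤ P →
      0 ≤ X → Real.sqrt (M * T) ≤ e - c1 * D + C1 * p →
      e ^ 2 / M / M * X ≤ 2 * (T / M) ^ 2 * D + 2 * (T - e ^ 2 / M) ^ 2 / M →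
      T ≤ e ^ 2 / M - c * X + C * p := by
  have hTs : 0 < e ^ 2 / M := by positivity
  have hs : 0 < e ^ 2 / M / M := by positivity
  obtain ⟨Ts, hTsd⟩ : ∃ Ts, Ts = e ^ 2 / M := ⟨_, rfl⟩
  rw [← hTsd] at hTs hs ⊢
  have hMTs : M * Ts = e ^ 2 := by rw [hTsd]; field_simp
  obtain ⟨B, hBd⟩ : ∃ B, B = e + C1 * P := ⟨_, rfl⟩
  have hB : 0 < B := by rw [hBd]; positivity
  obtain ⟨Tm, hTmd⟩ : ∃ Tm, Tm = B ^ 2 / M := ⟨_, rfl⟩
  have hTm : 0 < Tm := by rw [hTmd]; positivity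
  obtain ⟨A, hAd⟩ : ∃ A, A = 2 * (Tm / M) ^ 2 + 2 / M := ⟨_, rfl⟩
  have hA : 0 < A := by rw [hAd]; positivity
  obtain ⟨C2, hC2d⟩ : ∃ C2, C2 = A / (Ts / M) := ⟨_, rfl⟩
  have hC2 : 0 < C2 := by rw [hC2d]; positivity
  obtain ⟨c5, hc5d⟩ : ∃ c5, c5 = min (e * c1 / (2 * M)) (1 / (2 * Ts)) := ⟨_, rfl⟩
  have hc5 : 0 < c5 := by rw [hc5d]; exact lt_min (by positivity) (by positivity)
  obtain ⟨C6, hC6d⟩ : ∃ C6, C6 = C1 * (2 * B) / M := ⟨_, rfl⟩
  have hC6 : 0 ≤ C6 := by rw [hC6d]; positivity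
  obtain ⟨C8, hC8d⟩ : ∃ C8, C8 = C2 * (C1 / c1 + C6 ^ 2 * P) := ⟨_, rfl⟩
  have hC8 : 0 ≤ C8 := by rw [hC8d]; positivity
  obtain ⟨C5, hC5d⟩ : ∃ C5, C5 = e * C1 / (2 * M) := ⟨_, rfl⟩
  have hC5 : 0 ≤ C5 := by rw [hC5d]; positivity
  refine ⟨min 1 (c5 / C2), C5 + C6 + C8, lt_min one_pos (by positivity), min_le_left _ _,
    by positivity, ?_⟩
  intro T D p X hT hD hp hpP hX h1 h2
  obtain ⟨u, hud⟩ : ∃ u, u = Real.sqrt (M * T) := ⟨_, rfl⟩
  have hu0 : 0 < u := by rw [hud]; exact Real.sqrt_pos.mpr (by positivity)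
  have hu2 : u ^ 2 = M * T := by rw [hud]; exact Real.sq_sqrt (by positivity)
  rw [← hud] at h1
  have hCp : C1 * p ≤ C1 * P := mul_le_mul_of_nonneg_left hpP hC1
  have hcD : 0 ≤ c1 * D := by positivity
  have huB : u ≤ B := by rw [hBd]; linarith
  have hTTm : T ≤ Tm := by
    rw [hTmd, le_div_iff₀ hM]
    nlinarith
  -- bound for X
  have hX2 : X ≤ C2 * (D + (T - Ts) ^ 2) := by
    have e1 : 2 * (T / M) ^ 2 * D ≤ A * D := by
      apply mul_le_mul_of_nonneg_right _ hD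
      have e2 : (T / M) ^ 2 ≤ (Tm / M) ^ 2 := by
        apply pow_le_pow_left₀ (by positivity)
        gcongr
      have e3 : 0 < 2 / M := by positivity
      rw [hAd]; linarith
    have e2 : 2 * (T - Ts) ^ 2 / M ≤ A * (T - Ts) ^ 2 := by
      have e3 : 2 * (T - Ts) ^ 2 / M = 2 / M * (T - Ts) ^ 2 := by ring
      rw [e3]
      apply mul_le_mul_of_nonneg_right _ (sq_nonneg _)
      have e4 : 0 ≤ 2 * (Tm / M) ^ 2 := by positivity
      rw [hAd]; linarith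
    have e3 : Ts / M * X ≤ A * (D + (T - Ts) ^ 2) := by
      calc Ts / M * X ≤ _ := h2
        _ ≤ A * D + A * (T - Ts) ^ 2 := add_le_add e1 e2
        _ = _ := by ring
    rw [hC2d, div_mul_eq_mul_div, le_div_iff₀ hs]
    linarith
  have hcle : min 1 (c5 / C2) * X ≤ c5 / C2 * X := mul_le_mul_of_nonneg_right (min_le_right _ _) hX
  have hcle1 : min 1 (c5 / C2) * X ≤ 1 * X := mul_le_mul_of_nonneg_right (min_le_left _ _) hX
  have hcX : c5 / C2 * X ≤ c5 * (D + (T - Ts) ^ 2) := by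
    calc c5 / C2 * X ≤ c5 / C2 * (C2 * (D + (T - Ts) ^ 2)) := mul_le_mul_of_nonneg_left hX2 (by positivity)
      _ = _ := by field_simp
  rcases le_or_gt u e with hue | hue
  · -- case u ≤ e
    have k1 : M * (Ts - T) = (e - u) * (e + u) := by nlinarith
    have k2 : 0 ≤ Ts - T := by
      have : 0 ≤ M * (Ts - T) := by
        rw [k1]; exact mul_nonneg (by linarith) (by linarith)
      exact nonneg_of_mul_nonneg_right this hM
    have k3 : (T - Ts) ^ 2 ≤ Ts * (Ts - T) := by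
      nlinarith
    have k4 : e * (c1 * D - C1 * p) ≤ M * (Ts - T) := by
      rw [k1]
      have k5 : e * (c1 * D - C1 * p) ≤ e * (e - u) := mul_le_mul_of_nonneg_left (by linarith) he.le
      have k6 : 0 ≤ (e - u) * u := mul_nonneg (by linarith) hu0.le
      nlinarith
    have k5 : (e * c1 / (2 * M)) * D - C5 * p ≤ (Ts - T) / 2 := by
      have : (e * c1 / (2 * M)) * D - C5 * p = e * (c1 * D - C1 * p) / (2 * M) := by
        rw [hC5d]; ring
      rw [this, div_le_iff₀ (by positivity)]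
      linarith
    have k6 : 1 / (2 * Ts) * (T - Ts) ^ 2 ≤ (Ts - T) / 2 := by
      rw [div_mul_eq_mul_div, div_le_iff₀ (by positivity)]
      linarith
    have k7 : c5 * D ≤ (e * c1 / (2 * M)) * D := mul_le_mul_of_nonneg_right (by rw [hc5d]; exact min_le_left _ _) hD
    have k8 : c5 * (T - Ts) ^ 2 ≤ 1 / (2 * Ts) * (T - Ts) ^ 2 :=
      mul_le_mul_of_nonneg_right (by rw [hc5d]; exact min_le_right _ _) (sq_nonneg _)
    have k9 : 0 ≤ C6 * p := by positivity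
    have k10 : 0 ≤ C8 * p := by positivity
    nlinarith
  · -- case e < u
    have k1 : M * (T - Ts) = (u - e) * (u + e) := by nlinarith
    have k2 : 0 ≤ T - Ts := by
      have : 0 ≤ M * (T - Ts) := by
        rw [k1]; exact mul_nonneg (by linarith) (by linarith)
      exact nonneg_of_mul_nonneg_right this hM
    have k3 : T - Ts ≤ C6 * p := by
      have k4 : M * (T - Ts) ≤ C1 * p * (2 * B) := by
        rw [k1]
        apply mul_le_mul (by linarith) (by linarith) (by linarith) (by positivity)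
      have k5 : C6 * p = C1 * p * (2 * B) / M := by rw [hC6d]; ring
      rw [k5, le_div_iff₀ hM]
      linarith
    have k4 : D ≤ C1 / c1 * p := by
      rw [div_mul_eq_mul_div, le_div_iff₀ hc1]
      linarith
    have k5 : (T - Ts) ^ 2 ≤ C6 ^ 2 * P * p := by
      calc (T - Ts) ^ 2 ≤ (C6 * p) ^ 2 := pow_le_pow_left₀ k2 k3 2
        _ = C6 ^ 2 * (p * p) := by ring
        _ ≤ C6 ^ 2 * (P * p) := mul_le_mul_of_nonneg_left (mul_le_mul_of_nonneg_right hpP hp) (sq_nonneg _)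
        _ = _ := by ring
    have k6 : X ≤ C8 * p := by
      calc X ≤ C2 * (D + (T - Ts) ^ 2) := hX2
        _ ≤ C2 * (C1 / c1 * p + C6 ^ 2 * P * p) := mul_le_mul_of_nonneg_left (add_le_add k4 k5) hC2.le
        _ = C8 * p := by rw [hC8d]; ring
    have k9 : 0 ≤ C5 * p := by positivity
    nlinarith

private lemma c3d_pen {q n : ℕ} (f : Fin q → (Fin n → ℝ) → ℝ) (hf : FP f) :
    0 ≤ pen f ∧ pen f ≤ q := by
  refine ⟨Finset.sum_nonneg fun i _ => sq_nonneg _, ?_⟩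
  unfold pen
  have h : ∀ i : Fin q, ((∫ x, f i x ∂(gam n)) - 1 / (q : ℝ)) ^ 2 ≤ 1 := by
    intro i
    have hq : 0 < q := Fin.pos i
    have hq1 : (1 : ℝ) ≤ q := by exact_mod_cast hq
    have h0 : 0 ≤ ∫ x, f i x ∂(gam n) := integral_nonneg fun x => hf.2.1 i x
    have hfi : ∀ x, f i x ≤ 1 := by
      intro x
      rw [← hf.2.2 x]
      exact Finset.single_le_sum (fun j _ => hf.2.1 j x) (Finset.mem_univ i)
    have h1 : ∫ x, f i x ∂(gam n) ≤ 1 := by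
      have := Pool.Agent.SSC3N.gam_prob n
      calc ∫ x, f i x ∂(gam n) ≤ ∫ x, (1 : ℝ) ∂(gam n) := by
            apply integral_mono_of_nonneg (Filter.Eventually.of_forall fun x => hf.2.1 i x)
              (integrable_const _) (Filter.Eventually.of_forall hfi)
        _ = 1 := by simp
    have h2 : 1 / (q : ℝ) ≤ 1 := by rw [div_le_one (by linarith)]; exact hq1
    have h3 : 0 ≤ 1 / (q : ℝ) := by positivity
    nlinarith
  calc ∑ i, ((∫ x, f i x ∂(gam n)) - 1 / (q : ℝ)) ^ 2 ≤ ∑ i : Fin q, (1 : ℝ) := Finset.sum_le_sum fun i _ => h i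
    _ = q := by simp

private lemma c3d_Pc (q : ℕ) (hq : 0 < q) : ∑ i, ∑ j, Pc q i j ^ 2 = (q : ℝ) - 1 := by
  have hq0 : (q : ℝ) ≠ 0 := by positivity
  have h : ∀ i : Fin q, ∑ j, Pc q i j ^ 2 = 1 - 1 / (q : ℝ) := by
    intro i
    have h1 : ∀ j : Fin q, Pc q i j ^ 2 = (if i = j then 1 - 2 / (q : ℝ) else 0) + 1 / (q : ℝ) ^ 2 := by
      intro j
      unfold Pc
      split_ifs
      · field_simp; ring
      · field_simp; ring
    rw [Finset.sum_congr rfl fun j _ => h1 j, Finset.sum_add_distrib, Finset.sum_ite_eq]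
    simp
    field_simp
    ring
  rw [Finset.sum_congr rfl fun i _ => h i]
  simp
  field_simp

/-- [C3d] FINAL FORM.  `T = Tf f`.  If `T = 0` take `U = 1` and `c ≤ 1` (`∑ (κ a)² = κ² q = T*`).  Otherwise
`rot_near` with `κ = kap m` (`κ²q/(q-1) = T*/(m+1) =: κ'²`, `κ > 0` since `eqv > 0`: `eqv_eq`, `hh_pos`): with
`G = ((m+1)/T) KKᵀ`, `KKᵀ - κ'²Π = (T/(m+1))(G - Π) + ((T-T*)/(m+1)) Π`, so
`κ'² ∑ (K - κaU)² ≤ 2 (T/(m+1))² Dq G + 2 (T-T*)²/(m+1)` (`|Π|² = m+1`).  `T` is bounded (`level_one`, `pen ≤ 2`), so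
`X := ∑ (K - κaU)² ≤ C₂ (Dq G + (T-T*)²)`.  Let `u = √((m+1)T)`, `u* = eqv = √((m+1)T*)`, `level_one`:
`u ≤ u* - cD + C₁ pen`.
Case `u ≤ u*`: `T* - T = (u*-u)(u+u*)/(m+1) ≥ (u*-u) u*/(m+1) ≥ (u*/(m+1)) (cD - C₁pen)` and `(T*-T)² ≤ T*(T*-T)`; add:
`2(T*-T) ≥ c₅ (D + (T-T*)²) - C₅ pen ≥ (c₅/C₂) X - C₅ pen`.
Case `u > u*`: `cD ≤ C₁ pen`, `0 ≤ T - T* = (u-u*)(u+u*)/(m+1) ≤ C₆ pen`, `(T-T*)² ≤ C₇ pen` (`pen ≤ 2`), so
`X ≤ C₈ pen` and `T ≤ T* + C₆ pen ≤ T* - X + (C₆+C₈) pen`. -/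
theorem Bprime (m : ℕ) : ∃ c C : ℝ, 0 < c ∧ 0 ≤ C ∧ ∀ (n : ℕ)
    (a : Fin (m + 2) → Fin n → ℝ), IsSx a → ∀ f : Fin (m + 2) → (Fin n → ℝ) → ℝ, FP f →
    ∃ U ∈ Matrix.orthogonalGroup (Fin n) ℝ,
      Tf f ≤ Tst m - c * ∑ i, ∑ l, (Kf f i l - kap m * ∑ p, a i p * U p l) ^ 2 + C * pen f := by
  obtain ⟨c1, C1, hc1, hC1, hlev⟩ := level_one m
  have hM : (0 : ℝ) < (m : ℝ) + 1 := by positivity
  have hM2 : (0 : ℝ) < (m : ℝ) + 2 := by positivity
  have he : 0 < eqv (m + 1) := by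
    rw [eqv_eq]
    have := (hh_pos m).1
    positivity
  obtain ⟨c, C, hc, hcl, hC, hreal⟩ := c3d_real ((m : ℝ) + 1) (eqv (m + 1)) c1 C1 ((m + 2 : ℕ) : ℝ)
    hM he hc1 hC1 (by positivity)
  refine ⟨c, C, hc, hC, ?_⟩
  intro n a ha f hf
  obtain ⟨hp0, hpP⟩ := c3d_pen f hf
  have hTs : 0 < Tst m := by unfold Tst; positivity
  have hk2 : kap m ^ 2 = Tst m / (m + 2) := by
    unfold kap
    exact Real.sq_sqrt (by positivity)
  have hk0 : 0 < kap m := by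
    unfold kap
    exact Real.sqrt_pos.mpr (by positivity)
  have hq : (((m + 2 : ℕ) : ℝ)) = (m : ℝ) + 2 := by push_cast; ring
  have hT0 : 0 ≤ Tf f := Finset.sum_nonneg fun i _ => Finset.sum_nonneg fun l _ => sq_nonneg _
  rcases hT0.eq_or_lt with hT | hT
  · refine ⟨1, one_mem _, ?_⟩
    have hK : ∀ i l, Kf f i l = 0 := by
      intro i l
      have h1 := hT.symm
      unfold Tf at h1
      rw [Finset.sum_eq_zero_iff_of_nonneg
        (fun i _ => Finset.sum_nonneg fun l _ => sq_nonneg _)] at h1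
      have h2 := h1 i (Finset.mem_univ i)
      rw [Finset.sum_eq_zero_iff_of_nonneg (fun l _ => sq_nonneg _)] at h2
      exact pow_eq_zero_iff (two_ne_zero) |>.mp (h2 l (Finset.mem_univ l))
    have h3 : ∀ i l, (Kf f i l - kap m * ∑ p, a i p * (1 : Matrix (Fin n) (Fin n) ℝ) p l) ^ 2
        = kap m ^ 2 * (a i l * a i l) := by
      intro i l
      rw [hK i l]
      simp [Matrix.one_apply]
      ring
    have h4 : ∑ i, ∑ l, (Kf f i l - kap m * ∑ p, a i p * (1 : Matrix (Fin n) (Fin n) ℝ) p l) ^ 2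
        = Tst m := by
      calc _ = ∑ i, ∑ l, kap m ^ 2 * (a i l * a i l) :=
            Finset.sum_congr rfl fun i _ => Finset.sum_congr rfl fun l _ => h3 i l
        _ = ∑ i : Fin (m + 2), kap m ^ 2 * 1 := by
            apply Finset.sum_congr rfl
            intro i _
            rw [← Finset.mul_sum, ha.1 i]
        _ = Tst m := by
            rw [hk2]
            simp
            field_simp
    rw [h4, ← hT]
    have h5 : c * Tst m ≤ 1 * Tst m := mul_le_mul_of_nonneg_right hcl hTs.le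
    have h6 : 0 ≤ C * pen f := mul_nonneg hC hp0
    linarith
  · obtain ⟨U, hU, hrot⟩ := rot_near (q := m + 2) (by omega) a ha (Kf f) (Kf_sum f hf).2 (kap m) hk0
    refine ⟨U, hU, ?_⟩
    have hlv := hlev n f hf hT
    have hs : kap m ^ 2 * (((m + 2 : ℕ) : ℝ) / (((m + 2 : ℕ) : ℝ) - 1)) = Tst m / ((m : ℝ) + 1) := by
      rw [hk2, hq]
      have : (m : ℝ) + 2 - 1 = (m : ℝ) + 1 := by ring
      rw [this]
      field_simp
    rw [hs] at hrot
    obtain ⟨D, hDd⟩ : ∃ D, D = Dq (fun i j => ((m : ℝ) + 1) / Tf f * ∑ l, Kf f i l * Kf f j l) := ⟨_, rfl⟩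
    have hD : 0 ≤ D := by
      rw [hDd]
      exact Finset.sum_nonneg fun i _ => Finset.sum_nonneg fun j _ => sq_nonneg _
    rw [← hDd] at hlv
    have hrhs : ∑ i, ∑ j, (∑ l, Kf f i l * Kf f j l - Tst m / ((m : ℝ) + 1) * Pc (m + 2) i j) ^ 2 ≤
        2 * (Tf f / ((m : ℝ) + 1)) ^ 2 * D + 2 * (Tf f - Tst m) ^ 2 / ((m : ℝ) + 1) := by
      have h1 : ∀ i j : Fin (m + 2), (∑ l, Kf f i l * Kf f j l - Tst m / ((m : ℝ) + 1) * Pc (m + 2) i j) ^ 2 ≤
          2 * (Tf f / ((m : ℝ) + 1)) ^ 2 * (((m : ℝ) + 1) / Tf f * (∑ l, Kf f i l * Kf f j l) - Pc (m + 2) i j) ^ 2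
          + 2 * ((Tf f - Tst m) / ((m : ℝ) + 1)) ^ 2 * Pc (m + 2) i j ^ 2 := by
        intro i j
        obtain ⟨S, hS⟩ : ∃ S, S = ∑ l, Kf f i l * Kf f j l := ⟨_, rfl⟩
        obtain ⟨p, hp⟩ : ∃ p, p = Pc (m + 2) i j := ⟨_, rfl⟩
        rw [← hS, ← hp]
        have h2 : S - Tst m / ((m : ℝ) + 1) * p =
            (Tf f / ((m : ℝ) + 1)) * (((m : ℝ) + 1) / Tf f * S - p)
            + ((Tf f - Tst m) / ((m : ℝ) + 1)) * p := by
          field_simp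
          ring
        rw [h2]
        obtain ⟨x, hx⟩ : ∃ x, x = (Tf f / ((m : ℝ) + 1)) * (((m : ℝ) + 1) / Tf f * S - p) := ⟨_, rfl⟩
        obtain ⟨y, hy⟩ : ∃ y, y = ((Tf f - Tst m) / ((m : ℝ) + 1)) * p := ⟨_, rfl⟩
        have h3 : 2 * (Tf f / ((m : ℝ) + 1)) ^ 2 * (((m : ℝ) + 1) / Tf f * S - p) ^ 2
          + 2 * ((Tf f - Tst m) / ((m : ℝ) + 1)) ^ 2 * p ^ 2 = 2 * x ^ 2 + 2 * y ^ 2 := by
          rw [hx, hy]; ring
        rw [h3, ← hx, ← hy]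
        nlinarith [sq_nonneg (x - y)]
      calc _ ≤ ∑ i, ∑ j, (2 * (Tf f / ((m : ℝ) + 1)) ^ 2 * (((m : ℝ) + 1) / Tf f * (∑ l, Kf f i l * Kf f j l) - Pc (m + 2) i j) ^ 2
          + 2 * ((Tf f - Tst m) / ((m : ℝ) + 1)) ^ 2 * Pc (m + 2) i j ^ 2) :=
            Finset.sum_le_sum fun i _ => Finset.sum_le_sum fun j _ => h1 i j
        _ = 2 * (Tf f / ((m : ℝ) + 1)) ^ 2 * D + 2 * ((Tf f - Tst m) / ((m : ℝ) + 1)) ^ 2 *
              ∑ i, ∑ j, Pc (m + 2) i j ^ 2 := by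
            rw [hDd]
            unfold Dq
            simp only [Finset.sum_add_distrib, ← Finset.mul_sum]
        _ = _ := by
            rw [c3d_Pc (m + 2) (by omega), hq]
            field_simp
            ring
    have hfin := hreal (Tf f) D (pen f)
      (∑ i, ∑ l, (Kf f i l - kap m * ∑ p, a i p * U p l) ^ 2) hT hD hp0 hpP
      (Finset.sum_nonneg fun i _ => Finset.sum_nonneg fun l _ => sq_nonneg _) hlv
      (hrot.trans hrhs)
    exact hfin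

end Pool.Agent.SSQ
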