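import Pool.Agent.SSQ.C3c

set_option autoImplicit false
open MeasureTheory ProbabilityTheory Set Real

namespace Pool.Agent.SSQ
open Pool.Agent.SSC3N (gam GG TT)

/-- canonical cell: `i` is the least index maximising `⟨a_j, x⟩`. -/
def sxc {q n : ℕ} (a : Fin q → Fin n → ℝ) (i : Fin q) : Set (Fin n → ℝ) :=
  {x | (∀ j, j < i → ∑ l, a j l * x l < ∑ l, a i l * x l) ∧
    (∀ j, i < j → ∑ l, a j l * x l ≤ ∑ l, a i l * x l)}

/-- canonical simplex partition, as a fractional partition -/
noncomputable def fst {q n : ℕ} (a : Fin q → Fin n → ℝ) (i : Fin q) : (Fin n → ℝ) → ℝ :=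
  (sxc a i).indicator (fun _ => 1)

/-- [C5a] for `q ≥ 1` the cells are measurable, disjoint and cover; `fst` is a fractional partition; on `sxc a i`
all `⟨a_j, x⟩ ≤ ⟨a_i, x⟩`. -/
theorem sxc_basic {q n : ℕ} (hq : 0 < q) (a : Fin q → Fin n → ℝ) :
    (∀ i, MeasurableSet (sxc a i)) ∧ (∀ x, ∃! i, x ∈ sxc a i) ∧ FP (fst a) ∧
    (∀ i, ∀ x ∈ sxc a i, ∀ j, ∑ l, a j l * x l ≤ ∑ l, a i l * x l) := by
  have hmeas1 : ∀ j, Measurable (fun x : Fin n → ℝ => ∑ l, a j l * x l) := fun j =>
    Finset.measurable_sum _ fun l _ => (measurable_pi_apply l).const_mul _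
  have hm : ∀ i, MeasurableSet (sxc a i) := by
    intro i
    have h1 : sxc a i = (⋂ j, ⋂ (_ : j < i), {x | ∑ l, a j l * x l < ∑ l, a i l * x l}) ∩
        (⋂ j, ⋂ (_ : i < j), {x | ∑ l, a j l * x l ≤ ∑ l, a i l * x l}) := by
      ext x
      simp only [sxc, mem_ofPred_eq, mem_inter_iff, mem_iInter]
    rw [h1]
    exact (MeasurableSet.iInter fun j => MeasurableSet.iInter fun _ =>
      measurableSet_lt (hmeas1 j) (hmeas1 i)).inter
      (MeasurableSet.iInter fun j => MeasurableSet.iInter fun _ =>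
      measurableSet_le (hmeas1 j) (hmeas1 i))
  have huniq : ∀ x, ∃! i, x ∈ sxc a i := by
    intro x
    have : Nonempty (Fin q) := ⟨⟨0, hq⟩⟩
    obtain ⟨i0, hi0⟩ := Finite.exists_max (fun j : Fin q => ∑ l, a j l * x l)
    obtain ⟨i, hi, hmin⟩ := WellFounded.has_min (wellFounded_lt (α := Fin q))
      {i | ∀ j, ∑ l, a j l * x l ≤ ∑ l, a i l * x l} ⟨i0, hi0⟩
    refine ⟨i, ⟨?_, fun j _ => hi j⟩, ?_⟩
    · intro j hj
      by_contra hcon
      push Not at hcon
      exact hmin j (fun j' => (hi j').trans hcon) hj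
    · intro i' hi'
      obtain ⟨h1, h2⟩ := hi'
      rcases lt_trichotomy i' i with h | h | h
      · exfalso
        apply hmin i' _ h
        intro j
        exact (hi j).trans (h2 i h)
      · exact h
      · exact absurd (h1 i h) (not_lt.2 (hi i'))
  refine ⟨hm, huniq, ⟨fun i => measurable_const.indicator (hm i), ?_, ?_⟩, ?_⟩
  · intro i x
    exact Set.indicator_nonneg (fun _ _ => zero_le_one) x
  · intro x
    obtain ⟨i, hi, hu⟩ := huniq x
    rw [Finset.sum_eq_single i]
    · exact Set.indicator_of_mem hi _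
    · intro j _ hj
      exact Set.indicator_of_notMem (fun h => hj (hu j h)) _
    · intro h
      exact absurd (Finset.mem_univ i) h
  · intro i x hx j
    rcases lt_trichotomy j i with h | h | h
    · exact (hx.1 j h).le
    · rw [h]
    · exact hx.2 j h

/-- a hyperplane is null -/
private theorem c5_null : ∀ {n : ℕ} (c : Fin n → ℝ) (l0 : Fin n) (_ : c l0 ≠ 0),
    gam n {x | ∑ l, c l * x l = 0} = 0
  | 0, _, l0, _ => l0.elim0
  | (n + 1), c, l0, hc => by
    have mp := measurePreserving_piFinSuccAbove (fun _ : Fin (n + 1) => gaussianReal 0 1) l0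
    have hmS : MeasurableSet {p : ℝ × (Fin n → ℝ) |
        c l0 * p.1 + ∑ j, c (l0.succAbove j) * p.2 j = 0} := by
      apply measurableSet_eq_fun
      · exact (measurable_fst.const_mul _).add (Finset.measurable_sum _ fun j _ =>
          ((measurable_pi_apply j).comp measurable_snd).const_mul _)
      · exact measurable_const
    have hS : {x : Fin (n + 1) → ℝ | ∑ l, c l * x l = 0} =
        (MeasurableEquiv.piFinSuccAbove (fun _ => ℝ) l0) ⁻¹' {p : ℝ × (Fin n → ℝ) |
        c l0 * p.1 + ∑ j, c (l0.succAbove j) * p.2 j = 0} := by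
      ext x
      simp only [mem_ofPred_eq, mem_preimage]
      rw [Fin.sum_univ_succAbove _ l0]
      rfl
    unfold gam
    rw [hS, mp.measure_preimage hmS.nullMeasurableSet, Measure.prod_apply_symm hmS]
    have : NullSingletonClass (gaussianReal (0 : ℝ) 1) :=
      nullSingletonClass_gaussianReal one_ne_zero
    rw [lintegral_eq_zero_of_ae_eq_zero]
    refine Filter.Eventually.of_forall fun y => ?_
    refine measure_mono_null (t := {-(∑ j, c (l0.succAbove j) * y j) / c l0}) ?_
      (measure_singleton _)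
    intro t ht
    simp only [mem_preimage, mem_ofPred_eq] at ht
    rw [mem_singleton_iff, eq_div_iff hc]
    linarith

/-- [C5b] ties are null: for `i ≠ j` (`a_i ≠ a_j` since `⟨a_i,a_i⟩ = 1 ≠ ⟨a_i,a_j⟩`), the hyperplane
`⟨a_i - a_j, x⟩ = 0` has measure zero (its image law `⟨a_i-a_j, x⟩` is a nondegenerate Gaussian, or
`Measure.addHaar_affineSubspace`-type lemma and absolute continuity; or split off a coordinate with
`(a_i - a_j)_l ≠ 0`).  Hence almost surely `x ∈ sxc a i ↔ ∀ j ≠ i, ⟨a_j,x⟩ < ⟨a_i,x⟩`. -/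
theorem sxc_ae {q n : ℕ} (hq : 2 ≤ q) (a : Fin q → Fin n → ℝ) (ha : IsSx a) :
    ∀ᵐ x ∂(gam n), ∀ i, (x ∈ sxc a i ↔ ∀ j, j ≠ i → ∑ l, a j l * x l < ∑ l, a i l * x l) := by
  have hae : ∀ᵐ x ∂(gam n), ∀ i j, i ≠ j → ∑ l, a j l * x l ≠ ∑ l, a i l * x l := by
    rw [ae_all_iff]
    intro i
    rw [ae_all_iff]
    intro j
    by_cases hij : i = j
    · exact Filter.Eventually.of_forall fun x h => absurd hij h
    · obtain ⟨l0, hl0⟩ : ∃ l0, a j l0 - a i l0 ≠ 0 := by
        by_contra hcon
        push Not at hcon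
        have h1 := ha.1 i
        have h2 := ha.2 i j hij
        have h3 : ∑ l, a i l * a j l = ∑ l, a i l * a i l :=
          Finset.sum_congr rfl fun l _ => by rw [sub_eq_zero.1 (hcon l)]
        rw [h3, h1] at h2
        have hq' : (0 : ℝ) < (q : ℝ) - 1 := by
          have : (2 : ℝ) ≤ q := by exact_mod_cast hq
          linarith
        have h4 : -1 / ((q : ℝ) - 1) < 0 := div_neg_of_neg_of_pos (by norm_num) hq'
        linarith
      have h1 := c5_null (fun l => a j l - a i l) l0 hl0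
      rw [← compl_compl {x : Fin n → ℝ | ∑ l, (a j l - a i l) * x l = 0}] at h1
      have h2 : ∀ᵐ x ∂(gam n), x ∈ {x : Fin n → ℝ | ∑ l, (a j l - a i l) * x l = 0}ᶜ := h1
      filter_upwards [h2] with x hx _ heq
      apply hx
      rw [mem_ofPred_eq]
      simp only [sub_mul, Finset.sum_sub_distrib]
      rw [heq, sub_self]
  filter_upwards [hae] with x hx i
  constructor
  · rintro ⟨h1, h2⟩ j hj
    rcases lt_or_gt_of_ne hj with h | h
    · exact h1 j h
    · exact lt_of_le_of_ne (h2 j h) (hx i j (Ne.symm hj))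
  · intro h
    exact ⟨fun j hj => h j hj.ne, fun j hj => (h j hj.ne').le⟩

end Pool.Agent.SSQ
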