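import Pool.Agent.SSQ.C5

set_option autoImplicit false
open MeasureTheory ProbabilityTheory Set Real

namespace Pool.Agent.SSQ
open Pool.Agent.SSC3N (gam GG TT)

private theorem c5c_coord_integrable (n : ℕ) (k : Fin n) :
    Integrable (fun x : Fin n → ℝ => x k) (gam n) := by
  have h : MeasurePreserving (Function.eval k) (gam n) (gaussianReal 0 1) := by
    unfold gam; exact measurePreserving_eval _ k
  have h2 : Integrable (fun x : ℝ => x) (gaussianReal 0 1) :=
    (memLp_id_gaussianReal (μ := 0) (v := 1) 1).integrable (by norm_num)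
  exact h.integrable_comp_of_integrable h2

private theorem c5c_coord_integral (n : ℕ) (k : Fin n) :
    ∫ x : Fin n → ℝ, x k ∂(gam n) = 0 := by
  have h : MeasurePreserving (Function.eval k) (gam n) (gaussianReal 0 1) := by
    unfold gam; exact measurePreserving_eval _ k
  have h2 : ∫ x : Fin n → ℝ, x k ∂(gam n) = ∫ x : ℝ, x ∂(gaussianReal 0 1) := by
    rw [← h.map_eq, integral_map h.measurable.aemeasurable (by fun_prop)]
  rw [h2, integral_id_gaussianReal]

private theorem c5c_mx_affine {k : ℕ} (r s : ℝ) (hr : 0 ≤ r) (x : Fin (k + 1) → ℝ) :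
    mx (fun i => r * (x i - s)) = r * (mx x - s) := by
  unfold mx
  apply le_antisymm
  · apply Finset.sup'_le
    intro i _
    exact mul_le_mul_of_nonneg_left
      (sub_le_sub_right (Finset.le_sup' x (Finset.mem_univ i)) s) hr
  · obtain ⟨j, -, hj⟩ := Finset.exists_mem_eq_sup' (Finset.univ_nonempty (α := Fin (k + 1))) x
    rw [hj]
    exact Finset.le_sup' (fun i => r * (x i - s)) (Finset.mem_univ j)

private theorem c5c_Pc_sq (q : ℕ) (hq : 0 < q) (i j : Fin q) :
    ∑ p, Pc q p i * Pc q p j = Pc q i j := by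
  have hq' : (q : ℝ) ≠ 0 := by positivity
  have h1 : ∀ p : Fin q, Pc q p i * Pc q p j =
      (if p = i then (if p = j then (1 : ℝ) else 0) else 0) -
        (if p = i then 1 / (q : ℝ) else 0) - (if p = j then 1 / (q : ℝ) else 0) +
        1 / (q : ℝ) * (1 / (q : ℝ)) := by
    intro p
    unfold Pc
    split_ifs <;> ring
  rw [Finset.sum_congr rfl fun p _ => h1 p, Finset.sum_add_distrib, Finset.sum_sub_distrib,
    Finset.sum_sub_distrib, Finset.sum_ite_eq' Finset.univ i, Finset.sum_ite_eq' Finset.univ i,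
    Finset.sum_ite_eq' Finset.univ j, Finset.sum_const, Finset.card_univ, Fintype.card_fin]
  simp only [Finset.mem_univ, if_true, nsmul_eq_mul]
  unfold Pc
  field_simp
  ring

/-- [C5c] law of `(⟨a_i, x⟩)_i`: with `C_l = (a_il)_i` (columns), `Gr C = (q/(q-1)) Π = Gr C'` for
`C'_p = √(q/(q-1)) Π_p` (`sx_sum`; `∑_p Π_pi Π_pj = Π_ij`), so `law_map` applies.  Consequences: masses `1/q` (for
`g ~ gam q`: `C'g = √(q/(q-1)) (g - mean)`, whose strict argmax is the one of `g`; `cl_mass`, `sxc_ae`) and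
`∫ max_j ⟨a_j, x⟩ = √(q/(q-1)) eqv`. -/
theorem sx_law (m : ℕ) {n : ℕ} (a : Fin (m + 2) → Fin n → ℝ) (ha : IsSx a) :
    (∀ i, ∫ x, fst a i x ∂(gam n) = 1 / ((m + 2 : ℕ) : ℝ)) ∧
    ∫ x, mx (fun i => ∑ l, a i l * x l) ∂(gam n) =
      Real.sqrt (((m : ℝ) + 2) / (m + 1)) * eqv (m + 1) := by
  have hq : 2 ≤ m + 2 := by omega
  obtain ⟨r, hr⟩ : ∃ r, r = Real.sqrt (((m : ℝ) + 2) / (m + 1)) := ⟨_, rfl⟩
  have hpos : (0 : ℝ) < ((m : ℝ) + 2) / (m + 1) := by positivity
  have hr0 : 0 < r := by rw [hr]; exact Real.sqrt_pos.2 hpos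
  have hr2 : r * r = ((m : ℝ) + 2) / (m + 1) := by rw [hr]; exact Real.mul_self_sqrt hpos.le
  obtain ⟨hsum, hGr⟩ := sx_sum hq a ha
  have hcast : (((m + 2 : ℕ) : ℝ)) / (((m + 2 : ℕ) : ℝ) - 1) = ((m : ℝ) + 2) / (m + 1) := by
    push_cast
    congr 1
    ring
  let C : Fin n → Fin (m + 2) → ℝ := fun l i => a i l
  let C' : Fin (m + 2) → Fin (m + 2) → ℝ := fun p i => r * Pc (m + 2) p i
  have hCC : ∀ i j, Gr C i j = Gr C' i j := by
    intro i j
    have h1 : Gr C i j = ((m : ℝ) + 2) / (m + 1) * Pc (m + 2) i j := by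
      rw [← hcast, ← hGr i j]
      rfl
    have h2 : Gr C' i j = r * r * Pc (m + 2) i j := by
      rw [← c5c_Pc_sq (m + 2) (by omega) i j, Finset.mul_sum]
      show ∑ p, (r * Pc (m + 2) p i) * (r * Pc (m + 2) p j) = _
      exact Finset.sum_congr rfl fun p _ => by ring
    rw [h1, h2, hr2]
  have hlaw := law_map C C' hCC
  have hΦ : ∀ x : Fin n → ℝ, (∑ l, x l • C l) = fun i => ∑ l, a i l * x l := by
    intro x
    funext i
    rw [Finset.sum_apply]
    exact Finset.sum_congr rfl fun l _ => by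
      show x l * a i l = _
      ring
  have hΦ' : ∀ z : Fin (m + 2) → ℝ, (∑ p, z p • C' p) =
      fun i => r * (z i - (∑ p, z p) / ((m + 2 : ℕ) : ℝ)) := by
    intro z
    funext i
    rw [Finset.sum_apply]
    have h1 : ∀ p, (z p • C' p) i = r * (if p = i then z p else 0) -
        r * (1 / ((m + 2 : ℕ) : ℝ)) * z p := by
      intro p
      show z p * (r * Pc (m + 2) p i) = _
      unfold Pc
      split_ifs <;> ring
    rw [Finset.sum_congr rfl fun p _ => h1 p, Finset.sum_sub_distrib, ← Finset.mul_sum,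
      ← Finset.mul_sum, Finset.sum_ite_eq' Finset.univ i]
    simp only [Finset.mem_univ, if_true]
    ring
  have hmeas : Measurable (fun z : Fin n → ℝ => ∑ l, z l • C l) := by
    fun_prop
  have hmeas' : Measurable (fun z : Fin (m + 2) → ℝ => ∑ p, z p • C' p) := by
    fun_prop
  obtain ⟨hclm, -, -, -, hmxc, hmxb⟩ := cl_basic (m + 1)
  have hp : IsProbabilityMeasure (gam n) := Pool.Agent.SSC3N.gam_prob n
  have hp' : IsProbabilityMeasure (gam (m + 2)) := Pool.Agent.SSC3N.gam_prob (m + 2)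
  constructor
  · intro i
    have hms : MeasurableSet (sxc a i) := (sxc_basic (by omega) a).1 i
    have h1 : ∫ x, fst a i x ∂(gam n) = (gam n).real (sxc a i) := by
      unfold fst
      rw [integral_indicator_const (1 : ℝ) hms, smul_eq_mul, mul_one]
    have h2 : (gam n).real (sxc a i) =
        (gam n).real ((fun z : Fin n → ℝ => ∑ l, z l • C l) ⁻¹' cl i) := by
      apply measureReal_congr
      filter_upwards [sxc_ae hq a ha] with x hx
      have h3 := hx i
      have h4 : (x ∈ (fun z : Fin n → ℝ => ∑ l, z l • C l) ⁻¹' cl i) ↔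
          ∀ j, j ≠ i → ∑ l, a j l * x l < ∑ l, a i l * x l := by
        show (∑ l, x l • C l) ∈ cl i ↔ _
        rw [hΦ x]
        rfl
      exact propext (h3.trans h4.symm)
    have h5 : (gam n).real ((fun z : Fin n → ℝ => ∑ l, z l • C l) ⁻¹' cl i) =
        (gam (m + 2)).real ((fun z : Fin (m + 2) → ℝ => ∑ p, z p • C' p) ⁻¹' cl i) := by
      rw [← map_measureReal_apply hmeas (hclm i), hlaw, map_measureReal_apply hmeas' (hclm i)]
    have h6 : (fun z : Fin (m + 2) → ℝ => ∑ p, z p • C' p) ⁻¹' cl i = cl i := by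
      ext z
      show (∑ p, z p • C' p) ∈ cl i ↔ z ∈ cl i
      rw [hΦ' z]
      show (∀ l, l ≠ i → r * (z l - (∑ p, z p) / ((m + 2 : ℕ) : ℝ)) <
        r * (z i - (∑ p, z p) / ((m + 2 : ℕ) : ℝ))) ↔ (∀ l, l ≠ i → z l < z i)
      refine forall₂_congr fun l _ => ?_
      rw [mul_lt_mul_iff_right₀ hr0, sub_lt_sub_iff_right]
    rw [h1, h2, h5, h6]
    have h7 := cl_mass (m + 1) i
    have h8 : ((m + 1 : ℕ) : ℝ) + 1 = ((m + 2 : ℕ) : ℝ) := by push_cast; ring
    rw [h8] at h7
    exact h7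
  · have h1 : ∫ x, mx (fun i => ∑ l, a i l * x l) ∂(gam n) =
        ∫ y, mx y ∂((gam n).map fun z : Fin n → ℝ => ∑ l, z l • C l) := by
      rw [integral_map hmeas.aemeasurable hmxc.aestronglyMeasurable]
      refine integral_congr_ae (Filter.Eventually.of_forall fun x => ?_)
      show mx (fun i => ∑ l, a i l * x l) = mx (∑ l, x l • C l)
      rw [hΦ x]
    rw [h1, hlaw, integral_map hmeas'.aemeasurable hmxc.aestronglyMeasurable]
    have h2 : ∀ z : Fin (m + 2) → ℝ, mx (∑ p, z p • C' p) =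
        r * mx z - r * (1 / ((m + 2 : ℕ) : ℝ)) * ∑ p, z p := by
      intro z
      rw [hΦ' z, c5c_mx_affine r _ hr0.le z]
      ring
    have hsumint : Integrable (fun z : Fin (m + 2) → ℝ => ∑ p, z p) (gam (m + 2)) :=
      integrable_finsetSum _ fun p _ => c5c_coord_integrable (m + 2) p
    have hmxint : Integrable (fun z : Fin (m + 2) → ℝ => mx z) (gam (m + 2)) := by
      have h3 : Integrable (fun z : Fin (m + 2) → ℝ => ∑ p, |z p|) (gam (m + 2)) :=
        integrable_finsetSum _ fun p _ => (c5c_coord_integrable (m + 2) p).abs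
      refine h3.mono' hmxc.aestronglyMeasurable (Filter.Eventually.of_forall fun z => ?_)
      rw [Real.norm_eq_abs]
      exact hmxb z
    have hsum0 : ∫ z : Fin (m + 2) → ℝ, ∑ p, z p ∂(gam (m + 2)) = 0 := by
      rw [integral_finsetSum _ fun p _ => c5c_coord_integrable (m + 2) p]
      exact Finset.sum_eq_zero fun p _ => c5c_coord_integral (m + 2) p
    have h4 : ∫ z : Fin (m + 2) → ℝ, mx (∑ p, z p • C' p) ∂(gam (m + 2)) =
        ∫ z : Fin (m + 2) → ℝ, (r * mx z - r * (1 / ((m + 2 : ℕ) : ℝ)) * ∑ p, z p)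
          ∂(gam (m + 2)) :=
      integral_congr_ae (Filter.Eventually.of_forall h2)
    rw [h4, integral_sub (hmxint.const_mul r) (hsumint.const_mul _), integral_const_mul,
      integral_const_mul, hsum0, mul_zero, sub_zero, ← hr]
    rfl

end Pool.Agent.SSQ
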