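import Pool.Agent.SSQ.C5c

set_option autoImplicit false
open MeasureTheory ProbabilityTheory Set Real

namespace Pool.Agent.SSQ
open Pool.Agent.SSC3N (gam GG TT)

/-- [C5d] CENTROIDS.  `∑_i ⟨K_i, a_i⟩ = ∑_i ∫ f*_i ⟨a_i, x⟩ = ∫ max_j ⟨a_j,x⟩ = √(q/(q-1)) eqv = √(q T*)`
(`q = m+2`, `T* = eqv²/(m+1)`).  By Cauchy-Schwarz it is `≤ |K| |a| = √(Tf) √q ≤ √T* √q` (`level_le`).  So equality holds:
`∑ (K_il - κ a_il)² = Tf - 2κ ∑⟨K_i,a_i⟩ + κ² q ≤ T* - 2κ√(qT*) + κ²q = 0` with `κ = √(T*/q)`.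
`κ > 0` because `eqv > 0` (`eqv_eq`, `hh_pos`). -/
theorem Kf_fst (m : ℕ) {n : ℕ} (a : Fin (m + 2) → Fin n → ℝ) (ha : IsSx a) :
    0 < kap m ∧ Tst m = (m + 2) * kap m ^ 2 ∧ ∀ i l, Kf (fst a) i l = kap m * a i l := by
  have hm1 : (0 : ℝ) < (m : ℝ) + 1 := by positivity
  have hm2 : (0 : ℝ) < (m : ℝ) + 2 := by positivity
  have hE : 0 < eqv (m + 1) := by
    rw [eqv_eq m]
    have h1 := (hh_pos m).1
    positivity
  have hT : 0 < Tst m := by
    unfold Tst
    positivity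
  have hk : 0 < kap m := by
    unfold kap
    exact Real.sqrt_pos.2 (div_pos hT hm2)
  have hk2 : kap m ^ 2 = Tst m / (m + 2) := by
    unfold kap
    exact Real.sq_sqrt (div_pos hT hm2).le
  have hTk : Tst m = (m + 2) * kap m ^ 2 := by
    rw [hk2]
    field_simp
  refine ⟨hk, hTk, ?_⟩
  obtain ⟨hc1, hc2, hFP, hc4⟩ := sxc_basic (by omega : 0 < m + 2) a
  obtain ⟨hlaw1, hlaw2⟩ := sx_law m a ha
  have hle : Tf (fst a) ≤ Tst m := level_le m n (fst a) hFP hlaw1
  obtain ⟨hI, -⟩ := Kf_sum (fst a) hFP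
  have hmx : ∀ x : Fin n → ℝ, ∑ i, (∑ l, a i l * x l) * fst a i x
      = mx (fun i => ∑ l, a i l * x l) := by
    intro x
    obtain ⟨i, hi, hu⟩ := hc2 x
    have h1 : ∀ j, (∑ l, a j l * x l) * fst a j x = if j = i then ∑ l, a i l * x l else 0 := by
      intro j
      by_cases hj : j = i
      · subst hj
        rw [if_pos rfl]
        unfold fst
        rw [Set.indicator_of_mem hi, mul_one]
      · rw [if_neg hj]
        unfold fst
        rw [Set.indicator_of_notMem (fun h => hj (hu j h)), mul_zero]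
    rw [Finset.sum_congr rfl fun j _ => h1 j, Finset.sum_ite_eq', if_pos (Finset.mem_univ i)]
    unfold mx
    apply le_antisymm
    · exact Finset.le_sup' (fun i => ∑ l, a i l * x l) (Finset.mem_univ i)
    · exact Finset.sup'_le _ _ fun j _ => hc4 i x hi j
  have hsum : ∑ i, ∑ l, a i l * Kf (fst a) i l
      = ∫ x, mx (fun i => ∑ l, a i l * x l) ∂(gam n) := by
    have h1 : ∀ x : Fin n → ℝ, mx (fun i => ∑ l, a i l * x l)
        = ∑ i, ∑ l, a i l * (x l * fst a i x) := by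
      intro x
      rw [← hmx x]
      refine Finset.sum_congr rfl fun i _ => ?_
      rw [Finset.sum_mul]
      exact Finset.sum_congr rfl fun l _ => by ring
    rw [integral_congr_ae (Filter.Eventually.of_forall h1),
      integral_finsetSum _ fun i _ => integrable_finsetSum _ fun l _ => (hI i l).const_mul _]
    refine Finset.sum_congr rfl fun i _ => ?_
    rw [integral_finsetSum _ fun l _ => (hI i l).const_mul _]
    refine Finset.sum_congr rfl fun l _ => ?_
    rw [integral_const_mul]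
    rfl
  have hval : ∑ i, ∑ l, a i l * Kf (fst a) i l = (m + 2) * kap m := by
    rw [hsum, hlaw2]
    have h1 : 0 ≤ Real.sqrt (((m : ℝ) + 2) / (m + 1)) * eqv (m + 1) :=
      mul_nonneg (Real.sqrt_nonneg _) hE.le
    have h2 : 0 ≤ ((m : ℝ) + 2) * kap m := (mul_pos hm2 hk).le
    rw [← abs_of_nonneg h1, ← abs_of_nonneg h2, ← sq_eq_sq_iff_abs_eq_abs, mul_pow, mul_pow,
      Real.sq_sqrt (by positivity), hk2]
    unfold Tst
    field_simp
  have hq : ∑ i, ∑ l, a i l * a i l = (m : ℝ) + 2 := by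
    rw [Finset.sum_congr rfl fun i _ => ha.1 i, Finset.sum_const, Finset.card_univ,
      Fintype.card_fin, nsmul_eq_mul]
    push_cast
    ring
  have hzero : ∑ i, ∑ l, (Kf (fst a) i l - kap m * a i l) ^ 2 ≤ 0 := by
    have h1 : ∑ i, ∑ l, (Kf (fst a) i l - kap m * a i l) ^ 2
        = Tf (fst a) - 2 * kap m * ∑ i, ∑ l, a i l * Kf (fst a) i l
          + kap m ^ 2 * ∑ i, ∑ l, a i l * a i l := by
      unfold Tf
      rw [Finset.mul_sum, Finset.mul_sum, ← Finset.sum_sub_distrib, ← Finset.sum_add_distrib]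
      refine Finset.sum_congr rfl fun i _ => ?_
      rw [Finset.mul_sum, Finset.mul_sum, ← Finset.sum_sub_distrib, ← Finset.sum_add_distrib]
      exact Finset.sum_congr rfl fun l _ => by ring
    rw [h1, hval, hq]
    nlinarith [hle, hTk]
  have hnn : ∀ i, 0 ≤ ∑ l, (Kf (fst a) i l - kap m * a i l) ^ 2 := fun i =>
    Finset.sum_nonneg fun l _ => sq_nonneg _
  have h0 := le_antisymm hzero (Finset.sum_nonneg fun i _ => hnn i)
  intro i l
  have h1 := (Finset.sum_eq_zero_iff_of_nonneg fun i _ => hnn i).1 h0 i (Finset.mem_univ i)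
  have h2 := (Finset.sum_eq_zero_iff_of_nonneg
    fun l _ => sq_nonneg (Kf (fst a) i l - kap m * a i l)).1 h1 l (Finset.mem_univ l)
  have h3 := pow_eq_zero_iff two_ne_zero |>.1 h2
  linarith

end Pool.Agent.SSQ
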