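import Pool.Agent.SSQ.C3d
import Pool.Agent.SSQ.C5d

set_option autoImplicit false
open MeasureTheory ProbabilityTheory Set Real

namespace Pool.Agent.SSQ
open Pool.Agent.SSC3N (gam GG TT gauss_rot)

/-- [C6a] rotation of a fractional partition (`gauss_rot`): `f'_i(x) = f_i(Qᵀ x)`, `Kf f' = Kf f Qᵀ`.
(Model: the proof of `rot_centroid`, `Pool/Agent/SSCP/A11.lean`; any real `ρ`.) -/
theorem rot_FP {q n : ℕ} (f : Fin q → (Fin n → ℝ) → ℝ) (hf : FP f) (Q : Matrix (Fin n) (Fin n) ℝ)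
    (hQ : Q ∈ Matrix.orthogonalGroup (Fin n) ℝ) :
    FP (fun i x => f i (Q.transpose.mulVec x)) ∧
    (∀ ρ, Fn ρ (fun i x => f i (Q.transpose.mulVec x)) = Fn ρ f) ∧
    (∀ i, ∫ x, f i (Q.transpose.mulVec x) ∂(gam n) = ∫ x, f i x ∂(gam n)) ∧
    ∀ i l, Kf (fun i x => f i (Q.transpose.mulVec x)) i l = ∑ p, Q l p * Kf f i p := by
  have hint := (Kf_sum f hf).1
  obtain ⟨hfm, hf0, hfs⟩ := hf
  have hQT : Q.transpose * Q = 1 := by
    have := (Matrix.mem_orthogonalGroup_iff' (Fin n) ℝ).mp hQ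
    simpa [Matrix.star_eq_conjTranspose, Matrix.conjTranspose_eq_transpose_of_trivial] using this
  have hQT2 : Q * Q.transpose = 1 := by
    have := (Matrix.mem_orthogonalGroup_iff (Fin n) ℝ).mp hQ
    simpa [Matrix.star_eq_conjTranspose, Matrix.conjTranspose_eq_transpose_of_trivial] using this
  set Qi : (Fin n → ℝ) → (Fin n → ℝ) := fun x => Q.transpose.mulVec x with hQi
  have hQtm : Q.transpose ∈ Matrix.orthogonalGroup (Fin n) ℝ := by
    rw [Matrix.mem_orthogonalGroup_iff]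
    simpa [Matrix.star_eq_conjTranspose, Matrix.conjTranspose_eq_transpose_of_trivial] using hQT
  have hQim : Measurable Qi := by
    apply Continuous.measurable
    exact Continuous.matrix_mulVec continuous_const continuous_id
  have hmp : MeasurePreserving Qi (gam n) (gam n) := gauss_rot n Q.transpose hQtm
  have hcomp : ∀ g : (Fin n → ℝ) → ℝ, Measurable g →
      ∫ x, g (Qi x) ∂(gam n) = ∫ x, g x ∂(gam n) := by
    intro g hg
    have h2 := integral_map (μ := gam n) hQim.aemeasurable (f := g) hg.aestronglyMeasurable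
    rw [hmp.map_eq] at h2
    exact h2.symm
  refine ⟨⟨fun i => (hfm i).comp hQim, fun i x => hf0 i _, fun x => hfs _⟩, ?_, ?_, ?_⟩
  · intro ρ
    unfold Fn
    refine Finset.sum_congr rfl (fun i _ => ?_)
    unfold GG
    have hlin : ∀ y z : Fin n → ℝ, Qi (ρ • y + Real.sqrt (1 - ρ ^ 2) • z) =
        ρ • Qi y + Real.sqrt (1 - ρ ^ 2) • Qi z := by
      intro y z
      simp only [hQi]
      rw [Matrix.mulVec_add, Matrix.mulVec_smul, Matrix.mulVec_smul]
    have h1 : ∀ y : Fin n → ℝ,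
        ∫ z, f i (Qi y) * f i (Qi (ρ • y + Real.sqrt (1 - ρ ^ 2) • z)) ∂(gam n) =
        ∫ z, f i (Qi y) * f i (ρ • Qi y + Real.sqrt (1 - ρ ^ 2) • z) ∂(gam n) := by
      intro y
      simp_rw [hlin]
      refine hcomp (fun z => f i (Qi y) * f i (ρ • Qi y + Real.sqrt (1 - ρ ^ 2) • z)) ?_
      exact ((hfm i).comp (by fun_prop)).const_mul _
    have h1' : ∀ y : Fin n → ℝ,
        ∫ z, f i (Q.transpose.mulVec y) *
          f i (Q.transpose.mulVec (ρ • y + Real.sqrt (1 - ρ ^ 2) • z)) ∂(gam n) =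
        ∫ z, f i (Qi y) * f i (ρ • Qi y + Real.sqrt (1 - ρ ^ 2) • z) ∂(gam n) := h1
    simp_rw [h1']
    refine hcomp (fun y => ∫ z, f i y * f i (ρ • y + Real.sqrt (1 - ρ ^ 2) • z) ∂(gam n)) ?_
    have h5 : Measurable (Function.uncurry (fun y z : Fin n → ℝ =>
        f i y * f i (ρ • y + Real.sqrt (1 - ρ ^ 2) • z))) := by
      have e1 : Measurable (fun p : (Fin n → ℝ) × (Fin n → ℝ) => f i p.1) :=
        (hfm i).comp measurable_fst
      have e2 : Measurable (fun p : (Fin n → ℝ) × (Fin n → ℝ) =>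
          f i (ρ • p.1 + Real.sqrt (1 - ρ ^ 2) • p.2)) := (hfm i).comp (by fun_prop)
      exact e1.mul e2
    exact (h5.stronglyMeasurable.integral_prod_right' (ν := gam n)).measurable
  · intro i
    exact hcomp (f i) (hfm i)
  · intro i l
    unfold Kf
    have h1 : ∀ x : Fin n → ℝ, Q.mulVec (Qi x) = x := by
      intro x
      simp only [hQi]
      rw [Matrix.mulVec_mulVec, hQT2, Matrix.one_mulVec]
    have hQm : Measurable (fun x : Fin n → ℝ => Q.mulVec x) := by
      apply Continuous.measurable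
      exact Continuous.matrix_mulVec continuous_const continuous_id
    have h2 : ∫ x, x l * f i (Qi x) ∂(gam n) = ∫ x, Q.mulVec x l * f i x ∂(gam n) := by
      rw [← hcomp (fun x => Q.mulVec x l * f i x)
        (((measurable_pi_apply _).comp hQm).mul (hfm i))]
      simp_rw [h1]
    show ∫ x, x l * f i (Qi x) ∂(gam n) = _
    rw [h2]
    have h3 : ∀ x : Fin n → ℝ, Q.mulVec x l * f i x = ∑ k, Q l k * (x k * f i x) := by
      intro x
      simp only [Matrix.mulVec, dotProduct]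
      rw [Finset.sum_mul]
      exact Finset.sum_congr rfl (fun k _ => by ring)
    simp_rw [h3]
    rw [integral_finsetSum _ (fun k _ => (hint i k).const_mul _)]
    simp_rw [integral_const_mul]

/-- rotation invariance of the Frobenius norm -/
theorem c6_frob {n : ℕ} (Q : Matrix (Fin n) (Fin n) ℝ) (hQT : Q.transpose * Q = 1)
    (v : Fin n → ℝ) : ∑ l, (∑ p, Q l p * v p) ^ 2 = ∑ l, v l ^ 2 := by
  have h1 : (Q.mulVec v) ⬝ᵥ (Q.mulVec v) = v ⬝ᵥ v := by
    rw [Matrix.dotProduct_mulVec, Matrix.vecMul_mulVec, hQT, Matrix.vecMul_one]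
  simp only [dotProduct, Matrix.mulVec] at h1
  calc ∑ l, (∑ p, Q l p * v p) ^ 2 = ∑ l, (∑ p, Q l p * v p) * (∑ p, Q l p * v p) :=
        Finset.sum_congr rfl fun l _ => sq _
    _ = ∑ l, v l * v l := h1
    _ = ∑ l, v l ^ 2 := Finset.sum_congr rfl fun l _ => (sq _).symm

/-- the orthogonal group is compact -/
theorem c6_compact (n : ℕ) :
    IsCompact {U : Matrix (Fin n) (Fin n) ℝ | U * U.transpose = 1} := by
  have hc : IsCompact (Set.pi univ fun _ : Fin n => Set.pi univ fun _ : Fin n =>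
      (Set.Icc (-1 : ℝ) 1)) :=
    isCompact_univ_pi fun _ => isCompact_univ_pi fun _ => isCompact_Icc
  have hcl : IsClosed {U : Matrix (Fin n) (Fin n) ℝ | U * U.transpose = 1} :=
    isClosed_eq (continuous_id.matrix_mul continuous_id.matrix_transpose) continuous_const
  refine hc.of_isClosed_subset hcl ?_
  intro U' hU i _ j _
  let U : Matrix (Fin n) (Fin n) ℝ := U'
  show U i j ∈ Set.Icc (-1 : ℝ) 1
  have h1 : (U * U.transpose) i i = 1 := by
    rw [show U * U.transpose = 1 from hU, Matrix.one_apply_eq]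
  rw [Matrix.mul_apply] at h1
  simp only [Matrix.transpose_apply] at h1
  have h2 : U i j * U i j ≤ 1 := by
    rw [← h1]
    exact Finset.single_le_sum (f := fun k => U i k * U i k) (fun k _ => mul_self_nonneg _)
      (Finset.mem_univ j)
  constructor <;> nlinarith

/-- [C6b] BEST ROTATION.  The orthogonal group is compact and `U ↦ ∑ (K_il - κ (aU)_il)²` is continuous; let `Q` be a
minimiser and `f'` the rotated partition: `Kf f' = K Qᵀ` and for all `U`:
`|Kf f' - κ a|² = |K - κ a Q|² ≤ |K - κ a U Q|² = |Kf f' - κ a U|²`. -/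
theorem best_rot (m : ℕ) {n : ℕ} (a : Fin (m + 2) → Fin n → ℝ)
    (f : Fin (m + 2) → (Fin n → ℝ) → ℝ) (hf : FP f) :
    ∃ f' : Fin (m + 2) → (Fin n → ℝ) → ℝ, FP f' ∧ (∀ ρ, Fn ρ f' = Fn ρ f) ∧
      (∀ i, ∫ x, f' i x ∂(gam n) = ∫ x, f i x ∂(gam n)) ∧
      ∀ U ∈ Matrix.orthogonalGroup (Fin n) ℝ,
        ∑ i, ∑ l, (Kf f' i l - kap m * a i l) ^ 2 ≤
          ∑ i, ∑ l, (Kf f' i l - kap m * ∑ p, a i p * U p l) ^ 2 := by
  have hmem : ∀ U : Matrix (Fin n) (Fin n) ℝ, U ∈ Matrix.orthogonalGroup (Fin n) ℝ ↔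
      U * U.transpose = 1 := by
    intro U
    rw [Matrix.mem_orthogonalGroup_iff]
  have hcont : Continuous fun U : Matrix (Fin n) (Fin n) ℝ =>
      ∑ i, ∑ l, (Kf f i l - kap m * ∑ p, a i p * U p l) ^ 2 := by
    refine continuous_finsetSum _ fun i _ => continuous_finsetSum _ fun l _ => ?_
    refine (continuous_const.sub (continuous_const.mul ?_)).pow 2
    exact continuous_finsetSum _ fun p _ => continuous_const.mul (continuous_id.matrix_elem p l)
  obtain ⟨Q, hQ, hmin⟩ := (c6_compact n).exists_isMinOn ⟨1, by simp⟩ hcont.continuousOn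
  have hQ2 : Q * Q.transpose = 1 := hQ
  have hQ1 : Q.transpose * Q = 1 := mul_eq_one_comm.1 hQ2
  have hQo := (hmem Q).2 hQ2
  obtain ⟨h1, h2, h3, h4⟩ := rot_FP f hf Q hQo
  refine ⟨_, h1, h2, h3, fun U hU => ?_⟩
  have key : ∀ V : Matrix (Fin n) (Fin n) ℝ,
      ∑ i, ∑ l, (Kf (fun i x => f i (Q.transpose.mulVec x)) i l -
        kap m * ∑ p, a i p * V p l) ^ 2 =
      ∑ i, ∑ l, (Kf f i l - kap m * ∑ p, a i p * (V * Q) p l) ^ 2 := by
    intro V
    refine Finset.sum_congr rfl fun i _ => ?_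
    rw [← c6_frob Q hQ1 (fun l => Kf f i l - kap m * ∑ p, a i p * (V * Q) p l)]
    refine Finset.sum_congr rfl fun l _ => ?_
    congr 1
    rw [h4]
    simp only [mul_sub, Finset.sum_sub_distrib]
    congr 1
    have h5 : ∀ p, V p l = ∑ x, Q l x * (V * Q) p x := by
      intro p
      have h6 : V = (V * Q) * Q.transpose := by rw [Matrix.mul_assoc, hQ2, Matrix.mul_one]
      conv_lhs => rw [h6, Matrix.mul_apply]
      exact Finset.sum_congr rfl fun x _ => by rw [Matrix.transpose_apply, mul_comm]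
    simp_rw [h5, Finset.mul_sum]
    rw [Finset.sum_comm]
    exact Finset.sum_congr rfl fun x _ => Finset.sum_congr rfl fun p _ => by ring
  have hU2 := (hmem U).1 hU
  have hUQ : (U * Q) * (U * Q).transpose = 1 := by
    rw [Matrix.transpose_mul, Matrix.mul_assoc, ← Matrix.mul_assoc Q, hQ2, Matrix.one_mul, hU2]
  have h6 := hmin (show U * Q ∈ {U : Matrix (Fin n) (Fin n) ℝ | U * U.transpose = 1} from hUQ)
  have h7 := key 1
  rw [Matrix.one_mul] at h7
  have h8 : ∀ i l, ∑ p, a i p * (1 : Matrix (Fin n) (Fin n) ℝ) p l = a i l := by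
    intro i l
    simp [Matrix.one_apply]
  simp only [h8] at h7
  rw [h7, key U]
  exact h6

end Pool.Agent.SSQ
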