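import Pool.Agent.SSQ.DDefs

set_option autoImplicit false
open MeasureTheory ProbabilityTheory Set Real
open scoped ENNReal

namespace Pool.Agent.SSQ
open Pool.Agent.SSC3N (gam GG TT gam_prob gam_ou TT_measurable TT_bdd GG_semigroup TT_contr cub_semigroup cub_odd cub_GG_TT gauss_rot)

private instance a1_prob (m : ℕ) : IsProbabilityMeasure (gam m) := gam_prob m

private theorem a1_append_meas {k : ℕ} (m : ℕ) : Measurable (fun p : (Fin k → ℝ) × (Fin m → ℝ) =>
    (Fin.append p.1 p.2 : Fin (k + m) → ℝ)) := by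
  refine measurable_pi_lambda _ fun i => ?_
  refine Fin.addCases (fun j => ?_) (fun j => ?_) i
  · simp only [Fin.append_left]
    fun_prop
  · simp only [Fin.append_right]
    fun_prop

private theorem a1_cur_meas {k : ℕ} {m : ℕ} {f : (Fin (k + m) → ℝ) → ℝ} (hf : Measurable f) :
    Measurable (fun p : (Fin k → ℝ) × (Fin m → ℝ) => cur f p.1 p.2) :=
  hf.comp (a1_append_meas m)

private theorem a1_split {k : ℕ} {m : ℕ} (Ψ : (Fin k → ℝ) × (Fin m → ℝ) → ℝ) (hΨ : Measurable Ψ) :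
    ∫ x : Fin (k + m) → ℝ, Ψ ((fun i : Fin k => x (Fin.castAdd m i)),
      (fun j : Fin m => x (Fin.natAdd k j))) ∂(gam (k + m)) = ∫ p, Ψ p ∂((gam k).prod (gam m)) := by
  have h := (split_mp k m).map_eq
  have h1 : ((gam k).prod (gam m)) = ((gam k).prod (gam m)) := rfl
  rw [h1, ← h, integral_map (split_mp k m).measurable.aemeasurable hΨ.aestronglyMeasurable]

private theorem a1_bint {α : Type*} [MeasurableSpace α] (μ : Measure α)
    [IsProbabilityMeasure μ] (f : α → ℝ) (hf : Measurable f) (hb : ∀ y, |f y| ≤ 1) :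
    Integrable f μ :=
  Integrable.of_bound hf.aestronglyMeasurable 1 (Filter.Eventually.of_forall hb)

private theorem a1_bd {α : Type*} [MeasurableSpace α] (μ : Measure α)
    [IsProbabilityMeasure μ] (f : α → ℝ) (hb : ∀ y, |f y| ≤ 1) : |∫ y, f y ∂μ| ≤ 1 := by
  have := norm_integral_le_of_norm_le_const (μ := μ) (f := f) (C := 1)
    (Filter.Eventually.of_forall hb)
  simpa using this

private theorem a1_mul {a b : ℝ} (ha : |a| ≤ 1) (hb : |b| ≤ 1) : |a * b| ≤ 1 := by
  rw [abs_mul]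
  exact mul_le_one₀ ha (abs_nonneg _) hb

private theorem a1_f_eq {k : ℕ} {m : ℕ} (f : (Fin (k + m) → ℝ) → ℝ) (x : Fin (k + m) → ℝ) :
    f x = cur f (fun i : Fin k => x (Fin.castAdd m i)) (fun j : Fin m => x (Fin.natAdd k j)) := by
  unfold cur
  rw [Fin.append_castAdd_natAdd]

theorem int_cur {k : ℕ} {m : ℕ} (f : (Fin (k + m) → ℝ) → ℝ) (hf : Measurable f) (hb : ∀ x, |f x| ≤ 1) :
    ∫ x, f x ∂(gam (k + m)) = ∫ x, bar (cur f) x ∂(gam k) := by
  have h1 := a1_split (fun p => cur f p.1 p.2) (a1_cur_meas hf)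
  have h2 : ∫ x, f x ∂(gam (k + m)) = ∫ p : (Fin k → ℝ) × (Fin m → ℝ), cur f p.1 p.2
      ∂((gam k).prod (gam m)) := by
    rw [← h1]
    exact integral_congr_ae (Filter.Eventually.of_forall fun x => a1_f_eq f x)
  rw [h2, integral_prod _ (a1_bint _ _ (a1_cur_meas hf) fun p => hb _)]
  rfl

theorem int_cur' {k : ℕ} {m : ℕ} (f : (Fin (k + m) → ℝ) → ℝ) (hf : Measurable f) (hb : ∀ x, |f x| ≤ 1) :
    ∫ x, f x ∂(gam (k + m)) = ∫ y, (∫ x, cur f x y ∂(gam k)) ∂(gam m) := by
  rw [int_cur f hf hb]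
  unfold bar
  exact integral_integral_swap (a1_bint _ _ (a1_cur_meas hf) fun p => hb _)

private theorem a1_coord_int {m : ℕ} (j : Fin m) : Integrable (fun y : Fin m → ℝ => y j)
    (gam m) := by
  have h1 : Integrable (fun x : ℝ => x) (gaussianReal 0 1) := by
    have h := memLp_id_gaussianReal (μ := 0) (v := 1) 1
    exact memLp_one_iff_integrable.1 h
  have h2 : MeasurePreserving (fun y : Fin m → ℝ => y j) (gam m) (gaussianReal 0 1) :=
    measurePreserving_eval _ j
  exact h2.integrable_comp_of_integrable h1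

theorem int_cur_y {k : ℕ} {m : ℕ} (f : (Fin (k + m) → ℝ) → ℝ) (hf : Measurable f) (hb : ∀ x, |f x| ≤ 1)
    (j : Fin m) :
    ∫ x, x (Fin.natAdd k j) * f x ∂(gam (k + m)) =
      ∫ y, y j * (∫ x, cur f x y ∂(gam k)) ∂(gam m) := by
  have hm : Measurable (fun p : (Fin k → ℝ) × (Fin m → ℝ) => p.2 j * cur f p.1 p.2) := by
    have h1 := a1_cur_meas hf
    have h2 : Measurable (fun p : (Fin k → ℝ) × (Fin m → ℝ) => p.2 j) := by fun_prop
    exact h2.mul h1
  have h1 := a1_split (fun p => p.2 j * cur f p.1 p.2) hm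
  have h2 : ∫ x, x (Fin.natAdd k j) * f x ∂(gam (k + m)) =
      ∫ p : (Fin k → ℝ) × (Fin m → ℝ), p.2 j * cur f p.1 p.2 ∂((gam k).prod (gam m)) := by
    rw [← h1]
    refine integral_congr_ae (Filter.Eventually.of_forall fun x => ?_)
    change x (Fin.natAdd k j) * f x = x (Fin.natAdd k j) * cur f _ _
    rw [← a1_f_eq f x]
  have hint : Integrable (fun p : (Fin k → ℝ) × (Fin m → ℝ) => p.2 j * cur f p.1 p.2)
      ((gam k).prod (gam m)) := by
    have h3 : Integrable (fun p : (Fin k → ℝ) × (Fin m → ℝ) => p.2 j) ((gam k).prod (gam m)) :=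
      (a1_coord_int j).comp_snd (gam k)
    exact h3.mul_bdd (c := 1) (a1_cur_meas hf).aestronglyMeasurable
      (Filter.Eventually.of_forall fun p => by
        rw [Real.norm_eq_abs]
        exact hb _)
  rw [h2, integral_prod_symm _ hint]
  refine integral_congr_ae (Filter.Eventually.of_forall fun y => ?_)
  exact integral_const_mul _ _

private theorem a1_lin {k : ℕ} {m : ℕ} (a b : ℝ) (x z : Fin k → ℝ) (y w : Fin m → ℝ) :
    a • (Fin.append x y : Fin (k + m) → ℝ) + b • (Fin.append z w : Fin (k + m) → ℝ) =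
      Fin.append (a • x + b • z) (a • y + b • w) := by
  funext i
  refine Fin.addCases (fun j => ?_) (fun j => ?_) i
  · simp [Fin.append_left]
  · simp [Fin.append_right]

/-- [A1] Fubini along `split_mp k m : x ↦ (x ∘ castAdd, x ∘ natAdd)`. -/
theorem SS_diag {k : ℕ} {m : ℕ} (ρ : ℝ) (f : (Fin (k + m) → ℝ) → ℝ) (hf : Measurable f)
    (hb : ∀ x, |f x| ≤ 1) : GG ρ f f = SS ρ ρ (cur f) := by
  set s : ℝ := Real.sqrt (1 - ρ ^ 2) with hs
  have hH : Measurable (fun p : (Fin (k + m) → ℝ) × (Fin (k + m) → ℝ) =>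
      f p.1 * f (ρ • p.1 + s • p.2)) := by
    have h1 : Measurable (fun p : (Fin (k + m) → ℝ) × (Fin (k + m) → ℝ) => f p.1) :=
      hf.comp measurable_fst
    have h2 : Measurable (fun p : (Fin (k + m) → ℝ) × (Fin (k + m) → ℝ) =>
      f (ρ • p.1 + s • p.2)) := hf.comp (by fun_prop)
    exact h1.mul h2
  have hHb : ∀ x z, |f x * f (ρ • x + s • z)| ≤ 1 := fun x z => a1_mul (hb _) (hb _)
  -- the inner integral
  have e1 : ∀ x : Fin (k + m) → ℝ, ∫ z, f x * f (ρ • x + s • z) ∂(gam (k + m)) =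
      ∫ z', ∫ w, f x * f (ρ • x + s • (Fin.append z' w)) ∂(gam m) ∂(gam k) := by
    intro x
    have h1 : Measurable (fun z : Fin (k + m) → ℝ => f x * f (ρ • x + s • z)) := by
      have h2 : Measurable (fun z : Fin (k + m) → ℝ => f (ρ • x + s • z)) := hf.comp (by fun_prop)
      exact h2.const_mul _
    exact int_cur (fun z => f x * f (ρ • x + s • z)) h1 (hHb x)
  have hG : Measurable (fun x : Fin (k + m) → ℝ =>
      ∫ z, f x * f (ρ • x + s • z) ∂(gam (k + m))) :=
    (hH.stronglyMeasurable.integral_prod_right' (ν := gam (k + m))).measurable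
  have hGb : ∀ x : Fin (k + m) → ℝ, |∫ z, f x * f (ρ • x + s • z) ∂(gam (k + m))| ≤ 1 :=
    fun x => a1_bd _ _ (hHb x)
  have e2 := int_cur _ hG hGb
  unfold GG
  rw [e2]
  unfold SS bar
  refine integral_congr_ae (Filter.Eventually.of_forall fun x => ?_)
  change ∫ y, (∫ z, f (Fin.append x y) * f (ρ • (Fin.append x y) + s • z) ∂(gam (k + m)))
    ∂(gam m) = ∫ z, GG ρ (cur f x) (cur f (ρ • x + s • z)) ∂(gam k)
  have e3 : ∀ y : Fin m → ℝ,
      ∫ z, f (Fin.append x y) * f (ρ • (Fin.append x y) + s • z) ∂(gam (k + m)) =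
      ∫ z', ∫ w, cur f x y * cur f (ρ • x + s • z') (ρ • y + s • w) ∂(gam m) ∂(gam k) := by
    intro y
    rw [e1]
    refine integral_congr_ae (Filter.Eventually.of_forall fun z' => ?_)
    refine integral_congr_ae (Filter.Eventually.of_forall fun w => ?_)
    change f (Fin.append x y) * f (ρ • (Fin.append x y) + s • (Fin.append z' w)) =
      f (Fin.append x y) * f (Fin.append (ρ • x + s • z') (ρ • y + s • w))
    rw [a1_lin]
  rw [integral_congr_ae (Filter.Eventually.of_forall e3)]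
  -- swap
  have hK : Measurable (fun q : ((Fin m → ℝ) × (Fin k → ℝ)) × (Fin m → ℝ) =>
      cur f x q.1.1 * cur f (ρ • x + s • q.1.2) (ρ • q.1.1 + s • q.2)) := by
    have h1 : Measurable (fun q : ((Fin m → ℝ) × (Fin k → ℝ)) × (Fin m → ℝ) =>
        cur f x q.1.1) :=
      (a1_cur_meas hf).comp (by fun_prop : Measurable
        (fun q : ((Fin m → ℝ) × (Fin k → ℝ)) × (Fin m → ℝ) => (x, q.1.1)))
    have h2 : Measurable (fun q : ((Fin m → ℝ) × (Fin k → ℝ)) × (Fin m → ℝ) =>
        cur f (ρ • x + s • q.1.2) (ρ • q.1.1 + s • q.2)) :=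
      (a1_cur_meas hf).comp (by fun_prop : Measurable
        (fun q : ((Fin m → ℝ) × (Fin k → ℝ)) × (Fin m → ℝ) =>
          (ρ • x + s • q.1.2, ρ • q.1.1 + s • q.2)))
    exact h1.mul h2
  have hK2 : Measurable (fun q : (Fin m → ℝ) × (Fin k → ℝ) =>
      ∫ w, cur f x q.1 * cur f (ρ • x + s • q.2) (ρ • q.1 + s • w) ∂(gam m)) :=
    (hK.stronglyMeasurable.integral_prod_right' (ν := gam m)).measurable
  have hKb : ∀ q : (Fin m → ℝ) × (Fin k → ℝ),
      |∫ w, cur f x q.1 * cur f (ρ • x + s • q.2) (ρ • q.1 + s • w) ∂(gam m)| ≤ 1 :=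
    fun q => a1_bd _ _ fun w => a1_mul (hb _) (hb _)
  exact integral_integral_swap (a1_bint _ _ hK2 hKb)

end Pool.Agent.SSQ
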