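import Pool.Agent.SSQ.D6
import Pool.Agent.SSCP.LA2

set_option autoImplicit false
open MeasureTheory ProbabilityTheory Set Real
open scoped ENNReal

namespace Pool.Agent.SSQ
open Pool.Agent.SSC3N (gam GG TT gam_prob gam_ou TT_measurable TT_bdd GG_semigroup TT_contr cub_semigroup cub_odd cub_GG_TT gauss_rot)
open Pool.Agent.SSCP (GG_shift GG_mono shift_var TT_comp gap2)

private instance A7_inst (m : ℕ) : IsProbabilityMeasure (gam m) := gam_prob m

private theorem A7_bd {α : Type*} [MeasurableSpace α] (μ : Measure α)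
    [IsProbabilityMeasure μ] (f : α → ℝ) (hb : ∀ y, |f y| ≤ 1) : |∫ y, f y ∂μ| ≤ 1 := by
  have := norm_integral_le_of_norm_le_const (μ := μ) (f := f) (C := 1)
    (Filter.Eventually.of_forall hb)
  simpa using this

private theorem A7_zero {m : ℕ} (g : (Fin m → ℝ) → ℝ) :
    GG 0 g g = (∫ y, g y ∂(gam m)) ^ 2 := by
  unfold GG
  have h : ∀ y : Fin m → ℝ, (∫ z, g y * g ((0:ℝ) • y + Real.sqrt (1 - 0 ^ 2) • z) ∂(gam m)) =
      g y * ∫ z, g z ∂(gam m) := by
    intro y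
    rw [integral_const_mul]
    simp
  simp_rw [h]
  rw [integral_mul_const, sq]

/-- [A7] `SS_eq` and `GG_mono` for the function `y ↦ TT √ρ (F · y) x` for each `x`
(`SS ρ 0 F = ∫ (∫ y …)²` by `SS_eq` with `r = 0` and `GG 0 g g = (∫ g)²`), integrate in `x`. -/
theorem SS_mono {k : ℕ} {m : ℕ} (ρ r : ℝ) (h0 : 0 < ρ) (hr : ρ ≤ r) (h1 : r ≤ 1)
    (F : (Fin k → ℝ) → (Fin m → ℝ) → ℝ) (hF : Measurable (Function.uncurry F))
    (hb : ∀ x y, |F x y| ≤ 1) :
    r * (SS ρ ρ F - SS ρ 0 F) ≤ ρ * (SS ρ r F - SS ρ 0 F) := by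
  have hr0 : 0 < r := lt_of_lt_of_le h0 hr
  have hρ1 : ρ ≤ 1 := hr.trans h1
  let kf : (Fin k → ℝ) → (Fin m → ℝ) → ℝ :=
    fun x y => Pool.Agent.SSC3N.TT (Real.sqrt ρ) (fun x' => F x' y) x
  have hkb : ∀ x y, |kf x y| ≤ 1 := fun x y => TT_bdd _ _ (fun x' => hb x' y) x
  have hkm : Measurable (Function.uncurry kf) := by
    have h1 : Measurable (fun qq : ((Fin k → ℝ) × (Fin m → ℝ)) × (Fin k → ℝ) =>
        F (Real.sqrt ρ • qq.1.1 + Real.sqrt (1 - Real.sqrt ρ ^ 2) • qq.2) qq.1.2) := by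
      have : Measurable (fun qq : ((Fin k → ℝ) × (Fin m → ℝ)) × (Fin k → ℝ) =>
          (Real.sqrt ρ • qq.1.1 + Real.sqrt (1 - Real.sqrt ρ ^ 2) • qq.2, qq.1.2)) := by fun_prop
      exact hF.comp this
    exact (h1.stronglyMeasurable.integral_prod_right' (ν := gam k)).measurable
  have e : ∀ s, 0 ≤ s → s ≤ 1 → SS ρ s F = ∫ x, GG s (kf x) (kf x) ∂(gam k) :=
    fun s hs0 hs1 => SS_eq ρ s h0.le hρ1 hs0 hs1 F hF hb
  have hGGm : ∀ s : ℝ, Measurable (fun x => GG s (kf x) (kf x)) := by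
    intro s
    have h2 : Measurable (fun qq : ((Fin k → ℝ) × (Fin m → ℝ)) × (Fin m → ℝ) =>
        kf qq.1.1 qq.1.2 * kf qq.1.1 (s • qq.1.2 + Real.sqrt (1 - s ^ 2) • qq.2)) := by
      have m1 : Measurable (fun qq : ((Fin k → ℝ) × (Fin m → ℝ)) × (Fin m → ℝ) =>
          (qq.1.1, qq.1.2)) := by fun_prop
      have m2 : Measurable (fun qq : ((Fin k → ℝ) × (Fin m → ℝ)) × (Fin m → ℝ) =>
          (qq.1.1, s • qq.1.2 + Real.sqrt (1 - s ^ 2) • qq.2)) := by fun_prop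
      exact (hkm.comp m1).mul (hkm.comp m2)
    have h3 := h2.stronglyMeasurable.integral_prod_right' (ν := gam m)
    have h4 := h3.integral_prod_right' (ν := gam m)
    exact h4.measurable
  have hGGb : ∀ s x, |GG s (kf x) (kf x)| ≤ 1 := by
    intro s x
    refine A7_bd _ _ fun y => A7_bd _ _ fun z => ?_
    rw [abs_mul]
    exact mul_le_one₀ (hkb _ _) (abs_nonneg _) (hkb _ _)
  have hI : ∀ s, Integrable (fun x => GG s (kf x) (kf x)) (gam k) := fun s =>
    Integrable.of_bound (hGGm s).aestronglyMeasurable 1 (Filter.Eventually.of_forall (hGGb s))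
  have hpt : ∀ x, r * (GG ρ (kf x) (kf x) - GG 0 (kf x) (kf x)) ≤
      ρ * (GG r (kf x) (kf x) - GG 0 (kf x) (kf x)) := by
    intro x
    have hkx : Measurable (kf x) := hkm.comp (by fun_prop : Measurable fun y : Fin m → ℝ => (x, y))
    have := GG_mono ρ r h0 hr h1 (kf x) hkx (hkb x)
    rw [A7_zero]
    exact this
  rw [e ρ h0.le hρ1, e r hr0.le h1, e 0 le_rfl zero_le_one]
  have hm := integral_mono (((hI ρ).sub (hI 0)).const_mul r) (((hI r).sub (hI 0)).const_mul ρ) hpt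
  rw [integral_const_mul, integral_const_mul] at hm
  simp only [Pi.sub_apply] at hm
  rw [integral_sub (hI ρ) (hI 0), integral_sub (hI r) (hI 0)] at hm
  exact hm

end Pool.Agent.SSQ
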