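import Pool.Agent.SSQ.DDefs

set_option autoImplicit false
open MeasureTheory ProbabilityTheory Set Real
open scoped ENNReal

namespace Pool.Agent.SSQ
open Pool.Agent.SSC3N (gam GG TT gam_prob gam_ou TT_measurable TT_bdd GG_semigroup TT_contr cub_semigroup cub_odd cub_GG_TT gauss_rot)

private theorem a8_GG_zero {m : ℕ} (g h : (Fin m → ℝ) → ℝ) :
    GG 0 g h = (∫ y, g y ∂(gam m)) * ∫ z, h z ∂(gam m) := by
  have : IsProbabilityMeasure (gam m) := gam_prob m
  unfold GG
  have h1 : ∀ y : Fin m → ℝ, ∫ z, g y * h ((0:ℝ) • y + Real.sqrt (1 - 0 ^ 2) • z) ∂(gam m)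
      = g y * ∫ z, h z ∂(gam m) := by
    intro y
    rw [integral_const_mul]
    congr 1
    refine integral_congr_ae (Filter.Eventually.of_forall fun z => ?_)
    simp
  rw [integral_congr_ae (Filter.Eventually.of_forall h1), integral_mul_const]

/-- [A8] `GG 0 g h = (∫ g)(∫ h)`, so the two `y`-integrals factorise. -/
theorem SS_zero {k : ℕ} {m : ℕ} (ρ : ℝ) (F : (Fin k → ℝ) → (Fin m → ℝ) → ℝ)
    (hF : Measurable (Function.uncurry F)) (hb : ∀ x y, |F x y| ≤ 1) :
    SS ρ 0 F = GG ρ (bar F) (bar F) := by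
  unfold SS
  simp only [a8_GG_zero]
  rfl

end Pool.Agent.SSQ
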