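import Pool.Agent.SSQ.D1

set_option autoImplicit false
open MeasureTheory ProbabilityTheory Set Real
open scoped ENNReal

namespace Pool.Agent.SSQ
open Pool.Agent.SSC3N (gam GG TT gam_prob gam_ou TT_measurable TT_bdd GG_semigroup TT_contr cub_semigroup cub_odd cub_GG_TT gauss_rot)

private instance a13_prob (m : ℕ) : IsProbabilityMeasure (gam m) := gam_prob m

private theorem a13_append_meas {k : ℕ} (m : ℕ) : Measurable (fun p : (Fin k → ℝ) × (Fin m → ℝ) =>
    (Fin.append p.1 p.2 : Fin (k + m) → ℝ)) := by
  refine measurable_pi_lambda _ fun i => ?_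
  refine Fin.addCases (fun j => ?_) (fun j => ?_) i
  · simp only [Fin.append_left]
    fun_prop
  · simp only [Fin.append_right]
    fun_prop

/-- [A13] `int_cur`; `bar` of a measurable bounded function is measurable (Fubini). -/
theorem bar_FP {q k : ℕ} {m : ℕ} (f : Fin q → (Fin (k + m) → ℝ) → ℝ) (hf : FP f) :
    FP (fun i => bar (cur (f i))) ∧ pen (fun i => bar (cur (f i))) = pen f := by
  obtain ⟨hm, hn, hs⟩ := hf
  have hle : ∀ i x, f i x ≤ 1 := by
    intro i x
    rw [← hs x]
    exact Finset.single_le_sum (fun j _ => hn j x) (Finset.mem_univ i)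
  have hab : ∀ i x, |f i x| ≤ 1 := by
    intro i x
    rw [abs_of_nonneg (hn i x)]
    exact hle i x
  have hcm : ∀ i, Measurable (fun p : (Fin k → ℝ) × (Fin m → ℝ) => cur (f i) p.1 p.2) :=
    fun i => (hm i).comp (a13_append_meas m)
  have hint : ∀ (i : Fin q) (x : Fin k → ℝ), Integrable (fun y => cur (f i) x y) (gam m) := by
    intro i x
    refine Integrable.of_bound ?_ 1 (Filter.Eventually.of_forall fun y => hab i _)
    exact ((hcm i).comp (by fun_prop : Measurable (fun y : Fin m → ℝ => (x, y)))).aestronglyMeasurable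
  refine ⟨⟨fun i => ?_, fun i x => ?_, fun x => ?_⟩, ?_⟩
  · exact ((hcm i).stronglyMeasurable.integral_prod_right' (ν := gam m)).measurable
  · exact integral_nonneg fun y => hn i _
  · unfold bar
    rw [← integral_finsetSum _ (fun i _ => hint i x)]
    unfold cur
    simp [hs]
  · unfold pen
    refine Finset.sum_congr rfl fun i _ => ?_
    rw [int_cur (f i) (hm i) (hab i)]

end Pool.Agent.SSQ
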