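import Pool.Agent.SSQ.DDefs

set_option autoImplicit false
open MeasureTheory ProbabilityTheory Set Real
open scoped ENNReal

namespace Pool.Agent.SSQ
open Pool.Agent.SSC3N (gam GG TT gam_prob)

private theorem d14_mono2 {m : ℕ} (F G : (Fin m → ℝ) → (Fin m → ℝ) → ℝ) (C : ℝ)
    (hF : Measurable (Function.uncurry F)) (hG : Measurable (Function.uncurry G))
    (hFb : ∀ y z, |F y z| ≤ C) (hGb : ∀ y z, |G y z| ≤ C) (h : ∀ y z, F y z ≤ G y z) :
    ∫ y, ∫ z, F y z ∂(gam m) ∂(gam m) ≤ ∫ y, ∫ z, G y z ∂(gam m) ∂(gam m) := by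
  have := gam_prob m
  have key : ∀ H : (Fin m → ℝ) → (Fin m → ℝ) → ℝ, Measurable (Function.uncurry H) →
      (∀ y z, |H y z| ≤ C) → (∀ y, Integrable (H y) (gam m)) ∧
        Integrable (fun y => ∫ z, H y z ∂(gam m)) (gam m) := by
    intro H hH hb
    have h1 : ∀ y, Integrable (H y) (gam m) := fun y =>
      Integrable.of_bound (hH.comp measurable_prodMk_left).aestronglyMeasurable C
        (Filter.Eventually.of_forall fun z => hb y z)
    refine ⟨h1, ?_⟩
    refine Integrable.of_bound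
      (hH.stronglyMeasurable.integral_prod_right' (ν := gam m)).aestronglyMeasurable C
      (Filter.Eventually.of_forall fun y => ?_)
    have := norm_integral_le_of_norm_le_const (μ := gam m) (f := fun z => H y z) (C := C)
      (Filter.Eventually.of_forall fun z => hb y z)
    simpa [Function.uncurry] using this
  obtain ⟨f1, f2⟩ := key F hF hFb
  obtain ⟨g1, g2⟩ := key G hG hGb
  exact integral_mono f2 g2 fun y => integral_mono (f1 y) (g1 y) (h y)

private theorem d14_meas {m : ℕ} (ρ : ℝ) (f h : (Fin m → ℝ) → ℝ) (hf : Measurable f)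
    (hh : Measurable h) : Measurable (Function.uncurry fun (y z : Fin m → ℝ) =>
      f y * h (ρ • y + Real.sqrt (1 - ρ ^ 2) • z)) := by
  have h1 : Measurable (fun p : (Fin m → ℝ) × (Fin m → ℝ) =>
      ρ • p.1 + Real.sqrt (1 - ρ ^ 2) • p.2) := by fun_prop
  exact (hf.comp measurable_fst).mul (hh.comp h1)

private theorem d14_abs {a b : ℝ} (ha0 : 0 ≤ a) (ha : a ≤ 1) (hb0 : 0 ≤ b) (hb : b ≤ 1) :
    |a * b| ≤ 1 := by
  rw [abs_of_nonneg (mul_nonneg ha0 hb0)]
  exact mul_le_one₀ ha hb0 hb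

private theorem d14_le1 {q : ℕ} {X : Type} [MeasurableSpace X] (g : Fin q → X → ℝ) (hg : FP g)
    (i : Fin q) (x : X) : g i x ≤ 1 := by
  obtain ⟨_, h2, h3⟩ := hg
  rw [← h3 x]
  exact Finset.single_le_sum (f := fun i => g i x) (fun i _ => h2 i x) (Finset.mem_univ i)

private theorem d14_GG {m : ℕ} (ρ : ℝ) (f : (Fin m → ℝ) → ℝ) (hf : Measurable f)
    (h0 : ∀ x, 0 ≤ f x) (h1 : ∀ x, f x ≤ 1) :
    0 ≤ GG ρ f f ∧ GG ρ f f ≤ ∫ x, f x ∂(gam m) := by
  have := gam_prob m
  constructor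
  · unfold GG
    exact integral_nonneg fun y => integral_nonneg fun z => mul_nonneg (h0 _) (h0 _)
  · unfold GG
    have h2 := d14_mono2 (m := m) (fun y z => f y * f (ρ • y + Real.sqrt (1 - ρ ^ 2) • z))
      (fun y _ => f y) 1 (d14_meas ρ f f hf hf) (hf.comp measurable_fst)
      (fun y z => d14_abs (h0 _) (h1 _) (h0 _) (h1 _))
      (fun y z => by rw [abs_of_nonneg (h0 _)]; exact h1 _)
      (fun y z => mul_le_of_le_one_right (h0 _) (h1 _))
    simpa using h2

private theorem d14_int {q m : ℕ} (g : Fin q → (Fin m → ℝ) → ℝ) (hg : FP g) (i : Fin q) :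
    Integrable (g i) (gam m) := by
  have := gam_prob m
  refine Integrable.of_bound (hg.1 i).aestronglyMeasurable 1
    (Filter.Eventually.of_forall fun x => ?_)
  rw [Real.norm_eq_abs, abs_of_nonneg (hg.2.1 i x)]
  exact d14_le1 g hg i x

private theorem d14_sumint {q m : ℕ} (g : Fin q → (Fin m → ℝ) → ℝ) (hg : FP g) :
    ∑ i, ∫ x, g i x ∂(gam m) = 1 := by
  have := gam_prob m
  rw [← integral_finsetSum _ fun i _ => d14_int g hg i]
  have h3 : (fun x => ∑ i, g i x) = fun _ => (1 : ℝ) := funext hg.2.2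
  rw [h3]
  simp

private theorem d14_Fn {q m : ℕ} (ρ : ℝ) (g : Fin q → (Fin m → ℝ) → ℝ) (hg : FP g) :
    0 ≤ Fn ρ g ∧ Fn ρ g ≤ 1 := by
  have h := fun i => d14_GG ρ (g i) (hg.1 i) (hg.2.1 i) (d14_le1 g hg i)
  constructor
  · exact Finset.sum_nonneg fun i _ => (h i).1
  · rw [← d14_sumint g hg]
    exact Finset.sum_le_sum fun i _ => (h i).2

/-- [D14] ADAPT `Pool/Agent/SSCP/A14.lean` (`planar_pen`; same proof, private lemmas included) from `3` parts to `q`
parts and from the plane to `ℝⁿ`.  Let `m_i = ∫ g_i`, `d = max_i (m_i - 1/q) ≥ 0` (the `m_i` sum to 1), so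
`pen g ≥ d²`.  Let `θ = min 1 (q d)`.  If `d = 0` all `m_i = 1/q`: `Fn ρ g ≤ S`.  Otherwise let
`p_i = 1/q - (1-θ) m_i ≥ 0`, `∑ p_i = θ`, and `g'_i = (1-θ) g_i + p_i`: a balanced fractional partition,
so `S ≥ Fn ρ g' ≥ (1-θ)² Fn ρ g`.  Since `Fn ρ g ≤ 1`, `Fn ρ g ≤ S + 2θ ≤ S + 2 q d`, and
`2 q d - P d² ≤ q²/P`. -/
theorem planar_pen {q n : ℕ} (hq : 0 < q) (ρ S P : ℝ) (h0 : 0 ≤ ρ) (h1 : ρ ≤ 1) (hP : 0 < P)
    (hS : ∀ g : Fin q → (Fin n → ℝ) → ℝ, FP g → (∀ i, ∫ x, g i x ∂(gam n) = 1 / (q : ℝ)) → Fn ρ g ≤ S)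
    (g : Fin q → (Fin n → ℝ) → ℝ) (hg : FP g) : Fn ρ g - P * pen g ≤ S + q ^ 2 / P := by
  have hprob := gam_prob n
  obtain ⟨hF0, hF1⟩ := d14_Fn ρ g hg
  have hsum := d14_sumint g hg
  have hqR : (0 : ℝ) < (q : ℝ) := Nat.cast_pos.2 hq
  have hqne : (q : ℝ) ≠ 0 := ne_of_gt hqR
  set M : Fin q → ℝ := fun i => ∫ x, g i x ∂(gam n) with hM
  have hsum' : ∑ i, M i = 1 := hsum
  -- the largest mass
  obtain ⟨k, hk⟩ : ∃ k, ∀ i, M i ≤ M k := by
    obtain ⟨k, _, hk⟩ := Finset.exists_max_image (Finset.univ : Finset (Fin q)) M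
      ⟨⟨0, hq⟩, Finset.mem_univ _⟩
    exact ⟨k, fun i => hk i (Finset.mem_univ i)⟩
  set d := M k - 1 / (q : ℝ) with hd
  have hone : ∑ _i : Fin q, (1 / (q : ℝ)) = 1 := by
    rw [Finset.sum_const, Finset.card_univ, Fintype.card_fin, nsmul_eq_mul,
      mul_one_div_cancel hqne]
  have hd0 : 0 ≤ d := by
    by_contra hneg
    have hneg' : M k < 1 / (q : ℝ) := by
      rw [hd] at hneg
      linarith
    have h2 : ∑ i, M i < ∑ _i : Fin q, (1 / (q : ℝ)) := by
      refine Finset.sum_lt_sum (fun i _ => le_trans (hk i) hneg'.le) ⟨k, Finset.mem_univ k, hneg'⟩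
    rw [hone, hsum'] at h2
    exact lt_irrefl _ h2
  have hpen : d ^ 2 ≤ pen g := by
    unfold pen
    exact Finset.single_le_sum (f := fun i => ((∫ x, g i x ∂(gam n)) - 1 / (q : ℝ)) ^ 2)
      (fun i _ => sq_nonneg _) (Finset.mem_univ k)
  -- main bound
  have hmain : Fn ρ g ≤ S + 2 * q * d := by
    rcases hd0.eq_or_lt with hz | hpos
    · -- all masses are 1/q
      have hk' : M k = 1 / (q : ℝ) := by rw [hd] at hz; linarith
      have hall : ∀ i, ∫ x, g i x ∂(gam n) = 1 / (q : ℝ) := by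
        intro i
        by_contra hne
        have hlt : M i < 1 / (q : ℝ) := lt_of_le_of_ne (le_trans (hk i) hk'.le) hne
        have h2 : ∑ i, M i < ∑ _i : Fin q, (1 / (q : ℝ)) := by
          refine Finset.sum_lt_sum (fun i _ => le_trans (hk i) hk'.le) ⟨i, Finset.mem_univ i, hlt⟩
        rw [hone, hsum'] at h2
        exact lt_irrefl _ h2
      have h3 := hS g hg hall
      rw [← hz, mul_zero, add_zero]
      exact h3
    · set θ := min 1 ((q : ℝ) * d) with hθ
      have hθ1 : θ ≤ 1 := min_le_left _ _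
      have hθd : θ ≤ (q : ℝ) * d := min_le_right _ _
      have hθ0 : 0 < θ := lt_min one_pos (mul_pos hqR hpos)
      have hMle : ∀ i, (1 - θ) * M i ≤ 1 / (q : ℝ) := by
        intro i
        have b1 : M i ≤ 1 / (q : ℝ) + d := by
          have := hk i
          rw [hd]
          linarith
        have b2 : (1 - θ) * M i ≤ (1 - θ) * (1 / (q : ℝ) + d) :=
          mul_le_mul_of_nonneg_left b1 (by linarith)
        have b3 : (1 - θ) * (1 / (q : ℝ) + d) ≤ 1 / (q : ℝ) := by
          have hqi : 0 < 1 / (q : ℝ) := one_div_pos.2 hqR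
          rcases min_choice 1 ((q : ℝ) * d) with hc | hc
          · have h5 : θ = 1 := by rw [hθ, hc]
            rw [h5, sub_self, zero_mul]
            exact hqi.le
          · have h5 : θ = (q : ℝ) * d := by rw [hθ, hc]
            have h6 : (1 - (q : ℝ) * d) * (1 / (q : ℝ) + d) = 1 / (q : ℝ) - q * d ^ 2 := by
              field_simp
              ring
            rw [h5, h6]
            have : 0 ≤ (q : ℝ) * d ^ 2 := mul_nonneg hqR.le (sq_nonneg d)
            linarith
        linarith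
      set p : Fin q → ℝ := fun i => (1 / (q : ℝ) - (1 - θ) * M i) with hp
      have hp0 : ∀ i, 0 ≤ p i := fun i => by
        have := hMle i
        simp only [hp]
        linarith
      have hpsum : ∑ i, p i = θ := by
        simp only [hp]
        rw [Finset.sum_sub_distrib, hone, ← Finset.mul_sum, hsum']
        ring
      set g' : Fin q → (Fin n → ℝ) → ℝ := fun i x => (1 - θ) * g i x + p i with hg'
      have hFP' : FP g' := by
        refine ⟨fun i => ?_, fun i x => ?_, fun x => ?_⟩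
        · exact ((hg.1 i).const_mul (1 - θ)).add_const _
        · exact add_nonneg (mul_nonneg (by linarith) (hg.2.1 i x)) (hp0 i)
        · simp only [hg']
          rw [Finset.sum_add_distrib, ← Finset.mul_sum, hg.2.2 x, hpsum]
          ring
      have hint : ∀ i, Integrable (g i) (gam n) := fun i => d14_int g hg i
      have hbal : ∀ i, ∫ x, g' i x ∂(gam n) = 1 / (q : ℝ) := by
        intro i
        simp only [hg']
        rw [integral_add ((hint i).const_mul _) (integrable_const _), integral_const_mul,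
          integral_const, probReal_univ, one_smul]
        simp only [hp, hM]
        ring
      have hS' := hS g' hFP' hbal
      -- comparison
      have hcmp : (1 - θ) ^ 2 * Fn ρ g ≤ Fn ρ g' := by
        unfold Fn
        rw [Finset.mul_sum]
        refine Finset.sum_le_sum fun i _ => ?_
        unfold GG
        rw [← integral_const_mul]
        have e1 : (fun y => (1 - θ) ^ 2 * ∫ z, g i y * g i (ρ • y + Real.sqrt (1 - ρ ^ 2) • z)
            ∂(gam n)) = fun y => ∫ z, (1 - θ) ^ 2 * (g i y *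
              g i (ρ • y + Real.sqrt (1 - ρ ^ 2) • z)) ∂(gam n) := by
          funext y
          simp only [integral_const_mul]
        rw [e1]
        have ht0 : 0 ≤ 1 - θ := by linarith
        have ht1 : (1 - θ) ^ 2 ≤ 1 := by nlinarith
        refine d14_mono2 (m := n) (fun y z => (1 - θ) ^ 2 * (g i y *
              g i (ρ • y + Real.sqrt (1 - ρ ^ 2) • z)))
            (fun y z => g' i y * g' i (ρ • y + Real.sqrt (1 - ρ ^ 2) • z)) 1
            ((d14_meas ρ (g i) (g i) (hg.1 i) (hg.1 i)).const_mul _)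
            (d14_meas ρ (g' i) (g' i) (hFP'.1 i) (hFP'.1 i)) ?_ ?_ ?_
        · intro y z
          rw [abs_mul, abs_of_nonneg (sq_nonneg (1 - θ))]
          exact mul_le_one₀ ht1 (abs_nonneg _)
            (d14_abs (hg.2.1 i _) (d14_le1 g hg i _) (hg.2.1 i _) (d14_le1 g hg i _))
        · intro y z
          exact d14_abs (hFP'.2.1 i _) (d14_le1 g' hFP' i _) (hFP'.2.1 i _) (d14_le1 g' hFP' i _)
        · intro y z
          have c1 : (1 - θ) * g i y ≤ g' i y := by
            simp only [hg']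
            have := hp0 i
            linarith
          have c2 : (1 - θ) * g i (ρ • y + Real.sqrt (1 - ρ ^ 2) • z) ≤
              g' i (ρ • y + Real.sqrt (1 - ρ ^ 2) • z) := by
            simp only [hg']
            have := hp0 i
            linarith
          calc (1 - θ) ^ 2 * (g i y * g i (ρ • y + Real.sqrt (1 - ρ ^ 2) • z))
              = ((1 - θ) * g i y) * ((1 - θ) * g i (ρ • y + Real.sqrt (1 - ρ ^ 2) • z)) := by ring
            _ ≤ _ := mul_le_mul c1 c2 (mul_nonneg ht0 (hg.2.1 i _)) (hFP'.2.1 i _)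
      have hfin : Fn ρ g ≤ S + 2 * θ := by
        have e2 : Fn ρ g - (1 - θ) ^ 2 * Fn ρ g = (2 * θ - θ ^ 2) * Fn ρ g := by ring
        have e3 : (2 * θ - θ ^ 2) * Fn ρ g ≤ 2 * θ := by
          have e4 : 0 ≤ 2 * θ - θ ^ 2 := by nlinarith
          calc (2 * θ - θ ^ 2) * Fn ρ g ≤ (2 * θ - θ ^ 2) * 1 :=
                mul_le_mul_of_nonneg_left hF1 e4
            _ ≤ 2 * θ := by nlinarith [sq_nonneg θ]
        linarith
      linarith
  have hfinal : 2 * q * d - P * d ^ 2 ≤ (q : ℝ) ^ 2 / P := by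
    rw [le_div_iff₀ hP]
    nlinarith [sq_nonneg ((q : ℝ) - P * d)]
  have hPp : P * d ^ 2 ≤ P * pen g := mul_le_mul_of_nonneg_left hpen hP.le
  linarith

end Pool.Agent.SSQ
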