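import Pool.Agent.SSQ.DDefs

set_option autoImplicit false
open MeasureTheory ProbabilityTheory Set Real
open scoped ENNReal

namespace Pool.Agent.SSQ
open Pool.Agent.SSC3N (gam GG TT gam_prob gam_ou TT_measurable TT_bdd GG_semigroup TT_contr cub_semigroup cub_odd cub_GG_TT gauss_rot)

private instance a16_prob (m : ℕ) : IsProbabilityMeasure (gam m) := gam_prob m

private theorem a16_bint {α : Type*} [MeasurableSpace α] (μ : Measure α)
    [IsProbabilityMeasure μ] (f : α → ℝ) (hf : Measurable f) (hb : ∀ y, |f y| ≤ 1) :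
    Integrable f μ :=
  Integrable.of_bound hf.aestronglyMeasurable 1 (Filter.Eventually.of_forall hb)

/-- [A16] elementary facts on `Fn` and `pen`. -/
theorem Fn_le_one {q : ℕ} {n : ℕ} (ρ : ℝ) (h0 : 0 ≤ ρ) (h1 : ρ ≤ 1) (f : Fin q → (Fin n → ℝ) → ℝ)
    (hf : FP f) : Fn ρ f ≤ 1 ∧ 0 ≤ Fn ρ f := by
  obtain ⟨hm, hn, hs⟩ := hf
  have hle : ∀ i x, f i x ≤ 1 := by
    intro i x
    rw [← hs x]
    exact Finset.single_le_sum (fun j _ => hn j x) (Finset.mem_univ i)
  have hab : ∀ i x, |f i x| ≤ 1 := by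
    intro i x
    rw [abs_of_nonneg (hn i x)]
    exact hle i x
  have hint : ∀ i, Integrable (f i) (gam n) := fun i => a16_bint _ _ (hm i) (hab i)
  have key : ∀ i, 0 ≤ GG ρ (f i) (f i) ∧ GG ρ (f i) (f i) ≤ ∫ x, f i x ∂(gam n) := by
    intro i
    unfold GG
    constructor
    · exact integral_nonneg fun y => integral_nonneg fun z => mul_nonneg (hn i _) (hn i _)
    · refine integral_mono_of_nonneg (Filter.Eventually.of_forall fun y =>
        integral_nonneg fun z => mul_nonneg (hn i _) (hn i _)) (hint i)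
        (Filter.Eventually.of_forall fun y => ?_)
      have h2 : ∫ z, f i y * f i (ρ • y + Real.sqrt (1 - ρ ^ 2) • z) ∂(gam n) ≤
          ∫ _z, f i y ∂(gam n) := by
        refine integral_mono_of_nonneg (Filter.Eventually.of_forall fun z =>
          mul_nonneg (hn i _) (hn i _)) (integrable_const _)
          (Filter.Eventually.of_forall fun z => ?_)
        exact mul_le_of_le_one_right (hn i _) (hle i _)
      have h3 : ∫ _z, f i y ∂(gam n) = f i y := by simp
      exact h2.trans_eq h3
  unfold Fn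
  constructor
  · have h4 : ∑ i, GG ρ (f i) (f i) ≤ ∑ i, ∫ x, f i x ∂(gam n) :=
      Finset.sum_le_sum fun i _ => (key i).2
    have h5 : ∑ i, ∫ x, f i x ∂(gam n) = 1 := by
      rw [← integral_finsetSum _ (fun i _ => hint i)]
      simp [hs]
    linarith
  · exact Finset.sum_nonneg fun i _ => (key i).1

end Pool.Agent.SSQ
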