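import Pool.Agent.SSQ.DX
import Pool.Agent.SSC3N.StabRot

set_option autoImplicit false
open MeasureTheory ProbabilityTheory Set Real
open scoped ENNReal

namespace Pool.Agent.SSQ
open Pool.Agent.SSC3N (gam GG TT gam_prob gauss_rot stab_rot)

private theorem ds_proj (k m : ℕ) :
    MeasurePreserving (fun x : Fin (k + m) → ℝ => (fun i : Fin k => x (Fin.castAdd m i)))
      (gam (k + m)) (gam k) := by
  have hg : IsProbabilityMeasure (gam m) := gam_prob m
  have hg' : IsProbabilityMeasure (gam k) := gam_prob k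
  have h1 := split_mp k m
  have h2 : MeasurePreserving (Prod.fst : (Fin k → ℝ) × (Fin m → ℝ) → (Fin k → ℝ))
      ((gam k).prod (gam m)) (gam k) := measurePreserving_fst
  exact h2.comp h1

private theorem ds_cell_meas (k n : ℕ) (a : Fin (k + 1) → Fin n → ℝ) (i : Fin (k + 1)) :
    MeasurableSet {x : Fin n → ℝ | ∀ j, j ≠ i → ∑ l, a j l * x l < ∑ l, a i l * x l} := by
  have e : {x : Fin n → ℝ | ∀ j, j ≠ i → ∑ l, a j l * x l < ∑ l, a i l * x l} =
      ⋂ j, {x : Fin n → ℝ | j ≠ i → ∑ l, a j l * x l < ∑ l, a i l * x l} := by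
    ext x; simp
  rw [e]
  refine MeasurableSet.iInter fun j => ?_
  by_cases h : j = i
  · simp [h]
  · have : {x : Fin n → ℝ | j ≠ i → ∑ l, a j l * x l < ∑ l, a i l * x l} =
        {x : Fin n → ℝ | ∑ l, a j l * x l < ∑ l, a i l * x l} := by
      ext x; simp [h]
    rw [this]
    exact measurableSet_lt (by fun_prop) (by fun_prop)

/-- [DS] Reduction of the simplex cells of `ℝ^(k+m)` to `ℝ^k`.  COPY of `Pool/Agent/SSCP/S4.lean` (`cell_reduce`,
same proof) with `2` replaced by `k`, `3` by `k + 1`, `exists_rot` by `exists_rot_k` (the hypothesis `∑ a_i = 0`: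
`∑_l (∑_i a_i l)² = (k+1) + (k+1) k (-1/k) = 0`). -/
theorem cell_reduce (k m : ℕ) (hk : 1 ≤ k) (ρ : ℝ) (a : Fin (k + 1) → Fin (k + m) → ℝ)
    (ha : ∀ i, ∑ l, a i l * a i l = 1)
    (hab : ∀ i j, i ≠ j → ∑ l, a i l * a j l = -1 / (((k + 1 : ℕ) : ℝ) - 1)) :
    ∃ a' : Fin (k + 1) → Fin k → ℝ, (∀ i, ∑ l, a' i l * a' i l = 1) ∧
      (∀ i j, i ≠ j → ∑ l, a' i l * a' j l = -1 / (((k + 1 : ℕ) : ℝ) - 1)) ∧
      ∀ i, ((gam (k + m)).prod (gam (k + m)))
          {p : (Fin (k + m) → ℝ) × (Fin (k + m) → ℝ) |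
            p.1 ∈ {x : Fin (k + m) → ℝ | ∀ j, j ≠ i → ∑ l, a j l * x l < ∑ l, a i l * x l} ∧
            ρ • p.1 + Real.sqrt (1 - ρ ^ 2) • p.2 ∈
              {x : Fin (k + m) → ℝ | ∀ j, j ≠ i → ∑ l, a j l * x l < ∑ l, a i l * x l}} =
        ((gam k).prod (gam k))
          {p : (Fin k → ℝ) × (Fin k → ℝ) |
            p.1 ∈ {x : Fin k → ℝ | ∀ j, j ≠ i → ∑ l, a' j l * x l < ∑ l, a' i l * x l} ∧
            ρ • p.1 + Real.sqrt (1 - ρ ^ 2) • p.2 ∈
              {x : Fin k → ℝ | ∀ j, j ≠ i → ∑ l, a' j l * x l < ∑ l, a' i l * x l}} := by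
  have hsum : ∀ l, ∑ i, a i l = 0 := by
    have h2 : ∑ l, (∑ i, a i l) ^ 2 = 0 := by
      have e : ∀ l, (∑ i, a i l) ^ 2 = ∑ i, ∑ j, a i l * a j l := fun l => by
        rw [sq, Finset.sum_mul_sum]
      simp_rw [e]
      rw [Finset.sum_comm]
      have e2 : ∀ i, ∑ l, ∑ j, a i l * a j l = 0 := by
        intro i
        rw [Finset.sum_comm, ← Finset.add_sum_erase _ _ (Finset.mem_univ i), ha i]
        rw [Finset.sum_congr rfl fun j hj => hab i j (Finset.ne_of_mem_erase hj).symm]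
        rw [Finset.sum_const, Finset.card_erase_of_mem (Finset.mem_univ i), Finset.card_univ,
          Fintype.card_fin, nsmul_eq_mul]
        have hk' : (k : ℝ) ≠ 0 := by
          have : k ≠ 0 := by omega
          exact_mod_cast this
        have e3 : ((k + 1 : ℕ) : ℝ) - 1 = k := by push_cast; ring
        rw [e3, Nat.add_sub_cancel]
        field_simp
        ring
      exact Finset.sum_eq_zero fun i _ => e2 i
    intro l
    have := (Finset.sum_eq_zero_iff_of_nonneg (fun l _ => sq_nonneg (∑ i, a i l))).mp h2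
      l (Finset.mem_univ l)
    exact pow_eq_zero_iff (two_ne_zero) |>.mp this
  obtain ⟨Q, hQ, hQ2⟩ := exists_rot_k k m a hsum
  have hQT : Q.transpose * Q = 1 := by
    have := (Matrix.mem_orthogonalGroup_iff' (Fin (k + m)) ℝ).mp hQ
    simpa [Matrix.star_eq_conjTranspose, Matrix.conjTranspose_eq_transpose_of_trivial] using this
  have hQT' : Q * Q.transpose = 1 := by
    have := (Matrix.mem_orthogonalGroup_iff (Fin (k + m)) ℝ).mp hQ
    simpa [Matrix.star_eq_conjTranspose, Matrix.conjTranspose_eq_transpose_of_trivial] using this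
  have hdot : ∀ x y : Fin (k + m) → ℝ, ∑ l, Q.mulVec x l * Q.mulVec y l = ∑ l, x l * y l := by
    intro x y
    have h : Q.mulVec x ⬝ᵥ Q.mulVec y = x ⬝ᵥ y := by
      rw [Matrix.dotProduct_mulVec, Matrix.vecMul_mulVec, hQT, Matrix.vecMul_one]
    simpa [dotProduct] using h
  have hQtm : Q.transpose ∈ Matrix.orthogonalGroup (Fin (k + m)) ℝ := by
    rw [Matrix.mem_orthogonalGroup_iff]
    simpa [Matrix.star_eq_conjTranspose, Matrix.conjTranspose_eq_transpose_of_trivial] using hQT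
  set a' : Fin (k + 1) → Fin k → ℝ := fun i l => Q.mulVec (a i) (Fin.castAdd m l) with ha'
  have hsplit : ∀ (i : Fin (k + 1)) (x : Fin (k + m) → ℝ),
      ∑ l, Q.mulVec (a i) l * x l = ∑ l, a' i l * x (Fin.castAdd m l) := by
    intro i x
    rw [Fin.sum_univ_add]
    have : ∀ j : Fin m, Q.mulVec (a i) (Fin.natAdd k j) = 0 := fun j =>
      hQ2 i j
    simp [this, ha']
  have key : ∀ (i : Fin (k + 1)) (x : Fin (k + m) → ℝ),
      ∑ l, a i l * Q.transpose.mulVec x l = ∑ l, a' i l * x (Fin.castAdd m l) := by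
    intro i x
    rw [← hdot (a i)]
    have : Q.mulVec (Q.transpose.mulVec x) = x := by
      simp only [Matrix.mulVec_mulVec, hQT', Matrix.one_mulVec]
    rw [this, hsplit i]
  refine ⟨a', ?_, ?_, ?_⟩
  · intro i
    rw [← ha i, ← hdot (a i) (a i), hsplit i]
  · intro i j hij
    rw [← hab i j hij, ← hdot (a i) (a j), hsplit i]
  · intro i
    have e1 := stab_rot (k + m) ρ Q.transpose hQtm _ (ds_cell_meas k (k + m) a i)
    refine e1.trans ?_
    have hg : IsProbabilityMeasure (gam (k + m)) := gam_prob (k + m)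
    have hg2 : IsProbabilityMeasure (gam k) := gam_prob k
    have h2 := (ds_proj k m).prod (ds_proj k m)
    have hC := ds_cell_meas k k a' i
    have hS : MeasurableSet {p : (Fin k → ℝ) × (Fin k → ℝ) |
            p.1 ∈ {x : Fin k → ℝ | ∀ j, j ≠ i → ∑ l, a' j l * x l < ∑ l, a' i l * x l} ∧
            ρ • p.1 + Real.sqrt (1 - ρ ^ 2) • p.2 ∈
              {x : Fin k → ℝ | ∀ j, j ≠ i → ∑ l, a' j l * x l < ∑ l, a' i l * x l}} := by
      refine MeasurableSet.inter (measurable_fst hC) ?_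
      have : Measurable (fun p : (Fin k → ℝ) × (Fin k → ℝ) =>
        ρ • p.1 + Real.sqrt (1 - ρ ^ 2) • p.2) := by fun_prop
      exact this hC
    rw [← h2.measure_preimage hS.nullMeasurableSet]
    change ((gam (k + m)).prod (gam (k + m))) _ = _
    congr 1
    ext ⟨x, y⟩
    simp only [mem_ofPred_eq, mem_preimage, Prod.map_apply]
    simp only [key]
    rfl

end Pool.Agent.SSQ
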