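import Pool.Agent.SSQ.DDefs

set_option autoImplicit false
open MeasureTheory ProbabilityTheory Set Real
open scoped ENNReal

namespace Pool.Agent.SSQ
open Pool.Agent.SSC3N (gam GG TT gam_prob)

/-- [DX] `k + 1` vectors of `ℝ^(k+m)` with sum zero can be rotated into the first `k` coordinates.
PROOF.  In `E = EuclideanSpace ℝ (Fin (k+m))` let `V` be the span of the vectors `b i`; since `∑ b i = 0` it is the
span of `k` of them, so `finrank V ≤ k` (`finrank_range_le_card` / `finrank_span_le_card`), and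
`finrank Vᗮ ≥ m` (`Submodule.finrank_add_finrank_orthogonal`).  Choose `m` orthonormal vectors `v_j` in `Vᗮ`
(`stdOrthonormalBasis ℝ Vᗮ`).  The family `w : Fin (k+m) → E`, `w (natAdd k j) = v_j`, is orthonormal on the set
`range (natAdd k)`; `Orthonormal.exists_orthonormalBasis_extension_of_card_eq` gives an orthonormal basis `e` with
`e (natAdd k j) = v_j`.  `Q l l' = e l l'` (rows = the basis vectors) is orthogonal and
`(Q b_i)_(natAdd k j) = ⟪v_j, b_i⟫ = 0`.  (Compare `Pool/Agent/SSC3N/ExistsRot.lean`, the case of two vectors.) -/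
theorem exists_rot_k (k m : ℕ) (b : Fin (k + 1) → Fin (k + m) → ℝ) (hb : ∀ l, ∑ i, b i l = 0) :
    ∃ Q ∈ Matrix.orthogonalGroup (Fin (k + m)) ℝ, ∀ (i : Fin (k + 1)) (j : Fin m),
      Q.mulVec (b i) (Fin.natAdd k j) = 0 := by
  classical
  let b' : Fin (k + 1) → EuclideanSpace ℝ (Fin (k + m)) := fun i => WithLp.toLp 2 (b i)
  have hb' : ∑ i, b' i = 0 := by
    ext l
    simp only [b', WithLp.ofLp_sum, Finset.sum_apply, WithLp.ofLp_zero, Pi.zero_apply]
    exact hb l
  let W : Submodule ℝ (EuclideanSpace ℝ (Fin (k + m))) :=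
    Submodule.span ℝ (Set.range fun i : Fin k => b' i.castSucc)
  have hW : ∀ i, b' i ∈ W := by
    intro i
    refine Fin.lastCases ?_ (fun j => ?_) i
    · rw [Fin.sum_univ_castSucc] at hb'
      have h1 : b' (Fin.last k) = - ∑ i : Fin k, b' i.castSucc :=
        (neg_eq_of_add_eq_zero_right hb').symm
      rw [h1]
      exact W.neg_mem (W.sum_mem fun j _ => Submodule.subset_span ⟨j, rfl⟩)
    · exact Submodule.subset_span ⟨j, rfl⟩
  have hd : Module.finrank ℝ W ≤ k := by
    have h1 := finrank_range_le_card (R := ℝ) (fun i : Fin k => b' i.castSucc)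
    rw [Fintype.card_fin] at h1
    exact h1
  have hn : k ≤ k + m := Nat.le_add_right k m
  set d := Module.finrank ℝ W with hddef
  let u : OrthonormalBasis (Fin d) ℝ W := stdOrthonormalBasis ℝ W
  let v : Fin (k + m) → EuclideanSpace ℝ (Fin (k + m)) := fun l =>
    if h : (l : ℕ) < d then (u ⟨l, h⟩ : EuclideanSpace ℝ (Fin (k + m))) else 0
  let s : Set (Fin (k + m)) := {l | (l : ℕ) < d}
  have hv : Orthonormal ℝ (s.domRestrict v) := by
    have h1 : Orthonormal ℝ (fun l : Fin d => (u l : EuclideanSpace ℝ (Fin (k + m)))) := by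
      have := u.orthonormal
      exact this.comp_linearIsometry W.subtypeₗᵢ
    have h2 : s.domRestrict v = (fun l : Fin d => (u l : EuclideanSpace ℝ (Fin (k + m)))) ∘
        (fun l : s => (⟨(l : Fin (k + m)), l.2⟩ : Fin d)) := by
      funext l
      have hk : ((l : Fin (k + m)) : ℕ) < d := l.2
      show (if h : ((l : Fin (k + m)) : ℕ) < d then
        (u ⟨l, h⟩ : EuclideanSpace ℝ (Fin (k + m))) else 0) = _
      rw [dif_pos hk]
      rfl
    rw [h2]
    refine h1.comp _ ?_
    intro x y hxy
    have : ((x : Fin (k + m)) : ℕ) = ((y : Fin (k + m)) : ℕ) := by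
      simpa using congrArg Fin.val hxy
    exact Subtype.ext (Fin.ext this)
  obtain ⟨B, hB⟩ := hv.exists_orthonormalBasis_extension_of_card_eq
    (by simp : Module.finrank ℝ (EuclideanSpace ℝ (Fin (k + m))) = Fintype.card (Fin (k + m)))
  have hperp : ∀ l : Fin (k + m), k ≤ (l : ℕ) → ∀ w ∈ W, inner ℝ (B l) w = 0 := by
    intro l hk w hw
    have hdn : ∀ i : Fin d, (i : ℕ) < k + m := fun i => lt_of_lt_of_le i.2 (hd.trans hn)
    have h1 : ∀ i : Fin d, inner ℝ (B l) (u i : EuclideanSpace ℝ (Fin (k + m))) = 0 := by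
      intro i
      have h2 : B ⟨i, hdn i⟩ = (u i : EuclideanSpace ℝ (Fin (k + m))) := by
        rw [hB ⟨i, hdn i⟩ (show ((⟨i, hdn i⟩ : Fin (k + m)) : ℕ) < d from i.2)]
        simp [v, i.2]
      rw [← h2]
      apply B.orthonormal.2
      intro h3
      have h4 := congrArg Fin.val h3
      simp at h4
      have hi := i.2
      omega
    have h3 : w = ∑ i, (u.repr ⟨w, hw⟩ i) • (u i : EuclideanSpace ℝ (Fin (k + m))) := by
      have := u.sum_repr ⟨w, hw⟩
      have h4 := congrArg (fun x : W => (x : EuclideanSpace ℝ (Fin (k + m)))) this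
      simpa using h4.symm
    rw [h3, inner_sum]
    refine Finset.sum_eq_zero fun i _ => ?_
    rw [inner_smul_right, h1 i, mul_zero]
  refine ⟨Matrix.of fun i j => B i j, ?_, ?_⟩
  · rw [Matrix.mem_orthogonalGroup_iff]
    ext i j
    have h1 := B.orthonormal
    rw [orthonormal_iff_ite] at h1
    have h2 := h1 j i
    rw [Matrix.mul_apply, Matrix.one_apply]
    rw [PiLp.inner_apply] at h2
    simp only [RCLike.inner_apply, conj_trivial] at h2
    have h3 : ∀ l, (Matrix.of fun i j => (B i).ofLp j : Matrix (Fin (k + m)) (Fin (k + m)) ℝ) i l *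
        (Matrix.of fun i j => (B i).ofLp j :
          Matrix (Fin (k + m)) (Fin (k + m)) ℝ).transpose l j =
        (B i).ofLp l * (B j).ofLp l := by
      intro l
      simp [Matrix.transpose_apply]
    refine (Finset.sum_congr rfl fun l _ => h3 l).trans ?_
    rw [h2]
    by_cases hij : i = j
    · simp [hij]
    · simp [hij, Ne.symm hij]
  · intro i j
    have h1 := hperp (Fin.natAdd k j) (by simp) (b' i) (hW i)
    rw [PiLp.inner_apply] at h1
    simp only [RCLike.inner_apply, conj_trivial] at h1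
    simpa [Matrix.mulVec, dotProduct, b', mul_comm] using h1

end Pool.Agent.SSQ
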