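import Pool.Agent.SSC3N.Defs

/-!
Standard simplex conjecture for every number of parts and small correlations.
Common definitions.  (`gam n` is the standard Gaussian measure on `Fin n → ℝ`; `GG`, `TT` are the noise
pairing and the noise operator.)
-/

set_option autoImplicit false
open MeasureTheory ProbabilityTheory Set Real

namespace Pool.Agent.SSQ
open Pool.Agent.SSC3N (gam GG TT)

/-! ### jets -/

/-- `(½ D:∇² + v·∇)² u` in terms of the second, third and fourth derivatives of `u`. -/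
noncomputable def quad {k : ℕ} (h : Fin k → Fin k → ℝ) (t : Fin k → Fin k → Fin k → ℝ)
    (u : Fin k → Fin k → Fin k → Fin k → ℝ) (D : Fin k → Fin k → ℝ) (v : Fin k → ℝ) : ℝ :=
  1 / 4 * ∑ i, ∑ j, ∑ l, ∑ m, D i j * D l m * u i j l m
    + ∑ i, ∑ j, ∑ l, D i j * v l * t i j l + ∑ i, ∑ j, v i * v j * h i j

/-- `H, T, U` are the second, third and fourth derivatives of a strictly convex function with bounded
derivatives whose Hessian is log-concave in the sense of Nakano (`nak`). -/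
structure IsJet {k : ℕ} (H : (Fin k → ℝ) → Fin k → Fin k → ℝ)
    (T : (Fin k → ℝ) → Fin k → Fin k → Fin k → ℝ)
    (U : (Fin k → ℝ) → Fin k → Fin k → Fin k → Fin k → ℝ) : Prop where
  H_symm : ∀ x i j, H x i j = H x j i
  T12 : ∀ x i j l, T x i j l = T x j i l
  T23 : ∀ x i j l, T x i j l = T x i l j
  U12 : ∀ x i j l m, U x i j l m = U x j i l m
  U23 : ∀ x i j l m, U x i j l m = U x i l j m
  U34 : ∀ x i j l m, U x i j l m = U x i j m l
  bdd : ∃ M : ℝ, (∀ x i j, |H x i j| ≤ M) ∧ (∀ x i j l, |T x i j l| ≤ M) ∧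
    (∀ x i j l m, |U x i j l m| ≤ M)
  H_cont : ∀ i j, Continuous (fun x => H x i j)
  T_cont : ∀ i j l, Continuous (fun x => T x i j l)
  U_cont : ∀ i j l m, Continuous (fun x => U x i j l m)
  H_deriv : ∀ (x c : Fin k → ℝ) i j (t : ℝ),
    HasDerivAt (fun s : ℝ => H (x + s • c) i j) (∑ l, c l * T (x + t • c) i j l) t
  T_deriv : ∀ (x c : Fin k → ℝ) i j l (t : ℝ),
    HasDerivAt (fun s : ℝ => T (x + s • c) i j l) (∑ m, c m * U (x + t • c) i j l m) t
  pos : ∀ x (y : Fin k → ℝ), y ≠ 0 → 0 < ∑ i, ∑ j, y i * y j * H x i j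
  nak : ∀ x (D : Fin k → Fin k → ℝ), (∀ i j, D i j = D j i) → ∃ v, quad (H x) (T x) (U x) D v ≤ 0

/-- Gaussian average in one direction. -/
noncomputable def av1 {k : ℕ} (c : Fin k → ℝ) (F : (Fin k → ℝ) → ℝ) (x : Fin k → ℝ) : ℝ :=
  ∫ u : ℝ, F (x + u • c) ∂(gaussianReal 0 1)

/-- Gaussian average with the columns `C a`. -/
noncomputable def avn {k n : ℕ} (C : Fin n → Fin k → ℝ) (F : (Fin k → ℝ) → ℝ) (x : Fin k → ℝ) : ℝ :=
  ∫ z, F (x + ∑ a, z a • C a) ∂(gam n)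

/-! ### log-sum-exp -/

noncomputable def Zs {k : ℕ} (x : Fin k → ℝ) : ℝ := 1 + ∑ i, Real.exp (x i)

/-- softmax weights (the weight of the missing index is `1 / Zs x`). -/
noncomputable def wS {k : ℕ} (x : Fin k → ℝ) (i : Fin k) : ℝ := Real.exp (x i) / Zs x

/-- `log (1 + ∑ e^{x_i})`. -/
noncomputable def phi {k : ℕ} (x : Fin k → ℝ) : ℝ := Real.log (Zs x)

noncomputable def SH {k : ℕ} (x : Fin k → ℝ) (i j : Fin k) : ℝ :=
  (if i = j then wS x i else 0) - wS x i * wS x j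

noncomputable def ST {k : ℕ} (x : Fin k → ℝ) (i j l : Fin k) : ℝ :=
  (if i = j then SH x i l else 0) - SH x i l * wS x j - wS x i * SH x j l

noncomputable def SU {k : ℕ} (x : Fin k → ℝ) (i j l m : Fin k) : ℝ :=
  (if i = j then ST x i l m else 0) - ST x i l m * wS x j - SH x i l * SH x j m
    - SH x i m * SH x j l - wS x i * ST x j l m

/-! ### interpolation of covariances -/

/-- `λ + √(1-s) C₀ z + √s C₁ z'`. -/
noncomputable def pt {k n0 n1 : ℕ} (C0 : Fin n0 → Fin k → ℝ) (C1 : Fin n1 → Fin k → ℝ) (s : ℝ)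
    (lam : Fin k → ℝ) (z : Fin n0 → ℝ) (z' : Fin n1 → ℝ) : Fin k → ℝ :=
  lam + Real.sqrt (1 - s) • (∑ a, z a • C0 a) + Real.sqrt s • (∑ a, z' a • C1 a)

noncomputable def Gm {k n0 n1 : ℕ} (C0 : Fin n0 → Fin k → ℝ) (C1 : Fin n1 → Fin k → ℝ)
    (f : (Fin k → ℝ) → ℝ) (s : ℝ) (lam : Fin k → ℝ) : ℝ :=
  ∫ z, ∫ z', f (pt C0 C1 s lam z z') ∂(gam n1) ∂(gam n0)

/-- difference of the covariances. -/
noncomputable def Dm {k n0 n1 : ℕ} (C0 : Fin n0 → Fin k → ℝ) (C1 : Fin n1 → Fin k → ℝ)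
    (i j : Fin k) : ℝ :=
  ∑ a, C1 a i * C1 a j - ∑ a, C0 a i * C0 a j

/-- maximum of the coordinates (`q = k + 1` of them). -/
noncomputable def mx {k : ℕ} (x : Fin (k + 1) → ℝ) : ℝ := Finset.univ.sup' Finset.univ_nonempty x

end Pool.Agent.SSQ
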