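import Pool.Agent.SSQ.DDefs

set_option autoImplicit false
open MeasureTheory ProbabilityTheory Set Real

namespace Pool.Agent.SSQ
open Pool.Agent.SSC3N (gam GG TT gam_prob cubq cubi)

/-- Mehler kernel, `-1 < ρ < 1`. -/
noncomputable def MK {n : ℕ} (ρ : ℝ) (x y : Fin n → ℝ) : ℝ :=
  ((Real.sqrt (1 - ρ ^ 2))⁻¹) ^ n *
    Real.exp (-(ρ ^ 2 * (cubq x + cubq y) - 2 * ρ * cubi x y) / (2 * (1 - ρ ^ 2)))

open Pool.Agent.SSC3N (cubk cubk_nonneg cubk_measurable cubk_prod) in
private theorem e1_prod {n : ℕ} (ρ : ℝ) (h0 : -1 < ρ) (h1 : ρ < 1) (x y : Fin n → ℝ) :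
    MK ρ x y = ∏ j, cubk ρ (x j) (y j) := by
  have hv : 0 < 1 - ρ ^ 2 := by nlinarith
  rw [cubk_prod, MK, ← Real.exp_add, ← Real.exp_add]
  congr 2
  field_simp
  ring

open Pool.Agent.SSC3N (cubk cubk_nonneg cubk_measurable cubk_prod) in
private theorem e1_map1 (s a : ℝ) (h0 : -1 < s) (h1 : s < 1) :
    (gaussianReal 0 1).map (fun z => s * a + Real.sqrt (1 - s ^ 2) * z) =
      (gaussianReal 0 1).withDensity (fun w => ENNReal.ofReal (cubk s a w)) := by
  have hv : 0 < 1 - s ^ 2 := by nlinarith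
  set v : NNReal := ⟨1 - s ^ 2, hv.le⟩ with hvdef
  have hvr : (v : ℝ) = 1 - s ^ 2 := rfl
  have hv0 : v ≠ 0 := by
    intro h
    rw [h, NNReal.coe_zero] at hvr
    linarith
  have e1 : (gaussianReal 0 1).map (fun z => s * a + Real.sqrt (1 - s ^ 2) * z) =
      gaussianReal (s * a) v := by
    have : (fun z : ℝ => s * a + Real.sqrt (1 - s ^ 2) * z) =
        (fun x => s * a + x) ∘ (fun z => Real.sqrt (1 - s ^ 2) * z) := rfl
    rw [this, ← Measure.map_map (by fun_prop) (by fun_prop), gaussianReal_map_const_mul,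
      gaussianReal_map_const_add]
    congr 1
    · simp
    · apply NNReal.coe_injective
      rw [hvr]
      simp [Real.sq_sqrt hv.le]
  rw [e1, gaussianReal_of_var_ne_zero _ hv0, gaussianReal_of_var_ne_zero _ one_ne_zero,
    ← withDensity_mul _ (measurable_gaussianPDF _ _) (cubk_measurable s a).ennreal_ofReal]
  congr 1
  ext w
  simp only [Pi.mul_apply, gaussianPDF]
  rw [← ENNReal.ofReal_mul (gaussianPDFReal_nonneg _ _ _)]
  congr 1
  unfold gaussianPDFReal cubk
  rw [hvr]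
  have e2 : Real.sqrt (2 * π * (1 - s ^ 2)) = Real.sqrt (2 * π * ((1 : NNReal) : ℝ)) *
      Real.sqrt (1 - s ^ 2) := by
    rw [← Real.sqrt_mul (by positivity)]
    simp
  rw [e2, mul_inv]
  have e3 : Real.exp (-(w - s * a) ^ 2 / (2 * (1 - s ^ 2))) =
      Real.exp (-(w - 0) ^ 2 / (2 * ((1 : NNReal) : ℝ))) *
      Real.exp (-(s ^ 2 / (2 * (1 - s ^ 2)) * (a ^ 2 + w ^ 2)) + s / (1 - s ^ 2) * (a * w)) := by
    rw [← Real.exp_add]
    congr 1
    have hne : (1 - s ^ 2) ≠ 0 := hv.ne'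
    simp only [NNReal.coe_one]
    field_simp
    ring
  rw [e3]
  ring

open Pool.Agent.SSC3N (cubk cubk_nonneg cubk_measurable cubk_prod) in
private theorem e1_int (s a : ℝ) (h0 : -1 < s) (h1 : s < 1) :
    Integrable (cubk s a) (gaussianReal 0 1) := by
  have h := e1_map1 s a h0 h1
  have hp : IsProbabilityMeasure ((gaussianReal 0 1).map
      (fun z => s * a + Real.sqrt (1 - s ^ 2) * z)) :=
    Measure.isProbabilityMeasure_map (by fun_prop)
  rw [h] at hp
  refine ⟨(cubk_measurable s a).aestronglyMeasurable, ?_⟩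
  rw [hasFiniteIntegral_iff_ofReal (Filter.Eventually.of_forall (cubk_nonneg s a))]
  have := hp.measure_univ
  rw [withDensity_apply _ MeasurableSet.univ, Measure.restrict_univ] at this
  rw [this]
  exact ENNReal.one_lt_top

open Pool.Agent.SSC3N (cubk cubk_nonneg cubk_measurable cubk_prod) in
private theorem e1_mapm {m : ℕ} (s : ℝ) (y : Fin m → ℝ) (h0 : -1 < s) (h1 : s < 1) :
    (gam m).map (fun z => s • y + Real.sqrt (1 - s ^ 2) • z) =
      (gam m).withDensity (fun w => ENNReal.ofReal (∏ j, cubk s (y j) (w j))) := by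
  have e1 : (gam m).map (fun z => s • y + Real.sqrt (1 - s ^ 2) • z) =
      Measure.pi (fun j => (gaussianReal 0 1).map
        (fun z => s * y j + Real.sqrt (1 - s ^ 2) * z)) := by
    have := Measure.pi_map_pi (μ := fun _ : Fin m => gaussianReal 0 1)
      (f := fun j z => s * y j + Real.sqrt (1 - s ^ 2) * z)
      (hμ := fun j => by
        have : IsProbabilityMeasure ((gaussianReal 0 1).map
          (fun z => s * y j + Real.sqrt (1 - s ^ 2) * z)) :=
            Measure.isProbabilityMeasure_map (by fun_prop)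
        infer_instance)
      (fun j => by fun_prop)
    rw [← this]
    unfold gam
    congr 1
  rw [e1]
  have hint : ∀ j, Integrable (cubk s (y j)) (gaussianReal 0 1) := fun j =>
    e1_int s (y j) h0 h1
  have hprob : ∀ j, IsProbabilityMeasure ((gaussianReal 0 1).map
      (fun z => s * y j + Real.sqrt (1 - s ^ 2) * z)) := fun j =>
    Measure.isProbabilityMeasure_map (by fun_prop)
  apply Measure.pi_eq
  intro S hS
  have e2 : ∀ j, (gaussianReal 0 1).map (fun z => s * y j + Real.sqrt (1 - s ^ 2) * z) (S j) =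
      ENNReal.ofReal (∫ w, (S j).indicator (cubk s (y j)) w ∂(gaussianReal 0 1)) := by
    intro j
    rw [e1_map1 s (y j) h0 h1, withDensity_apply _ (hS j), integral_indicator (hS j),
      ofReal_integral_eq_lintegral_ofReal (hint j).integrableOn
        (Filter.Eventually.of_forall (cubk_nonneg s (y j)))]
  have hnn : ∀ j w, 0 ≤ (S j).indicator (cubk s (y j)) w := fun j w =>
    Set.indicator_nonneg (fun w _ => cubk_nonneg s (y j) w) w
  rw [Finset.prod_congr rfl (fun j _ => e2 j), ← ENNReal.ofReal_prod_of_nonneg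
    (fun j _ => integral_nonneg (hnn j)),
    ← integral_fintype_prod_eq_prod (μ := fun _ : Fin m => gaussianReal 0 1)
      (f := fun j w => (S j).indicator (cubk s (y j)) w)]
  rw [withDensity_apply _ (MeasurableSet.univ_pi hS), ← lintegral_indicator
    (MeasurableSet.univ_pi hS), ofReal_integral_eq_lintegral_ofReal]
  · unfold gam
    congr 1
    ext w
    by_cases hw : w ∈ Set.univ.pi S
    · rw [Set.indicator_of_mem hw]
      congr 1
      apply Finset.prod_congr rfl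
      intro j _
      rw [Set.indicator_of_mem (hw j (Set.mem_univ j))]
    · rw [Set.indicator_of_notMem hw]
      have : ∃ j, w j ∉ S j := by
        by_contra hcon
        push Not at hcon
        exact hw (fun j _ => hcon j)
      obtain ⟨j, hj⟩ := this
      rw [Finset.prod_eq_zero (Finset.mem_univ j) (Set.indicator_of_notMem hj _)]
      simp
  · exact Integrable.fintype_prod (fun j => (hint j).indicator (hS j))
  · exact Filter.Eventually.of_forall (fun w => Finset.prod_nonneg (fun j _ => hnn j _))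

private theorem e1_MK_int {n : ℕ} (ρ : ℝ) (h0 : -1 < ρ) (h1 : ρ < 1) (x : Fin n → ℝ) :
    Integrable (MK ρ x) (gam n) := by
  have e : MK ρ x = fun y => ∏ j, Pool.Agent.SSC3N.cubk ρ (x j) (y j) := by
    funext y
    exact e1_prod ρ h0 h1 x y
  rw [e]
  exact Integrable.fintype_prod (fun j => e1_int ρ (x j) h0 h1)

/-- [E1a] elementary: symmetry, positivity, continuity. -/
theorem MK_basic {n : ℕ} (ρ : ℝ) (h0 : -1 < ρ) (h1 : ρ < 1) : (∀ x y : Fin n → ℝ, MK ρ x y = MK ρ y x) ∧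
    (∀ x y : Fin n → ℝ, 0 < MK ρ x y) ∧
    Continuous (fun p : (Fin n → ℝ) × (Fin n → ℝ) => MK ρ p.1 p.2) := by
  have hv : 0 < 1 - ρ ^ 2 := by nlinarith
  refine ⟨fun x y => ?_, fun x y => ?_, ?_⟩
  · unfold MK
    have e : cubi x y = cubi y x := by
      unfold cubi
      exact Finset.sum_congr rfl fun j _ => mul_comm _ _
    rw [e, add_comm (cubq x)]
  · unfold MK
    have : 0 < Real.sqrt (1 - ρ ^ 2) := Real.sqrt_pos.2 hv
    positivity
  · unfold MK cubq cubi
    fun_prop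

/-- [E1b] KERNEL REPRESENTATION.  For `0 ≤ ρ < 1` this is `cub_TT_eq` (`Pool/Agent/SSC3N/Cubic.lean`) after combining
the exponentials.  For `ρ = -s < 0`: `TT (-s) g x = ∫ g(-s x + √(1-s²) z) = ∫ g(-(s x + √(1-s²) z))`
(`cub_neg_mp`: `z → -z`) `= TT s (g ∘ neg) x = ∫ MK s x y g(-y) = ∫ MK s x (-y) g(y)` and `MK s x (-y) = MK (-s) x y`.
Integrability: `g` bounded and `MK ρ x` integrable (take `g = 1` in `cub_mapm`/`withDensity` form, or bound
`MK ρ x y ≤ C_x exp(cubq y / 4 ...)`; for `|ρ| < 1`: `-ρ²Y/(2(1-ρ²)) + |ρ| |I|/(1-ρ²)`, `|I| ≤ √X√Y`, is bounded above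
for fixed `x` when `ρ ≠ 0`). -/
theorem TT_kernel {n : ℕ} (ρ : ℝ) (h0 : -1 < ρ) (h1 : ρ < 1) (g : (Fin n → ℝ) → ℝ)
    (hg : Measurable g) (M : ℝ) (hM : ∀ y, |g y| ≤ M) (x : Fin n → ℝ) :
    Integrable (fun y => MK ρ x y * g y) (gam n) ∧ TT ρ g x = ∫ y, MK ρ x y * g y ∂(gam n) := by
  have hK := e1_MK_int ρ h0 h1 x
  refine ⟨?_, ?_⟩
  · exact hK.mul_bdd hg.aestronglyMeasurable
      (Filter.Eventually.of_forall fun y => by rw [Real.norm_eq_abs]; exact hM y)
  · unfold TT
    have hmeas : Measurable (fun z : Fin n → ℝ => ρ • x + Real.sqrt (1 - ρ ^ 2) • z) := by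
      fun_prop
    have e1 : ∫ z, g (ρ • x + Real.sqrt (1 - ρ ^ 2) • z) ∂(gam n) =
        ∫ w, g w ∂((gam n).map (fun z => ρ • x + Real.sqrt (1 - ρ ^ 2) • z)) := by
      rw [integral_map hmeas.aemeasurable hg.aestronglyMeasurable]
    rw [e1, e1_mapm ρ x h0 h1, integral_withDensity_eq_integral_toReal_smul]
    · congr 1
      ext w
      rw [ENNReal.toReal_ofReal (Finset.prod_nonneg
        (fun j _ => Pool.Agent.SSC3N.cubk_nonneg _ _ _)), smul_eq_mul, e1_prod ρ h0 h1]
    · apply Measurable.ennreal_ofReal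
      apply Finset.measurable_prod
      intro j _
      exact (Pool.Agent.SSC3N.cubk_measurable ρ (x j)).comp (measurable_pi_apply j)
    · exact Filter.Eventually.of_forall (fun w => ENNReal.ofReal_lt_top)

private theorem e1_GG_eq {n : ℕ} (ρ : ℝ) (g h : (Fin n → ℝ) → ℝ) :
    GG ρ g h = ∫ x, g x * TT ρ h x ∂(gam n) := by
  unfold GG TT
  congr 1
  funext x
  rw [integral_const_mul]

private theorem e1_prod_int {n : ℕ} (ρ : ℝ) (h0 : -1 < ρ) (h1 : ρ < 1) :
    Integrable (fun p : (Fin n → ℝ) × (Fin n → ℝ) => MK ρ p.1 p.2) ((gam n).prod (gam n)) := by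
  have := gam_prob n
  have hc := (MK_basic (n := n) ρ h0 h1).2.2
  have hpos := (MK_basic (n := n) ρ h0 h1).2.1
  rw [integrable_prod_iff hc.measurable.aestronglyMeasurable]
  refine ⟨Filter.Eventually.of_forall fun x => e1_MK_int ρ h0 h1 x, ?_⟩
  have e : (fun x : Fin n → ℝ => ∫ y, ‖MK ρ x y‖ ∂(gam n)) = fun _ => (1 : ℝ) := by
    funext x
    have h2 := (TT_kernel ρ h0 h1 (fun _ => (1 : ℝ)) measurable_const 1 (by simp) x).2
    have h3 : TT ρ (fun _ => (1 : ℝ)) x = 1 := by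
      unfold TT
      simp
    rw [h3] at h2
    rw [h2]
    congr 1
    funext y
    rw [Real.norm_eq_abs, abs_of_pos (hpos x y), mul_one]
  show Integrable (fun x : Fin n → ℝ => ∫ y, ‖MK ρ x y‖ ∂(gam n)) (gam n)
  rw [e]
  exact integrable_const _

private theorem e1_F_int {n : ℕ} (ρ : ℝ) (h0 : -1 < ρ) (h1 : ρ < 1) (g h : (Fin n → ℝ) → ℝ)
    (hg : Measurable g) (hh : Measurable h) (M : ℝ) (hgM : ∀ y, |g y| ≤ M) (hhM : ∀ y, |h y| ≤ M) :
    Integrable (fun p : (Fin n → ℝ) × (Fin n → ℝ) => MK ρ p.1 p.2 * (g p.1 * h p.2))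
      ((gam n).prod (gam n)) := by
  have := gam_prob n
  refine (e1_prod_int ρ h0 h1).mul_bdd (c := M * M)
    ((hg.comp measurable_fst).mul (hh.comp measurable_snd)).aestronglyMeasurable
      (Filter.Eventually.of_forall fun p => ?_)
  rw [Real.norm_eq_abs, abs_mul]
  exact mul_le_mul (hgM _) (hhM _) (abs_nonneg _) ((abs_nonneg _).trans (hgM p.1))

private theorem e1_GG_prod {n : ℕ} (ρ : ℝ) (h0 : -1 < ρ) (h1 : ρ < 1) (g h : (Fin n → ℝ) → ℝ)
    (hg : Measurable g) (hh : Measurable h) (M : ℝ) (hgM : ∀ y, |g y| ≤ M) (hhM : ∀ y, |h y| ≤ M) :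
    GG ρ g h = ∫ p, MK ρ p.1 p.2 * (g p.1 * h p.2) ∂((gam n).prod (gam n)) := by
  have := gam_prob n
  rw [e1_GG_eq, integral_prod _ (e1_F_int ρ h0 h1 g h hg hh M hgM hhM)]
  congr 1
  funext x
  rw [(TT_kernel ρ h0 h1 h hh M hhM x).2, ← integral_const_mul]
  congr 1
  funext y
  ring

/-- [E1c] symmetry of the noise form (`TT_kernel`, `MK_basic`, Fubini; the function `MK ρ x y` is integrable for the
product measure: its integral in `y` is `TT ρ 1 x = 1`), and bilinearity for bounded measurable functions. -/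
theorem GG_symm {n : ℕ} (ρ : ℝ) (h0 : -1 < ρ) (h1 : ρ < 1) (g h : (Fin n → ℝ) → ℝ)
    (hg : Measurable g) (hh : Measurable h) (M : ℝ) (hgM : ∀ y, |g y| ≤ M) (hhM : ∀ y, |h y| ≤ M) :
    GG ρ g h = GG ρ h g ∧ GG ρ g h = ∫ x, g x * TT ρ h x ∂(gam n) ∧
    Integrable (fun p : (Fin n → ℝ) × (Fin n → ℝ) => MK ρ p.1 p.2 * (g p.1 * h p.2))
      ((gam n).prod (gam n)) ∧
    GG ρ g h = ∫ p, MK ρ p.1 p.2 * (g p.1 * h p.2) ∂((gam n).prod (gam n)) := by
  have := gam_prob n
  refine ⟨?_, e1_GG_eq ρ g h, e1_F_int ρ h0 h1 g h hg hh M hgM hhM,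
    e1_GG_prod ρ h0 h1 g h hg hh M hgM hhM⟩
  rw [e1_GG_prod ρ h0 h1 g h hg hh M hgM hhM, e1_GG_prod ρ h0 h1 h g hh hg M hhM hgM,
    ← integral_prod_swap]
  congr 1
  funext p
  simp only [Prod.fst_swap, Prod.snd_swap]
  rw [(MK_basic (n := n) ρ h0 h1).1 p.2 p.1]
  ring

end Pool.Agent.SSQ
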