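import Pool.Agent.SSQ.E1

set_option autoImplicit false
open MeasureTheory ProbabilityTheory Set Real

namespace Pool.Agent.SSQ
open Pool.Agent.SSC3N (gam GG TT gam_prob cubq cubi)

lemma e2_exp1 (x : ℝ) : |Real.exp x - 1| ≤ |x| * Real.exp |x| := by
  have h := Complex.norm_exp_sub_sum_le_norm_mul_exp (x : ℂ) 1
  simp only [Finset.range_one, Finset.sum_singleton, pow_zero, Nat.factorial_zero, Nat.cast_one,
    div_one, pow_one, Complex.norm_real, Real.norm_eq_abs] at h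
  have e : (Complex.exp (x : ℂ) - 1) = ((Real.exp x - 1 : ℝ) : ℂ) := by push_cast; ring
  rw [e, Complex.norm_real, Real.norm_eq_abs] at h
  exact h

lemma e2_exp2 (x : ℝ) : |Real.exp x - 1 - x| ≤ |x| ^ 2 * Real.exp |x| := by
  have h := Complex.norm_exp_sub_sum_le_norm_mul_exp (x : ℂ) 2
  simp only [Finset.sum_range_succ, Finset.range_zero, Finset.sum_empty, pow_zero,
    Nat.factorial_zero, Nat.cast_one, div_one, pow_one, Nat.factorial_one, zero_add,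
    Complex.norm_real, Real.norm_eq_abs] at h
  have e : (Complex.exp (x : ℂ) - (1 + (x : ℂ))) = ((Real.exp x - 1 - x : ℝ) : ℂ) := by
    push_cast; ring
  rw [e, Complex.norm_real, Real.norm_eq_abs] at h
  exact h

lemma e2_log (ρ : ℝ) (h : |ρ| ≤ 1 / 2) : 0 ≤ -Real.log (1 - ρ ^ 2) ∧
    -Real.log (1 - ρ ^ 2) ≤ 2 * ρ ^ 2 ∧ 3 / 4 ≤ 1 - ρ ^ 2 := by
  have h1 : ρ ^ 2 ≤ 1 / 4 := by
    rw [← sq_abs]
    nlinarith [abs_nonneg ρ]
  have ha : 3 / 4 ≤ 1 - ρ ^ 2 := by linarith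
  refine ⟨?_, ?_, ha⟩
  · have := Real.log_nonpos (by linarith : 0 ≤ 1 - ρ ^ 2) (by nlinarith [sq_nonneg ρ])
    linarith
  · have h2 := Real.one_sub_inv_le_log_of_pos (by linarith : 0 < 1 - ρ ^ 2)
    have h3 : (1 - ρ ^ 2)⁻¹ - 1 ≤ 2 * ρ ^ 2 := by
      rw [sub_le_iff_le_add, inv_le_comm₀ (by linarith) (by positivity)]
      rw [inv_le_comm₀ (by positivity) (by linarith)]
      rw [inv_le_iff_one_le_mul₀ (by linarith)]
      nlinarith [sq_nonneg ρ]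
    linarith

lemma e2_main (n : ℕ) (ρ X Y I : ℝ) (hρ : |ρ| ≤ 1 / 2) (hX : 0 ≤ X) (hY : 0 ≤ Y)
    (hI : |I| ≤ (X + Y) / 2) :
    |-(n / 2 : ℝ) * Real.log (1 - ρ ^ 2) + -(ρ ^ 2 * (X + Y) - 2 * ρ * I) / (2 * (1 - ρ ^ 2)) -
        ρ * I| ≤ (n + 1) * ρ ^ 2 * (1 + X + Y) := by
  obtain ⟨hl0, hl1, ha⟩ := e2_log ρ hρ
  set a := 1 - ρ ^ 2 with haa
  have hapos : 0 < a := by linarith
  set L := -Real.log a with hL
  have e : -(n / 2 : ℝ) * Real.log a + -(ρ ^ 2 * (X + Y) - 2 * ρ * I) / (2 * a) - ρ * I =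
      (n / 2 : ℝ) * L + (-(ρ ^ 2 * (X + Y) / (2 * a))) + ρ * I * (ρ ^ 2 / a) := by
    rw [hL]
    have : ρ ^ 2 = 1 - a := by rw [haa]; ring
    field_simp
    rw [this]
    ring
  rw [e]
  have hn : (0:ℝ) ≤ n := Nat.cast_nonneg n
  have t1 : |(n / 2 : ℝ) * L| ≤ n * ρ ^ 2 := by
    rw [abs_of_nonneg (by positivity)]
    nlinarith
  have t2 : |-(ρ ^ 2 * (X + Y) / (2 * a))| ≤ 2 / 3 * (ρ ^ 2 * (X + Y)) := by
    rw [abs_neg, abs_of_nonneg (by positivity), div_le_iff₀ (by positivity)]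
    have : 0 ≤ ρ ^ 2 * (X + Y) := by positivity
    nlinarith
  have t3 : |ρ * I * (ρ ^ 2 / a)| ≤ 1 / 3 * (ρ ^ 2 * (X + Y)) := by
    rw [abs_mul, abs_mul, abs_of_nonneg (by positivity : 0 ≤ ρ ^ 2 / a)]
    have h1 : |ρ| * |I| ≤ 1 / 2 * ((X + Y) / 2) := mul_le_mul hρ hI (abs_nonneg _) (by norm_num)
    have h2 : ρ ^ 2 / a ≤ 4 / 3 * ρ ^ 2 := by
      rw [div_le_iff₀ hapos]
      nlinarith [sq_nonneg ρ]
    calc |ρ| * |I| * (ρ ^ 2 / a) ≤ 1 / 2 * ((X + Y) / 2) * (4 / 3 * ρ ^ 2) :=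
          mul_le_mul h1 h2 (by positivity) (by positivity)
      _ = 1 / 3 * (ρ ^ 2 * (X + Y)) := by ring
  refine (abs_add_le _ _).trans ((add_le_add (abs_add_le _ _) le_rfl).trans ?_)
  have hnn : 0 ≤ (n:ℝ) * (ρ ^ 2 * (X + Y)) := by positivity
  nlinarith [sq_nonneg ρ]

lemma e2_MK (n : ℕ) (ρ : ℝ) (hρ : |ρ| ≤ 1 / 2) (x y : Fin n → ℝ) :
    MK ρ x y = Real.exp (-(n / 2 : ℝ) * Real.log (1 - ρ ^ 2) +
      -(ρ ^ 2 * (cubq x + cubq y) - 2 * ρ * cubi x y) / (2 * (1 - ρ ^ 2))) := by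
  obtain ⟨-, -, ha⟩ := e2_log ρ hρ
  have hapos : 0 < 1 - ρ ^ 2 := by linarith
  unfold MK
  rw [Real.exp_add]
  congr 1
  rw [Real.sqrt_eq_rpow, ← Real.rpow_neg hapos.le, ← Real.rpow_natCast, ← Real.rpow_mul hapos.le,
    Real.rpow_def_of_pos hapos]
  congr 1
  ring

lemma e2_Z (Z : ℝ) (hZ : 1 ≤ Z) : Z ^ 2 ≤ 8192 * Real.exp (Z / 64) ∧
    Z ≤ 8192 * Real.exp (Z / 64) := by
  have h := Real.quadratic_le_exp_of_nonneg (by positivity : 0 ≤ Z / 64)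
  have h1 : Z ^ 2 ≤ 8192 * Real.exp (Z / 64) := by nlinarith
  exact ⟨h1, by nlinarith⟩

/-- [E2] FIRST ORDER EXPANSION OF THE KERNEL.
PROOF.  `X = cubq x`, `Y = cubq y`, `I = cubi x y`, `|I| ≤ (X+Y)/2` (`cubi_le`), `Z = 1 + X + Y`.
`MK ρ x y = e^A` with `A = -(n/2) log(1-ρ²) - (ρ²(X+Y) - 2ρI)/(2(1-ρ²))`.  For `|ρ| ≤ 1/2`: `0 ≤ -log(1-ρ²) ≤ 2ρ²`
(for `ρ² ≤ 1/4`), `1/(1-ρ²) - 1 ≤ (4/3)ρ²`, so `|A - ρI| ≤ C ρ² Z` and `|A| ≤ C|ρ| Z` (`C = n + 3`, say).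
`|e^A - 1 - A| ≤ A² e^{|A|}` and `|e^A - 1| ≤ |A| e^{|A|}`, so `|MK - 1 - ρI| ≤ C²ρ²Z² e^{C|ρ|Z} + Cρ²Z` and
`|MK - 1| ≤ C|ρ| Z e^{C|ρ|Z}`.  With `C ρ₀ ≤ 1/64` and `Z² ≤ C' e^{Z/64}`, `Z ≤ C' e^{Z/64}` everything is
`≤ C'' ρ² e^{(X+Y)/32}` (constants `e^{1/32}` absorbed). -/
theorem MK_est (n : ℕ) : ∃ ρ0 C : ℝ, 0 < ρ0 ∧ ρ0 ≤ 1 / 2 ∧ 0 ≤ C ∧ ∀ ρ : ℝ, |ρ| ≤ ρ0 →
    ∀ x y : Fin n → ℝ,
      |MK ρ x y - 1 - ρ * cubi x y| ≤ C * ρ ^ 2 * Real.exp ((cubq x + cubq y) / 32) ∧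
      |MK ρ x y - 1| ≤ C * |ρ| * Real.exp ((cubq x + cubq y) / 32) := by
  set c : ℝ := n + 1 with hc
  have hc1 : 1 ≤ c := by
    rw [hc]
    have : (0:ℝ) ≤ n := Nat.cast_nonneg n
    linarith
  have hcpos : 0 < c := by linarith
  have hρ0 : 1 / (64 * c) ≤ 1 / 2 := by
    apply one_div_le_one_div_of_le (by norm_num)
    linarith
  refine ⟨1 / (64 * c), (c ^ 2 + c) * 8192 * Real.exp (1 / 32), by positivity, hρ0, by positivity,
    ?_⟩
  intro ρ hρ x y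
  have hρ2 : |ρ| ≤ 1 / 2 := hρ.trans hρ0
  set X := cubq x with hXd
  set Y := cubq y with hYd
  set I := cubi x y with hId
  have hX : 0 ≤ X := Pool.Agent.SSC3N.cubq_nonneg x
  have hY : 0 ≤ Y := Pool.Agent.SSC3N.cubq_nonneg y
  have hI : |I| ≤ (X + Y) / 2 := Pool.Agent.SSC3N.cubi_le x y
  set Z := 1 + X + Y with hZd
  have hZ : 1 ≤ Z := by linarith
  have hm := e2_main n ρ X Y I hρ2 hX hY hI
  rw [e2_MK n ρ hρ2 x y]
  set A := -(n / 2 : ℝ) * Real.log (1 - ρ ^ 2) +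
      -(ρ ^ 2 * (X + Y) - 2 * ρ * I) / (2 * (1 - ρ ^ 2)) with hA
  have hAI : |A - ρ * I| ≤ c * ρ ^ 2 * Z := hm
  have hab : 0 ≤ |ρ| := abs_nonneg ρ
  have hsq : ρ ^ 2 = |ρ| ^ 2 := (sq_abs ρ).symm
  have hAle : |A| ≤ c * |ρ| * Z := by
    have h1 : |A| ≤ |A - ρ * I| + |ρ * I| := by
      have := abs_add_le (A - ρ * I) (ρ * I)
      simpa using this
    have h2 : |ρ * I| ≤ |ρ| * (Z / 2) := by
      rw [abs_mul]
      exact mul_le_mul_of_nonneg_left (hI.trans (by linarith)) hab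
    have h3 : c * ρ ^ 2 * Z ≤ c * |ρ| * Z / 2 := by
      rw [hsq]
      have : c * |ρ| ^ 2 * Z = (c * |ρ| * Z) * |ρ| := by ring
      rw [this]
      have h4 : 0 ≤ c * |ρ| * Z := by positivity
      nlinarith
    have h5 : |ρ| * (Z / 2) ≤ c * |ρ| * Z / 2 := by
      have : 0 ≤ |ρ| * Z := by positivity
      nlinarith
    linarith
  have hsmall : c * |ρ| * Z ≤ Z / 64 := by
    have h1 : c * |ρ| ≤ 1 / 64 := by
      have := mul_le_mul_of_nonneg_left hρ hcpos.le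
      have e : c * (1 / (64 * c)) = 1 / 64 := by field_simp
      linarith [e ▸ this]
    nlinarith
  have hexpA : Real.exp |A| ≤ Real.exp (Z / 64) := Real.exp_le_exp.mpr (hAle.trans hsmall)
  obtain ⟨hZ2, hZ1⟩ := e2_Z Z hZ
  have hE : Real.exp (Z / 64) * Real.exp (Z / 64) =
      Real.exp (1 / 32) * Real.exp ((X + Y) / 32) := by
    rw [← Real.exp_add, ← Real.exp_add]
    congr 1
    rw [hZd]
    ring
  have hE1 : Real.exp (Z / 64) ≤ Real.exp (Z / 64) * Real.exp (Z / 64) := by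
    have : 1 ≤ Real.exp (Z / 64) := Real.one_le_exp (by positivity)
    nlinarith [Real.exp_pos (Z / 64)]
  have hEpos : 0 < Real.exp (Z / 64) := Real.exp_pos _
  constructor
  · have h1 : |Real.exp A - 1 - ρ * I| ≤ |Real.exp A - 1 - A| + |A - ρ * I| := by
      have := abs_add_le (Real.exp A - 1 - A) (A - ρ * I)
      have e : Real.exp A - 1 - A + (A - ρ * I) = Real.exp A - 1 - ρ * I := by ring
      rwa [e] at this
    have h2 : |Real.exp A - 1 - A| ≤ c ^ 2 * ρ ^ 2 * (8192 * (Real.exp (Z / 64) *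
        Real.exp (Z / 64))) := by
      refine (e2_exp2 A).trans ?_
      have h3 : |A| ^ 2 ≤ (c * |ρ| * Z) ^ 2 := pow_le_pow_left₀ (abs_nonneg _) hAle 2
      calc |A| ^ 2 * Real.exp |A| ≤ (c * |ρ| * Z) ^ 2 * Real.exp (Z / 64) :=
            mul_le_mul h3 hexpA (Real.exp_pos _).le (by positivity)
        _ = c ^ 2 * ρ ^ 2 * (Z ^ 2 * Real.exp (Z / 64)) := by rw [hsq]; ring
        _ ≤ c ^ 2 * ρ ^ 2 * (8192 * Real.exp (Z / 64) * Real.exp (Z / 64)) := by gcongr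
        _ = _ := by ring
    have h4 : |A - ρ * I| ≤ c * ρ ^ 2 * (8192 * (Real.exp (Z / 64) * Real.exp (Z / 64))) := by
      refine hAI.trans ?_
      gcongr
      exact hZ1.trans (by gcongr)
    refine h1.trans ((add_le_add h2 h4).trans (le_of_eq ?_))
    rw [hE]
    ring
  · refine (e2_exp1 A).trans ?_
    calc |A| * Real.exp |A| ≤ (c * |ρ| * Z) * Real.exp (Z / 64) :=
          mul_le_mul hAle hexpA (Real.exp_pos _).le (by positivity)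
      _ ≤ (c * |ρ| * (8192 * Real.exp (Z / 64))) * Real.exp (Z / 64) := by gcongr
      _ = c * 8192 * |ρ| * (Real.exp (Z / 64) * Real.exp (Z / 64)) := by ring
      _ = c * 8192 * |ρ| * (Real.exp (1 / 32) * Real.exp ((X + Y) / 32)) := by rw [hE]
      _ ≤ (c ^ 2 + c) * 8192 * |ρ| * (Real.exp (1 / 32) * Real.exp ((X + Y) / 32)) := by
          gcongr
          nlinarith
      _ = _ := by ring

/-- [E2b] exponential moments and polynomial bounds used below: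
`exp(c cubq)` is integrable for `c ≤ 1/4` (`cub_exp`), `|x_l| ≤ C exp(cubq x/32)`, `|⟨θ,x⟩| ≤ C exp(cubq x/32)`. -/
theorem exp_mom (n : ℕ) : (∀ c : ℝ, c ≤ 1 / 4 → Integrable (fun y : Fin n → ℝ => Real.exp (c * cubq y)) (gam n)) ∧
    (∀ c : ℝ, 0 < c → ∃ C : ℝ, 0 ≤ C ∧ ∀ (y : Fin n → ℝ) l, |y l| ≤ C * Real.exp (c * cubq y)) ∧
    (∀ c : ℝ, 0 < c → ∃ C : ℝ, 0 ≤ C ∧ ∀ y : Fin n → ℝ, (1 + cubq y) ^ 2 ≤ C * Real.exp (c * cubq y)) := by
  refine ⟨?_, ?_, ?_⟩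
  · intro c hc
    refine (Pool.Agent.SSC3N.cub_exp (m := n)).mono' ?_ ?_
    · exact ((Pool.Agent.SSC3N.cubq_measurable.const_mul c).exp).aestronglyMeasurable
    · refine Filter.Eventually.of_forall fun y => ?_
      rw [Real.norm_eq_abs, abs_of_pos (Real.exp_pos _)]
      apply Real.exp_le_exp.mpr
      have := Pool.Agent.SSC3N.cubq_nonneg y
      nlinarith
  · intro c hc
    refine ⟨1 + 1 / c, by positivity, fun y l => ?_⟩
    have h0 := Pool.Agent.SSC3N.cubq_nonneg y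
    have h1 : y l ^ 2 ≤ cubq y := by
      unfold Pool.Agent.SSC3N.cubq
      exact Finset.single_le_sum (f := fun j => y j ^ 2) (fun j _ => sq_nonneg _)
        (Finset.mem_univ l)
    have h2 := Real.add_one_le_exp (c * cubq y)
    have h3 : |y l| ≤ 1 + cubq y := by
      rw [← sq_abs] at h1
      nlinarith [abs_nonneg (y l), sq_nonneg (|y l| - 1)]
    have h4 : cubq y ≤ 1 / c * Real.exp (c * cubq y) := by
      rw [one_div, ← div_eq_inv_mul, le_div_iff₀ hc]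
      linarith
    have h5 : 1 ≤ Real.exp (c * cubq y) := Real.one_le_exp (by positivity)
    linarith
  · intro c hc
    refine ⟨2 + 4 / c ^ 2, by positivity, fun y => ?_⟩
    have h0 := Pool.Agent.SSC3N.cubq_nonneg y
    have h2 := Real.quadratic_le_exp_of_nonneg (by positivity : 0 ≤ c * cubq y)
    have h5 : 1 ≤ Real.exp (c * cubq y) := Real.one_le_exp (by positivity)
    have h4 : cubq y ^ 2 ≤ 2 / c ^ 2 * Real.exp (c * cubq y) := by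
      rw [div_mul_eq_mul_div, le_div_iff₀ (by positivity)]
      have : 0 ≤ c * cubq y := by positivity
      nlinarith
    have h6 : (1 + cubq y) ^ 2 ≤ 2 + 2 * cubq y ^ 2 := by nlinarith [sq_nonneg (1 - cubq y)]
    have h7 : 4 / c ^ 2 * Real.exp (c * cubq y) = 2 * (2 / c ^ 2 * Real.exp (c * cubq y)) := by
      ring
    nlinarith

end Pool.Agent.SSQ
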