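import Pool.Agent.SSQ.E2

set_option autoImplicit false
open MeasureTheory ProbabilityTheory Set Real

namespace Pool.Agent.SSQ
open Pool.Agent.SSC3N (gam GG TT gam_prob cubq cubi)

/-- [E2c] ENERGY OF THE DIFFERENCE.  `GG ρ d d = ∫∫ MK d d` (`GG_symm`), `∫∫ d(x)d(y) (1 + ρ⟨x,y⟩) = (∫d)² + ρ ∑_l (∫ x_l d)²`
and the error is at most `C ρ² (∫ |d| e^{cubq/32})²` (`MK_est`). -/
theorem energy_d (n : ℕ) : ∃ ρ0 C : ℝ, 0 < ρ0 ∧ ρ0 ≤ 1 / 2 ∧ 0 ≤ C ∧ ∀ ρ : ℝ, |ρ| ≤ ρ0 →
    ∀ d : (Fin n → ℝ) → ℝ, Measurable d → (∀ y, |d y| ≤ 1) → ∫ y, d y ∂(gam n) = 0 →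
      |GG ρ d d - ρ * ∑ l, (∫ x, x l * d x ∂(gam n)) ^ 2| ≤
        C * ρ ^ 2 * (∫ x, |d x| * Real.exp (cubq x / 32) ∂(gam n)) ^ 2 := by
  have : IsProbabilityMeasure (gam n) := gam_prob n
  obtain ⟨ρ0, C, h1, h2, h3, hMK⟩ := MK_est n
  obtain ⟨hexp, hcoord, _⟩ := exp_mom n
  refine ⟨ρ0, C, h1, h2, h3, ?_⟩
  intro ρ hρ d hd hd1 hd0
  have hρ1 : |ρ| ≤ 1 / 2 := hρ.trans h2
  obtain ⟨hρ2, hρ3⟩ := abs_le.1 hρ1
  obtain ⟨_, _, hint, hGG⟩ := GG_symm ρ (by linarith) (by linarith) d d hd hd 1 hd1 hd1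
  have hcub : Measurable (cubq : (Fin n → ℝ) → ℝ) :=
    Finset.measurable_sum _ fun j _ => (measurable_pi_apply j).pow_const 2
  have hdI : Integrable d (gam n) :=
    (integrable_const (1 : ℝ)).mono' hd.aestronglyMeasurable (Filter.Eventually.of_forall hd1)
  have hxd : ∀ l : Fin n, Integrable (fun x : Fin n → ℝ => x l * d x) (gam n) := by
    intro l
    obtain ⟨K, hK, hb⟩ := hcoord (1 / 4) (by norm_num)
    refine ((hexp (1 / 4) le_rfl).const_mul K).mono'
      ((measurable_pi_apply l).mul hd).aestronglyMeasurable (Filter.Eventually.of_forall fun x => ?_)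
    rw [Real.norm_eq_abs, abs_mul]
    calc |x l| * |d x| ≤ |x l| * 1 := mul_le_mul_of_nonneg_left (hd1 x) (abs_nonneg _)
      _ = |x l| := mul_one _
      _ ≤ _ := hb x l
  set D : (Fin n → ℝ) → ℝ := fun x => |d x| * Real.exp (cubq x / 32) with hD
  have hDI : Integrable D (gam n) := by
    refine (hexp (1 / 32) (by norm_num)).mono'
      ((continuous_abs.measurable.comp hd).mul
        (Real.continuous_exp.measurable.comp (hcub.div_const _))).aestronglyMeasurable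
      (Filter.Eventually.of_forall fun x => ?_)
    rw [hD, Real.norm_eq_abs, abs_mul, abs_abs, abs_of_pos (Real.exp_pos _)]
    calc |d x| * Real.exp (cubq x / 32) ≤ 1 * Real.exp (cubq x / 32) :=
        mul_le_mul_of_nonneg_right (hd1 x) (Real.exp_pos _).le
      _ = Real.exp (1 / 32 * cubq x) := by rw [one_mul]; congr 1; ring
  -- the main term
  have hmainI : ∀ l : Fin n, Integrable (fun p : (Fin n → ℝ) × (Fin n → ℝ) =>
      (p.1 l * d p.1) * (p.2 l * d p.2)) ((gam n).prod (gam n)) := fun l =>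
    (hxd l).mul_prod (hxd l)
  have hddI : Integrable (fun p : (Fin n → ℝ) × (Fin n → ℝ) => d p.1 * d p.2)
      ((gam n).prod (gam n)) := hdI.mul_prod hdI
  have hmain : ∫ p, (d p.1 * d p.2 + ρ * ∑ l, (p.1 l * d p.1) * (p.2 l * d p.2))
      ∂((gam n).prod (gam n)) = ρ * ∑ l, (∫ x, x l * d x ∂(gam n)) ^ 2 := by
    rw [integral_add hddI ((integrable_finsetSum _ fun l _ => hmainI l).const_mul ρ),
      integral_prod_mul d d, hd0, mul_zero, zero_add, integral_const_mul,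
      integral_finsetSum _ fun l _ => hmainI l]
    congr 1
    refine Finset.sum_congr rfl fun l _ => ?_
    rw [integral_prod_mul (fun x : Fin n → ℝ => x l * d x) (fun x : Fin n → ℝ => x l * d x), sq]
  have hmI : Integrable (fun p : (Fin n → ℝ) × (Fin n → ℝ) =>
      d p.1 * d p.2 + ρ * ∑ l, (p.1 l * d p.1) * (p.2 l * d p.2)) ((gam n).prod (gam n)) :=
    hddI.add ((integrable_finsetSum _ fun l _ => hmainI l).const_mul ρ)
  rw [hGG, ← hmain, ← integral_sub hint hmI]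
  have hbound : ∀ p : (Fin n → ℝ) × (Fin n → ℝ),
      ‖MK ρ p.1 p.2 * (d p.1 * d p.2) -
        (d p.1 * d p.2 + ρ * ∑ l, (p.1 l * d p.1) * (p.2 l * d p.2))‖ ≤
      C * ρ ^ 2 * (D p.1 * D p.2) := by
    intro p
    have e1 : ∑ l, (p.1 l * d p.1) * (p.2 l * d p.2) = cubi p.1 p.2 * (d p.1 * d p.2) := by
      unfold cubi
      rw [Finset.sum_mul]
      exact Finset.sum_congr rfl fun l _ => by ring
    have e2 : MK ρ p.1 p.2 * (d p.1 * d p.2) -
        (d p.1 * d p.2 + ρ * (cubi p.1 p.2 * (d p.1 * d p.2))) =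
        (MK ρ p.1 p.2 - 1 - ρ * cubi p.1 p.2) * (d p.1 * d p.2) := by ring
    rw [e1, e2, Real.norm_eq_abs, abs_mul, abs_mul]
    have e3 : Real.exp ((cubq p.1 + cubq p.2) / 32) =
        Real.exp (cubq p.1 / 32) * Real.exp (cubq p.2 / 32) := by
      rw [← Real.exp_add]
      congr 1
      ring
    have h4 := (hMK ρ hρ p.1 p.2).1
    rw [e3] at h4
    calc _ ≤ C * ρ ^ 2 * (Real.exp (cubq p.1 / 32) * Real.exp (cubq p.2 / 32)) *
          (|d p.1| * |d p.2|) :=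
          mul_le_mul_of_nonneg_right h4 (mul_nonneg (abs_nonneg _) (abs_nonneg _))
      _ = _ := by
          simp only [hD]
          ring
  have h5 := norm_integral_le_of_norm_le ((hDI.mul_prod hDI).const_mul (C * ρ ^ 2))
    (Filter.Eventually.of_forall hbound)
  rw [integral_const_mul, integral_prod_mul D D, ← sq] at h5
  exact h5

end Pool.Agent.SSQ
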