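import Pool.Agent.SSQ.E1
import Pool.Agent.SSQ.C5d

set_option autoImplicit false
open MeasureTheory ProbabilityTheory Set Real

namespace Pool.Agent.SSQ
open Pool.Agent.SSC3N (gam GG TT gam_prob cubq cubi gauss_rot)

/-- `s_ij(x) = ⟨a_i - a_j, x⟩`. -/
noncomputable def sd {q n : ℕ} (a : Fin q → Fin n → ℝ) (i j : Fin q) (x : Fin n → ℝ) : ℝ :=
  ∑ l, (a i l - a j l) * x l

/-- [E3a] the reflection exchanging `a_i` and `a_j`: `R = 1 - (2/|θ|²) θθᵀ`, `θ = a_i - a_j`, `|θ|² = 2q/(q-1)`;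
`R` is orthogonal and symmetric, `R a_i = a_j`, `R a_j = a_i`, `R a_l = a_l` for the other `l`
(`⟨a_l, θ⟩ = 0`); hence `⟨a_i, Rx⟩ = ⟨a_j, x⟩` etc., `s_ij(Rx) = -s_ij(x)`, `cubq (Rx) = cubq x` and
`cubi x (Ry) = cubi x y - ((q-1)/q) s_ij(x) s_ij(y)`. -/
theorem refl (m : ℕ) {n : ℕ} (a : Fin (m + 2) → Fin n → ℝ) (ha : IsSx a) (i j : Fin (m + 2))
    (hij : i ≠ j) : ∃ R ∈ Matrix.orthogonalGroup (Fin n) ℝ,
    (∀ x, ∑ l, a i l * R.mulVec x l = ∑ l, a j l * x l) ∧
    (∀ x, ∑ l, a j l * R.mulVec x l = ∑ l, a i l * x l) ∧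
    (∀ p, p ≠ i → p ≠ j → ∀ x, ∑ l, a p l * R.mulVec x l = ∑ l, a p l * x l) ∧
    (∀ x, cubq (R.mulVec x) = cubq x) ∧
    ∀ x y, cubi x (R.mulVec y) = cubi x y - ((m : ℝ) + 1) / (m + 2) * (sd a i j x * sd a i j y) := by
  obtain ⟨h1, h2⟩ := ha
  have hm1 : (m : ℝ) + 1 ≠ 0 := by positivity
  have hm2 : (m : ℝ) + 2 ≠ 0 := by positivity
  have hq : (((m + 2 : ℕ) : ℝ) - 1) = (m : ℝ) + 1 := by push_cast; ring
  rw [hq] at h2
  set c : ℝ := ((m : ℝ) + 1) / (m + 2) with hc
  set θ : Fin n → ℝ := fun l => a i l - a j l with hθ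
  have hsd : ∀ x : Fin n → ℝ, sd a i j x = ∑ l, θ l * x l := fun x => rfl
  have hiθ : ∑ l, a i l * θ l = ((m : ℝ) + 2) / (m + 1) := by
    have e1 : ∑ l, a i l * θ l = ∑ l, a i l * a i l - ∑ l, a i l * a j l := by
      rw [← Finset.sum_sub_distrib]
      exact Finset.sum_congr rfl fun l _ => by rw [hθ]; ring
    rw [e1, h1, h2 i j hij]
    field_simp
    ring
  have hjθ : ∑ l, a j l * θ l = -(((m : ℝ) + 2) / (m + 1)) := by
    have e1 : ∑ l, a j l * θ l = ∑ l, a j l * a i l - ∑ l, a j l * a j l := by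
      rw [← Finset.sum_sub_distrib]
      exact Finset.sum_congr rfl fun l _ => by rw [hθ]; ring
    rw [e1, h1, h2 j i hij.symm]
    field_simp
    ring
  have hpθ : ∀ p, p ≠ i → p ≠ j → ∑ l, a p l * θ l = 0 := by
    intro p hpi hpj
    have e1 : ∑ l, a p l * θ l = ∑ l, a p l * a i l - ∑ l, a p l * a j l := by
      rw [← Finset.sum_sub_distrib]
      exact Finset.sum_congr rfl fun l _ => by rw [hθ]; ring
    rw [e1, h2 p i hpi, h2 p j hpj, sub_self]
  have hθθ : ∑ l, θ l * θ l = 2 * (((m : ℝ) + 2) / (m + 1)) := by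
    have e1 : ∑ l, θ l * θ l = ∑ l, a i l * θ l - ∑ l, a j l * θ l := by
      rw [← Finset.sum_sub_distrib]
      exact Finset.sum_congr rfl fun l _ => by
        show (a i l - a j l) * θ l = _
        ring
    rw [e1, hiθ, hjθ]
    ring
  have hcθ : c * (∑ l, θ l * θ l) = 2 := by
    rw [hθθ, hc]
    field_simp
  let R : Matrix (Fin n) (Fin n) ℝ := fun k l => (if k = l then 1 else 0) - c * (θ k * θ l)
  have hR : ∀ (x : Fin n → ℝ) k, R.mulVec x k = x k - c * (θ k * ∑ l, θ l * x l) := by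
    intro x k
    show ∑ l, ((if k = l then 1 else 0) - c * (θ k * θ l)) * x l = _
    have e1 : ∀ l, ((if k = l then (1 : ℝ) else 0) - c * (θ k * θ l)) * x l =
        (if k = l then x l else 0) - c * θ k * (θ l * x l) := by
      intro l
      split_ifs <;> ring
    rw [Finset.sum_congr rfl fun l _ => e1 l, Finset.sum_sub_distrib, ← Finset.mul_sum,
      Finset.sum_ite_eq Finset.univ k, if_pos (Finset.mem_univ k)]
    ring
  have hRv : ∀ (v x : Fin n → ℝ), ∑ l, v l * R.mulVec x l =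
      ∑ l, v l * x l - c * ((∑ l, v l * θ l) * ∑ l, θ l * x l) := by
    intro v x
    have e1 : ∀ l, v l * R.mulVec x l = v l * x l - c * (∑ l, θ l * x l) * (v l * θ l) := by
      intro l
      rw [hR]
      ring
    rw [Finset.sum_congr rfl fun l _ => e1 l, Finset.sum_sub_distrib, ← Finset.mul_sum]
    ring
  have hcc : c * (((m : ℝ) + 2) / (m + 1)) = 1 := by
    rw [hc]
    field_simp
  refine ⟨R, ?_, ?_, ?_, ?_, ?_, ?_⟩
  · rw [Matrix.mem_orthogonalGroup_iff]
    ext k p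
    rw [Matrix.mul_apply, Matrix.one_apply]
    show ∑ l, ((if k = l then 1 else 0) - c * (θ k * θ l)) *
      ((if p = l then 1 else 0) - c * (θ p * θ l)) = _
    have e1 : ∀ l, ((if k = l then (1 : ℝ) else 0) - c * (θ k * θ l)) *
        ((if p = l then 1 else 0) - c * (θ p * θ l)) =
        (if k = l then (if p = l then 1 else 0) else 0) - (if k = l then c * (θ p * θ l) else 0)
        - (if p = l then c * (θ k * θ l) else 0) + c * c * θ k * θ p * (θ l * θ l) := by
      intro l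
      split_ifs <;> ring
    rw [Finset.sum_congr rfl fun l _ => e1 l, Finset.sum_add_distrib, Finset.sum_sub_distrib,
      Finset.sum_sub_distrib, ← Finset.mul_sum, Finset.sum_ite_eq Finset.univ k,
      Finset.sum_ite_eq Finset.univ k, Finset.sum_ite_eq Finset.univ p]
    simp only [Finset.mem_univ, if_true]
    have e2 : c * c * θ k * θ p * (∑ l, θ l * θ l) = 2 * c * θ k * θ p := by
      rw [← hcθ]
      ring
    rw [e2]
    by_cases hkp : k = p
    · rw [if_pos hkp, if_pos hkp.symm]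
      ring
    · rw [if_neg hkp, if_neg (Ne.symm hkp)]
      ring
  · intro x
    rw [hRv, hiθ]
    have e1 : c * (((m : ℝ) + 2) / (m + 1) * ∑ l, θ l * x l) = ∑ l, θ l * x l := by
      rw [← mul_assoc, hcc, one_mul]
    rw [e1, ← Finset.sum_sub_distrib]
    exact Finset.sum_congr rfl fun l _ => by
      show a i l * x l - (a i l - a j l) * x l = _
      ring
  · intro x
    rw [hRv, hjθ]
    have e1 : c * (-(((m : ℝ) + 2) / (m + 1)) * ∑ l, θ l * x l) = -∑ l, θ l * x l := by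
      rw [neg_mul, mul_neg, ← mul_assoc, hcc, one_mul]
    rw [e1, sub_neg_eq_add, ← Finset.sum_add_distrib]
    exact Finset.sum_congr rfl fun l _ => by
      show a j l * x l + (a i l - a j l) * x l = _
      ring
  · intro p hpi hpj x
    rw [hRv, hpθ p hpi hpj]
    ring
  · intro x
    unfold cubq
    have e1 : ∀ l, R.mulVec x l ^ 2 = x l ^ 2 - 2 * c * (∑ l, θ l * x l) * (θ l * x l) +
        c * c * (∑ l, θ l * x l) ^ 2 * (θ l * θ l) := by
      intro l
      rw [hR]
      ring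
    rw [Finset.sum_congr rfl fun l _ => e1 l, Finset.sum_add_distrib, Finset.sum_sub_distrib,
      ← Finset.mul_sum, ← Finset.mul_sum]
    have e2 : c * c * (∑ l, θ l * x l) ^ 2 * (∑ l, θ l * θ l) =
        2 * c * (∑ l, θ l * x l) ^ 2 := by
      rw [← hcθ]
      ring
    rw [e2]
    ring
  · intro x y
    unfold cubi
    rw [hRv, hsd, hsd]
    have e1 : ∑ l, x l * θ l = ∑ l, θ l * x l := Finset.sum_congr rfl fun l _ => mul_comm _ _
    rw [e1]

/-- [E3b] DIFFERENCE FORMULA.  By `TT_kernel`, `TT ρ (fst a j) x = ∫_{sxc a j} MK ρ x y`; change of variables `y → Ry`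
(`gauss_rot`): up to a null set `Ry ∈ sxc a j ↔ y ∈ sxc a i` (`sxc_ae`, `refl`), so it is
`∫_{sxc a i} MK ρ x (Ry)`, and `MK ρ x (Ry) = MK ρ x y · exp(-ρ ((m+1)/(m+2)) s(x) s(y)/(1-ρ²))` (`refl`). -/
theorem diff_formula (m : ℕ) {n : ℕ} (a : Fin (m + 2) → Fin n → ℝ) (ha : IsSx a) (ρ : ℝ)
    (h0 : -1 < ρ) (h1 : ρ < 1) (i j : Fin (m + 2)) (hij : i ≠ j) (x : Fin n → ℝ) :
    TT ρ (fst a i) x - TT ρ (fst a j) x =
      ∫ y in sxc a i, MK ρ x y *
        (1 - Real.exp (-(ρ * (((m : ℝ) + 1) / (m + 2)) * (sd a i j x * sd a i j y) / (1 - ρ ^ 2)))) ∂(gam n) := by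
  obtain ⟨R, hRo, hRi, hRj, hRp, hRq, hRc⟩ := refl m a ha i j hij
  obtain ⟨hms, -, hFP, -⟩ := sxc_basic (by omega : 0 < m + 2) a
  have hrot := gauss_rot n R hRo
  have hbd : ∀ p y, |fst a p y| ≤ 1 := by
    intro p y
    unfold fst
    by_cases hy : y ∈ sxc a p
    · rw [Set.indicator_of_mem hy, abs_one]
    · rw [Set.indicator_of_notMem hy, abs_zero]
      exact zero_le_one
  obtain ⟨hIi, hTi⟩ := TT_kernel ρ h0 h1 (fst a i) (hFP.1 i) 1 (hbd i) x
  obtain ⟨hIj, hTj⟩ := TT_kernel ρ h0 h1 (fst a j) (hFP.1 j) 1 (hbd j) x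
  have hIj' : Integrable (fun y => MK ρ x (R.mulVec y) * fst a j (R.mulVec y)) (gam n) :=
    hrot.integrable_comp_of_integrable hIj
  have hTj' : ∫ y, MK ρ x y * fst a j y ∂(gam n) =
      ∫ y, MK ρ x (R.mulVec y) * fst a j (R.mulVec y) ∂(gam n) := by
    conv_lhs => rw [← hrot.map_eq]
    rw [integral_map hrot.measurable.aemeasurable
      (by rw [hrot.map_eq]; exact hIj.aestronglyMeasurable)]
  have hae : ∀ᵐ y ∂(gam n), fst a j (R.mulVec y) = fst a i y := by
    have hae1 := sxc_ae (by omega : 2 ≤ m + 2) a ha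
    have hae2 := hrot.quasiMeasurePreserving.ae hae1
    filter_upwards [hae1, hae2] with y hy1 hy2
    have h3 : R.mulVec y ∈ sxc a j ↔ y ∈ sxc a i := by
      rw [hy1 i, hy2 j]
      constructor
      · intro h p hp
        have h4 : ∑ l, a j l * R.mulVec y l = ∑ l, a i l * y l := hRj y
        by_cases hpj : p = j
        · subst hpj
          have h5 := h i hij
          rw [hRi y, h4] at h5
          exact h5
        · have h5 := h p hpj
          rw [hRp p hp hpj y, h4] at h5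
          exact h5
      · intro h p hp
        rw [hRj y]
        by_cases hpi : p = i
        · subst hpi
          rw [hRi y]
          exact h j hij.symm
        · rw [hRp p hpi hp y]
          exact h p hpi
    unfold fst
    by_cases hy : y ∈ sxc a i
    · rw [Set.indicator_of_mem hy, Set.indicator_of_mem (h3.2 hy)]
    · rw [Set.indicator_of_notMem hy, Set.indicator_of_notMem (fun h => hy (h3.1 h))]
  have hMK : ∀ y, MK ρ x (R.mulVec y) = MK ρ x y *
      Real.exp (-(ρ * (((m : ℝ) + 1) / (m + 2)) * (sd a i j x * sd a i j y) / (1 - ρ ^ 2))) := by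
    intro y
    unfold MK
    rw [hRq, hRc]
    have e1 : ∀ u v w : ℝ, u = v + w → ∀ b : ℝ,
        b * Real.exp u = b * Real.exp v * Real.exp w := by
      intro u v w h b
      rw [h, Real.exp_add]
      ring
    apply e1
    have h4 : (1 - ρ ^ 2) ≠ 0 := by nlinarith
    have h5 : (m : ℝ) + 2 ≠ 0 := by positivity
    field_simp
    ring
  have hcongr : (fun y => MK ρ x (R.mulVec y) * fst a j (R.mulVec y)) =ᵐ[gam n]
      fun y => MK ρ x y *
      Real.exp (-(ρ * (((m : ℝ) + 1) / (m + 2)) * (sd a i j x * sd a i j y) / (1 - ρ ^ 2))) *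
        fst a i y := by
    filter_upwards [hae] with y hy
    rw [hy, hMK]
  rw [hTi, hTj, hTj', integral_congr_ae hcongr, ← integral_sub hIi (hIj'.congr hcongr),
    ← integral_indicator (hms i)]
  refine integral_congr_ae (Filter.Eventually.of_forall fun y => ?_)
  show MK ρ x y * fst a i y - MK ρ x y *
      Real.exp (-(ρ * (((m : ℝ) + 1) / (m + 2)) * (sd a i j x * sd a i j y) / (1 - ρ ^ 2))) *
        fst a i y = (sxc a i).indicator (fun y => MK ρ x y *
        (1 - Real.exp (-(ρ * (((m : ℝ) + 1) / (m + 2)) * (sd a i j x * sd a i j y) /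
          (1 - ρ ^ 2))))) y
  unfold fst
  by_cases hy : y ∈ sxc a i
  · rw [Set.indicator_of_mem hy, Set.indicator_of_mem hy]
    ring
  · rw [Set.indicator_of_notMem hy, Set.indicator_of_notMem hy]
    ring

/-- [E3c] `∫_{sxc a i} s_ij = κ ⟨a_i - a_j, a_i⟩ = κ (m+2)/(m+1)` (`Kf_fst`). -/
theorem int_sd (m : ℕ) {n : ℕ} (a : Fin (m + 2) → Fin n → ℝ) (ha : IsSx a) (i j : Fin (m + 2))
    (hij : i ≠ j) : ∫ y in sxc a i, sd a i j y ∂(gam n) = kap m * (((m : ℝ) + 2) / (m + 1)) := by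
  obtain ⟨hms, -, hFP, -⟩ := sxc_basic (by omega : 0 < m + 2) a
  obtain ⟨-, -, hK⟩ := Kf_fst m a ha
  obtain ⟨hI, -⟩ := Kf_sum (fst a) hFP
  have hm1 : (m : ℝ) + 1 ≠ 0 := by positivity
  have h1 : ∫ y in sxc a i, sd a i j y ∂(gam n) =
      ∫ y, ∑ l, (a i l - a j l) * (y l * fst a i y) ∂(gam n) := by
    rw [← integral_indicator (hms i)]
    refine integral_congr_ae (Filter.Eventually.of_forall fun y => ?_)
    show (sxc a i).indicator (fun y => sd a i j y) y =
      ∑ l, (a i l - a j l) * (y l * fst a i y)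
    unfold fst
    by_cases hy : y ∈ sxc a i
    · rw [Set.indicator_of_mem hy, Set.indicator_of_mem hy]
      exact Finset.sum_congr rfl fun l _ => by ring
    · rw [Set.indicator_of_notMem hy, Set.indicator_of_notMem hy]
      simp
  have h2 : ∀ l, ∫ y, (a i l - a j l) * (y l * fst a i y) ∂(gam n) =
      kap m * (a i l * a i l) - kap m * (a i l * a j l) := by
    intro l
    rw [integral_const_mul]
    have h3 : ∫ y : Fin n → ℝ, y l * fst a i y ∂(gam n) = kap m * a i l := hK i l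
    rw [h3]
    ring
  rw [h1, integral_finsetSum _ fun l _ => (hI i l).const_mul _,
    Finset.sum_congr rfl fun l _ => h2 l, Finset.sum_sub_distrib, ← Finset.mul_sum,
    ← Finset.mul_sum, ha.1 i, ha.2 i j hij]
  push_cast
  have hq : ((m : ℝ) + 2 - 1) = (m : ℝ) + 1 := by ring
  rw [hq]
  field_simp
  ring

end Pool.Agent.SSQ
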