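import Pool.Agent.SSQ.E2
import Pool.Agent.SSQ.E3

set_option autoImplicit false
open MeasureTheory ProbabilityTheory Set Real

namespace Pool.Agent.SSQ
open Pool.Agent.SSC3N (gam GG TT gam_prob cubq cubi)

private lemma e4_exp1 (v : ℝ) : |1 - Real.exp (-v)| ≤ |v| * Real.exp |v| := by
  have h := Complex.norm_exp_sub_sum_le_norm_mul_exp ((-v : ℝ) : ℂ) 1
  rw [Finset.sum_range_one] at h
  have e1 : Complex.exp ((-v : ℝ) : ℂ) - ((-v : ℝ) : ℂ) ^ 0 / (Nat.factorial 0 : ℂ) =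
      ((Real.exp (-v) - 1 : ℝ) : ℂ) := by
    push_cast
    simp
  rw [e1, Complex.norm_real, Complex.norm_real, Real.norm_eq_abs, Real.norm_eq_abs, abs_neg, pow_one] at h
  rw [abs_sub_comm]
  exact h

private lemma e4_exp2 (v : ℝ) : |1 - Real.exp (-v) - v| ≤ v ^ 2 * Real.exp |v| := by
  have h := Complex.norm_exp_sub_sum_le_norm_mul_exp ((-v : ℝ) : ℂ) 2
  rw [Finset.sum_range_succ, Finset.sum_range_one] at h
  have e1 : Complex.exp ((-v : ℝ) : ℂ) - (((-v : ℝ) : ℂ) ^ 0 / (Nat.factorial 0 : ℂ) +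
      ((-v : ℝ) : ℂ) ^ 1 / (Nat.factorial 1 : ℂ)) = ((Real.exp (-v) - 1 + v : ℝ) : ℂ) := by
    push_cast
    simp
    ring
  rw [e1, Complex.norm_real, Complex.norm_real, Real.norm_eq_abs, Real.norm_eq_abs, abs_neg, sq_abs] at h
  have e2 : 1 - Real.exp (-v) - v = -(Real.exp (-v) - 1 + v) := by ring
  rw [e2, abs_neg]
  exact h

private lemma e4_sq (m : ℕ) {n : ℕ} (a : Fin (m + 2) → Fin n → ℝ) (ha : IsSx a) (i j : Fin (m + 2))
    (hij : i ≠ j) (x : Fin n → ℝ) : sd a i j x ^ 2 ≤ 4 * cubq x := by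
  unfold sd
  have h1 := Finset.sum_mul_sq_le_sq_mul_sq Finset.univ (fun l => a i l - a j l) x
  have h2 : ∑ l, (a i l - a j l) ^ 2 ≤ 4 := by
    have h3 : ∑ l, (a i l - a j l) ^ 2 = ∑ l, a i l * a i l + ∑ l, a j l * a j l - 2 * ∑ l, a i l * a j l := by
      rw [Finset.mul_sum, ← Finset.sum_add_distrib, ← Finset.sum_sub_distrib]
      exact Finset.sum_congr rfl fun l _ => by ring
    rw [h3, ha.1 i, ha.1 j, ha.2 i j hij]
    have hm : (0 : ℝ) ≤ m := Nat.cast_nonneg m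
    have h4 : ((m + 2 : ℕ) : ℝ) - 1 = (m : ℝ) + 1 := by push_cast; ring
    rw [h4]
    have h5 : 1 / ((m : ℝ) + 1) ≤ 1 := by rw [div_le_one (by linarith)]; linarith
    have h6 : -1 / ((m : ℝ) + 1) = -(1 / ((m : ℝ) + 1)) := by ring
    rw [h6]
    linarith
  have h3 : 0 ≤ ∑ l, x l ^ 2 := Finset.sum_nonneg fun l _ => sq_nonneg _
  calc _ ≤ _ := h1
    _ ≤ 4 * ∑ l, x l ^ 2 := mul_le_mul_of_nonneg_right h2 h3
    _ = _ := rfl

private lemma e4_sle (m : ℕ) {n : ℕ} (a : Fin (m + 2) → Fin n → ℝ) (ha : IsSx a) (i j : Fin (m + 2))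
    (hij : i ≠ j) (x : Fin n → ℝ) : |sd a i j x| ≤ 257 * Real.exp (cubq x / 64) ∧
      sd a i j x ^ 2 ≤ 257 * Real.exp (cubq x / 64) := by
  have h1 := e4_sq m a ha i j hij x
  have h2 := Pool.Agent.SSC3N.cubq_nonneg x
  have h3 : cubq x / 64 + 1 ≤ Real.exp (cubq x / 64) := Real.add_one_le_exp _
  constructor
  · have h4 : |sd a i j x| ≤ 1 + sd a i j x ^ 2 := by
      rw [← sq_abs]
      nlinarith [sq_nonneg (|sd a i j x| - 1), abs_nonneg (sd a i j x)]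
    linarith
  · linarith

private lemma e4_cont {q n : ℕ} (a : Fin q → Fin n → ℝ) (i j : Fin q) : Continuous (sd a i j) := by
  unfold sd
  fun_prop

private lemma e4_MKc {n : ℕ} (ρ : ℝ) (x : Fin n → ℝ) : Continuous (fun y : Fin n → ℝ => MK ρ x y) := by
  unfold MK cubq cubi
  fun_prop

/-- pointwise bound -/
private lemma e4_pt (C1 ρ μ s t X Y M : ℝ) (hC1 : 0 ≤ C1) (hρ : |ρ| ≤ 1 / 256) (hμ0 : 0 ≤ μ) (hμ1 : μ ≤ 1)
    (hs : 0 ≤ s) (ht : 0 ≤ t) (hX : 0 ≤ X) (hY : 0 ≤ Y) (hs2 : s ^ 2 ≤ 4 * X) (ht2 : t ^ 2 ≤ 4 * Y)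
    (hsX : s ≤ 257 * Real.exp (X / 64)) (htY : t ≤ 257 * Real.exp (Y / 64))
    (ht2Y : t ^ 2 ≤ 257 * Real.exp (Y / 64))
    (hM : |M - 1| ≤ C1 * |ρ| * Real.exp ((X + Y) / 32)) :
    |M * (1 - Real.exp (-(ρ * μ * (s * t) / (1 - ρ ^ 2)))) - ρ * μ * (s * t)| ≤
      (2 * C1 * 257 + 4 * 257 * 257 + 257) * ρ ^ 2 * s * (Real.exp (X / 16) * Real.exp (Y / 16)) := by
  have hρ2 : ρ ^ 2 ≤ 1 / 4 := by
    rw [← sq_abs]
    nlinarith [abs_nonneg ρ]
  have hd : 0 < 1 - ρ ^ 2 := by linarith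
  have hst : 0 ≤ s * t := mul_nonneg hs ht
  have hstXY : s * t ≤ 2 * (X + Y) := by nlinarith [sq_nonneg (s - t)]
  obtain ⟨v, hv⟩ : ∃ v, v = ρ * μ * (s * t) / (1 - ρ ^ 2) := ⟨_, rfl⟩
  rw [← hv]
  have hdinv : 1 / (1 - ρ ^ 2) ≤ 2 := by
    rw [div_le_iff₀ hd]
    linarith
  have hdinv0 : 0 ≤ 1 / (1 - ρ ^ 2) := by positivity
  have hvabs : |v| ≤ 2 * |ρ| * (s * t) := by
    have e1 : v = ρ * (μ * (1 / (1 - ρ ^ 2)) * (s * t)) := by rw [hv]; ring
    rw [e1, abs_mul, abs_of_nonneg (mul_nonneg (mul_nonneg hμ0 hdinv0) hst)]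
    have e2 : μ * (1 / (1 - ρ ^ 2)) ≤ 1 * 2 := mul_le_mul hμ1 hdinv hdinv0 zero_le_one
    have e3 : μ * (1 / (1 - ρ ^ 2)) * (s * t) ≤ 2 * (s * t) := mul_le_mul_of_nonneg_right (by linarith) hst
    calc |ρ| * (μ * (1 / (1 - ρ ^ 2)) * (s * t)) ≤ |ρ| * (2 * (s * t)) :=
          mul_le_mul_of_nonneg_left e3 (abs_nonneg ρ)
      _ = _ := by ring
  have hvXY : |v| ≤ X / 64 + Y / 64 := by
    have e1 : 2 * |ρ| * (s * t) ≤ 2 * (1 / 256) * (2 * (X + Y)) := by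
      apply mul_le_mul _ hstXY hst (by norm_num)
      linarith
    linarith
  have hexpv : Real.exp |v| ≤ Real.exp (X / 64) * Real.exp (Y / 64) := by
    rw [← Real.exp_add]
    exact Real.exp_le_exp.mpr hvXY
  obtain ⟨P, hP⟩ : ∃ P, P = Real.exp (X / 64) := ⟨_, rfl⟩
  obtain ⟨R, hR⟩ : ∃ R, R = Real.exp (Y / 64) := ⟨_, rfl⟩
  have hP1 : 1 ≤ P := by rw [hP]; exact Real.one_le_exp (by positivity)
  have hR1 : 1 ≤ R := by rw [hR]; exact Real.one_le_exp (by positivity)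
  have hM' : |M - 1| ≤ C1 * |ρ| * (P ^ 2 * R ^ 2) := by
    have e1 : Real.exp ((X + Y) / 32) = P ^ 2 * R ^ 2 := by
      rw [hP, hR, ← Real.exp_nat_mul, ← Real.exp_nat_mul, ← Real.exp_add]
      congr 1
      push_cast
      ring
    rw [← e1]
    exact hM
  have e16 : Real.exp (X / 16) = P ^ 4 := by
    rw [hP, ← Real.exp_nat_mul]
    congr 1
    push_cast
    ring
  have e16' : Real.exp (Y / 16) = R ^ 4 := by
    rw [hR, ← Real.exp_nat_mul]
    congr 1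
    push_cast
    ring
  rw [e16, e16']
  rw [← hP] at hsX hexpv
  rw [← hR] at htY ht2Y hexpv
  have hsplit : M * (1 - Real.exp (-v)) - ρ * μ * (s * t) =
      (M - 1) * (1 - Real.exp (-v)) + (1 - Real.exp (-v) - v) + (v - ρ * μ * (s * t)) := by ring
  rw [hsplit]
  have ρ2 : 0 ≤ ρ ^ 2 := sq_nonneg ρ
  have hP0 : 0 ≤ P := by linarith
  have hR0 : 0 ≤ R := by linarith
  have T1 : |(M - 1) * (1 - Real.exp (-v))| ≤ (2 * C1 * 257) * ρ ^ 2 * s * (P ^ 4 * R ^ 4) := by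
    rw [abs_mul]
    have e1 : |1 - Real.exp (-v)| ≤ (2 * |ρ| * (s * t)) * (P * R) := by
      refine (e4_exp1 v).trans ?_
      exact mul_le_mul hvabs hexpv (Real.exp_pos _).le (by positivity)
    calc |M - 1| * |1 - Real.exp (-v)| ≤ (C1 * |ρ| * (P ^ 2 * R ^ 2)) * ((2 * |ρ| * (s * t)) * (P * R)) :=
          mul_le_mul hM' e1 (abs_nonneg _) (by positivity)
      _ = 2 * C1 * |ρ| ^ 2 * s * (P ^ 3 * R ^ 3) * t := by ring
      _ ≤ 2 * C1 * |ρ| ^ 2 * s * (P ^ 3 * R ^ 3) * (257 * R) :=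
          mul_le_mul_of_nonneg_left htY (by positivity)
      _ = (2 * C1 * 257) * ρ ^ 2 * s * (P ^ 3 * R ^ 4) := by rw [sq_abs]; ring
      _ ≤ (2 * C1 * 257) * ρ ^ 2 * s * (P ^ 4 * R ^ 4) := by
          apply mul_le_mul_of_nonneg_left _ (by positivity)
          apply mul_le_mul_of_nonneg_right _ (by positivity)
          exact pow_le_pow_right₀ hP1 (by norm_num)
  have T2 : |1 - Real.exp (-v) - v| ≤ (4 * 257 * 257) * ρ ^ 2 * s * (P ^ 4 * R ^ 4) := by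
    have e1 : v ^ 2 ≤ (2 * |ρ| * (s * t)) ^ 2 := by
      rw [← sq_abs v]
      exact pow_le_pow_left₀ (abs_nonneg v) hvabs 2
    calc |1 - Real.exp (-v) - v| ≤ v ^ 2 * Real.exp |v| := e4_exp2 v
      _ ≤ (2 * |ρ| * (s * t)) ^ 2 * (P * R) := mul_le_mul e1 hexpv (Real.exp_pos _).le (by positivity)
      _ = 4 * |ρ| ^ 2 * s * (P * R) * (s * t ^ 2) := by ring
      _ ≤ 4 * |ρ| ^ 2 * s * (P * R) * ((257 * P) * (257 * R)) := by
          apply mul_le_mul_of_nonneg_left _ (by positivity)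
          exact mul_le_mul hsX ht2Y (sq_nonneg t) (by positivity)
      _ = (4 * 257 * 257) * ρ ^ 2 * s * (P ^ 2 * R ^ 2) := by rw [sq_abs]; ring
      _ ≤ (4 * 257 * 257) * ρ ^ 2 * s * (P ^ 4 * R ^ 4) := by
          apply mul_le_mul_of_nonneg_left _ (by positivity)
          apply mul_le_mul (pow_le_pow_right₀ hP1 (by norm_num)) (pow_le_pow_right₀ hR1 (by norm_num))
            (by positivity) (by positivity)
  have T3 : |v - ρ * μ * (s * t)| ≤ 257 * ρ ^ 2 * s * (P ^ 4 * R ^ 4) := by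
    have e1 : v - ρ * μ * (s * t) = ρ ^ 2 * (v * 1) := by
      rw [hv]
      field_simp
      ring
    rw [e1, mul_one, abs_mul, abs_of_nonneg ρ2]
    have e2 : |v| ≤ s * t := by
      refine hvabs.trans ?_
      have : 2 * |ρ| ≤ 1 := by linarith
      nlinarith
    calc ρ ^ 2 * |v| ≤ ρ ^ 2 * (s * t) := mul_le_mul_of_nonneg_left e2 ρ2
      _ ≤ ρ ^ 2 * (s * (257 * R)) := mul_le_mul_of_nonneg_left (mul_le_mul_of_nonneg_left htY hs) ρ2
      _ = 257 * ρ ^ 2 * s * (1 * R ^ 1) := by ring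
      _ ≤ 257 * ρ ^ 2 * s * (P ^ 4 * R ^ 4) := by
          apply mul_le_mul_of_nonneg_left _ (by positivity)
          apply mul_le_mul (one_le_pow₀ hP1) (pow_le_pow_right₀ hR1 (by norm_num))
            (by positivity) (by positivity)
  calc _ ≤ |(M - 1) * (1 - Real.exp (-v))| + |1 - Real.exp (-v) - v| + |v - ρ * μ * (s * t)| :=
        abs_add_three _ _ _
    _ ≤ (2 * C1 * 257) * ρ ^ 2 * s * (P ^ 4 * R ^ 4) + (4 * 257 * 257) * ρ ^ 2 * s * (P ^ 4 * R ^ 4) +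
        257 * ρ ^ 2 * s * (P ^ 4 * R ^ 4) := add_le_add (add_le_add T1 T2) T3
    _ = _ := by ring

/-- [E4] FIRST ORDER EXPANSION OF THE DIFFERENCE.
PROOF.  Let `s = s_ij(x) ≥ 0`, `s' = s_ij(y) ≥ 0` on `sxc a i` (`sxc_basic`), `μ = (m+1)/(m+2)`, `v = ρ μ s s'/(1-ρ²)`;
`diff_formula`, `int_sd`: `D - ρκs = ∫_{sxc a i} [MK (1 - e^{-v}) - ρ μ s s']` (`μ·(m+2)/(m+1) = 1`)
`= ∫ (MK - 1)(1 - e^{-v}) + ∫ (1 - e^{-v} - v) + ρ μ s (1/(1-ρ²) - 1) ∫ s'`.
For `|ρ| ≤ ρ₀`: `|v| ≤ 2|ρ| s s'`, `s s' ≤ C(X+Y)` (`X = cubq x`, `Y = cubq y`), so `e^{|v|} ≤ e^{(X+Y)/64}`;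
`|1 - e^{-v}| ≤ |v| e^{|v|}`, `|1 - e^{-v} - v| ≤ v² e^{|v|}`; `|MK - 1| ≤ C|ρ| e^{(X+Y)/32}` (`MK_est`);
`s ≤ C e^{X/64}`, `s' ≤ C e^{Y/64}`, `s'² ≤ C e^{Y/64}` (`exp_mom`).  Each term is `≤ C ρ² s e^{X/16}` after integration
in `y` (`exp_mom`). -/
theorem K2 (m : ℕ) {n : ℕ} (a : Fin (m + 2) → Fin n → ℝ) (ha : IsSx a) : ∃ ρ0 C : ℝ, 0 < ρ0 ∧
    ρ0 ≤ 1 / 2 ∧ 0 ≤ C ∧ ∀ ρ : ℝ, |ρ| ≤ ρ0 → ∀ i j, i ≠ j → ∀ x : Fin n → ℝ, 0 ≤ sd a i j x →
      |TT ρ (fst a i) x - TT ρ (fst a j) x - ρ * (kap m * sd a i j x)| ≤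
        C * ρ ^ 2 * (sd a i j x * Real.exp (cubq x / 16)) := by
  obtain ⟨ρ1, C1, hρ1, hρ1', hC1, hMK⟩ := MK_est n
  obtain ⟨hexpI, -, -⟩ := exp_mom n
  have hI16 : Integrable (fun y : Fin n → ℝ => Real.exp (cubq y / 16)) (gam n) := by
    have h := hexpI (1 / 16) (by norm_num)
    refine h.congr (Filter.Eventually.of_forall fun y => ?_)
    show Real.exp (1 / 16 * cubq y) = Real.exp (cubq y / 16)
    congr 1
    ring
  obtain ⟨I, hI⟩ : ∃ I, I = ∫ y : Fin n → ℝ, Real.exp (cubq y / 16) ∂(gam n) := ⟨_, rfl⟩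
  have hI0 : 0 ≤ I := by rw [hI]; exact integral_nonneg fun y => (Real.exp_pos _).le
  refine ⟨min ρ1 (1 / 256), (2 * C1 * 257 + 4 * 257 * 257 + 257) * I, lt_min hρ1 (by norm_num),
    (min_le_left _ _).trans hρ1', by positivity, ?_⟩
  intro ρ hρ i j hij x hs
  have hρa : |ρ| ≤ ρ1 := hρ.trans (min_le_left _ _)
  have hρb : |ρ| ≤ 1 / 256 := hρ.trans (min_le_right _ _)
  have hρlt := abs_le.mp hρb
  have h0 : -1 < ρ := by linarith [hρlt.1]
  have h1 : ρ < 1 := by linarith [hρlt.2]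
  obtain ⟨hcm, -, -, hcle⟩ := sxc_basic (by omega : 0 < m + 2) a
  have hμ0 : (0 : ℝ) ≤ ((m : ℝ) + 1) / (m + 2) := by positivity
  have hμ1 : ((m : ℝ) + 1) / (m + 2) ≤ 1 := by
    rw [div_le_one (by positivity)]
    linarith
  obtain ⟨μ, hμ⟩ : ∃ μ, μ = ((m : ℝ) + 1) / (m + 2) := ⟨_, rfl⟩
  have hkap : ρ * (kap m * sd a i j x) = ρ * μ * sd a i j x * ∫ y in sxc a i, sd a i j y ∂(gam n) := by
    rw [int_sd m a ha i j hij, hμ]
    field_simp
  have hformula := diff_formula m a ha ρ h0 h1 i j hij x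
  rw [← hμ] at hformula hμ0 hμ1
  rw [hformula, hkap]
  have hcontMK := e4_MKc ρ x
  have hcontS := e4_cont a i j
  have hGm : Continuous (fun y => MK ρ x y *
        (1 - Real.exp (-(ρ * μ * (sd a i j x * sd a i j y) / (1 - ρ ^ 2))))) := by
    apply hcontMK.mul
    apply continuous_const.sub
    apply Real.continuous_exp.comp
    apply Continuous.neg
    apply Continuous.div_const
    exact continuous_const.mul (continuous_const.mul hcontS)
  have hSI : Integrable (sd a i j) (gam n) := by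
    apply (hI16.const_mul 257).mono' hcontS.aestronglyMeasurable
    refine Filter.Eventually.of_forall fun y => ?_
    rw [Real.norm_eq_abs]
    refine (e4_sle m a ha i j hij y).1.trans ?_
    apply mul_le_mul_of_nonneg_left _ (by norm_num)
    apply Real.exp_le_exp.mpr
    have := Pool.Agent.SSC3N.cubq_nonneg y
    linarith
  have hB : Integrable (fun y => (2 * C1 * 257 + 4 * 257 * 257 + 257) * ρ ^ 2 * sd a i j x *
      (Real.exp (cubq x / 16) * Real.exp (cubq y / 16))) (gam n) := by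
    apply Integrable.const_mul
    exact hI16.const_mul _
  have hpt : ∀ y ∈ sxc a i, |MK ρ x y *
        (1 - Real.exp (-(ρ * μ * (sd a i j x * sd a i j y) / (1 - ρ ^ 2)))) -
        ρ * μ * (sd a i j x * sd a i j y)| ≤ (2 * C1 * 257 + 4 * 257 * 257 + 257) * ρ ^ 2 * sd a i j x *
      (Real.exp (cubq x / 16) * Real.exp (cubq y / 16)) := by
    intro y hy
    have hsy : 0 ≤ sd a i j y := by
      have h2 := hcle i y hy j
      unfold sd
      have h3 : ∑ l, (a i l - a j l) * y l = ∑ l, a i l * y l - ∑ l, a j l * y l := by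
        rw [← Finset.sum_sub_distrib]
        exact Finset.sum_congr rfl fun l _ => by ring
      rw [h3]
      linarith
    apply e4_pt C1 ρ μ (sd a i j x) (sd a i j y) (cubq x) (cubq y) (MK ρ x y) hC1 hρb hμ0 hμ1 hs hsy
      (Pool.Agent.SSC3N.cubq_nonneg x) (Pool.Agent.SSC3N.cubq_nonneg y)
      (e4_sq m a ha i j hij x) (e4_sq m a ha i j hij y)
    · have := (e4_sle m a ha i j hij x).1
      rwa [abs_of_nonneg hs] at this
    · have := (e4_sle m a ha i j hij y).1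
      rwa [abs_of_nonneg hsy] at this
    · exact (e4_sle m a ha i j hij y).2
    · exact (hMK ρ hρa x y).2
  have hFI : IntegrableOn (fun y => MK ρ x y *
        (1 - Real.exp (-(ρ * μ * (sd a i j x * sd a i j y) / (1 - ρ ^ 2)))) -
        ρ * μ * (sd a i j x * sd a i j y)) (sxc a i) (gam n) := by
    refine Integrable.mono' hB.integrableOn
      (hGm.sub (continuous_const.mul (continuous_const.mul hcontS))).aestronglyMeasurable ?_
    rw [ae_restrict_iff' (hcm i)]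
    exact Filter.Eventually.of_forall fun y hy => hpt y hy
  have hSI' : IntegrableOn (fun y => ρ * μ * (sd a i j x * sd a i j y)) (sxc a i) (gam n) :=
    ((hSI.const_mul (sd a i j x)).const_mul (ρ * μ)).integrableOn
  have hsum : ∫ y in sxc a i, MK ρ x y *
        (1 - Real.exp (-(ρ * μ * (sd a i j x * sd a i j y) / (1 - ρ ^ 2)))) ∂(gam n) =
      ∫ y in sxc a i, (MK ρ x y *
        (1 - Real.exp (-(ρ * μ * (sd a i j x * sd a i j y) / (1 - ρ ^ 2)))) -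
        ρ * μ * (sd a i j x * sd a i j y)) ∂(gam n) +
      ρ * μ * sd a i j x * ∫ y in sxc a i, sd a i j y ∂(gam n) := by
    have e1 : ρ * μ * sd a i j x * ∫ y in sxc a i, sd a i j y ∂(gam n) =
        ∫ y in sxc a i, ρ * μ * (sd a i j x * sd a i j y) ∂(gam n) := by
      rw [← integral_const_mul]
      exact integral_congr_ae (Filter.Eventually.of_forall fun y => by ring)
    rw [e1, ← integral_add hFI hSI']
    exact integral_congr_ae (Filter.Eventually.of_forall fun y => by ring)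
  rw [hsum, add_sub_cancel_right]
  have hfin := norm_integral_le_of_norm_le (μ := (gam n).restrict (sxc a i)) hB.integrableOn
    (f := fun y => MK ρ x y *
        (1 - Real.exp (-(ρ * μ * (sd a i j x * sd a i j y) / (1 - ρ ^ 2)))) -
        ρ * μ * (sd a i j x * sd a i j y)) (by
      rw [ae_restrict_iff' (hcm i)]
      exact Filter.Eventually.of_forall fun y hy => hpt y hy)
  rw [Real.norm_eq_abs] at hfin
  refine hfin.trans ?_
  have hle : ∫ y in sxc a i, (2 * C1 * 257 + 4 * 257 * 257 + 257) * ρ ^ 2 * sd a i j x *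
      (Real.exp (cubq x / 16) * Real.exp (cubq y / 16)) ∂(gam n) ≤
      ∫ y, (2 * C1 * 257 + 4 * 257 * 257 + 257) * ρ ^ 2 * sd a i j x *
      (Real.exp (cubq x / 16) * Real.exp (cubq y / 16)) ∂(gam n) := by
    apply setIntegral_le_integral hB
    exact Filter.Eventually.of_forall fun y => by positivity
  refine hle.trans (le_of_eq ?_)
  rw [integral_const_mul, integral_const_mul, ← hI]
  ring

end Pool.Agent.SSQ
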