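import Pool.Agent.SSQ.E3

set_option autoImplicit false
open MeasureTheory ProbabilityTheory Set Real

namespace Pool.Agent.SSQ
open Pool.Agent.SSC3N (gam GG TT gam_prob cubq cubi)

theorem e5_openPos (n : ℕ) : (gam n).IsOpenPosMeasure := by
  have h1 : (gaussianReal 0 1).IsOpenPosMeasure :=
    (gaussianReal_absolutelyContinuous' 0 one_ne_zero).isOpenPosMeasure
  unfold gam
  infer_instance

/-- the ball around the vertex `a i` -/
def e5_ball {q n : ℕ} (a : Fin q → Fin n → ℝ) (i : Fin q) : Set (Fin n → ℝ) :=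
  {y | ∑ l, (y l - a i l) ^ 2 < 1 / 64}

theorem e5_ball_open {q n : ℕ} (a : Fin q → Fin n → ℝ) (i : Fin q) : IsOpen (e5_ball a i) := by
  unfold e5_ball
  refine isOpen_lt ?_ continuous_const
  fun_prop

theorem e5_ball_pos {q n : ℕ} (a : Fin q → Fin n → ℝ) (i : Fin q) :
    0 < (gam n).real (e5_ball a i) := by
  have := e5_openPos n
  have := gam_prob n
  have h1 : (gam n) (e5_ball a i) ≠ 0 := by
    refine (e5_ball_open a i).measure_ne_zero _ ⟨a i, ?_⟩
    unfold e5_ball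
    simp
  unfold Measure.real
  exact ENNReal.toReal_pos h1 (measure_ne_top _ _)

theorem e5_cubq {n : ℕ} (a y : Fin n → ℝ) (ha : ∑ l, a l * a l = 1)
    (hy : ∑ l, (y l - a l) ^ 2 < 1 / 64) : cubq y ≤ 2 := by
  have h1 : ∀ l, y l ^ 2 ≤ 3 / 2 * (a l * a l) + 3 * (y l - a l) ^ 2 := by
    intro l
    nlinarith [sq_nonneg (a l - 2 * (y l - a l))]
  have h2 : cubq y ≤ ∑ l, (3 / 2 * (a l * a l) + 3 * (y l - a l) ^ 2) :=
    Finset.sum_le_sum fun l _ => h1 l
  rw [Finset.sum_add_distrib, ← Finset.mul_sum, ← Finset.mul_sum, ha] at h2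
  linarith

theorem e5_sd (m : ℕ) {n : ℕ} (a : Fin (m + 2) → Fin n → ℝ) (ha : IsSx a) (i j : Fin (m + 2))
    (hij : i ≠ j) (y : Fin n → ℝ) (hy : y ∈ e5_ball a i) : 1 / 2 ≤ sd a i j y := by
  have hy' : ∑ l, (y l - a i l) ^ 2 < 1 / 64 := hy
  have hm1 : (0 : ℝ) < (m : ℝ) + 1 := by positivity
  have e1 : ((m + 2 : ℕ) : ℝ) - 1 = (m : ℝ) + 1 := by push_cast; ring
  have hi := ha.1 i
  have hj := ha.1 j
  have hc := ha.2 i j hij
  rw [e1] at hc
  have hc' : -1 ≤ ∑ l, a i l * a j l := by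
    rw [hc, le_div_iff₀ hm1]
    have : (0 : ℝ) ≤ (m : ℝ) := by positivity
    linarith
  have hc'' : ∑ l, a i l * a j l ≤ 0 := by
    rw [hc]
    exact div_nonpos_of_nonpos_of_nonneg (by norm_num) hm1.le
  have hθ : ∑ l, (a i l - a j l) ^ 2 ≤ 4 := by
    have : ∑ l, (a i l - a j l) ^ 2 = ∑ l, a i l * a i l + ∑ l, a j l * a j l
        - 2 * ∑ l, a i l * a j l := by
      rw [Finset.mul_sum, ← Finset.sum_add_distrib, ← Finset.sum_sub_distrib]
      refine Finset.sum_congr rfl fun l _ => ?_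
      ring
    rw [this, hi, hj]
    linarith
  have h1 : ∑ l, (a i l - a j l) * a i l = 1 - ∑ l, a i l * a j l := by
    rw [← hi, ← Finset.sum_sub_distrib]
    refine Finset.sum_congr rfl fun l _ => ?_
    ring
  have h2 : sd a i j y = ∑ l, (a i l - a j l) * a i l + ∑ l, (a i l - a j l) * (y l - a i l) := by
    unfold sd
    rw [← Finset.sum_add_distrib]
    refine Finset.sum_congr rfl fun l _ => ?_
    ring
  have h3 : -(1 / 4) ≤ ∑ l, (a i l - a j l) * (y l - a i l) := by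
    have h4 : ∀ l, -(1 / 32 * (a i l - a j l) ^ 2 + 8 * (y l - a i l) ^ 2) ≤
        (a i l - a j l) * (y l - a i l) := by
      intro l
      nlinarith [sq_nonneg ((a i l - a j l) + 16 * (y l - a i l))]
    have h5 : ∑ l, -(1 / 32 * (a i l - a j l) ^ 2 + 8 * (y l - a i l) ^ 2) ≤
        ∑ l, (a i l - a j l) * (y l - a i l) := Finset.sum_le_sum fun l _ => h4 l
    rw [Finset.sum_neg_distrib, Finset.sum_add_distrib, ← Finset.mul_sum, ← Finset.mul_sum] at h5
    linarith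
  rw [h2, h1]
  linarith

theorem e5_mem (m : ℕ) {n : ℕ} (a : Fin (m + 2) → Fin n → ℝ) (ha : IsSx a) (i : Fin (m + 2)) :
    e5_ball a i ⊆ sxc a i := by
  intro y hy
  have h : ∀ j, j ≠ i → ∑ l, a j l * y l < ∑ l, a i l * y l := by
    intro j hj
    have h1 := e5_sd m a ha i j (Ne.symm hj) y hy
    have h2 : sd a i j y = ∑ l, a i l * y l - ∑ l, a j l * y l := by
      unfold sd
      rw [← Finset.sum_sub_distrib]
      refine Finset.sum_congr rfl fun l _ => ?_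
      ring
    rw [h2] at h1
    linarith
  exact ⟨fun j hj => h j hj.ne, fun j hj => (h j hj.ne').le⟩

theorem e5_MK {n : ℕ} (ρ : ℝ) (hρ : |ρ| ≤ 1 / 16) (x y : Fin n → ℝ) (hy : cubq y ≤ 2) :
    Real.exp (-3) * Real.exp (-(cubq x / 64)) ≤ MK ρ x y := by
  have hρ2 : ρ ^ 2 ≤ 1 / 256 := by
    rw [← sq_abs]
    have := abs_nonneg ρ
    nlinarith
  have h0 := sq_nonneg ρ
  have hX := Pool.Agent.SSC3N.cubq_nonneg x
  have hY := Pool.Agent.SSC3N.cubq_nonneg y
  have hs : 0 < Real.sqrt (1 - ρ ^ 2) := Real.sqrt_pos.2 (by linarith)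
  have hs1 : Real.sqrt (1 - ρ ^ 2) ≤ 1 := by
    rw [Real.sqrt_le_left zero_le_one]
    linarith
  have h1 : 1 ≤ ((Real.sqrt (1 - ρ ^ 2))⁻¹) ^ n := one_le_pow₀ ((one_le_inv₀ hs).2 hs1)
  have hI : -(2 * ρ * cubi x y) ≤ ρ ^ 2 * cubq x + cubq y := by
    unfold cubi cubq
    rw [Finset.mul_sum, Finset.mul_sum, ← Finset.sum_add_distrib, ← Finset.sum_neg_distrib]
    refine Finset.sum_le_sum fun l _ => ?_
    nlinarith [sq_nonneg (ρ * x l + y l)]
  have h2 : -3 + -(cubq x / 64) ≤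
      -(ρ ^ 2 * (cubq x + cubq y) - 2 * ρ * cubi x y) / (2 * (1 - ρ ^ 2)) := by
    rw [le_div_iff₀ (by linarith)]
    have h3 : ρ ^ 2 * cubq x ≤ 1 / 256 * cubq x := mul_le_mul_of_nonneg_right hρ2 hX
    have h4 : ρ ^ 2 * cubq y ≤ 1 / 256 * cubq y := mul_le_mul_of_nonneg_right hρ2 hY
    nlinarith
  have h5 := Real.exp_le_exp.2 h2
  rw [Real.exp_add] at h5
  refine h5.trans ?_
  unfold MK
  exact le_mul_of_one_le_left (Real.exp_pos _).le h1

theorem e5_exp (v : ℝ) (hv : 0 ≤ v) : 1 / 2 * min v 1 ≤ 1 - Real.exp (-v) := by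
  have h1 : Real.exp (-v) ≤ 1 / (1 + v) := by
    rw [Real.exp_neg, ← one_div]
    refine one_div_le_one_div_of_le (by linarith) ?_
    have := Real.add_one_le_exp v
    linarith
  have h2 : 1 / 2 * min v 1 ≤ 1 - 1 / (1 + v) := by
    rw [one_sub_div (by linarith : (1 + v) ≠ 0), le_div_iff₀ (by linarith)]
    rcases le_total v 1 with h | h
    · rw [min_eq_left h]
      nlinarith
    · rw [min_eq_right h]
      linarith
  linarith

theorem e5_core (m : ℕ) {n : ℕ} (a : Fin (m + 2) → Fin n → ℝ) (ha : IsSx a) (ρ : ℝ)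
    (hρ : |ρ| ≤ 1 / 16) (hρ0 : ρ ≠ 0) (i j : Fin (m + 2)) (hij : i ≠ j) (x : Fin n → ℝ)
    (hx : 0 ≤ ρ * sd a i j x) :
    (gam n).real (e5_ball a i) * (Real.exp (-3) / 8) * (|ρ| * (Real.exp (-(cubq x / 64)) *
      min |sd a i j x| 1)) ≤ TT ρ (fst a i) x - TT ρ (fst a j) x := by
  have := gam_prob n
  have hab := abs_le.1 hρ
  have hρ1 : -1 < ρ := by linarith [hab.1]
  have hρ2 : ρ < 1 := by linarith [hab.2]
  have hρs : ρ ^ 2 ≤ 1 / 256 := by
    rw [← sq_abs]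
    have := abs_nonneg ρ
    nlinarith
  have hd : (0 : ℝ) < 1 - ρ ^ 2 := by linarith
  have hρa : 0 < |ρ| := abs_pos.2 hρ0
  set μ : ℝ := ((m : ℝ) + 1) / (m + 2) with hμ
  have hm : (0 : ℝ) ≤ (m : ℝ) := by positivity
  have hμ0 : 1 / 2 ≤ μ := by
    rw [hμ, le_div_iff₀ (by linarith)]
    linarith
  obtain ⟨hms, -, -, hbas⟩ := sxc_basic (by omega : 0 < m + 2) a
  rw [diff_formula m a ha ρ hρ1 hρ2 i j hij x]
  have hsd_nn : ∀ y ∈ sxc a i, 0 ≤ sd a i j y := by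
    intro y hy
    have h1 := hbas i y hy j
    have h2 : sd a i j y = ∑ l, a i l * y l - ∑ l, a j l * y l := by
      unfold sd
      rw [← Finset.sum_sub_distrib]
      refine Finset.sum_congr rfl fun l _ => ?_
      ring
    rw [h2]
    linarith
  let v : (Fin n → ℝ) → ℝ := fun y => ρ * μ * (sd a i j x * sd a i j y) / (1 - ρ ^ 2)
  have hvn : ∀ y ∈ sxc a i, 0 ≤ v y := by
    intro y hy
    have h1 := hsd_nn y hy
    have : v y = ρ * sd a i j x * (μ * sd a i j y) / (1 - ρ ^ 2) := by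
      simp only [v]
      ring
    rw [this]
    have hμn : 0 ≤ μ := by linarith
    positivity
  have hvm : Measurable v := by
    simp only [v]
    unfold sd
    fun_prop
  let g : (Fin n → ℝ) → ℝ := (sxc a i).indicator (fun y => 1 - Real.exp (-(v y)))
  have hgm : Measurable g := by
    refine Measurable.indicator ?_ (hms i)
    exact measurable_const.sub (Real.measurable_exp.comp hvm.neg)
  have hgb : ∀ y, |g y| ≤ 1 := by
    intro y
    simp only [g]
    by_cases hy : y ∈ sxc a i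
    · rw [Set.indicator_of_mem hy]
      have h1 := hvn y hy
      have h2 : Real.exp (-(v y)) ≤ 1 := Real.exp_le_one_iff.2 (by linarith)
      have h3 := Real.exp_pos (-(v y))
      rw [abs_le]
      constructor <;> linarith
    · rw [Set.indicator_of_notMem hy]
      simp
  have hint := (TT_kernel ρ hρ1 hρ2 g hgm 1 hgb x).1
  have e1 : ∫ y in sxc a i, MK ρ x y *
        (1 - Real.exp (-(ρ * μ * (sd a i j x * sd a i j y) / (1 - ρ ^ 2)))) ∂(gam n) =
      ∫ y, MK ρ x y * g y ∂(gam n) := by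
    rw [← integral_indicator (hms i)]
    refine integral_congr_ae (Filter.Eventually.of_forall fun y => ?_)
    simp only [g]
    by_cases hy : y ∈ sxc a i
    · rw [Set.indicator_of_mem hy, Set.indicator_of_mem hy]
    · rw [Set.indicator_of_notMem hy, Set.indicator_of_notMem hy, mul_zero]
  rw [e1]
  have hg0 : ∀ y, 0 ≤ MK ρ x y * g y := by
    intro y
    refine mul_nonneg ((MK_basic ρ hρ1 hρ2).2.1 x y).le ?_
    simp only [g]
    by_cases hy : y ∈ sxc a i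
    · rw [Set.indicator_of_mem hy]
      have h1 := hvn y hy
      have h2 : Real.exp (-(v y)) ≤ 1 := Real.exp_le_one_iff.2 (by linarith)
      linarith
    · rw [Set.indicator_of_notMem hy]
  have e2 : ∫ y in e5_ball a i, MK ρ x y * g y ∂(gam n) ≤ ∫ y, MK ρ x y * g y ∂(gam n) :=
    setIntegral_le_integral hint (Filter.Eventually.of_forall hg0)
  refine le_trans ?_ e2
  have e3 : (gam n).real (e5_ball a i) * (Real.exp (-3) / 8) * (|ρ| * (Real.exp (-(cubq x / 64)) *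
      min |sd a i j x| 1)) = ∫ y in e5_ball a i, (Real.exp (-3) / 8) * (|ρ| *
        (Real.exp (-(cubq x / 64)) * min |sd a i j x| 1)) ∂(gam n) := by
    rw [setIntegral_const, smul_eq_mul]
    ring
  rw [e3]
  refine setIntegral_mono_on (integrable_const _).integrableOn hint.integrableOn
    (e5_ball_open a i).measurableSet ?_
  intro y hy
  have hyc := e5_mem m a ha i hy
  have hy2 := e5_cubq (a i) y (ha.1 i) hy
  have hys := e5_sd m a ha i j hij y hy
  have hMK := e5_MK ρ hρ x y hy2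
  have hgy : g y = 1 - Real.exp (-(v y)) := by
    simp only [g]
    rw [Set.indicator_of_mem hyc]
  rw [hgy]
  have h1 := e5_exp (v y) (hvn y hyc)
  have h2 : |ρ| * |sd a i j x| / 4 ≤ v y := by
    have h3 : v y = (ρ * sd a i j x) * (μ * sd a i j y) / (1 - ρ ^ 2) := by
      simp only [v]
      ring
    have h4 : |ρ| * |sd a i j x| = ρ * sd a i j x := by
      rw [← abs_mul, abs_of_nonneg hx]
    rw [h3, h4, le_div_iff₀ hd]
    have h5 : 1 / 4 ≤ μ * sd a i j y := by nlinarith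
    have h6 : ρ * sd a i j x * (1 / 4) ≤ ρ * sd a i j x * (μ * sd a i j y) :=
      mul_le_mul_of_nonneg_left h5 hx
    have h7 : ρ * sd a i j x / 4 * (1 - ρ ^ 2) ≤ ρ * sd a i j x / 4 * 1 :=
      mul_le_mul_of_nonneg_left (by linarith [sq_nonneg ρ]) (by linarith)
    linarith
  have h8 : |ρ| / 4 * min |sd a i j x| 1 ≤ min (v y) 1 := by
    have hmn : 0 ≤ min |sd a i j x| 1 := le_min (abs_nonneg _) zero_le_one
    refine le_min ?_ ?_
    · refine le_trans ?_ h2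
      have h9 : min |sd a i j x| 1 ≤ |sd a i j x| := min_le_left _ _
      have h10 : |ρ| / 4 * min |sd a i j x| 1 ≤ |ρ| / 4 * |sd a i j x| :=
        mul_le_mul_of_nonneg_left h9 (by positivity)
      linarith
    · have h9 : min |sd a i j x| 1 ≤ 1 := min_le_right _ _
      nlinarith
  have h11 : 1 / 2 * (|ρ| / 4 * min |sd a i j x| 1) ≤ 1 - Real.exp (-(v y)) := by linarith
  have h12 : 0 ≤ 1 / 2 * (|ρ| / 4 * min |sd a i j x| 1) := by
    have hmn : 0 ≤ min |sd a i j x| 1 := le_min (abs_nonneg _) zero_le_one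
    positivity
  have h13 := mul_le_mul hMK h11 h12 ((MK_basic ρ hρ1 hρ2).2.1 x y).le
  refine le_trans (le_of_eq ?_) h13
  ring

/-- [E5] GLOBAL LOWER BOUND FOR THE DIFFERENCE (`σ = ρ/|ρ|`).
PROOF.  `diff_formula`: `σ D = ∫_{sxc a i} MK · σ(1 - e^{-v})`, `v = ρ μ s s'/(1-ρ²)`, `μ = (m+1)/(m+2) ≥ 1/2`,
`s = s_ij(x) ≥ 0`, `s' = s_ij(y) ≥ 0`: the integrand is nonnegative, so restrict to the ball
`Y_i = {y : ∑_l (y_l - a_il)² < 1/64}`: there `⟨a_i - a_j, y⟩ ≥ ⟨a_i-a_j, a_i⟩ - |a_i - a_j|/8 ≥ 1 - 2/8 ≥ 1/2 > 0` for all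
`j ≠ i` (`⟨a_i-a_j,a_i⟩ = 1 + 1/(m+1) ≥ 1`, `|a_i-a_j| ≤ 2`), so `Y_i ⊆ sxc a i`, `s' ≥ 1/2`, `cubq y ≤ 2`, and `gam Y_i > 0`
(nonempty open set).  `MK ρ x y ≥ exp(-(ρ²(X+Y) + 2|ρ||I|)/(2(1-ρ²)))`, `2|ρ||I| ≤ 2|ρ|√X√Y ≤ ρ²X·... `: use
`2|ρ|√X√Y ≤ ρ² X + Y`, so (`|ρ| ≤ 1/2`) `MK ≥ exp(-(4/3)ρ²X - 3) ≥ e^{-3} exp(-X/64)` if `ρ₀² ≤ 1/128`.
`σ(1-e^{-v})`: for `ρ > 0` it is `1 - e^{-|v|} ≥ ½ min(|v|,1)`, for `ρ < 0` it is `e^{|v|} - 1 ≥ |v| ≥ min(|v|,1)`;
`|v| ≥ |ρ| s/4`, so `min(|v|,1) ≥ (|ρ|/4) min(s,1)`. -/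
theorem K3 (m : ℕ) {n : ℕ} (a : Fin (m + 2) → Fin n → ℝ) (ha : IsSx a) : ∃ ρ0 c : ℝ, 0 < ρ0 ∧
    ρ0 ≤ 1 / 2 ∧ 0 < c ∧ ∀ ρ : ℝ, |ρ| ≤ ρ0 → ρ ≠ 0 → ∀ i j, i ≠ j → ∀ x : Fin n → ℝ, 0 ≤ sd a i j x →
      c * |ρ| * (Real.exp (-(cubq x / 64)) * min (sd a i j x) 1) ≤
        ρ / |ρ| * (TT ρ (fst a i) x - TT ρ (fst a j) x) := by
  obtain ⟨i0, hi0⟩ := Finite.exists_min (fun i : Fin (m + 2) => (gam n).real (e5_ball a i))
  refine ⟨1 / 16, (gam n).real (e5_ball a i0) * (Real.exp (-3) / 8), by norm_num, by norm_num,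
    mul_pos (e5_ball_pos a i0) (by positivity), ?_⟩
  intro ρ hρ hρ0 i j hij x hx
  have hswap : sd a j i x = -sd a i j x := by
    unfold sd
    rw [← Finset.sum_neg_distrib]
    refine Finset.sum_congr rfl fun l _ => ?_
    ring
  have hmn : 0 ≤ min (sd a i j x) 1 := le_min hx zero_le_one
  have hmono : ∀ p, (gam n).real (e5_ball a i0) * (Real.exp (-3) / 8) * |ρ| *
      (Real.exp (-(cubq x / 64)) * min (sd a i j x) 1) ≤
      (gam n).real (e5_ball a p) * (Real.exp (-3) / 8) * (|ρ| * (Real.exp (-(cubq x / 64)) *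
      min (sd a i j x) 1)) := by
    intro p
    have h1 := hi0 p
    have h2 : 0 ≤ (Real.exp (-3) / 8) * (|ρ| * (Real.exp (-(cubq x / 64)) *
      min (sd a i j x) 1)) := by positivity
    have h3 := mul_le_mul_of_nonneg_right h1 h2
    calc (gam n).real (e5_ball a i0) * (Real.exp (-3) / 8) * |ρ| *
      (Real.exp (-(cubq x / 64)) * min (sd a i j x) 1) = (gam n).real (e5_ball a i0) *
        ((Real.exp (-3) / 8) * (|ρ| * (Real.exp (-(cubq x / 64)) * min (sd a i j x) 1))) := by ring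
      _ ≤ _ := h3
      _ = _ := by ring
  rcases lt_or_gt_of_ne hρ0 with hneg | hpos
  · have h1 := e5_core m a ha ρ hρ hρ0 j i (Ne.symm hij) x (by rw [hswap]; nlinarith)
    rw [hswap, abs_neg, abs_of_nonneg hx] at h1
    have h2 : ρ / |ρ| = -1 := by
      rw [abs_of_neg hneg, div_neg, div_self hρ0]
    rw [h2]
    have h3 := hmono j
    linarith
  · have h1 := e5_core m a ha ρ hρ hρ0 i j hij x (by positivity)
    rw [abs_of_nonneg hx] at h1
    have h2 : ρ / |ρ| = 1 := by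
      rw [abs_of_pos hpos, div_self hρ0]
    rw [h2]
    have h3 := hmono i
    linarith

end Pool.Agent.SSQ
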