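import Pool.Agent.SSQ.N1

set_option autoImplicit false
open MeasureTheory ProbabilityTheory Set Real

namespace Pool.Agent.SSQ
open Pool.Agent.SSC3N (gam GG TT)

private theorem n3_prob (m : ℕ) : IsProbabilityMeasure (gam m) := by
  unfold gam
  infer_instance

private theorem n3_int_one (p : ℕ) : Integrable (fun v : ℝ => (1 + |v|) ^ p) (gaussianReal 0 1) := by
  have h1 : MemLp (fun v : ℝ => v) (p : ENNReal) (gaussianReal 0 1) :=
    memLp_id_gaussianReal' (μ := 0) (v := 1) (p : ENNReal) (ENNReal.natCast_ne_top p)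
  have h2 : MemLp (fun v : ℝ => 1 + |v|) (p : ENNReal) (gaussianReal 0 1) :=
    (memLp_const (1 : ℝ)).add h1.norm
  have h3 := h2.integrable_norm_pow'
  refine h3.congr (Filter.Eventually.of_forall fun v => ?_)
  show ‖1 + |v|‖ ^ p = (1 + |v|) ^ p
  rw [Real.norm_eq_abs, abs_of_nonneg (by positivity)]

private theorem n3_prod (m : ℕ) (a : Fin m → ℝ) (ha : ∀ l, 0 ≤ a l) :
    1 + ∑ l, a l ≤ ∏ l, (1 + a l) := by
  classical
  have : ∀ s : Finset (Fin m), 1 + ∑ l ∈ s, a l ≤ ∏ l ∈ s, (1 + a l) := by
    intro s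
    induction s using Finset.induction_on with
    | empty => simp
    | insert i s hi ih =>
      rw [Finset.sum_insert hi, Finset.prod_insert hi]
      have h1 := ha i
      have h2 : 0 ≤ ∑ l ∈ s, a l := Finset.sum_nonneg fun l _ => ha l
      nlinarith [mul_nonneg h1 h2, mul_le_mul_of_nonneg_left ih (by linarith : (0:ℝ) ≤ 1 + a i)]
  exact this Finset.univ

/-- [N3a] Splitting off the coordinate `i` (`MeasureTheory.measurePreserving_piFinSuccAbove`). -/
theorem gam_split_mp (k : ℕ) (i : Fin (k + 1)) :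
    MeasurePreserving (fun x : Fin (k + 1) → ℝ => (x i, fun l : Fin k => x (i.succAbove l)))
      (gam (k + 1)) ((gaussianReal 0 1).prod (gam k)) :=
  measurePreserving_piFinSuccAbove (fun _ : Fin (k + 1) => gaussianReal 0 1) i

/-- [N3b] the same for integrals. -/
theorem gam_split (k : ℕ) (i : Fin (k + 1)) (F : ℝ → (Fin k → ℝ) → ℝ)
    (hF : Integrable (Function.uncurry F) ((gaussianReal 0 1).prod (gam k))) :
    ∫ x, F (x i) (fun l => x (i.succAbove l)) ∂(gam (k + 1)) =
      ∫ t, ∫ y, F t y ∂(gam k) ∂(gaussianReal 0 1) := by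
  have := n3_prob k
  have h := gam_split_mp k i
  have h1 : ∫ t, ∫ y, F t y ∂(gam k) ∂(gaussianReal 0 1) =
      ∫ p, Function.uncurry F p ∂((gaussianReal 0 1).prod (gam k)) := (integral_prod _ hF).symm
  rw [h1, ← h.map_eq, integral_map h.measurable.aemeasurable
    (by rw [h.map_eq]; exact hF.aestronglyMeasurable)]
  rfl

private theorem n3_poly (m p : ℕ) :
    Integrable (fun y : Fin m → ℝ => (1 + ∑ l, |y l|) ^ p) (gam m) := by
  have h1 : Integrable (fun y : Fin m → ℝ => ∏ l, (1 + |y l|) ^ p) (gam m) :=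
    Integrable.fintype_prod (f := fun (_ : Fin m) (v : ℝ) => (1 + |v|) ^ p) fun _ => n3_int_one p
  have hm : Measurable (fun y : Fin m → ℝ => (1 + ∑ l, |y l|) ^ p) := by fun_prop
  refine h1.mono' hm.aestronglyMeasurable (Filter.Eventually.of_forall fun y => ?_)
  have h0 : 0 ≤ 1 + ∑ l, |y l| := add_nonneg zero_le_one
    (Finset.sum_nonneg fun l _ => abs_nonneg _)
  rw [Real.norm_eq_abs, abs_of_nonneg (pow_nonneg h0 p), Finset.prod_pow]
  exact pow_le_pow_left₀ h0 (n3_prod m (fun l => |y l|) fun l => abs_nonneg _) p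

private theorem n3_add3 {μ : Measure ℝ} {f g h : ℝ → ℝ} (hf : Integrable f μ)
    (hg : Integrable g μ) (hh : Integrable h μ) :
    ∫ x, (f x + g x + h x) ∂μ = ∫ x, f x ∂μ + ∫ x, g x ∂μ + ∫ x, h x ∂μ := by
  rw [integral_add (f := fun x => f x + g x) (hf.add hg) hh, integral_add hf hg]

private theorem n3_dom_g {f : ℝ → ℝ} (hf : AEStronglyMeasurable f (gaussianReal 0 1)) (K : ℝ)
    (h : ∀ t, |f t| ≤ K * (1 + |t|) ^ 2) : Integrable f (gaussianReal 0 1) :=
  ((n3_int_one 2).const_mul K).mono' hf (Filter.Eventually.of_forall fun t => h t)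

/-- [N3c] the quadratic integral over the box `{y ≤ t}`.
PROOF.  Induction on `m`, splitting off the coordinate `0` (`gam_split` with `i = 0`, `Fin.forall_fin_succ`,
`Fin.sum_univ_succ`): for fixed `y = (y_1, ...)` and `c = ∑_{l≥1} β_l (y_l - t) + μ`,
`∫_{v ≤ t} (β₀ (v - t) + c)² = β₀² Φ(ψ²+w) - 2 β₀ c Φψ + c²Φ = Φ [(c - ψ β₀)² + w β₀²]` (`Ph_basic`, `tail_one`,
`tail_two`), then the induction hypothesis with `μ' = μ - ψ β₀` for the first term and with `β = 0, μ = 1`
(`∫ 1{y ≤ t} = Φ^m`) for the second.  Integrability: quadratic growth. -/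
theorem box_sq (m : ℕ) (β : Fin m → ℝ) (μ t : ℝ) :
    ∫ y, (if ∀ l, y l ≤ t then (∑ l, β l * (y l - t) + μ) ^ 2 else 0) ∂(gam m) =
      Ph t ^ m * ((μ - psi t * ∑ l, β l) ^ 2 + ww t * ∑ l, β l ^ 2) := by
  induction m generalizing μ with
  | zero =>
    have := n3_prob 0
    simp
  | succ m ih =>
    have := n3_prob m
    set B : ℝ := ∑ l, |β l| with hB
    have hB0 : 0 ≤ B := Finset.sum_nonneg fun l _ => abs_nonneg _
    have hBl : ∀ l, |β l| ≤ B := fun l =>
      Finset.single_le_sum (f := fun l => |β l|) (fun l _ => abs_nonneg _) (Finset.mem_univ l)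
    have hBs : B = |β 0| + ∑ l : Fin m, |β l.succ| := by rw [hB, Fin.sum_univ_succ]
    let F : ℝ → (Fin m → ℝ) → ℝ := fun v y => if v ≤ t ∧ ∀ l, y l ≤ t then
      (∑ l : Fin m, β l.succ * (y l - t) + (β 0 * (v - t) + μ)) ^ 2 else 0
    have hF1 : ∀ y : Fin (m + 1) → ℝ,
        (if ∀ l, y l ≤ t then (∑ l, β l * (y l - t) + μ) ^ 2 else 0) =
        F (y 0) (fun l : Fin m => y ((0 : Fin (m + 1)).succAbove l)) := by
      intro y
      simp only [F, Fin.succAbove_zero, Fin.forall_fin_succ, Fin.sum_univ_succ]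
      congr 1
      ring
    have hms : MeasurableSet {p : ℝ × (Fin m → ℝ) | p.1 ≤ t ∧ ∀ l, p.2 l ≤ t} := by
      have h1 : {p : ℝ × (Fin m → ℝ) | p.1 ≤ t ∧ ∀ l, p.2 l ≤ t} =
          {p | p.1 ≤ t} ∩ ⋂ l, {p | p.2 l ≤ t} := by
        ext p
        simp
      rw [h1]
      refine (measurableSet_le measurable_fst measurable_const).inter
        (MeasurableSet.iInter fun l => ?_)
      exact measurableSet_le (by fun_prop) measurable_const
    have hFm : Measurable (Function.uncurry F) := by
      refine Measurable.ite hms ?_ measurable_const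
      fun_prop
    have hFi : Integrable (Function.uncurry F) ((gaussianReal 0 1).prod (gam m)) := by
      have h1 : Integrable (fun p : ℝ × (Fin m → ℝ) =>
          (1 + |p.1|) ^ 2 * (1 + ∑ l, |p.2 l|) ^ 2) ((gaussianReal 0 1).prod (gam m)) :=
        (n3_int_one 2).mul_prod (n3_poly m 2)
      refine (h1.const_mul ((B + 2 * B * |t| + |μ|) ^ 2)).mono' hFm.aestronglyMeasurable
        (Filter.Eventually.of_forall ?_)
      rintro ⟨v, y⟩
      show |F v y| ≤ (B + 2 * B * |t| + |μ|) ^ 2 * ((1 + |v|) ^ 2 * (1 + ∑ l, |y l|) ^ 2)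
      have hY : 0 ≤ ∑ l, |y l| := Finset.sum_nonneg fun l _ => abs_nonneg _
      have hv := abs_nonneg v
      have ht := abs_nonneg t
      have hμ := abs_nonneg μ
      have hkey : |∑ l : Fin m, β l.succ * (y l - t) + (β 0 * (v - t) + μ)| ≤
          (B + 2 * B * |t| + |μ|) * ((1 + |v|) * (1 + ∑ l, |y l|)) := by
        have e1 : |∑ l : Fin m, β l.succ * (y l - t)| ≤ B * (∑ l, |y l|) + B * |t| := by
          calc |∑ l : Fin m, β l.succ * (y l - t)| ≤ ∑ l : Fin m, |β l.succ * (y l - t)| :=
                Finset.abs_sum_le_sum_abs _ _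
            _ ≤ ∑ l : Fin m, (B * |y l| + |β l.succ| * |t|) := by
                refine Finset.sum_le_sum fun l _ => ?_
                rw [abs_mul]
                have h2 : |y l - t| ≤ |y l| + |t| := abs_sub _ _
                have h3 := hBl l.succ
                have h4 := abs_nonneg (β l.succ)
                have h5 := abs_nonneg (y l)
                nlinarith [mul_le_mul_of_nonneg_left h2 h4, mul_le_mul_of_nonneg_right h3 h5]
            _ = B * (∑ l, |y l|) + (∑ l : Fin m, |β l.succ|) * |t| := by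
                rw [Finset.sum_add_distrib, Finset.mul_sum, Finset.sum_mul]
            _ ≤ B * (∑ l, |y l|) + B * |t| := by
                have h2 : ∑ l : Fin m, |β l.succ| ≤ B := by
                  rw [hBs]
                  linarith [abs_nonneg (β 0)]
                have := mul_le_mul_of_nonneg_right h2 ht
                linarith
        have e2 : |β 0 * (v - t)| ≤ B * |v| + B * |t| := by
          rw [abs_mul]
          have h2 : |v - t| ≤ |v| + |t| := abs_sub _ _
          have h3 := hBl 0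
          have h4 := abs_nonneg (β 0)
          nlinarith [mul_le_mul_of_nonneg_left h2 h4, mul_le_mul_of_nonneg_right h3 hv,
            mul_le_mul_of_nonneg_right h3 ht]
        have e3 : |∑ l : Fin m, β l.succ * (y l - t) + (β 0 * (v - t) + μ)| ≤
            |∑ l : Fin m, β l.succ * (y l - t)| + (|β 0 * (v - t)| + |μ|) :=
          (abs_add_le _ _).trans (by linarith [abs_add_le (β 0 * (v - t)) μ])
        have e4 : 0 ≤ |v| * ∑ l, |y l| := mul_nonneg hv hY
        have e5 : 0 ≤ B * |t| := mul_nonneg hB0 ht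
        have e6 : (B + 2 * B * |t| + |μ|) * ((1 + |v|) * (1 + ∑ l, |y l|)) =
            B * (∑ l, |y l|) + B * |v| + 2 * (B * |t|) + |μ| +
            (B + B * (|v| * ∑ l, |y l|) + (2 * (B * |t|) + |μ|) *
              (|v| + ∑ l, |y l| + |v| * ∑ l, |y l|)) := by ring
        have e7 : 0 ≤ B + B * (|v| * ∑ l, |y l|) + (2 * (B * |t|) + |μ|) *
              (|v| + ∑ l, |y l| + |v| * ∑ l, |y l|) := by positivity
        rw [e6]
        linarith
      have h6 : (B + 2 * B * |t| + |μ|) ^ 2 * ((1 + |v|) ^ 2 * (1 + ∑ l, |y l|) ^ 2) =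
          ((B + 2 * B * |t| + |μ|) * ((1 + |v|) * (1 + ∑ l, |y l|))) ^ 2 := by ring
      rw [h6]
      simp only [F]
      split_ifs
      · rw [abs_of_nonneg (sq_nonneg _), ← sq_abs]
        exact pow_le_pow_left₀ (abs_nonneg _) hkey 2
      · rw [abs_zero]
        positivity
    rw [integral_congr_ae (Filter.Eventually.of_forall hF1), gam_split m 0 F hFi]
    -- the inner integral
    set S : ℝ := ∑ l : Fin m, β l.succ with hS
    set S2 : ℝ := ∑ l : Fin m, β l.succ ^ 2 with hS2
    have hin : ∀ v, ∫ y, F v y ∂(gam m) =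
        Ph t ^ m * β 0 ^ 2 * (if v ≤ t then (v - t) ^ 2 else 0) +
        Ph t ^ m * (2 * β 0 * (μ - psi t * S)) * (if v ≤ t then v - t else 0) +
        Ph t ^ m * ((μ - psi t * S) ^ 2 + ww t * S2) * (if v ≤ t then (1 : ℝ) else 0) := by
      intro v
      by_cases hv : v ≤ t
      · simp only [F, hv, true_and, if_true]
        rw [ih (fun l => β l.succ) (β 0 * (v - t) + μ)]
        ring
      · simp only [F, hv, false_and, if_false, integral_zero, mul_zero, add_zero]
    rw [integral_congr_ae (Filter.Eventually.of_forall hin)]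
    have hm : MeasurableSet {v : ℝ | v ≤ t} := measurableSet_Iic
    have i1 : Integrable (fun v : ℝ => if v ≤ t then (v - t) ^ 2 else 0) (gaussianReal 0 1) := by
      refine n3_dom_g ?_ ((1 + |t|) ^ 2) fun v => ?_
      · exact (Measurable.ite hm (by fun_prop) (by fun_prop)).aestronglyMeasurable
      · split_ifs
        · rw [abs_of_nonneg (sq_nonneg _), ← sq_abs, ← mul_pow]
          refine pow_le_pow_left₀ (abs_nonneg _) ?_ 2
          have h2 : |v - t| ≤ |v| + |t| := abs_sub _ _
          nlinarith [abs_nonneg v, abs_nonneg t, mul_nonneg (abs_nonneg v) (abs_nonneg t)]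
        · rw [abs_zero]; positivity
    have i2 : Integrable (fun v : ℝ => if v ≤ t then v - t else 0) (gaussianReal 0 1) := by
      refine n3_dom_g ?_ (1 + |t|) fun v => ?_
      · exact (Measurable.ite hm (by fun_prop) (by fun_prop)).aestronglyMeasurable
      · split_ifs
        · have h2 : |v - t| ≤ |v| + |t| := abs_sub _ _
          have h3 := abs_nonneg v
          have h4 := abs_nonneg t
          have h5 : (1 + |t|) * (1 + |v|) ^ 2 = |v| + |t| + (1 + |v| + |v| ^ 2 +
            |t| * (2 * |v| + |v| ^ 2)) := by ring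
          rw [h5]
          have h6 : 0 ≤ 1 + |v| + |v| ^ 2 + |t| * (2 * |v| + |v| ^ 2) := by positivity
          linarith
        · rw [abs_zero]; positivity
    have i3 : Integrable (fun v : ℝ => if v ≤ t then (1 : ℝ) else 0) (gaussianReal 0 1) := by
      refine n3_dom_g ?_ 1 fun v => ?_
      · exact (Measurable.ite hm (by fun_prop) (by fun_prop)).aestronglyMeasurable
      · split_ifs
        · rw [abs_one]; nlinarith [abs_nonneg v]
        · rw [abs_zero]; positivity
    rw [n3_add3 (i1.const_mul _) (i2.const_mul _) (i3.const_mul _), integral_const_mul,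
      integral_const_mul, integral_const_mul, tail_one, tail_two, Ph_basic.2.2.2.2.2,
      Fin.sum_univ_succ, Fin.sum_univ_succ, ← hS, ← hS2]
    ring

/-- [N3d] polynomial growth is integrable. -/
theorem gam_poly (m p : ℕ) : Integrable (fun y : Fin m → ℝ => (1 + ∑ l, |y l|) ^ p) (gam m) :=
  n3_poly m p

end Pool.Agent.SSQ
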