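import Pool.Agent.SSQ.E2
import Pool.Agent.SSQ.N3

set_option autoImplicit false
open MeasureTheory ProbabilityTheory Set Real

namespace Pool.Agent.SSQ
open Pool.Agent.SSC3N (gam GG TT gam_prob cubq cubi)

/-- exponent of the `k`-th layer -/
noncomputable def e6_w (k : ℕ) : ℝ := Real.exp (((k : ℝ) + 1) ^ 2 / 16 - 3 * (k : ℝ) ^ 2 / 8)

theorem e6_summable : Summable e6_w := by
  have h1 : Summable (fun k : ℕ => Real.exp (1 / 8) * Real.exp ((k : ℝ) * (-(1 / 4)))) :=
    (Real.summable_exp_nat_mul_iff.mpr (by norm_num)).mul_left _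
  refine Summable.of_nonneg_of_le (fun k => (Real.exp_pos _).le) (fun k => ?_) h1
  unfold e6_w
  rw [← Real.exp_add]
  refine Real.exp_le_exp.2 ?_
  have h2 : (0 : ℝ) ≤ (k : ℝ) := by positivity
  have h3 : (k : ℝ) ≤ (k : ℝ) ^ 2 := by
    rcases Nat.eq_zero_or_pos k with h | h
    · subst h
      simp
    · have : (1 : ℝ) ≤ (k : ℝ) := by exact_mod_cast h
      nlinarith
  nlinarith [sq_nonneg ((k : ℝ) - 1)]

theorem e6_vol (θ b T : ℝ) (hθ : θ ≠ 0) (hT : 0 ≤ T) :
    volume {r : ℝ | |θ * r + b| < T} ≤ ENNReal.ofReal (2 * T / |θ|) := by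
  have hθa : 0 < |θ| := abs_pos.2 hθ
  have h1 : {r : ℝ | |θ * r + b| < T} ⊆ Set.Ioo (-b / θ - T / |θ|) (-b / θ + T / |θ|) := by
    intro r hr
    have hr' : |θ * r + b| < T := hr
    have h2 : |r - (-b / θ)| < T / |θ| := by
      rw [lt_div_iff₀ hθa, ← abs_mul]
      have : (r - -b / θ) * θ = θ * r + b := by
        field_simp
        ring
      rw [this]
      exact hr'
    rw [abs_lt] at h2
    constructor <;> linarith [h2.1, h2.2]
  refine (measure_mono h1).trans ?_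
  rw [Real.volume_Ioo]
  refine ENNReal.ofReal_le_ofReal (le_of_eq ?_)
  ring

theorem e6_layer (θ b τ : ℝ) (hθ : θ ≠ 0) (hτ : 0 ≤ τ) :
    ∫⁻ r, ENNReal.ofReal (if |θ * r + b| < τ * Real.exp (r ^ 2 / 16) then Real.exp (r ^ 2 / 8) else 0)
      ∂(gaussianReal 0 1) ≤ ENNReal.ofReal ((2 * ∑' k, e6_w k) * τ / |θ|) := by
  have hθa : 0 < |θ| := abs_pos.2 hθ
  have hmF : Measurable (fun r : ℝ => ENNReal.ofReal
      (if |θ * r + b| < τ * Real.exp (r ^ 2 / 16) then Real.exp (r ^ 2 / 8) else 0)) := by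
    refine ENNReal.measurable_ofReal.comp ?_
    refine Measurable.ite ?_ (by fun_prop) measurable_const
    exact measurableSet_lt (by fun_prop) (by fun_prop)
  rw [gaussianReal_of_var_ne_zero 0 one_ne_zero,
    lintegral_withDensity_eq_lintegral_mul _ (measurable_gaussianPDF 0 1) hmF]
  let S : ℕ → Set ℝ := fun k => {r : ℝ | |θ * r + b| < τ * Real.exp (((k : ℝ) + 1) ^ 2 / 16)}
  let G : ℕ → ℝ → ENNReal := fun k => (S k).indicator
    (fun _ => ENNReal.ofReal (Real.exp (-(3 * (k : ℝ) ^ 2 / 8))))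
  have hSm : ∀ k, MeasurableSet (S k) := fun k =>
    measurableSet_lt (by fun_prop) measurable_const
  have hGm : ∀ k, Measurable (G k) := fun k => measurable_const.indicator (hSm k)
  have h1 : ∀ r : ℝ, (gaussianPDF 0 1 * fun r : ℝ => ENNReal.ofReal
      (if |θ * r + b| < τ * Real.exp (r ^ 2 / 16) then Real.exp (r ^ 2 / 8) else 0)) r ≤
      ∑' k, G k r := by
    intro r
    rw [Pi.mul_apply]
    by_cases hr : |θ * r + b| < τ * Real.exp (r ^ 2 / 16)
    · refine le_trans ?_ (ENNReal.le_tsum ⌊|r|⌋₊)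
      rw [if_pos hr]
      have hk1 : ((⌊|r|⌋₊ : ℕ) : ℝ) ≤ |r| := Nat.floor_le (abs_nonneg r)
      have hk2 : |r| < ((⌊|r|⌋₊ : ℕ) : ℝ) + 1 := Nat.lt_floor_add_one |r|
      set k := ⌊|r|⌋₊ with hk
      have hk0 : (0 : ℝ) ≤ (k : ℝ) := by positivity
      have hmem : r ∈ S k := by
        show |θ * r + b| < τ * Real.exp (((k : ℝ) + 1) ^ 2 / 16)
        refine lt_of_lt_of_le hr (mul_le_mul_of_nonneg_left (Real.exp_le_exp.2 ?_) hτ)
        have : r ^ 2 ≤ ((k : ℝ) + 1) ^ 2 := by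
          rw [← sq_abs r]
          have := abs_nonneg r
          nlinarith
        linarith
      simp only [G]
      rw [Set.indicator_of_mem hmem]
      unfold gaussianPDF
      rw [← ENNReal.ofReal_mul (gaussianPDFReal_nonneg 0 1 r)]
      refine ENNReal.ofReal_le_ofReal ?_
      unfold gaussianPDFReal
      have h2 : (Real.sqrt (2 * π * ((1 : NNReal) : ℝ)))⁻¹ ≤ 1 := by
        rw [inv_le_one_iff₀]
        right
        rw [Real.one_le_sqrt]
        have := Real.pi_gt_three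
        simp only [NNReal.coe_one]
        linarith
      have h3 : Real.exp (-(r - 0) ^ 2 / (2 * ((1 : NNReal) : ℝ))) * Real.exp (r ^ 2 / 8) ≤
          Real.exp (-(3 * (k : ℝ) ^ 2 / 8)) := by
        rw [← Real.exp_add]
        refine Real.exp_le_exp.2 ?_
        have h4 : (k : ℝ) ^ 2 ≤ r ^ 2 := by
          rw [← sq_abs r]
          have := abs_nonneg r
          nlinarith
        simp only [NNReal.coe_one]
        linarith
      have h5 : 0 ≤ Real.exp (-(r - 0) ^ 2 / (2 * ((1 : NNReal) : ℝ))) * Real.exp (r ^ 2 / 8) := by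
        positivity
      calc (Real.sqrt (2 * π * ((1 : NNReal) : ℝ)))⁻¹ *
          Real.exp (-(r - 0) ^ 2 / (2 * ((1 : NNReal) : ℝ))) * Real.exp (r ^ 2 / 8)
          = (Real.sqrt (2 * π * ((1 : NNReal) : ℝ)))⁻¹ *
          (Real.exp (-(r - 0) ^ 2 / (2 * ((1 : NNReal) : ℝ))) * Real.exp (r ^ 2 / 8)) := by ring
        _ ≤ 1 * (Real.exp (-(r - 0) ^ 2 / (2 * ((1 : NNReal) : ℝ))) * Real.exp (r ^ 2 / 8)) :=
          mul_le_mul_of_nonneg_right h2 h5
        _ ≤ _ := by rw [one_mul]; exact h3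
    · rw [if_neg hr, ENNReal.ofReal_zero, mul_zero]
      exact zero_le
  refine (lintegral_mono h1).trans ?_
  rw [lintegral_tsum fun k => (hGm k).aemeasurable]
  have h2 : ∀ k, ∫⁻ r, G k r ≤ ENNReal.ofReal (2 * τ / |θ| * e6_w k) := by
    intro k
    simp only [G]
    rw [lintegral_indicator_const (hSm k)]
    have h3 := e6_vol θ b (τ * Real.exp (((k : ℝ) + 1) ^ 2 / 16)) hθ (by positivity)
    refine (mul_le_mul_right h3 _).trans ?_
    rw [← ENNReal.ofReal_mul (Real.exp_pos _).le]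
    refine ENNReal.ofReal_le_ofReal (le_of_eq ?_)
    unfold e6_w
    have : Real.exp (((k : ℝ) + 1) ^ 2 / 16 - 3 * (k : ℝ) ^ 2 / 8) =
      Real.exp (((k : ℝ) + 1) ^ 2 / 16) * Real.exp (-(3 * (k : ℝ) ^ 2 / 8)) := by
      rw [← Real.exp_add]
      congr 1
    rw [this]
    ring
  refine (ENNReal.tsum_le_tsum h2).trans ?_
  have h3 : ∀ k, 0 ≤ 2 * τ / |θ| * e6_w k := fun k =>
    mul_nonneg (by positivity) (Real.exp_pos _).le
  rw [← ENNReal.ofReal_tsum_of_nonneg h3 (e6_summable.mul_left _), tsum_mul_left]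
  refine ENNReal.ofReal_le_ofReal (le_of_eq ?_)
  ring

/-- [E6a] one variable.  `e^{r²/8} φ(r) = e^{-3r²/8}/√(2π)` and `e^{-3r²/8} = ∫_{|r|}^∞ (3/4) v e^{-3v²/8} dv`; for fixed `v` the
set `{|r| < v, |θ r + b| < τ e^{r²/16}} ⊆ {|θ r + b| < τ e^{v²/16}}` has length `≤ 2τ e^{v²/16}/|θ|`; so the integral is
`≤ (2π)^{-1/2} ∫_0^∞ (3/4) v e^{-3v²/8} 2τ e^{v²/16}/|θ| dv = C τ/|θ|`.  (Alternative: sum over `k ≤ |r| < k+1`: the part of
the set there has length `≤ 4τ e^{(k+1)²/16}/|θ|`, the density is `≤ e^{-3k²/8}`.) -/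
theorem BB1 : ∃ C : ℝ, 0 ≤ C ∧ ∀ θ b τ : ℝ, θ ≠ 0 → 0 ≤ τ →
    ∫ r, (if |θ * r + b| < τ * Real.exp (r ^ 2 / 16) then Real.exp (r ^ 2 / 8) else 0)
      ∂(gaussianReal 0 1) ≤ C * τ / |θ| := by
  have hs : 0 ≤ ∑' k, e6_w k := tsum_nonneg fun k => (Real.exp_pos _).le
  refine ⟨2 * ∑' k, e6_w k, by positivity, fun θ b τ hθ hτ => ?_⟩
  have hmF : Measurable (fun r : ℝ =>
      (if |θ * r + b| < τ * Real.exp (r ^ 2 / 16) then Real.exp (r ^ 2 / 8) else 0)) := by
    refine Measurable.ite ?_ (by fun_prop) measurable_const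
    exact measurableSet_lt (by fun_prop) (by fun_prop)
  rw [integral_eq_lintegral_of_nonneg_ae]
  · exact ENNReal.toReal_le_of_le_ofReal (by positivity) (e6_layer θ b τ hθ hτ)
  · refine Filter.Eventually.of_forall fun r => ?_
    show (0 : ℝ) ≤ if |θ * r + b| < τ * Real.exp (r ^ 2 / 16) then Real.exp (r ^ 2 / 8) else 0
    split_ifs
    · exact (Real.exp_pos _).le
    · exact le_rfl
  · exact hmF.aestronglyMeasurable

/-- [E6b] several variables.  Choose `l₀` with `θ_{l₀} ≠ 0` (`n = n'+1`), split off this coordinate (`gam_split`): for fixed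
other coordinates `y` (`Y = ∑ y²`) `BB1` with `b = ∑_{l≠l₀} θ_l y_l`, `τ = t e^{Y/16}` gives
`≤ C t e^{Y/16} e^{Y/8}/|θ_{l₀}|`, integrable in `y` (`exp_mom`, `3/16 ≤ 1/4`). -/
theorem BB0 {n : ℕ} (θ : Fin n → ℝ) (hθ : θ ≠ 0) : ∃ C : ℝ, 0 ≤ C ∧ ∀ t : ℝ, 0 ≤ t →
    ∫ x, (if |∑ l, θ l * x l| < t * Real.exp (cubq x / 16) then Real.exp (cubq x / 8) else 0)
      ∂(gam n) ≤ C * t := by
  obtain ⟨l0, hl0⟩ : ∃ l0, θ l0 ≠ 0 := by
    by_contra hcon
    push Not at hcon
    exact hθ (funext hcon)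
  obtain ⟨k, rfl⟩ : ∃ k, n = k + 1 := ⟨n - 1, by have := l0.pos; omega⟩
  obtain ⟨C, hC, hB⟩ := BB1
  have hθa : 0 < |θ l0| := abs_pos.2 hl0
  have := gam_prob k
  set M : ℝ := ∫ y : Fin k → ℝ, Real.exp (3 / 16 * cubq y) ∂(gam k) with hM
  have hM0 : 0 ≤ M := integral_nonneg fun y => (Real.exp_pos _).le
  have hMi : Integrable (fun y : Fin k → ℝ => Real.exp (3 / 16 * cubq y)) (gam k) :=
    (exp_mom k).1 (3 / 16) (by norm_num)
  refine ⟨C / |θ l0| * M, by positivity, fun t ht => ?_⟩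
  let F : ℝ → (Fin k → ℝ) → ℝ := fun r y =>
    if |θ l0 * r + ∑ l, θ (l0.succAbove l) * y l| < t * Real.exp ((r ^ 2 + cubq y) / 16) then
      Real.exp ((r ^ 2 + cubq y) / 8) else 0
  have hcq : ∀ x : Fin (k + 1) → ℝ, cubq x = x l0 ^ 2 + cubq (fun l : Fin k => x (l0.succAbove l)) := by
    intro x
    unfold cubq
    rw [Fin.sum_univ_succAbove _ l0]
  have hFx : ∀ x : Fin (k + 1) → ℝ,
      (if |∑ l, θ l * x l| < t * Real.exp (cubq x / 16) then Real.exp (cubq x / 8) else 0) =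
      F (x l0) (fun l : Fin k => x (l0.succAbove l)) := by
    intro x
    simp only [F]
    rw [hcq x, Fin.sum_univ_succAbove _ l0]
  have hcm : Measurable (cubq (m := k)) := Pool.Agent.SSC3N.cubq_measurable
  have hcm2 : Measurable (fun p : ℝ × (Fin k → ℝ) => cubq p.2) := hcm.comp measurable_snd
  have hFm : Measurable (Function.uncurry F) := by
    refine Measurable.ite (measurableSet_lt ?_ ?_) ?_ measurable_const
    · fun_prop
    · fun_prop
    · fun_prop
  have hFi : Integrable (Function.uncurry F) ((gaussianReal 0 1).prod (gam k)) := by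
    have h1 : Integrable (fun p : ℝ × (Fin k → ℝ) => Real.exp (p.1 ^ 2 / 4) *
        Real.exp (cubq p.2 / 4)) ((gaussianReal 0 1).prod (gam k)) :=
      Pool.Agent.SSC3N.cub_exp1.mul_prod Pool.Agent.SSC3N.cub_exp
    refine h1.mono' hFm.aestronglyMeasurable (Filter.Eventually.of_forall fun p => ?_)
    obtain ⟨r, y⟩ := p
    simp only [Function.uncurry, F]
    have hY := Pool.Agent.SSC3N.cubq_nonneg y
    split_ifs
    · rw [Real.norm_eq_abs, abs_of_pos (Real.exp_pos _), ← Real.exp_add]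
      refine Real.exp_le_exp.2 ?_
      nlinarith [sq_nonneg r]
    · rw [norm_zero]
      positivity
  have e1 : ∫ x, (if |∑ l, θ l * x l| < t * Real.exp (cubq x / 16) then Real.exp (cubq x / 8) else 0)
      ∂(gam (k + 1)) = ∫ r, ∫ y, F r y ∂(gam k) ∂(gaussianReal 0 1) := by
    rw [← gam_split k l0 F hFi]
    exact integral_congr_ae (Filter.Eventually.of_forall hFx)
  rw [e1, integral_integral_swap hFi]
  have h2 : ∀ y : Fin k → ℝ, ∫ r, F r y ∂(gaussianReal 0 1) ≤
      C * t / |θ l0| * Real.exp (3 / 16 * cubq y) := by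
    intro y
    have h3 : ∀ r, F r y = Real.exp (cubq y / 8) *
        (if |θ l0 * r + ∑ l, θ (l0.succAbove l) * y l| <
          (t * Real.exp (cubq y / 16)) * Real.exp (r ^ 2 / 16) then Real.exp (r ^ 2 / 8) else 0) := by
      intro r
      simp only [F]
      have h4 : t * Real.exp ((r ^ 2 + cubq y) / 16) =
          (t * Real.exp (cubq y / 16)) * Real.exp (r ^ 2 / 16) := by
        rw [mul_assoc, ← Real.exp_add]
        congr 2
        ring
      rw [h4]
      split_ifs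
      · rw [← Real.exp_add]
        congr 1
        ring
      · rw [mul_zero]
    simp only [h3]
    rw [integral_const_mul]
    have h5 := hB (θ l0) (∑ l, θ (l0.succAbove l) * y l) (t * Real.exp (cubq y / 16)) hl0
      (by positivity)
    refine (mul_le_mul_of_nonneg_left h5 (Real.exp_pos _).le).trans (le_of_eq ?_)
    have h6 : Real.exp (3 / 16 * cubq y) = Real.exp (cubq y / 8) * Real.exp (cubq y / 16) := by
      rw [← Real.exp_add]
      congr 1
      ring
    rw [h6]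
    ring
  have h7 : ∫ y, ∫ r, F r y ∂(gaussianReal 0 1) ∂(gam k) ≤
      ∫ y, C * t / |θ l0| * Real.exp (3 / 16 * cubq y) ∂(gam k) :=
    integral_mono hFi.integral_prod_right (hMi.const_mul _) h2
  rw [integral_const_mul] at h7
  refine h7.trans (le_of_eq ?_)
  ring

end Pool.Agent.SSQ
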