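import Pool.Agent.SSQ.E6

set_option autoImplicit false
open MeasureTheory ProbabilityTheory Set Real

namespace Pool.Agent.SSQ
open Pool.Agent.SSC3N (gam GG TT gam_prob cubq cubi)

theorem e6c_opt (A J P : ℝ) (hA : 0 ≤ A) (hJ : 0 ≤ J) (hP : 0 < P)
    (h : ∀ t : ℝ, 0 < t → A ≤ J / t + P * t) : A ^ 2 ≤ 4 * P * J := by
  rcases hA.eq_or_lt with h0 | h0
  · rw [← h0]
    have := mul_nonneg hP.le hJ
    nlinarith
  · have h1 := h (A / (2 * P)) (by positivity)
    have h2 : J / (A / (2 * P)) + P * (A / (2 * P)) = 2 * P * J / A + A / 2 := by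
      field_simp
    rw [h2] at h1
    have h3 : A / 2 ≤ 2 * P * J / A := by linarith
    rw [le_div_iff₀ h0] at h3
    nlinarith

/-- pointwise inequality -/
theorem e6c_point (g s X η R t : ℝ) (hη : 0 ≤ η) (hη2 : η ≤ 1 / 64) (ht : 0 < t)
    (hX : 0 ≤ X) (hg0 : 0 ≤ g) (hg1 : g ≤ 1) (hg : g ≠ 0 → 0 ≤ s ∧ R ≤ X) :
    g * Real.exp (X / 32) ≤ 1 / t * (g * (Real.exp (-(η * X)) * min s 1)) +
      Real.exp (-(R / 32)) * ((if |s| < t * Real.exp (X / 16) then Real.exp (X / 8) else 0) +
        t * Real.exp (1 / 4 * X)) := by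
  have hB0 : 0 ≤ (if |s| < t * Real.exp (X / 16) then Real.exp (X / 8) else 0) := by
    split_ifs
    · exact (Real.exp_pos _).le
    · exact le_rfl
  rcases hg0.eq_or_lt with h0 | h0
  · rw [← h0]
    have : 0 ≤ Real.exp (-(R / 32)) * ((if |s| < t * Real.exp (X / 16) then Real.exp (X / 8) else 0) +
        t * Real.exp (1 / 4 * X)) := by positivity
    simpa using this
  · obtain ⟨hs, hR⟩ := hg h0.ne'
    have hmn : 0 ≤ min s 1 := le_min hs zero_le_one
    set W : ℝ := Real.exp ((1 / 32 + η) * X) with hW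
    have hWle : W ≤ Real.exp (X / 16) := Real.exp_le_exp.2 (by nlinarith)
    have hWpos : 0 < W := Real.exp_pos _
    have e1 : Real.exp (X / 32) = Real.exp (-(η * X)) * W := by
      rw [hW, ← Real.exp_add]
      congr 1
      ring
    have hηe : Real.exp (-(η * X)) ≤ 1 := Real.exp_le_one_iff.2 (by
      have := mul_nonneg hη hX
      linarith)
    have hηp : 0 < Real.exp (-(η * X)) := Real.exp_pos _
    have hfirst : 0 ≤ 1 / t * (g * (Real.exp (-(η * X)) * min s 1)) := by positivity
    have hsecond : 0 ≤ Real.exp (-(R / 32)) *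
        ((if |s| < t * Real.exp (X / 16) then Real.exp (X / 8) else 0) +
        t * Real.exp (1 / 4 * X)) := by positivity
    by_cases hc : t * W ≤ min s 1
    · have h1 : g * Real.exp (X / 32) ≤ 1 / t * (g * (Real.exp (-(η * X)) * min s 1)) := by
        rw [e1]
        have h2 : W ≤ 1 / t * min s 1 := by
          rw [one_div, ← div_eq_inv_mul, le_div_iff₀ ht]
          linarith
        have h3 : g * Real.exp (-(η * X)) * W ≤ g * Real.exp (-(η * X)) * (1 / t * min s 1) :=
          mul_le_mul_of_nonneg_left h2 (by positivity)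
        calc g * (Real.exp (-(η * X)) * W) = g * Real.exp (-(η * X)) * W := by ring
          _ ≤ _ := h3
          _ = _ := by ring
      linarith
    · have hc' : min s 1 < t * Real.exp (X / 16) :=
        lt_of_lt_of_le (not_le.1 hc) (mul_le_mul_of_nonneg_left hWle ht.le)
      have h1 : g * Real.exp (X / 32) ≤ Real.exp (X / 16) := by
        have h2 : Real.exp (X / 32) ≤ Real.exp (X / 16) := Real.exp_le_exp.2 (by linarith)
        have h3 := Real.exp_pos (X / 32)
        nlinarith
      have h4 : Real.exp (X / 16) ≤ Real.exp (-(R / 32)) *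
          ((if |s| < t * Real.exp (X / 16) then Real.exp (X / 8) else 0) +
          t * Real.exp (1 / 4 * X)) := by
        rcases min_lt_iff.1 hc' with h5 | h5
        · rw [if_pos (by rw [abs_of_nonneg hs]; exact h5), mul_add]
          have h6 : Real.exp (X / 16) ≤ Real.exp (-(R / 32)) * Real.exp (X / 8) := by
            rw [← Real.exp_add]
            refine Real.exp_le_exp.2 ?_
            linarith
          have h7 : 0 ≤ Real.exp (-(R / 32)) * (t * Real.exp (1 / 4 * X)) := by positivity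
          linarith
        · have h6 : Real.exp (X / 16) ≤ t * Real.exp (X / 8) := by
            have h8 : Real.exp (X / 8) = Real.exp (X / 16) * Real.exp (X / 16) := by
              rw [← Real.exp_add]
              congr 1
              ring
            rw [h8]
            have h9 := Real.exp_pos (X / 16)
            nlinarith
          have h7 : t * Real.exp (X / 8) ≤ Real.exp (-(R / 32)) * (t * Real.exp (1 / 4 * X)) := by
            have h8 : Real.exp (X / 8) ≤ Real.exp (-(R / 32)) * Real.exp (1 / 4 * X) := by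
              rw [← Real.exp_add]
              refine Real.exp_le_exp.2 ?_
              linarith
            have h9 := mul_le_mul_of_nonneg_left h8 ht.le
            linarith
          have h10 : 0 ≤ Real.exp (-(R / 32)) *
              (if |s| < t * Real.exp (X / 16) then Real.exp (X / 8) else 0) := by positivity
          rw [mul_add]
          linarith
      linarith

/-- [E6c] MASS VERSUS COST.  `s(x) = ∑ θ_l x_l`, `X = cubq x`.
PROOF.  `g̃ = g e^{-ηX} ∈ [0,1]`, `g e^{X/32} = g̃ W̃`, `W̃ = e^{(1/32+η)X} ≤ e^{X/16}`, `J = ∫ g̃ min(s,1)`.  For `t > 0`: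
`∫ g̃W̃ ≤ ∫_{min(s,1) ≥ tW̃} + ∫_{min(s,1) < tW̃}`; the first is `≤ J/t`; on the second set (inside `{g ≠ 0}`, where `X ≥ R`,
`s ≥ 0`) either `s < t e^{X/16}` or `1 < t e^{X/16}`, so it is at most
`∫_{X ≥ R} (1{|s| < t e^{X/16}} + t e^{X/16}) e^{X/16} ≤ e^{-R/32} (∫ 1{|s| < te^{X/16}} e^{X/8} + t ∫ e^{X/4}) ≤ C t e^{-R/32}`
(`1 ≤ e^{(X-R)/32}`, `BB0`, `exp_mom`).  If `J > 0` take `t = √J e^{R/64}`: `∫ g̃W̃ ≤ (1+C) √J e^{-R/64}`; if `J = 0` let `t → 0`. -/
theorem BB {n : ℕ} (θ : Fin n → ℝ) (hθ : θ ≠ 0) : ∃ C : ℝ, 0 ≤ C ∧ ∀ (η R : ℝ), 0 ≤ η → η ≤ 1 / 64 →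
    0 ≤ R → ∀ g : (Fin n → ℝ) → ℝ, Measurable g → (∀ x, 0 ≤ g x) → (∀ x, g x ≤ 1) →
      (∀ x, g x ≠ 0 → 0 ≤ ∑ l, θ l * x l ∧ R ≤ cubq x) →
      (∫ x, g x * Real.exp (cubq x / 32) ∂(gam n)) ^ 2 ≤
        C * Real.exp (-(R / 32)) *
          ∫ x, g x * (Real.exp (-(η * cubq x)) * min (∑ l, θ l * x l) 1) ∂(gam n) := by
  obtain ⟨C0, hC0, hB⟩ := BB0 θ hθ
  have := gam_prob n
  have hcm : Measurable (cubq (m := n)) := Pool.Agent.SSC3N.cubq_measurable
  have hMi : Integrable (fun y : Fin n → ℝ => Real.exp (1 / 4 * cubq y)) (gam n) :=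
    (exp_mom n).1 (1 / 4) le_rfl
  set M : ℝ := ∫ y : Fin n → ℝ, Real.exp (1 / 4 * cubq y) ∂(gam n) with hM
  have hM0 : 0 ≤ M := integral_nonneg fun y => (Real.exp_pos _).le
  refine ⟨4 * (C0 + M + 1), by positivity, fun η R hη hη2 hR g hgm hg0 hg1 hgs => ?_⟩
  have hsm : Measurable (fun x : Fin n → ℝ => ∑ l, θ l * x l) := by fun_prop
  have hXnn : ∀ x : Fin n → ℝ, 0 ≤ cubq x := fun x => Pool.Agent.SSC3N.cubq_nonneg x
  -- integrability of the three pieces
  have hi1 : Integrable (fun x => g x * (Real.exp (-(η * cubq x)) * min (∑ l, θ l * x l) 1))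
      (gam n) := by
    refine Integrable.of_bound (C := 1) (Measurable.aestronglyMeasurable ?_)
      (Filter.Eventually.of_forall fun x => ?_)
    · exact hgm.mul ((Real.measurable_exp.comp (hcm.const_mul η).neg).mul
        (hsm.min measurable_const))
    · by_cases hx : g x = 0
      · rw [hx]
        simp
      · obtain ⟨h1, h2⟩ := hgs x hx
        have h3 : 0 ≤ min (∑ l, θ l * x l) 1 := le_min h1 zero_le_one
        have h4 : min (∑ l, θ l * x l) 1 ≤ 1 := min_le_right _ _
        have h5 : Real.exp (-(η * cubq x)) ≤ 1 := Real.exp_le_one_iff.2 (by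
          have := mul_nonneg hη (hXnn x)
          linarith)
        have h6 := Real.exp_pos (-(η * cubq x))
        rw [Real.norm_eq_abs, abs_of_nonneg (mul_nonneg (hg0 x) (mul_nonneg h6.le h3))]
        have h7 : Real.exp (-(η * cubq x)) * min (∑ l, θ l * x l) 1 ≤ 1 :=
          mul_le_one₀ h5 h3 h4
        exact mul_le_one₀ (hg1 x) (mul_nonneg h6.le h3) h7
  have hi2 : ∀ t : ℝ, Integrable (fun x : Fin n → ℝ =>
      (if |∑ l, θ l * x l| < t * Real.exp (cubq x / 16) then Real.exp (cubq x / 8) else 0))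
      (gam n) := by
    intro t
    refine hMi.mono' (Measurable.aestronglyMeasurable ?_)
      (Filter.Eventually.of_forall fun x => ?_)
    · refine Measurable.ite (measurableSet_lt ?_ ?_) ?_ measurable_const
      · exact hsm.norm
      · fun_prop
      · fun_prop
    · split_ifs
      · rw [Real.norm_eq_abs, abs_of_pos (Real.exp_pos _)]
        refine Real.exp_le_exp.2 ?_
        have := hXnn x
        linarith
      · rw [norm_zero]
        positivity
  have hi0 : Integrable (fun x => g x * Real.exp (cubq x / 32)) (gam n) := by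
    refine hMi.mono' (Measurable.aestronglyMeasurable ?_)
      (Filter.Eventually.of_forall fun x => ?_)
    · fun_prop
    · rw [Real.norm_eq_abs, abs_of_nonneg (mul_nonneg (hg0 x) (Real.exp_pos _).le)]
      have h1 : Real.exp (cubq x / 32) ≤ Real.exp (1 / 4 * cubq x) :=
        Real.exp_le_exp.2 (by have := hXnn x; linarith)
      have h2 := Real.exp_pos (cubq x / 32)
      nlinarith [hg0 x, hg1 x]
  have hJ : 0 ≤ ∫ x, g x * (Real.exp (-(η * cubq x)) * min (∑ l, θ l * x l) 1) ∂(gam n) := by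
    refine integral_nonneg fun x => ?_
    show 0 ≤ g x * (Real.exp (-(η * cubq x)) * min (∑ l, θ l * x l) 1)
    by_cases hx : g x = 0
    · rw [hx]
      simp
    · obtain ⟨h1, h2⟩ := hgs x hx
      have h3 : 0 ≤ min (∑ l, θ l * x l) 1 := le_min h1 zero_le_one
      have h4 := hg0 x
      positivity
  have hA : 0 ≤ ∫ x, g x * Real.exp (cubq x / 32) ∂(gam n) :=
    integral_nonneg fun x => mul_nonneg (hg0 x) (Real.exp_pos _).le
  have key := e6c_opt _ _ ((C0 + M + 1) * Real.exp (-(R / 32))) hA hJ (by positivity)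
    (fun t ht => ?_)
  · refine key.trans (le_of_eq ?_)
    ring
  · have h1 : ∫ x, g x * Real.exp (cubq x / 32) ∂(gam n) ≤
        ∫ x, (1 / t * (g x * (Real.exp (-(η * cubq x)) * min (∑ l, θ l * x l) 1)) +
        Real.exp (-(R / 32)) * ((if |∑ l, θ l * x l| < t * Real.exp (cubq x / 16) then
          Real.exp (cubq x / 8) else 0) + t * Real.exp (1 / 4 * cubq x))) ∂(gam n) := by
      refine integral_mono hi0 ((hi1.const_mul (1 / t)).add
        (((hi2 t).add (hMi.const_mul t)).const_mul (Real.exp (-(R / 32))))) fun x => ?_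
      exact e6c_point (g x) (∑ l, θ l * x l) (cubq x) η R t hη hη2 ht (hXnn x) (hg0 x) (hg1 x)
        (hgs x)
    have hi3 : Integrable (fun x : Fin n → ℝ => Real.exp (-(R / 32)) *
        ((if |∑ l, θ l * x l| < t * Real.exp (cubq x / 16) then
          Real.exp (cubq x / 8) else 0) + t * Real.exp (1 / 4 * cubq x))) (gam n) :=
      ((hi2 t).add (hMi.const_mul t)).const_mul (Real.exp (-(R / 32)))
    rw [integral_add (hi1.const_mul (1 / t)) hi3, integral_const_mul,
      integral_const_mul, integral_add (hi2 t) (hMi.const_mul t), integral_const_mul] at h1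
    have h2 := hB t ht.le
    have h3 : Real.exp (-(R / 32)) * ((∫ x : Fin n → ℝ,
        (if |∑ l, θ l * x l| < t * Real.exp (cubq x / 16) then Real.exp (cubq x / 8) else 0)
        ∂(gam n)) + t * M) ≤ Real.exp (-(R / 32)) * (C0 * t + t * M) :=
      mul_le_mul_of_nonneg_left (by linarith) (Real.exp_pos _).le
    have h4 : Real.exp (-(R / 32)) * (C0 * t + t * M) ≤ (C0 + M + 1) * Real.exp (-(R / 32)) * t := by
      have h5 : 0 < Real.exp (-(R / 32)) * t := mul_pos (Real.exp_pos _) ht
      nlinarith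
    refine h1.trans ?_
    have h6 : 1 / t * (∫ x, g x * (Real.exp (-(η * cubq x)) * min (∑ l, θ l * x l) 1) ∂(gam n)) =
      (∫ x, g x * (Real.exp (-(η * cubq x)) * min (∑ l, θ l * x l) 1) ∂(gam n)) / t := by
      ring
    rw [h6]
    linarith

end Pool.Agent.SSQ
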