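import Pool.Agent.SSQ.E2
import Pool.Agent.SSQ.E3

set_option autoImplicit false
open MeasureTheory ProbabilityTheory Set Real

namespace Pool.Agent.SSQ
open Pool.Agent.SSC3N (gam GG TT gam_prob cubq cubi)

/-- `∑_i ∫_{sxc a i ∩ N} ∑_j f_j w_ij` -/
noncomputable def CE {q n : ℕ} (a : Fin q → Fin n → ℝ) (f : Fin q → (Fin n → ℝ) → ℝ)
    (N : Set (Fin n → ℝ)) (w : Fin q → Fin q → (Fin n → ℝ) → ℝ) : ℝ :=
  ∑ i, ∫ x in sxc a i ∩ N, ∑ j, f j x * w i j x ∂(gam n)

/-- mass weight -/
noncomputable def wW {q n : ℕ} (i j : Fin q) (x : Fin n → ℝ) : ℝ :=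
  if j = i then 0 else Real.exp (cubq x / 32)

/-- cost weight far away -/
noncomputable def wM {q n : ℕ} (a : Fin q → Fin n → ℝ) (i j : Fin q) (x : Fin n → ℝ) : ℝ :=
  Real.exp (-(cubq x / 64)) * min (sd a i j x) 1

/-- difference to the simplex partition -/
noncomputable def df {q n : ℕ} (a : Fin q → Fin n → ℝ) (f : Fin q → (Fin n → ℝ) → ℝ) (i : Fin q)
    (x : Fin n → ℝ) : ℝ := f i x - fst a i x

private theorem e7_exp (n : ℕ) : Integrable (fun x : Fin n → ℝ => Real.exp (cubq x / 32)) (gam n) := by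
  refine ((exp_mom n).1 (1 / 32) (by norm_num)).congr (Filter.Eventually.of_forall fun x => ?_)
  show Real.exp (1 / 32 * cubq x) = Real.exp (cubq x / 32)
  congr 1
  ring

private theorem e7_coord (n : ℕ) (l : Fin n) : Integrable (fun x : Fin n → ℝ => x l) (gam n) := by
  obtain ⟨C, hC, hb⟩ := (exp_mom n).2.1 (1 / 4) (by norm_num)
  refine (((exp_mom n).1 (1 / 4) le_rfl).const_mul C).mono'
    (measurable_pi_apply l).aestronglyMeasurable (Filter.Eventually.of_forall fun x => ?_)
  rw [Real.norm_eq_abs]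
  exact hb x l

private theorem e7_sd {q n : ℕ} (a : Fin q → Fin n → ℝ) (i j : Fin q) :
    Integrable (fun x => sd a i j x) (gam n) := by
  unfold sd
  exact integrable_finsetSum _ fun l _ => (e7_coord n l).const_mul _

private theorem e7_sdm {q n : ℕ} (a : Fin q → Fin n → ℝ) (i j : Fin q) :
    Measurable (fun x => sd a i j x) := by
  unfold sd
  exact Finset.measurable_sum _ fun l _ => (measurable_pi_apply l).const_mul _

private theorem e7_le {q n : ℕ} {f : Fin q → (Fin n → ℝ) → ℝ} (hf : FP f) (j : Fin q)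
    (x : Fin n → ℝ) : f j x ≤ 1 := by
  rw [← hf.2.2 x]
  exact Finset.single_le_sum (fun i _ => hf.2.1 i x) (Finset.mem_univ j)

private theorem e7_mul {q n : ℕ} {f : Fin q → (Fin n → ℝ) → ℝ} (hf : FP f) (j : Fin q)
    {g : (Fin n → ℝ) → ℝ} {h : (Fin n → ℝ) → ℝ} (hg : Measurable g) (hh : Integrable h (gam n))
    (hgh : ∀ x, |g x| ≤ h x) : Integrable (fun x => f j x * g x) (gam n) := by
  refine hh.mono' ((hf.1 j).mul hg).aestronglyMeasurable (Filter.Eventually.of_forall fun x => ?_)
  rw [Real.norm_eq_abs, abs_mul, abs_of_nonneg (hf.2.1 j x)]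
  have h1 : f j x * |g x| ≤ 1 * |g x| := mul_le_mul_of_nonneg_right (e7_le hf j x) (abs_nonneg _)
  linarith [hgh x]

private theorem e7_wWm {q n : ℕ} (i j : Fin q) : Measurable (wW (n := n) i j) := by
  unfold wW
  by_cases h : j = i
  · simp only [if_pos h]
    exact measurable_const
  · simp only [if_neg h]
    exact (Real.measurable_exp.comp (Pool.Agent.SSC3N.cubq_measurable.div_const 32))

private theorem e7_wW0 {q n : ℕ} (i j : Fin q) (x : Fin n → ℝ) : 0 ≤ wW i j x := by
  unfold wW
  split_ifs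
  · exact le_rfl
  · exact (Real.exp_pos _).le

private theorem e7_wWle {q n : ℕ} (i j : Fin q) (x : Fin n → ℝ) :
    |wW i j x| ≤ Real.exp (cubq x / 32) := by
  rw [abs_of_nonneg (e7_wW0 i j x)]
  unfold wW
  split_ifs
  · exact (Real.exp_pos _).le
  · exact le_rfl

/-- [E7a] integrability of all the integrands used below, nonnegativity: `0 ≤ f_j ≤ 1`, `0 ≤ sd a i j x` on
`sxc a i` (`sxc_basic`), `exp(cubq/32)`, `|x_l|` integrable (`exp_mom`). -/
theorem CE_basic (m : ℕ) {n : ℕ} (a : Fin (m + 2) → Fin n → ℝ) (f : Fin (m + 2) → (Fin n → ℝ) → ℝ)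
    (hf : FP f) (N : Set (Fin n → ℝ)) (hN : MeasurableSet N) :
    (∀ i, ∀ x ∈ sxc a i, ∀ j, 0 ≤ sd a i j x) ∧
    (∀ i j, Integrable (fun x => f j x * sd a i j x) (gam n)) ∧
    (∀ i j, Integrable (fun x => f j x * wM a i j x) (gam n)) ∧
    (∀ i j, Integrable (fun x => f j x * wW i j x) (gam n)) ∧
    0 ≤ CE a f N (sd a) ∧ 0 ≤ CE a f N (wM a) ∧ 0 ≤ CE a f N wW := by
  obtain ⟨hc1, hc2, hFP, hc4⟩ := sxc_basic (by omega : 0 < m + 2) a
  have := gam_prob n
  have hsd : ∀ i, ∀ x ∈ sxc a i, ∀ j, 0 ≤ sd a i j x := by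
    intro i x hx j
    have h1 := hc4 i x hx j
    unfold sd
    simp only [sub_mul]
    rw [Finset.sum_sub_distrib]
    linarith
  have hnn : ∀ w : Fin (m + 2) → Fin (m + 2) → (Fin n → ℝ) → ℝ,
      (∀ i, ∀ x ∈ sxc a i, ∀ j, 0 ≤ w i j x) → 0 ≤ CE a f N w := by
    intro w hw
    unfold CE
    refine Finset.sum_nonneg fun i _ => setIntegral_nonneg ((hc1 i).inter hN) fun x hx => ?_
    exact Finset.sum_nonneg fun j _ => mul_nonneg (hf.2.1 j x) (hw i x hx.1 j)
  refine ⟨hsd, ?_, ?_, ?_, hnn _ hsd, hnn _ ?_, hnn _ ?_⟩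
  · intro i j
    exact e7_mul hf j (e7_sdm a i j) (e7_sd a i j).abs fun x => le_rfl
  · intro i j
    refine e7_mul hf j ?_ ((e7_sd a i j).abs.add (integrable_const 1)) fun x => ?_
    · unfold wM
      refine Measurable.mul ?_ ((e7_sdm a i j).min measurable_const)
      exact Real.measurable_exp.comp (Pool.Agent.SSC3N.cubq_measurable.div_const 64).neg
    · show |wM a i j x| ≤ |sd a i j x| + 1
      unfold wM
      rw [abs_mul, abs_of_pos (Real.exp_pos _)]
      have h1 : Real.exp (-(cubq x / 64)) ≤ 1 := by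
        rw [Real.exp_le_one_iff]
        have h2 := Pool.Agent.SSC3N.cubq_nonneg x
        linarith
      have h2 : |min (sd a i j x) 1| ≤ |sd a i j x| + 1 := by
        rw [abs_le]
        have h3 := neg_abs_le (sd a i j x)
        have h4 := abs_nonneg (sd a i j x)
        constructor
        · refine le_min ?_ ?_ <;> linarith
        · have h5 := min_le_right (sd a i j x) 1
          linarith
      have h3 := mul_le_mul_of_nonneg_right h1 (abs_nonneg (min (sd a i j x) 1))
      linarith
  · intro i j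
    exact e7_mul hf j (e7_wWm i j) (e7_exp n) fun x => e7_wWle i j x
  · intro i x hx j
    exact mul_nonneg (Real.exp_pos _).le (le_min (hsd i x hx j) zero_le_one)
  · intro i x _ j
    exact e7_wW0 i j x

/-- [E7b] `∑_i |d_i| = 2 ∑_{j≠i} f_j` on `sxc a i`; hence for a measurable `N`, measurable `0 ≤ u ≤ C e^{X/32}`:
`∑_i ∫_N |d_i| u ≤ 2 C · CE a f N wW`. -/
theorem df_mass (m : ℕ) {n : ℕ} (a : Fin (m + 2) → Fin n → ℝ) (f : Fin (m + 2) → (Fin n → ℝ) → ℝ)
    (hf : FP f) (N : Set (Fin n → ℝ)) (hN : MeasurableSet N) (u : (Fin n → ℝ) → ℝ)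
    (hu : Measurable u) (C : ℝ) (hC : 0 ≤ C) (hu0 : ∀ x, 0 ≤ u x)
    (huC : ∀ x, u x ≤ C * Real.exp (cubq x / 32)) :
    ∑ i, ∫ x in N, |df a f i x| * u x ∂(gam n) ≤ 2 * C * CE a f N wW := by
  classical
  obtain ⟨hc1, hc2, hFP, hc4⟩ := sxc_basic (by omega : 0 < m + 2) a
  have := gam_prob n
  have hdm : ∀ i, Measurable (df a f i) := fun i => (hf.1 i).sub (hFP.1 i)
  have hd1 : ∀ i x, |df a f i x| ≤ 1 := by
    intro i x
    unfold df
    rw [abs_le]
    have h1 := hf.2.1 i x
    have h2 := e7_le hf i x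
    have h3 := hFP.2.1 i x
    have h4 := e7_le hFP i x
    constructor <;> linarith
  have hint : ∀ i, Integrable (fun x => |df a f i x| * u x) (gam n) := by
    intro i
    refine ((e7_exp n).const_mul C).mono'
      ((continuous_abs.measurable.comp (hdm i)).mul hu).aestronglyMeasurable
      (Filter.Eventually.of_forall fun x => ?_)
    rw [Real.norm_eq_abs, abs_mul, abs_abs, abs_of_nonneg (hu0 x)]
    have h1 := mul_le_mul_of_nonneg_right (hd1 i x) (hu0 x)
    linarith [huC x]
  set G : Fin (m + 2) → (Fin n → ℝ) → ℝ := fun i x => ∑ j, f j x * wW i j x with hG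
  have hGi : ∀ i, Integrable (G i) (gam n) := fun i =>
    integrable_finsetSum _ fun j _ =>
      e7_mul hf j (e7_wWm i j) (e7_exp n) fun x => e7_wWle i j x
  have hGind : ∀ i, Integrable ((sxc a i).indicator (G i)) (gam n) := fun i =>
    (hGi i).indicator (hc1 i)
  have hpt : ∀ x, ∑ i, |df a f i x| * u x ≤ 2 * C * ∑ i, (sxc a i).indicator (G i) x := by
    intro x
    obtain ⟨k, hk, hku⟩ := hc2 x
    have h1 : ∑ i, (sxc a i).indicator (G i) x = G k x := by
      rw [Finset.sum_eq_single k]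
      · exact indicator_of_mem hk _
      · intro i _ hi
        exact indicator_of_notMem (fun h => hi (hku i h)) _
      · intro h
        exact absurd (Finset.mem_univ k) h
    have hfk : fst a k x = 1 := indicator_of_mem hk _
    have hfi : ∀ i, i ≠ k → fst a i x = 0 := fun i hi =>
      indicator_of_notMem (fun h => hi (hku i h)) _
    have h2 : G k x = Real.exp (cubq x / 32) * (1 - f k x) := by
      have h3 : ∀ j, f j x * wW k j x =
          Real.exp (cubq x / 32) * f j x - (if j = k then Real.exp (cubq x / 32) * f k x else 0) := by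
        intro j
        unfold wW
        by_cases hj : j = k
        · rw [if_pos hj, if_pos hj, hj]
          ring
        · rw [if_neg hj, if_neg hj]
          ring
      show ∑ j, f j x * wW k j x = _
      rw [Finset.sum_congr rfl fun j _ => h3 j, Finset.sum_sub_distrib, ← Finset.mul_sum,
        hf.2.2 x, Finset.sum_ite_eq', if_pos (Finset.mem_univ _)]
      ring
    have h4 : ∑ i, |df a f i x| = 2 * (1 - f k x) := by
      have h5 : ∀ i, |df a f i x| = f i x + (if i = k then 1 - 2 * f k x else 0) := by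
        intro i
        unfold df
        by_cases hi : i = k
        · rw [if_pos hi, hi, hfk, abs_of_nonpos (by linarith [e7_le hf k x])]
          ring
        · rw [if_neg hi, hfi i hi, sub_zero, abs_of_nonneg (hf.2.1 i x), add_zero]
      rw [Finset.sum_congr rfl fun i _ => h5 i, Finset.sum_add_distrib, hf.2.2 x,
        Finset.sum_ite_eq', if_pos (Finset.mem_univ _)]
      ring
    rw [← Finset.sum_mul, h4, h1, h2]
    have h6 : 0 ≤ 1 - f k x := by linarith [e7_le hf k x]
    have h7 := mul_le_mul_of_nonneg_left (huC x) h6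
    nlinarith
  calc ∑ i, ∫ x in N, |df a f i x| * u x ∂(gam n)
      = ∫ x in N, ∑ i, |df a f i x| * u x ∂(gam n) :=
        (integral_finsetSum _ fun i _ => (hint i).integrableOn).symm
    _ ≤ ∫ x in N, 2 * C * ∑ i, (sxc a i).indicator (G i) x ∂(gam n) := by
        refine setIntegral_mono
          (integrable_finsetSum _ fun i _ => (hint i).integrableOn) ?_ hpt
        exact (integrable_finsetSum _ fun i _ => (hGind i).integrableOn).const_mul _
    _ = 2 * C * ∑ i, ∫ x in N, (sxc a i).indicator (G i) x ∂(gam n) := by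
        rw [integral_const_mul, integral_finsetSum _ fun i _ => (hGind i).integrableOn]
    _ = 2 * C * CE a f N wW := by
        unfold CE
        congr 1
        refine Finset.sum_congr rfl fun i _ => ?_
        rw [setIntegral_indicator (hc1 i), inter_comm]

end Pool.Agent.SSQ
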