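import Pool.Agent.SSQ.E7

set_option autoImplicit false
open MeasureTheory ProbabilityTheory Set Real

namespace Pool.Agent.SSQ
open Pool.Agent.SSC3N (gam GG TT gam_prob cubq cubi)

private theorem e7c_int {n : ℕ} (ρ : ℝ) (h0 : -1 < ρ) (h1 : ρ < 1) (g h : (Fin n → ℝ) → ℝ)
    (hg : Measurable g) (hh : Measurable h) (M : ℝ) (hgM : ∀ y, |g y| ≤ M) (hhM : ∀ y, |h y| ≤ M) :
    Integrable (fun x => g x * TT ρ h x) (gam n) := by
  have hp : IsProbabilityMeasure (gam n) := gam_prob n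
  have h2 := (GG_symm ρ h0 h1 g h hg hh M hgM hhM).2.2.1.integral_prod_left
  refine h2.congr (Filter.Eventually.of_forall fun x => ?_)
  show ∫ y, MK ρ x y * (g x * h y) ∂(gam n) = g x * TT ρ h x
  rw [(TT_kernel ρ h0 h1 h hh M hhM x).2, ← integral_const_mul]
  refine integral_congr_ae (Filter.Eventually.of_forall fun y => ?_)
  show MK ρ x y * (g x * h y) = g x * (MK ρ x y * h y)
  ring

private theorem e7c_bil {n : ℕ} (ρ : ℝ) (h0 : -1 < ρ) (h1 : ρ < 1) (g d : (Fin n → ℝ) → ℝ)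
    (hg : Measurable g) (hd : Measurable d) (M : ℝ) (hgM : ∀ y, |g y| ≤ M)
    (hdM : ∀ y, |d y| ≤ M) (f : (Fin n → ℝ) → ℝ) (hf : Measurable f) (hfM : ∀ y, |f y| ≤ M)
    (hfd : ∀ y, f y = g y + d y) :
    GG ρ f f = GG ρ g g + 2 * GG ρ d g + GG ρ d d := by
  obtain ⟨-, -, -, eff⟩ := GG_symm ρ h0 h1 f f hf hf M hfM hfM
  obtain ⟨-, -, igg, egg⟩ := GG_symm ρ h0 h1 g g hg hg M hgM hgM
  obtain ⟨sdg, -, idg, edg⟩ := GG_symm ρ h0 h1 d g hd hg M hdM hgM
  obtain ⟨-, -, igd, egd⟩ := GG_symm ρ h0 h1 g d hg hd M hgM hdM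
  obtain ⟨-, -, idd, edd⟩ := GG_symm ρ h0 h1 d d hd hd M hdM hdM
  have e1 : ∀ p : (Fin n → ℝ) × (Fin n → ℝ), MK ρ p.1 p.2 * (f p.1 * f p.2) =
      (MK ρ p.1 p.2 * (g p.1 * g p.2) + MK ρ p.1 p.2 * (d p.1 * g p.2)) +
      (MK ρ p.1 p.2 * (g p.1 * d p.2) + MK ρ p.1 p.2 * (d p.1 * d p.2)) := by
    intro p
    rw [hfd, hfd]
    ring
  have e2 : GG ρ f f = (GG ρ g g + GG ρ d g) + (GG ρ g d + GG ρ d d) := by
    rw [eff, integral_congr_ae (Filter.Eventually.of_forall e1),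
      integral_add (f := fun p : (Fin n → ℝ) × (Fin n → ℝ) =>
        MK ρ p.1 p.2 * (g p.1 * g p.2) + MK ρ p.1 p.2 * (d p.1 * g p.2))
        (g := fun p : (Fin n → ℝ) × (Fin n → ℝ) =>
        MK ρ p.1 p.2 * (g p.1 * d p.2) + MK ρ p.1 p.2 * (d p.1 * d p.2))
        (igg.add idg) (igd.add idd), integral_add igg idg, integral_add igd idd,
      ← egg, ← edg, ← egd, ← edd]
  rw [e2, ← sdg]
  ring

/-- [E7c] ENERGY IDENTITY.  `GG(f_i,f_i) = GG(f*_i,f*_i) + 2 GG(d_i,f*_i) + GG(d_i,d_i)` (bilinearity and symmetry,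
`GG_symm`), `∑_i GG(d_i, f*_i) = ∫ ∑_i d_i T f*_i`, and on `sxc a i`:
`∑_p d_p T f*_p = ∑_p f_p T f*_p - T f*_i = -∑_p f_p (T f*_i - T f*_p)` (`∑ f_p = 1`). -/
theorem energy_id (m : ℕ) {n : ℕ} (a : Fin (m + 2) → Fin n → ℝ) (ρ : ℝ) (h0 : -1 < ρ) (h1 : ρ < 1)
    (f : Fin (m + 2) → (Fin n → ℝ) → ℝ) (hf : FP f) :
    Fn ρ f = Fn ρ (fst a)
      - 2 * CE a f Set.univ (fun i j x => TT ρ (fst a i) x - TT ρ (fst a j) x)
      + ∑ i, GG ρ (df a f i) (df a f i) := by
  classical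
  have hp : IsProbabilityMeasure (gam n) := gam_prob n
  obtain ⟨hms, hex, hFP, -⟩ := sxc_basic (by omega : 0 < m + 2) a
  have hle1 : ∀ (F : Fin (m + 2) → (Fin n → ℝ) → ℝ), FP F → ∀ i x, F i x ≤ 1 := by
    intro F hF i x
    rw [← hF.2.2 x]
    exact Finset.single_le_sum (f := fun i => F i x) (fun i _ => hF.2.1 i x) (Finset.mem_univ i)
  have hfM : ∀ i x, |f i x| ≤ 1 := fun i x => by
    rw [abs_of_nonneg (hf.2.1 i x)]
    exact hle1 f hf i x
  have hsM : ∀ i x, |fst a i x| ≤ 1 := fun i x => by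
    rw [abs_of_nonneg (hFP.2.1 i x)]
    exact hle1 _ hFP i x
  have hdM : ∀ i x, |df a f i x| ≤ 1 := fun i x => by
    unfold df
    have h1 := hf.2.1 i x
    have h2 := hle1 f hf i x
    have h3 := hFP.2.1 i x
    have h4 := hle1 _ hFP i x
    rw [abs_le]
    constructor <;> linarith
  have hdm : ∀ i, Measurable (df a f i) := fun i => (hf.1 i).sub (hFP.1 i)
  -- bilinearity
  have h1' : Fn ρ f = Fn ρ (fst a) + 2 * ∑ i, GG ρ (df a f i) (fst a i) +
      ∑ i, GG ρ (df a f i) (df a f i) := by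
    unfold Fn
    rw [Finset.mul_sum, ← Finset.sum_add_distrib, ← Finset.sum_add_distrib]
    refine Finset.sum_congr rfl fun i _ => ?_
    exact e7c_bil ρ h0 h1 (fst a i) (df a f i) (hFP.1 i) (hdm i) 1 (hsM i) (hdM i) (f i)
      (hf.1 i) (hfM i) (fun y => by unfold df; ring)
  -- integrability
  have hI1 : ∀ i j p, Integrable (fun x => fst a i x * f j x * TT ρ (fst a p) x) (gam n) := by
    intro i j p
    refine e7c_int ρ h0 h1 (fun x => fst a i x * f j x) (fst a p) ((hFP.1 i).mul (hf.1 j))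
      (hFP.1 p) 1 (fun x => ?_) (hsM p)
    rw [abs_mul]
    exact mul_le_one₀ (hsM i x) (abs_nonneg _) (hfM j x)
  have hI2 : ∀ i, Integrable (fun x => df a f i x * TT ρ (fst a i) x) (gam n) := fun i =>
    e7c_int ρ h0 h1 (df a f i) (fst a i) (hdm i) (hFP.1 i) 1 (hdM i) (hsM i)
  have hI3 : ∀ i, Integrable (fun x => fst a i x *
      ∑ j, f j x * (TT ρ (fst a i) x - TT ρ (fst a j) x)) (gam n) := by
    intro i
    have h2 : Integrable (fun x => ∑ j, (fst a i x * f j x * TT ρ (fst a i) x -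
        fst a i x * f j x * TT ρ (fst a j) x)) (gam n) :=
      integrable_finsetSum _ fun j _ => (hI1 i j i).sub (hI1 i j j)
    refine h2.congr (Filter.Eventually.of_forall fun x => ?_)
    show ∑ j, (fst a i x * f j x * TT ρ (fst a i) x - fst a i x * f j x * TT ρ (fst a j) x) =
      fst a i x * ∑ j, f j x * (TT ρ (fst a i) x - TT ρ (fst a j) x)
    rw [Finset.mul_sum]
    exact Finset.sum_congr rfl fun j _ => by ring
  -- the cost
  have hCE : CE a f Set.univ (fun i j x => TT ρ (fst a i) x - TT ρ (fst a j) x) =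
      ∫ x, ∑ i, fst a i x * ∑ j, f j x * (TT ρ (fst a i) x - TT ρ (fst a j) x) ∂(gam n) := by
    rw [integral_finsetSum _ fun i _ => hI3 i]
    unfold CE
    refine Finset.sum_congr rfl fun i _ => ?_
    rw [Set.inter_univ, ← integral_indicator (hms i)]
    refine integral_congr_ae (Filter.Eventually.of_forall fun x => ?_)
    show (sxc a i).indicator (fun x => ∑ j, f j x * (TT ρ (fst a i) x - TT ρ (fst a j) x)) x =
      fst a i x * ∑ j, f j x * (TT ρ (fst a i) x - TT ρ (fst a j) x)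
    by_cases hx : x ∈ sxc a i
    · have h2 : fst a i x = 1 := by
        unfold fst
        rw [Set.indicator_of_mem hx]
      rw [Set.indicator_of_mem hx, h2, one_mul]
    · have h2 : fst a i x = 0 := by
        unfold fst
        rw [Set.indicator_of_notMem hx]
      rw [Set.indicator_of_notMem hx, h2, zero_mul]
  have hpt : ∀ x, ∑ i, fst a i x * ∑ j, f j x * (TT ρ (fst a i) x - TT ρ (fst a j) x) =
      -∑ i, df a f i x * TT ρ (fst a i) x := by
    intro x
    have h2 : ∀ i, fst a i x * ∑ j, f j x * (TT ρ (fst a i) x - TT ρ (fst a j) x) =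
        fst a i x * TT ρ (fst a i) x - fst a i x * ∑ j, f j x * TT ρ (fst a j) x := by
      intro i
      have h3 : ∑ j, f j x * (TT ρ (fst a i) x - TT ρ (fst a j) x) =
          (∑ j, f j x) * TT ρ (fst a i) x - ∑ j, f j x * TT ρ (fst a j) x := by
        rw [Finset.sum_mul, ← Finset.sum_sub_distrib]
        exact Finset.sum_congr rfl fun j _ => by ring
      rw [h3, hf.2.2 x]
      ring
    rw [Finset.sum_congr rfl fun i _ => h2 i, Finset.sum_sub_distrib, ← Finset.sum_mul,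
      hFP.2.2 x, one_mul, ← Finset.sum_sub_distrib, ← Finset.sum_neg_distrib]
    refine Finset.sum_congr rfl fun i _ => ?_
    unfold df
    ring
  have hsum : ∑ i, GG ρ (df a f i) (fst a i) =
      -CE a f Set.univ (fun i j x => TT ρ (fst a i) x - TT ρ (fst a j) x) := by
    rw [hCE, integral_congr_ae (Filter.Eventually.of_forall hpt), integral_neg, neg_neg,
      integral_finsetSum _ fun i _ => hI2 i]
    refine Finset.sum_congr rfl fun i _ => ?_
    exact (GG_symm ρ h0 h1 (df a f i) (fst a i) (hdm i) (hFP.1 i) 1 (hdM i) (hsM i)).2.1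
  rw [h1', hsum]
  ring

end Pool.Agent.SSQ
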