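import Pool.Agent.SSQ.E7
import Pool.Agent.SSQ.E4
import Pool.Agent.SSQ.E5

set_option autoImplicit false
open MeasureTheory ProbabilityTheory Set Real

namespace Pool.Agent.SSQ
open Pool.Agent.SSC3N (gam GG TT gam_prob cubq cubi)

private theorem e7d_near (ρ κ C1 D s E : ℝ) (hρ : ρ ≠ 0) (hκ : 0 < κ) (hC : 0 ≤ C1) (hs : 0 ≤ s)
    (hE : E ≤ (Real.sqrt |ρ|)⁻¹)
    (h : |D - ρ * (κ * s)| ≤ C1 * ρ ^ 2 * (s * E)) :
    |ρ| * (1 - C1 / κ * Real.sqrt |ρ|) * (κ * s) ≤ ρ / |ρ| * D := by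
  have ha : 0 < |ρ| := abs_pos.2 hρ
  have hr : 0 < Real.sqrt |ρ| := Real.sqrt_pos.2 ha
  have hrr : Real.sqrt |ρ| * Real.sqrt |ρ| = |ρ| := Real.mul_self_sqrt ha.le
  have h2 : ρ ^ 2 = |ρ| * |ρ| := by rw [← sq, sq_abs]
  have hσ : abs (ρ / |ρ|) = 1 := by
    rw [abs_div, abs_abs, div_self ha.ne']
  have hσρ : ρ / |ρ| * ρ = |ρ| := by
    rw [div_mul_eq_mul_div, div_eq_iff ha.ne', ← sq, h2]
  have h3 : C1 * ρ ^ 2 * (s * E) ≤ C1 * |ρ| * Real.sqrt |ρ| * s := by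
    have h4 : C1 * ρ ^ 2 * (s * E) ≤ C1 * ρ ^ 2 * (s * (Real.sqrt |ρ|)⁻¹) := by
      apply mul_le_mul_of_nonneg_left _ (by positivity)
      exact mul_le_mul_of_nonneg_left hE hs
    refine h4.trans (le_of_eq ?_)
    rw [h2]
    have h5 : |ρ| * (Real.sqrt |ρ|)⁻¹ = Real.sqrt |ρ| := by
      rw [← div_eq_mul_inv, div_eq_iff hr.ne', hrr]
    calc C1 * (|ρ| * |ρ|) * (s * (Real.sqrt |ρ|)⁻¹)
        = C1 * |ρ| * (|ρ| * (Real.sqrt |ρ|)⁻¹) * s := by ring
      _ = C1 * |ρ| * Real.sqrt |ρ| * s := by rw [h5]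
  have h6 : |ρ / |ρ| * (D - ρ * (κ * s))| ≤ C1 * |ρ| * Real.sqrt |ρ| * s := by
    rw [abs_mul, hσ, one_mul]
    exact h.trans h3
  have h7 := (abs_le.1 h6).1
  have h8 : ρ / |ρ| * (D - ρ * (κ * s)) = ρ / |ρ| * D - |ρ| * (κ * s) := by
    rw [mul_sub, ← mul_assoc (ρ / |ρ|) ρ, hσρ]
  rw [h8] at h7
  have h9 : |ρ| * (1 - C1 / κ * Real.sqrt |ρ|) * (κ * s)
      = |ρ| * (κ * s) - C1 * |ρ| * Real.sqrt |ρ| * s := by
    field_simp
  rw [h9]
  linarith

private theorem e7d_exp (r X : ℝ) (hr : 0 < r) (hX : X < 8 * Real.log (1 / r)) :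
    Real.exp (X / 16) ≤ (Real.sqrt r)⁻¹ := by
  have h1 : (Real.sqrt r)⁻¹ = Real.exp (Real.log (1 / r) / 2) := by
    rw [Real.exp_half, Real.exp_log (by positivity), one_div, Real.sqrt_inv]
  rw [h1]
  apply Real.exp_le_exp.2
  linarith

private theorem e7d_meas {n : ℕ} : Measurable (fun x : Fin n → ℝ => cubq x) := by
  unfold Pool.Agent.SSC3N.cubq
  exact Finset.measurable_sum _ fun j _ => (measurable_pi_apply j).pow_const 2

private theorem e7d_int (m : ℕ) {n : ℕ} (a : Fin (m + 2) → Fin n → ℝ)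
    (f : Fin (m + 2) → (Fin n → ℝ) → ℝ) (hf : FP f) (ρ : ℝ) (i j : Fin (m + 2)) :
    Integrable (fun x => f j x * (TT ρ (fst a i) x - TT ρ (fst a j) x)) (gam n) := by
  have hprob := gam_prob n
  obtain ⟨hm, -, hFP, -⟩ := sxc_basic (by omega : 0 < m + 2) a
  have hb : ∀ i, ∀ y, |fst a i y| ≤ 1 := by
    intro i y
    unfold fst
    by_cases hy : y ∈ sxc a i
    · rw [Set.indicator_of_mem hy]; simp
    · rw [Set.indicator_of_notMem hy]; simp
  have hfb : ∀ y, |f j y| ≤ 1 := by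
    intro y
    rw [abs_of_nonneg (hf.2.1 j y)]
    rw [← hf.2.2 y]
    exact Finset.single_le_sum (fun k _ => hf.2.1 k y) (Finset.mem_univ j)
  have hM : AEStronglyMeasurable
      (fun x => f j x * (TT ρ (fst a i) x - TT ρ (fst a j) x)) (gam n) := by
    apply StronglyMeasurable.aestronglyMeasurable
    exact (hf.1 j).stronglyMeasurable.mul
      ((Pool.Agent.SSC3N.cub_TT_meas ρ _ (hFP.1 i)).sub
        (Pool.Agent.SSC3N.cub_TT_meas ρ _ (hFP.1 j)))
  apply Integrable.of_bound hM 2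
  apply Filter.Eventually.of_forall
  intro x
  rw [Real.norm_eq_abs, abs_mul]
  have h1 := Pool.Agent.SSC3N.TT_bdd ρ (fst a i) (hb i) x
  have h2 := Pool.Agent.SSC3N.TT_bdd ρ (fst a j) (hb j) x
  have h3 : |TT ρ (fst a i) x - TT ρ (fst a j) x| ≤ 2 := by
    refine (abs_sub _ _).trans ?_
    linarith
  calc |f j x| * |TT ρ (fst a i) x - TT ρ (fst a j) x| ≤ 1 * 2 :=
        mul_le_mul (hfb x) h3 (abs_nonneg _) zero_le_one
    _ = 2 := by norm_num

/-- [E7d] LOWER BOUND FOR THE MAIN TERM.  `N = {cubq < 8 log(1/|ρ|)}`: there `e^{X/16} ≤ |ρ|^{-1/2}`, so by `K2`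
`σ(T f*_i - T f*_j) ≥ |ρ| κ s - Cρ² s e^{X/16} ≥ |ρ|(1 - (C/κ)√|ρ|) κ s`; outside use `K3`.  (`σ = ρ/|ρ|`; the term
`j = i` vanishes on both sides: `sd a i i = 0`.) -/
theorem main_term (m : ℕ) {n : ℕ} (a : Fin (m + 2) → Fin n → ℝ) (ha : IsSx a) : ∃ ρ0 c C : ℝ,
    0 < ρ0 ∧ ρ0 ≤ 1 / 2 ∧ 0 < c ∧ 0 ≤ C ∧ ∀ ρ : ℝ, |ρ| ≤ ρ0 → ρ ≠ 0 →
      ∀ f : Fin (m + 2) → (Fin n → ℝ) → ℝ, FP f →
      |ρ| * (1 - C * Real.sqrt |ρ|) * (kap m * CE a f {x | cubq x < 8 * Real.log (1 / |ρ|)} (sd a))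
        + c * |ρ| * CE a f {x | 8 * Real.log (1 / |ρ|) ≤ cubq x} (wM a) ≤
      ρ / |ρ| * CE a f Set.univ (fun i j x => TT ρ (fst a i) x - TT ρ (fst a j) x) := by
  obtain ⟨ρ1, C1, hρ1, hρ1', hC1, hK2⟩ := K2 m a ha
  obtain ⟨ρ2, c, hρ2, hρ2', hc, hK3⟩ := K3 m a ha
  obtain ⟨hκ, -, -⟩ := Kf_fst m a ha
  refine ⟨min ρ1 ρ2, c, C1 / kap m, lt_min hρ1 hρ2, (min_le_left _ _).trans hρ1', hc,
    div_nonneg hC1 hκ.le, ?_⟩
  intro ρ hρ hρ0 f hf
  have hr1 : |ρ| ≤ ρ1 := hρ.trans (min_le_left _ _)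
  have hr2 : |ρ| ≤ ρ2 := hρ.trans (min_le_right _ _)
  have hap : 0 < |ρ| := abs_pos.2 hρ0
  have hprob := gam_prob n
  set N : Set (Fin n → ℝ) := {x | cubq x < 8 * Real.log (1 / |ρ|)} with hNdef
  have hNc : {x : Fin n → ℝ | 8 * Real.log (1 / |ρ|) ≤ cubq x} = Nᶜ := by
    ext x
    simp [hNdef, not_lt]
  rw [hNc]
  have hN : MeasurableSet N := measurableSet_lt e7d_meas measurable_const
  obtain ⟨hmc, -, hFP, hcell⟩ := sxc_basic (by omega : 0 < m + 2) a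
  obtain ⟨hsd, hI1, hI2, -, -, -, -⟩ := CE_basic m a f hf N hN
  have hsd0 : ∀ i x, sd a i i x = 0 := by
    intro i x
    unfold sd
    simp
  have hwM0 : ∀ i x, wM a i i x = 0 := by
    intro i x
    unfold wM
    rw [hsd0]
    simp
  have hJ : ∀ i, Integrable (fun x => ∑ j, f j x * (TT ρ (fst a i) x - TT ρ (fst a j) x)) (gam n) :=
    fun i => integrable_finsetSum _ fun j _ => e7d_int m a f hf ρ i j
  have hJ1 : ∀ i, Integrable (fun x => ∑ j, f j x * sd a i j x) (gam n) :=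
    fun i => integrable_finsetSum _ fun j _ => hI1 i j
  have hJ2 : ∀ i, Integrable (fun x => ∑ j, f j x * wM a i j x) (gam n) :=
    fun i => integrable_finsetSum _ fun j _ => hI2 i j
  -- near
  have hnear : ∀ i, |ρ| * (1 - C1 / kap m * Real.sqrt |ρ|) *
      (kap m * ∫ x in sxc a i ∩ N, ∑ j, f j x * sd a i j x ∂(gam n)) ≤
      ρ / |ρ| * ∫ x in sxc a i ∩ N, ∑ j, f j x * (TT ρ (fst a i) x - TT ρ (fst a j) x) ∂(gam n) := by
    intro i
    rw [← integral_const_mul, ← integral_const_mul, ← integral_const_mul]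
    apply setIntegral_mono_on
    · exact (((hJ1 i).const_mul _).const_mul _).integrableOn
    · exact ((hJ i).const_mul _).integrableOn
    · exact (hmc i).inter hN
    · intro x hx
      rw [Finset.mul_sum, Finset.mul_sum, Finset.mul_sum]
      apply Finset.sum_le_sum
      intro j _
      by_cases hij : i = j
      · subst hij
        rw [hsd0]
        simp
      · have h1 := e7d_near ρ (kap m) C1 (TT ρ (fst a i) x - TT ρ (fst a j) x) (sd a i j x)
          (Real.exp (cubq x / 16)) hρ0 hκ hC1 (hsd i x hx.1 j)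
          (e7d_exp |ρ| (cubq x) hap hx.2) (hK2 ρ hr1 i j hij x (hsd i x hx.1 j))
        have h2 := mul_le_mul_of_nonneg_left h1 (hf.2.1 j x)
        calc |ρ| * (1 - C1 / kap m * Real.sqrt |ρ|) * (kap m * (f j x * sd a i j x))
            = f j x * (|ρ| * (1 - C1 / kap m * Real.sqrt |ρ|) * (kap m * sd a i j x)) := by ring
          _ ≤ f j x * (ρ / |ρ| * (TT ρ (fst a i) x - TT ρ (fst a j) x)) := h2
          _ = ρ / |ρ| * (f j x * (TT ρ (fst a i) x - TT ρ (fst a j) x)) := by ring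
  -- far
  have hfar : ∀ i, c * |ρ| *
      (∫ x in sxc a i ∩ Nᶜ, ∑ j, f j x * wM a i j x ∂(gam n)) ≤
      ρ / |ρ| * ∫ x in sxc a i ∩ Nᶜ,
        ∑ j, f j x * (TT ρ (fst a i) x - TT ρ (fst a j) x) ∂(gam n) := by
    intro i
    rw [← integral_const_mul, ← integral_const_mul]
    apply setIntegral_mono_on
    · exact ((hJ2 i).const_mul _).integrableOn
    · exact ((hJ i).const_mul _).integrableOn
    · exact (hmc i).inter hN.compl
    · intro x hx
      rw [Finset.mul_sum, Finset.mul_sum]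
      apply Finset.sum_le_sum
      intro j _
      by_cases hij : i = j
      · subst hij
        rw [hwM0]
        simp
      · have h1 := hK3 ρ hr2 hρ0 i j hij x (hsd i x hx.1 j)
        have h2 := mul_le_mul_of_nonneg_left h1 (hf.2.1 j x)
        have h3 : wM a i j x = Real.exp (-(cubq x / 64)) * min (sd a i j x) 1 := rfl
        calc c * |ρ| * (f j x * wM a i j x)
            = f j x * (c * |ρ| * (Real.exp (-(cubq x / 64)) * min (sd a i j x) 1)) := by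
              rw [h3]; ring
          _ ≤ f j x * (ρ / |ρ| * (TT ρ (fst a i) x - TT ρ (fst a j) x)) := h2
          _ = ρ / |ρ| * (f j x * (TT ρ (fst a i) x - TT ρ (fst a j) x)) := by ring
  have hsplit : ∀ i, ∫ x in sxc a i ∩ Set.univ,
        ∑ j, f j x * (TT ρ (fst a i) x - TT ρ (fst a j) x) ∂(gam n)
      = (∫ x in sxc a i ∩ N, ∑ j, f j x * (TT ρ (fst a i) x - TT ρ (fst a j) x) ∂(gam n))
        + ∫ x in sxc a i ∩ Nᶜ, ∑ j, f j x * (TT ρ (fst a i) x - TT ρ (fst a j) x) ∂(gam n) := by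
    intro i
    rw [Set.inter_univ, ← setIntegral_union]
    · rw [Set.inter_union_compl]
    · exact Set.disjoint_left.2 fun x hx hx' => hx'.2 hx.2
    · exact (hmc i).inter hN.compl
    · exact (hJ i).integrableOn
    · exact (hJ i).integrableOn
  unfold CE
  rw [Finset.mul_sum, Finset.mul_sum, Finset.mul_sum, Finset.mul_sum, ← Finset.sum_add_distrib]
  apply Finset.sum_le_sum
  intro i _
  rw [hsplit i, mul_add]
  exact add_le_add (hnear i) (hfar i)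

end Pool.Agent.SSQ
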