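import Pool.Agent.SSQ.E7
import Pool.Agent.SSQ.E6c

set_option autoImplicit false
open MeasureTheory ProbabilityTheory Set Real

namespace Pool.Agent.SSQ
open Pool.Agent.SSC3N (gam GG TT gam_prob cubq cubi)

private theorem e7e_ne {m n : ℕ} {a : Fin (m + 2) → Fin n → ℝ} (ha : IsSx a) {i j : Fin (m + 2)}
    (hij : i ≠ j) : (fun l => a i l - a j l) ≠ 0 := by
  intro h
  have h1 : ∀ l, a j l = a i l := by
    intro l
    have h2 := congrFun h l
    simp only [Pi.zero_apply] at h2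
    linarith
  have h2 := ha.2 i j hij
  simp only [h1] at h2
  rw [ha.1 i] at h2
  have h3 : (0 : ℝ) < ((m + 2 : ℕ) : ℝ) - 1 := by
    push_cast
    have : (0 : ℝ) ≤ m := Nat.cast_nonneg m
    linarith
  rw [eq_div_iff h3.ne'] at h2
  linarith

private theorem e7e_gen (m : ℕ) {n : ℕ} (a : Fin (m + 2) → Fin n → ℝ)
    (f : Fin (m + 2) → (Fin n → ℝ) → ℝ) (hf : FP f) (N : Set (Fin n → ℝ)) (hN : MeasurableSet N)
    (w : Fin (m + 2) → Fin (m + 2) → (Fin n → ℝ) → ℝ)
    (hw : ∀ i j, Integrable (fun x => f j x * w i j x) (gam n)) (K : ℝ)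
    (h : ∀ i j, (∫ x in sxc a i ∩ N, f j x * wW i j x ∂(gam n)) ^ 2 ≤
      K * ∫ x in sxc a i ∩ N, f j x * w i j x ∂(gam n)) :
    CE a f N wW ^ 2 ≤ ((m : ℝ) + 2) ^ 2 * K * CE a f N w := by
  obtain ⟨-, -, -, hW, -⟩ := CE_basic m a f hf N hN
  have h1 : CE a f N wW = ∑ i, ∑ j, ∫ x in sxc a i ∩ N, f j x * wW i j x ∂(gam n) := by
    unfold CE
    exact Finset.sum_congr rfl fun i _ => integral_finsetSum _ fun j _ => (hW i j).integrableOn
  have h2 : CE a f N w = ∑ i, ∑ j, ∫ x in sxc a i ∩ N, f j x * w i j x ∂(gam n) := by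
    unfold CE
    exact Finset.sum_congr rfl fun i _ => integral_finsetSum _ fun j _ => (hw i j).integrableOn
  obtain ⟨I, hI⟩ : ∃ I : Fin (m + 2) → Fin (m + 2) → ℝ,
      I = fun i j => ∫ x in sxc a i ∩ N, f j x * wW i j x ∂(gam n) := ⟨_, rfl⟩
  obtain ⟨J, hJ⟩ : ∃ J : Fin (m + 2) → Fin (m + 2) → ℝ,
      J = fun i j => ∫ x in sxc a i ∩ N, f j x * w i j x ∂(gam n) := ⟨_, rfl⟩
  have h3 : ∀ i j, I i j ^ 2 ≤ K * J i j := by
    intro i j
    rw [hI, hJ]
    exact h i j
  have h4 : ∀ i, (∑ j, I i j) ^ 2 ≤ ((m : ℝ) + 2) * ∑ j, I i j ^ 2 := by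
    intro i
    have e := sq_sum_le_card_mul_sum_sq (s := (Finset.univ : Finset (Fin (m + 2)))) (f := I i)
    rw [Finset.card_univ, Fintype.card_fin] at e
    push_cast at e
    exact e
  have h5 : (∑ i, ∑ j, I i j) ^ 2 ≤ ((m : ℝ) + 2) * ∑ i, (∑ j, I i j) ^ 2 := by
    have e := sq_sum_le_card_mul_sum_sq (s := (Finset.univ : Finset (Fin (m + 2))))
      (f := fun i => ∑ j, I i j)
    rw [Finset.card_univ, Fintype.card_fin] at e
    push_cast at e
    exact e
  have hm0 : (0 : ℝ) ≤ (m : ℝ) + 2 := by positivity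
  have e1 : CE a f N wW = ∑ i, ∑ j, I i j := by rw [h1, hI]
  have e2 : CE a f N w = ∑ i, ∑ j, J i j := by rw [h2, hJ]
  rw [e1, e2]
  calc (∑ i, ∑ j, I i j) ^ 2 ≤ ((m : ℝ) + 2) * ∑ i, (∑ j, I i j) ^ 2 := h5
    _ ≤ ((m : ℝ) + 2) * ∑ i, ((m : ℝ) + 2) * ∑ j, I i j ^ 2 :=
        mul_le_mul_of_nonneg_left (Finset.sum_le_sum fun i _ => h4 i) hm0
    _ ≤ ((m : ℝ) + 2) * ∑ i, ((m : ℝ) + 2) * ∑ j, K * J i j :=
        mul_le_mul_of_nonneg_left (Finset.sum_le_sum fun i _ =>
          mul_le_mul_of_nonneg_left (Finset.sum_le_sum fun j _ => h3 i j) hm0) hm0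
    _ = ((m : ℝ) + 2) ^ 2 * K * ∑ i, ∑ j, J i j := by
        simp only [← Finset.mul_sum]
        ring

private theorem e7e_ind {n : ℕ} (s : Set (Fin n → ℝ)) (hs : MeasurableSet s)
    (F w : (Fin n → ℝ) → ℝ) :
    ∫ x in s, F x * w x ∂(gam n) = ∫ x, s.indicator F x * w x ∂(gam n) := by
  rw [← integral_indicator hs]
  refine integral_congr_ae (Filter.Eventually.of_forall fun x => ?_)
  by_cases hx : x ∈ s
  · simp only [indicator_of_mem hx]
  · simp only [indicator_of_notMem hx, zero_mul]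

/-- [E7e] MASSES VERSUS COSTS.  `(∑_i ∑_{j≠i} M_ij)² ≤ q² ∑ M_ij²`, `M_ij = ∫ g e^{X/32}` with
`g = f_j 1_{sxc a i ∩ N}`; `BB` with `θ = a_i - a_j ≠ 0` (`ha`), `η = 0, R = 0` (near; `min(s,1) ≤ s`), `η = 1/64` (far). -/
theorem mass_cost (m : ℕ) {n : ℕ} (a : Fin (m + 2) → Fin n → ℝ) (ha : IsSx a) : ∃ C : ℝ, 0 ≤ C ∧
    ∀ R : ℝ, 0 ≤ R → ∀ f : Fin (m + 2) → (Fin n → ℝ) → ℝ, FP f →
      CE a f {x | cubq x < R} wW ^ 2 ≤ C * CE a f {x | cubq x < R} (sd a) ∧
      CE a f {x | R ≤ cubq x} wW ^ 2 ≤ C * Real.exp (-(R / 32)) * CE a f {x | R ≤ cubq x} (wM a) := by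
  have hC : ∀ i j : Fin (m + 2), ∃ C : ℝ, 0 ≤ C ∧ (i ≠ j → ∀ (η R : ℝ), 0 ≤ η → η ≤ 1 / 64 →
      0 ≤ R → ∀ g : (Fin n → ℝ) → ℝ, Measurable g → (∀ x, 0 ≤ g x) → (∀ x, g x ≤ 1) →
      (∀ x, g x ≠ 0 → 0 ≤ ∑ l, (a i l - a j l) * x l ∧ R ≤ cubq x) →
      (∫ x, g x * Real.exp (cubq x / 32) ∂(gam n)) ^ 2 ≤
        C * Real.exp (-(R / 32)) *
          ∫ x, g x * (Real.exp (-(η * cubq x)) * min (∑ l, (a i l - a j l) * x l) 1) ∂(gam n)) := by
    intro i j
    by_cases hij : i = j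
    · exact ⟨0, le_rfl, fun h => absurd hij h⟩
    · obtain ⟨C, hC, h⟩ := BB (fun l => a i l - a j l) (e7e_ne ha hij)
      exact ⟨C, hC, fun _ => h⟩
  choose Cf hCf hBB using hC
  obtain ⟨C0, hC0⟩ : ∃ C0 : ℝ, C0 = ∑ i, ∑ j, Cf i j := ⟨_, rfl⟩
  have hC00 : 0 ≤ C0 := by
    rw [hC0]
    exact Finset.sum_nonneg fun i _ => Finset.sum_nonneg fun j _ => hCf i j
  have hle : ∀ i j, Cf i j ≤ C0 := by
    intro i j
    rw [hC0]
    calc Cf i j ≤ ∑ j, Cf i j :=
          Finset.single_le_sum (f := fun j => Cf i j) (fun j _ => hCf i j) (Finset.mem_univ j)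
      _ ≤ ∑ i, ∑ j, Cf i j :=
          Finset.single_le_sum (f := fun i => ∑ j, Cf i j)
            (fun i _ => Finset.sum_nonneg fun j _ => hCf i j) (Finset.mem_univ i)
  refine ⟨((m : ℝ) + 2) ^ 2 * C0, by positivity, ?_⟩
  intro R hR f hf
  obtain ⟨hsm, hsu, hsf, hsle⟩ := sxc_basic (by omega : 0 < m + 2) a
  have hcub : Measurable fun x : Fin n → ℝ => cubq x := by
    unfold cubq
    fun_prop
  have hcub0 : ∀ x : Fin n → ℝ, 0 ≤ cubq x := by
    intro x
    unfold cubq
    exact Finset.sum_nonneg fun l _ => sq_nonneg _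
  have hNn : MeasurableSet {x : Fin n → ℝ | cubq x < R} := measurableSet_lt hcub measurable_const
  have hNf : MeasurableSet {x : Fin n → ℝ | R ≤ cubq x} := measurableSet_le measurable_const hcub
  have hf1 : ∀ j x, f j x ≤ 1 := by
    intro j x
    rw [← hf.2.2 x]
    exact Finset.single_le_sum (fun j _ => hf.2.1 j x) (Finset.mem_univ j)
  -- properties of the cut off functions
  have hgm : ∀ (N : Set (Fin n → ℝ)), MeasurableSet N → ∀ i j,
      Measurable ((sxc a i ∩ N).indicator (f j)) :=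
    fun N hN i j => (hf.1 j).indicator ((hsm i).inter hN)
  have hg0 : ∀ (N : Set (Fin n → ℝ)) i j x, 0 ≤ (sxc a i ∩ N).indicator (f j) x :=
    fun N i j x => Set.indicator_nonneg (fun x _ => hf.2.1 j x) x
  have hg1 : ∀ (N : Set (Fin n → ℝ)) i j x, (sxc a i ∩ N).indicator (f j) x ≤ 1 := by
    intro N i j x
    by_cases hx : x ∈ sxc a i ∩ N
    · rw [indicator_of_mem hx]
      exact hf1 j x
    · rw [indicator_of_notMem hx]
      exact zero_le_one
  have hgs : ∀ (N : Set (Fin n → ℝ)) i j x, (sxc a i ∩ N).indicator (f j) x ≠ 0 →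
      0 ≤ ∑ l, (a i l - a j l) * x l ∧ x ∈ N := by
    intro N i j x hx
    have hm : x ∈ sxc a i ∩ N := by
      by_contra hn
      exact hx (indicator_of_notMem hn _)
    refine ⟨?_, hm.2⟩
    have h1 := hsle i x hm.1 j
    simp only [sub_mul, Finset.sum_sub_distrib]
    linarith
  have hwW : ∀ (N : Set (Fin n → ℝ)), MeasurableSet N → ∀ i j, i ≠ j →
      ∫ x in sxc a i ∩ N, f j x * wW i j x ∂(gam n) =
        ∫ x, (sxc a i ∩ N).indicator (f j) x * Real.exp (cubq x / 32) ∂(gam n) := by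
    intro N hN i j hij
    rw [← e7e_ind _ ((hsm i).inter hN) (f j)]
    refine integral_congr_ae (Filter.Eventually.of_forall fun x => ?_)
    change f j x * wW i j x = f j x * Real.exp (cubq x / 32)
    unfold wW
    rw [if_neg (Ne.symm hij)]
  have hwW0 : ∀ (N : Set (Fin n → ℝ)) i,
      ∫ x in sxc a i ∩ N, f i x * wW i i x ∂(gam n) = 0 := by
    intro N i
    have h1 : ∀ x : Fin n → ℝ, f i x * wW i i x = 0 := by
      intro x
      unfold wW
      rw [if_pos rfl, mul_zero]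
    simp only [h1, integral_zero]
  have hsd0 : ∀ i (x : Fin n → ℝ), sd a i i x = 0 := by
    intro i x
    unfold sd
    exact Finset.sum_eq_zero fun l _ => by rw [sub_self, zero_mul]
  have hmp : ∀ (N : Set (Fin n → ℝ)) i j x,
      0 ≤ (sxc a i ∩ N).indicator (f j) x * min (∑ l, (a i l - a j l) * x l) 1 := by
    intro N i j x
    by_cases h : (sxc a i ∩ N).indicator (f j) x = 0
    · rw [h, zero_mul]
    · exact mul_nonneg (hg0 N i j x) (le_min (hgs N i j x h).1 zero_le_one)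
  constructor
  · have hsdi := (CE_basic m a f hf _ hNn).2.1
    refine e7e_gen m a f hf _ hNn (sd a) hsdi C0 ?_
    intro i j
    by_cases hij : i = j
    · subst hij
      have h1 : ∀ x : Fin n → ℝ, f i x * sd a i i x = 0 := fun x => by rw [hsd0, mul_zero]
      rw [hwW0]
      simp only [h1, integral_zero, mul_zero]
      norm_num
    · rw [hwW _ hNn i j hij, e7e_ind _ ((hsm i).inter hNn) (f j)]
      have h1 := hBB i j hij 0 0 le_rfl (by norm_num) le_rfl _ (hgm _ hNn i j) (hg0 _ i j)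
        (hg1 _ i j) (fun x hx => ⟨(hgs _ i j x hx).1, hcub0 x⟩)
      refine h1.trans ?_
      have h2 : Cf i j * Real.exp (-(0 / 32)) = Cf i j := by
        rw [zero_div, neg_zero, Real.exp_zero, mul_one]
      rw [h2]
      have h3 : ∫ x, (sxc a i ∩ {x | cubq x < R}).indicator (f j) x *
          (Real.exp (-(0 * cubq x)) * min (∑ l, (a i l - a j l) * x l) 1) ∂(gam n) ≤
          ∫ x, (sxc a i ∩ {x | cubq x < R}).indicator (f j) x * sd a i j x ∂(gam n) := by
        refine integral_mono_of_nonneg (Filter.Eventually.of_forall fun x => ?_) ?_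
          (Filter.Eventually.of_forall fun x => ?_)
        · beta_reduce
          rw [zero_mul, neg_zero, Real.exp_zero, one_mul]
          exact hmp _ i j x
        · have e1 := (hsdi i j).indicator ((hsm i).inter hNn)
          refine e1.congr (Filter.Eventually.of_forall fun x => ?_)
          by_cases hx : x ∈ sxc a i ∩ {x | cubq x < R}
          · simp only [indicator_of_mem hx]
          · simp only [indicator_of_notMem hx, zero_mul]
        · change _ * (Real.exp (-(0 * cubq x)) * _) ≤ _ * sd a i j x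
          rw [zero_mul, neg_zero, Real.exp_zero, one_mul]
          exact mul_le_mul_of_nonneg_left (min_le_left _ _) (hg0 _ i j x)
      have h4 : 0 ≤ ∫ x, (sxc a i ∩ {x | cubq x < R}).indicator (f j) x *
          (Real.exp (-(0 * cubq x)) * min (∑ l, (a i l - a j l) * x l) 1) ∂(gam n) := by
        refine integral_nonneg fun x => ?_
        beta_reduce
        rw [zero_mul, neg_zero, Real.exp_zero, one_mul]
        exact hmp _ i j x
      exact (mul_le_mul_of_nonneg_right (hle i j) h4).trans (mul_le_mul_of_nonneg_left h3 hC00)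
  · have hwi := (CE_basic m a f hf _ hNf).2.2.1
    have hgen := e7e_gen m a f hf _ hNf (wM a) hwi (C0 * Real.exp (-(R / 32))) (by
      intro i j
      by_cases hij : i = j
      · subst hij
        have h1 : ∀ x : Fin n → ℝ, f i x * wM a i i x = 0 := by
          intro x
          unfold wM
          rw [hsd0, min_eq_left zero_le_one, mul_zero, mul_zero]
        rw [hwW0]
        simp only [h1, integral_zero, mul_zero]
        norm_num
      · rw [hwW _ hNf i j hij, e7e_ind _ ((hsm i).inter hNf) (f j)]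
        have h1 := hBB i j hij (1 / 64) R (by norm_num) le_rfl hR _ (hgm _ hNf i j) (hg0 _ i j)
          (hg1 _ i j) (fun x hx => ⟨(hgs _ i j x hx).1, (hgs _ i j x hx).2⟩)
        have h2 : ∫ x, (sxc a i ∩ {x | R ≤ cubq x}).indicator (f j) x *
            (Real.exp (-(1 / 64 * cubq x)) * min (∑ l, (a i l - a j l) * x l) 1) ∂(gam n) =
            ∫ x, (sxc a i ∩ {x | R ≤ cubq x}).indicator (f j) x * wM a i j x ∂(gam n) := by
          refine integral_congr_ae (Filter.Eventually.of_forall fun x => ?_)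
          unfold wM sd
          have e : (1 : ℝ) / 64 * cubq x = cubq x / 64 := by ring
          simp only [e]
        rw [h2] at h1
        refine h1.trans ?_
        have h4 : 0 ≤ ∫ x, (sxc a i ∩ {x | R ≤ cubq x}).indicator (f j) x * wM a i j x
            ∂(gam n) := by
          refine integral_nonneg fun x => ?_
          have e := mul_nonneg (Real.exp_pos (-(cubq x / 64))).le (hmp {x | R ≤ cubq x} i j x)
          have e2 : 0 ≤ (sxc a i ∩ {x | R ≤ cubq x}).indicator (f j) x * wM a i j x := by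
            unfold wM sd
            linarith
          exact e2
        exact mul_le_mul_of_nonneg_right
          (mul_le_mul_of_nonneg_right (hle i j) (Real.exp_pos _).le) h4)
    calc CE a f {x | R ≤ cubq x} wW ^ 2
        ≤ ((m : ℝ) + 2) ^ 2 * (C0 * Real.exp (-(R / 32))) * CE a f {x | R ≤ cubq x} (wM a) := hgen
      _ = ((m : ℝ) + 2) ^ 2 * C0 * Real.exp (-(R / 32)) * CE a f {x | R ≤ cubq x} (wM a) := by
          ring

end Pool.Agent.SSQ
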