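import Pool.Agent.SSQ.E7
import Pool.Agent.SSQ.C6

set_option autoImplicit false
open MeasureTheory ProbabilityTheory Set Real

namespace Pool.Agent.SSQ
open Pool.Agent.SSC3N (gam GG TT gam_prob cubq cubi)

private theorem e8_le {q n : ℕ} {f : Fin q → (Fin n → ℝ) → ℝ} (hf : FP f) (j : Fin q)
    (x : Fin n → ℝ) : f j x ≤ 1 := by
  rw [← hf.2.2 x]
  exact Finset.single_le_sum (fun i _ => hf.2.1 i x) (Finset.mem_univ j)

private theorem e8_fpi {q n : ℕ} {f : Fin q → (Fin n → ℝ) → ℝ} (hf : FP f) (i : Fin q) :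
    Integrable (f i) (gam n) := by
  have := gam_prob n
  refine (integrable_const (1 : ℝ)).mono' (hf.1 i).aestronglyMeasurable
    (Filter.Eventually.of_forall fun x => ?_)
  rw [Real.norm_eq_abs, abs_of_nonneg (hf.2.1 i x)]
  exact e8_le hf i x

/-- `∫_N ∑_i d_i ⟨a_i, x⟩ = -CE a f N (sd a)` -/
private theorem e8_cross (m : ℕ) {n : ℕ} (a : Fin (m + 2) → Fin n → ℝ)
    (f : Fin (m + 2) → (Fin n → ℝ) → ℝ) (hf : FP f) (N : Set (Fin n → ℝ)) (hN : MeasurableSet N)
    (hint : ∀ i l, Integrable (fun x : Fin n → ℝ => x l * df a f i x) (gam n)) :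
    ∑ i, ∑ l, a i l * (∫ x in N, x l * df a f i x ∂(gam n)) = -CE a f N (sd a) := by
  classical
  obtain ⟨hc1, hc2, hFP, hc4⟩ := sxc_basic (by omega : 0 < m + 2) a
  obtain ⟨hsd0, hsdi, -, -, -, -, -⟩ := CE_basic m a f hf N hN
  set G : Fin (m + 2) → (Fin n → ℝ) → ℝ := fun i x => ∑ j, f j x * sd a i j x with hG
  have hGi : ∀ i, Integrable (G i) (gam n) := fun i =>
    integrable_finsetSum _ fun j _ => hsdi i j
  have hGind : ∀ i, Integrable ((sxc a i).indicator (G i)) (gam n) := fun i =>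
    (hGi i).indicator (hc1 i)
  have hpt : ∀ x, ∑ i, ∑ l, a i l * (x l * df a f i x) = -∑ i, (sxc a i).indicator (G i) x := by
    intro x
    obtain ⟨k, hk, hku⟩ := hc2 x
    have h1 : ∑ i, (sxc a i).indicator (G i) x = G k x := by
      rw [Finset.sum_eq_single k]
      · exact indicator_of_mem hk _
      · intro i _ hi
        exact indicator_of_notMem (fun h => hi (hku i h)) _
      · intro h
        exact absurd (Finset.mem_univ k) h
    have hfi : ∀ i, fst a i x = if i = k then 1 else 0 := by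
      intro i
      by_cases hi : i = k
      · rw [if_pos hi, hi]
        exact indicator_of_mem hk _
      · rw [if_neg hi]
        exact indicator_of_notMem (fun h => hi (hku i h)) _
    rw [h1]
    have h2 : ∀ i, ∑ l, a i l * (x l * df a f i x) =
        f i x * (∑ l, a i l * x l) - (if i = k then ∑ l, a k l * x l else 0) := by
      intro i
      have h3 : ∑ l, a i l * (x l * df a f i x) = df a f i x * ∑ l, a i l * x l := by
        rw [Finset.mul_sum]
        exact Finset.sum_congr rfl fun l _ => by ring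
      rw [h3]
      unfold df
      rw [hfi i]
      by_cases hi : i = k
      · rw [if_pos hi, if_pos hi, hi]
        ring
      · rw [if_neg hi, if_neg hi]
        ring
    rw [Finset.sum_congr rfl fun i _ => h2 i, Finset.sum_sub_distrib, Finset.sum_ite_eq',
      if_pos (Finset.mem_univ _)]
    have h4 : G k x = ∑ l, a k l * x l - ∑ j, f j x * ∑ l, a j l * x l := by
      show ∑ j, f j x * sd a k j x = _
      have h5 : ∀ j, f j x * sd a k j x =
          f j x * (∑ l, a k l * x l) - f j x * ∑ l, a j l * x l := by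
        intro j
        unfold sd
        simp only [sub_mul]
        rw [Finset.sum_sub_distrib]
        ring
      rw [Finset.sum_congr rfl fun j _ => h5 j, Finset.sum_sub_distrib, ← Finset.sum_mul,
        hf.2.2 x, one_mul]
    rw [h4]
    ring
  have e1 : ∑ i, ∑ l, a i l * (∫ x in N, x l * df a f i x ∂(gam n)) =
      ∫ x in N, ∑ i, ∑ l, a i l * (x l * df a f i x) ∂(gam n) := by
    rw [integral_finsetSum _ fun i _ => integrable_finsetSum _ fun l _ =>
      ((hint i l).const_mul (a i l)).integrableOn]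
    refine Finset.sum_congr rfl fun i _ => ?_
    rw [integral_finsetSum _ fun l _ => ((hint i l).const_mul (a i l)).integrableOn]
    refine Finset.sum_congr rfl fun l _ => ?_
    rw [integral_const_mul]
  have e2 : ∫ x in N, ∑ i, ∑ l, a i l * (x l * df a f i x) ∂(gam n) =
      ∫ x in N, -∑ i, (sxc a i).indicator (G i) x ∂(gam n) := by
    congr 1
    funext x
    exact hpt x
  rw [e1, e2, integral_neg, integral_finsetSum _ fun i _ => (hGind i).integrableOn]
  unfold CE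
  congr 1
  refine Finset.sum_congr rfl fun i _ => ?_
  rw [setIntegral_indicator (hc1 i), inter_comm]

/-- the mixed partition -/
private theorem e8_mix {q n : ℕ} (f g : Fin q → (Fin n → ℝ) → ℝ) (hf : FP f) (hg : FP g)
    (N : Set (Fin n → ℝ)) (hN : MeasurableSet N) :
    FP (fun i x => g i x + N.indicator (fun x => f i x - g i x) x) := by
  classical
  have hval : ∀ i x, g i x + N.indicator (fun x => f i x - g i x) x =
      if x ∈ N then f i x else g i x := by
    intro i x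
    by_cases hx : x ∈ N
    · rw [indicator_of_mem hx, if_pos hx]
      ring
    · rw [indicator_of_notMem hx, if_neg hx]
      ring
  refine ⟨fun i => (hg.1 i).add (((hf.1 i).sub (hg.1 i)).indicator hN), fun i x => ?_, fun x => ?_⟩
  · show 0 ≤ g i x + N.indicator (fun x => f i x - g i x) x
    rw [hval i x]
    split_ifs
    · exact hf.2.1 i x
    · exact hg.2.1 i x
  · show ∑ i, (g i x + N.indicator (fun x => f i x - g i x) x) = 1
    by_cases hx : x ∈ N
    · rw [Finset.sum_congr rfl fun i _ => (hval i x).trans (if_pos hx)]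
      exact hf.2.2 x
    · rw [Finset.sum_congr rfl fun i _ => (hval i x).trans (if_neg hx)]
      exact hg.2.2 x

private theorem e8_sumsq {ι : Type} (s : Finset ι) (v w : ι → ℝ) (h : ∀ i ∈ s, |v i| ≤ w i) :
    ∑ i ∈ s, v i ^ 2 ≤ (∑ i ∈ s, w i) ^ 2 := by
  have h0 : ∀ i ∈ s, 0 ≤ w i := fun i hi => (abs_nonneg _).trans (h i hi)
  calc ∑ i ∈ s, v i ^ 2 ≤ ∑ i ∈ s, w i ^ 2 := by
        refine Finset.sum_le_sum fun i hi => ?_
        rw [← sq_abs (v i)]
        exact pow_le_pow_left₀ (abs_nonneg _) (h i hi) 2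
    _ ≤ ∑ i ∈ s, w i * ∑ j ∈ s, w j := by
        refine Finset.sum_le_sum fun i hi => ?_
        rw [pow_two]
        exact mul_le_mul_of_nonneg_left (Finset.single_le_sum h0 hi) (h0 i hi)
    _ = (∑ i ∈ s, w i) ^ 2 := by rw [← Finset.sum_mul, pow_two]

/-- [E8] USE OF THE CENTROID INEQUALITY.  `k1_il = ∫_N x_l d_i`, `k2_il = ∫_{Nᶜ} x_l d_i`, `κ = kap m`.
PROOF.  Let `f¹ = f` on `N` and `f* = fst a` on `Nᶜ` (`FP`).  `Kf f¹ = κa + k1` (`Kf_fst`), so
`Tf f¹ = κ²q + 2κ ∑ a_il k1_il + |k1|²`, `κ² q = T*` and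
`κ ∑_il a_il k1_il = κ ∫_N ∑_i d_i ⟨a_i, x⟩ = -κ CE a f N (sd a)` (on `sxc a i`: `∑_j f_j ⟨a_j,x⟩ - ⟨a_i,x⟩ = -∑_j f_j s_ij`).
Write `E = κ CE a f N (sd a)`: `Tf f¹ = T* - 2E + |k1|²`.  `Bprime` for `f¹`: with some orthogonal `U`,
`Tf f¹ ≤ T* - c |Kf f¹ - κaU|² + C pen f¹`.  By `hrot`:
`|k1 + k2| = |Kf f - κa| ≤ |Kf f - κaU| ≤ |Kf f¹ - κaU| + |k2|`, so `|k1| ≤ |Kf f¹ - κaU| + 2|k2|` and
`|Kf f¹ - κaU|² ≥ ½|k1|² - 4|k2|²`.  Hence `-2E + |k1|² ≤ -(c/2)|k1|² + 4c|k2|² + C pen f¹`.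
`pen f¹ = ∑ (∫_N d_i)² = ∑ (∫_{Nᶜ} d_i)²` (`∫ d_i = 0`: both partitions are balanced, `sx_law`), and
`∑_i |∫_{Nᶜ} d_i| ≤ 2 D`, `∑_i |k2_il| ≤ 2 C D` with `D = CE a f Nᶜ wW` (`df_mass`, `|x_l| ≤ C e^{X/32}`). -/
theorem use_B (m : ℕ) {n : ℕ} (a : Fin (m + 2) → Fin n → ℝ) (ha : IsSx a) : ∃ c C : ℝ, 0 < c ∧ 0 ≤ C ∧
    ∀ f : Fin (m + 2) → (Fin n → ℝ) → ℝ, FP f → (∀ i, ∫ x, f i x ∂(gam n) = 1 / ((m + 2 : ℕ) : ℝ)) →
      (∀ U ∈ Matrix.orthogonalGroup (Fin n) ℝ,
        ∑ i, ∑ l, (Kf f i l - kap m * a i l) ^ 2 ≤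
          ∑ i, ∑ l, (Kf f i l - kap m * ∑ p, a i p * U p l) ^ 2) →
      ∀ N : Set (Fin n → ℝ), MeasurableSet N →
        (1 + c) * ∑ i, ∑ l, (∫ x in N, x l * df a f i x ∂(gam n)) ^ 2 ≤
          2 * (kap m * CE a f N (sd a)) + C * CE a f Nᶜ wW ^ 2 ∧
        ∑ i, ∑ l, (∫ x in Nᶜ, x l * df a f i x ∂(gam n)) ^ 2 ≤ C * CE a f Nᶜ wW ^ 2 ∧
        ∀ i l, ∫ x, x l * df a f i x ∂(gam n) =
          (∫ x in N, x l * df a f i x ∂(gam n)) + ∫ x in Nᶜ, x l * df a f i x ∂(gam n) := by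
  classical
  have := gam_prob n
  obtain ⟨c0, C0, hc0, hC0, hB⟩ := Bprime m
  obtain ⟨B, hB0, hBx⟩ := (exp_mom n).2.1 (1 / 32) (by norm_num)
  obtain ⟨hκ, hT, hKf⟩ := Kf_fst m a ha
  obtain ⟨hc1, hc2, hFP, hc4⟩ := sxc_basic (by omega : 0 < m + 2) a
  refine ⟨c0 / 2, 18 * c0 * n * B ^ 2 + 4 * C0 + 4 * n * B ^ 2, by positivity, by positivity, ?_⟩
  intro f hf hb hrot N hN
  have hfi := (Kf_sum f hf).1
  have hgi := (Kf_sum (fst a) hFP).1
  have hint : ∀ i l, Integrable (fun x : Fin n → ℝ => x l * df a f i x) (gam n) := by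
    intro i l
    have h1 := (hfi i l).sub (hgi i l)
    refine h1.congr (Filter.Eventually.of_forall fun x => ?_)
    show x l * f i x - x l * fst a i x = x l * df a f i x
    unfold df
    ring
  have hdi : ∀ i, Integrable (fun x : Fin n → ℝ => df a f i x) (gam n) := fun i =>
    (e8_fpi hf i).sub (e8_fpi hFP i)
  have hsplit : ∀ i l, ∫ x, x l * df a f i x ∂(gam n) =
          (∫ x in N, x l * df a f i x ∂(gam n)) + ∫ x in Nᶜ, x l * df a f i x ∂(gam n) :=
    fun i l => (integral_add_compl hN (hint i l)).symm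
  -- names
  set D : ℝ := CE a f Nᶜ wW with hD
  have hD0 : 0 ≤ D := (CE_basic m a f hf Nᶜ hN.compl).2.2.2.2.2.2
  set k1 : Fin (m + 2) → Fin n → ℝ := fun i l => ∫ x in N, x l * df a f i x ∂(gam n) with hk1
  set k2 : Fin (m + 2) → Fin n → ℝ := fun i l => ∫ x in Nᶜ, x l * df a f i x ∂(gam n) with hk2
  -- far part
  have hfar : ∑ i, ∑ l, k2 i l ^ 2 ≤ 4 * n * B ^ 2 * D ^ 2 := by
    rw [Finset.sum_comm]
    have h1 : ∀ l : Fin n, ∑ i, k2 i l ^ 2 ≤ (2 * B * D) ^ 2 := by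
      intro l
      have h2 : ∑ i, ∫ x in Nᶜ, |df a f i x| * |x l| ∂(gam n) ≤ 2 * B * D := by
        refine df_mass m a f hf Nᶜ hN.compl (fun x => |x l|) ?_ B hB0 (fun x => abs_nonneg _) ?_
        · exact continuous_abs.measurable.comp (measurable_pi_apply l)
        · intro x
          have h3 := hBx x l
          have h4 : (1 / 32 : ℝ) * cubq x = cubq x / 32 := by ring
          rw [h4] at h3
          exact h3
      have h3 : ∑ i, k2 i l ^ 2 ≤ (∑ i, ∫ x in Nᶜ, |df a f i x| * |x l| ∂(gam n)) ^ 2 := by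
        refine e8_sumsq _ _ _ fun i _ => ?_
        show |∫ x in Nᶜ, x l * df a f i x ∂(gam n)| ≤ _
        refine (abs_integral_le_integral_abs).trans (le_of_eq ?_)
        congr 1
        funext x
        rw [abs_mul, mul_comm]
      refine h3.trans (pow_le_pow_left₀ (Finset.sum_nonneg fun i _ => ?_) h2 2)
      exact integral_nonneg fun x => mul_nonneg (abs_nonneg _) (abs_nonneg _)
    calc ∑ l : Fin n, ∑ i, k2 i l ^ 2 ≤ ∑ _l : Fin n, (2 * B * D) ^ 2 :=
          Finset.sum_le_sum fun l _ => h1 l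
      _ = 4 * n * B ^ 2 * D ^ 2 := by
          rw [Finset.sum_const, Finset.card_univ, Fintype.card_fin, nsmul_eq_mul]
          ring
  -- the mixed partition
  set f1 : Fin (m + 2) → (Fin n → ℝ) → ℝ :=
    fun i x => fst a i x + N.indicator (fun x => f i x - fst a i x) x with hf1
  have hf1P : FP f1 := e8_mix f (fst a) hf hFP N hN
  have hKf1 : ∀ i l, Kf f1 i l = kap m * a i l + k1 i l := by
    intro i l
    have h1 : ∀ x : Fin n → ℝ, x l * f1 i x =
        x l * fst a i x + N.indicator (fun x => x l * df a f i x) x := by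
      intro x
      show x l * (fst a i x + N.indicator (fun x => f i x - fst a i x) x) = _
      by_cases hx : x ∈ N
      · rw [indicator_of_mem hx, indicator_of_mem hx]
        unfold df
        ring
      · rw [indicator_of_notMem hx, indicator_of_notMem hx]
        ring
    unfold Kf
    rw [integral_congr_ae (Filter.Eventually.of_forall h1),
      integral_add (hgi i l) ((hint i l).indicator hN), integral_indicator hN]
    have h2 := hKf i l
    unfold Kf at h2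
    rw [h2]
  have hKff : ∀ i l, Kf f i l = kap m * a i l + k1 i l + k2 i l := by
    intro i l
    have h1 : ∀ x : Fin n → ℝ, x l * f i x = x l * fst a i x + x l * df a f i x := by
      intro x
      unfold df
      ring
    unfold Kf
    rw [integral_congr_ae (Filter.Eventually.of_forall h1),
      integral_add (hgi i l) (hint i l), hsplit i l]
    have h2 := hKf i l
    unfold Kf at h2
    rw [h2]
    ring
  -- Tf f1
  have hTf1 : Tf f1 = Tst m - 2 * (kap m * CE a f N (sd a)) + ∑ i, ∑ l, k1 i l ^ 2 := by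
    have h1 := e8_cross m a f hf N hN hint
    have h2 : ∑ i : Fin (m + 2), ∑ l, a i l * a i l = (m : ℝ) + 2 := by
      rw [Finset.sum_congr rfl fun i _ => ha.1 i]
      rw [Finset.sum_const, Finset.card_univ, Fintype.card_fin, nsmul_eq_mul]
      push_cast
      ring
    have h3 : Tf f1 = kap m ^ 2 * (∑ i : Fin (m + 2), ∑ l, a i l * a i l)
        + 2 * kap m * (∑ i, ∑ l, a i l * k1 i l) + ∑ i, ∑ l, k1 i l ^ 2 := by
      unfold Tf
      rw [Finset.mul_sum, Finset.mul_sum, ← Finset.sum_add_distrib, ← Finset.sum_add_distrib]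
      refine Finset.sum_congr rfl fun i _ => ?_
      rw [Finset.mul_sum, Finset.mul_sum, ← Finset.sum_add_distrib, ← Finset.sum_add_distrib]
      refine Finset.sum_congr rfl fun l _ => ?_
      rw [hKf1 i l]
      ring
    have h4 : ∑ i, ∑ l, a i l * k1 i l = -CE a f N (sd a) := h1
    rw [h3, h2, h4, hT]
    ring
  -- pen f1
  have hpen : pen f1 ≤ 4 * D ^ 2 := by
    have h1 : ∀ i, (∫ x, f1 i x ∂(gam n)) - 1 / ((m + 2 : ℕ) : ℝ) =
        -∫ x in Nᶜ, df a f i x ∂(gam n) := by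
      intro i
      have h2 : ∫ x, f1 i x ∂(gam n) =
          (∫ x, fst a i x ∂(gam n)) + ∫ x in N, df a f i x ∂(gam n) := by
        show ∫ x, (fst a i x + N.indicator (fun x => df a f i x) x) ∂(gam n) = _
        rw [integral_add (e8_fpi hFP i) ((hdi i).indicator hN), integral_indicator hN]
      have h3 : ∫ x, df a f i x ∂(gam n) = 0 := by
        have h4 : ∫ x, df a f i x ∂(gam n) = (∫ x, f i x ∂(gam n)) - ∫ x, fst a i x ∂(gam n) :=
          integral_sub (e8_fpi hf i) (e8_fpi hFP i)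
        rw [h4, hb i, (sx_law m a ha).1 i, sub_self]
      have h4 := integral_add_compl hN (hdi i)
      rw [h2, (sx_law m a ha).1 i]
      linarith
    have h2 : ∑ i, ∫ x in Nᶜ, |df a f i x| * 1 ∂(gam n) ≤ 2 * 1 * D := by
      refine df_mass m a f hf Nᶜ hN.compl (fun _ => 1) measurable_const 1 zero_le_one
        (fun x => zero_le_one) ?_
      intro x
      rw [one_mul]
      refine Real.one_le_exp ?_
      have h3 := Pool.Agent.SSC3N.cubq_nonneg x
      positivity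
    unfold pen
    have h3 : ∑ i, ((∫ x, f1 i x ∂(gam n)) - 1 / ((m + 2 : ℕ) : ℝ)) ^ 2 ≤
        (∑ i, ∫ x in Nᶜ, |df a f i x| * 1 ∂(gam n)) ^ 2 := by
      refine e8_sumsq _ _ _ fun i _ => ?_
      rw [h1 i, abs_neg]
      refine (abs_integral_le_integral_abs).trans (le_of_eq ?_)
      congr 1
      funext x
      rw [mul_one]
    have h4 : 0 ≤ ∑ i, ∫ x in Nᶜ, |df a f i x| * 1 ∂(gam n) :=
      Finset.sum_nonneg fun i _ => integral_nonneg fun x => mul_nonneg (abs_nonneg _) zero_le_one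
    have h5 := pow_le_pow_left₀ h4 h2 2
    have h6 : (2 * 1 * D) ^ 2 = 4 * D ^ 2 := by ring
    rw [h6] at h5
    exact h3.trans h5
  -- use of Bprime
  obtain ⟨U, hU, hUB⟩ := hB n a ha f1 hf1P
  have hrotU := hrot U hU
  set w : Fin (m + 2) → Fin n → ℝ := fun i l => Kf f1 i l - kap m * ∑ p, a i p * U p l with hw
  have e1 : ∑ i, ∑ l, (k1 i l + k2 i l) ^ 2 ≤ ∑ i, ∑ l, (w i l + k2 i l) ^ 2 := by
    have h1 : ∑ i, ∑ l, (Kf f i l - kap m * a i l) ^ 2 = ∑ i, ∑ l, (k1 i l + k2 i l) ^ 2 := by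
      refine Finset.sum_congr rfl fun i _ => Finset.sum_congr rfl fun l _ => ?_
      rw [hKff i l]
      ring
    have h2 : ∑ i, ∑ l, (Kf f i l - kap m * ∑ p, a i p * U p l) ^ 2 =
        ∑ i, ∑ l, (w i l + k2 i l) ^ 2 := by
      refine Finset.sum_congr rfl fun i _ => Finset.sum_congr rfl fun l _ => ?_
      show _ = (Kf f1 i l - kap m * ∑ p, a i p * U p l + k2 i l) ^ 2
      rw [hKff i l, hKf1 i l]
      ring
    rw [← h1, ← h2]
    exact hrotU
  have e2 : ∑ i, ∑ l, k1 i l ^ 2 ≤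
      3 / 2 * (∑ i, ∑ l, (k1 i l + k2 i l) ^ 2) + 3 * ∑ i, ∑ l, k2 i l ^ 2 := by
    rw [Finset.mul_sum, Finset.mul_sum, ← Finset.sum_add_distrib]
    refine Finset.sum_le_sum fun i _ => ?_
    rw [Finset.mul_sum, Finset.mul_sum, ← Finset.sum_add_distrib]
    refine Finset.sum_le_sum fun l _ => ?_
    nlinarith [sq_nonneg (k1 i l + 3 * k2 i l)]
  have e3 : ∑ i, ∑ l, (w i l + k2 i l) ^ 2 ≤
      4 / 3 * (∑ i, ∑ l, w i l ^ 2) + 4 * ∑ i, ∑ l, k2 i l ^ 2 := by
    rw [Finset.mul_sum, Finset.mul_sum, ← Finset.sum_add_distrib]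
    refine Finset.sum_le_sum fun i _ => ?_
    rw [Finset.mul_sum, Finset.mul_sum, ← Finset.sum_add_distrib]
    refine Finset.sum_le_sum fun l _ => ?_
    nlinarith [sq_nonneg (w i l - 3 * k2 i l)]
  have e4 : Tf f1 ≤ Tst m - c0 * (∑ i, ∑ l, w i l ^ 2) + C0 * pen f1 := hUB
  set K1 : ℝ := ∑ i, ∑ l, k1 i l ^ 2 with hK1
  set K2 : ℝ := ∑ i, ∑ l, k2 i l ^ 2 with hK2
  set W : ℝ := ∑ i, ∑ l, w i l ^ 2 with hW
  have hK20 : 0 ≤ K2 := Finset.sum_nonneg fun i _ => Finset.sum_nonneg fun l _ => sq_nonneg _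
  have hD2 : 0 ≤ D ^ 2 := sq_nonneg D
  have e5 : K1 ≤ 2 * W + 9 * K2 := by linarith
  have e6 : c0 * K1 ≤ c0 * (2 * W + 9 * K2) := mul_le_mul_of_nonneg_left e5 hc0.le
  have e7 : C0 * pen f1 ≤ C0 * (4 * D ^ 2) := mul_le_mul_of_nonneg_left hpen hC0
  have e8 : c0 * K2 ≤ c0 * (4 * n * B ^ 2 * D ^ 2) := mul_le_mul_of_nonneg_left hfar hc0.le
  have e9 : 0 ≤ (n : ℝ) * B ^ 2 * D ^ 2 := by positivity
  have e10 : 0 ≤ C0 * D ^ 2 := by positivity
  have e11 : 0 ≤ c0 * (n * B ^ 2 * D ^ 2) := by positivity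
  refine ⟨?_, ?_, hsplit⟩
  · show (1 + c0 / 2) * K1 ≤ 2 * (kap m * CE a f N (sd a)) +
      (18 * c0 * n * B ^ 2 + 4 * C0 + 4 * n * B ^ 2) * D ^ 2
    rw [hTf1] at e4
    nlinarith
  · show K2 ≤ (18 * c0 * n * B ^ 2 + 4 * C0 + 4 * n * B ^ 2) * D ^ 2
    nlinarith

end Pool.Agent.SSQ
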