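import Pool.Agent.SSQ.E7
import Pool.Agent.SSQ.E2c

set_option autoImplicit false
open MeasureTheory ProbabilityTheory Set Real

namespace Pool.Agent.SSQ
open Pool.Agent.SSC3N (gam GG TT gam_prob cubq cubi)

private theorem e9a_le_one {q n : ℕ} {f : Fin q → (Fin n → ℝ) → ℝ} (hf : FP f) (i : Fin q)
    (x : Fin n → ℝ) : f i x ≤ 1 := by
  rw [← hf.2.2 x]
  exact Finset.single_le_sum (fun j _ => hf.2.1 j x) (Finset.mem_univ i)

private theorem e9a_sq {ι : Type} (s : Finset ι) (M : ι → ℝ) (hM : ∀ i, 0 ≤ M i) :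
    ∑ i ∈ s, M i ^ 2 ≤ (∑ i ∈ s, M i) ^ 2 :=
  Finset.sum_sq_le_sq_sum_of_nonneg fun i _ => hM i

/-- [E9a] the sum of the self energies: `energy_d` for every `d_i = df a f i` (`|d_i| ≤ 1`, `∫ d_i = 0`), and
`∑_i (∫ |d_i| e^{X/32})² ≤ (∑_i ∫ |d_i| e^{X/32})² ≤ (2 (CE N wW + CE Nᶜ wW))² ≤ 8 (CE N wW² + CE Nᶜ wW²)` (`df_mass`). -/
theorem self_energy (m : ℕ) {n : ℕ} (a : Fin (m + 2) → Fin n → ℝ) (ha : IsSx a) : ∃ ρ0 C : ℝ,
    0 < ρ0 ∧ ρ0 ≤ 1 / 2 ∧ 0 ≤ C ∧ ∀ ρ : ℝ, |ρ| ≤ ρ0 → ρ ≠ 0 →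
    ∀ f : Fin (m + 2) → (Fin n → ℝ) → ℝ, FP f → (∀ i, ∫ x, f i x ∂(gam n) = 1 / ((m + 2 : ℕ) : ℝ)) →
      ∀ N : Set (Fin n → ℝ), MeasurableSet N →
        ρ / |ρ| * ∑ i, GG ρ (df a f i) (df a f i) ≤
          |ρ| * ∑ i, ∑ l, (∫ x, x l * df a f i x ∂(gam n)) ^ 2
            + C * ρ ^ 2 * (CE a f N wW ^ 2 + CE a f Nᶜ wW ^ 2) := by
  obtain ⟨ρ0, C0, h0, h1, hC0, hE⟩ := energy_d n
  refine ⟨ρ0, 8 * C0, h0, h1, by positivity, ?_⟩
  intro ρ hρ hne f hf hm N hN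
  have hP : IsProbabilityMeasure (gam n) := inferInstance
  have hr : 0 < |ρ| := abs_pos.2 hne
  obtain ⟨hsm, hsu, hsf, hsle⟩ := sxc_basic (by omega : 0 < m + 2) a
  have hdm : ∀ i, Measurable (df a f i) := fun i => (hf.1 i).sub (hsf.1 i)
  have hd1 : ∀ i x, |df a f i x| ≤ 1 := by
    intro i x
    have e1 := hf.2.1 i x
    have e2 := e9a_le_one hf i x
    have e3 := hsf.2.1 i x
    have e4 := e9a_le_one hsf i x
    unfold df
    rw [abs_le]
    constructor <;> linarith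
  have hint : ∀ g : Fin (m + 2) → (Fin n → ℝ) → ℝ, FP g → ∀ i, Integrable (g i) (gam n) := by
    intro g hg i
    refine Integrable.mono' (integrable_const (1 : ℝ)) (hg.1 i).aestronglyMeasurable
      (Filter.Eventually.of_forall fun x => ?_)
    rw [Real.norm_of_nonneg (hg.2.1 i x)]
    exact e9a_le_one hg i x
  have hd0 : ∀ i, ∫ x, df a f i x ∂(gam n) = 0 := by
    intro i
    have e1 : ∫ x, df a f i x ∂(gam n) = ∫ x, f i x ∂(gam n) - ∫ x, fst a i x ∂(gam n) :=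
      integral_sub (hint f hf i) (hint _ hsf i)
    rw [e1, hm i, (sx_law m a ha).1 i, sub_self]
  obtain ⟨M, hM⟩ : ∃ M : Fin (m + 2) → ℝ,
      M = fun i => ∫ x, |df a f i x| * Real.exp (cubq x / 32) ∂(gam n) := ⟨_, rfl⟩
  have hM0 : ∀ i, 0 ≤ M i := by
    intro i
    rw [hM]
    exact integral_nonneg fun x => by positivity
  have hcm : Measurable fun x : Fin n → ℝ => Real.exp (cubq x / 32) := by
    unfold cubq
    fun_prop
  have hci : Integrable (fun x : Fin n → ℝ => Real.exp (cubq x / 32)) (gam n) := by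
    have e1 := (exp_mom n).1 (1 / 32) (by norm_num)
    refine e1.congr (Filter.Eventually.of_forall fun x => ?_)
    change Real.exp (1 / 32 * cubq x) = Real.exp (cubq x / 32)
    congr 1
    ring
  have hdi : ∀ i, Integrable (fun x => |df a f i x| * Real.exp (cubq x / 32)) (gam n) := by
    intro i
    refine Integrable.mono' hci (((hdm i).abs).mul hcm).aestronglyMeasurable
      (Filter.Eventually.of_forall fun x => ?_)
    rw [Real.norm_of_nonneg (by positivity)]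
    have e1 := mul_le_mul_of_nonneg_right (hd1 i x) (Real.exp_pos (cubq x / 32)).le
    rw [one_mul] at e1
    exact e1
  have hterm : ∀ i, ρ / |ρ| * GG ρ (df a f i) (df a f i) ≤
      |ρ| * ∑ l, (∫ x, x l * df a f i x ∂(gam n)) ^ 2 + C0 * ρ ^ 2 * M i ^ 2 := by
    intro i
    have e1 := hE ρ hρ (df a f i) (hdm i) (hd1 i) (hd0 i)
    obtain ⟨G, hG⟩ : ∃ G : ℝ, G = GG ρ (df a f i) (df a f i) := ⟨_, rfl⟩
    obtain ⟨S, hS⟩ : ∃ S : ℝ, S = ∑ l, (∫ x, x l * df a f i x ∂(gam n)) ^ 2 := ⟨_, rfl⟩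
    rw [← hG, ← hS] at e1 ⊢
    have hMi : M i = ∫ x, |df a f i x| * Real.exp (cubq x / 32) ∂(gam n) := by rw [hM]
    rw [← hMi] at e1
    have e2 := abs_le.1 e1
    rcases lt_or_gt_of_ne hne with h | h
    · rw [abs_of_neg h]
      have e3 : ρ / -ρ = -1 := by
        rw [div_neg, div_self hne]
      rw [e3]
      linarith [e2.1]
    · rw [abs_of_pos h, div_self hne, one_mul]
      linarith [e2.2]
  have hA := (CE_basic m a f hf N hN).2.2.2.2.2.2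
  have hB := (CE_basic m a f hf Nᶜ hN.compl).2.2.2.2.2.2
  have hsumM : ∑ i, M i ≤ 2 * (CE a f N wW + CE a f Nᶜ wW) := by
    have e1 := df_mass m a f hf N hN (fun x => Real.exp (cubq x / 32)) hcm 1 zero_le_one
      (fun x => (Real.exp_pos _).le) (fun x => by rw [one_mul])
    have e2 := df_mass m a f hf Nᶜ hN.compl (fun x => Real.exp (cubq x / 32)) hcm 1 zero_le_one
      (fun x => (Real.exp_pos _).le) (fun x => by rw [one_mul])
    have e3 : ∑ i, M i = ∑ i, ∫ x in N, |df a f i x| * Real.exp (cubq x / 32) ∂(gam n) +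
        ∑ i, ∫ x in Nᶜ, |df a f i x| * Real.exp (cubq x / 32) ∂(gam n) := by
      rw [← Finset.sum_add_distrib, hM]
      exact Finset.sum_congr rfl fun i _ => (integral_add_compl hN (hdi i)).symm
    rw [e3]
    linarith
  have hM2 : ∑ i, M i ^ 2 ≤ 8 * (CE a f N wW ^ 2 + CE a f Nᶜ wW ^ 2) := by
    have e1 := e9a_sq Finset.univ M hM0
    have e2 : 0 ≤ ∑ i, M i := Finset.sum_nonneg fun i _ => hM0 i
    have e3 : (∑ i, M i) ^ 2 ≤ (2 * (CE a f N wW + CE a f Nᶜ wW)) ^ 2 :=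
      pow_le_pow_left₀ e2 hsumM 2
    nlinarith [sq_nonneg (CE a f N wW - CE a f Nᶜ wW)]
  calc ρ / |ρ| * ∑ i, GG ρ (df a f i) (df a f i)
      = ∑ i, ρ / |ρ| * GG ρ (df a f i) (df a f i) := by rw [Finset.mul_sum]
    _ ≤ ∑ i, (|ρ| * ∑ l, (∫ x, x l * df a f i x ∂(gam n)) ^ 2 + C0 * ρ ^ 2 * M i ^ 2) :=
        Finset.sum_le_sum fun i _ => hterm i
    _ = |ρ| * ∑ i, ∑ l, (∫ x, x l * df a f i x ∂(gam n)) ^ 2 + C0 * ρ ^ 2 * ∑ i, M i ^ 2 := by
        rw [Finset.sum_add_distrib, Finset.mul_sum, Finset.mul_sum]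
    _ ≤ |ρ| * ∑ i, ∑ l, (∫ x, x l * df a f i x ∂(gam n)) ^ 2 +
        8 * C0 * ρ ^ 2 * (CE a f N wW ^ 2 + CE a f Nᶜ wW ^ 2) := by
        have e1 := mul_le_mul_of_nonneg_left hM2 (by positivity : 0 ≤ C0 * ρ ^ 2)
        linarith

end Pool.Agent.SSQ
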