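import Pool.Agent.SSQ.Defs

set_option autoImplicit false
open MeasureTheory ProbabilityTheory Set Real

namespace Pool.Agent.SSQ

/-- [E9b] elementary final inequality.  `E` near cost, `J` far cost, `k1, k2, k` squared norms, `Dn, Df` squared masses,
`r = |ρ|`.  From `k ≤ (1+ε) k1 + (1+1/ε) k2`, `(1+c) k1 ≤ 2E + C Df`, `k2 ≤ C Df`, `Dn ≤ C E`, `Df ≤ C r^{1/4} J`:
with `ε = c/2`: `(1+ε)/(1+c) = 1 - (c/2)/(1+c) =: 1 - η`, so
`-2(1 - C√r)E - 2c'J + k + C r (Dn + Df) ≤ -2(η - C√r - C² r/2) E - (2c' - C'r^{1/4}) J ≤ 0` for small `r`. -/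
theorem final_real (c c' C : ℝ) (hc : 0 < c) (hc' : 0 < c') (hC : 0 ≤ C) : ∃ r0 : ℝ, 0 < r0 ∧
    ∀ r E J k k1 k2 Dn Df : ℝ, 0 < r → r ≤ r0 → 0 ≤ E → 0 ≤ J → 0 ≤ k1 → 0 ≤ k2 → 0 ≤ Dn → 0 ≤ Df →
      (∀ ε : ℝ, 0 < ε → k ≤ (1 + ε) * k1 + (1 + 1 / ε) * k2) →
      (1 + c) * k1 ≤ 2 * E + C * Df → k2 ≤ C * Df → Dn ≤ C * E → Df ≤ C * r ^ (1 / 4 : ℝ) * J →
      -2 * (1 - C * Real.sqrt r) * E - 2 * c' * J + k + C * r * (Dn + Df) ≤ 0 := by
  have h1c : 0 < 1 + c := by linarith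
  obtain ⟨η, hη0, hη⟩ : ∃ η : ℝ, 0 < η ∧ (1 + c / 2) = (1 - η) * (1 + c) := by
    refine ⟨(c / 2) / (1 + c), by positivity, ?_⟩
    field_simp
    ring
  have hA : 0 ≤ C ^ 2 * (3 + 2 / c) := by positivity
  obtain ⟨δ, hδ0, hδ1, hδ2, hδ3⟩ : ∃ δ : ℝ, 0 < δ ∧ δ ≤ 1 ∧ (2 * C + C ^ 2) * δ ≤ 2 * η ∧
      (C ^ 2 * (3 + 2 / c)) * δ ≤ 2 * c' := by
    have hB : 0 < 2 * C + C ^ 2 + 1 := by positivity
    have hB2 : 0 < C ^ 2 * (3 + 2 / c) + 1 := by linarith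
    refine ⟨min 1 (min (2 * η / (2 * C + C ^ 2 + 1)) (2 * c' / (C ^ 2 * (3 + 2 / c) + 1))),
      lt_min one_pos (lt_min (by positivity) (by positivity)), min_le_left _ _, ?_, ?_⟩
    · have h1 : min 1 (min (2 * η / (2 * C + C ^ 2 + 1)) (2 * c' / (C ^ 2 * (3 + 2 / c) + 1))) ≤
          2 * η / (2 * C + C ^ 2 + 1) := (min_le_right _ _).trans (min_le_left _ _)
      calc (2 * C + C ^ 2) * _ ≤ (2 * C + C ^ 2) * (2 * η / (2 * C + C ^ 2 + 1)) :=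
            mul_le_mul_of_nonneg_left h1 (by positivity)
        _ = 2 * η * ((2 * C + C ^ 2) / (2 * C + C ^ 2 + 1)) := by ring
        _ ≤ 2 * η * 1 := by
            apply mul_le_mul_of_nonneg_left _ (by positivity)
            rw [div_le_one hB]; linarith
        _ = 2 * η := mul_one _
    · have h1 : min 1 (min (2 * η / (2 * C + C ^ 2 + 1)) (2 * c' / (C ^ 2 * (3 + 2 / c) + 1))) ≤
          2 * c' / (C ^ 2 * (3 + 2 / c) + 1) := (min_le_right _ _).trans (min_le_right _ _)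
      calc (C ^ 2 * (3 + 2 / c)) * _ ≤
            (C ^ 2 * (3 + 2 / c)) * (2 * c' / (C ^ 2 * (3 + 2 / c) + 1)) :=
            mul_le_mul_of_nonneg_left h1 hA
        _ = 2 * c' * ((C ^ 2 * (3 + 2 / c)) / (C ^ 2 * (3 + 2 / c) + 1)) := by ring
        _ ≤ 2 * c' * 1 := by
            apply mul_le_mul_of_nonneg_left _ (by positivity)
            rw [div_le_one hB2]; linarith
        _ = 2 * c' := mul_one _
  refine ⟨δ ^ 4, by positivity, ?_⟩
  intro r E J k k1 k2 Dn Df hr hr0 hE hJ hk1 hk2 hDn hDf hk h1 h2 h3 h4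
  obtain ⟨t, ht⟩ : ∃ t : ℝ, t = r ^ (1 / 4 : ℝ) := ⟨_, rfl⟩
  rw [← ht] at h4
  have ht0 : 0 < t := by rw [ht]; positivity
  have ht4 : t ^ 4 = r := by
    rw [ht, ← Real.rpow_natCast, ← Real.rpow_mul hr.le]
    norm_num
  have htδ : t ≤ δ := by
    have h5 : t ^ 4 ≤ δ ^ 4 := by rw [ht4]; exact hr0
    exact le_of_pow_le_pow_left₀ (by norm_num) hδ0.le h5
  have ht1 : t ≤ 1 := htδ.trans hδ1
  have hsq : Real.sqrt r = t ^ 2 := by
    rw [← ht4, show t ^ 4 = (t ^ 2) ^ 2 by ring, Real.sqrt_sq (by positivity)]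
  have ht2 : t ^ 2 ≤ t := by nlinarith
  have ht44 : t ^ 4 ≤ t := by
    calc t ^ 4 = t ^ 2 * t ^ 2 := by ring
      _ ≤ t * 1 := mul_le_mul ht2 (by nlinarith) (by positivity) ht0.le
      _ = t := mul_one t
  have hkk := hk (c / 2) (by positivity)
  rw [hη] at hkk
  have hη1 : 0 < 1 - η := by
    have : 0 < (1 - η) * (1 + c) := by rw [← hη]; positivity
    exact (pos_iff_pos_of_mul_pos this).2 h1c
  have hη2 : 1 - η ≤ 1 := by linarith
  have e1 : (1 - η) * (1 + c) * k1 ≤ (1 - η) * (2 * E + C * Df) := by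
    rw [mul_assoc]
    exact mul_le_mul_of_nonneg_left h1 hη1.le
  have e2 : (1 + 1 / (c / 2)) * k2 ≤ (1 + 2 / c) * (C * Df) := by
    have : 1 + 1 / (c / 2) = 1 + 2 / c := by field_simp
    rw [this]
    exact mul_le_mul_of_nonneg_left h2 (by positivity)
  have e3 : (1 - η) * (C * Df) ≤ C * Df := mul_le_of_le_one_left (by positivity) hη2
  rw [hsq, ← ht4]
  have hCE : 0 ≤ C * E := by positivity
  have e4 : C * t ^ 4 * Dn ≤ C * t * (C * E) :=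
    mul_le_mul (mul_le_mul_of_nonneg_left ht44 hC) h3 hDn (by positivity)
  have e5 : C * t ^ 4 * Df ≤ C * 1 * Df := by
    apply mul_le_mul_of_nonneg_right _ hDf
    exact mul_le_mul_of_nonneg_left (ht44.trans ht1) hC
  have e6 : C * t ^ 2 * E ≤ C * t * E :=
    mul_le_mul_of_nonneg_right (mul_le_mul_of_nonneg_left ht2 hC) hE
  -- the factor of `Df`
  have e7 : (C * (3 + 2 / c)) * Df ≤ (C * (3 + 2 / c)) * (C * t * J) :=
    mul_le_mul_of_nonneg_left h4 (by positivity)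
  have e8 : (C * (3 + 2 / c)) * (C * t * J) ≤ 2 * c' * J := by
    calc (C * (3 + 2 / c)) * (C * t * J) = (C ^ 2 * (3 + 2 / c)) * t * J := by ring
      _ ≤ (C ^ 2 * (3 + 2 / c)) * δ * J :=
          mul_le_mul_of_nonneg_right (mul_le_mul_of_nonneg_left htδ hA) hJ
      _ ≤ 2 * c' * J := mul_le_mul_of_nonneg_right hδ3 hJ
  have e9 : (2 * C + C ^ 2) * t * E ≤ 2 * η * E := by
    apply mul_le_mul_of_nonneg_right _ hE
    exact (mul_le_mul_of_nonneg_left htδ (by positivity)).trans hδ2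
  have e10 : (C * (3 + 2 / c)) * Df = C * Df + (1 + 2 / c) * (C * Df) + C * 1 * Df := by ring
  linarith [hkk, e1, e2, e3, e4, e5, e6, e7, e8, e9, e10]

end Pool.Agent.SSQ
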