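import Pool.Agent.SSQ.E8
import Pool.Agent.SSQ.E9a
import Pool.Agent.SSQ.E9b
import Pool.Agent.SSQ.E7c
import Pool.Agent.SSQ.E7d
import Pool.Agent.SSQ.E7e

set_option autoImplicit false
open MeasureTheory ProbabilityTheory Set Real

namespace Pool.Agent.SSQ
open Pool.Agent.SSC3N (gam GG TT gam_prob cubq cubi)

private theorem e9_GG_zero {m : ℕ} (g h : (Fin m → ℝ) → ℝ) :
    GG 0 g h = (∫ y, g y ∂(gam m)) * ∫ z, h z ∂(gam m) := by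
  have : IsProbabilityMeasure (gam m) := gam_prob m
  unfold GG
  have h1 : ∀ y : Fin m → ℝ, ∫ z, g y * h ((0:ℝ) • y + Real.sqrt (1 - 0 ^ 2) • z) ∂(gam m)
      = g y * ∫ z, h z ∂(gam m) := by
    intro y
    rw [integral_const_mul]
    congr 1
    refine integral_congr_ae (Filter.Eventually.of_forall fun z => ?_)
    simp
  rw [integral_congr_ae (Filter.Eventually.of_forall h1), integral_mul_const]

private theorem e9_exp (r : ℝ) (hr : 0 < r) :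
    Real.exp (-(8 * Real.log (1 / r) / 32)) = r ^ (1 / 4 : ℝ) := by
  rw [Real.rpow_def_of_pos hr, one_div, Real.log_inv]
  congr 1
  ring

private theorem e9_young (x y ε : ℝ) (hε : 0 < ε) :
    (x + y) ^ 2 ≤ (1 + ε) * x ^ 2 + (1 + 1 / ε) * y ^ 2 := by
  have h1 : (1 + ε) * x ^ 2 + (1 + 1 / ε) * y ^ 2 - (x + y) ^ 2 = (ε * x - y) ^ 2 / ε := by
    field_simp
    ring
  have h2 : 0 ≤ (ε * x - y) ^ 2 / ε := by positivity
  linarith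

/-- the real computation: one sign -/
private theorem e9_alg (C1 C2 C c' r E J k Dn Df F G M S σ : ℝ) (hr : 0 < r) (hE : 0 ≤ E)
    (hDn : 0 ≤ Dn) (hDf : 0 ≤ Df) (h1C : C1 ≤ C) (h2C : C2 ≤ C)
    (hid : F = G - 2 * M + S)
    (hmain : r * (1 - C1 * Real.sqrt r) * E + c' * r * J ≤ σ * M)
    (hself : σ * S ≤ r * k + C2 * r ^ 2 * (Dn + Df))
    (hfin : -2 * (1 - C * Real.sqrt r) * E - 2 * c' * J + k + C * r * (Dn + Df) ≤ 0) :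
    σ * (F - G) ≤ 0 := by
  have hs : 0 ≤ Real.sqrt r := Real.sqrt_nonneg r
  have e1 : σ * (F - G) = -2 * (σ * M) + σ * S := by
    rw [hid]
    ring
  have e2 : 0 ≤ (C - C1) * (Real.sqrt r * E * r) :=
    mul_nonneg (sub_nonneg.2 h1C) (mul_nonneg (mul_nonneg hs hE) hr.le)
  have e3 : 0 ≤ (C - C2) * (r ^ 2 * (Dn + Df)) :=
    mul_nonneg (sub_nonneg.2 h2C) (mul_nonneg (sq_nonneg r) (add_nonneg hDn hDf))
  have e4 : r * (-2 * (1 - C * Real.sqrt r) * E - 2 * c' * J + k + C * r * (Dn + Df)) ≤ 0 :=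
    mul_nonpos_of_nonneg_of_nonpos hr.le hfin
  rw [e1]
  nlinarith

/-- [E9c] FIXED DIMENSION.
PROOF.  `ρ = 0`: `GG 0 g g = (∫ g)²`, both sides are `1/q` (`sx_law`).  Let `0 < |ρ| ≤ ρ₀`, `σ = ρ/|ρ|`.  `best_rot`: replace
`f` by `f'` (same `Fn`, same masses).  `energy_id`, multiplied by `σ`:
`σ (Fn ρ f - Fn ρ f*) = -2 σ CE univ (...) + σ ∑ GG d d`.  `R = 8 log(1/|ρ|)`, `N = {cubq < R}` (`Nᶜ = {R ≤ cubq}`),
`e^{-R/32} = |ρ|^{1/4}`.  `main_term`, `self_energy`, `use_B`, `mass_cost` (`E = κ CE N sd`, `J = CE Nᶜ wM`,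
`k = ∑ (∫ x_l d_i)² ≤ (1+ε) k1 + (1+1/ε) k2` by `use_B`'s last part and `(x+y)² ≤ (1+ε)x² + (1+1/ε)y²`; note
`CE N sd = E/κ`, `κ > 0`), and `final_real` with `r = |ρ|`, divided by `|ρ|`: `σ (Fn ρ f - Fn ρ f*) ≤ 0`.  All constants:
take the maximum. -/
theorem fixed_n (m : ℕ) {n : ℕ} (a : Fin (m + 2) → Fin n → ℝ) (ha : IsSx a) : ∃ ρ0 : ℝ, 0 < ρ0 ∧
    ρ0 ≤ 1 / 2 ∧ ∀ ρ : ℝ, |ρ| ≤ ρ0 → ∀ f : Fin (m + 2) → (Fin n → ℝ) → ℝ, FP f →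
      (∀ i, ∫ x, f i x ∂(gam n) = 1 / ((m + 2 : ℕ) : ℝ)) →
      (0 ≤ ρ → Fn ρ f ≤ Fn ρ (fst a)) ∧ (ρ ≤ 0 → Fn ρ (fst a) ≤ Fn ρ f) := by
  obtain ⟨ρ1, c1, C1, hρ1, hρ1', hc1, hC1, hmain⟩ := main_term m a ha
  obtain ⟨ρ2, C2, hρ2, hρ2', hC2, hself⟩ := self_energy m a ha
  obtain ⟨c3, C3, hc3, hC3, huse⟩ := use_B m a ha
  obtain ⟨C4, hC4, hmass⟩ := mass_cost m a ha
  obtain ⟨hκ, hT, hKf⟩ := Kf_fst m a ha
  set C : ℝ := C1 + C2 + C3 + C4 + C4 / kap m with hCdef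
  have hC4κ : 0 ≤ C4 / kap m := div_nonneg hC4 hκ.le
  have hC : 0 ≤ C := by positivity
  have h1C : C1 ≤ C := by linarith
  have h2C : C2 ≤ C := by linarith
  have h3C : C3 ≤ C := by linarith
  have h4C : C4 ≤ C := by linarith
  have h5C : C4 / kap m ≤ C := by linarith
  obtain ⟨r0, hr0, hfin⟩ := final_real c3 c1 C hc3 hc1 hC
  refine ⟨min (min ρ1 ρ2) r0, lt_min (lt_min hρ1 hρ2) hr0,
    ((min_le_left _ _).trans (min_le_left _ _)).trans hρ1', ?_⟩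
  intro ρ hρ f₀ hf₀ hb₀
  have hρa : |ρ| ≤ ρ1 := hρ.trans ((min_le_left _ _).trans (min_le_left _ _))
  have hρb : |ρ| ≤ ρ2 := hρ.trans ((min_le_left _ _).trans (min_le_right _ _))
  have hρc : |ρ| ≤ r0 := hρ.trans (min_le_right _ _)
  have hρh : |ρ| ≤ 1 / 2 := hρa.trans hρ1'
  have hρl : -1 < ρ := by linarith [neg_abs_le ρ]
  have hρu : ρ < 1 := by linarith [le_abs_self ρ]
  by_cases h0 : ρ = 0
  · have h1 : Fn ρ f₀ = Fn ρ (fst a) := by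
      unfold Fn
      refine Finset.sum_congr rfl fun i _ => ?_
      rw [h0, e9_GG_zero, e9_GG_zero, hb₀ i, (sx_law m a ha).1 i]
    exact ⟨fun _ => h1.le, fun _ => h1.ge⟩
  obtain ⟨f, hf, hFn, hbm, hrot⟩ := best_rot m a f₀ hf₀
  have hb : ∀ i, ∫ x, f i x ∂(gam n) = 1 / ((m + 2 : ℕ) : ℝ) := fun i => (hbm i).trans (hb₀ i)
  have hr : 0 < |ρ| := abs_pos.2 h0
  have hlog : 0 ≤ 8 * Real.log (1 / |ρ|) := by
    have h1 : 1 ≤ 1 / |ρ| := by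
      rw [le_div_iff₀ hr]
      linarith
    have h2 := Real.log_nonneg h1
    linarith
  set N : Set (Fin n → ℝ) := {x | cubq x < 8 * Real.log (1 / |ρ|)} with hNdef
  have hN : MeasurableSet N :=
    measurableSet_lt Pool.Agent.SSC3N.cubq_measurable measurable_const
  have hNc : Nᶜ = {x : Fin n → ℝ | 8 * Real.log (1 / |ρ|) ≤ cubq x} := by
    ext x
    show ¬ (cubq x < 8 * Real.log (1 / |ρ|)) ↔ 8 * Real.log (1 / |ρ|) ≤ cubq x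
    exact not_lt
  have hm := hmain ρ hρa h0 f hf
  rw [← hNc] at hm
  have hs := hself ρ hρb h0 f hf hb N hN
  obtain ⟨hu1, hu2, hu3⟩ := huse f hf hb hrot N hN
  obtain ⟨hm1, hm2⟩ := hmass (8 * Real.log (1 / |ρ|)) hlog f hf
  rw [← hNc] at hm2
  obtain ⟨-, -, -, -, hb1, -, -⟩ := CE_basic m a f hf N hN
  obtain ⟨-, -, -, -, -, hb2, -⟩ := CE_basic m a f hf Nᶜ hN.compl
  have hE : 0 ≤ kap m * CE a f N (sd a) := mul_nonneg hκ.le hb1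
  rw [e9_exp |ρ| hr] at hm2
  have hDf0 : 0 ≤ CE a f Nᶜ wW ^ 2 := sq_nonneg _
  have hDn0 : 0 ≤ CE a f N wW ^ 2 := sq_nonneg _
  have hkk : ∀ ε : ℝ, 0 < ε → ∑ i, ∑ l, (∫ x, x l * df a f i x ∂(gam n)) ^ 2 ≤
      (1 + ε) * ∑ i, ∑ l, (∫ x in N, x l * df a f i x ∂(gam n)) ^ 2 +
      (1 + 1 / ε) * ∑ i, ∑ l, (∫ x in Nᶜ, x l * df a f i x ∂(gam n)) ^ 2 := by
    intro ε hε
    rw [Finset.mul_sum, Finset.mul_sum, ← Finset.sum_add_distrib]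
    refine Finset.sum_le_sum fun i _ => ?_
    rw [Finset.mul_sum, Finset.mul_sum, ← Finset.sum_add_distrib]
    refine Finset.sum_le_sum fun l _ => ?_
    rw [hu3 i l]
    exact e9_young _ _ ε hε
  have hk10 : 0 ≤ ∑ i, ∑ l, (∫ x in N, x l * df a f i x ∂(gam n)) ^ 2 :=
    Finset.sum_nonneg fun i _ => Finset.sum_nonneg fun l _ => sq_nonneg _
  have hk20 : 0 ≤ ∑ i, ∑ l, (∫ x in Nᶜ, x l * df a f i x ∂(gam n)) ^ 2 :=
    Finset.sum_nonneg fun i _ => Finset.sum_nonneg fun l _ => sq_nonneg _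
  have g1 : (1 + c3) * ∑ i, ∑ l, (∫ x in N, x l * df a f i x ∂(gam n)) ^ 2 ≤
      2 * (kap m * CE a f N (sd a)) + C * CE a f Nᶜ wW ^ 2 :=
    hu1.trans (add_le_add le_rfl (mul_le_mul_of_nonneg_right h3C hDf0))
  have g2 : ∑ i, ∑ l, (∫ x in Nᶜ, x l * df a f i x ∂(gam n)) ^ 2 ≤ C * CE a f Nᶜ wW ^ 2 :=
    hu2.trans (mul_le_mul_of_nonneg_right h3C hDf0)
  have g3 : CE a f N wW ^ 2 ≤ C * (kap m * CE a f N (sd a)) := by
    have h1 : C4 * CE a f N (sd a) = C4 / kap m * (kap m * CE a f N (sd a)) := by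
      field_simp
    rw [h1] at hm1
    exact hm1.trans (mul_le_mul_of_nonneg_right h5C hE)
  have g4 : CE a f Nᶜ wW ^ 2 ≤ C * |ρ| ^ (1 / 4 : ℝ) * CE a f Nᶜ (wM a) := by
    refine hm2.trans (mul_le_mul_of_nonneg_right ?_ hb2)
    exact mul_le_mul_of_nonneg_right h4C (Real.rpow_nonneg hr.le _)
  have g5 := hfin |ρ| (kap m * CE a f N (sd a)) (CE a f Nᶜ (wM a))
    (∑ i, ∑ l, (∫ x, x l * df a f i x ∂(gam n)) ^ 2)
    (∑ i, ∑ l, (∫ x in N, x l * df a f i x ∂(gam n)) ^ 2)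
    (∑ i, ∑ l, (∫ x in Nᶜ, x l * df a f i x ∂(gam n)) ^ 2)
    (CE a f N wW ^ 2) (CE a f Nᶜ wW ^ 2) hr hρc hE hb2 hk10 hk20 hDn0 hDf0 hkk g1 g2 g3 g4
  have hid := energy_id m a ρ hρl hρu f hf
  have hs' : ρ / |ρ| * ∑ i, GG ρ (df a f i) (df a f i) ≤
      |ρ| * ∑ i, ∑ l, (∫ x, x l * df a f i x ∂(gam n)) ^ 2
        + C2 * |ρ| ^ 2 * (CE a f N wW ^ 2 + CE a f Nᶜ wW ^ 2) := by
    rw [sq_abs]
    exact hs
  have hkey := e9_alg C1 C2 C c1 |ρ| (kap m * CE a f N (sd a)) (CE a f Nᶜ (wM a))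
    (∑ i, ∑ l, (∫ x, x l * df a f i x ∂(gam n)) ^ 2) (CE a f N wW ^ 2) (CE a f Nᶜ wW ^ 2)
    (Fn ρ f) (Fn ρ (fst a)) _ _ (ρ / |ρ|) hr hE hDn0 hDf0 h1C h2C hid hm hs' g5
  rw [hFn ρ] at hkey
  constructor
  · intro hpos
    rw [abs_of_nonneg hpos, div_self h0, one_mul] at hkey
    linarith
  · intro hneg
    rw [abs_of_nonpos hneg, div_neg, div_self h0] at hkey
    linarith

end Pool.Agent.SSQ
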