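import Pool.Agent.SSQ.C5d
import Pool.Agent.SSQ.C6
import Pool.Agent.SSCP.F1

set_option autoImplicit false
open MeasureTheory ProbabilityTheory Set Real

namespace Pool.Agent.SSQ
open Pool.Agent.SSC3N (gam GG TT gam_prob gam_ou)
open Pool.Agent.SSCP (GG_indicator)

/-- [F1a] `GG` depends only on almost everywhere classes, `-1 ≤ ρ ≤ 1` (`gam_ou`: the law of `ρ x + √(1-ρ²) z` is `gam n`). -/
theorem GG_congr {n : ℕ} (ρ : ℝ) (h0 : -1 ≤ ρ) (h1 : ρ ≤ 1) (g g' h h' : (Fin n → ℝ) → ℝ)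
    (hg : g =ᵐ[gam n] g') (hh : h =ᵐ[gam n] h') : GG ρ g h = GG ρ g' h' := by
  have := gam_prob n
  have hou := gam_ou n ρ h0 h1
  have h2 : ∀ᵐ p ∂((gam n).prod (gam n)),
      h (ρ • p.1 + Real.sqrt (1 - ρ ^ 2) • p.2) = h' (ρ • p.1 + Real.sqrt (1 - ρ ^ 2) • p.2) :=
    hou.quasiMeasurePreserving.ae_eq_comp hh
  have h3 := Measure.ae_ae_of_ae_prod h2
  unfold GG
  refine integral_congr_ae ?_
  filter_upwards [hg, h3] with y hy1 hy2
  refine integral_congr_ae ?_
  filter_upwards [hy2] with z hz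
  rw [hy1, hz]

/-- [F1b] a measurable partition into `q` sets as a fractional partition; masses; stability (`GG_indicator`). -/
theorem ind_FP {q n : ℕ} (A : Fin q → Set (Fin n → ℝ)) (hAm : ∀ i, MeasurableSet (A i))
    (hA : ∀ x : Fin n → ℝ, ∃! i, x ∈ A i) :
    FP (fun i => (A i).indicator (fun _ => (1 : ℝ))) ∧
    (∀ i, ∫ x, (A i).indicator (fun _ => (1 : ℝ)) x ∂(gam n) = (gam n).real (A i)) ∧
    (∀ i l, Kf (fun i => (A i).indicator (fun _ => (1 : ℝ))) i l = ∫ x in A i, x l ∂(gam n)) ∧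
    ∀ ρ : ℝ, Fn ρ (fun i => (A i).indicator (fun _ => (1 : ℝ))) =
      (∑ i, ((gam n).prod (gam n)) {p : (Fin n → ℝ) × (Fin n → ℝ) |
        p.1 ∈ A i ∧ ρ • p.1 + Real.sqrt (1 - ρ ^ 2) • p.2 ∈ A i}).toReal := by
  have := gam_prob n
  refine ⟨⟨fun i => measurable_const.indicator (hAm i),
    fun i x => Set.indicator_nonneg (fun _ _ => zero_le_one) x, fun x => ?_⟩, fun i => ?_,
    fun i l => ?_, fun ρ => ?_⟩
  · obtain ⟨i, hi, hu⟩ := hA x
    rw [Finset.sum_eq_single i]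
    · exact Set.indicator_of_mem hi _
    · intro j _ hj
      exact Set.indicator_of_notMem (fun h => hj (hu j h)) _
    · intro h
      exact absurd (Finset.mem_univ i) h
  · rw [integral_indicator_const _ (hAm i)]
    simp
  · unfold Kf
    rw [← integral_indicator (hAm i)]
    refine integral_congr_ae (Filter.Eventually.of_forall fun x => ?_)
    by_cases hx : x ∈ A i
    · simp [Set.indicator_of_mem hx]
    · simp [Set.indicator_of_notMem hx]
  · unfold Fn
    rw [ENNReal.toReal_sum (fun i _ => measure_ne_top _ _)]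
    exact Finset.sum_congr rfl fun i _ => GG_indicator n ρ (A i) (hAm i)

/-- [F1c] any standard simplex partition `B` agrees almost everywhere with the canonical one (`sxc_ae`: almost surely
`x ∈ sxc a i` iff all inequalities are strict, then `x ∈ B i`; both are partitions). -/
theorem sx_part {q n : ℕ} (hq : 2 ≤ q) (a : Fin q → Fin n → ℝ) (ha : IsSx a)
    (B : Fin q → Set (Fin n → ℝ)) (hB : ∀ x : Fin n → ℝ, ∃! i, x ∈ B i)
    (hBs : ∀ i, {x : Fin n → ℝ | ∀ j, j ≠ i → ∑ l, a j l * x l < ∑ l, a i l * x l} ⊆ B i) (i : Fin q) :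
    (B i).indicator (fun _ => (1 : ℝ)) =ᵐ[gam n] fst a i := by
  obtain ⟨-, hc2, -, -⟩ := sxc_basic (by omega : 0 < q) a
  filter_upwards [sxc_ae hq a ha] with x hx
  obtain ⟨i0, hi0, hu0⟩ := hc2 x
  have hB0 : x ∈ B i0 := hBs i0 ((hx i0).1 hi0)
  unfold fst
  by_cases hi : i = i0
  · subst hi
    rw [Set.indicator_of_mem hB0, Set.indicator_of_mem hi0]
  · have h1 : x ∉ B i := fun h => hi ((hB x).unique h hB0)
    have h2 : x ∉ sxc a i := fun h => hi (hu0 i h)
    rw [Set.indicator_of_notMem h1, Set.indicator_of_notMem h2]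

/-- [F1d] any two simplices of `ℝⁿ` differ by a rotation: `rot_near` with `K = a'`, `κ = 1`: the right side is
`∑ ((q/(q-1)) Π - (q/(q-1)) Π)² = 0` (`sx_sum`), so `a' = a U`.  Then `fst a' i x = fst a i (U x)`, and `rot_FP` with
`Q = Uᵀ` gives `Fn ρ (fst a') = Fn ρ (fst a)`. -/
theorem Fn_sx {q n : ℕ} (hq : 2 ≤ q) (a a' : Fin q → Fin n → ℝ) (ha : IsSx a) (ha' : IsSx a')
    (ρ : ℝ) : Fn ρ (fst a') = Fn ρ (fst a) := by
  obtain ⟨hs', hg'⟩ := sx_sum hq a' ha'
  obtain ⟨U, hU, hle⟩ := rot_near hq a ha a' hs' 1 one_pos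
  have hr : 0 < (q : ℝ) / ((q : ℝ) - 1) := by
    have h1 : (2 : ℝ) ≤ q := by exact_mod_cast hq
    exact div_pos (by linarith) (by linarith)
  have h0 : ∑ i, ∑ j, (∑ l, a' i l * a' j l - 1 ^ 2 * ((q : ℝ) / ((q : ℝ) - 1)) * Pc q i j) ^ 2
      = 0 := by
    refine Finset.sum_eq_zero fun i _ => Finset.sum_eq_zero fun j _ => ?_
    rw [hg' i j]
    ring
  rw [h0] at hle
  have hnn : ∀ i, 0 ≤ ∑ l, (a' i l - 1 * ∑ p, a i p * U p l) ^ 2 := fun i =>
    Finset.sum_nonneg fun l _ => sq_nonneg _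
  have hz : ∑ i, ∑ l, (a' i l - 1 * ∑ p, a i p * U p l) ^ 2 = 0 := by
    refine le_antisymm ?_ (Finset.sum_nonneg fun i _ => hnn i)
    by_contra hcon
    push Not at hcon
    have : 0 < 1 ^ 2 * ((q : ℝ) / ((q : ℝ) - 1)) *
        ∑ i, ∑ l, (a' i l - 1 * ∑ p, a i p * U p l) ^ 2 :=
      mul_pos (by linarith) hcon
    linarith
  have haU : ∀ i l, a' i l = ∑ p, a i p * U p l := by
    intro i l
    have h1 := (Finset.sum_eq_zero_iff_of_nonneg fun i _ => hnn i).1 hz i (Finset.mem_univ i)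
    have h2 := (Finset.sum_eq_zero_iff_of_nonneg
      fun l _ => sq_nonneg (a' i l - 1 * ∑ p, a i p * U p l)).1 h1 l (Finset.mem_univ l)
    have h3 := pow_eq_zero_iff two_ne_zero |>.1 h2
    linarith
  have hdot : ∀ i (x : Fin n → ℝ), ∑ l, a' i l * x l = ∑ l, a i l * (U.mulVec x) l := by
    intro i x
    simp only [haU, Matrix.mulVec, dotProduct, Finset.sum_mul, Finset.mul_sum]
    rw [Finset.sum_comm]
    exact Finset.sum_congr rfl fun p _ => Finset.sum_congr rfl fun l _ => by ring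
  have hfst : fst a' = fun i x => fst a i (U.mulVec x) := by
    funext i x
    unfold fst Set.indicator
    have hiff : x ∈ sxc a' i ↔ U.mulVec x ∈ sxc a i := by
      unfold sxc
      simp only [Set.mem_ofPred_eq, hdot]
    by_cases hx : x ∈ sxc a' i
    · rw [if_pos hx, if_pos (hiff.1 hx)]
    · rw [if_neg hx, if_neg (fun h => hx (hiff.2 h))]
  have hUt : U.transpose ∈ Matrix.orthogonalGroup (Fin n) ℝ := by
    have h1 := (Matrix.mem_orthogonalGroup_iff' (Fin n) ℝ).mp hU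
    rw [Matrix.mem_orthogonalGroup_iff]
    simpa [Matrix.star_eq_conjTranspose, Matrix.conjTranspose_eq_transpose_of_trivial] using h1
  obtain ⟨-, -, hFP, -⟩ := sxc_basic (by omega : 0 < q) a
  have h2 := (rot_FP (fst a) hFP U.transpose hUt).2.1 ρ
  rw [Matrix.transpose_transpose] at h2
  rw [hfst]
  exact h2

end Pool.Agent.SSQ
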