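import Pool.Agent.SSQ.F1
import Pool.Agent.SSQ.E9
import Pool.Agent.SSQ.D15
import Pool.Agent.SSQ.DS

set_option autoImplicit false
open MeasureTheory ProbabilityTheory Set Real

namespace Pool.Agent.SSQ
open Pool.Agent.SSC3N (gam GG TT gam_prob gam_ou)
open Pool.Agent.SSCP (GG_indicator)

/-- the partition `A` has measure `1/q` for every part. -/
def Bal {q n : ℕ} (A : Fin q → Set (Fin n → ℝ)) : Prop :=
  (∀ i, MeasurableSet (A i)) ∧ (∀ x : Fin n → ℝ, ∃! i, x ∈ A i) ∧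
    ∀ i, Measure.pi (fun _ : Fin n => gaussianReal 0 1) (A i) = (q : ENNReal)⁻¹

/-- `B` is a standard simplex partition for the simplex `a`. -/
def Std {q n : ℕ} (a : Fin q → Fin n → ℝ) (B : Fin q → Set (Fin n → ℝ)) : Prop :=
  IsSx a ∧ (∀ i, MeasurableSet (B i)) ∧ (∀ x : Fin n → ℝ, ∃! i, x ∈ B i) ∧
    ∀ i, {x : Fin n → ℝ | ∀ j, j ≠ i → ∑ l, a j l * x l < ∑ l, a i l * x l} ⊆ B i

/-- noise stability -/
noncomputable def Stb {q n : ℕ} (ρ : ℝ) (A : Fin q → Set (Fin n → ℝ)) : ENNReal :=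
  ∑ i, ((Measure.pi (fun _ : Fin n => gaussianReal 0 1)).prod
    (Measure.pi (fun _ : Fin n => gaussianReal 0 1)))
      {p : (Fin n → ℝ) × (Fin n → ℝ) | p.1 ∈ A i ∧ ρ • p.1 + Real.sqrt (1 - ρ ^ 2) • p.2 ∈ A i}

private theorem f2_cell_meas {q n : ℕ} (a : Fin q → Fin n → ℝ) (i : Fin q) :
    MeasurableSet {x : Fin n → ℝ | ∀ j, j ≠ i → ∑ l, a j l * x l < ∑ l, a i l * x l} := by
  have e : {x : Fin n → ℝ | ∀ j, j ≠ i → ∑ l, a j l * x l < ∑ l, a i l * x l} =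
      ⋂ j, {x : Fin n → ℝ | j ≠ i → ∑ l, a j l * x l < ∑ l, a i l * x l} := by
    ext x; simp
  rw [e]
  refine MeasurableSet.iInter fun j => ?_
  by_cases h : j = i
  · simp [h]
  · have : {x : Fin n → ℝ | j ≠ i → ∑ l, a j l * x l < ∑ l, a i l * x l} =
        {x : Fin n → ℝ | ∑ l, a j l * x l < ∑ l, a i l * x l} := by
      ext x; simp [h]
    rw [this]
    exact measurableSet_lt (by fun_prop) (by fun_prop)

private theorem f2_stb {q n : ℕ} (ρ : ℝ) (A : Fin q → Set (Fin n → ℝ)) :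
    Stb ρ A = ∑ i, ((gam n).prod (gam n)) {p : (Fin n → ℝ) × (Fin n → ℝ) |
        p.1 ∈ A i ∧ ρ • p.1 + Real.sqrt (1 - ρ ^ 2) • p.2 ∈ A i} := rfl

private theorem f2_top {q n : ℕ} (ρ : ℝ) (A : Fin q → Set (Fin n → ℝ)) : Stb ρ A ≠ ⊤ := by
  rw [f2_stb]
  have hg : IsProbabilityMeasure (gam n) := gam_prob n
  exact (ENNReal.sum_lt_top.2 fun i _ => measure_lt_top _ _).ne

private theorem f2_A {q n : ℕ} (ρ : ℝ) (A : Fin q → Set (Fin n → ℝ)) (hA : Bal A) :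
    FP (fun i => (A i).indicator (fun _ => (1 : ℝ))) ∧
    (∀ i, ∫ x, (A i).indicator (fun _ => (1 : ℝ)) x ∂(gam n) = 1 / (q : ℝ)) ∧
    (Stb ρ A).toReal = Fn ρ (fun i => (A i).indicator (fun _ => (1 : ℝ))) := by
  obtain ⟨h1, h2, h3⟩ := hA
  obtain ⟨e1, e2, e3, e4⟩ := ind_FP A h1 h2
  refine ⟨e1, ?_, ?_⟩
  · intro i
    rw [e2 i]
    have h4 : (gam n) (A i) = (q : ENNReal)⁻¹ := h3 i
    rw [Measure.real, h4, ENNReal.toReal_inv, ENNReal.toReal_natCast, one_div]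
  · rw [e4 ρ, f2_stb]

private theorem f2_open {q n : ℕ} (hq : 2 ≤ q) (a : Fin q → Fin n → ℝ) (ha : IsSx a) (ρ : ℝ)
    (h0 : -1 ≤ ρ) (h1 : ρ ≤ 1) (i : Fin q) :
    GG ρ (fst a i) (fst a i) = (((gam n).prod (gam n)) {p : (Fin n → ℝ) × (Fin n → ℝ) |
      p.1 ∈ {x : Fin n → ℝ | ∀ j, j ≠ i → ∑ l, a j l * x l < ∑ l, a i l * x l} ∧
      ρ • p.1 + Real.sqrt (1 - ρ ^ 2) • p.2 ∈
        {x : Fin n → ℝ | ∀ j, j ≠ i → ∑ l, a j l * x l < ∑ l, a i l * x l}}).toReal := by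
  rw [← GG_indicator n ρ _ (f2_cell_meas a i)]
  have h2 : fst a i =ᵐ[gam n]
      ({x : Fin n → ℝ | ∀ j, j ≠ i → ∑ l, a j l * x l < ∑ l, a i l * x l}).indicator
        (fun _ => (1 : ℝ)) := by
    filter_upwards [sxc_ae hq a ha] with x hx
    unfold fst
    by_cases h : x ∈ sxc a i
    · rw [Set.indicator_of_mem h, Set.indicator_of_mem]
      exact (hx i).1 h
    · rw [Set.indicator_of_notMem h, Set.indicator_of_notMem]
      exact fun h' => h ((hx i).2 h')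
  exact GG_congr ρ h0 h1 _ _ _ _ h2 h2

/-- [F2a] stability of a standard simplex partition is `Fn ρ (fst a)` (`ind_FP`, `sx_part`, `GG_congr`). -/
theorem Stb_sx {q n : ℕ} (hq : 2 ≤ q) (a : Fin q → Fin n → ℝ) (B : Fin q → Set (Fin n → ℝ))
    (h : Std a B) (ρ : ℝ) (h0 : -1 ≤ ρ) (h1 : ρ ≤ 1) :
    (Stb ρ B).toReal = Fn ρ (fst a) ∧ Stb ρ B ≠ ⊤ := by
  obtain ⟨ha, h2, h3, h4⟩ := h
  refine ⟨?_, f2_top ρ B⟩
  obtain ⟨e1, e2, e3, e4⟩ := ind_FP B h2 h3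
  rw [f2_stb, ← e4 ρ]
  unfold Fn
  refine Finset.sum_congr rfl fun i _ => ?_
  have h5 := sx_part hq a ha B h3 h4 i
  exact GG_congr ρ h0 h1 _ _ _ _ h5 h5

/-- [F2b] the canonical partition itself is a standard simplex partition, and its stability in `ℝ^(k+m)` is the one in
`ℝ^k`: `cell_reduce` for the open cells; `Fn ρ (fst a) = (∑ stability of the open cells).toReal` because
`fst a i` is almost everywhere the indicator of the open cell (`sxc_ae`, `GG_congr`, `GG_indicator`). -/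
theorem Fn_reduce (k m : ℕ) (hk : 1 ≤ k) (a : Fin (k + 1) → Fin (k + m) → ℝ) (ha : IsSx a) (ρ : ℝ)
    (h0 : -1 ≤ ρ) (h1 : ρ ≤ 1) :
    ∃ a' : Fin (k + 1) → Fin k → ℝ, IsSx a' ∧ Fn ρ (fst a') = Fn ρ (fst a) := by
  obtain ⟨a', h2, h3, h4⟩ := cell_reduce k m hk ρ a ha.1 ha.2
  have ha' : IsSx a' := ⟨h2, h3⟩
  refine ⟨a', ha', ?_⟩
  unfold Fn
  refine Finset.sum_congr rfl fun i _ => ?_
  rw [f2_open (by omega) a' ha' ρ h0 h1 i, f2_open (by omega) a ha ρ h0 h1 i, h4 i]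

/-- [F2c] Q1 FOR SMALL CORRELATION, ALL DIMENSIONS.  `q = k + 1`, `k ≥ 2`, `k = m + 1`.
PROOF.  If `ℝ^k` contains no simplex, `Fn_reduce` shows that no `ℝ^n` contains one and there is nothing to prove (take
`ρ_q = 1/2`).  Otherwise fix `a₀` in `ℝ^k` and let `ρ_q` be the `ρ₀` of `fixed_n` for `a₀`.  Let `n = k + m'`
(`q ≤ n + 1`), `A` balanced, `f` its indicators (`ind_FP`, balanced).  `ρ = 0`: `Fn 0 f = ∑ (∫ f_i)² = 1/q = Fn 0 (fst a)`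
(or use `fixed_n` for `n`, but `ρ₀` would depend on `n`; the direct computation is `GG 0 g g = (∫ g)²`).
`0 < ρ ≤ ρ_q`: `DR k ρ (Fn ρ (fst a₀))` with `fixed_n` gives `Fn ρ f ≤ Fn ρ (fst a₀)`; `Fn_reduce` gives `a'` in `ℝ^k` with
`Fn ρ (fst a') = Fn ρ (fst a)` and `Fn_sx`: `Fn ρ (fst a') = Fn ρ (fst a₀)`.  `Stb_sx`, `ENNReal.toReal_le_toReal`. -/
theorem main_pos (q : ℕ) (hq : 3 ≤ q) : ∃ ρq : ℝ, 0 < ρq ∧ ∀ n : ℕ, q ≤ n + 1 → ∀ ρ : ℝ, 0 ≤ ρ →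
    ρ ≤ ρq → ∀ (A B : Fin q → Set (Fin n → ℝ)) (a : Fin q → Fin n → ℝ), Bal A → Std a B →
      Stb ρ A ≤ Stb ρ B := by
  obtain ⟨m, rfl⟩ : ∃ m, q = m + 2 := ⟨q - 2, by omega⟩
  by_cases hex : ∃ a₀ : Fin (m + 2) → Fin (m + 1) → ℝ, IsSx a₀
  · obtain ⟨a₀, ha₀⟩ := hex
    obtain ⟨ρ0, hρ0, hρ1, hfix⟩ := fixed_n m a₀ ha₀
    refine ⟨ρ0, hρ0, ?_⟩
    intro n hn ρ h0 h1 A B a hA hB
    obtain ⟨m', rfl⟩ : ∃ m', n = (m + 1) + m' := ⟨n - (m + 1), by omega⟩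
    obtain ⟨f1, f2, f3⟩ := f2_A ρ A hA
    obtain ⟨g1, g2⟩ := Stb_sx (by omega) a B hB ρ (by linarith) (by linarith)
    rw [← ENNReal.toReal_le_toReal (f2_top ρ A) g2, f3, g1]
    rcases h0.eq_or_lt with hz | hpos
    · obtain ⟨ρ2, h2, _, hfix2⟩ := fixed_n m a hB.1
      have h3 := (hfix2 ρ (by rw [← hz, abs_zero]; exact h2.le) _ f1 f2).1 h0
      exact h3
    · have hDR := DR (m + 1) ρ (Fn ρ (fst a₀)) hpos (by linarith)
        (fun g hg hgb => (hfix ρ (by rw [abs_of_pos hpos]; exact h1) g hg hgb).1 h0)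
        m' _ f1 f2
      obtain ⟨a', ha', h5⟩ := Fn_reduce (m + 1) m' (by omega) a hB.1 ρ (by linarith) (by linarith)
      rw [← h5, Fn_sx (by omega) a₀ a' ha₀ ha' ρ]
      exact hDR
  · refine ⟨1 / 2, by norm_num, ?_⟩
    intro n hn ρ h0 h1 A B a hA hB
    obtain ⟨m', rfl⟩ : ∃ m', n = (m + 1) + m' := ⟨n - (m + 1), by omega⟩
    obtain ⟨a', ha', h5⟩ := Fn_reduce (m + 1) m' (by omega) a hB.1 ρ (by linarith) (by linarith)
    exact absurd ⟨a', ha'⟩ hex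

/-- [F2d] Q2 FOR SMALL CORRELATION, FIXED DIMENSION.  If `ℝⁿ` contains no simplex there is nothing to prove; otherwise
fix one, `a₀`, `ρ₀` from `fixed_n` for `a₀`, and `Fn_sx`. -/
theorem main_neg (q : ℕ) (hq : 3 ≤ q) (n : ℕ) : ∃ ρn : ℝ, 0 < ρn ∧ ∀ ρ : ℝ, -ρn ≤ ρ → ρ ≤ 0 →
    ∀ (A B : Fin q → Set (Fin n → ℝ)) (a : Fin q → Fin n → ℝ), Bal A → Std a B →
      Stb ρ B ≤ Stb ρ A := by
  obtain ⟨m, rfl⟩ : ∃ m, q = m + 2 := ⟨q - 2, by omega⟩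
  by_cases hex : ∃ a₀ : Fin (m + 2) → Fin n → ℝ, IsSx a₀
  · obtain ⟨a₀, ha₀⟩ := hex
    obtain ⟨ρ0, hρ0, hρ1, hfix⟩ := fixed_n m a₀ ha₀
    refine ⟨ρ0, hρ0, ?_⟩
    intro ρ h0 h1 A B a hA hB
    obtain ⟨f1, f2, f3⟩ := f2_A ρ A hA
    obtain ⟨g1, g2⟩ := Stb_sx (by omega) a B hB ρ (by linarith) (by linarith)
    rw [← ENNReal.toReal_le_toReal g2 (f2_top ρ A), f3, g1, Fn_sx (by omega) a₀ a ha₀ hB.1 ρ]
    exact (hfix ρ (by rw [abs_of_nonpos h1]; linarith) _ f1 f2).2 h1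
  · refine ⟨1 / 2, by norm_num, ?_⟩
    intro ρ h0 h1 A B a hA hB
    exact absurd ⟨a, hB.1⟩ hex

/-- [F2e] the level one inequality for sets, every dimension (`level_le`, `Kf_fst`, `ind_FP`, `sx_part`;
`∑_il Kf(fst a)² = κ² q = T*`). -/
theorem main_level (q : ℕ) (hq : 3 ≤ q) (n : ℕ) (A B : Fin q → Set (Fin n → ℝ))
    (a : Fin q → Fin n → ℝ) (hA : Bal A) (hB : Std a B) :
    ∑ i, ∑ l, (∫ x in A i, x l ∂(Measure.pi (fun _ : Fin n => gaussianReal 0 1))) ^ 2 ≤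
      ∑ i, ∑ l, (∫ x in B i, x l ∂(Measure.pi (fun _ : Fin n => gaussianReal 0 1))) ^ 2 := by
  obtain ⟨m, rfl⟩ : ∃ m, q = m + 2 := ⟨q - 2, by omega⟩
  obtain ⟨f1, f2, _⟩ := f2_A 0 A hA
  obtain ⟨_, _, e3, _⟩ := ind_FP A hA.1 hA.2.1
  obtain ⟨hsx, hB2, hB3, hB4⟩ := hB
  obtain ⟨_, _, b3, _⟩ := ind_FP B hB2 hB3
  obtain ⟨hk, hT, hK⟩ := Kf_fst m a hsx
  have hl := level_le m n _ f1 f2
  have h1 : Tf (fun i => (A i).indicator (fun _ => (1 : ℝ))) =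
      ∑ i, ∑ l, (∫ x in A i, x l ∂(Measure.pi (fun _ : Fin n => gaussianReal 0 1))) ^ 2 := by
    unfold Tf
    refine Finset.sum_congr rfl fun i _ => Finset.sum_congr rfl fun l _ => ?_
    rw [e3 i l]
    rfl
  have h2 : ∀ i l, ∫ x in B i, x l ∂(Measure.pi (fun _ : Fin n => gaussianReal 0 1)) =
      kap m * a i l := by
    intro i l
    have h3 := b3 i l
    have h4 : Kf (fun i => (B i).indicator (fun _ => (1 : ℝ))) i l = Kf (fst a) i l := by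
      unfold Kf
      refine integral_congr_ae ?_
      filter_upwards [sx_part (by omega) a hsx B hB3 hB4 i] with x hx
      show x l * (B i).indicator (fun _ => (1 : ℝ)) x = x l * fst a i x
      rw [hx]
    rw [← hK i l, ← h4, h3]
    rfl
  rw [← h1]
  refine hl.trans (le_of_eq ?_)
  rw [hT]
  have h5 : ∀ i, ∑ l, (∫ x in B i, x l ∂(Measure.pi (fun _ : Fin n => gaussianReal 0 1))) ^ 2 =
      kap m ^ 2 := by
    intro i
    have h6 : ∀ l, (∫ x in B i, x l ∂(Measure.pi (fun _ : Fin n => gaussianReal 0 1))) ^ 2 =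
        kap m ^ 2 * (a i l * a i l) := by
      intro l
      rw [h2 i l]
      ring
    rw [Finset.sum_congr rfl fun l _ => h6 l, ← Finset.mul_sum, hsx.1 i, mul_one]
  rw [Finset.sum_congr rfl fun i _ => h5 i, Finset.sum_const, Finset.card_univ, Fintype.card_fin,
    nsmul_eq_mul]
  push_cast
  ring

end Pool.Agent.SSQ
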