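import Pool.Agent.SSQ.P1
import Pool.Agent.SSQ.C6

set_option autoImplicit false
open MeasureTheory ProbabilityTheory Set Real

namespace Pool.Agent.SSQ
open Pool.Agent.SSC3N (gam GG TT gam_prob cubq cubi)

private theorem p3_prob (m : ℕ) : IsProbabilityMeasure (gam m) := by
  unfold gam; infer_instance

private theorem p3_memLp (m : ℕ) (j : Fin m) : MemLp (fun y : Fin m → ℝ => y j) 2 (gam m) := by
  have h := measurePreserving_eval (fun _ : Fin m => gaussianReal 0 1) j
  have h2 : MemLp (id : ℝ → ℝ) 2 (gaussianReal 0 1) := memLp_id_gaussianReal' 2 (by norm_num)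
  exact h2.comp_measurePreserving h

private theorem p3_coord (m : ℕ) (j : Fin m) : Integrable (fun y : Fin m → ℝ => y j) (gam m) := by
  have := p3_prob m
  exact (p3_memLp m j).integrable (by norm_num)

private theorem p3_neg1 : MeasurePreserving (fun x : ℝ => -x) (gaussianReal 0 1) (gaussianReal 0 1) := by
  refine ⟨measurable_neg, ?_⟩
  rw [gaussianReal_map_neg, neg_zero]

private theorem p3_second (m : ℕ) (j : Fin m) : ∫ y, y j * y j ∂(gam m) = 1 := by
  unfold gam
  have h := integral_comp_eval (μ := fun _ : Fin m => gaussianReal 0 1) (i := j)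
    (f := fun x : ℝ => x * x) (by fun_prop)
  rw [h]
  have h1 : Var[id; gaussianReal 0 1] = 1 := by
    rw [variance_id_gaussianReal]; simp
  rw [variance_eq_sub (memLp_id_gaussianReal' 2 (by norm_num))] at h1
  have h2 : ∫ x, (id : ℝ → ℝ) x ∂(gaussianReal 0 1) = 0 := integral_id_gaussianReal
  rw [h2] at h1
  have h3 : ∫ x : ℝ, ((id : ℝ → ℝ) ^ 2) x ∂(gaussianReal 0 1) = 1 := by
    simpa using h1
  rw [← h3]
  apply integral_congr_ae
  filter_upwards with x
  simp only [Pi.pow_apply, id_eq]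
  ring

private theorem p3_cross (m : ℕ) (j k : Fin m) (hjk : j ≠ k) :
    ∫ y, y j * y k ∂(gam m) = 0 := by
  have h := measurePreserving_pi (fun _ : Fin m => gaussianReal 0 1)
    (fun _ : Fin m => gaussianReal 0 1) (f := fun i x => if i = j then -x else x) (fun i => by
      by_cases hi : i = j
      · simp only [hi, if_true]
        exact p3_neg1
      · simp only [hi, if_false]
        exact MeasurePreserving.id _)
  have h2 : ∫ y : Fin m → ℝ, (fun i => if i = j then -(y i) else y i) j *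
      (fun i => if i = j then -(y i) else y i) k ∂(Measure.pi fun _ : Fin m => gaussianReal 0 1) =
      ∫ y : Fin m → ℝ, y j * y k ∂(Measure.pi fun _ : Fin m => gaussianReal 0 1) := by
    have h4 := integral_map (μ := Measure.pi fun _ : Fin m => gaussianReal 0 1)
      h.measurable.aemeasurable (f := fun y : Fin m → ℝ => y j * y k) (by fun_prop)
    rw [h.map_eq] at h4
    exact h4.symm
  have h3 : ∫ y : Fin m → ℝ, -(y j * y k) ∂(gam m) = ∫ y, y j * y k ∂(gam m) := by
    rw [show gam m = Measure.pi (fun _ : Fin m => gaussianReal 0 1) from rfl, ← h2]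
    apply integral_congr_ae
    filter_upwards with y
    simp only [if_true, Ne.symm hjk, if_false]
    ring
  rw [integral_neg] at h3
  linarith

private theorem p3_jensen {M : ℕ} (F : (Fin M → ℝ) → ℝ) (hF : Measurable F) (B : ℝ)
    (hB : ∀ y, |F y| ≤ B) : (∫ y, F y ∂(gam M)) ^ 2 ≤ ∫ y, F y ^ 2 ∂(gam M) := by
  have := p3_prob M
  have hFi : Integrable F (gam M) :=
    Integrable.of_bound hF.aestronglyMeasurable B (Filter.Eventually.of_forall hB)
  have hF2 : Integrable (fun y => F y ^ 2) (gam M) :=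
    (MemLp.of_bound hF.aestronglyMeasurable B (Filter.Eventually.of_forall hB) :
      MemLp F 2 (gam M)).integrable_sq
  set c := ∫ y, F y ∂(gam M) with hc
  have h0 : 0 ≤ ∫ y, (F y - c) ^ 2 ∂(gam M) := integral_nonneg fun y => sq_nonneg _
  have h1 : ∫ y, (F y - c) ^ 2 ∂(gam M) = ∫ y, ((F y ^ 2 - 2 * c * F y) + c ^ 2) ∂(gam M) :=
    integral_congr_ae (Filter.Eventually.of_forall fun y => by
      show (F y - c) ^ 2 = (F y ^ 2 - 2 * c * F y) + c ^ 2
      ring)
  have h2 : Integrable (fun y => 2 * c * F y) (gam M) := hFi.const_mul _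
  have h3 : Integrable (fun y => F y ^ 2 - 2 * c * F y) (gam M) := hF2.sub h2
  rw [h1, integral_add h3 (integrable_const _), integral_sub hF2 h2, integral_const_mul,
    integral_const, ← hc] at h0
  simp only [probReal_univ, one_smul] at h0
  nlinarith

/-- [P3a] BESSEL.  For `F` bounded measurable on `ℝ^M`: `∑_j (∫ y_j F)² ≤ ∫ F²` (expand `0 ≤ ∫ (F - ∑_j c_j y_j)²` with
`c_j = ∫ y_j F`, `∫ y_i y_j = δ_ij`). -/
theorem bessel {M : ℕ} (F : (Fin M → ℝ) → ℝ) (hF : Measurable F) (B : ℝ) (hB : ∀ y, |F y| ≤ B) :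
    ∑ j, (∫ y, y j * F y ∂(gam M)) ^ 2 ≤ ∫ y, F y ^ 2 ∂(gam M) := by
  classical
  have := p3_prob M
  have hL2 : MemLp F 2 (gam M) :=
    MemLp.of_bound hF.aestronglyMeasurable B (Filter.Eventually.of_forall hB)
  have hF2 : Integrable (fun y => F y ^ 2) (gam M) := hL2.integrable_sq
  have hyF : ∀ j, Integrable (fun y : Fin M → ℝ => y j * F y) (gam M) := fun j =>
    (p3_coord M j).mul_bdd (c := B) hF.aestronglyMeasurable (Filter.Eventually.of_forall hB)
  have hyy : ∀ i j, Integrable (fun y : Fin M → ℝ => y i * y j) (gam M) := fun i j =>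
    (p3_memLp M i).integrable_mul (p3_memLp M j)
  set c : Fin M → ℝ := fun j => ∫ y, y j * F y ∂(gam M) with hc
  have h0 : 0 ≤ ∫ y, (F y - ∑ j, c j * y j) ^ 2 ∂(gam M) := integral_nonneg fun y => sq_nonneg _
  have h1 : ∀ y : Fin M → ℝ, (F y - ∑ j, c j * y j) ^ 2 =
      (F y ^ 2 - 2 * ∑ j, c j * (y j * F y)) + ∑ i, ∑ j, c i * c j * (y i * y j) := by
    intro y
    have e1 : ∑ j, c j * (y j * F y) = (∑ j, c j * y j) * F y := by
      rw [Finset.sum_mul]
      exact Finset.sum_congr rfl fun j _ => by ring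
    have e2 : ∑ i, ∑ j, c i * c j * (y i * y j) = (∑ j, c j * y j) * (∑ j, c j * y j) := by
      rw [Finset.sum_mul_sum]
      exact Finset.sum_congr rfl fun i _ => Finset.sum_congr rfl fun j _ => by ring
    rw [e1, e2]
    ring
  have i1 : Integrable (fun y : Fin M → ℝ => 2 * ∑ j, c j * (y j * F y)) (gam M) :=
    (integrable_finsetSum _ fun j _ => (hyF j).const_mul _).const_mul _
  have i2 : Integrable (fun y : Fin M → ℝ => F y ^ 2 - 2 * ∑ j, c j * (y j * F y)) (gam M) :=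
    hF2.sub i1
  have i3 : Integrable (fun y : Fin M → ℝ => ∑ i, ∑ j, c i * c j * (y i * y j)) (gam M) :=
    integrable_finsetSum _ fun i _ => integrable_finsetSum _ fun j _ => (hyy i j).const_mul _
  have e3 : ∫ y, 2 * ∑ j, c j * (y j * F y) ∂(gam M) = 2 * ∑ j, c j ^ 2 := by
    rw [integral_const_mul, integral_finsetSum _ fun j _ => (hyF j).const_mul _]
    congr 1
    refine Finset.sum_congr rfl fun j _ => ?_
    rw [integral_const_mul, sq]
  have e4 : ∫ y : Fin M → ℝ, ∑ i, ∑ j, c i * c j * (y i * y j) ∂(gam M) = ∑ j, c j ^ 2 := by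
    rw [integral_finsetSum _ fun i _ => integrable_finsetSum _ fun j _ => (hyy i j).const_mul _]
    refine Finset.sum_congr rfl fun i _ => ?_
    rw [integral_finsetSum _ fun j _ => (hyy i j).const_mul _, Finset.sum_eq_single i]
    · rw [integral_const_mul, p3_second, sq, mul_one]
    · intro j _ hj
      rw [integral_const_mul, p3_cross M i j (Ne.symm hj), mul_zero]
    · intro h
      exact absurd (Finset.mem_univ i) h
  simp only [h1] at h0
  rw [integral_add i2 i3, integral_sub hF2 i1, e3, e4] at h0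
  linarith

private theorem p3_le {q n : ℕ} {f : Fin q → (Fin n → ℝ) → ℝ} (hf : FP f) (j : Fin q)
    (x : Fin n → ℝ) : f j x ≤ 1 := by
  rw [← hf.2.2 x]
  exact Finset.single_le_sum (fun i _ => hf.2.1 i x) (Finset.mem_univ j)

private theorem p3_df (m : ℕ) {n : ℕ} (a : Fin (m + 2) → Fin n → ℝ)
    {f : Fin (m + 2) → (Fin n → ℝ) → ℝ} (hf : FP f) (i : Fin (m + 2)) :
    Measurable (df a f i) ∧ ∀ x, |df a f i x| ≤ 1 := by
  obtain ⟨hc1, hc2, hFP, hc4⟩ := sxc_basic (by omega : 0 < m + 2) a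
  refine ⟨(hf.1 i).sub (hFP.1 i), fun x => ?_⟩
  unfold df
  rw [abs_le]
  have h1 := hf.2.1 i x
  have h2 := p3_le hf i x
  have h3 := hFP.2.1 i x
  have h4 := p3_le hFP i x
  constructor <;> linarith

private theorem p3_fc {k M : ℕ} : Measurable (fc : (Fin (k + M) → ℝ) → (Fin k → ℝ)) := by
  unfold fc
  fun_prop

private theorem p3_append {k M : ℕ} : Measurable (fun p : (Fin k → ℝ) × (Fin M → ℝ) =>
    (Fin.append p.1 p.2 : Fin (k + M) → ℝ)) := by
  refine measurable_pi_lambda _ fun i => ?_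
  refine Fin.addCases (fun j => ?_) (fun j => ?_) i
  · simp only [Fin.append_left]
    fun_prop
  · simp only [Fin.append_right]
    fun_prop

/-- Fubini with a factor from the first coordinates -/
private theorem p3_int_x {k M : ℕ} (f : (Fin (k + M) → ℝ) → ℝ) (hf : Measurable f)
    (hb : ∀ x, |f x| ≤ 1) (l : Fin k) :
    ∫ x, x (Fin.castAdd M l) * f x ∂(gam (k + M)) =
      ∫ y, (∫ x, x l * cur f x y ∂(gam k)) ∂(gam M) := by
  have := p3_prob k
  have := p3_prob M
  have hcm : Measurable (fun p : (Fin k → ℝ) × (Fin M → ℝ) => cur f p.1 p.2) := hf.comp p3_append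
  have hm : Measurable (fun p : (Fin k → ℝ) × (Fin M → ℝ) => p.1 l * cur f p.1 p.2) := by
    have h2 : Measurable (fun p : (Fin k → ℝ) × (Fin M → ℝ) => p.1 l) := by fun_prop
    exact h2.mul hcm
  have h2 : ∫ x, x (Fin.castAdd M l) * f x ∂(gam (k + M)) =
      ∫ p : (Fin k → ℝ) × (Fin M → ℝ), p.1 l * cur f p.1 p.2 ∂((gam k).prod (gam M)) := by
    rw [← (split_mp k M).map_eq, integral_map (split_mp k M).measurable.aemeasurable
      hm.aestronglyMeasurable]
    refine integral_congr_ae (Filter.Eventually.of_forall fun x => ?_)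
    show x (Fin.castAdd M l) * f x = x (Fin.castAdd M l) * cur f _ _
    unfold cur
    rw [Fin.append_castAdd_natAdd]
  have hint : Integrable (fun p : (Fin k → ℝ) × (Fin M → ℝ) => p.1 l * cur f p.1 p.2)
      ((gam k).prod (gam M)) := by
    have h3 : Integrable (fun p : (Fin k → ℝ) × (Fin M → ℝ) => p.1 l) ((gam k).prod (gam M)) :=
      (p3_coord k l).comp_fst (gam M)
    exact h3.mul_bdd (c := 1) hcm.aestronglyMeasurable
      (Filter.Eventually.of_forall fun p => by
        rw [Real.norm_eq_abs]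
        exact hb _)
  rw [h2, integral_prod_symm _ hint]

/-- measurability of the slice integrals -/
private theorem p3_meas {k M : ℕ} (Ψ : (Fin k → ℝ) × (Fin M → ℝ) → ℝ) (hΨ : Measurable Ψ) :
    Measurable (fun y : Fin M → ℝ => ∫ x, Ψ (x, y) ∂(gam k)) := by
  have := p3_prob k
  exact (hΨ.stronglyMeasurable.integral_prod_left' (μ := gam k)).measurable

private theorem p3_wW {q k : ℕ} (i j : Fin q) : Measurable (wW (n := k) i j) ∧
    Integrable (wW (n := k) i j) (gam k) := by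
  have hm : Measurable (wW (n := k) i j) := by
    unfold wW
    by_cases h : j = i
    · simp only [if_pos h]
      exact measurable_const
    · simp only [if_neg h]
      exact (Real.measurable_exp.comp (Pool.Agent.SSC3N.cubq_measurable.div_const 32))
  refine ⟨hm, ?_⟩
  have h1 : Integrable (fun x : Fin k → ℝ => Real.exp (cubq x / 32)) (gam k) := by
    refine ((exp_mom k).1 (1 / 32) (by norm_num)).congr (Filter.Eventually.of_forall fun x => ?_)
    show Real.exp (1 / 32 * cubq x) = Real.exp (cubq x / 32)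
    congr 1
    ring
  refine h1.mono' hm.aestronglyMeasurable (Filter.Eventually.of_forall fun x => ?_)
  rw [Real.norm_eq_abs]
  unfold wW
  split_ifs
  · rw [abs_zero]
    exact (Real.exp_pos _).le
  · rw [abs_of_pos (Real.exp_pos _)]

/-- the slice of the difference -/
private theorem p3_slice (m k M : ℕ) (a : Fin (m + 2) → Fin k → ℝ)
    (f : Fin (m + 2) → (Fin (k + M) → ℝ) → ℝ) (i : Fin (m + 2)) (N : Set (Fin k → ℝ))
    (x : Fin k → ℝ) (y : Fin M → ℝ) :
    cur ({z : Fin (k + M) → ℝ | fc z ∈ N}.indicator (df (ext M a) f i)) x y =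
      N.indicator (df a (sl f y) i) x := by
  obtain ⟨_, _, _, _, h5, h6⟩ := ext_basic M a
  have hfc : fc (Fin.append x y : Fin (k + M) → ℝ) = x := h6 x y
  unfold cur
  by_cases hx : x ∈ N
  · rw [Set.indicator_of_mem hx, Set.indicator_of_mem (by
      show fc (Fin.append x y) ∈ N
      rw [hfc]
      exact hx)]
    unfold df sl cur
    rw [h5, hfc]
  · rw [Set.indicator_of_notMem hx, Set.indicator_of_notMem (by
      show ¬ fc (Fin.append x y) ∈ N
      rw [hfc]
      exact hx)]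

/-- [P3b] FAR PART.  `D(y) = CE a (sl f y) Nᶜ wW`, `d_i = df (ext M a) f i`.  With `V_i(y) = ∫_{Nᶜ} d_i(x,y) dγ(x)` and
`V_il(y) = ∫_{Nᶜ} x_l d_i(x,y)`: `|V_i| ≤ 2D`, `|V_il| ≤ 2 C D` (`df_mass` for the slice; note
`cur (d_i) x y = df a (sl f y) i x` by `ext_basic`).  For `l < k`: `(∫_{Nᶜ} z_l d_i)² = (∫ V_il)² ≤ ∫ V_il² ≤ 4C² ∫ D²`
(Jensen); for the last coordinates `∑_j (∫_{Nᶜ} z_{k+j} d_i)² = ∑_j (∫ y_j V_i)² ≤ ∫ V_i² ≤ 4 ∫ D²` (`bessel`).  Also
`(∫_{Nᶜ} d_i)² ≤ 4 ∫ D²`. -/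
theorem far_part (m k : ℕ) (a : Fin (m + 2) → Fin k → ℝ) : ∃ C : ℝ, 0 ≤ C ∧ ∀ (M : ℕ)
    (f : Fin (m + 2) → (Fin (k + M) → ℝ) → ℝ), FP f → ∀ N : Set (Fin k → ℝ), MeasurableSet N →
      ∑ i, ∑ l, (∫ z in {z | fc z ∈ Nᶜ}, z l * df (ext M a) f i z ∂(gam (k + M))) ^ 2 ≤
        C * ∫ y, CE a (sl f y) Nᶜ wW ^ 2 ∂(gam M) ∧
      ∑ i, (∫ z in {z | fc z ∈ Nᶜ}, df (ext M a) f i z ∂(gam (k + M))) ^ 2 ≤
        C * ∫ y, CE a (sl f y) Nᶜ wW ^ 2 ∂(gam M) := by
  classical
  obtain ⟨C, hC, hCb⟩ := (exp_mom k).2.1 (1 / 32) (by norm_num)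
  have hCb' : ∀ (y : Fin k → ℝ) l, |y l| ≤ C * Real.exp (cubq y / 32) := by
    intro y l
    have h1 := hCb y l
    rwa [show (1 / 32 : ℝ) * cubq y = cubq y / 32 by ring] at h1
  refine ⟨((m : ℝ) + 2) * ((k : ℝ) * (4 * C ^ 2) + 4) + ((m : ℝ) + 2) * 4, by positivity, ?_⟩
  intro M f hf N hN
  have := p3_prob k
  have := p3_prob M
  -- the slice cost
  obtain ⟨hDm, hDb, _⟩ := CE_slice M a (by omega) f hf Nᶜ hN.compl wW (fun i j => (p3_wW i j).1)
    (fun i j => (p3_wW i j).2)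
  have hNs : MeasurableSet {z : Fin (k + M) → ℝ | fc z ∈ Nᶜ} := p3_fc hN.compl
  have hsl : ∀ y, FP (sl f y) := fun y => sl_FP f hf y
  have hD0 : ∀ y, 0 ≤ CE a (sl f y) Nᶜ wW := fun y =>
    (CE_basic m a (sl f y) (hsl y) Nᶜ hN.compl).2.2.2.2.2.2
  set D : (Fin M → ℝ) → ℝ := fun y => CE a (sl f y) Nᶜ wW with hD
  set B0 : ℝ := ∑ i : Fin (m + 2), ∑ j : Fin (m + 2), ∫ x, |wW (n := k) i j x| ∂(gam k) with hB0
  have hDB : ∀ y, |D y| ≤ B0 := hDb
  have hB0nn : 0 ≤ B0 := (abs_nonneg _).trans (hDB 0)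
  have hD2 : Integrable (fun y => D y ^ 2) (gam M) :=
    (MemLp.of_bound hDm.aestronglyMeasurable B0 (Filter.Eventually.of_forall hDB) :
      MemLp D 2 (gam M)).integrable_sq
  -- the functions
  set g : Fin (m + 2) → (Fin (k + M) → ℝ) → ℝ := fun i =>
    {z : Fin (k + M) → ℝ | fc z ∈ Nᶜ}.indicator (df (ext M a) f i) with hg
  have hgm : ∀ i, Measurable (g i) := fun i => (p3_df m (ext M a) hf i).1.indicator hNs
  have hgb : ∀ i z, |g i z| ≤ 1 := by
    intro i z
    rw [hg]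
    by_cases hz : z ∈ {z : Fin (k + M) → ℝ | fc z ∈ Nᶜ}
    · simp only [Set.indicator_of_mem hz]
      exact (p3_df m (ext M a) hf i).2 z
    · simp only [Set.indicator_of_notMem hz, abs_zero]
      exact zero_le_one
  have hgc : ∀ i x y, cur (g i) x y = Nᶜ.indicator (df a (sl f y) i) x := fun i x y =>
    p3_slice m k M a f i Nᶜ x y
  have hcm : ∀ i, Measurable (fun p : (Fin k → ℝ) × (Fin M → ℝ) => cur (g i) p.1 p.2) :=
    fun i => (hgm i).comp p3_append
  set V : Fin (m + 2) → (Fin M → ℝ) → ℝ := fun i y => ∫ x, cur (g i) x y ∂(gam k) with hV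
  set Vl : Fin (m + 2) → Fin k → (Fin M → ℝ) → ℝ := fun i l y =>
    ∫ x, x l * cur (g i) x y ∂(gam k) with hVl
  have hVm : ∀ i, Measurable (V i) := fun i => p3_meas (fun p => cur (g i) p.1 p.2) (hcm i)
  have hVlm : ∀ i l, Measurable (Vl i l) := fun i l =>
    p3_meas (fun p => p.1 l * cur (g i) p.1 p.2)
      (((measurable_pi_apply l).comp measurable_fst).mul (hcm i))
  -- bounds
  have hmass : ∀ (u : (Fin k → ℝ) → ℝ) (C' : ℝ), Measurable u → 0 ≤ C' → (∀ x, 0 ≤ u x) →
      (∀ x, u x ≤ C' * Real.exp (cubq x / 32)) → ∀ i y,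
      ∫ x, |cur (g i) x y| * u x ∂(gam k) ≤ 2 * C' * D y := by
    intro u C' hu hC' hu0 huC i y
    have h1 := df_mass m a (sl f y) (hsl y) Nᶜ hN.compl u hu C' hC' hu0 huC
    have h2 : ∫ x, |cur (g i) x y| * u x ∂(gam k) =
        ∫ x in Nᶜ, |df a (sl f y) i x| * u x ∂(gam k) := by
      rw [← integral_indicator hN.compl]
      refine integral_congr_ae (Filter.Eventually.of_forall fun x => ?_)
      show |cur (g i) x y| * u x = _
      rw [hgc]
      by_cases hx : x ∈ Nᶜ
      · rw [Set.indicator_of_mem hx, Set.indicator_of_mem hx]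
      · rw [Set.indicator_of_notMem hx, Set.indicator_of_notMem hx, abs_zero, zero_mul]
    rw [h2]
    refine le_trans ?_ h1
    exact Finset.single_le_sum (f := fun i => ∫ x in Nᶜ, |df a (sl f y) i x| * u x ∂(gam k))
      (fun i _ => setIntegral_nonneg hN.compl fun x _ => mul_nonneg (abs_nonneg _) (hu0 x))
      (Finset.mem_univ i)
  have hVb : ∀ i y, |V i y| ≤ 2 * D y := by
    intro i y
    have h1 := hmass (fun _ => 1) 1 measurable_const zero_le_one (fun _ => zero_le_one) (fun x => by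
      rw [one_mul]
      exact Real.one_le_exp (by
        have := Pool.Agent.SSC3N.cubq_nonneg x
        positivity)) i y
    have h2 : |V i y| ≤ ∫ x, |cur (g i) x y| ∂(gam k) := abs_integral_le_integral_abs
    simp only [mul_one] at h1
    exact h2.trans h1
  have hVlb : ∀ i l y, |Vl i l y| ≤ 2 * C * D y := by
    intro i l y
    have h1 := hmass (fun x => |x l|) C (by fun_prop) hC (fun x => abs_nonneg _)
      (fun x => hCb' x l) i y
    have h2 : |Vl i l y| ≤ ∫ x, |x l * cur (g i) x y| ∂(gam k) := abs_integral_le_integral_abs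
    refine h2.trans (le_trans (le_of_eq ?_) h1)
    refine integral_congr_ae (Filter.Eventually.of_forall fun x => ?_)
    show |x l * cur (g i) x y| = |cur (g i) x y| * |x l|
    rw [abs_mul, mul_comm]
  have hVB : ∀ i y, |V i y| ≤ 2 * B0 := fun i y =>
    (hVb i y).trans (mul_le_mul_of_nonneg_left ((le_abs_self _).trans (hDB y)) (by norm_num))
  have hVlB : ∀ i l y, |Vl i l y| ≤ 2 * C * B0 := fun i l y =>
    (hVlb i l y).trans (mul_le_mul_of_nonneg_left ((le_abs_self _).trans (hDB y)) (by positivity))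
  -- squares
  have hVsq : ∀ i, ∫ y, V i y ^ 2 ∂(gam M) ≤ 4 * ∫ y, D y ^ 2 ∂(gam M) := by
    intro i
    rw [← integral_const_mul]
    refine integral_mono
      ((MemLp.of_bound (hVm i).aestronglyMeasurable (2 * B0)
        (Filter.Eventually.of_forall (hVB i)) : MemLp (V i) 2 (gam M)).integrable_sq)
      (hD2.const_mul 4) fun y => ?_
    show V i y ^ 2 ≤ 4 * D y ^ 2
    rw [← sq_abs (V i y)]
    have h1 := hVb i y
    have h2 := abs_nonneg (V i y)
    nlinarith
  have hVlsq : ∀ i l, ∫ y, Vl i l y ^ 2 ∂(gam M) ≤ 4 * C ^ 2 * ∫ y, D y ^ 2 ∂(gam M) := by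
    intro i l
    rw [← integral_const_mul]
    refine integral_mono
      ((MemLp.of_bound (hVlm i l).aestronglyMeasurable (2 * C * B0)
        (Filter.Eventually.of_forall (hVlB i l)) : MemLp (Vl i l) 2 (gam M)).integrable_sq)
      (hD2.const_mul _) fun y => ?_
    show Vl i l y ^ 2 ≤ 4 * C ^ 2 * D y ^ 2
    rw [← sq_abs (Vl i l y)]
    have h1 := hVlb i l y
    have h2 := abs_nonneg (Vl i l y)
    have h3 : 0 ≤ C * D y := mul_nonneg hC (hD0 y)
    nlinarith
  have hID : 0 ≤ ∫ y, D y ^ 2 ∂(gam M) := integral_nonneg fun y => sq_nonneg _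
  -- identification
  have hset : ∀ i (h : (Fin (k + M) → ℝ) → ℝ),
      ∫ z in {z : Fin (k + M) → ℝ | fc z ∈ Nᶜ}, h z * df (ext M a) f i z ∂(gam (k + M)) =
        ∫ z, h z * g i z ∂(gam (k + M)) := by
    intro i h
    rw [← integral_indicator hNs]
    refine integral_congr_ae (Filter.Eventually.of_forall fun z => ?_)
    show _ = h z * g i z
    rw [hg]
    by_cases hz : z ∈ {z : Fin (k + M) → ℝ | fc z ∈ Nᶜ}
    · simp only [Set.indicator_of_mem hz]
    · simp only [Set.indicator_of_notMem hz, mul_zero]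
  have hx : ∀ i (l : Fin k), ∫ z in {z : Fin (k + M) → ℝ | fc z ∈ Nᶜ},
      z (Fin.castAdd M l) * df (ext M a) f i z ∂(gam (k + M)) = ∫ y, Vl i l y ∂(gam M) := by
    intro i l
    rw [hset i (fun z => z (Fin.castAdd M l)), p3_int_x (g i) (hgm i) (hgb i) l]
  have hy : ∀ i (j : Fin M), ∫ z in {z : Fin (k + M) → ℝ | fc z ∈ Nᶜ},
      z (Fin.natAdd k j) * df (ext M a) f i z ∂(gam (k + M)) = ∫ y, y j * V i y ∂(gam M) := by
    intro i j
    rw [hset i (fun z => z (Fin.natAdd k j)), int_cur_y (g i) (hgm i) (hgb i) j]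
  have h1' : ∀ i, ∫ z in {z : Fin (k + M) → ℝ | fc z ∈ Nᶜ},
      df (ext M a) f i z ∂(gam (k + M)) = ∫ y, V i y ∂(gam M) := by
    intro i
    have h1 := hset i (fun _ => 1)
    simp only [one_mul] at h1
    rw [h1, int_cur' (g i) (hgm i) (hgb i)]
  constructor
  · have hi : ∀ i, ∑ l, (∫ z in {z : Fin (k + M) → ℝ | fc z ∈ Nᶜ},
        z l * df (ext M a) f i z ∂(gam (k + M))) ^ 2 ≤
        ((k : ℝ) * (4 * C ^ 2) + 4) * ∫ y, D y ^ 2 ∂(gam M) := by
      intro i
      rw [Fin.sum_univ_add]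
      have e1 : ∑ l : Fin k, (∫ z in {z : Fin (k + M) → ℝ | fc z ∈ Nᶜ},
          z (Fin.castAdd M l) * df (ext M a) f i z ∂(gam (k + M))) ^ 2 ≤
          (k : ℝ) * (4 * C ^ 2) * ∫ y, D y ^ 2 ∂(gam M) := by
        calc _ ≤ ∑ l : Fin k, 4 * C ^ 2 * ∫ y, D y ^ 2 ∂(gam M) := by
              refine Finset.sum_le_sum fun l _ => ?_
              rw [hx]
              exact (p3_jensen (Vl i l) (hVlm i l) _ (hVlB i l)).trans (hVlsq i l)
          _ = (k : ℝ) * (4 * C ^ 2) * ∫ y, D y ^ 2 ∂(gam M) := by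
              rw [Finset.sum_const, Finset.card_univ, Fintype.card_fin, nsmul_eq_mul]
              ring
      have e2 : ∑ j : Fin M, (∫ z in {z : Fin (k + M) → ℝ | fc z ∈ Nᶜ},
          z (Fin.natAdd k j) * df (ext M a) f i z ∂(gam (k + M))) ^ 2 ≤
          4 * ∫ y, D y ^ 2 ∂(gam M) := by
        simp only [hy]
        exact (bessel (V i) (hVm i) _ (hVB i)).trans (hVsq i)
      linarith
    calc _ ≤ ∑ i : Fin (m + 2), ((k : ℝ) * (4 * C ^ 2) + 4) * ∫ y, D y ^ 2 ∂(gam M) :=
          Finset.sum_le_sum fun i _ => hi i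
      _ = ((m : ℝ) + 2) * ((k : ℝ) * (4 * C ^ 2) + 4) * ∫ y, D y ^ 2 ∂(gam M) := by
          rw [Finset.sum_const, Finset.card_univ, Fintype.card_fin, nsmul_eq_mul]
          push_cast
          ring
      _ ≤ _ := by
          have h3 : 0 ≤ ((m : ℝ) + 2) * 4 * ∫ y, D y ^ 2 ∂(gam M) := by positivity
          rw [add_mul]
          linarith
  · calc _ ≤ ∑ i : Fin (m + 2), 4 * ∫ y, D y ^ 2 ∂(gam M) := by
          refine Finset.sum_le_sum fun i _ => ?_
          rw [h1']
          exact (p3_jensen (V i) (hVm i) _ (hVB i)).trans (hVsq i)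
      _ = ((m : ℝ) + 2) * 4 * ∫ y, D y ^ 2 ∂(gam M) := by
          rw [Finset.sum_const, Finset.card_univ, Fintype.card_fin, nsmul_eq_mul]
          push_cast
          ring
      _ ≤ _ := by
          have h3 : 0 ≤ ((m : ℝ) + 2) * ((k : ℝ) * (4 * C ^ 2) + 4) * ∫ y, D y ^ 2 ∂(gam M) := by
            positivity
          rw [add_mul]
          linarith

/-- the algebra of the centroid inequality -/
private theorem p3_alg {ι : Type} [Fintype ι] (k1 k2 Y : ι → ℝ)
    (h : ∑ i, (k1 i + k2 i) ^ 2 ≤ ∑ i, (Y i + k2 i) ^ 2) :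
    ∑ i, k1 i ^ 2 ≤ 4 * ∑ i, Y i ^ 2 + 6 * ∑ i, k2 i ^ 2 := by
  have h1 : ∑ i, k1 i ^ 2 ≤ 2 * ∑ i, (k1 i + k2 i) ^ 2 + 2 * ∑ i, k2 i ^ 2 := by
    rw [Finset.mul_sum, Finset.mul_sum, ← Finset.sum_add_distrib]
    exact Finset.sum_le_sum fun i _ => by nlinarith [sq_nonneg (k1 i + 2 * k2 i)]
  have h2 : ∑ i, (Y i + k2 i) ^ 2 ≤ 2 * ∑ i, Y i ^ 2 + 2 * ∑ i, k2 i ^ 2 := by
    rw [Finset.mul_sum, Finset.mul_sum, ← Finset.sum_add_distrib]
    exact Finset.sum_le_sum fun i _ => by nlinarith [sq_nonneg (Y i - k2 i)]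
  linarith

private theorem p3_sd {q n : ℕ} (a : Fin q → Fin n → ℝ) (i j : Fin q) :
    Measurable (sd a i j) ∧ Integrable (sd a i j) (gam n) := by
  constructor
  · unfold sd
    exact Finset.measurable_sum _ fun l _ => (measurable_pi_apply l).const_mul _
  · unfold sd
    exact integrable_finsetSum _ fun l _ => (p3_coord n l).const_mul _

/-- the energy identity -/
private theorem p3_energy (m : ℕ) {n : ℕ} (a : Fin (m + 2) → Fin n → ℝ)
    (f : Fin (m + 2) → (Fin n → ℝ) → ℝ) (hf : FP f) (N : Set (Fin n → ℝ)) (hN : MeasurableSet N) :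
    ∑ i, ∑ l, a i l * (∫ x in N, x l * df a f i x ∂(gam n)) = -CE a f N (sd a) := by
  classical
  have := p3_prob n
  obtain ⟨hc1, hc2, hFP, hc4⟩ := sxc_basic (by omega : 0 < m + 2) a
  have hxi : ∀ i l, Integrable (fun x : Fin n → ℝ => x l * df a f i x) (gam n) := fun i l =>
    (p3_coord n l).mul_bdd (c := 1) (p3_df m a hf i).1.aestronglyMeasurable
      (Filter.Eventually.of_forall fun x => by
        rw [Real.norm_eq_abs]
        exact (p3_df m a hf i).2 x)
  have hfi : ∀ i j, Integrable (fun x => f j x * sd a i j x) (gam n) := fun i j =>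
    (CE_basic m a f hf N hN).2.1 i j
  have h1 : ∑ i, ∑ l, a i l * (∫ x in N, x l * df a f i x ∂(gam n)) =
      ∫ x in N, ∑ i, ∑ l, a i l * (x l * df a f i x) ∂(gam n) := by
    rw [integral_finsetSum _ fun i _ => integrable_finsetSum _ fun l _ =>
      ((hxi i l).integrableOn).const_mul _]
    refine Finset.sum_congr rfl fun i _ => ?_
    rw [integral_finsetSum _ fun l _ => ((hxi i l).integrableOn).const_mul _]
    exact Finset.sum_congr rfl fun l _ => (integral_const_mul _ _).symm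
  have h2 : CE a f N (sd a) =
      ∫ x in N, ∑ i, (sxc a i).indicator (fun x => ∑ j, f j x * sd a i j x) x ∂(gam n) := by
    unfold CE
    rw [integral_finsetSum _ fun i _ => ((integrable_finsetSum _ fun j _ =>
      hfi i j).indicator (hc1 i)).integrableOn]
    refine Finset.sum_congr rfl fun i _ => ?_
    rw [setIntegral_indicator (hc1 i), inter_comm]
  rw [h1, h2, ← integral_neg]
  refine integral_congr_ae (Filter.Eventually.of_forall fun x => ?_)
  show ∑ i, ∑ l, a i l * (x l * df a f i x) =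
    -∑ i, (sxc a i).indicator (fun x => ∑ j, f j x * sd a i j x) x
  obtain ⟨i0, hi0, hu⟩ := hc2 x
  have e1 : ∑ i, (sxc a i).indicator (fun x => ∑ j, f j x * sd a i j x) x =
      ∑ j, f j x * sd a i0 j x := by
    rw [Finset.sum_eq_single i0]
    · exact indicator_of_mem hi0 _
    · intro i _ hi
      exact indicator_of_notMem (fun h => hi (hu i h)) _
    · intro h
      exact absurd (Finset.mem_univ i0) h
  have e2 : ∀ i, ∑ l, a i l * (x l * df a f i x) = (∑ l, a i l * x l) * df a f i x := by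
    intro i
    rw [Finset.sum_mul]
    exact Finset.sum_congr rfl fun l _ => by ring
  have e3 : ∀ i, (∑ l, a i l * x l) * df a f i x = f i x * (∑ l, a i l * x l) -
      (if i = i0 then ∑ l, a i0 l * x l else 0) := by
    intro i
    unfold df fst
    by_cases hi : i = i0
    · rw [if_pos hi, hi, indicator_of_mem hi0]
      ring
    · rw [if_neg hi, indicator_of_notMem (fun h => hi (hu i h))]
      ring
  have e4 : ∀ j, f j x * sd a i0 j x = f j x * (∑ l, a i0 l * x l) - f j x * (∑ l, a j l * x l) := by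
    intro j
    unfold sd
    rw [← mul_sub, ← Finset.sum_sub_distrib]
    congr 1
    exact Finset.sum_congr rfl fun l _ => by ring
  rw [e1]
  simp only [e2, e3, e4, Finset.sum_sub_distrib]
  rw [Finset.sum_ite_eq', if_pos (Finset.mem_univ _), ← Finset.sum_mul, hf.2.2 x]
  ring

/-- [P3c] USE OF THE CENTROID INEQUALITY, dimension free.  `κ = kap m`, `a~ = ext M a`, `N~ = {z | fc z ∈ N}`.
PROOF.  Let `f¹ = f` on `N~` and `f* = fst a~` on the complement (`FP`).  `k1_il = ∫_{N~} z_l d_i`, `k2_il = ∫_{N~ᶜ} z_l d_i`.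
`Kf f¹ = κa~ + k1` (`Kf_fst`), so `Tf f¹ = κ²q + 2κ ∑ a~_il k1_il + |k1|²`, `κ² q = T*` and
`κ ∑_il a~_il k1_il = κ ∫_{N~} ∑_i d_i ⟨a~_i, z⟩ = -E`, `E = κ CE a~ f N~ (sd a~) = κ ∫ CE a (sl f y) N (sd a)` (on `sxc a~ i`:
`∑_j f_j ⟨a_j,·⟩ - ⟨a_i,·⟩ = -∑_j f_j s_ij`; `CE_slice`).  `Bprime` for `f¹` and `a~`: with some orthogonal `U`,
`T* - 2E + |k1|² = Tf f¹ ≤ T* - c |Kf f¹ - κa~U|² + C pen f¹`.  By `hrot`:
`|k1 + k2| = |Kf f - κa~| ≤ |Kf f - κa~U| ≤ |Kf f¹ - κa~U| + |k2|`, so `|k1| ≤ |Kf f¹ - κa~U| + 2|k2|` and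
`|Kf f¹ - κa~U|² ≥ ½|k1|² - 4|k2|²`.  Hence `-2E + |k1|² ≤ -(c/2)|k1|² + 4c|k2|² + C pen f¹`.
`pen f¹ = ∑ (∫_{N~} d_i)² = ∑ (∫_{N~ᶜ} d_i)²` (`∫ d_i = 0`: both partitions are balanced, `sx_law`), `far_part`. -/
theorem use_Bp (m k : ℕ) (a : Fin (m + 2) → Fin k → ℝ) (ha : IsSx a) : ∃ c C : ℝ, 0 < c ∧ 0 ≤ C ∧
    ∀ (M : ℕ) (f : Fin (m + 2) → (Fin (k + M) → ℝ) → ℝ), FP f →
      (∀ i, ∫ z, f i z ∂(gam (k + M)) = 1 / ((m + 2 : ℕ) : ℝ)) →
      (∀ U ∈ Matrix.orthogonalGroup (Fin (k + M)) ℝ,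
        ∑ i, ∑ l, (Kf f i l - kap m * ext M a i l) ^ 2 ≤
          ∑ i, ∑ l, (Kf f i l - kap m * ∑ p, ext M a i p * U p l) ^ 2) →
      ∀ N : Set (Fin k → ℝ), MeasurableSet N →
        (1 + c) * ∑ i, ∑ l, (∫ z in {z | fc z ∈ N}, z l * df (ext M a) f i z ∂(gam (k + M))) ^ 2 ≤
          2 * (kap m * ∫ y, CE a (sl f y) N (sd a) ∂(gam M))
            + C * ∫ y, CE a (sl f y) Nᶜ wW ^ 2 ∂(gam M) ∧
        ∑ i, ∑ l, (∫ z in {z | fc z ∈ Nᶜ}, z l * df (ext M a) f i z ∂(gam (k + M))) ^ 2 ≤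
          C * ∫ y, CE a (sl f y) Nᶜ wW ^ 2 ∂(gam M) ∧
        ∀ i l, ∫ z, z l * df (ext M a) f i z ∂(gam (k + M)) =
          (∫ z in {z | fc z ∈ N}, z l * df (ext M a) f i z ∂(gam (k + M)))
            + ∫ z in {z | fc z ∈ Nᶜ}, z l * df (ext M a) f i z ∂(gam (k + M)) := by
  classical
  obtain ⟨c, C, hc, hC, hB⟩ := Bprime m
  obtain ⟨C', hC', hfar⟩ := far_part m k a
  refine ⟨c / 4, (C + 3 * c / 2) * C' + C', by positivity, by positivity, ?_⟩
  intro M f hf hbal hrot N hN
  have := p3_prob k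
  have := p3_prob M
  have := p3_prob (k + M)
  obtain ⟨hA0, _, hsd, _, _, _⟩ := ext_basic M a
  have hA := hA0 ha
  obtain ⟨_, _, hCE⟩ := CE_slice M a (by omega) f hf N hN (sd a) (fun i j => (p3_sd a i j).1)
    (fun i j => (p3_sd a i j).2)
  obtain ⟨hf1, hf2⟩ := hfar M f hf N hN
  obtain ⟨hκ, hT, hKA⟩ := Kf_fst m (ext M a) hA
  obtain ⟨hmass, _⟩ := sx_law m (ext M a) hA
  have hNs : MeasurableSet {z : Fin (k + M) → ℝ | fc z ∈ N} := p3_fc hN
  have hsdA : (fun i j (z : Fin (k + M) → ℝ) => sd a i j (fc z)) = sd (ext M a) := by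
    funext i j z
    exact (hsd i j z).symm
  rw [hsdA] at hCE
  rw [← hCE]
  have hEn := p3_energy m (ext M a) f hf {z | fc z ∈ N} hNs
  have hcompl : {z : Fin (k + M) → ℝ | fc z ∈ Nᶜ} = {z : Fin (k + M) → ℝ | fc z ∈ N}ᶜ := rfl
  rw [hcompl] at hf1 hf2 ⊢
  have hFPA := (sxc_basic (by omega : 0 < m + 2) (ext M a)).2.2.1
  have hd := p3_df m (ext M a) hf
  generalize {z : Fin (k + M) → ℝ | fc z ∈ N} = S at hNs hCE hEn hf1 hf2 ⊢
  generalize ext M a = A at hA hKA hmass hEn hf1 hf2 hFPA hd hrot hCE ⊢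
  have hI : 0 ≤ ∫ y, CE a (sl f y) Nᶜ wW ^ 2 ∂(gam M) := integral_nonneg fun y => sq_nonneg _
  generalize (∫ y, CE a (sl f y) Nᶜ wW ^ 2 ∂(gam M)) = I at hf1 hf2 hI ⊢
  have hzd : ∀ i l, Integrable (fun z : Fin (k + M) → ℝ => z l * df A f i z) (gam (k + M)) :=
    fun i l => (p3_coord (k + M) l).mul_bdd (c := 1) (hd i).1.aestronglyMeasurable
      (Filter.Eventually.of_forall fun x => by
        rw [Real.norm_eq_abs]
        exact (hd i).2 x)
  have hdi : ∀ i, Integrable (df A f i) (gam (k + M)) := fun i =>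
    Integrable.of_bound (hd i).1.aestronglyMeasurable 1 (Filter.Eventually.of_forall (hd i).2)
  have hsplit : ∀ i l, ∫ z, z l * df A f i z ∂(gam (k + M)) =
      (∫ z in S, z l * df A f i z ∂(gam (k + M))) + ∫ z in Sᶜ, z l * df A f i z ∂(gam (k + M)) :=
    fun i l => (integral_add_compl hNs (hzd i l)).symm
  have hsplit1 : ∀ i, ∫ z, df A f i z ∂(gam (k + M)) =
      (∫ z in S, df A f i z ∂(gam (k + M))) + ∫ z in Sᶜ, df A f i z ∂(gam (k + M)) :=
    fun i => (integral_add_compl hNs (hdi i)).symm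
  have hfint : ∀ {h : Fin (m + 2) → (Fin (k + M) → ℝ) → ℝ}, FP h → ∀ i,
      Integrable (h i) (gam (k + M)) := fun {h} hh i =>
    Integrable.of_bound (hh.1 i).aestronglyMeasurable 1 (Filter.Eventually.of_forall fun x => by
      rw [Real.norm_eq_abs, abs_of_nonneg (hh.2.1 i x)]
      exact p3_le hh i x)
  have hzero : ∀ i, ∫ z, df A f i z ∂(gam (k + M)) = 0 := by
    intro i
    have h1 : ∫ z, df A f i z ∂(gam (k + M)) =
        (∫ z, f i z ∂(gam (k + M))) - ∫ z, fst A i z ∂(gam (k + M)) :=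
      integral_sub (hfint hf i) (hfint hFPA i)
    rw [h1, hbal, hmass, sub_self]
  -- the mixed partition
  set f1 : Fin (m + 2) → (Fin (k + M) → ℝ) → ℝ := fun i z => if z ∈ S then f i z else fst A i z
    with hf1d
  have hf1FP : FP f1 := by
    refine ⟨fun i => Measurable.ite hNs (hf.1 i) (hFPA.1 i), ?_, ?_⟩
    · intro i z
      show 0 ≤ if z ∈ S then f i z else fst A i z
      split_ifs
      · exact hf.2.1 i z
      · exact hFPA.2.1 i z
    · intro z
      show ∑ i, (if z ∈ S then f i z else fst A i z) = 1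
      by_cases hz : z ∈ S
      · simp only [if_pos hz]
        exact hf.2.2 z
      · simp only [if_neg hz]
        exact hFPA.2.2 z
  have hf1e : ∀ i z, f1 i z = fst A i z + S.indicator (df A f i) z := by
    intro i z
    show (if z ∈ S then f i z else fst A i z) = _
    by_cases hz : z ∈ S
    · rw [if_pos hz, indicator_of_mem hz]
      unfold df
      ring
    · rw [if_neg hz, indicator_of_notMem hz, add_zero]
  set k1 : Fin (m + 2) → Fin (k + M) → ℝ := fun i l => ∫ z in S, z l * df A f i z ∂(gam (k + M))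
    with hk1
  set k2 : Fin (m + 2) → Fin (k + M) → ℝ := fun i l => ∫ z in Sᶜ, z l * df A f i z ∂(gam (k + M))
    with hk2
  have hK1 : ∀ i l, Kf f1 i l = kap m * A i l + k1 i l := by
    intro i l
    rw [← hKA i l]
    show ∫ z, z l * f1 i z ∂(gam (k + M)) = (∫ z, z l * fst A i z ∂(gam (k + M))) +
      ∫ z in S, z l * df A f i z ∂(gam (k + M))
    rw [← integral_indicator hNs, ← integral_add ((Kf_sum (fst A) hFPA).1 i l)
      ((hzd i l).indicator hNs)]
    refine integral_congr_ae (Filter.Eventually.of_forall fun z => ?_)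
    show z l * f1 i z = z l * fst A i z + S.indicator (fun z => z l * df A f i z) z
    rw [hf1e]
    by_cases hz : z ∈ S
    · rw [indicator_of_mem hz, indicator_of_mem hz]
      ring
    · rw [indicator_of_notMem hz, indicator_of_notMem hz]
      ring
  have hKf : ∀ i l, Kf f i l = kap m * A i l + (k1 i l + k2 i l) := by
    intro i l
    rw [← hKA i l]
    show ∫ z, z l * f i z ∂(gam (k + M)) = (∫ z, z l * fst A i z ∂(gam (k + M))) +
      ((∫ z in S, z l * df A f i z ∂(gam (k + M))) + ∫ z in Sᶜ, z l * df A f i z ∂(gam (k + M)))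
    rw [← hsplit, ← integral_add ((Kf_sum (fst A) hFPA).1 i l) (hzd i l)]
    refine integral_congr_ae (Filter.Eventually.of_forall fun z => ?_)
    show z l * f i z = z l * fst A i z + z l * df A f i z
    unfold df
    ring
  -- masses
  have hpen : pen f1 ≤ C' * I := by
    have h1 : pen f1 = ∑ i, (∫ z in Sᶜ, df A f i z ∂(gam (k + M))) ^ 2 := by
      unfold pen
      refine Finset.sum_congr rfl fun i _ => ?_
      have h2 : ∫ z, f1 i z ∂(gam (k + M)) = (∫ z, fst A i z ∂(gam (k + M))) +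
          ∫ z in S, df A f i z ∂(gam (k + M)) := by
        rw [← integral_indicator hNs, ← integral_add (hfint hFPA i) ((hdi i).indicator hNs)]
        exact integral_congr_ae (Filter.Eventually.of_forall fun z => hf1e i z)
      have h3 := hsplit1 i
      rw [hzero i] at h3
      have h4 : ∫ z in S, df A f i z ∂(gam (k + M)) = -∫ z in Sᶜ, df A f i z ∂(gam (k + M)) := by
        linarith
      rw [h2, hmass, h4]
      ring
    rw [h1]
    exact hf2
  -- the main inequality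
  obtain ⟨U, hU, hTU⟩ := hB (k + M) A hA f1 hf1FP
  have hr := hrot U hU
  have h5 : ∑ i, ∑ l, k1 i l ^ 2 ≤
      4 * ∑ i, ∑ l, (Kf f1 i l - kap m * ∑ p, A i p * U p l) ^ 2 + 6 * ∑ i, ∑ l, k2 i l ^ 2 := by
    have h6 := p3_alg (ι := Fin (m + 2) × Fin (k + M)) (fun p => k1 p.1 p.2) (fun p => k2 p.1 p.2)
      (fun p => Kf f1 p.1 p.2 - kap m * ∑ q, A p.1 q * U q p.2) (by
        rw [Fintype.sum_prod_type, Fintype.sum_prod_type]
        refine (le_of_eq ?_).trans (hr.trans (le_of_eq ?_))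
        · refine Finset.sum_congr rfl fun i _ => Finset.sum_congr rfl fun l _ => ?_
          rw [hKf i l]
          ring
        · refine Finset.sum_congr rfl fun i _ => Finset.sum_congr rfl fun l _ => ?_
          show _ = (Kf f1 i l - kap m * ∑ q, A i q * U q l + k2 i l) ^ 2
          rw [hKf i l, hK1 i l]
          ring)
    rw [Fintype.sum_prod_type, Fintype.sum_prod_type, Fintype.sum_prod_type] at h6
    exact h6
  have hTf : Tf f1 = Tst m - 2 * (kap m * CE A f S (sd A)) + ∑ i, ∑ l, k1 i l ^ 2 := by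
    unfold Tf
    have h6 : ∀ i l, Kf f1 i l ^ 2 = kap m ^ 2 * (A i l * A i l) + 2 * kap m * (A i l * k1 i l) +
        k1 i l ^ 2 := by
      intro i l
      rw [hK1]
      ring
    simp only [h6, Finset.sum_add_distrib, ← Finset.mul_sum]
    have h7 : ∀ i, ∑ l, A i l * A i l = 1 := hA.1
    simp only [h7]
    rw [hEn, hT, Finset.sum_const, Finset.card_univ, Fintype.card_fin, nsmul_eq_mul]
    push_cast
    ring
  rw [hTf] at hTU
  set X := ∑ i, ∑ l, (Kf f1 i l - kap m * ∑ p, A i p * U p l) ^ 2 with hX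
  set Q1 := ∑ i, ∑ l, k1 i l ^ 2 with hQ1
  set Q2 := ∑ i, ∑ l, k2 i l ^ 2 with hQ2
  refine ⟨?_, ?_, hsplit⟩
  · have h8 : C * pen f1 ≤ C * (C' * I) := mul_le_mul_of_nonneg_left hpen hC
    have h9 : c * Q1 ≤ c * (4 * X + 6 * Q2) := mul_le_mul_of_nonneg_left h5 hc.le
    have h10 : c * Q2 ≤ c * (C' * I) := mul_le_mul_of_nonneg_left hf1 hc.le
    have h11 : 0 ≤ C' * I := mul_nonneg hC' hI
    nlinarith
  · refine hf1.trans ?_
    have h11 : 0 ≤ (C + 3 * c / 2) * C' * I := by positivity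
    rw [add_mul]
    linarith

end Pool.Agent.SSQ
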