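import Pool.Agent.SSQ.P1
import Pool.Agent.SSQ.C6

set_option autoImplicit false
open MeasureTheory ProbabilityTheory Set Real

namespace Pool.Agent.SSQ
open Pool.Agent.SSC3N (gam GG TT gam_prob cubq cubi)

/-- [P4a] `tr (N R) ≤ tr N` for `N` symmetric positive semidefinite and `R` orthogonal:
`0 ≤ tr((1-R)ᵀ N (1-R)) = 2 tr N - 2 tr(N R)`. -/
theorem tr_orth (n : ℕ) (N R : Matrix (Fin n) (Fin n) ℝ) (hN : ∀ i j, N i j = N j i)
    (hp : ∀ v : Fin n → ℝ, 0 ≤ ∑ i, ∑ j, v i * v j * N i j)
    (hR : R ∈ Matrix.orthogonalGroup (Fin n) ℝ) : (N * R).trace ≤ N.trace := by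
  have hRR : R * R.transpose = 1 := by
    rw [Matrix.mem_orthogonalGroup_iff] at hR
    simpa [Matrix.star_eq_conjTranspose, Matrix.conjTranspose_eq_transpose_of_trivial] using hR
  have hNt : N.transpose = N := by
    ext i j
    rw [Matrix.transpose_apply]
    exact hN j i
  set C : Matrix (Fin n) (Fin n) ℝ := 1 - R with hC
  have h1 : 0 ≤ (C.transpose * N * C).trace := by
    unfold Matrix.trace
    refine Finset.sum_nonneg fun l _ => ?_
    have h2 := hp (fun i => C i l)
    rw [Matrix.diag_apply, Matrix.mul_apply]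
    simp_rw [Matrix.mul_apply, Matrix.transpose_apply, Finset.sum_mul]
    rw [Finset.sum_comm]
    refine h2.trans (le_of_eq ?_)
    exact Finset.sum_congr rfl fun i _ => Finset.sum_congr rfl fun j _ => by ring
  have h3 : (C.transpose * N * C).trace = 2 * N.trace - 2 * (N * R).trace := by
    rw [Matrix.trace_mul_cycle, Matrix.trace_mul_comm]
    have h4 : C * C.transpose = 1 + 1 - R - R.transpose := by
      rw [hC, Matrix.transpose_sub, Matrix.transpose_one, Matrix.sub_mul, Matrix.mul_sub,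
        Matrix.mul_sub, hRR, Matrix.one_mul, Matrix.one_mul, Matrix.mul_one]
      abel
    have h5 : (N * R.transpose).trace = (N * R).trace := by
      rw [← Matrix.trace_transpose, Matrix.transpose_mul, Matrix.transpose_transpose, hNt,
        Matrix.trace_mul_comm]
    rw [h4, Matrix.mul_sub, Matrix.mul_sub, Matrix.mul_add, Matrix.mul_one, Matrix.trace_sub,
      Matrix.trace_sub, Matrix.trace_add, h5]
    ring
  linarith

/-- [P4b] BEST ROTATION, with vanishing last coordinates.
PROOF.  `a~ = ext M a`, `K = Kf f`, `polar` for `a~ᵀK`: `U` orthogonal, `N = a~ᵀK'` symmetric positive semidefinite, `K' = KU`.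
`f'` = the rotated partition (`rot_FP` with `Q = Uᵀ`), `Kf f' = K'`.
(i) for `U'` orthogonal: `|K' - κa~|² ≤ |K' - κa~U'|²` iff `⟨K', a~U'⟩ ≤ ⟨K', a~⟩`, i.e. `tr(N U') ≤ tr N` (`tr_orth`;
`|a~U'| = |a~|`, `κ ≥ 0`).
(ii) for a last coordinate `l = natAdd k j` the column `a~_·l` vanishes, so `N_lp = ∑_i a~_il K'_ip = 0` for all `p`; by symmetry
`∑_i a~_ip K'_il = 0` for all `p`; multiply by `a~_jp` and sum over `p`: `(q/(q-1)) ∑_i Π_ji K'_il = 0` (`sx_sum`), and
`∑_i K'_il = 0` (`Kf_sum`), so `K'_jl = 0`. -/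
theorem best_rot' (m k : ℕ) (a : Fin (m + 2) → Fin k → ℝ) (ha : IsSx a) (M : ℕ)
    (f : Fin (m + 2) → (Fin (k + M) → ℝ) → ℝ) (hf : FP f) :
    ∃ f' : Fin (m + 2) → (Fin (k + M) → ℝ) → ℝ, FP f' ∧ (∀ ρ, Fn ρ f' = Fn ρ f) ∧
      (∀ i, ∫ z, f' i z ∂(gam (k + M)) = ∫ z, f i z ∂(gam (k + M))) ∧
      (∀ i j, Kf f' i (Fin.natAdd k j) = 0) ∧
      ∀ U ∈ Matrix.orthogonalGroup (Fin (k + M)) ℝ,
        ∑ i, ∑ l, (Kf f' i l - kap m * ext M a i l) ^ 2 ≤
          ∑ i, ∑ l, (Kf f' i l - kap m * ∑ p, ext M a i p * U p l) ^ 2 := by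
  have hsx : IsSx (ext M a) := (ext_basic M a).1 ha
  set A : Matrix (Fin (m + 2)) (Fin (k + M)) ℝ := Matrix.of (ext M a) with hA
  set K : Matrix (Fin (m + 2)) (Fin (k + M)) ℝ := Matrix.of (Kf f) with hK
  obtain ⟨U, hU, hsym, hpsd⟩ := polar (k + M) (A.transpose * K)
  have hUU : U * U.transpose = 1 := by
    rw [Matrix.mem_orthogonalGroup_iff] at hU
    simpa [Matrix.star_eq_conjTranspose, Matrix.conjTranspose_eq_transpose_of_trivial] using hU
  have hUU' : U.transpose * U = 1 := mul_eq_one_comm.1 hUU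
  have hUt : U.transpose ∈ Matrix.orthogonalGroup (Fin (k + M)) ℝ := by
    rw [Matrix.mem_orthogonalGroup_iff]
    simpa [Matrix.star_eq_conjTranspose, Matrix.conjTranspose_eq_transpose_of_trivial] using hUU'
  obtain ⟨h1, h2, h3, h4⟩ := rot_FP f hf U.transpose hUt
  set f' : Fin (m + 2) → (Fin (k + M) → ℝ) → ℝ :=
    fun i x => f i (U.transpose.transpose.mulVec x) with hf'
  have hN : ∀ p l, ((A.transpose * K) * U) p l = ∑ i, ext M a i p * Kf f' i l := by
    intro p l
    rw [Matrix.mul_assoc, Matrix.mul_apply]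
    refine Finset.sum_congr rfl fun i _ => ?_
    rw [h4, Matrix.transpose_apply, hA, Matrix.of_apply, Matrix.mul_apply]
    congr 1
    refine Finset.sum_congr rfl fun x _ => ?_
    rw [Matrix.transpose_apply, hK, Matrix.of_apply, mul_comm]
  refine ⟨f', h1, h2, h3, ?_, ?_⟩
  · intro j0 j
    obtain ⟨-, hs⟩ := sx_sum (by omega : 2 ≤ m + 2) (ext M a) hsx
    have e1 : ∀ p, ∑ i, ext M a i p * Kf f' i (Fin.natAdd k j) = 0 := by
      intro p
      rw [← hN, hsym, hN]
      refine Finset.sum_eq_zero fun i _ => ?_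
      have : ext M a i (Fin.natAdd k j) = 0 := by
        unfold ext
        rw [Fin.append_right]
      rw [this, zero_mul]
    have e2 : ∑ i, (∑ p, ext M a j0 p * ext M a i p) * Kf f' i (Fin.natAdd k j) = 0 := by
      simp_rw [Finset.sum_mul]
      rw [Finset.sum_comm]
      refine Finset.sum_eq_zero fun p _ => ?_
      have := e1 p
      calc ∑ i, ext M a j0 p * ext M a i p * Kf f' i (Fin.natAdd k j)
          = ext M a j0 p * ∑ i, ext M a i p * Kf f' i (Fin.natAdd k j) := by
            rw [Finset.mul_sum]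
            exact Finset.sum_congr rfl fun i _ => by ring
        _ = 0 := by rw [this, mul_zero]
    have e3 := (Kf_sum f' h1).2 (Fin.natAdd k j)
    simp_rw [hs] at e2
    have hm2 : (0 : ℝ) < ((m + 2 : ℕ) : ℝ) := by positivity
    have hm1 : (0 : ℝ) < ((m + 2 : ℕ) : ℝ) - 1 := by
      push_cast
      linarith [Nat.cast_nonneg (α := ℝ) m]
    have e4 : ∑ i, ((m + 2 : ℕ) : ℝ) / (((m + 2 : ℕ) : ℝ) - 1) * Pc (m + 2) j0 i *
        Kf f' i (Fin.natAdd k j) =
        ((m + 2 : ℕ) : ℝ) / (((m + 2 : ℕ) : ℝ) - 1) * Kf f' j0 (Fin.natAdd k j) := by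
      unfold Pc
      simp_rw [mul_assoc]
      rw [← Finset.mul_sum]
      congr 1
      simp_rw [sub_mul]
      rw [Finset.sum_sub_distrib, ← Finset.mul_sum, e3, mul_zero, sub_zero]
      simp
    rw [e4] at e2
    have e5 : ((m + 2 : ℕ) : ℝ) / (((m + 2 : ℕ) : ℝ) - 1) ≠ 0 := by positivity
    exact (mul_eq_zero.1 e2).resolve_left e5
  · intro V hV
    have hVV : V * V.transpose = 1 := by
      rw [Matrix.mem_orthogonalGroup_iff] at hV
      simpa [Matrix.star_eq_conjTranspose, Matrix.conjTranspose_eq_transpose_of_trivial] using hV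
    have hVV' : V.transpose * V = 1 := mul_eq_one_comm.1 hVV
    have hVt : V.transpose ∈ Matrix.orthogonalGroup (Fin (k + M)) ℝ := by
      rw [Matrix.mem_orthogonalGroup_iff]
      simpa [Matrix.star_eq_conjTranspose, Matrix.conjTranspose_eq_transpose_of_trivial] using hVV'
    have t1 := tr_orth (k + M) _ V.transpose hsym hpsd hVt
    have t2 : ((A.transpose * K) * U).trace = ∑ i, ∑ l, Kf f' i l * ext M a i l := by
      unfold Matrix.trace
      simp_rw [Matrix.diag_apply, hN]
      rw [Finset.sum_comm]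
      exact Finset.sum_congr rfl fun i _ => Finset.sum_congr rfl fun l _ => mul_comm _ _
    have t3 : (((A.transpose * K) * U) * V.transpose).trace =
        ∑ i, ∑ l, Kf f' i l * ∑ p, ext M a i p * V p l := by
      unfold Matrix.trace
      simp_rw [Matrix.diag_apply]
      calc ∑ p, (((A.transpose * K) * U) * V.transpose) p p
          = ∑ p, ∑ l, (∑ i, ext M a i p * Kf f' i l) * V p l := by
            refine Finset.sum_congr rfl fun p _ => ?_
            rw [Matrix.mul_apply]
            exact Finset.sum_congr rfl fun l _ => by rw [hN, Matrix.transpose_apply]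
        _ = ∑ p, ∑ i, ∑ l, ext M a i p * Kf f' i l * V p l := by
            refine Finset.sum_congr rfl fun p _ => ?_
            simp_rw [Finset.sum_mul]
            exact Finset.sum_comm
        _ = ∑ i, ∑ p, ∑ l, ext M a i p * Kf f' i l * V p l := Finset.sum_comm
        _ = ∑ i, ∑ l, Kf f' i l * ∑ p, ext M a i p * V p l := by
            refine Finset.sum_congr rfl fun i _ => ?_
            rw [Finset.sum_comm]
            refine Finset.sum_congr rfl fun l _ => ?_
            rw [Finset.mul_sum]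
            exact Finset.sum_congr rfl fun p _ => by ring
    have t4 : ∑ i, ∑ l, (∑ p, ext M a i p * V p l) ^ 2 = ∑ i, ∑ l, ext M a i l ^ 2 := by
      refine Finset.sum_congr rfl fun i _ => ?_
      have hq : V.transpose.transpose * V.transpose = 1 := by
        rw [Matrix.transpose_transpose]
        exact hVV
      rw [← c6_frob V.transpose hq (ext M a i)]
      refine Finset.sum_congr rfl fun l _ => ?_
      congr 1
      exact Finset.sum_congr rfl fun p _ => by rw [Matrix.transpose_apply, mul_comm]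
    have hk : 0 ≤ kap m := Real.sqrt_nonneg _
    have s1 : ∑ i, ∑ l, (Kf f' i l - kap m * ext M a i l) ^ 2 =
        ∑ i, ∑ l, Kf f' i l ^ 2 - 2 * kap m * ∑ i, ∑ l, Kf f' i l * ext M a i l +
          kap m ^ 2 * ∑ i, ∑ l, ext M a i l ^ 2 := by
      simp_rw [Finset.mul_sum]
      rw [← Finset.sum_sub_distrib, ← Finset.sum_add_distrib]
      refine Finset.sum_congr rfl fun i _ => ?_
      rw [← Finset.sum_sub_distrib, ← Finset.sum_add_distrib]
      exact Finset.sum_congr rfl fun l _ => by ring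
    have s2 : ∑ i, ∑ l, (Kf f' i l - kap m * ∑ p, ext M a i p * V p l) ^ 2 =
        ∑ i, ∑ l, Kf f' i l ^ 2 -
          2 * kap m * ∑ i, ∑ l, Kf f' i l * (∑ p, ext M a i p * V p l) +
          kap m ^ 2 * ∑ i, ∑ l, (∑ p, ext M a i p * V p l) ^ 2 := by
      rw [Finset.mul_sum, Finset.mul_sum, ← Finset.sum_sub_distrib, ← Finset.sum_add_distrib]
      refine Finset.sum_congr rfl fun i _ => ?_
      rw [Finset.mul_sum, Finset.mul_sum, ← Finset.sum_sub_distrib, ← Finset.sum_add_distrib]
      exact Finset.sum_congr rfl fun l _ => by ring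
    rw [s1, s2, t4]
    rw [t2, t3] at t1
    nlinarith [mul_le_mul_of_nonneg_left t1 hk]

end Pool.Agent.SSQ
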