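import Pool.Agent.SSQ.P2b
import Pool.Agent.SSQ.P3
import Pool.Agent.SSQ.P4
import Pool.Agent.SSQ.E9b
import Pool.Agent.SSQ.E7c
import Pool.Agent.SSQ.E7d
import Pool.Agent.SSQ.E7e

set_option autoImplicit false
open MeasureTheory ProbabilityTheory Set Real

namespace Pool.Agent.SSQ
open Pool.Agent.SSC3N (gam GG TT gam_prob cubq cubi)

private theorem p5_le_one {q n : ℕ} {f : Fin q → (Fin n → ℝ) → ℝ} (hf : FP f) (i : Fin q)
    (x : Fin n → ℝ) : f i x ≤ 1 := by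
  rw [← hf.2.2 x]
  exact Finset.single_le_sum (fun j _ => hf.2.1 j x) (Finset.mem_univ i)

private theorem p5_bint {M : ℕ} (F : (Fin M → ℝ) → ℝ) (hF : Measurable F) (B : ℝ)
    (hB : ∀ y, |F y| ≤ B) :
    Integrable F (gam M) ∧ Integrable (fun y => F y ^ 2) (gam M) := by
  have hP : IsProbabilityMeasure (gam M) := gam_prob M
  refine ⟨(integrable_const B).mono' hF.aestronglyMeasurable
    (Filter.Eventually.of_forall fun y => ?_), (integrable_const (B ^ 2)).mono'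
    (hF.pow_const 2).aestronglyMeasurable (Filter.Eventually.of_forall fun y => ?_)⟩
  · rw [Real.norm_eq_abs]
    exact hB y
  · rw [Real.norm_eq_abs, abs_pow]
    exact pow_le_pow_left₀ (abs_nonneg _) (hB y) 2

private theorem p5_exp (n : ℕ) :
    Integrable (fun x : Fin n → ℝ => Real.exp (cubq x / 32)) (gam n) := by
  refine ((exp_mom n).1 (1 / 32) (by norm_num)).congr (Filter.Eventually.of_forall fun x => ?_)
  show Real.exp (1 / 32 * cubq x) = Real.exp (cubq x / 32)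
  congr 1
  ring

private theorem p5_coord (n : ℕ) (l : Fin n) :
    Integrable (fun x : Fin n → ℝ => x l) (gam n) := by
  obtain ⟨C, hC, hb⟩ := (exp_mom n).2.1 (1 / 4) (by norm_num)
  refine (((exp_mom n).1 (1 / 4) le_rfl).const_mul C).mono'
    (measurable_pi_apply l).aestronglyMeasurable (Filter.Eventually.of_forall fun x => ?_)
  rw [Real.norm_eq_abs]
  exact hb x l

private theorem p5_sd {q n : ℕ} (a : Fin q → Fin n → ℝ) (i j : Fin q) :
    Measurable (sd a i j) ∧ Integrable (sd a i j) (gam n) := by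
  constructor
  · have h1 : Measurable (fun x => sd a i j x) := by
      unfold sd
      exact Finset.measurable_sum _ fun l _ => (measurable_pi_apply l).const_mul _
    exact h1
  · have h1 : Integrable (fun x => sd a i j x) (gam n) := by
      unfold sd
      exact integrable_finsetSum _ fun l _ => (p5_coord n l).const_mul _
    exact h1

private theorem p5_wW {q n : ℕ} (i j : Fin q) :
    Measurable (wW (n := n) i j) ∧ Integrable (wW (n := n) i j) (gam n) := by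
  have hm : Measurable (wW (n := n) i j) := by
    unfold wW
    by_cases h : j = i
    · simp only [if_pos h]
      exact measurable_const
    · simp only [if_neg h]
      exact (Real.measurable_exp.comp (Pool.Agent.SSC3N.cubq_measurable.div_const 32))
  refine ⟨hm, (p5_exp n).mono' hm.aestronglyMeasurable (Filter.Eventually.of_forall fun x => ?_)⟩
  unfold wW
  rw [Real.norm_eq_abs]
  split_ifs
  · rw [abs_zero]
    exact (Real.exp_pos _).le
  · rw [abs_of_pos (Real.exp_pos _)]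

private theorem p5_wM {q n : ℕ} (a : Fin q → Fin n → ℝ) (i j : Fin q) :
    Measurable (wM a i j) ∧ Integrable (wM a i j) (gam n) := by
  have hP : IsProbabilityMeasure (gam n) := gam_prob n
  have hm : Measurable (fun x => wM a i j x) := by
    unfold wM
    refine Measurable.mul ?_ ((p5_sd a i j).1.min measurable_const)
    exact Real.measurable_exp.comp (Pool.Agent.SSC3N.cubq_measurable.div_const 64).neg
  refine ⟨hm, ((p5_sd a i j).2.abs.add (integrable_const 1)).mono' hm.aestronglyMeasurable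
    (Filter.Eventually.of_forall fun x => ?_)⟩
  rw [Real.norm_eq_abs]
  show |wM a i j x| ≤ |sd a i j x| + 1
  unfold wM
  rw [abs_mul, abs_of_pos (Real.exp_pos _)]
  have h1 : Real.exp (-(cubq x / 64)) ≤ 1 := by
    rw [Real.exp_le_one_iff]
    have h2 := Pool.Agent.SSC3N.cubq_nonneg x
    linarith
  have h2 : |min (sd a i j x) 1| ≤ |sd a i j x| + 1 := by
    rw [abs_le]
    have h3 := neg_abs_le (sd a i j x)
    have h4 := abs_nonneg (sd a i j x)
    constructor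
    · refine le_min ?_ ?_ <;> linarith
    · have h5 := min_le_right (sd a i j x) 1
      linarith
  have h3 := mul_le_mul_of_nonneg_right h1 (abs_nonneg (min (sd a i j x) 1))
  linarith

private theorem p5_TT {n : ℕ} (ρ : ℝ) (g : (Fin n → ℝ) → ℝ) (hg : Measurable g)
    (h1 : ∀ x, |g x| ≤ 1) : Measurable (TT ρ g) ∧ ∀ x, |TT ρ g x| ≤ 1 := by
  have hP : IsProbabilityMeasure (gam n) := gam_prob n
  refine ⟨(Pool.Agent.SSC3N.cub_TT_meas ρ g hg).measurable, fun x => ?_⟩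
  unfold TT
  have h2 := norm_integral_le_of_norm_le_const (μ := gam n) (C := 1)
    (f := fun z => g (ρ • x + Real.sqrt (1 - ρ ^ 2) • z))
    (Filter.Eventually.of_forall fun z => by rw [Real.norm_eq_abs]; exact h1 _)
  rw [Real.norm_eq_abs] at h2
  refine h2.trans ?_
  rw [probReal_univ, mul_one]

private theorem p5_GG0 {n : ℕ} (g : (Fin n → ℝ) → ℝ) :
    GG 0 g g = (∫ x, g x ∂(gam n)) ^ 2 := by
  unfold GG
  have h : ∀ y z : Fin n → ℝ, (0 : ℝ) • y + Real.sqrt (1 - 0 ^ 2) • z = z := by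
    intro y z
    norm_num
  simp only [h, integral_const_mul, integral_mul_const]
  ring

private theorem p5_cmp {q k M : ℕ} (a : Fin q → Fin k → ℝ) (hq : 0 < q)
    (f : Fin q → (Fin (k + M) → ℝ) → ℝ) (hf : FP f) (N : Set (Fin k → ℝ)) (hN : MeasurableSet N)
    (w : Fin q → Fin q → (Fin k → ℝ) → ℝ)
    (hw : ∀ i j, Measurable (w i j) ∧ Integrable (w i j) (gam k)) :
    Integrable (fun y => CE a (sl f y) N w) (gam M) ∧
    Integrable (fun y => CE a (sl f y) N w ^ 2) (gam M) := by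
  have h := CE_slice M a hq f hf N hN w (fun i j => (hw i j).1) (fun i j => (hw i j).2)
  exact p5_bint _ h.1 _ h.2.1

/-- [P5a] the sum of the self energies.  `energy_prod` for every `d_i = df (ext M a) f i` (`|d_i| ≤ 1`; `∫ d_i = 0` since both
partitions are balanced, `sx_law` for `ext M a`; `∫ z_{k+j} d_i = Kf f i (k+j) - κ (ext M a)_i(k+j) = 0`, `Kf_fst`); the
coordinates `l ≥ k` contribute zero, so `∑_l` over `Fin k` equals `∑_l` over `Fin (k+M)`.  Slices: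
`cur d_i x y = df a (sl f y) i x` (`ext_basic`), `∑_i (∫ |d_i(·,y)| e^{X/32})² ≤ (∑_i ...)² ≤ (2 CE_N(y) + 2 CE_{Nᶜ}(y))²
≤ 8 (CE_N(y)² + CE_{Nᶜ}(y)²)` (`df_mass` for the slice). -/
theorem self_energy_p (m k : ℕ) (a : Fin (m + 2) → Fin k → ℝ) (ha : IsSx a) : ∃ ρ0 C : ℝ,
    0 < ρ0 ∧ ρ0 ≤ 1 / 2 ∧ 0 ≤ C ∧ ∀ (M : ℕ) (ρ : ℝ), |ρ| ≤ ρ0 → ρ ≠ 0 →
    ∀ f : Fin (m + 2) → (Fin (k + M) → ℝ) → ℝ, FP f →
      (∀ i, ∫ z, f i z ∂(gam (k + M)) = 1 / ((m + 2 : ℕ) : ℝ)) →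
      (∀ i j, Kf f i (Fin.natAdd k j) = 0) →
      ∀ N : Set (Fin k → ℝ), MeasurableSet N →
        ρ / |ρ| * ∑ i, GG ρ (df (ext M a) f i) (df (ext M a) f i) ≤
          |ρ| * ∑ i, ∑ l, (∫ z, z l * df (ext M a) f i z ∂(gam (k + M))) ^ 2
            + C * ρ ^ 2 * ((∫ y, CE a (sl f y) N wW ^ 2 ∂(gam M)) +
              ∫ y, CE a (sl f y) Nᶜ wW ^ 2 ∂(gam M)) := by
  obtain ⟨ρ0, C0, h0, h1, hC0, hE⟩ := energy_prod k
  refine ⟨ρ0, ((m + 2 : ℕ) : ℝ) * (8 * C0), h0, h1, by positivity, ?_⟩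
  intro M ρ hρ hne f hf hm hK N hN
  have hPk : IsProbabilityMeasure (gam k) := gam_prob k
  have hPM : IsProbabilityMeasure (gam M) := gam_prob M
  have hPkM : IsProbabilityMeasure (gam (k + M)) := gam_prob (k + M)
  have hr : 0 < |ρ| := abs_pos.2 hne
  have hb := ext_basic (k := k) M a
  have hax : IsSx (ext M a) := hb.1 ha
  obtain ⟨hsm, hsu, hsf, hsle⟩ := sxc_basic (by omega : 0 < m + 2) (ext M a)
  have hdm : ∀ i, Measurable (df (ext M a) f i) := fun i => (hf.1 i).sub (hsf.1 i)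
  have hd1 : ∀ i x, |df (ext M a) f i x| ≤ 1 := by
    intro i x
    have e1 := hf.2.1 i x
    have e2 := p5_le_one hf i x
    have e3 := hsf.2.1 i x
    have e4 := p5_le_one hsf i x
    unfold df
    rw [abs_le]
    constructor <;> linarith
  have hint : ∀ g : Fin (m + 2) → (Fin (k + M) → ℝ) → ℝ, FP g → ∀ i,
      Integrable (g i) (gam (k + M)) := by
    intro g hg i
    refine Integrable.mono' (integrable_const (1 : ℝ)) (hg.1 i).aestronglyMeasurable
      (Filter.Eventually.of_forall fun x => ?_)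
    rw [Real.norm_of_nonneg (hg.2.1 i x)]
    exact p5_le_one hg i x
  have hd0 : ∀ i, ∫ x, df (ext M a) f i x ∂(gam (k + M)) = 0 := by
    intro i
    have e1 : ∫ x, df (ext M a) f i x ∂(gam (k + M)) =
        ∫ x, f i x ∂(gam (k + M)) - ∫ x, fst (ext M a) i x ∂(gam (k + M)) :=
      integral_sub (hint f hf i) (hint _ hsf i)
    rw [e1, hm i, (sx_law m (ext M a) hax).1 i, sub_self]
  have hdl : ∀ i (j : Fin M), ∫ z, z (Fin.natAdd k j) * df (ext M a) f i z ∂(gam (k + M)) = 0 := by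
    intro i j
    have i1 := (Kf_sum f hf).1 i (Fin.natAdd k j)
    have i2 := (Kf_sum (fst (ext M a)) hsf).1 i (Fin.natAdd k j)
    have e0 : ∀ z : Fin (k + M) → ℝ, z (Fin.natAdd k j) * df (ext M a) f i z =
        z (Fin.natAdd k j) * f i z - z (Fin.natAdd k j) * fst (ext M a) i z := by
      intro z
      unfold df
      ring
    rw [integral_congr_ae (Filter.Eventually.of_forall e0), integral_sub i1 i2]
    have e2 := hK i j
    have e3 := (Kf_fst m (ext M a) hax).2.2 i (Fin.natAdd k j)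
    unfold Kf at e2 e3
    rw [e2, e3]
    have e4 : ext M a i (Fin.natAdd k j) = 0 := by
      unfold ext
      rw [Fin.append_right]
    rw [e4]
    ring
  have hcm : Measurable fun x : Fin k → ℝ => Real.exp (cubq x / 32) :=
    Real.measurable_exp.comp (Pool.Agent.SSC3N.cubq_measurable.div_const 32)
  have hsl : ∀ i x y, cur (df (ext M a) f i) x y = df a (sl f y) i x := by
    intro i x y
    have e1 := hb.2.2.2.2.1 i (Fin.append x y : Fin (k + M) → ℝ)
    rw [hb.2.2.2.2.2 x y] at e1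
    show f i (Fin.append x y) - fst (ext M a) i (Fin.append x y) = f i (Fin.append x y) - fst a i x
    rw [e1]
  obtain ⟨Q, hQ⟩ : ∃ Q : Fin (m + 2) → (Fin M → ℝ) → ℝ,
      Q = fun i y => ∫ x, |df a (sl f y) i x| * Real.exp (cubq x / 32) ∂(gam k) := ⟨_, rfl⟩
  have hQ0 : ∀ i y, 0 ≤ Q i y := by
    intro i y
    rw [hQ]
    exact integral_nonneg fun x => by positivity
  have hwW : ∀ i j : Fin (m + 2), Measurable (wW (n := k) i j) ∧
      Integrable (wW (n := k) i j) (gam k) := fun i j => p5_wW i j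
  obtain ⟨-, hIN⟩ := p5_cmp a (by omega) f hf N hN wW hwW
  obtain ⟨-, hIF⟩ := p5_cmp a (by omega) f hf Nᶜ hN.compl wW hwW
  have hQ2 : ∀ i y, Q i y ^ 2 ≤ 8 * (CE a (sl f y) N wW ^ 2 + CE a (sl f y) Nᶜ wW ^ 2) := by
    intro i y
    have hfy := sl_FP f hf y
    obtain ⟨hsm', hsu', hsf', hsle'⟩ := sxc_basic (by omega : 0 < m + 2) a
    have hdm' : ∀ i, Measurable (df a (sl f y) i) := fun i => (hfy.1 i).sub (hsf'.1 i)
    have hd1' : ∀ i x, |df a (sl f y) i x| ≤ 1 := by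
      intro i x
      have e1 := hfy.2.1 i x
      have e2 := p5_le_one hfy i x
      have e3 := hsf'.2.1 i x
      have e4 := p5_le_one hsf' i x
      unfold df
      rw [abs_le]
      constructor <;> linarith
    have hdi : ∀ i, Integrable (fun x => |df a (sl f y) i x| * Real.exp (cubq x / 32)) (gam k) := by
      intro i
      refine Integrable.mono' (p5_exp k) (((hdm' i).abs).mul hcm).aestronglyMeasurable
        (Filter.Eventually.of_forall fun x => ?_)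
      rw [Real.norm_of_nonneg (by positivity)]
      have e1 := mul_le_mul_of_nonneg_right (hd1' i x) (Real.exp_pos (cubq x / 32)).le
      rw [one_mul] at e1
      exact e1
    have hA := (CE_basic m a (sl f y) hfy N hN).2.2.2.2.2.2
    have hB := (CE_basic m a (sl f y) hfy Nᶜ hN.compl).2.2.2.2.2.2
    have e1 := df_mass m a (sl f y) hfy N hN (fun x => Real.exp (cubq x / 32)) hcm 1 zero_le_one
      (fun x => (Real.exp_pos _).le) (fun x => by rw [one_mul])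
    have e2 := df_mass m a (sl f y) hfy Nᶜ hN.compl (fun x => Real.exp (cubq x / 32)) hcm 1
      zero_le_one (fun x => (Real.exp_pos _).le) (fun x => by rw [one_mul])
    have e3 : ∑ i, Q i y = ∑ i, ∫ x in N, |df a (sl f y) i x| * Real.exp (cubq x / 32) ∂(gam k) +
        ∑ i, ∫ x in Nᶜ, |df a (sl f y) i x| * Real.exp (cubq x / 32) ∂(gam k) := by
      rw [← Finset.sum_add_distrib, hQ]
      exact Finset.sum_congr rfl fun i _ => (integral_add_compl hN (hdi i)).symm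
    have e4 : Q i y ≤ ∑ i, Q i y :=
      Finset.single_le_sum (f := fun i => Q i y) (fun j _ => hQ0 j y) (Finset.mem_univ i)
    have e5 : Q i y ≤ 2 * (CE a (sl f y) N wW + CE a (sl f y) Nᶜ wW) := by linarith
    have e6 := pow_le_pow_left₀ (hQ0 i y) e5 2
    nlinarith [sq_nonneg (CE a (sl f y) N wW - CE a (sl f y) Nᶜ wW)]
  obtain ⟨D, hD⟩ : ∃ D : ℝ, D = (∫ y, CE a (sl f y) N wW ^ 2 ∂(gam M)) +
      ∫ y, CE a (sl f y) Nᶜ wW ^ 2 ∂(gam M) := ⟨_, rfl⟩
  have hQi : ∀ i, ∫ y, Q i y ^ 2 ∂(gam M) ≤ 8 * D := by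
    intro i
    have e1 : ∫ y, Q i y ^ 2 ∂(gam M) ≤
        ∫ y, 8 * (CE a (sl f y) N wW ^ 2 + CE a (sl f y) Nᶜ wW ^ 2) ∂(gam M) := by
      refine integral_mono_of_nonneg (Filter.Eventually.of_forall fun y => sq_nonneg _)
        ((hIN.add hIF).const_mul 8) (Filter.Eventually.of_forall fun y => hQ2 i y)
    rw [integral_const_mul, integral_add hIN hIF, ← hD] at e1
    exact e1
  have hterm : ∀ i, ρ / |ρ| * GG ρ (df (ext M a) f i) (df (ext M a) f i) ≤
      |ρ| * ∑ l, (∫ z, z l * df (ext M a) f i z ∂(gam (k + M))) ^ 2 + C0 * ρ ^ 2 * (8 * D) := by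
    intro i
    have e1 := hE M ρ hρ (df (ext M a) f i) (hdm i) (hd1 i) (hd0 i) (hdl i)
    have e0 : ∀ y, (∫ x, |cur (df (ext M a) f i) x y| * Real.exp (cubq x / 32) ∂(gam k)) ^ 2 =
        Q i y ^ 2 := by
      intro y
      rw [hQ]
      simp only [hsl]
    rw [integral_congr_ae (Filter.Eventually.of_forall e0)] at e1
    obtain ⟨G, hG⟩ : ∃ G : ℝ, G = GG ρ (df (ext M a) f i) (df (ext M a) f i) := ⟨_, rfl⟩
    obtain ⟨S, hS⟩ : ∃ S : ℝ, S = ∑ l, (∫ z, z l * df (ext M a) f i z ∂(gam (k + M))) ^ 2 :=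
      ⟨_, rfl⟩
    have hS' : ∑ l : Fin k, (∫ z, z (Fin.castAdd M l) * df (ext M a) f i z ∂(gam (k + M))) ^ 2
        = S := by
      rw [hS, Fin.sum_univ_add]
      simp only [hdl]
      simp
    rw [hS', ← hG] at e1
    rw [← hG, ← hS]
    have e2 := abs_le.1 e1
    have e4 : C0 * ρ ^ 2 * ∫ y, Q i y ^ 2 ∂(gam M) ≤ C0 * ρ ^ 2 * (8 * D) :=
      mul_le_mul_of_nonneg_left (hQi i) (by positivity)
    rcases lt_or_gt_of_ne hne with h | h
    · rw [abs_of_neg h]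
      have e3 : ρ / -ρ = -1 := by
        rw [div_neg, div_self hne]
      rw [e3]
      linarith [e2.1]
    · rw [abs_of_pos h, div_self hne, one_mul]
      linarith [e2.2]
  rw [← hD]
  calc ρ / |ρ| * ∑ i, GG ρ (df (ext M a) f i) (df (ext M a) f i)
      = ∑ i, ρ / |ρ| * GG ρ (df (ext M a) f i) (df (ext M a) f i) := by rw [Finset.mul_sum]
    _ ≤ ∑ i, (|ρ| * ∑ l, (∫ z, z l * df (ext M a) f i z ∂(gam (k + M))) ^ 2
          + C0 * ρ ^ 2 * (8 * D)) :=
        Finset.sum_le_sum fun i _ => hterm i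
    _ = |ρ| * ∑ i, ∑ l, (∫ z, z l * df (ext M a) f i z ∂(gam (k + M))) ^ 2
          + ((m + 2 : ℕ) : ℝ) * (8 * C0) * ρ ^ 2 * D := by
        rw [Finset.sum_add_distrib, Finset.mul_sum, Finset.sum_const, Finset.card_univ,
          Fintype.card_fin, nsmul_eq_mul]
        ring

/-- [P5b] THE MAIN THEOREM FOR FUNCTIONS, dimension free.
PROOF.  `ρ = 0`: `GG 0 g g = (∫ g)²`, both sides are `1/q` (`sx_law`).  Let `0 < |ρ| ≤ ρ₀`, `σ = ρ/|ρ|`.  `best_rot'`: replace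
`f` by `f'` (same `Fn`, same masses).  `energy_id` for `ext M a`, multiplied by `σ`:
`σ (Fn ρ f - Fn ρ f*) = -2 σ CE (ext M a) f univ (...) + σ ∑ GG d d`; by `TT_ext` and `CE_slice` (with `N = univ`,
`w i j x = TT ρ (fst a i) x - TT ρ (fst a j) x`, bounded by 2)
`CE (ext M a) f univ (...) = ∫ y, CE a (sl f y) univ w`.  `R = 8 log(1/|ρ|)`, `N = {cubq < R}`, `Nᶜ = {R ≤ cubq}`,
`e^{-R/32} = |ρ|^{1/4}`.  Integrate over `y` the inequality `main_term` for the slices `sl f y` (`sl_FP`), and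
`mass_cost` for the slices; `self_energy_p`, `use_Bp`.  With
`E = κ ∫ CE a (sl f y) N (sd a)`, `J = ∫ CE a (sl f y) Nᶜ (wM a)`, `Dn = ∫ CE(N, wW)²`, `Df = ∫ CE(Nᶜ, wW)²`,
`k = ∑ (∫ z_l d_i)² ≤ (1+ε) k1 + (1+1/ε) k2` (last part of `use_Bp` and `(x+y)² ≤ (1+ε)x² + (1+1/ε)y²`), `final_real` with
`r = |ρ|`, everything divided by `|ρ|`: `σ (Fn ρ f - Fn ρ f*) ≤ 0`.  (All constants: take maxima; integrability in `y`:
`CE_slice`.) -/
theorem all_n (m k : ℕ) (a : Fin (m + 2) → Fin k → ℝ) (ha : IsSx a) : ∃ ρ0 : ℝ, 0 < ρ0 ∧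
    ρ0 ≤ 1 / 2 ∧ ∀ (M : ℕ) (ρ : ℝ), |ρ| ≤ ρ0 → ∀ f : Fin (m + 2) → (Fin (k + M) → ℝ) → ℝ, FP f →
      (∀ i, ∫ z, f i z ∂(gam (k + M)) = 1 / ((m + 2 : ℕ) : ℝ)) →
      (0 ≤ ρ → Fn ρ f ≤ Fn ρ (fst (ext M a))) ∧ (ρ ≤ 0 → Fn ρ (fst (ext M a)) ≤ Fn ρ f) := by
  obtain ⟨ρ1, C1, h11, h12, h13, hSE⟩ := self_energy_p m k a ha
  obtain ⟨ρ2, c2, C2, h21, h22, h23, h24, hMT⟩ := main_term m a ha
  obtain ⟨C3, h31, hMC⟩ := mass_cost m a ha
  obtain ⟨c4, C4, h41, h42, hUB⟩ := use_Bp m k a ha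
  have hkap := (Kf_fst m a ha).1
  have hC30 : 0 ≤ C3 / kap m := div_nonneg h31 hkap.le
  obtain ⟨C, hC⟩ : ∃ C : ℝ, C = C1 + C2 + C3 + C4 + C3 / kap m := ⟨_, rfl⟩
  have hC0 : 0 ≤ C := by rw [hC]; linarith
  have hCC1 : C1 ≤ C := by rw [hC]; linarith
  have hCC2 : C2 ≤ C := by rw [hC]; linarith
  have hCC3 : C3 ≤ C := by rw [hC]; linarith
  have hCC4 : C4 ≤ C := by rw [hC]; linarith
  have hCC5 : C3 / kap m ≤ C := by rw [hC]; linarith
  obtain ⟨r0, hr0, hfin⟩ := final_real c4 c2 C h41 h23 hC0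
  refine ⟨min r0 (min ρ1 ρ2), lt_min hr0 (lt_min h11 h21),
    (min_le_right _ _).trans ((min_le_left _ _).trans h12), ?_⟩
  intro M ρ hρ f0 hf0 hm0
  have hPk : IsProbabilityMeasure (gam k) := gam_prob k
  have hPM : IsProbabilityMeasure (gam M) := gam_prob M
  have hb := ext_basic (k := k) M a
  have hax : IsSx (ext M a) := hb.1 ha
  rcases eq_or_ne ρ 0 with hz | hne
  · have e1 : Fn ρ f0 = Fn ρ (fst (ext M a)) := by
      rw [hz]
      unfold Fn
      refine Finset.sum_congr rfl fun i _ => ?_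
      rw [p5_GG0, p5_GG0, hm0 i, (sx_law m (ext M a) hax).1 i]
    exact ⟨fun _ => e1.le, fun _ => e1.ge⟩
  have hr : 0 < |ρ| := abs_pos.2 hne
  have hρ1 : |ρ| ≤ r0 := hρ.trans (min_le_left _ _)
  have hρ2 : |ρ| ≤ ρ1 := hρ.trans ((min_le_right _ _).trans (min_le_left _ _))
  have hρ3 : |ρ| ≤ ρ2 := hρ.trans ((min_le_right _ _).trans (min_le_right _ _))
  have hρ4 : |ρ| ≤ 1 / 2 := hρ2.trans h12
  have hl : -1 < ρ := by
    have := (abs_le.1 hρ4).1
    linarith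
  have hu : ρ < 1 := by
    have := (abs_le.1 hρ4).2
    linarith
  -- best rotation
  obtain ⟨f, hf, hFn, hmass, hK, hrot⟩ := best_rot' m k a ha M f0 hf0
  have hm : ∀ i, ∫ z, f i z ∂(gam (k + M)) = 1 / ((m + 2 : ℕ) : ℝ) := fun i => by
    rw [hmass i, hm0 i]
  obtain ⟨R, hR⟩ : ∃ R : ℝ, R = 8 * Real.log (1 / |ρ|) := ⟨_, rfl⟩
  have hR0 : 0 ≤ R := by
    rw [hR]
    have h1 : 1 ≤ 1 / |ρ| := by
      rw [le_div_iff₀ hr]
      linarith
    have h2 := Real.log_nonneg h1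
    linarith
  have hexp : Real.exp (-(R / 32)) = |ρ| ^ (1 / 4 : ℝ) := by
    rw [hR, Real.rpow_def_of_pos hr, one_div, Real.log_inv]
    congr 1
    ring
  obtain ⟨N, hN⟩ : ∃ N : Set (Fin k → ℝ), N = {x | cubq x < R} := ⟨_, rfl⟩
  have hNm : MeasurableSet N := by
    rw [hN]
    exact measurableSet_lt Pool.Agent.SSC3N.cubq_measurable measurable_const
  have hNc : Nᶜ = {x | R ≤ cubq x} := by
    rw [hN]
    ext x
    show ¬ (cubq x < R) ↔ R ≤ cubq x
    exact not_lt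
  have hsd : ∀ i j, Measurable (sd a i j) ∧ Integrable (sd a i j) (gam k) := fun i j => p5_sd a i j
  have hwW : ∀ i j : Fin (m + 2), Measurable (wW (n := k) i j) ∧
      Integrable (wW (n := k) i j) (gam k) := fun i j => p5_wW i j
  have hwM : ∀ i j, Measurable (wM a i j) ∧ Integrable (wM a i j) (gam k) := fun i j => p5_wM a i j
  obtain ⟨hsm, hsu, hsf, hsle⟩ := sxc_basic (by omega : 0 < m + 2) a
  have hst : ∀ i x, |fst a i x| ≤ 1 := by
    intro i x
    rw [abs_of_nonneg (hsf.2.1 i x)]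
    exact p5_le_one hsf i x
  obtain ⟨w, hw⟩ : ∃ w : Fin (m + 2) → Fin (m + 2) → (Fin k → ℝ) → ℝ,
      w = fun i j x => TT ρ (fst a i) x - TT ρ (fst a j) x := ⟨_, rfl⟩
  have hTT := fun i => p5_TT ρ (fst a i) (hsf.1 i) (hst i)
  have hwm : ∀ i j, Measurable (w i j) ∧ Integrable (w i j) (gam k) := by
    intro i j
    have e1 : Measurable (w i j) := by
      rw [hw]
      exact (hTT i).1.sub (hTT j).1
    refine ⟨e1, (integrable_const (2 : ℝ)).mono' e1.aestronglyMeasurable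
      (Filter.Eventually.of_forall fun x => ?_)⟩
    rw [Real.norm_eq_abs, hw]
    have e2 := abs_le.1 ((hTT i).2 x)
    have e3 := abs_le.1 ((hTT j).2 x)
    show |TT ρ (fst a i) x - TT ρ (fst a j) x| ≤ 2
    rw [abs_le]
    constructor <;> linarith [e2.1, e2.2, e3.1, e3.2]
  obtain ⟨i1, -⟩ := p5_cmp a (by omega) f hf N hNm (sd a) hsd
  obtain ⟨i2, -⟩ := p5_cmp a (by omega) f hf Nᶜ hNm.compl (wM a) hwM
  obtain ⟨-, i3⟩ := p5_cmp a (by omega) f hf N hNm wW hwW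
  obtain ⟨-, i4⟩ := p5_cmp a (by omega) f hf Nᶜ hNm.compl wW hwW
  obtain ⟨i5, -⟩ := p5_cmp a (by omega) f hf Set.univ MeasurableSet.univ w hwm
  have hfy := fun y => sl_FP f hf y
  have hcb1 := fun y => CE_basic m a (sl f y) (hfy y) N hNm
  have hcb2 := fun y => CE_basic m a (sl f y) (hfy y) Nᶜ hNm.compl
  -- the numbers
  obtain ⟨E, hE⟩ : ∃ E : ℝ, E = kap m * ∫ y, CE a (sl f y) N (sd a) ∂(gam M) := ⟨_, rfl⟩
  obtain ⟨J, hJ⟩ : ∃ J : ℝ, J = ∫ y, CE a (sl f y) Nᶜ (wM a) ∂(gam M) := ⟨_, rfl⟩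
  obtain ⟨Dn, hDn⟩ : ∃ D : ℝ, D = ∫ y, CE a (sl f y) N wW ^ 2 ∂(gam M) := ⟨_, rfl⟩
  obtain ⟨Df, hDf⟩ : ∃ D : ℝ, D = ∫ y, CE a (sl f y) Nᶜ wW ^ 2 ∂(gam M) := ⟨_, rfl⟩
  obtain ⟨X, hX⟩ : ∃ X : ℝ, X = ∫ y, CE a (sl f y) Set.univ w ∂(gam M) := ⟨_, rfl⟩
  have hE0 : 0 ≤ E := by
    rw [hE]
    exact mul_nonneg hkap.le (integral_nonneg fun y => (hcb1 y).2.2.2.2.1)
  have hJ0 : 0 ≤ J := by
    rw [hJ]
    exact integral_nonneg fun y => (hcb2 y).2.2.2.2.2.1
  have hDn0 : 0 ≤ Dn := by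
    rw [hDn]
    exact integral_nonneg fun y => sq_nonneg _
  have hDf0 : 0 ≤ Df := by
    rw [hDf]
    exact integral_nonneg fun y => sq_nonneg _
  -- energy identity
  have hid := energy_id m (ext M a) ρ hl hu f hf
  have hXe : CE (ext M a) f Set.univ (fun i j x => TT ρ (fst (ext M a) i) x -
      TT ρ (fst (ext M a) j) x) = X := by
    have e1 := (CE_slice M a (by omega) f hf Set.univ MeasurableSet.univ w
      (fun i j => (hwm i j).1) (fun i j => (hwm i j).2)).2.2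
    rw [← hX] at e1
    rw [← e1]
    have e2 : ({z | fc z ∈ (Set.univ : Set (Fin k → ℝ))} : Set (Fin (k + M) → ℝ)) = Set.univ := by
      ext z
      exact ⟨fun _ => trivial, fun _ => trivial⟩
    rw [e2, hw]
    congr 1
    funext i j z
    rw [TT_ext, TT_ext]
  rw [hXe] at hid
  -- main term, integrated
  have hmain : |ρ| * (1 - C2 * Real.sqrt |ρ|) * E + c2 * |ρ| * J ≤ ρ / |ρ| * X := by
    have e1 : ∫ y, (|ρ| * (1 - C2 * Real.sqrt |ρ|) * (kap m * CE a (sl f y) N (sd a))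
        + c2 * |ρ| * CE a (sl f y) Nᶜ (wM a)) ∂(gam M) ≤
        ∫ y, ρ / |ρ| * CE a (sl f y) Set.univ w ∂(gam M) := by
      refine integral_mono (((i1.const_mul _).const_mul _).add (i2.const_mul _))
        (i5.const_mul _) fun y => ?_
      have e2 := hMT ρ hρ3 hne (sl f y) (hfy y)
      rw [← hR, ← hN, ← hNc, ← hw] at e2
      exact e2
    rw [integral_const_mul, integral_add ((i1.const_mul _).const_mul _) (i2.const_mul _),
      integral_const_mul, integral_const_mul, integral_const_mul, ← hE, ← hJ, ← hX] at e1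
    exact e1
  -- masses
  have hm1 : Dn ≤ C * E := by
    have e1 : Dn ≤ ∫ y, C3 * CE a (sl f y) N (sd a) ∂(gam M) := by
      rw [hDn]
      refine integral_mono i3 (i1.const_mul _) fun y => ?_
      have e2 := (hMC R hR0 (sl f y) (hfy y)).1
      rw [← hN] at e2
      exact e2
    rw [integral_const_mul] at e1
    have e3 : C3 * ∫ y, CE a (sl f y) N (sd a) ∂(gam M) = C3 / kap m * E := by
      rw [hE]
      field_simp
    rw [e3] at e1
    exact e1.trans (mul_le_mul_of_nonneg_right hCC5 hE0)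
  have hrp : 0 ≤ |ρ| ^ (1 / 4 : ℝ) := Real.rpow_nonneg hr.le _
  have hm2 : Df ≤ C * |ρ| ^ (1 / 4 : ℝ) * J := by
    have e1 : Df ≤ ∫ y, C3 * Real.exp (-(R / 32)) * CE a (sl f y) Nᶜ (wM a) ∂(gam M) := by
      rw [hDf]
      refine integral_mono i4 (i2.const_mul _) fun y => ?_
      have e2 := (hMC R hR0 (sl f y) (hfy y)).2
      rw [← hNc] at e2
      exact e2
    rw [integral_const_mul, ← hJ, hexp] at e1
    refine e1.trans (mul_le_mul_of_nonneg_right ?_ hJ0)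
    exact mul_le_mul_of_nonneg_right hCC3 hrp
  -- self energy, centroid inequality
  have hse := hSE M ρ hρ2 hne f hf hm hK N hNm
  rw [← hDn, ← hDf] at hse
  obtain ⟨u1, u2, u3⟩ := hUB M f hf hm hrot N hNm
  rw [← hE, ← hDf] at u1
  rw [← hDf] at u2
  obtain ⟨K1, hK1⟩ : ∃ K : ℝ, K = ∑ i, ∑ l,
      (∫ z in {z | fc z ∈ N}, z l * df (ext M a) f i z ∂(gam (k + M))) ^ 2 := ⟨_, rfl⟩
  obtain ⟨K2, hK2⟩ : ∃ K : ℝ, K = ∑ i, ∑ l,
      (∫ z in {z | fc z ∈ Nᶜ}, z l * df (ext M a) f i z ∂(gam (k + M))) ^ 2 := ⟨_, rfl⟩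
  obtain ⟨K, hKK⟩ : ∃ K : ℝ, K = ∑ i, ∑ l,
      (∫ z, z l * df (ext M a) f i z ∂(gam (k + M))) ^ 2 := ⟨_, rfl⟩
  have hK10 : 0 ≤ K1 := by
    rw [hK1]
    exact Finset.sum_nonneg fun i _ => Finset.sum_nonneg fun l _ => sq_nonneg _
  have hK20 : 0 ≤ K2 := by
    rw [hK2]
    exact Finset.sum_nonneg fun i _ => Finset.sum_nonneg fun l _ => sq_nonneg _
  have hKe : ∀ ε : ℝ, 0 < ε → K ≤ (1 + ε) * K1 + (1 + 1 / ε) * K2 := by
    intro ε hε
    rw [hKK, hK1, hK2, Finset.mul_sum, Finset.mul_sum, ← Finset.sum_add_distrib]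
    refine Finset.sum_le_sum fun i _ => ?_
    rw [Finset.mul_sum, Finset.mul_sum, ← Finset.sum_add_distrib]
    refine Finset.sum_le_sum fun l _ => ?_
    rw [u3 i l]
    obtain ⟨x, hx⟩ : ∃ x : ℝ, x = ∫ z in {z | fc z ∈ N}, z l * df (ext M a) f i z
      ∂(gam (k + M)) := ⟨_, rfl⟩
    obtain ⟨y, hy⟩ : ∃ y : ℝ, y = ∫ z in {z | fc z ∈ Nᶜ}, z l * df (ext M a) f i z
      ∂(gam (k + M)) := ⟨_, rfl⟩
    rw [← hx, ← hy]
    have e1 : (1 + ε) * x ^ 2 + (1 + 1 / ε) * y ^ 2 - (x + y) ^ 2 = (ε * x - y) ^ 2 / ε := by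
      field_simp
      ring
    have e2 : 0 ≤ (ε * x - y) ^ 2 / ε := by positivity
    linarith
  rw [← hK1] at u1
  rw [← hK2] at u2
  rw [← hKK] at hse
  have hF := hfin |ρ| E J K K1 K2 Dn Df hr hρ1 hE0 hJ0 hK10 hK20 hDn0 hDf0 hKe
    (by
      have e1 := mul_le_mul_of_nonneg_right hCC4 hDf0
      linarith)
    (by
      have e1 := mul_le_mul_of_nonneg_right hCC4 hDf0
      linarith) hm1 hm2
  obtain ⟨G, hG⟩ : ∃ G : ℝ, G = ∑ i, GG ρ (df (ext M a) f i) (df (ext M a) f i) := ⟨_, rfl⟩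
  rw [← hG] at hse hid
  have hsq := Real.sqrt_nonneg |ρ|
  have hkey : ρ / |ρ| * (Fn ρ f - Fn ρ (fst (ext M a))) ≤ 0 := by
    have e0 : ρ / |ρ| * (Fn ρ f - Fn ρ (fst (ext M a))) = -2 * (ρ / |ρ| * X) + ρ / |ρ| * G := by
      rw [hid]
      ring
    rw [e0]
    have e1 : |ρ| * (-2 * (1 - C * Real.sqrt |ρ|) * E - 2 * c2 * J + K + C * |ρ| * (Dn + Df)) ≤ 0 :=
      mul_nonpos_of_nonneg_of_nonpos hr.le hF
    have e2 : |ρ| * (C2 * Real.sqrt |ρ| * E) ≤ |ρ| * (C * Real.sqrt |ρ| * E) :=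
      mul_le_mul_of_nonneg_left (mul_le_mul_of_nonneg_right
        (mul_le_mul_of_nonneg_right hCC2 hsq) hE0) hr.le
    have e3 : C1 * ρ ^ 2 * (Dn + Df) ≤ |ρ| * (C * |ρ| * (Dn + Df)) := by
      have e4 : C1 * (ρ ^ 2 * (Dn + Df)) ≤ C * (ρ ^ 2 * (Dn + Df)) :=
        mul_le_mul_of_nonneg_right hCC1 (mul_nonneg (sq_nonneg _) (by linarith))
      have e5 : |ρ| * (C * |ρ| * (Dn + Df)) = C * (|ρ| ^ 2 * (Dn + Df)) := by ring
      rw [e5, sq_abs]
      linarith
    nlinarith [hmain, hse, e1, e2, e3]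
  rw [← hFn ρ]
  constructor
  · intro h
    have h1 : 0 < ρ := lt_of_le_of_ne h (Ne.symm hne)
    rw [abs_of_pos h1, div_self hne, one_mul] at hkey
    linarith
  · intro h
    have h1 : ρ < 0 := lt_of_le_of_ne h hne
    rw [abs_of_neg h1, div_neg, div_self hne] at hkey
    linarith

end Pool.Agent.SSQ
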