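import Pool.Agent.SSQ.F2
import Pool.Agent.SSQ.P5

set_option autoImplicit false
open MeasureTheory ProbabilityTheory Set Real

namespace Pool.Agent.SSQ
open Pool.Agent.SSC3N (gam GG TT gam_prob)

private theorem f3_stb {q n : ℕ} (ρ : ℝ) (A : Fin q → Set (Fin n → ℝ)) :
    Stb ρ A = ∑ i, ((gam n).prod (gam n)) {p : (Fin n → ℝ) × (Fin n → ℝ) |
        p.1 ∈ A i ∧ ρ • p.1 + Real.sqrt (1 - ρ ^ 2) • p.2 ∈ A i} := rfl

private theorem f3_top {q n : ℕ} (ρ : ℝ) (A : Fin q → Set (Fin n → ℝ)) : Stb ρ A ≠ ⊤ := by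
  rw [f3_stb]
  have hg : IsProbabilityMeasure (gam n) := gam_prob n
  exact (ENNReal.sum_lt_top.2 fun i _ => measure_lt_top _ _).ne

private theorem f3_A {q n : ℕ} (ρ : ℝ) (A : Fin q → Set (Fin n → ℝ)) (hA : Bal A) :
    FP (fun i => (A i).indicator (fun _ => (1 : ℝ))) ∧
    (∀ i, ∫ x, (A i).indicator (fun _ => (1 : ℝ)) x ∂(gam n) = 1 / (q : ℝ)) ∧
    (Stb ρ A).toReal = Fn ρ (fun i => (A i).indicator (fun _ => (1 : ℝ))) := by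
  obtain ⟨h1, h2, h3⟩ := hA
  obtain ⟨e1, e2, e3, e4⟩ := ind_FP A h1 h2
  refine ⟨e1, ?_, ?_⟩
  · intro i
    rw [e2 i]
    have h4 : (gam n) (A i) = (q : ENNReal)⁻¹ := h3 i
    rw [Measure.real, h4, ENNReal.toReal_inv, ENNReal.toReal_natCast, one_div]
  · rw [e4 ρ, f3_stb]

/-- [F3] THE STANDARD SIMPLEX CONJECTURE FOR ALL `q ≥ 3`, ALL DIMENSIONS, SMALL CORRELATION OF BOTH SIGNS.
PROOF.  `q = m + 2`, `k = m + 1`.  If `ℝ^k` contains no simplex (`IsSx` for `Fin (m+2) → Fin (m+1) → ℝ`), then `cell_reduce`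
(existence part, `k ≥ 1`) shows that no `ℝ^n`, `n = k + M`, contains one: nothing to prove (`ρ_q = 1/2`).  Otherwise fix
`a₀` in `ℝ^k` and let `ρ_q` be the `ρ₀` of `all_n` for `a₀`.  Let `n = k + M` (`q ≤ n + 1`), `Bal A`, `Std a B`; `f` = the
indicators of `A` (`ind_FP`; `FP`, balanced: `(gam n).real (A i) = 1/q`).  `all_n` compares `Fn ρ f` and
`Fn ρ (fst (ext M a₀))`, and `Fn_sx` (both `a` and `ext M a₀` are simplices of `ℝ^(k+M)`) gives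
`Fn ρ (fst (ext M a₀)) = Fn ρ (fst a) = (Stb ρ B).toReal` (`Stb_sx`), `Fn ρ f = (Stb ρ A).toReal` (`ind_FP`);
`ENNReal.toReal_le_toReal`, finiteness. -/
theorem main_all (q : ℕ) (hq : 3 ≤ q) : ∃ ρq : ℝ, 0 < ρq ∧ ρq ≤ 1 / 2 ∧ ∀ n : ℕ, q ≤ n + 1 →
    ∀ ρ : ℝ, |ρ| ≤ ρq → ∀ (A B : Fin q → Set (Fin n → ℝ)) (a : Fin q → Fin n → ℝ),
      Bal A → Std a B → (0 ≤ ρ → Stb ρ A ≤ Stb ρ B) ∧ (ρ ≤ 0 → Stb ρ B ≤ Stb ρ A) := by
  obtain ⟨m, rfl⟩ : ∃ m, q = m + 2 := ⟨q - 2, by omega⟩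
  by_cases hex : ∃ a₀ : Fin (m + 2) → Fin (m + 1) → ℝ, IsSx a₀
  · obtain ⟨a₀, ha₀⟩ := hex
    obtain ⟨ρ0, hρ0, hρ1, hall⟩ := all_n m (m + 1) a₀ ha₀
    refine ⟨ρ0, hρ0, hρ1, ?_⟩
    intro n hn ρ hρ A B a hA hB
    obtain ⟨M, rfl⟩ : ∃ M, n = (m + 1) + M := ⟨n - (m + 1), by omega⟩
    have hb := abs_le.1 hρ
    obtain ⟨f1, f2, f3⟩ := f3_A ρ A hA
    obtain ⟨g1, g2⟩ := Stb_sx (by omega) a B hB ρ (by linarith [hb.1]) (by linarith [hb.2])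
    obtain ⟨u1, u2⟩ := hall M ρ hρ _ f1 f2
    have hsx : IsSx (ext M a₀) := (ext_basic M a₀).1 ha₀
    have e := Fn_sx (by omega) (ext M a₀) a hsx hB.1 ρ
    constructor
    · intro h
      rw [← ENNReal.toReal_le_toReal (f3_top ρ A) g2, f3, g1, e]
      exact u1 h
    · intro h
      rw [← ENNReal.toReal_le_toReal g2 (f3_top ρ A), f3, g1, e]
      exact u2 h
  · refine ⟨1 / 2, by norm_num, le_rfl, ?_⟩
    intro n hn ρ hρ A B a hA hB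
    obtain ⟨M, rfl⟩ : ∃ M, n = (m + 1) + M := ⟨n - (m + 1), by omega⟩
    obtain ⟨a', ha', -⟩ := Fn_reduce (m + 1) M (by omega) a hB.1 0 (by norm_num) (by norm_num)
    exact absurd ⟨a', ha'⟩ hex

end Pool.Agent.SSQ
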