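import Pool.Agent.SSQ.Defs

set_option autoImplicit false
open MeasureTheory ProbabilityTheory Set Real

namespace Pool.Agent.SSQ
open Pool.Agent.SSC3N (gam GG TT)

private theorem j1_det_diff {k : ℕ} (A : ℝ → Matrix (Fin k) (Fin k) ℝ)
    (hA : ∀ i j, Differentiable ℝ (fun x => A x i j)) :
    Differentiable ℝ (fun x => (A x).det) := by
  have h : (fun x => (A x).det) = fun x => ∑ σ : Equiv.Perm (Fin k),
      ((Equiv.Perm.sign σ : ℤ) : ℝ) * ∏ i, A x (σ i) i := by
    funext x
    rw [Matrix.det_apply']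
  rw [h]
  intro x
  refine DifferentiableAt.fun_sum (fun σ _ => ?_)
  refine DifferentiableAt.const_mul ?_ _
  refine DifferentiableAt.fun_finsetProd (fun i _ => ?_)
  exact hA (σ i) i x

private theorem j1_adj_diff {k : ℕ} (A : ℝ → Matrix (Fin k) (Fin k) ℝ)
    (hA : ∀ i j, Differentiable ℝ (fun x => A x i j)) (i j : Fin k) :
    Differentiable ℝ (fun x => (A x).adjugate i j) := by
  have h : (fun x => (A x).adjugate i j) =
      fun x => ((A x).updateRow j (Pi.single i 1)).det := by
    funext x
    rw [Matrix.adjugate_apply]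
  rw [h]
  refine j1_det_diff (fun x => (A x).updateRow j (Pi.single i 1)) (fun a b => ?_)
  by_cases haj : a = j
  · subst haj
    have h2 : (fun x => (A x).updateRow a (Pi.single i 1) a b) = fun _ : ℝ =>
        (Pi.single i 1 : Fin k → ℝ) b := by
      funext x
      rw [Matrix.updateRow_self]
    rw [h2]
    exact differentiable_const _
  · have h2 : (fun x => (A x).updateRow j (Pi.single i 1) a b) = fun x => A x a b := by
      funext x
      rw [Matrix.updateRow_ne haj]
    rw [h2]
    exact hA a b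

private theorem j1_inv_diff {k : ℕ} (A : ℝ → Matrix (Fin k) (Fin k) ℝ)
    (hA : ∀ i j, Differentiable ℝ (fun x => A x i j)) (hdet : ∀ x, (A x).det ≠ 0) (i j : Fin k) :
    Differentiable ℝ (fun x => (A x)⁻¹ i j) := by
  have h : (fun x => (A x)⁻¹ i j) = fun x => ((A x).det)⁻¹ * (A x).adjugate i j := by
    funext x
    rw [Matrix.inv_def, Matrix.smul_apply, Ring.inverse_eq_inv', smul_eq_mul]
  rw [h]
  intro x
  exact ((j1_det_diff A hA x).inv (hdet x)).mul (j1_adj_diff A hA i j x)

/-- [J1] Solution of a positive definite linear system depending on a real parameter.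
PROOF.  `M x = Matrix.of (H x)`; `hpos` makes it positive definite, hence injective and invertible
(`Matrix.mulVec_injective_iff_isUnit`, or `det ≠ 0` since `M y = 0 → y = 0`).
`z x = (M x)⁻¹ c x`; the entries of `(M x)⁻¹ = (det)⁻¹ • adjugate` are differentiable (`det` and `adjugate` entries
are polynomials in the entries: `Matrix.det_apply`, `Matrix.adjugate_apply`), or use `HasDerivAt` of the ring
inverse (`hasFDerivAt_ringInverse`) in the Banach algebra of matrices / continuous linear maps.
From `H z = c`: `H z' = c' - H' z`, so `z' = M⁻¹ (c' - H' z)` is continuous when `H', c'` are. -/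
theorem solve_deriv {k : ℕ} (H H' : ℝ → Fin k → Fin k → ℝ) (c c' : ℝ → Fin k → ℝ)
    (hH : ∀ x i j, HasDerivAt (fun s => H s i j) (H' x i j) x)
    (hH' : ∀ i j, Continuous (fun x => H' x i j))
    (hc : ∀ x i, HasDerivAt (fun s => c s i) (c' x i) x)
    (hc' : ∀ i, Continuous (fun x => c' x i))
    (hpos : ∀ x (y : Fin k → ℝ), y ≠ 0 → 0 < ∑ i, ∑ j, y i * y j * H x i j) :
    ∃ z z' : ℝ → Fin k → ℝ, (∀ x i, ∑ j, H x i j * z x j = c x i) ∧
      (∀ x i, HasDerivAt (fun s => z s i) (z' x i) x) ∧ (∀ i, Continuous (fun x => z' x i)) ∧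
      (∀ x i, ∑ j, H x i j * z' x j = c' x i - ∑ j, H' x i j * z x j) := by
  classical
  set M : ℝ → Matrix (Fin k) (Fin k) ℝ := fun x => Matrix.of (H x) with hM
  have hMd : ∀ i j, Differentiable ℝ (fun x => M x i j) := fun i j x =>
    (hH x i j).differentiableAt
  have hdet : ∀ x, (M x).det ≠ 0 := by
    intro x h0
    obtain ⟨y, hy, hy0⟩ := Matrix.exists_mulVec_eq_zero_iff.2 h0
    have h1 := hpos x y hy
    have h2 : ∑ i, ∑ j, y i * y j * H x i j = ∑ i, y i * (M x).mulVec y i := by
      refine Finset.sum_congr rfl (fun i _ => ?_)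
      rw [Matrix.mulVec, dotProduct, Finset.mul_sum]
      refine Finset.sum_congr rfl (fun j _ => ?_)
      simp only [hM, Matrix.of_apply]
      ring
    rw [h2, hy0] at h1
    simp at h1
  have hinv := j1_inv_diff M hMd hdet
  -- applying the inverse
  have hsolve : ∀ x (w b : Fin k → ℝ), (∀ i, ∑ j, H x i j * w j = b i) →
      ∀ i, w i = ∑ j, (M x)⁻¹ i j * b j := by
    intro x w b hwb i
    have h1 : (M x).mulVec w = b := by
      funext i
      rw [← hwb i, Matrix.mulVec, dotProduct]
      rfl
    have h2 : (M x)⁻¹.mulVec b = w := by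
      rw [← h1, Matrix.mulVec_mulVec, Matrix.nonsing_inv_mul _ (isUnit_iff_ne_zero.2 (hdet x)),
        Matrix.one_mulVec]
    rw [← h2]
    rfl
  have hsolve2 : ∀ x (b : Fin k → ℝ) i, ∑ j, H x i j * (∑ l, (M x)⁻¹ j l * b l) = b i := by
    intro x b i
    have h2 : (M x).mulVec ((M x)⁻¹.mulVec b) = b := by
      rw [Matrix.mulVec_mulVec, Matrix.mul_nonsing_inv _ (isUnit_iff_ne_zero.2 (hdet x)),
        Matrix.one_mulVec]
    have h3 := congrFun h2 i
    rw [← h3]
    rfl
  set z : ℝ → Fin k → ℝ := fun x i => ∑ l, (M x)⁻¹ i l * c x l with hz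
  have hzd : ∀ i, Differentiable ℝ (fun x => z x i) := by
    intro i x
    refine DifferentiableAt.fun_sum (fun l _ => ?_)
    exact (hinv i l x).mul (hc x l).differentiableAt
  set z' : ℝ → Fin k → ℝ := fun x i => deriv (fun s => z s i) x with hz'
  have hzder : ∀ x i, HasDerivAt (fun s => z s i) (z' x i) x := fun x i =>
    (hzd i x).hasDerivAt
  have heq : ∀ x i, ∑ j, H x i j * z x j = c x i := fun x i => hsolve2 x (c x) i
  have heq' : ∀ x i, ∑ j, H x i j * z' x j = c' x i - ∑ j, H' x i j * z x j := by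
    intro x i
    have h1 : HasDerivAt (fun s => ∑ j, H s i j * z s j)
        (∑ j, (H' x i j * z x j + H x i j * z' x j)) x := by
      refine HasDerivAt.fun_sum (fun j _ => ?_)
      exact (hH x i j).mul (hzder x j)
    have h2 : (fun s => ∑ j, H s i j * z s j) = fun s => c s i := by
      funext s
      exact heq s i
    rw [h2] at h1
    have h3 := h1.unique (hc x i)
    rw [Finset.sum_add_distrib] at h3
    linarith
  refine ⟨z, z', heq, hzder, fun i => ?_, heq'⟩
  have h1 : (fun x => z' x i) = fun x => ∑ j, (M x)⁻¹ i j * (c' x j - ∑ l, H' x j l * z x l) := by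
    funext x
    exact hsolve x (z' x) (fun j => c' x j - ∑ l, H' x j l * z x l) (heq' x) i
  rw [h1]
  refine continuous_finsetSum _ (fun j _ => ?_)
  refine (hinv i j).continuous.mul ((hc' j).sub ?_)
  refine continuous_finsetSum _ (fun l _ => ?_)
  exact (hH' j l).mul (hzd l).continuous

end Pool.Agent.SSQ
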