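import Pool.Agent.SSQ.J9

set_option autoImplicit false
open MeasureTheory ProbabilityTheory Set Real

namespace Pool.Agent.SSQ
open Pool.Agent.SSC3N (gam GG TT)

/-! ### growth and integrability -/

noncomputable def j10_S {k n : ℕ} (C : Fin n → Fin k → ℝ) (z : Fin n → ℝ) : ℝ := ∑ a, |z a| * ‖C a‖

theorem j10_S_nonneg {k n : ℕ} (C : Fin n → Fin k → ℝ) (z : Fin n → ℝ) : 0 ≤ j10_S C z :=
  Finset.sum_nonneg fun a _ => mul_nonneg (abs_nonneg _) (norm_nonneg _)

theorem j10_S_int {k n : ℕ} (C : Fin n → Fin k → ℝ) : Integrable (j10_S C) (gam n) := by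
  unfold j10_S
  exact integrable_finsetSum _ fun a _ => (integrable_abs_coord a).mul_const _

theorem j10_S_norm {k n : ℕ} (C : Fin n → Fin k → ℝ) (z : Fin n → ℝ) :
    ‖∑ a, z a • C a‖ ≤ j10_S C z := by
  refine (norm_sum_le _ _).trans (Finset.sum_le_sum fun a _ => ?_)
  rw [norm_smul, Real.norm_eq_abs]

theorem j10_bd_int {k n0 n1 : ℕ} (C0 : Fin n0 → Fin k → ℝ) (C1 : Fin n1 → Fin k → ℝ) (A B C : ℝ) :
    Integrable (fun w : (Fin n0 → ℝ) × (Fin n1 → ℝ) => A + B * j10_S C0 w.1 + C * j10_S C1 w.2)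
      ((gam n0).prod (gam n1)) := by
  have := j9_prob n0
  have := j9_prob n1
  exact ((integrable_const A).add (((j10_S_int C0).comp_fst (gam n1)).const_mul B)).add
    (((j10_S_int C1).comp_snd (gam n0)).const_mul C)

theorem j10_pt_cont {k n0 n1 : ℕ} (C0 : Fin n0 → Fin k → ℝ) (C1 : Fin n1 → Fin k → ℝ) (s : ℝ)
    (lam : Fin k → ℝ) :
    Continuous (fun w : (Fin n0 → ℝ) × (Fin n1 → ℝ) => pt C0 C1 s lam w.1 w.2) := by
  unfold pt
  fun_prop

theorem j10_pt_norm {k n0 n1 : ℕ} (C0 : Fin n0 → Fin k → ℝ) (C1 : Fin n1 → Fin k → ℝ) (s : ℝ)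
    (lam : Fin k → ℝ) (z : Fin n0 → ℝ) (z' : Fin n1 → ℝ) :
    ‖pt C0 C1 s lam z z'‖ ≤ ‖lam‖ + |√(1 - s)| * j10_S C0 z + |√s| * j10_S C1 z' := by
  unfold pt
  refine (norm_add_le _ _).trans (add_le_add ((norm_add_le _ _).trans (add_le_add le_rfl ?_)) ?_)
  · rw [norm_smul, Real.norm_eq_abs]
    exact mul_le_mul_of_nonneg_left (j10_S_norm C0 z) (abs_nonneg _)
  · rw [norm_smul, Real.norm_eq_abs]
    exact mul_le_mul_of_nonneg_left (j10_S_norm C1 z') (abs_nonneg _)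

/-- functions of linear growth are integrable -/
theorem j10_int {k n0 n1 : ℕ} (C0 : Fin n0 → Fin k → ℝ) (C1 : Fin n1 → Fin k → ℝ) (s : ℝ)
    (lam : Fin k → ℝ) (f : (Fin k → ℝ) → ℝ) (hf : Continuous f) (A B : ℝ) (hB : 0 ≤ B)
    (hA : ∀ x, |f x| ≤ A + B * ‖x‖) :
    Integrable (fun w : (Fin n0 → ℝ) × (Fin n1 → ℝ) => f (pt C0 C1 s lam w.1 w.2))
      ((gam n0).prod (gam n1)) := by
  refine (j10_bd_int C0 C1 (A + B * ‖lam‖) (B * |√(1 - s)|) (B * |√s|)).mono'
    (hf.comp (j10_pt_cont C0 C1 s lam)).aestronglyMeasurable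
    (Filter.Eventually.of_forall fun w => ?_)
  rw [Real.norm_eq_abs]
  refine (hA _).trans ?_
  have h1 := mul_le_mul_of_nonneg_left (j10_pt_norm C0 C1 s lam w.1 w.2) hB
  nlinarith

theorem j10_Gm {k n0 n1 : ℕ} (C0 : Fin n0 → Fin k → ℝ) (C1 : Fin n1 → Fin k → ℝ) (s : ℝ)
    (lam : Fin k → ℝ) (f : (Fin k → ℝ) → ℝ) (hf : Continuous f) (A B : ℝ) (hB : 0 ≤ B)
    (hA : ∀ x, |f x| ≤ A + B * ‖x‖) :
    Gm C0 C1 f s lam = ∫ w, f (pt C0 C1 s lam w.1 w.2) ∂((gam n0).prod (gam n1)) := by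
  have := j9_prob n0
  have := j9_prob n1
  rw [integral_prod _ (j10_int C0 C1 s lam f hf A B hB hA)]
  rfl

/-- a function with bounded gradient has linear growth -/
theorem j10_growth {k : ℕ} (f : (Fin k → ℝ) → ℝ) (g : (Fin k → ℝ) → Fin k → ℝ) (M : ℝ) (hM : 0 ≤ M)
    (hgM : ∀ x i, |g x i| ≤ M)
    (hfd : ∀ (x c : Fin k → ℝ) (t : ℝ),
      HasDerivAt (fun s : ℝ => f (x + s • c)) (∑ i, c i * g (x + t • c) i) t) (x : Fin k → ℝ) :
    |f x| ≤ |f 0| + (k * M) * ‖x‖ := by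
  obtain ⟨ξ, -, hmv⟩ := exists_hasDerivAt_eq_slope (fun s : ℝ => f (0 + s • x))
    (fun s => ∑ i, x i * g (0 + s • x) i) zero_lt_one
    (fun s _ => (hfd 0 x s).continuousAt.continuousWithinAt) (fun s _ => hfd 0 x s)
  simp only [one_smul, zero_smul, zero_add, sub_zero, div_one] at hmv
  have h1 : |∑ i, x i * g (ξ • x) i| ≤ (k * M) * ‖x‖ := by
    refine (Finset.abs_sum_le_sum_abs _ _).trans ?_
    calc ∑ i, |x i * g (ξ • x) i| ≤ ∑ _i : Fin k, ‖x‖ * M := by
          refine Finset.sum_le_sum fun i _ => ?_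
          rw [abs_mul, ← Real.norm_eq_abs (x i)]
          exact mul_le_mul (norm_le_pi_norm x i) (hgM _ i) (abs_nonneg _) (norm_nonneg _)
      _ = (k * M) * ‖x‖ := by
          rw [Finset.sum_const, Finset.card_univ, Fintype.card_fin, nsmul_eq_mul]; ring
  rw [hmv] at h1
  have h2 := abs_sub_abs_le_abs_sub (f x) (f 0)
  linarith

/-! ### the derivative of the curve -/

theorem j10_curve {k n0 n1 : ℕ} (C0 : Fin n0 → Fin k → ℝ) (C1 : Fin n1 → Fin k → ℝ)
    (s : ℝ) (lam v : Fin k → ℝ) (z : Fin n0 → ℝ) (z' : Fin n1 → ℝ) (r : ℝ) (hr0 : 0 < r)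
    (hr1 : r < 1) :
    HasDerivAt (fun r : ℝ => pt C0 C1 r (lam + (r - s) • v) z z')
      (v + (-(1 / (2 * √(1 - r)))) • (∑ a, z a • C0 a) + (1 / (2 * √r)) • (∑ a, z' a • C1 a)) r := by
  unfold pt
  have h1 : HasDerivAt (fun r : ℝ => √(1 - r)) (-(1 / (2 * √(1 - r)))) r := by
    have h := ((hasDerivAt_id r).const_sub 1).sqrt (by simp only [id]; linarith)
    refine h.congr_deriv ?_
    simp only [id]
    ring
  have h2 : HasDerivAt (fun r : ℝ => √r) (1 / (2 * √r)) r := Real.hasDerivAt_sqrt hr0.ne'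
  have h3 : HasDerivAt (fun r : ℝ => lam + (r - s) • v) v r := by
    have h := (((hasDerivAt_id r).sub_const s).smul_const v).const_add lam
    simpa using h
  exact (h3.add (h1.smul_const _)).add (h2.smul_const _)

theorem j10_chain {k n0 n1 : ℕ} (C0 : Fin n0 → Fin k → ℝ) (C1 : Fin n1 → Fin k → ℝ)
    (f : (Fin k → ℝ) → ℝ) (g : (Fin k → ℝ) → Fin k → ℝ) (hg : ∀ i, Continuous (fun x => g x i))
    (hfd : ∀ (x c : Fin k → ℝ) (t : ℝ),
      HasDerivAt (fun s : ℝ => f (x + s • c)) (∑ i, c i * g (x + t • c) i) t)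
    (s : ℝ) (lam v : Fin k → ℝ) (z : Fin n0 → ℝ) (z' : Fin n1 → ℝ) (r : ℝ) (hr0 : 0 < r)
    (hr1 : r < 1) :
    HasDerivAt (fun r : ℝ => f (pt C0 C1 r (lam + (r - s) • v) z z'))
      (∑ i, g (pt C0 C1 r (lam + (r - s) • v) z z') i *
        (v i + (-(1 / (2 * √(1 - r)))) * (∑ a, z a * C0 a i) + (1 / (2 * √r)) * (∑ a, z' a * C1 a i)))
      r := by
  have h := (fderiv_of_lines f g hg hfd (pt C0 C1 r (lam + (r - s) • v) z z')).comp_hasDerivAt r
    (j10_curve C0 C1 s lam v z z' r hr0 hr1)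
  refine h.congr_deriv ?_
  rw [_root_.sum_apply]
  refine Finset.sum_congr rfl fun i _ => ?_
  rw [_root_.smul_apply, ContinuousLinearMap.proj_apply, smul_eq_mul]
  simp [Finset.sum_apply]

/-! ### integration by parts -/

section
variable {k n0 n1 : ℕ} (C0 : Fin n0 → Fin k → ℝ) (C1 : Fin n1 → Fin k → ℝ)

theorem j10_zint0 (f : (Fin k → ℝ) → ℝ) (hf : Continuous f) (M : ℝ) (hM : ∀ x, |f x| ≤ M) (s : ℝ)
    (lam : Fin k → ℝ) (a : Fin n0) :
    Integrable (fun w : (Fin n0 → ℝ) × (Fin n1 → ℝ) => w.1 a * f (pt C0 C1 s lam w.1 w.2))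
      ((gam n0).prod (gam n1)) := by
  have := j9_prob n0
  have := j9_prob n1
  refine (((integrable_abs_coord a).comp_fst (gam n1)).const_mul M).mono'
    (((continuous_apply a).comp continuous_fst).mul
      (hf.comp (j10_pt_cont C0 C1 s lam))).aestronglyMeasurable
    (Filter.Eventually.of_forall fun w => ?_)
  rw [Real.norm_eq_abs, abs_mul, mul_comm]
  exact mul_le_mul_of_nonneg_right (hM _) (abs_nonneg _)

theorem j10_zint1 (f : (Fin k → ℝ) → ℝ) (hf : Continuous f) (M : ℝ) (hM : ∀ x, |f x| ≤ M) (s : ℝ)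
    (lam : Fin k → ℝ) (a : Fin n1) :
    Integrable (fun w : (Fin n0 → ℝ) × (Fin n1 → ℝ) => w.2 a * f (pt C0 C1 s lam w.1 w.2))
      ((gam n0).prod (gam n1)) := by
  have := j9_prob n0
  have := j9_prob n1
  refine (((integrable_abs_coord a).comp_snd (gam n0)).const_mul M).mono'
    (((continuous_apply a).comp continuous_snd).mul
      (hf.comp (j10_pt_cont C0 C1 s lam))).aestronglyMeasurable
    (Filter.Eventually.of_forall fun w => ?_)
  rw [Real.norm_eq_abs, abs_mul, mul_comm]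
  exact mul_le_mul_of_nonneg_right (hM _) (abs_nonneg _)

theorem j10_bint (f : (Fin k → ℝ) → ℝ) (hf : Continuous f) (M : ℝ) (hM : ∀ x, |f x| ≤ M) (s : ℝ)
    (lam : Fin k → ℝ) :
    Integrable (fun w : (Fin n0 → ℝ) × (Fin n1 → ℝ) => f (pt C0 C1 s lam w.1 w.2))
      ((gam n0).prod (gam n1)) := by
  refine j10_int C0 C1 s lam f hf M 0 le_rfl (fun x => ?_)
  simpa using hM x

theorem j10_pt_add0 (s : ℝ) (lam : Fin k → ℝ) (z : Fin n0 → ℝ) (z' : Fin n1 → ℝ) (a : Fin n0)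
    (r : ℝ) : pt C0 C1 s lam (z + r • Pi.single a (1:ℝ)) z' =
      pt C0 C1 s lam z z' + r • (√(1 - s) • C0 a) := by
  unfold pt
  have : ∑ b, (z + r • Pi.single a (1:ℝ) : Fin n0 → ℝ) b • C0 b = (∑ b, z b • C0 b) + r • C0 a := by
    simp only [Pi.add_apply, Pi.smul_apply, add_smul, Finset.sum_add_distrib]
    congr 1
    rw [Finset.sum_eq_single a]
    · simp
    · intro b _ hb
      simp [Pi.single_eq_of_ne hb]
    · intro h; exact absurd (Finset.mem_univ a) h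
  rw [this, smul_add, smul_comm r]
  abel

theorem j10_pt_add1 (s : ℝ) (lam : Fin k → ℝ) (z : Fin n0 → ℝ) (z' : Fin n1 → ℝ) (a : Fin n1)
    (r : ℝ) : pt C0 C1 s lam z (z' + r • Pi.single a (1:ℝ)) =
      pt C0 C1 s lam z z' + r • (√s • C1 a) := by
  unfold pt
  have : ∑ b, (z' + r • Pi.single a (1:ℝ) : Fin n1 → ℝ) b • C1 b = (∑ b, z' b • C1 b) + r • C1 a := by
    simp only [Pi.add_apply, Pi.smul_apply, add_smul, Finset.sum_add_distrib]
    congr 1
    rw [Finset.sum_eq_single a]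
    · simp
    · intro b _ hb
      simp [Pi.single_eq_of_ne hb]
    · intro h; exact absurd (Finset.mem_univ a) h
  rw [this, smul_add, smul_comm r]
  abel

/-- bounded derivative in the direction `e` -/
theorem j10_dbd (h : (Fin k → ℝ) → Fin k → ℝ) (M : ℝ) (hM : ∀ x j, |h x j| ≤ M) (e x : Fin k → ℝ) :
    |∑ j, e j * h x j| ≤ (∑ j, |e j|) * M := by
  refine (Finset.abs_sum_le_sum_abs _ _).trans ?_
  rw [Finset.sum_mul]
  refine Finset.sum_le_sum fun j _ => ?_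
  rw [abs_mul]
  exact mul_le_mul_of_nonneg_left (hM x j) (abs_nonneg _)

theorem j10_ibp0 (G : (Fin k → ℝ) → ℝ) (h : (Fin k → ℝ) → Fin k → ℝ) (M : ℝ) (hG : Continuous G)
    (hh : ∀ j, Continuous (fun x => h x j)) (hGM : ∀ x, |G x| ≤ M) (hhM : ∀ x j, |h x j| ≤ M)
    (hgd : ∀ (x c : Fin k → ℝ) (t : ℝ),
      HasDerivAt (fun s : ℝ => G (x + s • c)) (∑ j, c j * h (x + t • c) j) t)
    (s : ℝ) (lam : Fin k → ℝ) (a : Fin n0) :
    ∫ w : (Fin n0 → ℝ) × (Fin n1 → ℝ), w.1 a * G (pt C0 C1 s lam w.1 w.2)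
      ∂((gam n0).prod (gam n1)) =
    ∫ w : (Fin n0 → ℝ) × (Fin n1 → ℝ), (∑ j, (√(1 - s) * C0 a j) * h (pt C0 C1 s lam w.1 w.2) j)
      ∂((gam n0).prod (gam n1)) := by
  have := j9_prob n0
  have := j9_prob n1
  have hc : Continuous (fun x => ∑ j, (√(1 - s) * C0 a j) * h x j) :=
    continuous_finsetSum _ fun j _ => continuous_const.mul (hh j)
  have hb := j10_dbd h M hhM (fun j => √(1 - s) * C0 a j)
  rw [integral_prod_symm _ (j10_zint0 C0 C1 G hG M hGM s lam a),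
    integral_prod_symm _ (j10_bint C0 C1 _ hc _ hb s lam)]
  refine integral_congr_ae (Filter.Eventually.of_forall fun z' => ?_)
  simp only
  refine ibp a (fun z => G (pt C0 C1 s lam z z'))
    (fun z => ∑ j, (√(1 - s) * C0 a j) * h (pt C0 C1 s lam z z') j)
    (max M ((∑ j, |√(1 - s) * C0 a j|) * M)) ?_ ?_ ?_ ?_ ?_
  · exact hG.comp ((j10_pt_cont C0 C1 s lam).comp (Continuous.prodMk continuous_id continuous_const))
  · exact hc.comp ((j10_pt_cont C0 C1 s lam).comp (Continuous.prodMk continuous_id continuous_const))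
  · intro z; exact (hGM _).trans (le_max_left _ _)
  · intro z; exact (hb _).trans (le_max_right _ _)
  · intro z t
    have h1 := hgd (pt C0 C1 s lam z z') (√(1 - s) • C0 a) t
    simp only [j10_pt_add0]
    exact h1

theorem j10_ibp1 (G : (Fin k → ℝ) → ℝ) (h : (Fin k → ℝ) → Fin k → ℝ) (M : ℝ) (hG : Continuous G)
    (hh : ∀ j, Continuous (fun x => h x j)) (hGM : ∀ x, |G x| ≤ M) (hhM : ∀ x j, |h x j| ≤ M)
    (hgd : ∀ (x c : Fin k → ℝ) (t : ℝ),
      HasDerivAt (fun s : ℝ => G (x + s • c)) (∑ j, c j * h (x + t • c) j) t)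
    (s : ℝ) (lam : Fin k → ℝ) (a : Fin n1) :
    ∫ w : (Fin n0 → ℝ) × (Fin n1 → ℝ), w.2 a * G (pt C0 C1 s lam w.1 w.2)
      ∂((gam n0).prod (gam n1)) =
    ∫ w : (Fin n0 → ℝ) × (Fin n1 → ℝ), (∑ j, (√s * C1 a j) * h (pt C0 C1 s lam w.1 w.2) j)
      ∂((gam n0).prod (gam n1)) := by
  have := j9_prob n0
  have := j9_prob n1
  have hc : Continuous (fun x => ∑ j, (√s * C1 a j) * h x j) :=
    continuous_finsetSum _ fun j _ => continuous_const.mul (hh j)
  have hb := j10_dbd h M hhM (fun j => √s * C1 a j)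
  rw [integral_prod _ (j10_zint1 C0 C1 G hG M hGM s lam a),
    integral_prod _ (j10_bint C0 C1 _ hc _ hb s lam)]
  refine integral_congr_ae (Filter.Eventually.of_forall fun z => ?_)
  simp only
  refine ibp a (fun z' => G (pt C0 C1 s lam z z'))
    (fun z' => ∑ j, (√s * C1 a j) * h (pt C0 C1 s lam z z') j)
    (max M ((∑ j, |√s * C1 a j|) * M)) ?_ ?_ ?_ ?_ ?_
  · exact hG.comp ((j10_pt_cont C0 C1 s lam).comp (Continuous.prodMk continuous_const continuous_id))
  · exact hc.comp ((j10_pt_cont C0 C1 s lam).comp (Continuous.prodMk continuous_const continuous_id))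
  · intro z; exact (hGM _).trans (le_max_left _ _)
  · intro z; exact (hb _).trans (le_max_right _ _)
  · intro z' t
    have h1 := hgd (pt C0 C1 s lam z z') (√s • C1 a) t
    simp only [j10_pt_add1]
    exact h1

end

theorem j10_alg {k n : ℕ} (C : Fin n → Fin k → ℝ) (J : Fin k → ℝ) (i : Fin k) (α ρ : ℝ)
    (h : α * ρ = 1 / 2) :
    α * ∑ a, C a i * ∑ j, (ρ * C a j) * J j = 1 / 2 * ∑ j, (∑ a, C a i * C a j) * J j := by
  simp only [Finset.mul_sum, Finset.sum_mul]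
  rw [Finset.sum_comm]
  refine Finset.sum_congr rfl fun j _ => Finset.sum_congr rfl fun a _ => ?_
  rw [← h]; ring

theorem j10_lin3 {Ω : Type*} [MeasurableSpace Ω] (μ : Measure Ω) (X Y Z : Ω → ℝ)
    (hX : Integrable X μ) (hY : Integrable Y μ) (hZ : Integrable Z μ) (a b c : ℝ) :
    ∫ w, (a * X w + b * Y w + c * Z w) ∂μ = a * ∫ w, X w ∂μ + b * ∫ w, Y w ∂μ + c * ∫ w, Z w ∂μ := by
  have h1 : Integrable (fun w => a * X w + b * Y w) μ := (hX.const_mul a).add (hY.const_mul b)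
  rw [integral_add h1 (hZ.const_mul c), integral_add (hX.const_mul a) (hY.const_mul b),
    integral_const_mul, integral_const_mul, integral_const_mul]

/-- [J10] HEAT EQUATION along the interpolation `Σ_r = (1-r) Σ₀ + r Σ₁`, `λ_r = λ + (r-s) v`. -/
theorem heat {k n0 n1 : ℕ} (C0 : Fin n0 → Fin k → ℝ) (C1 : Fin n1 → Fin k → ℝ)
    (f : (Fin k → ℝ) → ℝ) (g : (Fin k → ℝ) → Fin k → ℝ) (h : (Fin k → ℝ) → Fin k → Fin k → ℝ)
    (M : ℝ) (hf : Continuous f) (hg : ∀ i, Continuous (fun x => g x i))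
    (hh : ∀ i j, Continuous (fun x => h x i j)) (hgM : ∀ x i, |g x i| ≤ M)
    (hhM : ∀ x i j, |h x i j| ≤ M)
    (hfd : ∀ (x c : Fin k → ℝ) (t : ℝ),
      HasDerivAt (fun s : ℝ => f (x + s • c)) (∑ i, c i * g (x + t • c) i) t)
    (hgd : ∀ (x c : Fin k → ℝ) i (t : ℝ),
      HasDerivAt (fun s : ℝ => g (x + s • c) i) (∑ j, c j * h (x + t • c) i j) t)
    (s : ℝ) (hs0 : 0 < s) (hs1 : s < 1) (lam v : Fin k → ℝ) :
    HasDerivAt (fun r : ℝ => Gm C0 C1 f r (lam + (r - s) • v))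
      (Gm C0 C1 (fun x => ∑ i, v i * g x i + 1 / 2 * ∑ i, ∑ j, Dm C0 C1 i j * h x i j) s lam) s := by
  have := j9_prob n0
  have := j9_prob n1
  set μ := (gam n0).prod (gam n1) with hμ
  have hM0 : 0 ≤ |M| := abs_nonneg M
  have hg' : ∀ x i, |g x i| ≤ |M| := fun x i => (hgM x i).trans (le_abs_self M)
  have hh' : ∀ x i j, |h x i j| ≤ |M| := fun x i j => (hhM x i j).trans (le_abs_self M)
  have hgrow := j10_growth f g |M| hM0 hg' hfd
  have hkM : 0 ≤ (k : ℝ) * |M| := mul_nonneg (Nat.cast_nonneg k) hM0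
  -- the derivative under the integral
  have hder := hasDerivAt_integral_of_dominated_loc_of_deriv_le (μ := μ)
    (F := fun r w => f (pt C0 C1 r (lam + (r - s) • v) w.1 w.2))
    (F' := fun r w => ∑ i, g (pt C0 C1 r (lam + (r - s) • v) w.1 w.2) i *
        (v i + (-(1 / (2 * √(1 - r)))) * (∑ a, w.1 a * C0 a i) + (1 / (2 * √r)) * (∑ a, w.2 a * C1 a i)))
    (x₀ := s) (s := Set.Ioo (s / 2) ((1 + s) / 2))
    (bound := fun w => k * |M| * ‖v‖ + k * |M| * (1 / (2 * √((1 - s) / 2))) * j10_S C0 w.1 +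
      k * |M| * (1 / (2 * √(s / 2))) * j10_S C1 w.2)
    (Ioo_mem_nhds (by linarith) (by linarith)) ?_ ?_ ?_ ?_ ?_ ?_
  · have hval := hder.2
    have e1 : (fun r : ℝ => Gm C0 C1 f r (lam + (r - s) • v)) =
        fun r => ∫ w, f (pt C0 C1 r (lam + (r - s) • v) w.1 w.2) ∂μ := by
      funext r
      exact j10_Gm C0 C1 r _ f hf _ _ hkM hgrow
    rw [e1]
    refine hval.congr_deriv ?_
    have hs1' : 0 < √(1 - s) := Real.sqrt_pos.2 (by linarith)
    have hs0' : 0 < √s := Real.sqrt_pos.2 hs0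
    have ig : ∀ i, Integrable (fun w : (Fin n0 → ℝ) × (Fin n1 → ℝ) =>
        g (pt C0 C1 s lam w.1 w.2) i) μ := fun i =>
      j10_bint C0 C1 (fun x => g x i) (hg i) |M| (fun x => hg' x i) s lam
    have ih : ∀ i j, Integrable (fun w : (Fin n0 → ℝ) × (Fin n1 → ℝ) =>
        h (pt C0 C1 s lam w.1 w.2) i j) μ := fun i j =>
      j10_bint C0 C1 (fun x => h x i j) (hh i j) |M| (fun x => hh' x i j) s lam
    have iz0 : ∀ i a, Integrable (fun w : (Fin n0 → ℝ) × (Fin n1 → ℝ) =>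
        C0 a i * (w.1 a * g (pt C0 C1 s lam w.1 w.2) i)) μ := fun i a =>
      (j10_zint0 C0 C1 (fun x => g x i) (hg i) |M| (fun x => hg' x i) s lam a).const_mul _
    have iz1 : ∀ i a, Integrable (fun w : (Fin n0 → ℝ) × (Fin n1 → ℝ) =>
        C1 a i * (w.2 a * g (pt C0 C1 s lam w.1 w.2) i)) μ := fun i a =>
      (j10_zint1 C0 C1 (fun x => g x i) (hg i) |M| (fun x => hg' x i) s lam a).const_mul _
    have eY : ∀ i, ∫ w : (Fin n0 → ℝ) × (Fin n1 → ℝ),
        (∑ a, C0 a i * (w.1 a * g (pt C0 C1 s lam w.1 w.2) i)) ∂μ =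
        ∑ a, C0 a i * ∑ j, (√(1 - s) * C0 a j) *
          ∫ w : (Fin n0 → ℝ) × (Fin n1 → ℝ), h (pt C0 C1 s lam w.1 w.2) i j ∂μ := by
      intro i
      rw [integral_finsetSum _ fun a _ => iz0 i a]
      refine Finset.sum_congr rfl fun a _ => ?_
      rw [integral_const_mul, j10_ibp0 C0 C1 (fun x => g x i) (fun x j => h x i j) |M| (hg i)
        (fun j => hh i j) (fun x => hg' x i) (fun x j => hh' x i j) (fun x c t => hgd x c i t) s lam a,
        integral_finsetSum _ fun j _ => (ih i j).const_mul _]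
      simp only [integral_const_mul]
    have eZ : ∀ i, ∫ w : (Fin n0 → ℝ) × (Fin n1 → ℝ),
        (∑ a, C1 a i * (w.2 a * g (pt C0 C1 s lam w.1 w.2) i)) ∂μ =
        ∑ a, C1 a i * ∑ j, (√s * C1 a j) *
          ∫ w : (Fin n0 → ℝ) × (Fin n1 → ℝ), h (pt C0 C1 s lam w.1 w.2) i j ∂μ := by
      intro i
      rw [integral_finsetSum _ fun a _ => iz1 i a]
      refine Finset.sum_congr rfl fun a _ => ?_
      rw [integral_const_mul, j10_ibp1 C0 C1 (fun x => g x i) (fun x j => h x i j) |M| (hg i)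
        (fun j => hh i j) (fun x => hg' x i) (fun x j => hh' x i j) (fun x c t => hgd x c i t) s lam a,
        integral_finsetSum _ fun j _ => (ih i j).const_mul _]
      simp only [integral_const_mul]
    have iY : ∀ i, Integrable (fun w : (Fin n0 → ℝ) × (Fin n1 → ℝ) =>
        ∑ a, C0 a i * (w.1 a * g (pt C0 C1 s lam w.1 w.2) i)) μ := fun i =>
      integrable_finsetSum _ fun a _ => iz0 i a
    have iZ : ∀ i, Integrable (fun w : (Fin n0 → ℝ) × (Fin n1 → ℝ) =>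
        ∑ a, C1 a i * (w.2 a * g (pt C0 C1 s lam w.1 w.2) i)) μ := fun i =>
      integrable_finsetSum _ fun a _ => iz1 i a
    have eL : ∀ w : (Fin n0 → ℝ) × (Fin n1 → ℝ),
        (∑ i, g (pt C0 C1 s (lam + (s - s) • v) w.1 w.2) i *
        (v i + (-(1 / (2 * √(1 - s)))) * (∑ a, w.1 a * C0 a i) +
          (1 / (2 * √s)) * (∑ a, w.2 a * C1 a i))) =
        ∑ i, (v i * g (pt C0 C1 s lam w.1 w.2) i +
          (-(1 / (2 * √(1 - s)))) * (∑ a, C0 a i * (w.1 a * g (pt C0 C1 s lam w.1 w.2) i)) +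
          (1 / (2 * √s)) * (∑ a, C1 a i * (w.2 a * g (pt C0 C1 s lam w.1 w.2) i))) := by
      intro w
      rw [sub_self, zero_smul, add_zero]
      refine Finset.sum_congr rfl fun i _ => ?_
      have f0 : ∑ a, C0 a i * (w.1 a * g (pt C0 C1 s lam w.1 w.2) i) =
          (∑ a, w.1 a * C0 a i) * g (pt C0 C1 s lam w.1 w.2) i := by
        rw [Finset.sum_mul]
        exact Finset.sum_congr rfl fun a _ => by ring
      have f1 : ∑ a, C1 a i * (w.2 a * g (pt C0 C1 s lam w.1 w.2) i) =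
          (∑ a, w.2 a * C1 a i) * g (pt C0 C1 s lam w.1 w.2) i := by
        rw [Finset.sum_mul]
        exact Finset.sum_congr rfl fun a _ => by ring
      rw [f0, f1]
      ring
    have iT : ∀ i, Integrable (fun w : (Fin n0 → ℝ) × (Fin n1 → ℝ) =>
        v i * g (pt C0 C1 s lam w.1 w.2) i +
          (-(1 / (2 * √(1 - s)))) * (∑ a, C0 a i * (w.1 a * g (pt C0 C1 s lam w.1 w.2) i)) +
          (1 / (2 * √s)) * (∑ a, C1 a i * (w.2 a * g (pt C0 C1 s lam w.1 w.2) i))) μ := fun i =>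
      (((ig i).const_mul _).add ((iY i).const_mul _)).add ((iZ i).const_mul _)
    have eLI : ∫ w : (Fin n0 → ℝ) × (Fin n1 → ℝ),
        (∑ i, g (pt C0 C1 s (lam + (s - s) • v) w.1 w.2) i *
        (v i + (-(1 / (2 * √(1 - s)))) * (∑ a, w.1 a * C0 a i) +
          (1 / (2 * √s)) * (∑ a, w.2 a * C1 a i))) ∂μ =
        ∑ i, (v i * ∫ w : (Fin n0 → ℝ) × (Fin n1 → ℝ), g (pt C0 C1 s lam w.1 w.2) i ∂μ +
          (-(1 / (2 * √(1 - s)))) * (∑ a, C0 a i * ∑ j, (√(1 - s) * C0 a j) *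
          ∫ w : (Fin n0 → ℝ) × (Fin n1 → ℝ), h (pt C0 C1 s lam w.1 w.2) i j ∂μ) +
          (1 / (2 * √s)) * (∑ a, C1 a i * ∑ j, (√s * C1 a j) *
          ∫ w : (Fin n0 → ℝ) × (Fin n1 → ℝ), h (pt C0 C1 s lam w.1 w.2) i j ∂μ)) := by
      rw [integral_congr_ae (Filter.Eventually.of_forall eL), integral_finsetSum _ fun i _ => iT i]
      refine Finset.sum_congr rfl fun i _ => ?_
      rw [j10_lin3 μ _ _ _ (ig i) (iY i) (iZ i), eY, eZ]
    have hcφ : Continuous (fun x => (∑ i, v i * g x i) + 1 / 2 * ∑ i, ∑ j, Dm C0 C1 i j * h x i j) :=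
      (continuous_finsetSum _ fun i _ => continuous_const.mul (hg i)).add
        (continuous_const.mul (continuous_finsetSum _ fun i _ => continuous_finsetSum _ fun j _ =>
          continuous_const.mul (hh i j)))
    have hbφ : ∀ x, |(∑ i, v i * g x i) + 1 / 2 * ∑ i, ∑ j, Dm C0 C1 i j * h x i j| ≤
        ((∑ i, |v i| * |M|) + 1 / 2 * ∑ i, ∑ j, |Dm C0 C1 i j| * |M|) + 0 * ‖x‖ := by
      intro x
      rw [zero_mul, add_zero]
      refine (abs_add_le _ _).trans (add_le_add ?_ ?_)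
      · refine (Finset.abs_sum_le_sum_abs _ _).trans (Finset.sum_le_sum fun i _ => ?_)
        rw [abs_mul]
        exact mul_le_mul_of_nonneg_left (hg' x i) (abs_nonneg _)
      · rw [abs_mul, abs_of_pos (by norm_num : (0:ℝ) < 1 / 2)]
        refine mul_le_mul_of_nonneg_left ?_ (by norm_num)
        refine (Finset.abs_sum_le_sum_abs _ _).trans (Finset.sum_le_sum fun i _ => ?_)
        refine (Finset.abs_sum_le_sum_abs _ _).trans (Finset.sum_le_sum fun j _ => ?_)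
        rw [abs_mul]
        exact mul_le_mul_of_nonneg_left (hh' x i j) (abs_nonneg _)
    have iA : Integrable (fun w : (Fin n0 → ℝ) × (Fin n1 → ℝ) =>
        ∑ i, v i * g (pt C0 C1 s lam w.1 w.2) i) μ :=
      integrable_finsetSum _ fun i _ => (ig i).const_mul _
    have iB : Integrable (fun w : (Fin n0 → ℝ) × (Fin n1 → ℝ) =>
        ∑ i, ∑ j, Dm C0 C1 i j * h (pt C0 C1 s lam w.1 w.2) i j) μ :=
      integrable_finsetSum _ fun i _ => integrable_finsetSum _ fun j _ => (ih i j).const_mul _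
    have eR : Gm C0 C1 (fun x => (∑ i, v i * g x i) + 1 / 2 * ∑ i, ∑ j, Dm C0 C1 i j * h x i j) s lam =
        (∑ i, v i * ∫ w : (Fin n0 → ℝ) × (Fin n1 → ℝ), g (pt C0 C1 s lam w.1 w.2) i ∂μ) +
        1 / 2 * ∑ i, ∑ j, Dm C0 C1 i j *
          ∫ w : (Fin n0 → ℝ) × (Fin n1 → ℝ), h (pt C0 C1 s lam w.1 w.2) i j ∂μ := by
      rw [j10_Gm C0 C1 s lam _ hcφ _ 0 le_rfl hbφ, integral_add iA (iB.const_mul _),
        integral_const_mul, integral_finsetSum _ fun i _ => (ig i).const_mul _,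
        integral_finsetSum _ fun i _ => integrable_finsetSum _ fun j _ => (ih i j).const_mul _]
      simp only [integral_const_mul]
      congr 2
      refine Finset.sum_congr rfl fun i _ => ?_
      rw [integral_finsetSum _ fun j _ => (ih i j).const_mul _]
      simp only [integral_const_mul]
    rw [eLI]
    refine Eq.trans ?_ eR.symm
    rw [Finset.mul_sum, ← Finset.sum_add_distrib]
    refine Finset.sum_congr rfl fun i _ => ?_
    have a0 := j10_alg C0 (fun j => ∫ w : (Fin n0 → ℝ) × (Fin n1 → ℝ),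
      h (pt C0 C1 s lam w.1 w.2) i j ∂μ) i (1 / (2 * √(1 - s))) (√(1 - s)) (by field_simp)
    have a1 := j10_alg C1 (fun j => ∫ w : (Fin n0 → ℝ) × (Fin n1 → ℝ),
      h (pt C0 C1 s lam w.1 w.2) i j ∂μ) i (1 / (2 * √s)) (√s) (by field_simp)
    rw [neg_mul, a0, a1]
    have eD : ∑ j, Dm C0 C1 i j * ∫ w : (Fin n0 → ℝ) × (Fin n1 → ℝ),
        h (pt C0 C1 s lam w.1 w.2) i j ∂μ =
        (∑ j, (∑ a, C1 a i * C1 a j) * ∫ w : (Fin n0 → ℝ) × (Fin n1 → ℝ),
          h (pt C0 C1 s lam w.1 w.2) i j ∂μ) -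
        ∑ j, (∑ a, C0 a i * C0 a j) * ∫ w : (Fin n0 → ℝ) × (Fin n1 → ℝ),
          h (pt C0 C1 s lam w.1 w.2) i j ∂μ := by
      rw [← Finset.sum_sub_distrib]
      refine Finset.sum_congr rfl fun j _ => ?_
      unfold Dm
      ring
    rw [eD]
    ring
  · exact Filter.Eventually.of_forall fun r =>
      (hf.comp (j10_pt_cont C0 C1 r _)).aestronglyMeasurable
  · exact j10_int C0 C1 s _ f hf _ _ hkM hgrow
  · refine Continuous.aestronglyMeasurable ?_
    refine continuous_finsetSum _ fun i _ => ?_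
    refine ((hg i).comp (j10_pt_cont C0 C1 s _)).mul ?_
    fun_prop
  · refine Filter.Eventually.of_forall fun w r hr => ?_
    have hr1 : s / 2 < r := hr.1
    have hr2 : r < (1 + s) / 2 := hr.2
    rw [Real.norm_eq_abs]
    refine (Finset.abs_sum_le_sum_abs _ _).trans ?_
    have c0 : |-(1 / (2 * √(1 - r)))| ≤ 1 / (2 * √((1 - s) / 2)) := by
      rw [abs_neg, abs_of_nonneg (by positivity)]
      have hp : 0 < √((1 - s) / 2) := Real.sqrt_pos.2 (by linarith)
      have := Real.sqrt_le_sqrt (show (1 - s) / 2 ≤ 1 - r by linarith)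
      exact one_div_le_one_div_of_le (by positivity) (by linarith)
    have c1 : |1 / (2 * √r)| ≤ 1 / (2 * √(s / 2)) := by
      rw [abs_of_nonneg (by positivity)]
      have hp : 0 < √(s / 2) := Real.sqrt_pos.2 (by linarith)
      have := Real.sqrt_le_sqrt (show s / 2 ≤ r by linarith)
      exact one_div_le_one_div_of_le (by positivity) (by linarith)
    have t0 : ∀ i, |∑ a, w.1 a * C0 a i| ≤ j10_S C0 w.1 := by
      intro i
      refine (Finset.abs_sum_le_sum_abs _ _).trans (Finset.sum_le_sum fun a _ => ?_)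
      rw [abs_mul]
      exact mul_le_mul_of_nonneg_left (norm_le_pi_norm (C0 a) i) (abs_nonneg _)
    have t1 : ∀ i, |∑ a, w.2 a * C1 a i| ≤ j10_S C1 w.2 := by
      intro i
      refine (Finset.abs_sum_le_sum_abs _ _).trans (Finset.sum_le_sum fun a _ => ?_)
      rw [abs_mul]
      exact mul_le_mul_of_nonneg_left (norm_le_pi_norm (C1 a) i) (abs_nonneg _)
    have hterm : ∀ i, |g (pt C0 C1 r (lam + (r - s) • v) w.1 w.2) i *
        (v i + (-(1 / (2 * √(1 - r)))) * (∑ a, w.1 a * C0 a i) +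
          (1 / (2 * √r)) * (∑ a, w.2 a * C1 a i))| ≤
        |M| * (‖v‖ + (1 / (2 * √((1 - s) / 2))) * j10_S C0 w.1 +
          (1 / (2 * √(s / 2))) * j10_S C1 w.2) := by
      intro i
      rw [abs_mul]
      refine mul_le_mul (hg' _ i) ?_ (abs_nonneg _) hM0
      refine (abs_add_le _ _).trans (add_le_add ((abs_add_le _ _).trans (add_le_add ?_ ?_)) ?_)
      · exact norm_le_pi_norm v i
      · rw [abs_mul]
        exact mul_le_mul c0 (t0 i) (abs_nonneg _) (by positivity)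
      · rw [abs_mul]
        exact mul_le_mul c1 (t1 i) (abs_nonneg _) (by positivity)
    refine (Finset.sum_le_sum fun i _ => hterm i).trans (le_of_eq ?_)
    rw [Finset.sum_const, Finset.card_univ, Fintype.card_fin, nsmul_eq_mul]
    ring
  · exact j10_bd_int C0 C1 _ _ _
  · refine Filter.Eventually.of_forall fun w r hr => ?_
    have hr1 : s / 2 < r := hr.1
    have hr2 : r < (1 + s) / 2 := hr.2
    exact j10_chain C0 C1 f g hg hfd s lam v w.1 w.2 r (by linarith) (by linarith)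

end Pool.Agent.SSQ
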