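import Pool.Agent.SSQ.Defs

set_option autoImplicit false
open MeasureTheory ProbabilityTheory Set Real

namespace Pool.Agent.SSQ
open Pool.Agent.SSC3N (gam GG TT)

theorem j9_prob (n : ℕ) : IsProbabilityMeasure (gam n) := by
  unfold gam
  infer_instance

theorem j9_eval {n : ℕ} (j : Fin n) :
    MeasurePreserving (Function.eval j) (gam n) (gaussianReal 0 1) := by
  unfold gam
  exact measurePreserving_eval _ j

theorem j9_int {n : ℕ} (j : Fin n) : Integrable (fun z : Fin n → ℝ => z j) (gam n) := by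
  have h2 : Integrable (fun x : ℝ => x) (gaussianReal 0 1) :=
    (memLp_id_gaussianReal (μ := 0) (v := 1) 1).integrable (by norm_num)
  exact (j9_eval j).integrable_comp_of_integrable h2

theorem j9_pdf (x : ℝ) : HasDerivAt (fun x : ℝ => -gaussianPDFReal 0 1 x)
    (x * gaussianPDFReal 0 1 x) x := by
  have h0 : ∀ y : ℝ, gaussianPDFReal 0 1 y = (√(2 * π))⁻¹ * rexp (-y ^ 2 / 2) := by
    intro y
    rw [gaussianPDFReal]
    simp
  have h1 : HasDerivAt (fun y : ℝ => -y ^ 2 / 2) (-x) x := by
    have h := ((hasDerivAt_pow 2 x).neg).div_const 2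
    refine h.congr_deriv ?_
    simp
    ring
  have h2 := ((h1.exp).const_mul (√(2 * π))⁻¹).neg
  have e : (fun y : ℝ => -gaussianPDFReal 0 1 y) =
      fun y : ℝ => -((√(2 * π))⁻¹ * rexp (-y ^ 2 / 2)) := by
    funext y
    rw [h0]
  rw [e, h0]
  refine h2.congr_deriv ?_
  ring

theorem j9_xp : Integrable (fun x : ℝ => x * gaussianPDFReal 0 1 x) := by
  have h := integrable_mul_exp_neg_mul_sq (b := 1 / 2) (by norm_num)
  have h2 := h.const_mul (√(2 * π))⁻¹
  refine h2.congr (Filter.Eventually.of_forall fun x => ?_)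
  simp only [gaussianPDFReal]
  simp
  ring_nf

/-- one variable -/
theorem j9_one (f f' : ℝ → ℝ) (M : ℝ) (hf : ∀ t, HasDerivAt f (f' t) t) (hf' : Continuous f')
    (hM : ∀ x, |f x| ≤ M) (hM' : ∀ x, |f' x| ≤ M) :
    ∫ x, x * f x ∂(gaussianReal 0 1) = ∫ x, f' x ∂(gaussianReal 0 1) := by
  have hM0 : 0 ≤ M := (abs_nonneg _).trans (hM 0)
  have hfc : Continuous f := continuous_iff_continuousAt.2 fun t => (hf t).continuousAt
  have hp := integrable_gaussianPDFReal 0 1
  have hpm : AEStronglyMeasurable (gaussianPDFReal 0 1) volume := hp.aestronglyMeasurable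
  have hp0 : ∀ x, 0 ≤ gaussianPDFReal 0 1 x := gaussianPDFReal_nonneg 0 1
  have i1 : Integrable (f * fun x => x * gaussianPDFReal 0 1 x) := by
    refine (j9_xp.abs.const_mul M).mono' (hfc.aestronglyMeasurable.mul j9_xp.aestronglyMeasurable)
      (Filter.Eventually.of_forall fun x => ?_)
    rw [Pi.mul_apply, Real.norm_eq_abs, abs_mul]
    exact mul_le_mul_of_nonneg_right (hM x) (abs_nonneg _)
  have i2 : Integrable (f' * fun x => -gaussianPDFReal 0 1 x) := by
    refine (hp.const_mul M).mono' (hf'.aestronglyMeasurable.mul hpm.neg)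
      (Filter.Eventually.of_forall fun x => ?_)
    rw [Pi.mul_apply, Real.norm_eq_abs, abs_mul, abs_neg, abs_of_nonneg (hp0 x)]
    exact mul_le_mul_of_nonneg_right (hM' x) (hp0 x)
  have i3 : Integrable (f * fun x => -gaussianPDFReal 0 1 x) := by
    refine (hp.const_mul M).mono' (hfc.aestronglyMeasurable.mul hpm.neg)
      (Filter.Eventually.of_forall fun x => ?_)
    rw [Pi.mul_apply, Real.norm_eq_abs, abs_mul, abs_neg, abs_of_nonneg (hp0 x)]
    exact mul_le_mul_of_nonneg_right (hM x) (hp0 x)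
  have h := integral_mul_deriv_eq_deriv_mul_of_integrable (fun x _ => hf x) (fun x _ => j9_pdf x)
    i1 i2 i3
  rw [integral_gaussianReal_eq_integral_smul one_ne_zero,
    integral_gaussianReal_eq_integral_smul one_ne_zero]
  have e1 : ∫ x, gaussianPDFReal 0 1 x • (x * f x) = ∫ x, f x * (x * gaussianPDFReal 0 1 x) := by
    refine integral_congr_ae (Filter.Eventually.of_forall fun x => ?_)
    simp only [smul_eq_mul]
    ring
  have e2 : ∫ x, gaussianPDFReal 0 1 x • f' x = - ∫ x, f' x * -gaussianPDFReal 0 1 x := by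
    rw [← integral_neg]
    refine integral_congr_ae (Filter.Eventually.of_forall fun x => ?_)
    simp only [smul_eq_mul]
    ring
  rw [e1, e2, h]

theorem j9_ins {m : ℕ} (j : Fin (m + 1)) (t : ℝ) (y : Fin m → ℝ) :
    (j.insertNth t y : Fin (m + 1) → ℝ) =
      (j.insertNth (0:ℝ) y : Fin (m + 1) → ℝ) + t • Pi.single j (1:ℝ) := by
  funext i
  rcases Fin.eq_self_or_eq_succAbove j i with rfl | ⟨k, rfl⟩
  · simp
  · simp

theorem j9_fub {m : ℕ} (j : Fin (m + 1)) (G : (Fin (m + 1) → ℝ) → ℝ)
    (hG : Integrable G (gam (m + 1))) :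
    ∫ z, G z ∂(gam (m + 1)) =
      ∫ y, ∫ t, G (j.insertNth t y) ∂(gaussianReal 0 1) ∂(gam m) := by
  have hmp : MeasurePreserving (MeasurableEquiv.piFinSuccAbove (fun _ : Fin (m + 1) => ℝ) j)
      (gam (m + 1)) ((gaussianReal 0 1).prod (gam m)) := by
    unfold gam
    exact measurePreserving_piFinSuccAbove (fun _ : Fin (m + 1) => gaussianReal 0 1) j
  have := j9_prob m
  have h1 := hmp.integral_comp'
    (fun q => G ((MeasurableEquiv.piFinSuccAbove (fun _ : Fin (m + 1) => ℝ) j).symm q))
  simp only [MeasurableEquiv.symm_apply_apply] at h1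
  have h2 : Integrable
      (fun q => G ((MeasurableEquiv.piFinSuccAbove (fun _ : Fin (m + 1) => ℝ) j).symm q))
      ((gaussianReal 0 1).prod (gam m)) :=
    (hmp.symm _).integrable_comp_of_integrable hG
  rw [h1, integral_prod_symm _ h2]
  rfl

/-- [J9a] Gaussian integration by parts in the coordinate `j`.
PROOF.  `n = m + 1`; `MeasureTheory.measurePreserving_piFinSuccAbove (fun _ => gaussianReal 0 1) j` and
`integral_prod`: for fixed other coordinates the one-variable identity `∫ x f(x) dN = ∫ f'(x) dN` for bounded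
`f, f'` (`integral_gaussianReal_eq_integral_smul`, `(gaussianPDFReal 0 1)' = -x gaussianPDFReal 0 1`,
`MeasureTheory.integral_mul_deriv_eq_deriv_mul_of_integrable` or `integral_of_hasDerivAt_of_tendsto` for
`f · gaussianPDFReal`). -/
theorem ibp {n : ℕ} (j : Fin n) (F F' : (Fin n → ℝ) → ℝ) (M : ℝ) (hF : Continuous F)
    (hF' : Continuous F') (hM : ∀ x, |F x| ≤ M) (hM' : ∀ x, |F' x| ≤ M)
    (hd : ∀ x t, HasDerivAt (fun s : ℝ => F (x + s • Pi.single j (1:ℝ)))
      (F' (x + t • Pi.single j (1:ℝ))) t) :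
    ∫ z, z j * F z ∂(gam n) = ∫ z, F' z ∂(gam n) := by
  cases n with
  | zero => exact j.elim0
  | succ m =>
    have := j9_prob (m + 1)
    have i1 : Integrable (fun z : Fin (m + 1) → ℝ => z j * F z) (gam (m + 1)) := by
      refine ((j9_int j).abs.const_mul M).mono'
        ((continuous_apply j).mul hF).aestronglyMeasurable (Filter.Eventually.of_forall fun z => ?_)
      rw [Real.norm_eq_abs, abs_mul, mul_comm]
      exact mul_le_mul_of_nonneg_right (hM z) (abs_nonneg _)
    have i2 : Integrable F' (gam (m + 1)) := by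
      refine (integrable_const M).mono' hF'.aestronglyMeasurable
        (Filter.Eventually.of_forall fun z => ?_)
      rw [Real.norm_eq_abs]
      exact hM' z
    rw [j9_fub j _ i1, j9_fub j _ i2]
    congr 1
    funext y
    have h1 := j9_one (fun t => F (j.insertNth t y)) (fun t => F' (j.insertNth t y)) M
      (fun t => by
        have h2 := hd (j.insertNth (0:ℝ) y) t
        rw [← j9_ins] at h2
        have e : (fun s : ℝ => F ((j.insertNth (0:ℝ) y : Fin (m + 1) → ℝ) +
            s • Pi.single j (1:ℝ))) = fun s => F (j.insertNth s y) := by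
          funext s
          rw [← j9_ins]
        rw [e] at h2
        exact h2)
      (by
        have e : (fun t : ℝ => F' (j.insertNth t y)) = fun t : ℝ =>
            F' ((j.insertNth (0:ℝ) y : Fin (m + 1) → ℝ) + t • Pi.single j (1:ℝ)) := by
          funext t
          rw [← j9_ins]
        rw [e]
        exact hF'.comp (continuous_const.add (continuous_id.smul continuous_const)))
      (fun t => hM _) (fun t => hM' _)
    rw [← h1]
    congr 1
    funext t
    rw [Fin.insertNth_apply_same]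

/-- [J9b] A function with directional derivatives `∑ c_i g_i` along all lines, `g` continuous, is
differentiable.  PROOF: mean value theorem on `[0,1]` for `s ↦ f (x + s • h)`:
`f(x+h) - f(x) - ∑ h_i g_i(x) = ∑ h_i (g_i(x + ξ h) - g_i(x))`, and continuity of `g` at `x`. -/
theorem fderiv_of_lines {k : ℕ} (f : (Fin k → ℝ) → ℝ) (g : (Fin k → ℝ) → Fin k → ℝ)
    (hg : ∀ i, Continuous (fun x => g x i))
    (hfd : ∀ (x c : Fin k → ℝ) (t : ℝ),
      HasDerivAt (fun s : ℝ => f (x + s • c)) (∑ i, c i * g (x + t • c) i) t) (x : Fin k → ℝ) :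
    HasFDerivAt f (∑ i, g x i • (ContinuousLinearMap.proj i : (Fin k → ℝ) →L[ℝ] ℝ)) x := by
  rw [hasFDerivAt_iff_isLittleO_nhds_zero, Asymptotics.isLittleO_iff]
  intro ε hε
  -- continuity of `g`
  have hc : Continuous fun h : Fin k → ℝ => ∑ i, |g (x + h) i - g x i| := by
    refine continuous_finsetSum _ fun i _ => ?_
    exact (((hg i).comp (continuous_const.add continuous_id)).sub continuous_const).abs
  have h0 : ∑ i, |g (x + 0) i - g x i| = 0 := by simp
  have hev : ∀ᶠ h : Fin k → ℝ in nhds 0, ∑ i, |g (x + h) i - g x i| < ε := by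
    have := hc.tendsto 0
    rw [h0] at this
    exact this.eventually_lt_const hε
  rw [Metric.eventually_nhds_iff_ball] at hev ⊢
  obtain ⟨δ, hδ, hball⟩ := hev
  refine ⟨δ, hδ, fun h hh => ?_⟩
  obtain ⟨ξ, hξ, hmv⟩ := exists_hasDerivAt_eq_slope (fun s : ℝ => f (x + s • h))
    (fun s => ∑ i, h i * g (x + s • h) i) zero_lt_one
    (fun s _ => (hfd x h s).continuousAt.continuousWithinAt) (fun s _ => hfd x h s)
  simp only [one_smul, zero_smul, add_zero, sub_zero, div_one] at hmv
  have hL : (∑ i, g x i • (ContinuousLinearMap.proj i : (Fin k → ℝ) →L[ℝ] ℝ)) h =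
      ∑ i, h i * g x i := by
    rw [_root_.sum_apply]
    refine Finset.sum_congr rfl fun i _ => ?_
    rw [_root_.smul_apply, ContinuousLinearMap.proj_apply, smul_eq_mul, mul_comm]
  rw [hL, ← hmv, ← Finset.sum_sub_distrib]
  have hmem : ξ • h ∈ Metric.ball (0 : Fin k → ℝ) δ := by
    rw [mem_ball_zero_iff] at hh ⊢
    rw [norm_smul, Real.norm_of_nonneg hξ.1.le]
    nlinarith [norm_nonneg h, hξ.2]
  have h2 := hball _ hmem
  calc ‖∑ i, (h i * g (x + ξ • h) i - h i * g x i)‖
      ≤ ∑ i, ‖h i * g (x + ξ • h) i - h i * g x i‖ := norm_sum_le _ _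
    _ ≤ ∑ i, ‖h‖ * |g (x + ξ • h) i - g x i| := by
        refine Finset.sum_le_sum fun i _ => ?_
        rw [← mul_sub, norm_mul, Real.norm_eq_abs (g (x + ξ • h) i - g x i)]
        exact mul_le_mul_of_nonneg_right (norm_le_pi_norm h i) (abs_nonneg _)
    _ = ‖h‖ * ∑ i, |g (x + ξ • h) i - g x i| := by rw [Finset.mul_sum]
    _ ≤ ‖h‖ * ε := mul_le_mul_of_nonneg_left h2.le (norm_nonneg h)
    _ = ε * ‖h‖ := mul_comm _ _

/-- [J9c] moments: `∑ |z_j|`-growth functions are integrable. -/
theorem integrable_abs_coord {n : ℕ} (j : Fin n) : Integrable (fun z : Fin n → ℝ => |z j|) (gam n) :=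
  (j9_int j).abs

/-- [J9d] mean zero. -/
theorem integral_coord {n : ℕ} (j : Fin n) : ∫ z, z j ∂(gam n) = 0 := by
  have h := j9_eval j
  have h2 : ∫ x : Fin n → ℝ, x j ∂(gam n) = ∫ x : ℝ, x ∂(gaussianReal 0 1) := by
    rw [← h.map_eq, integral_map h.measurable.aemeasurable (by fun_prop)]
  rw [h2, integral_id_gaussianReal]

end Pool.Agent.SSQ
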