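import Pool.Agent.SSQ.J7
import Pool.Agent.SSQ.J9

set_option autoImplicit false
open MeasureTheory ProbabilityTheory Set Real

namespace Pool.Agent.SSQ
open Pool.Agent.SSC3N (gam GG TT)

theorem j11_Zs_pos {k : ℕ} (x : Fin k → ℝ) : 1 ≤ Zs x := by
  have h : 0 ≤ ∑ i, Real.exp (x i) := Finset.sum_nonneg fun i _ => (Real.exp_pos _).le
  unfold Zs
  linarith

theorem j11_phi_nonneg {k : ℕ} (x : Fin k → ℝ) : 0 ≤ phi x := Real.log_nonneg (j11_Zs_pos x)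

theorem j11_phi_ge {k : ℕ} (x : Fin k → ℝ) (i : Fin k) : x i ≤ phi x := by
  unfold phi
  rw [Real.le_log_iff_exp_le (by linarith [j11_Zs_pos x])]
  have h1 : Real.exp (x i) ≤ ∑ j, Real.exp (x j) :=
    Finset.single_le_sum (f := fun j => Real.exp (x j)) (fun j _ => (Real.exp_pos _).le)
      (Finset.mem_univ i)
  unfold Zs
  linarith

theorem j11_phi_add {k : ℕ} (x y : Fin k → ℝ) : phi (x + y) ≤ phi x + ‖y‖ := by
  unfold phi
  have h0 := j11_Zs_pos x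
  have h1 : Zs (x + y) ≤ Real.exp ‖y‖ * Zs x := by
    unfold Zs
    rw [mul_add, Finset.mul_sum]
    refine add_le_add ?_ (Finset.sum_le_sum fun i _ => ?_)
    · rw [mul_one]; exact Real.one_le_exp (norm_nonneg y)
    · rw [Pi.add_apply, ← Real.exp_add, add_comm]
      apply Real.exp_le_exp.2
      have := norm_le_pi_norm y i
      have h2 := Real.le_norm_self (y i)
      linarith
  have h2 := Real.log_le_log (by linarith [j11_Zs_pos (x + y)]) h1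
  rw [Real.log_mul (Real.exp_pos _).ne' (by linarith), Real.log_exp] at h2
  linarith

theorem j11_phi_lip {k : ℕ} (x y : Fin k → ℝ) : |phi x - phi y| ≤ ‖x - y‖ := by
  have h1 := j11_phi_add y (x - y)
  have h2 := j11_phi_add x (y - x)
  rw [add_sub_cancel] at h1 h2
  rw [norm_sub_rev y x] at h2
  rw [abs_le]
  constructor <;> linarith

theorem j11_lin {Ω : Type*} [MeasurableSpace Ω] (μ : Measure Ω) [IsProbabilityMeasure μ] (X Y : Ω → ℝ)
    (hX : Integrable X μ) (hY : Integrable Y μ) (A B C : ℝ) :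
    ∫ w, (A + B * X w + C * Y w) ∂μ = A + B * ∫ w, X w ∂μ + C * ∫ w, Y w ∂μ := by
  have h1 : Integrable (fun w => A + B * X w) μ := (integrable_const A).add (hX.const_mul B)
  rw [integral_add h1 (hY.const_mul C), integral_add (integrable_const A) (hX.const_mul B),
    integral_const_mul, integral_const_mul]
  simp

/-- the growth function -/
noncomputable def j11_S {k n : ℕ} (C : Fin n → Fin k → ℝ) (z : Fin n → ℝ) : ℝ := ∑ a, |z a| * ‖C a‖

theorem j11_S_int {k n : ℕ} (C : Fin n → Fin k → ℝ) : Integrable (j11_S C) (gam n) := by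
  unfold j11_S
  exact integrable_finsetSum _ fun a _ => (integrable_abs_coord a).mul_const _

theorem j11_S_norm {k n : ℕ} (C : Fin n → Fin k → ℝ) (z : Fin n → ℝ) :
    ‖∑ a, z a • C a‖ ≤ j11_S C z := by
  refine (norm_sum_le _ _).trans (Finset.sum_le_sum fun a _ => ?_)
  rw [norm_smul, Real.norm_eq_abs]

theorem j11_pt_norm {k n0 n1 : ℕ} (C0 : Fin n0 → Fin k → ℝ) (C1 : Fin n1 → Fin k → ℝ) (s s' : ℝ)
    (lam lam' : Fin k → ℝ) (z : Fin n0 → ℝ) (z' : Fin n1 → ℝ) :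
    ‖pt C0 C1 s lam z z' - pt C0 C1 s' lam' z z'‖ ≤ ‖lam - lam'‖ +
      |√(1 - s) - √(1 - s')| * j11_S C0 z + |√s - √s'| * j11_S C1 z' := by
  have e : pt C0 C1 s lam z z' - pt C0 C1 s' lam' z z' = (lam - lam') +
      (√(1 - s) - √(1 - s')) • (∑ a, z a • C0 a) + (√s - √s') • (∑ a, z' a • C1 a) := by
    unfold pt
    rw [sub_smul, sub_smul]
    abel
  rw [e]
  refine (norm_add_le _ _).trans (add_le_add ((norm_add_le _ _).trans (add_le_add le_rfl ?_)) ?_)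
  · rw [norm_smul, Real.norm_eq_abs]
    exact mul_le_mul_of_nonneg_left (j11_S_norm C0 z) (abs_nonneg _)
  · rw [norm_smul, Real.norm_eq_abs]
    exact mul_le_mul_of_nonneg_left (j11_S_norm C1 z') (abs_nonneg _)

theorem j11_pt_cont {k n0 n1 : ℕ} (C0 : Fin n0 → Fin k → ℝ) (C1 : Fin n1 → Fin k → ℝ) (s : ℝ)
    (lam : Fin k → ℝ) :
    Continuous (fun w : (Fin n0 → ℝ) × (Fin n1 → ℝ) => pt C0 C1 s lam w.1 w.2) := by
  unfold pt
  fun_prop

theorem j11_bd_int {k n0 n1 : ℕ} (C0 : Fin n0 → Fin k → ℝ) (C1 : Fin n1 → Fin k → ℝ) (A B C : ℝ) :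
    Integrable (fun w : (Fin n0 → ℝ) × (Fin n1 → ℝ) => A + B * j11_S C0 w.1 + C * j11_S C1 w.2)
      ((gam n0).prod (gam n1)) := by
  have := j9_prob n0
  have := j9_prob n1
  exact ((integrable_const A).add (((j11_S_int C0).comp_fst (gam n1)).const_mul B)).add
    (((j11_S_int C1).comp_snd (gam n0)).const_mul C)

theorem j11_int {k n0 n1 : ℕ} (C0 : Fin n0 → Fin k → ℝ) (C1 : Fin n1 → Fin k → ℝ) (s : ℝ)
    (lam : Fin k → ℝ) (f : (Fin k → ℝ) → ℝ) (hf : Continuous f) (A : ℝ)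
    (hA : ∀ x, |f x| ≤ A + ‖x‖) :
    Integrable (fun w : (Fin n0 → ℝ) × (Fin n1 → ℝ) => f (pt C0 C1 s lam w.1 w.2))
      ((gam n0).prod (gam n1)) := by
  refine (j11_bd_int C0 C1 (A + ‖lam‖) |√(1 - s)| |√s|).mono'
    (hf.comp (j11_pt_cont C0 C1 s lam)).aestronglyMeasurable
    (Filter.Eventually.of_forall fun w => ?_)
  rw [Real.norm_eq_abs]
  refine (hA _).trans ?_
  have h1 : ‖pt C0 C1 s lam w.1 w.2‖ ≤ ‖lam‖ + |√(1 - s)| * j11_S C0 w.1 + |√s| * j11_S C1 w.2 := by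
    unfold pt
    refine (norm_add_le _ _).trans (add_le_add ((norm_add_le _ _).trans (add_le_add le_rfl ?_)) ?_)
    · rw [norm_smul, Real.norm_eq_abs]
      exact mul_le_mul_of_nonneg_left (j11_S_norm C0 w.1) (abs_nonneg _)
    · rw [norm_smul, Real.norm_eq_abs]
      exact mul_le_mul_of_nonneg_left (j11_S_norm C1 w.2) (abs_nonneg _)
  linarith

theorem j11_Gm {k n0 n1 : ℕ} (C0 : Fin n0 → Fin k → ℝ) (C1 : Fin n1 → Fin k → ℝ) (s : ℝ)
    (lam : Fin k → ℝ) (f : (Fin k → ℝ) → ℝ) (hf : Continuous f) (A : ℝ)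
    (hA : ∀ x, |f x| ≤ A + ‖x‖) :
    Gm C0 C1 f s lam = ∫ w, f (pt C0 C1 s lam w.1 w.2) ∂((gam n0).prod (gam n1)) := by
  have := j9_prob n0
  have := j9_prob n1
  rw [integral_prod _ (j11_int C0 C1 s lam f hf A hA)]
  rfl

theorem j11_phi_cont {k : ℕ} : Continuous (phi (k := k)) := (soft_bdd (k := k)).2.2.2.1

theorem j11_phi_bd {k : ℕ} (x : Fin k → ℝ) : |phi x| ≤ |phi (0 : Fin k → ℝ)| + ‖x‖ := by
  have h := j11_phi_lip x 0
  rw [sub_zero] at h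
  have h2 := abs_sub_abs_le_abs_sub (phi x) (phi (0 : Fin k → ℝ))
  linarith

/-- [J11a] joint continuity.  `phi` is Lipschitz for the sup norm (`phi_deriv`, `∑ w ≤ 1`; or directly
`phi (x + y) ≤ phi x + ‖y‖`), `pt` is continuous in `(s, λ)` with `|pt_i - pt'_i| ≤ |λ - λ'| + |√(1-s) - √(1-s')|
∑|z_a||C0_ai| + ...`; dominated convergence (`continuousOn_of_dominated` / `ContinuousWithinAt`), or the direct
estimate `|Gm(s,λ) - Gm(s',λ')| ≤ ‖λ - λ'‖ + K (|√(1-s) - √(1-s')| + |√s - √s'|)`. -/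
theorem Gm_phi_cont {k n0 n1 : ℕ} (C0 : Fin n0 → Fin k → ℝ) (C1 : Fin n1 → Fin k → ℝ) :
    Continuous (fun p : ℝ × (Fin k → ℝ) => Gm C0 C1 phi p.1 p.2) := by
  have := j9_prob n0
  have := j9_prob n1
  set μ := (gam n0).prod (gam n1) with hμ
  have i0 : Integrable (fun w : (Fin n0 → ℝ) × (Fin n1 → ℝ) => j11_S C0 w.1) μ :=
    (j11_S_int C0).comp_fst (gam n1)
  have i1 : Integrable (fun w : (Fin n0 → ℝ) × (Fin n1 → ℝ) => j11_S C1 w.2) μ :=
    (j11_S_int C1).comp_snd (gam n0)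
  have est : ∀ p q : ℝ × (Fin k → ℝ), |Gm C0 C1 phi p.1 p.2 - Gm C0 C1 phi q.1 q.2| ≤
      ‖p.2 - q.2‖ + |√(1 - p.1) - √(1 - q.1)| * ∫ w, j11_S C0 w.1 ∂μ +
        |√p.1 - √q.1| * ∫ w, j11_S C1 w.2 ∂μ := by
    intro p q
    rw [j11_Gm C0 C1 p.1 p.2 phi j11_phi_cont _ j11_phi_bd,
      j11_Gm C0 C1 q.1 q.2 phi j11_phi_cont _ j11_phi_bd,
      ← integral_sub (j11_int C0 C1 p.1 p.2 phi j11_phi_cont _ j11_phi_bd)
        (j11_int C0 C1 q.1 q.2 phi j11_phi_cont _ j11_phi_bd), ← Real.norm_eq_abs]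
    refine (norm_integral_le_integral_norm _).trans ?_
    have hb := j11_bd_int C0 C1 ‖p.2 - q.2‖ |√(1 - p.1) - √(1 - q.1)| |√p.1 - √q.1|
    refine (integral_mono (((j11_int C0 C1 p.1 p.2 phi j11_phi_cont _ j11_phi_bd).sub
      (j11_int C0 C1 q.1 q.2 phi j11_phi_cont _ j11_phi_bd)).norm) hb ?_).trans ?_
    · intro w
      exact (j11_phi_lip _ _).trans (j11_pt_norm C0 C1 p.1 q.1 p.2 q.2 w.1 w.2)
    · have e1 : ∫ w : (Fin n0 → ℝ) × (Fin n1 → ℝ), (‖p.2 - q.2‖ +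
          |√(1 - p.1) - √(1 - q.1)| * j11_S C0 w.1 + |√p.1 - √q.1| * j11_S C1 w.2) ∂μ =
          ‖p.2 - q.2‖ + |√(1 - p.1) - √(1 - q.1)| * ∫ w, j11_S C0 w.1 ∂μ +
          |√p.1 - √q.1| * ∫ w, j11_S C1 w.2 ∂μ := j11_lin μ _ _ i0 i1 _ _ _
      rw [e1]
  rw [continuous_iff_continuousAt]
  intro q
  rw [ContinuousAt, tendsto_iff_dist_tendsto_zero]
  have hB : Continuous (fun p : ℝ × (Fin k → ℝ) => ‖p.2 - q.2‖ +
      |√(1 - p.1) - √(1 - q.1)| * ∫ w, j11_S C0 w.1 ∂μ +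
        |√p.1 - √q.1| * ∫ w, j11_S C1 w.2 ∂μ) := by
    fun_prop
  have hB0 := hB.tendsto q
  simp only [sub_self, norm_zero, abs_zero, zero_mul, add_zero] at hB0
  refine squeeze_zero (fun _ => dist_nonneg) (fun p => ?_) hB0
  rw [Real.dist_eq]
  exact est p q

theorem j11_pt_int {k n0 n1 : ℕ} (C0 : Fin n0 → Fin k → ℝ) (C1 : Fin n1 → Fin k → ℝ) (s : ℝ)
    (lam : Fin k → ℝ) (i : Fin k) :
    Integrable (fun w : (Fin n0 → ℝ) × (Fin n1 → ℝ) => pt C0 C1 s lam w.1 w.2 i)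
      ((gam n0).prod (gam n1)) := by
  refine j11_int C0 C1 s lam (fun x => x i) (continuous_apply i) 0 (fun x => ?_)
  rw [zero_add, ← Real.norm_eq_abs]
  exact norm_le_pi_norm x i

theorem j11_pt_integral {k n0 n1 : ℕ} (C0 : Fin n0 → Fin k → ℝ) (C1 : Fin n1 → Fin k → ℝ) (s : ℝ)
    (lam : Fin k → ℝ) (i : Fin k) :
    ∫ w : (Fin n0 → ℝ) × (Fin n1 → ℝ), pt C0 C1 s lam w.1 w.2 i ∂((gam n0).prod (gam n1)) =
      lam i := by
  have := j9_prob n0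
  have := j9_prob n1
  have e : ∀ w : (Fin n0 → ℝ) × (Fin n1 → ℝ), pt C0 C1 s lam w.1 w.2 i =
      lam i + √(1 - s) * (∑ a, w.1 a * C0 a i) + √s * (∑ a, w.2 a * C1 a i) := by
    intro w
    unfold pt
    simp [Finset.sum_apply]
  simp only [e]
  have a0 : ∀ a, Integrable (fun w : (Fin n0 → ℝ) × (Fin n1 → ℝ) => w.1 a * C0 a i)
      ((gam n0).prod (gam n1)) := fun a => ((j9_int a).comp_fst (gam n1)).mul_const _
  have a1 : ∀ a, Integrable (fun w : (Fin n0 → ℝ) × (Fin n1 → ℝ) => w.2 a * C1 a i)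
      ((gam n0).prod (gam n1)) := fun a => ((j9_int a).comp_snd (gam n0)).mul_const _
  have b0 : Integrable (fun w : (Fin n0 → ℝ) × (Fin n1 → ℝ) => ∑ a, w.1 a * C0 a i)
      ((gam n0).prod (gam n1)) := integrable_finsetSum _ fun a _ => a0 a
  have b1 : Integrable (fun w : (Fin n0 → ℝ) × (Fin n1 → ℝ) => ∑ a, w.2 a * C1 a i)
      ((gam n0).prod (gam n1)) := integrable_finsetSum _ fun a _ => a1 a
  rw [j11_lin _ _ _ b0 b1, integral_finsetSum _ fun a _ => a0 a, integral_finsetSum _ fun a _ => a1 a]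
  have z0 : ∀ a, ∫ w : (Fin n0 → ℝ) × (Fin n1 → ℝ), w.1 a * C0 a i ∂((gam n0).prod (gam n1)) = 0 := by
    intro a
    rw [integral_mul_const, integral_fun_fst (fun z : Fin n0 → ℝ => z a), integral_coord]
    simp
  have z1 : ∀ a, ∫ w : (Fin n0 → ℝ) × (Fin n1 → ℝ), w.2 a * C1 a i ∂((gam n0).prod (gam n1)) = 0 := by
    intro a
    rw [integral_mul_const, integral_fun_snd (fun z : Fin n1 → ℝ => z a), integral_coord]
    simp
  simp [z0, z1]

/-- [J11b] lower bounds: `phi x ≥ 0`, `phi x ≥ x_i`, and `∫∫ pt_i = λ_i` (`integral_coord`). -/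
theorem Gm_phi_ge {k n0 n1 : ℕ} (C0 : Fin n0 → Fin k → ℝ) (C1 : Fin n1 → Fin k → ℝ) (s : ℝ)
    (lam : Fin k → ℝ) (i : Fin k) :
    0 ≤ Gm C0 C1 phi s lam ∧ lam i ≤ Gm C0 C1 phi s lam := by
  rw [j11_Gm C0 C1 s lam phi j11_phi_cont _ j11_phi_bd]
  refine ⟨integral_nonneg fun w => j11_phi_nonneg _, ?_⟩
  rw [← j11_pt_integral C0 C1 s lam i]
  exact integral_mono (j11_pt_int C0 C1 s lam i) (j11_int C0 C1 s lam phi j11_phi_cont _ j11_phi_bd)
    fun w => j11_phi_ge _ i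

/-- [J11c] coercivity.  With `m = Gm C0 C1 phi s lam` (`m ≥ 0`, `m ≥ λ_j`):
`m - (∑ λ_j)/(k+1) = (1/(k+1)) (m + ∑_j (m - λ_j)) ≥ (1/(k+1)) (m + (m - λ_i)) ≥ |λ_i|/(k+1)`. -/
theorem Gm_phi_coer {k n0 n1 : ℕ} (C0 : Fin n0 → Fin k → ℝ) (C1 : Fin n1 → Fin k → ℝ) (s : ℝ)
    (lam : Fin k → ℝ) (i : Fin k) :
    |lam i| / (k + 1) ≤ Gm C0 C1 phi s lam - (∑ j, lam j) / (k + 1) := by
  set m := Gm C0 C1 phi s lam with hm
  have h0 : 0 ≤ m := (Gm_phi_ge C0 C1 s lam i).1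
  have hj : ∀ j, lam j ≤ m := fun j => (Gm_phi_ge C0 C1 s lam j).2
  have hk : (0 : ℝ) < k + 1 := by positivity
  have h1 : m - lam i ≤ ∑ j, (m - lam j) :=
    Finset.single_le_sum (f := fun j => m - lam j) (fun j _ => sub_nonneg.2 (hj j))
      (Finset.mem_univ i)
  rw [Finset.sum_sub_distrib, Finset.sum_const, Finset.card_univ, Fintype.card_fin,
    nsmul_eq_mul] at h1
  rw [div_le_iff₀ hk, sub_mul, div_mul_cancel₀ _ hk.ne']
  have h2 := hj i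
  rcases abs_cases (lam i) with ⟨h3, _⟩ | ⟨h3, _⟩ <;> rw [h3] <;> nlinarith

/-- [J11d] `Gm` is an iterated `avn`. -/
theorem Gm_avn {k n0 n1 : ℕ} (C0 : Fin n0 → Fin k → ℝ) (C1 : Fin n1 → Fin k → ℝ)
    (f : (Fin k → ℝ) → ℝ) (s : ℝ) (lam : Fin k → ℝ) :
    Gm C0 C1 f s lam =
      avn (fun a => Real.sqrt (1 - s) • C0 a) (avn (fun a => Real.sqrt s • C1 a) f) lam := by
  have e : ∀ {n : ℕ} (C : Fin n → Fin k → ℝ) (r : ℝ) (z : Fin n → ℝ),
      ∑ a, z a • (r • C a) = r • ∑ a, z a • C a := by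
    intro n C r z
    rw [Finset.smul_sum]
    exact Finset.sum_congr rfl fun a _ => smul_comm _ _ _
  unfold Gm avn pt
  simp only [e]

end Pool.Agent.SSQ
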