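import Pool.Agent.SSQ.J7

set_option autoImplicit false
open MeasureTheory ProbabilityTheory Set Real

namespace Pool.Agent.SSQ
open Pool.Agent.SSC3N (gam GG TT)

theorem j8_core {k : ℕ} (w g : Fin k → ℝ) (D : Fin k → Fin k → ℝ) (hD : ∀ i j, D i j = D j i) :
    ∑ i, ∑ j, D i j * ((if i = j then g i else 0) - g i * w j - w i * g j) =
      2 * ∑ i, (D i i / 2 - ∑ j, D i j * w j) * g i := by
  have h1 : ∑ i, ∑ j, D i j * ((if i = j then g i else 0) - g i * w j - w i * g j) =
      ∑ i, ∑ j, D i j * (if i = j then g i else 0) - ∑ i, ∑ j, D i j * w j * g i -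
        ∑ i, ∑ j, D i j * w i * g j := by
    rw [← Finset.sum_sub_distrib, ← Finset.sum_sub_distrib]
    apply Finset.sum_congr rfl
    intro i _
    rw [← Finset.sum_sub_distrib, ← Finset.sum_sub_distrib]
    apply Finset.sum_congr rfl
    intro j _
    ring
  have h2 : ∑ i, ∑ j, D i j * w i * g j = ∑ i, ∑ j, D i j * w j * g i := by
    rw [Finset.sum_comm]
    apply Finset.sum_congr rfl
    intro i _
    apply Finset.sum_congr rfl
    intro j _
    rw [hD j i]
  have h3 : ∑ i, ∑ j, D i j * (if i = j then g i else 0) = ∑ i, D i i * g i := by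
    apply Finset.sum_congr rfl
    intro i _
    simp
  rw [h1, h2, h3, Finset.mul_sum, ← Finset.sum_sub_distrib, ← Finset.sum_sub_distrib]
  apply Finset.sum_congr rfl
  intro i _
  rw [← Finset.sum_mul]
  ring

/-- [J8a] Positivity: `∑ y_i y_j H_ij = ∑ w_i y_i² - (∑ w_i y_i)² > 0`: Cauchy-Schwarz gives
`(∑ w_i y_i)² ≤ (∑ w_i)(∑ w_i y_i²)` and `∑ w_i < 1`, `∑ w_i y_i² > 0` for `y ≠ 0`. -/
theorem soft_pos {k : ℕ} (x : Fin k → ℝ) (y : Fin k → ℝ) (hy : y ≠ 0) :
    0 < ∑ i, ∑ j, y i * y j * SH x i j := by
  obtain ⟨hw0, -, hw1⟩ := wS_basic x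
  have h1 : ∑ i, ∑ j, y i * y j * SH x i j =
      ∑ i, wS x i * y i ^ 2 - (∑ i, wS x i * y i) ^ 2 := by
    have h2 : (∑ i, wS x i * y i) ^ 2 = ∑ i, ∑ j, (wS x i * y i) * (wS x j * y j) := by
      rw [sq, Finset.sum_mul_sum]
    rw [h2, ← Finset.sum_sub_distrib]
    apply Finset.sum_congr rfl
    intro i _
    unfold SH
    have h3 : wS x i * y i ^ 2 = ∑ j, (if i = j then y i * y j * wS x i else 0) := by
      simp
      ring
    rw [h3, ← Finset.sum_sub_distrib]
    apply Finset.sum_congr rfl
    intro j _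
    split_ifs <;> ring
  rw [h1]
  have h4 : (∑ i, wS x i * y i) ^ 2 ≤ (∑ i, wS x i) * ∑ i, wS x i * y i ^ 2 := by
    apply Finset.sum_sq_le_sum_mul_sum_of_sq_le_mul
    · intro i _
      exact (hw0 i).le
    · intro i _
      exact mul_nonneg (hw0 i).le (sq_nonneg _)
    · intro i _
      apply le_of_eq
      ring
  have h5 : 0 < ∑ i, wS x i * y i ^ 2 := by
    obtain ⟨i, hi⟩ := Function.ne_iff.mp hy
    apply Finset.sum_pos'
    · intro j _
      exact mul_nonneg (hw0 j).le (sq_nonneg _)
    · exact ⟨i, Finset.mem_univ i, mul_pos (hw0 i) (by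
        have : y i ≠ 0 := hi
        positivity)⟩
  nlinarith

/-- [J8b] The Nakano identity.  With `v_i = ∑_j D_ij w_j - D_ii / 2`:
`quad (SH x) (ST x) (SU x) D v = -½ tr(D H D H)`.
PROOF (write `H = SH x`, `T = ST x`, `U = SU x`, `w = wS x`, `d_i = D_ii`, `F_i = ½ d_i - (Dw)_i = -v_i`).
(1) `½ ∑_ij D_ij T_ijl = ∑_i H_li F_i`: from `T_ijl = δ_ij H_il - H_il w_j - w_i H_jl` and `D` symmetric,
    `∑ D_ij T_ijl = ∑_i d_i H_il - 2 ∑_ij D_ij w_j H_il`.
(2) `½ ∑_lm... `: contracting the formula of `U` over its FIRST two indices,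
    `½ ∑_ij D_ij U_ijlm = ½ ∑_i d_i T_ilm - ½ ∑_ij D_ij (T_ilm w_j + w_i T_jlm) - ½ ∑_ij D_ij (H_il H_jm + H_im H_jl)`
    `= ∑_i F_i T_ilm - (H D H)_lm`.
(3) `a := ¼ ∑ D_ij D_lm U_ijlm = ½ ∑_lm D_lm [∑_i F_i T_ilm - (HDH)_lm] = ∑_i F_i (½ ∑_lm D_lm T_lmi) - ½ tr(DHDH)`
    `= ∑_ij F_i H_ij F_j - ½ tr(DHDH)` (symmetries of `T` and (1)).
(4) `∑ D_ij v_l T_ijl = 2 ∑ v_l H_li F_i = -2 ∑ F_l H_li F_i` and `∑ v v H = ∑ F F H`.  Sum: `-½ tr(DHDH)`. -/
theorem soft_nak_eq {k : ℕ} (x : Fin k → ℝ) (D : Fin k → Fin k → ℝ) (hD : ∀ i j, D i j = D j i) :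
    quad (SH x) (ST x) (SU x) D (fun i => ∑ j, D i j * wS x j - D i i / 2) =
      -(1 / 2) * ∑ i, ∑ j, ∑ l, ∑ m, D i j * SH x j l * D l m * SH x m i := by
  obtain ⟨hH, hT12, hT23, -, -, -⟩ := soft_symm x
  set w := wS x with hw
  set H := SH x with hHdef
  set F : Fin k → ℝ := fun i => D i i / 2 - ∑ j, D i j * w j with hF
  have hA : ∀ l, ∑ i, ∑ j, D i j * ST x i j l = 2 * ∑ i, F i * H i l := by
    intro l
    exact j8_core w (fun i => H i l) D hD
  have hB : ∀ l m, ∑ i, ∑ j, D i j * SU x i j l m =
      2 * ∑ i, F i * ST x i l m - 2 * ∑ i, ∑ j, D i j * H i l * H j m := by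
    intro l m
    have h1 := j8_core w (fun i => ST x i l m) D hD
    rw [← h1]
    have h2 : ∑ i, ∑ j, D i j * H i m * H j l = ∑ i, ∑ j, D i j * H i l * H j m := by
      rw [Finset.sum_comm]
      apply Finset.sum_congr rfl
      intro i _
      apply Finset.sum_congr rfl
      intro j _
      rw [hD j i]
      ring
    have h3 : 2 * ∑ i, ∑ j, D i j * H i l * H j m =
        ∑ i, ∑ j, D i j * H i l * H j m + ∑ i, ∑ j, D i j * H i m * H j l := by
      rw [h2]
      ring
    rw [h3, ← Finset.sum_add_distrib, ← Finset.sum_sub_distrib]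
    apply Finset.sum_congr rfl
    intro i _
    rw [← Finset.sum_add_distrib, ← Finset.sum_sub_distrib]
    apply Finset.sum_congr rfl
    intro j _
    unfold SU
    rw [← hHdef, ← hw]
    ring
  have hQsym : ∑ i, ∑ j, F i * F j * H j i = ∑ i, ∑ j, F i * F j * H i j := by
    apply Finset.sum_congr rfl
    intro i _
    apply Finset.sum_congr rfl
    intro j _
    rw [hH j i]
  have hS1 : ∑ i, ∑ j, ∑ l, ∑ m, D i j * D l m * SU x i j l m =
      4 * (∑ i, ∑ j, F i * F j * H i j) -
        2 * ∑ i, ∑ j, ∑ l, ∑ m, D i j * H j l * D l m * H m i := by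
    have e1 : ∑ i, ∑ j, ∑ l, ∑ m, D i j * D l m * SU x i j l m =
        ∑ l, ∑ m, D l m * ∑ i, ∑ j, D i j * SU x i j l m := by
      calc ∑ i, ∑ j, ∑ l, ∑ m, D i j * D l m * SU x i j l m
          = ∑ p : Fin k × Fin k, ∑ q : Fin k × Fin k,
              D p.1 p.2 * D q.1 q.2 * SU x p.1 p.2 q.1 q.2 := by
            rw [Fintype.sum_prod_type]
            apply Finset.sum_congr rfl
            intro i _
            apply Finset.sum_congr rfl
            intro j _
            rw [Fintype.sum_prod_type]
        _ = ∑ q : Fin k × Fin k, ∑ p : Fin k × Fin k,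
              D p.1 p.2 * D q.1 q.2 * SU x p.1 p.2 q.1 q.2 := Finset.sum_comm
        _ = ∑ l, ∑ m, D l m * ∑ i, ∑ j, D i j * SU x i j l m := by
            rw [Fintype.sum_prod_type]
            apply Finset.sum_congr rfl
            intro l _
            apply Finset.sum_congr rfl
            intro m _
            rw [Fintype.sum_prod_type, Finset.mul_sum]
            apply Finset.sum_congr rfl
            intro i _
            rw [Finset.mul_sum]
            apply Finset.sum_congr rfl
            intro j _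
            ring
    have e2 : ∑ l, ∑ m, D l m * ∑ i, F i * ST x i l m = 2 * ∑ i, ∑ j, F i * F j * H j i := by
      calc ∑ l, ∑ m, D l m * ∑ i, F i * ST x i l m
          = ∑ q : Fin k × Fin k, ∑ i, F i * (D q.1 q.2 * ST x q.1 q.2 i) := by
            rw [Fintype.sum_prod_type]
            apply Finset.sum_congr rfl
            intro l _
            apply Finset.sum_congr rfl
            intro m _
            rw [Finset.mul_sum]
            apply Finset.sum_congr rfl
            intro i _
            have : ST x i l m = ST x l m i := by rw [hT12 i l m, hT23 l i m]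
            rw [this]
            ring
        _ = ∑ i, F i * ∑ q : Fin k × Fin k, D q.1 q.2 * ST x q.1 q.2 i := by
            rw [Finset.sum_comm]
            apply Finset.sum_congr rfl
            intro i _
            rw [Finset.mul_sum]
        _ = 2 * ∑ i, ∑ j, F i * F j * H j i := by
            rw [Finset.mul_sum]
            apply Finset.sum_congr rfl
            intro i _
            rw [Fintype.sum_prod_type, hA i]
            rw [mul_left_comm, Finset.mul_sum]
            congr 1
            apply Finset.sum_congr rfl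
            intro j _
            ring
    have e3 : ∑ l, ∑ m, D l m * ∑ i, ∑ j, D i j * H i l * H j m =
        ∑ i, ∑ j, ∑ l, ∑ m, D i j * H j l * D l m * H m i := by
      calc ∑ l, ∑ m, D l m * ∑ i, ∑ j, D i j * H i l * H j m
          = ∑ q : Fin k × Fin k, ∑ p : Fin k × Fin k,
              D q.1 q.2 * (D p.1 p.2 * H p.1 q.1 * H p.2 q.2) := by
            rw [Fintype.sum_prod_type]
            apply Finset.sum_congr rfl
            intro l _
            apply Finset.sum_congr rfl
            intro m _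
            rw [Fintype.sum_prod_type, Finset.mul_sum]
            apply Finset.sum_congr rfl
            intro i _
            rw [Finset.mul_sum]
        _ = ∑ p : Fin k × Fin k, ∑ q : Fin k × Fin k,
              D q.1 q.2 * (D p.1 p.2 * H p.1 q.1 * H p.2 q.2) := Finset.sum_comm
        _ = ∑ i, ∑ j, ∑ l, ∑ m, D i j * H j l * D l m * H m i := by
            rw [Fintype.sum_prod_type]
            apply Finset.sum_congr rfl
            intro i _
            apply Finset.sum_congr rfl
            intro j _
            rw [Fintype.sum_prod_type, Finset.sum_comm]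
            apply Finset.sum_congr rfl
            intro l _
            apply Finset.sum_congr rfl
            intro m _
            rw [hD m l, hH i m]
            ring
    rw [e1]
    have e4 : ∑ l, ∑ m, D l m * ∑ i, ∑ j, D i j * SU x i j l m =
        2 * (∑ l, ∑ m, D l m * ∑ i, F i * ST x i l m) -
          2 * ∑ l, ∑ m, D l m * ∑ i, ∑ j, D i j * H i l * H j m := by
      rw [Finset.mul_sum, Finset.mul_sum, ← Finset.sum_sub_distrib]
      apply Finset.sum_congr rfl
      intro l _
      rw [Finset.mul_sum, Finset.mul_sum, ← Finset.sum_sub_distrib]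
      apply Finset.sum_congr rfl
      intro m _
      rw [hB l m]
      ring
    rw [e4, e2, e3, hQsym]
    ring
  have hv : (fun i => ∑ j, D i j * w j - D i i / 2) = fun i => -F i := by
    funext i
    rw [hF]
    ring
  have hS2 : ∑ i, ∑ j, ∑ l, D i j * (-F l) * ST x i j l = -2 * ∑ i, ∑ j, F i * F j * H i j := by
    calc ∑ i, ∑ j, ∑ l, D i j * (-F l) * ST x i j l
        = ∑ p : Fin k × Fin k, ∑ l, D p.1 p.2 * (-F l) * ST x p.1 p.2 l := by
          rw [Fintype.sum_prod_type]
      _ = ∑ l, ∑ p : Fin k × Fin k, D p.1 p.2 * (-F l) * ST x p.1 p.2 l := Finset.sum_comm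
      _ = ∑ l, (-F l) * ∑ i, ∑ j, D i j * ST x i j l := by
          apply Finset.sum_congr rfl
          intro l _
          rw [Fintype.sum_prod_type, Finset.mul_sum]
          apply Finset.sum_congr rfl
          intro i _
          rw [Finset.mul_sum]
          apply Finset.sum_congr rfl
          intro j _
          ring
      _ = -2 * ∑ i, ∑ j, F i * F j * H i j := by
          rw [← hQsym, Finset.mul_sum]
          apply Finset.sum_congr rfl
          intro l _
          rw [hA l, Finset.mul_sum, Finset.mul_sum, Finset.mul_sum]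
          apply Finset.sum_congr rfl
          intro i _
          ring
  have hS3 : ∑ i, ∑ j, (-F i) * (-F j) * H i j = ∑ i, ∑ j, F i * F j * H i j := by
    apply Finset.sum_congr rfl
    intro i _
    apply Finset.sum_congr rfl
    intro j _
    ring
  unfold quad
  rw [hv, hS1, hS2, hS3]
  ring

open scoped MatrixOrder in
theorem j8_sqrt {k : ℕ} {A : Matrix (Fin k) (Fin k) ℝ} (hA : A.PosSemidef) :
    ∃ B : Matrix (Fin k) (Fin k) ℝ, A = B.conjTranspose * B := by
  obtain ⟨B, hB⟩ := CStarAlgebra.nonneg_iff_eq_star_mul_self.mp hA.nonneg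
  exact ⟨B, hB⟩

/-- [J8c] `tr(DHDH) ≥ 0` for `H` symmetric positive semidefinite, `D` symmetric.
PROOF.  `Matrix.PosSemidef` gives `H = Rᵀ R` (or `R = H^{1/2}`, `H = R R` with `R` symmetric); with `E = R D Rᵀ`
(symmetric) `tr(D H D H) = tr(E E) = ∑ E_ij² ≥ 0` (`Matrix.trace_mul_cycle`). -/
theorem tr_nonneg {k : ℕ} (H D : Fin k → Fin k → ℝ) (hH : ∀ i j, H i j = H j i)
    (hpos : ∀ y : Fin k → ℝ, 0 ≤ ∑ i, ∑ j, y i * y j * H i j) (hD : ∀ i j, D i j = D j i) :
    0 ≤ ∑ i, ∑ j, ∑ l, ∑ m, D i j * H j l * D l m * H m i := by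
  have hps : (Matrix.of H).PosSemidef := by
    apply Matrix.PosSemidef.of_dotProduct_mulVec_nonneg
    · ext i j
      simp [hH i j]
    · intro y
      have h1 := hpos y
      have h2 : star y ⬝ᵥ (Matrix.of H).mulVec y = ∑ i, ∑ j, y i * y j * H i j := by
        simp only [dotProduct, Matrix.mulVec, Matrix.of_apply, star_trivial]
        apply Finset.sum_congr rfl
        intro i _
        rw [Finset.mul_sum]
        apply Finset.sum_congr rfl
        intro j _
        ring
      rw [h2]
      exact h1
  obtain ⟨B, hB⟩ := j8_sqrt hps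
  have hB' : Matrix.of H = B.transpose * B := by
    rw [hB, Matrix.conjTranspose_eq_transpose_of_trivial]
  have htr : ∑ i, ∑ j, ∑ l, ∑ m, D i j * H j l * D l m * H m i =
      (Matrix.of D * Matrix.of H * Matrix.of D * Matrix.of H).trace := by
    simp only [Matrix.trace, Matrix.diag_apply, Matrix.mul_apply, Matrix.of_apply]
    apply Finset.sum_congr rfl
    intro i _
    have e1 : ∀ m, (∑ l, (∑ j, D i j * H j l) * D l m) * H m i =
        ∑ l, ∑ j, D i j * H j l * D l m * H m i := by
      intro m
      rw [Finset.sum_mul]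
      apply Finset.sum_congr rfl
      intro l _
      rw [Finset.sum_mul, Finset.sum_mul]
    simp only [e1]
    calc ∑ j, ∑ l, ∑ m, D i j * H j l * D l m * H m i
        = ∑ l, ∑ j, ∑ m, D i j * H j l * D l m * H m i := Finset.sum_comm
      _ = ∑ l, ∑ m, ∑ j, D i j * H j l * D l m * H m i := by
          apply Finset.sum_congr rfl
          intro l _
          exact Finset.sum_comm
      _ = ∑ m, ∑ l, ∑ j, D i j * H j l * D l m * H m i := Finset.sum_comm
  rw [htr, hB']
  set E := B * Matrix.of D * B.transpose with hE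
  have hEs : E.transpose = E := by
    rw [hE, Matrix.transpose_mul, Matrix.transpose_mul, Matrix.transpose_transpose, Matrix.mul_assoc]
    congr 2
    ext i j
    exact hD j i
  have h3 : (Matrix.of D * (B.transpose * B) * Matrix.of D * (B.transpose * B)).trace =
      (E.transpose * E).trace := by
    rw [hEs]
    have h4 : Matrix.of D * (B.transpose * B) * Matrix.of D * (B.transpose * B) =
        (Matrix.of D * B.transpose * B * Matrix.of D * B.transpose) * B := by
      simp only [Matrix.mul_assoc]
    rw [h4, Matrix.trace_mul_comm, hE]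
    simp only [Matrix.mul_assoc]
  rw [h3]
  simp only [Matrix.trace, Matrix.diag_apply, Matrix.mul_apply, Matrix.transpose_apply]
  apply Finset.sum_nonneg
  intro i _
  apply Finset.sum_nonneg
  intro j _
  exact mul_self_nonneg _

/-- [J8d] assembly. -/
theorem soft_jet {k : ℕ} : IsJet (SH (k := k)) (ST (k := k)) (SU (k := k)) := by
  obtain ⟨b1, b2, b3, -, -, c1, c2, c3⟩ := soft_bdd (k := k)
  exact
    { H_symm := fun x => (soft_symm x).1
      T12 := fun x => (soft_symm x).2.1
      T23 := fun x => (soft_symm x).2.2.1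
      U12 := fun x => (soft_symm x).2.2.2.1
      U23 := fun x => (soft_symm x).2.2.2.2.1
      U34 := fun x => (soft_symm x).2.2.2.2.2
      bdd := ⟨26, fun x i j => (b1 x i j).trans (by norm_num),
        fun x i j l => (b2 x i j l).trans (by norm_num), b3⟩
      H_cont := c1
      T_cont := c2
      U_cont := c3
      H_deriv := fun x c i j t => SH_deriv x c i j t
      T_deriv := fun x c i j l t => ST_deriv x c i j l t
      pos := soft_pos
      nak := fun x D hD => by
        refine ⟨fun i => ∑ j, D i j * wS x j - D i i / 2, ?_⟩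
        rw [soft_nak_eq x D hD]
        have h1 := tr_nonneg (SH x) D (soft_symm x).1 (fun y => by
          by_cases hy : y = 0
          · rw [hy]
            simp
          · exact (soft_pos x y hy).le) hD
        linarith }

end Pool.Agent.SSQ
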