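import Pool.Agent.SSQ.J6
import Pool.Agent.SSQ.J8
import Pool.Agent.SSQ.J10
import Pool.Agent.SSQ.J11

set_option autoImplicit false
open MeasureTheory ProbabilityTheory Set Real

namespace Pool.Agent.SSQ
open Pool.Agent.SSC3N (gam GG TT)

private theorem j12_prob (n : ℕ) : IsProbabilityMeasure (gam n) := by
  unfold gam
  infer_instance

private theorem j12_int {k n : ℕ} (C : Fin n → Fin k → ℝ) (F : (Fin k → ℝ) → ℝ)
    (hF : Continuous F) (M : ℝ) (hM : ∀ x, |F x| ≤ M) (x : Fin k → ℝ) :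
    Integrable (fun z : Fin n → ℝ => F (x + ∑ a, z a • C a)) (gam n) := by
  have : IsProbabilityMeasure (gam n) := j12_prob n
  have hc : Continuous (fun z : Fin n → ℝ => F (x + ∑ a, z a • C a)) := by
    refine hF.comp (continuous_const.add ?_)
    exact continuous_finsetSum _ fun a _ => (continuous_apply a).smul continuous_const
  exact Integrable.of_bound hc.aestronglyMeasurable M
    (Filter.Eventually.of_forall fun z => by rw [Real.norm_eq_abs]; exact hM _)

private theorem j12_sum {n k : ℕ} {μ : Measure (Fin n → ℝ)} (G : Fin k → (Fin n → ℝ) → ℝ)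
    (hG : ∀ i, Integrable (G i) μ) :
    Integrable (fun z => ∑ i, G i z) μ ∧ ∫ z, ∑ i, G i z ∂μ = ∑ i, ∫ z, G i z ∂μ :=
  ⟨integrable_finsetSum _ fun i _ => hG i, integral_finsetSum _ fun i _ => hG i⟩

private theorem j12_avn_quad {k n : ℕ} (C : Fin n → Fin k → ℝ)
    (H : (Fin k → ℝ) → Fin k → Fin k → ℝ) (T : (Fin k → ℝ) → Fin k → Fin k → Fin k → ℝ)
    (U : (Fin k → ℝ) → Fin k → Fin k → Fin k → Fin k → ℝ) (hJ : IsJet H T U)
    (D : Fin k → Fin k → ℝ) (v : Fin k → ℝ) (x : Fin k → ℝ) :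
    avn C (fun y => quad (H y) (T y) (U y) D v) x =
      quad (fun i j => avn C (fun y => H y i j) x) (fun i j l => avn C (fun y => T y i j l) x)
        (fun i j l m => avn C (fun y => U y i j l m) x) D v := by
  obtain ⟨M, hH, hT, hU⟩ := hJ.bdd
  have iH : ∀ i j, Integrable (fun z : Fin n → ℝ => v i * v j * H (x + ∑ a, z a • C a) i j)
      (gam n) := fun i j =>
    (j12_int C (fun y => H y i j) (hJ.H_cont i j) M (fun y => hH y i j) x).const_mul _
  have iT : ∀ i j l, Integrable (fun z : Fin n → ℝ => D i j * v l *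
      T (x + ∑ a, z a • C a) i j l) (gam n) := fun i j l =>
    (j12_int C (fun y => T y i j l) (hJ.T_cont i j l) M (fun y => hT y i j l) x).const_mul _
  have iU : ∀ i j l m, Integrable (fun z : Fin n → ℝ => D i j * D l m *
      U (x + ∑ a, z a • C a) i j l m) (gam n) := fun i j l m =>
    (j12_int C (fun y => U y i j l m) (hJ.U_cont i j l m) M (fun y => hU y i j l m) x).const_mul _
  have sH := j12_sum _ fun i => (j12_sum _ fun j => iH i j).1
  have sT := j12_sum _ fun i => (j12_sum _ fun j => (j12_sum _ fun l => iT i j l).1).1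
  have sU := j12_sum _ fun i => (j12_sum _ fun j => (j12_sum _ fun l =>
    (j12_sum _ fun m => iU i j l m).1).1).1
  have i1 : Integrable (fun z : Fin n → ℝ =>
      1 / 4 * ∑ i, ∑ j, ∑ l, ∑ m, D i j * D l m * U (x + ∑ a, z a • C a) i j l m +
      ∑ i, ∑ j, ∑ l, D i j * v l * T (x + ∑ a, z a • C a) i j l) (gam n) :=
    (sU.1.const_mul (1 / 4)).add sT.1
  unfold avn quad
  beta_reduce
  rw [integral_add i1 sH.1, integral_add (sU.1.const_mul (1 / 4)) sT.1,
    integral_const_mul, sU.2, sT.2, sH.2]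
  congr 1
  · congr 1
    · congr 1
      refine Finset.sum_congr rfl fun i _ => ?_
      rw [(j12_sum _ fun j => (j12_sum _ fun l => (j12_sum _ fun m => iU i j l m).1).1).2]
      refine Finset.sum_congr rfl fun j _ => ?_
      rw [(j12_sum _ fun l => (j12_sum _ fun m => iU i j l m).1).2]
      refine Finset.sum_congr rfl fun l _ => ?_
      rw [(j12_sum _ fun m => iU i j l m).2]
      refine Finset.sum_congr rfl fun m _ => ?_
      exact integral_const_mul _ _
    · refine Finset.sum_congr rfl fun i _ => ?_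
      rw [(j12_sum _ fun j => (j12_sum _ fun l => iT i j l).1).2]
      refine Finset.sum_congr rfl fun j _ => ?_
      rw [(j12_sum _ fun l => iT i j l).2]
      refine Finset.sum_congr rfl fun l _ => ?_
      exact integral_const_mul _ _
  · refine Finset.sum_congr rfl fun i _ => ?_
    rw [(j12_sum _ fun j => iH i j).2]
    refine Finset.sum_congr rfl fun j _ => ?_
    exact integral_const_mul _ _

private theorem j12_Dm_symm {k n0 n1 : ℕ} (C0 : Fin n0 → Fin k → ℝ) (C1 : Fin n1 → Fin k → ℝ)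
    (i j : Fin k) : Dm C0 C1 i j = Dm C0 C1 j i := by
  unfold Dm
  congr 1
  · exact Finset.sum_congr rfl fun a _ => mul_comm _ _
  · exact Finset.sum_congr rfl fun a _ => mul_comm _ _

/-- [J12a] For all `s, lam` there is `v` with `E quad(pt) ≤ 0`: `soft_jet`, `jet_avn` twice (`Gm_avn`), and `quad`
is linear in `(H, T, U)` (the functions are bounded and continuous, so sums and integrals commute).
`Dm C0 C1` is symmetric. -/
theorem exists_v {k n0 n1 : ℕ} (C0 : Fin n0 → Fin k → ℝ) (C1 : Fin n1 → Fin k → ℝ) (s : ℝ)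
    (lam : Fin k → ℝ) :
    ∃ v : Fin k → ℝ, Gm C0 C1 (fun x => quad (SH x) (ST x) (SU x) (Dm C0 C1) v) s lam ≤ 0 := by
  have hJ0 : IsJet (SH (k := k)) (ST (k := k)) (SU (k := k)) := soft_jet
  have hJ1 := jet_avn (fun a => Real.sqrt s • C1 a) _ _ _ hJ0
  have hJ2 := jet_avn (fun a => Real.sqrt (1 - s) • C0 a) _ _ _ hJ1
  obtain ⟨v, hv⟩ := hJ2.nak lam (Dm C0 C1) (j12_Dm_symm C0 C1)
  refine ⟨v, ?_⟩
  rw [Gm_avn]
  have e1 : avn (fun a => Real.sqrt s • C1 a)
      (fun x => quad (SH x) (ST x) (SU x) (Dm C0 C1) v) = fun y =>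
      quad (fun i j => avn (fun a => Real.sqrt s • C1 a) (fun z => SH z i j) y)
        (fun i j l => avn (fun a => Real.sqrt s • C1 a) (fun z => ST z i j l) y)
        (fun i j l m => avn (fun a => Real.sqrt s • C1 a) (fun z => SU z i j l m) y)
        (Dm C0 C1) v := by
    funext y
    exact j12_avn_quad _ _ _ _ hJ0 _ _ _
  rw [e1]
  have e2 := j12_avn_quad (fun a => Real.sqrt (1 - s) • C0 a) _ _ _ hJ1 (Dm C0 C1) v lam
  exact e2.trans_le hv

private theorem j12_alg1 {k : ℕ} (c v : Fin k → ℝ) (S : Fin k → Fin k → ℝ)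
    (D : Fin k → Fin k → ℝ) (T : Fin k → Fin k → Fin k → ℝ) :
    ∑ i, v i * ∑ l, c l * S i l + 1 / 2 * ∑ i, ∑ j, D i j * ∑ l, c l * T i j l =
      ∑ l, c l * (∑ i, v i * S i l + 1 / 2 * ∑ i, ∑ j, D i j * T i j l) := by
  have e1 : ∑ l, c l * ∑ i, v i * S i l = ∑ i, v i * ∑ l, c l * S i l := by
    simp only [Finset.mul_sum]
    rw [Finset.sum_comm]
    exact Finset.sum_congr rfl fun i _ => Finset.sum_congr rfl fun l _ => by ring
  have e2 : ∑ l, c l * (1 / 2 * ∑ i, ∑ j, D i j * T i j l) =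
      1 / 2 * ∑ i, ∑ j, D i j * ∑ l, c l * T i j l := by
    simp only [Finset.mul_sum]
    rw [Finset.sum_comm]
    refine Finset.sum_congr rfl fun i _ => ?_
    rw [Finset.sum_comm]
    exact Finset.sum_congr rfl fun j _ => Finset.sum_congr rfl fun l _ => by ring
  simp only [mul_add, Finset.sum_add_distrib]
  rw [e1, e2]

private theorem j12_alg2 {k : ℕ} (v : Fin k → ℝ) (D : Fin k → Fin k → ℝ)
    (H : Fin k → Fin k → ℝ) (T : Fin k → Fin k → Fin k → ℝ)
    (U : Fin k → Fin k → Fin k → Fin k → ℝ) (T12 : ∀ i j l, T i j l = T j i l)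
    (T23 : ∀ i j l, T i j l = T i l j) :
    ∑ l, v l * (∑ i, v i * H i l + 1 / 2 * ∑ i, ∑ j, D i j * T i j l) +
      1 / 2 * ∑ l, ∑ m, D l m * (∑ i, v i * T i l m + 1 / 2 * ∑ i, ∑ j, D i j * U i j l m) =
      quad H T U D v := by
  have eA : ∑ l, v l * ∑ i, v i * H i l = ∑ i, ∑ j, v i * v j * H i j := by
    simp only [Finset.mul_sum]
    rw [Finset.sum_comm]
    exact Finset.sum_congr rfl fun i _ => Finset.sum_congr rfl fun l _ => by ring
  have eB1 : ∑ l, v l * (1 / 2 * ∑ i, ∑ j, D i j * T i j l) =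
      1 / 2 * ∑ i, ∑ j, ∑ l, D i j * v l * T i j l := by
    simp only [Finset.mul_sum]
    rw [Finset.sum_comm]
    refine Finset.sum_congr rfl fun i _ => ?_
    rw [Finset.sum_comm]
    exact Finset.sum_congr rfl fun j _ => Finset.sum_congr rfl fun l _ => by ring
  have eB2 : ∑ l, ∑ m, D l m * ∑ i, v i * T i l m = ∑ i, ∑ j, ∑ l, D i j * v l * T i j l := by
    refine Finset.sum_congr rfl fun l _ => Finset.sum_congr rfl fun m _ => ?_
    rw [Finset.mul_sum]
    refine Finset.sum_congr rfl fun i _ => ?_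
    rw [T12 i l m, T23 l i m]
    ring
  have eC : ∑ l, ∑ m, D l m * (1 / 2 * ∑ i, ∑ j, D i j * U i j l m) =
      1 / 2 * ∑ i, ∑ j, ∑ l, ∑ m, D i j * D l m * U i j l m := by
    have e1 : ∑ l, ∑ m, D l m * (1 / 2 * ∑ i, ∑ j, D i j * U i j l m) =
        ∑ l, ∑ m, ∑ i, ∑ j, 1 / 2 * (D i j * D l m * U i j l m) := by
      refine Finset.sum_congr rfl fun l _ => Finset.sum_congr rfl fun m _ => ?_
      simp only [Finset.mul_sum]
      exact Finset.sum_congr rfl fun i _ => Finset.sum_congr rfl fun j _ => by ring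
    rw [e1]
    simp only [Finset.mul_sum]
    have e2 : ∀ l, ∑ m, ∑ i, ∑ j, 1 / 2 * (D i j * D l m * U i j l m) =
        ∑ i, ∑ j, ∑ m, 1 / 2 * (D i j * D l m * U i j l m) := by
      intro l
      rw [Finset.sum_comm]
      refine Finset.sum_congr rfl fun i _ => ?_
      rw [Finset.sum_comm]
    rw [Finset.sum_congr rfl fun l _ => e2 l, Finset.sum_comm]
    refine Finset.sum_congr rfl fun i _ => ?_
    rw [Finset.sum_comm]
  simp only [mul_add, Finset.sum_add_distrib]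
  unfold quad
  rw [eA, eB1, eB2, eC]
  ring

private theorem j12_bd {k : ℕ} (v : Fin k → ℝ) (D : Fin k → Fin k → ℝ) (S : Fin k → ℝ)
    (T : Fin k → Fin k → ℝ) (hS : ∀ i, |S i| ≤ 26) (hT : ∀ i j, |T i j| ≤ 26) :
    |∑ i, v i * S i + 1 / 2 * ∑ i, ∑ j, D i j * T i j| ≤
      26 * (∑ i, |v i| + ∑ i, ∑ j, |D i j|) := by
  have h1 : |∑ i, v i * S i| ≤ 26 * ∑ i, |v i| := by
    rw [Finset.mul_sum]
    refine (Finset.abs_sum_le_sum_abs _ _).trans (Finset.sum_le_sum fun i _ => ?_)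
    rw [abs_mul, mul_comm]
    exact mul_le_mul_of_nonneg_right (hS i) (abs_nonneg _)
  have h2 : |∑ i, ∑ j, D i j * T i j| ≤ 26 * ∑ i, ∑ j, |D i j| := by
    rw [Finset.mul_sum]
    refine (Finset.abs_sum_le_sum_abs _ _).trans (Finset.sum_le_sum fun i _ => ?_)
    rw [Finset.mul_sum]
    refine (Finset.abs_sum_le_sum_abs _ _).trans (Finset.sum_le_sum fun j _ => ?_)
    rw [abs_mul, mul_comm]
    exact mul_le_mul_of_nonneg_right (hT i j) (abs_nonneg _)
  have h3 : |(1 / 2 : ℝ) * ∑ i, ∑ j, D i j * T i j| ≤ 26 * ∑ i, ∑ j, |D i j| := by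
    rw [abs_mul, abs_of_pos (by norm_num : (0:ℝ) < 1 / 2)]
    have h0 := abs_nonneg (∑ i, ∑ j, D i j * T i j)
    linarith
  calc |∑ i, v i * S i + 1 / 2 * ∑ i, ∑ j, D i j * T i j|
      ≤ |∑ i, v i * S i| + |(1 / 2 : ℝ) * ∑ i, ∑ j, D i j * T i j| := abs_add_le _ _
    _ ≤ 26 * (∑ i, |v i| + ∑ i, ∑ j, |D i j|) := by linarith

/-- [J12b] second derivative along the interpolation.  `heat` twice: first with `f = phi`, `g = wS`, `h = SH`,
then with `f = x ↦ ∑ v_i w_i + ½ ∑ D_ij H_ij`, `g_l = ∑_i v_i H_il + ½ ∑_ij D_ij T_ijl`,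
`h_lm = ∑_i v_i T_ilm + ½ ∑_ij D_ij U_ijlm`; the final integrand is `quad` (symmetries `soft_symm`).
In `heat` the base point is arbitrary, so the first derivative at `r` near `s` is `Gm C0 C1 f₁ r (lam + (r-s)•v)`. -/
theorem second_deriv {k n0 n1 : ℕ} (C0 : Fin n0 → Fin k → ℝ) (C1 : Fin n1 → Fin k → ℝ) (s : ℝ)
    (hs0 : 0 < s) (hs1 : s < 1) (lam v : Fin k → ℝ) :
    ∃ F1 : ℝ → ℝ, (∀ r, 0 < r → r < 1 →
        HasDerivAt (fun r : ℝ => Gm C0 C1 phi r (lam + (r - s) • v)) (F1 r) r) ∧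
      HasDerivAt F1 (Gm C0 C1 (fun x => quad (SH x) (ST x) (SU x) (Dm C0 C1) v) s lam) s := by
  obtain ⟨bH, bT, bU, cphi, cw, cH, cT, cU⟩ := soft_bdd (k := k)
  have bw : ∀ (x : Fin k → ℝ) i, |wS x i| ≤ 2 := by
    intro x i
    rw [abs_of_pos ((wS_basic x).1 i)]
    linarith [(wS_basic x).2.1 i]
  refine ⟨fun r => Gm C0 C1 (fun x => ∑ i, v i * wS x i + 1 / 2 * ∑ i, ∑ j, Dm C0 C1 i j * SH x i j)
    r (lam + (r - s) • v), ?_, ?_⟩
  · intro r hr0 hr1
    have h1 := heat C0 C1 phi wS SH 2 cphi cw cH bw bH phi_deriv wS_deriv r hr0 hr1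
      (lam + (r - s) • v) v
    have e : (fun r' : ℝ => Gm C0 C1 phi r' (lam + (r' - s) • v)) =
        fun r' : ℝ => Gm C0 C1 phi r' (lam + (r - s) • v + (r' - r) • v) := by
      funext r'
      congr 1
      rw [add_assoc, ← add_smul]
      congr 2
      ring
    rw [e]
    exact h1
  · have h1 := heat C0 C1
      (fun x => ∑ i, v i * wS x i + 1 / 2 * ∑ i, ∑ j, Dm C0 C1 i j * SH x i j)
      (fun x l => ∑ i, v i * SH x i l + 1 / 2 * ∑ i, ∑ j, Dm C0 C1 i j * ST x i j l)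
      (fun x l m => ∑ i, v i * ST x i l m + 1 / 2 * ∑ i, ∑ j, Dm C0 C1 i j * SU x i j l m)
      (26 * (∑ i, |v i| + ∑ i, ∑ j, |Dm C0 C1 i j|))
      ((continuous_finsetSum _ fun i _ => (cw i).const_mul _).add
        ((continuous_finsetSum _ fun i _ => continuous_finsetSum _ fun j _ =>
          (cH i j).const_mul _).const_mul _))
      (fun l => (continuous_finsetSum _ fun i _ => (cH i l).const_mul _).add
        ((continuous_finsetSum _ fun i _ => continuous_finsetSum _ fun j _ =>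
          (cT i j l).const_mul _).const_mul _))
      (fun l m => (continuous_finsetSum _ fun i _ => (cT i l m).const_mul _).add
        ((continuous_finsetSum _ fun i _ => continuous_finsetSum _ fun j _ =>
          (cU i j l m).const_mul _).const_mul _))
      (fun x l => j12_bd v (Dm C0 C1) (fun i => SH x i l) (fun i j => ST x i j l)
        (fun i => (bH x i l).trans (by norm_num)) (fun i j => (bT x i j l).trans (by norm_num)))
      (fun x l m => j12_bd v (Dm C0 C1) (fun i => ST x i l m) (fun i j => SU x i j l m)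
        (fun i => (bT x i l m).trans (by norm_num)) (fun i j => bU x i j l m))
      (by
        intro x c t
        have a1 := HasDerivAt.fun_sum (u := Finset.univ) (fun i _ =>
          (wS_deriv x c i t).const_mul (v i))
        have a2 := (HasDerivAt.fun_sum (u := Finset.univ) (fun i _ =>
          HasDerivAt.fun_sum (u := Finset.univ) (fun j _ =>
            (SH_deriv x c i j t).const_mul (Dm C0 C1 i j)))).const_mul (1 / 2)
        have a3 := a1.add a2
        rw [j12_alg1] at a3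
        exact a3)
      (by
        intro x c l t
        have a1 := HasDerivAt.fun_sum (u := Finset.univ) (fun i _ =>
          (SH_deriv x c i l t).const_mul (v i))
        have a2 := (HasDerivAt.fun_sum (u := Finset.univ) (fun i _ =>
          HasDerivAt.fun_sum (u := Finset.univ) (fun j _ =>
            (ST_deriv x c i j l t).const_mul (Dm C0 C1 i j)))).const_mul (1 / 2)
        have a3 := a1.add a2
        rw [j12_alg1 c v (fun i m => ST (x + t • c) i l m) (Dm C0 C1)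
          (fun i j m => SU (x + t • c) i j l m)] at a3
        exact a3)
      s hs0 hs1 lam v
    have e : (fun x : Fin k → ℝ => ∑ l, v l * (∑ i, v i * SH x i l +
        1 / 2 * ∑ i, ∑ j, Dm C0 C1 i j * ST x i j l) +
        1 / 2 * ∑ l, ∑ m, Dm C0 C1 l m * (∑ i, v i * ST x i l m +
          1 / 2 * ∑ i, ∑ j, Dm C0 C1 i j * SU x i j l m)) =
        fun x => quad (SH x) (ST x) (SU x) (Dm C0 C1) v := by
      funext x
      obtain ⟨-, T12, T23, -⟩ := soft_symm x
      exact j12_alg2 v (Dm C0 C1) (SH x) (ST x) (SU x) T12 T23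
    rw [← e]
    exact h1

private theorem j12_no_min {F F' : ℝ → ℝ} {x c : ℝ}
    (h : ∀ᶠ r in nhds x, HasDerivAt F (F' r) r) (h' : HasDerivAt F' c x) (hc : c < 0)
    (hmin : IsLocalMin F x) : False := by
  have h0 : HasDerivAt F (F' x) x := h.self_of_nhds
  have h1 : deriv F =ᶠ[nhds x] F' := h.mono fun r hr => hr.deriv
  have h2 : deriv (deriv F) x = c := h1.deriv_eq.trans h'.deriv
  have h3 : deriv F x = 0 := hmin.deriv_eq_zero
  have hmax : IsLocalMax F x :=
    isLocalMax_of_deriv_deriv_neg (by rw [h2]; exact hc) h3 h0.continuousAt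
  have h4 : F =ᶠ[nhds x] fun _ => F x := by
    filter_upwards [hmin, hmax] with y hy1 hy2
    exact le_antisymm hy2 hy1
  have h5 : deriv F =ᶠ[nhds x] deriv (fun _ => F x) := h4.deriv
  have h6 : deriv (deriv F) x = deriv (deriv (fun _ : ℝ => F x)) x := h5.deriv_eq
  rw [h2] at h6
  simp at h6
  linarith

/-- [J12c] CONCAVITY for log-sum-exp.
PROOF.  Suppose `Θ₀ := Gm phi s₀ λ₀ - (∑λ₀)/(k+1) - ((1-s₀) g0 + s₀ g1) < 0` for some `s₀ ∈ [0,1], λ₀`.  Choose
`δ > 0` with `Θ₀ + δ < 0` and put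
`Θ(s,λ) = Gm phi s λ - (∑λ)/(k+1) - ((1-s) g0 + s g1) + δ s (1-s)`; it is continuous on `[0,1] × ℝ^k`
(`Gm_phi_cont`), tends to `∞` as `λ → ∞` uniformly in `s` (`Gm_phi_coer`), so it attains its minimum over
`[0,1] × ℝ^k` at some `(s*, λ*)` (compactness of `[0,1] × {|λ_i| ≤ R}`), with negative value.  By `h0`, `h1`,
`Θ(0,λ) ≥ 0`, `Θ(1,λ) ≥ 0`, so `0 < s* < 1`.  Take `v` from `exists_v C0 C1 s* λ*` and
`F(r) = Θ(r, λ* + (r - s*) v)` on `(0,1)`: minimum at `s*`, `F' = F1(r) - (∑v)/(k+1) - (g1 - g0) + δ(1-2r)`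
(so `F'(s*) = 0`) and `F''(s*) = Gm quad - 2δ < 0` by `second_deriv`.  But `F'(s*) = 0`, `F''(s*) < 0` give
`F'(r) < 0` for `r > s*` close to `s*`, hence `F(r) < F(s*)` (strict monotonicity): contradiction.
(The case `s₀ ∈ {0,1}` is the hypothesis.) -/
theorem conc {k n0 n1 : ℕ} (C0 : Fin n0 → Fin k → ℝ) (C1 : Fin n1 → Fin k → ℝ) (g0 g1 : ℝ)
    (h0 : ∀ lam : Fin k → ℝ, g0 ≤ Gm C0 C1 phi 0 lam - (∑ j, lam j) / (k + 1))
    (h1 : ∀ lam : Fin k → ℝ, g1 ≤ Gm C0 C1 phi 1 lam - (∑ j, lam j) / (k + 1))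
    (s : ℝ) (hs0 : 0 ≤ s) (hs1 : s ≤ 1) (lam : Fin k → ℝ) :
    (1 - s) * g0 + s * g1 ≤ Gm C0 C1 phi s lam - (∑ j, lam j) / (k + 1) := by
  by_contra hcon
  push Not at hcon
  set a : ℝ := ((1 - s) * g0 + s * g1) - (Gm C0 C1 phi s lam - (∑ j, lam j) / (k + 1)) with ha
  have ha0 : 0 < a := by rw [ha]; linarith
  set Θ : ℝ × (Fin k → ℝ) → ℝ := fun p => Gm C0 C1 phi p.1 p.2 - (∑ j, p.2 j) / (k + 1) -
    ((1 - p.1) * g0 + p.1 * g1) + a * (p.1 * (1 - p.1)) with hΘ
  have hΘc : Continuous Θ := by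
    have h1 := Gm_phi_cont C0 C1
    have h2 : Continuous fun p : ℝ × (Fin k → ℝ) => ∑ j, p.2 j :=
      continuous_finsetSum _ fun j _ => (continuous_apply j).comp continuous_snd
    exact ((h1.sub (h2.div_const _)).sub (((continuous_const.sub continuous_fst).mul
      continuous_const).add (continuous_fst.mul continuous_const))).add
      (continuous_const.mul (continuous_fst.mul (continuous_const.sub continuous_fst)))
  have hk1 : (0:ℝ) < (k:ℝ) + 1 := by positivity
  set G : ℝ := |g0| + |g1| with hG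
  have hG0 : 0 ≤ G := by positivity
  have hcomb : ∀ t : ℝ, 0 ≤ t → t ≤ 1 → (1 - t) * g0 + t * g1 ≤ G := by
    intro t ht0 ht1
    have b1 := le_abs_self g0
    have b2 := le_abs_self g1
    have b3 := abs_nonneg g0
    have b4 := abs_nonneg g1
    have c1 : (1 - t) * g0 ≤ (1 - t) * |g0| := mul_le_mul_of_nonneg_left b1 (by linarith)
    have c2 : t * g1 ≤ t * |g1| := mul_le_mul_of_nonneg_left b2 ht0
    have c3 : (1 - t) * |g0| ≤ |g0| := by nlinarith
    have c4 : t * |g1| ≤ |g1| := by nlinarith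
    linarith
  have hlow : ∀ (t : ℝ) (μ : Fin k → ℝ) (i : Fin k), 0 ≤ t → t ≤ 1 →
      |μ i| / (k + 1) - G ≤ Θ (t, μ) := by
    intro t μ i ht0 ht1
    have b1 := Gm_phi_coer C0 C1 t μ i
    have b2 := hcomb t ht0 ht1
    have b3 : 0 ≤ a * (t * (1 - t)) := mul_nonneg ha0.le (mul_nonneg ht0 (by linarith))
    show |μ i| / (k + 1) - G ≤ Gm C0 C1 phi t μ - (∑ j, μ j) / (k + 1) -
      ((1 - t) * g0 + t * g1) + a * (t * (1 - t))
    linarith
  have hneg : Θ (s, lam) < 0 := by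
    show Gm C0 C1 phi s lam - (∑ j, lam j) / (k + 1) -
      ((1 - s) * g0 + s * g1) + a * (s * (1 - s)) < 0
    have b1 : s * (1 - s) ≤ 1 / 4 := by nlinarith [sq_nonneg (s - 1 / 2)]
    have b2 : a * (s * (1 - s)) ≤ a * (1 / 4) := mul_le_mul_of_nonneg_left b1 ha0.le
    have b3 : Gm C0 C1 phi s lam - (∑ j, lam j) / (k + 1) - ((1 - s) * g0 + s * g1) = -a := by
      rw [ha]; ring
    linarith
  set R : ℝ := G * (k + 1) with hR
  have hR0 : 0 ≤ R := by positivity
  have hout : ∀ (t : ℝ) (μ : Fin k → ℝ), 0 ≤ t → t ≤ 1 → Θ (t, μ) < 0 →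
      μ ∈ Set.pi Set.univ (fun _ : Fin k => Icc (-R) R) := by
    intro t μ ht0 ht1 hn i _
    have b1 := hlow t μ i ht0 ht1
    have b2 : |μ i| / (k + 1) < G := by linarith
    have b3 : |μ i| < R := by rwa [div_lt_iff₀ hk1] at b2
    exact ⟨(abs_lt.1 b3).1.le, (abs_lt.1 b3).2.le⟩
  have hcomp : IsCompact (Icc (0:ℝ) 1 ×ˢ Set.pi Set.univ (fun _ : Fin k => Icc (-R) R)) :=
    isCompact_Icc.prod (isCompact_univ_pi fun _ => isCompact_Icc)
  have hmem : (s, lam) ∈ Icc (0:ℝ) 1 ×ˢ Set.pi Set.univ (fun _ : Fin k => Icc (-R) R) :=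
    ⟨⟨hs0, hs1⟩, hout s lam hs0 hs1 hneg⟩
  obtain ⟨⟨t, μ⟩, ⟨⟨ht0, ht1⟩, hμ⟩, hmin⟩ := hcomp.exists_isMinOn ⟨_, hmem⟩ hΘc.continuousOn
  change (0:ℝ) ≤ t at ht0
  change t ≤ (1:ℝ) at ht1
  have htneg : Θ (t, μ) < 0 := lt_of_le_of_lt (hmin hmem) hneg
  have hglob : ∀ (t' : ℝ) (μ' : Fin k → ℝ), 0 ≤ t' → t' ≤ 1 → Θ (t, μ) ≤ Θ (t', μ') := by
    intro t' μ' h0' h1'
    by_cases hn : Θ (t', μ') < 0
    · exact hmin (show (t', μ') ∈ _ from ⟨⟨h0', h1'⟩, hout t' μ' h0' h1' hn⟩)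
    · linarith
  have ht0' : 0 < t := by
    rcases ht0.lt_or_eq with h | h
    · exact h
    · exfalso
      have b1 := h0 μ
      have b2 : Θ (t, μ) = Gm C0 C1 phi 0 μ - (∑ j, μ j) / (k + 1) - g0 := by
        show Gm C0 C1 phi t μ - (∑ j, μ j) / (k + 1) -
          ((1 - t) * g0 + t * g1) + a * (t * (1 - t)) = _
        rw [← h]; ring
      linarith
  have ht1' : t < 1 := by
    rcases ht1.lt_or_eq with h | h
    · exact h
    · exfalso
      have b1 := h1 μ
      have b2 : Θ (t, μ) = Gm C0 C1 phi 1 μ - (∑ j, μ j) / (k + 1) - g1 := by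
        show Gm C0 C1 phi t μ - (∑ j, μ j) / (k + 1) -
          ((1 - t) * g0 + t * g1) + a * (t * (1 - t)) = _
        rw [h]; ring
      linarith
  obtain ⟨v, hv⟩ := exists_v C0 C1 t μ
  obtain ⟨F1, hF1, hF2⟩ := second_deriv C0 C1 t ht0' ht1' μ v
  have hev : ∀ᶠ r in nhds t, r ∈ Ioo (0:ℝ) 1 := Ioo_mem_nhds ht0' ht1'
  have hsum : ∀ r : ℝ, ∑ j, (μ + (r - t) • v) j = ∑ j, μ j + (r - t) * ∑ j, v j := by
    intro r
    rw [Finset.mul_sum, ← Finset.sum_add_distrib]
    rfl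
  have hderiv : ∀ r ∈ Ioo (0:ℝ) 1, HasDerivAt (fun r : ℝ => Θ (r, μ + (r - t) • v))
      (F1 r - (∑ j, v j) / (k + 1) - (g1 - g0) + a * (1 - 2 * r)) r := by
    intro r hr
    have b1 := hF1 r hr.1 hr.2
    have b2 : HasDerivAt (fun r : ℝ => (∑ j, (μ + (r - t) • v) j) / ((k:ℝ) + 1))
        ((∑ j, v j) / (k + 1)) r := by
      have c1 : (fun r : ℝ => (∑ j, (μ + (r - t) • v) j) / ((k:ℝ) + 1)) =
          fun r : ℝ => (∑ j, μ j + (r - t) * ∑ j, v j) / ((k:ℝ) + 1) := by
        funext r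
        rw [hsum r]
      rw [c1]
      have c2 : HasDerivAt (fun r : ℝ => ∑ j, μ j + (r - t) * ∑ j, v j) (∑ j, v j) r := by
        have d1 := (((hasDerivAt_id r).sub_const t).mul_const (∑ j, v j)).const_add (∑ j, μ j)
        simpa using d1
      exact c2.div_const _
    have b3 : HasDerivAt (fun r : ℝ => (1 - r) * g0 + r * g1) (g1 - g0) r := by
      have d1 := (((hasDerivAt_id r).const_sub 1).mul_const g0).add
        ((hasDerivAt_id r).mul_const g1)
      have d2 : (-1 : ℝ) * g0 + 1 * g1 = g1 - g0 := by ring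
      rw [d2] at d1
      exact d1
    have b4 : HasDerivAt (fun r : ℝ => a * (r * (1 - r))) (a * (1 - 2 * r)) r := by
      have d1 := ((hasDerivAt_id r).mul ((hasDerivAt_id r).const_sub 1)).const_mul a
      have d2 : a * (1 * (1 - id r) + id r * -1) = a * (1 - 2 * r) := by
        simp only [id]; ring
      rw [d2] at d1
      exact d1
    exact ((b1.sub b2).sub b3).add b4
  have hder2 : HasDerivAt (fun r : ℝ => F1 r - (∑ j, v j) / (k + 1) - (g1 - g0) + a * (1 - 2 * r))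
      (Gm C0 C1 (fun x => quad (SH x) (ST x) (SU x) (Dm C0 C1) v) t μ + a * (-2)) t := by
    have b1 := (hF2.sub_const ((∑ j, v j) / ((k:ℝ) + 1))).sub_const (g1 - g0)
    have b2 : HasDerivAt (fun r : ℝ => a * (1 - 2 * r)) (a * (-2)) t := by
      have d1 := (((hasDerivAt_id t).const_mul (2:ℝ)).const_sub 1).const_mul a
      have d2 : a * -(2 * 1) = a * (-2) := by ring
      rw [d2] at d1
      exact d1
    exact b1.add b2
  refine j12_no_min (hev.mono hderiv) hder2 (by linarith) ?_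
  filter_upwards [hev] with r hr
  have e0 : (μ + (t - t) • v) = μ := by rw [sub_self, zero_smul, add_zero]
  show Θ (t, μ + (t - t) • v) ≤ Θ (r, μ + (r - t) • v)
  rw [e0]
  exact hglob r _ hr.1.le hr.2.le

end Pool.Agent.SSQ
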