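import Pool.Agent.SSQ.J12

set_option autoImplicit false
open MeasureTheory ProbabilityTheory Set Real

namespace Pool.Agent.SSQ
open Pool.Agent.SSC3N (gam GG TT)

private instance j13_prob (m : ℕ) : IsProbabilityMeasure (gam m) := by
  unfold Pool.Agent.SSC3N.gam
  infer_instance

private lemma j13_Zs {k : ℕ} (β : ℝ) (x : Fin (k + 1) → ℝ) :
    Zs (fun i : Fin k => β * (x i.succ - x 0)) =
      ∑ j : Fin (k + 1), Real.exp (β * (x j - x 0)) := by
  unfold Zs
  rw [Fin.sum_univ_succ, sub_self, mul_zero, Real.exp_zero]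

private lemma j13_mx_eq {k : ℕ} (x : Fin (k + 1) → ℝ) : ∃ j, mx x = x j := by
  obtain ⟨j, -, hj⟩ := Finset.exists_mem_eq_sup' (Finset.univ_nonempty (α := Fin (k + 1))) x
  exact ⟨j, hj⟩

private lemma j13_le_mx {k : ℕ} (x : Fin (k + 1) → ℝ) (i : Fin (k + 1)) : x i ≤ mx x :=
  Finset.le_sup' x (Finset.mem_univ i)

/-- [J13a] comparison of the maximum with log-sum-exp in reduced coordinates. -/
theorem mx_phi {k : ℕ} (β : ℝ) (hβ : 0 < β) (x : Fin (k + 1) → ℝ) :
    β * (mx x - x 0) ≤ phi (fun i : Fin k => β * (x i.succ - x 0)) ∧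
    phi (fun i : Fin k => β * (x i.succ - x 0)) ≤ β * (mx x - x 0) + Real.log (k + 1) := by
  obtain ⟨j, hj⟩ := j13_mx_eq x
  have hpos : 0 < ∑ j : Fin (k + 1), Real.exp (β * (x j - x 0)) :=
    Finset.sum_pos (fun i _ => Real.exp_pos _) Finset.univ_nonempty
  unfold phi
  rw [j13_Zs]
  constructor
  · rw [Real.le_log_iff_exp_le hpos, hj]
    exact Finset.single_le_sum (f := fun j => Real.exp (β * (x j - x 0)))
      (fun i _ => (Real.exp_pos _).le) (Finset.mem_univ j)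
  · have hk : (0:ℝ) < (k:ℝ) + 1 := by positivity
    rw [Real.log_le_iff_le_exp hpos, Real.exp_add, Real.exp_log hk]
    calc ∑ j : Fin (k + 1), Real.exp (β * (x j - x 0))
        ≤ ∑ _j : Fin (k + 1), Real.exp (β * (mx x - x 0)) := by
          refine Finset.sum_le_sum fun i _ => Real.exp_le_exp.2 ?_
          exact mul_le_mul_of_nonneg_left (sub_le_sub_right (j13_le_mx x i) _) hβ.le
      _ = Real.exp (β * (mx x - x 0)) * ((k:ℝ) + 1) := by
          rw [Finset.sum_const, Finset.card_univ, Fintype.card_fin, nsmul_eq_mul]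
          push_cast
          ring

private lemma j13_int_coord {n : ℕ} (j : Fin n) :
    Integrable (fun z : Fin n → ℝ => z j) (gam n) := by
  have h := integrable_abs_coord j
  exact (integrable_norm_iff (measurable_pi_apply j).aestronglyMeasurable).1 h

private lemma j13_pt {k n0 n1 : ℕ} (C0 : Fin n0 → Fin k → ℝ) (C1 : Fin n1 → Fin k → ℝ) (s : ℝ)
    (lam : Fin k → ℝ) (z : Fin n0 → ℝ) (z' : Fin n1 → ℝ) (i : Fin k) :
    pt C0 C1 s lam z z' i = lam i + Real.sqrt (1 - s) * (∑ a, z a * C0 a i) +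
      Real.sqrt s * (∑ a, z' a * C1 a i) := by
  simp only [pt, Pi.add_apply, Pi.smul_apply, Finset.sum_apply, smul_eq_mul]

private lemma j13_pt_cont {k n0 n1 : ℕ} (C0 : Fin n0 → Fin k → ℝ) (C1 : Fin n1 → Fin k → ℝ) (s : ℝ)
    (lam : Fin k → ℝ) :
    Continuous (fun p : (Fin n0 → ℝ) × (Fin n1 → ℝ) => pt C0 C1 s lam p.1 p.2) := by
  unfold pt
  fun_prop

private lemma j13_int_pt {k n0 n1 : ℕ} (C0 : Fin n0 → Fin k → ℝ) (C1 : Fin n1 → Fin k → ℝ) (s : ℝ)
    (lam : Fin k → ℝ) (i : Fin k) :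
    Integrable (fun p : (Fin n0 → ℝ) × (Fin n1 → ℝ) => pt C0 C1 s lam p.1 p.2 i)
      ((gam n0).prod (gam n1)) := by
  simp only [j13_pt]
  refine Integrable.add (Integrable.add (integrable_const _) ?_) ?_
  · refine Integrable.const_mul (integrable_finsetSum _ fun a _ => ?_) _
    exact (Integrable.comp_fst (j13_int_coord a) (gam n1)).mul_const _
  · refine Integrable.const_mul (integrable_finsetSum _ fun a _ => ?_) _
    exact (Integrable.comp_snd (j13_int_coord a) (gam n0)).mul_const _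

private lemma j13_int {k n0 n1 : ℕ} (C0 : Fin n0 → Fin k → ℝ) (C1 : Fin n1 → Fin k → ℝ) (s : ℝ)
    (lam : Fin k → ℝ) (f : (Fin k → ℝ) → ℝ) (hf : Continuous f) (A B : ℝ)
    (hb : ∀ x, |f x| ≤ A + B * ∑ i, |x i|) :
    Integrable (fun p : (Fin n0 → ℝ) × (Fin n1 → ℝ) => f (pt C0 C1 s lam p.1 p.2))
      ((gam n0).prod (gam n1)) := by
  have hg : Integrable (fun p : (Fin n0 → ℝ) × (Fin n1 → ℝ) =>
      A + B * ∑ i, |pt C0 C1 s lam p.1 p.2 i|) ((gam n0).prod (gam n1)) := by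
    refine Integrable.add (integrable_const _) (Integrable.const_mul ?_ _)
    exact integrable_finsetSum _ fun i _ => (j13_int_pt C0 C1 s lam i).abs
  refine Integrable.mono' hg ?_ (Filter.Eventually.of_forall fun p => ?_)
  · exact (hf.comp (j13_pt_cont C0 C1 s lam)).aestronglyMeasurable
  · rw [Real.norm_eq_abs]
    exact hb _

private lemma j13_mean {k n0 n1 : ℕ} (C0 : Fin n0 → Fin k → ℝ) (C1 : Fin n1 → Fin k → ℝ) (s : ℝ)
    (lam : Fin k → ℝ) (i : Fin k) :
    ∫ p : (Fin n0 → ℝ) × (Fin n1 → ℝ), pt C0 C1 s lam p.1 p.2 i ∂((gam n0).prod (gam n1))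
      = lam i := by
  rw [integral_prod _ (j13_int_pt C0 C1 s lam i)]
  have hin : ∀ z : Fin n0 → ℝ, ∫ z' : Fin n1 → ℝ, pt C0 C1 s lam z z' i ∂(gam n1) =
      lam i + Real.sqrt (1 - s) * (∑ a, z a * C0 a i) := by
    intro z
    simp only [j13_pt]
    rw [integral_add (integrable_const _)
      (Integrable.const_mul (integrable_finsetSum _ fun a _ => (j13_int_coord a).mul_const _) _),
      integral_const, integral_const_mul,
      integral_finsetSum _ (fun a _ => (j13_int_coord a).mul_const _)]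
    simp only [integral_mul_const, integral_coord, zero_mul, Finset.sum_const_zero, mul_zero,
      add_zero, probReal_univ, one_smul]
  simp only [hin]
  rw [integral_add (integrable_const _)
      (Integrable.const_mul (integrable_finsetSum _ fun a _ => (j13_int_coord a).mul_const _) _),
      integral_const, integral_const_mul,
      integral_finsetSum _ (fun a _ => (j13_int_coord a).mul_const _)]
  simp only [integral_mul_const, integral_coord, zero_mul, Finset.sum_const_zero, mul_zero,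
    add_zero, probReal_univ, one_smul]

private lemma j13_mx_cont {k : ℕ} : Continuous (mx (k := k)) := by
  unfold mx
  exact Continuous.finset_sup'_apply Finset.univ_nonempty fun i _ => continuous_apply i

private lemma j13_abs_le {k : ℕ} (x : Fin (k + 1) → ℝ) (j : Fin (k + 1)) :
    |x j| ≤ ∑ i, |x i| :=
  Finset.single_le_sum (f := fun i => |x i|) (fun i _ => abs_nonneg _) (Finset.mem_univ j)

private lemma j13_mx_bd {k : ℕ} (x : Fin (k + 1) → ℝ) : |mx x| ≤ 0 + 1 * ∑ i, |x i| := by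
  obtain ⟨j, hj⟩ := j13_mx_eq x
  rw [hj, zero_add, one_mul]
  exact j13_abs_le x j

private lemma j13_phi_cont {k : ℕ} (β : ℝ) :
    Continuous (fun x : Fin (k + 1) → ℝ => phi (fun i : Fin k => β * (x i.succ - x 0))) := by
  unfold phi
  refine Continuous.log ?_ fun x => ?_
  · unfold Zs
    fun_prop
  · unfold Zs
    have : 0 ≤ ∑ i : Fin k, Real.exp (β * (x i.succ - x 0)) :=
      Finset.sum_nonneg fun i _ => (Real.exp_pos _).le
    positivity

private lemma j13_phi_bd {k : ℕ} (β : ℝ) (hβ : 0 < β) (x : Fin (k + 1) → ℝ) :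
    |phi (fun i : Fin k => β * (x i.succ - x 0))| ≤ Real.log (k + 1) + (2 * β) * ∑ i, |x i| := by
  obtain ⟨h1, h2⟩ := mx_phi β hβ x
  have hlog : 0 ≤ Real.log ((k:ℝ) + 1) := Real.log_nonneg (by
    have : (0:ℝ) ≤ k := Nat.cast_nonneg k
    linarith)
  have hm := j13_mx_bd x
  rw [zero_add, one_mul] at hm
  have h0 := j13_abs_le x 0
  have h3 : |mx x - x 0| ≤ 2 * ∑ i, |x i| := by
    have := abs_sub (mx x) (x 0)
    linarith
  have h4 : |β * (mx x - x 0)| ≤ (2 * β) * ∑ i, |x i| := by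
    rw [abs_mul, abs_of_pos hβ]
    nlinarith
  have h5 := abs_le.1 h4
  rw [abs_le]
  constructor
  · linarith [h5.1]
  · linarith [h5.2]

private lemma j13_point {k n0 n1 : ℕ} (C0 : Fin n0 → Fin (k + 1) → ℝ)
    (C1 : Fin n1 → Fin (k + 1) → ℝ) (β s : ℝ) (lam : Fin (k + 1) → ℝ) (z : Fin n0 → ℝ)
    (z' : Fin n1 → ℝ) :
    pt (fun a (i : Fin k) => β * (C0 a i.succ - C0 a 0)) (fun a i => β * (C1 a i.succ - C1 a 0)) s
      (fun i : Fin k => β * (lam i.succ - lam 0)) z z' =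
      fun i : Fin k => β * (pt C0 C1 s lam z z' i.succ - pt C0 C1 s lam z z' 0) := by
  funext i
  simp only [j13_pt]
  have h0 : ∑ a, z a * (β * (C0 a i.succ - C0 a 0)) =
      β * ((∑ a, z a * C0 a i.succ) - ∑ a, z a * C0 a 0) := by
    rw [← Finset.sum_sub_distrib, Finset.mul_sum]
    exact Finset.sum_congr rfl fun a _ => by ring
  have h1 : ∑ a, z' a * (β * (C1 a i.succ - C1 a 0)) =
      β * ((∑ a, z' a * C1 a i.succ) - ∑ a, z' a * C1 a 0) := by
    rw [← Finset.sum_sub_distrib, Finset.mul_sum]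
    exact Finset.sum_congr rfl fun a _ => by ring
  rw [h0, h1]
  ring

private lemma j13_bd {k n0 n1 : ℕ} (C0 : Fin n0 → Fin (k + 1) → ℝ)
    (C1 : Fin n1 → Fin (k + 1) → ℝ) (β : ℝ) (hβ : 0 < β) (s : ℝ) (lam : Fin (k + 1) → ℝ) :
    β * (Gm C0 C1 mx s lam - lam 0) ≤
      Gm (fun a (i : Fin k) => β * (C0 a i.succ - C0 a 0)) (fun a i => β * (C1 a i.succ - C1 a 0))
        phi s (fun i : Fin k => β * (lam i.succ - lam 0)) ∧
    Gm (fun a (i : Fin k) => β * (C0 a i.succ - C0 a 0)) (fun a i => β * (C1 a i.succ - C1 a 0))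
        phi s (fun i : Fin k => β * (lam i.succ - lam 0)) ≤
      β * (Gm C0 C1 mx s lam - lam 0) + Real.log (k + 1) := by
  have hi1 := j13_int C0 C1 s lam mx j13_mx_cont 0 1 j13_mx_bd
  have hi2 := j13_int C0 C1 s lam (fun x => phi (fun i : Fin k => β * (x i.succ - x 0)))
    (j13_phi_cont β) (Real.log (k + 1)) (2 * β) (j13_phi_bd β hβ)
  have hi0 := j13_int_pt C0 C1 s lam 0
  have hG1 : Gm C0 C1 mx s lam =
      ∫ p : (Fin n0 → ℝ) × (Fin n1 → ℝ), mx (pt C0 C1 s lam p.1 p.2)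
        ∂((gam n0).prod (gam n1)) := by
    rw [integral_prod _ hi1]
    rfl
  have hG2 : Gm (fun a (i : Fin k) => β * (C0 a i.succ - C0 a 0))
      (fun a i => β * (C1 a i.succ - C1 a 0)) phi s (fun i : Fin k => β * (lam i.succ - lam 0)) =
      ∫ p : (Fin n0 → ℝ) × (Fin n1 → ℝ),
        phi (fun i : Fin k => β * (pt C0 C1 s lam p.1 p.2 i.succ - pt C0 C1 s lam p.1 p.2 0))
        ∂((gam n0).prod (gam n1)) := by
    rw [integral_prod _ hi2]
    unfold Gm
    simp only [j13_point]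
  have hmean := j13_mean C0 C1 s lam 0
  have hsub : ∫ p : (Fin n0 → ℝ) × (Fin n1 → ℝ),
      β * (mx (pt C0 C1 s lam p.1 p.2) - pt C0 C1 s lam p.1 p.2 0) ∂((gam n0).prod (gam n1)) =
      β * (Gm C0 C1 mx s lam - lam 0) := by
    rw [integral_const_mul, integral_sub hi1 hi0, hmean, hG1]
  have hi3 : Integrable (fun p : (Fin n0 → ℝ) × (Fin n1 → ℝ) =>
      β * (mx (pt C0 C1 s lam p.1 p.2) - pt C0 C1 s lam p.1 p.2 0)) ((gam n0).prod (gam n1)) :=
    (hi1.sub hi0).const_mul β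
  rw [hG2, ← hsub]
  constructor
  · exact integral_mono hi3 hi2 fun p => (mx_phi β hβ _).1
  · have h5 : ∫ p : (Fin n0 → ℝ) × (Fin n1 → ℝ),
        (β * (mx (pt C0 C1 s lam p.1 p.2) - pt C0 C1 s lam p.1 p.2 0) + Real.log (k + 1))
          ∂((gam n0).prod (gam n1)) =
        (∫ p : (Fin n0 → ℝ) × (Fin n1 → ℝ),
          β * (mx (pt C0 C1 s lam p.1 p.2) - pt C0 C1 s lam p.1 p.2 0)
          ∂((gam n0).prod (gam n1))) + Real.log (k + 1) := by
      rw [integral_add hi3 (integrable_const _), integral_const, probReal_univ, one_smul]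
    rw [← h5]
    exact integral_mono hi2 (hi3.add (integrable_const _)) fun p => (mx_phi β hβ _).2

private lemma j13_sum {k : ℕ} (β : ℝ) (lam : Fin (k + 1) → ℝ) :
    (∑ i : Fin k, β * (lam i.succ - lam 0)) / ((k:ℝ) + 1) =
      β * ((∑ j, lam j) / ((k:ℝ) + 1) - lam 0) := by
  have hk : ((k:ℝ) + 1) ≠ 0 := by positivity
  rw [← Finset.mul_sum, Finset.sum_sub_distrib, Finset.sum_const, Finset.card_univ,
    Fintype.card_fin, nsmul_eq_mul, Fin.sum_univ_succ lam]
  field_simp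
  ring

/-- [J13b] CONCAVITY for the maximum.
PROOF.  For `β > 0` put `C0β a i = β (C0 a i.succ - C0 a 0)`, `C1β` similarly (columns in `ℝ^k`).
For `x = pt C0 C1 s lam z z'`: `pt C0β C1β s (fun i => β (lam i.succ - lam 0)) z z' = fun i => β (x i.succ - x 0)`.
Integrating `mx_phi` (`∫∫ x_0 = lam 0`, `integral_coord`; integrability: `mx`, `phi` have linear growth):
with `Γβ(s,μ) = Gm C0β C1β phi s μ - (∑ μ)/(k+1)` and `μ_i = β (lam i.succ - lam 0)`,
`(∑_i μ_i)/(k+1) = β ((∑ lam)/(k+1) - lam 0)`, so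
`β (Gm C0 C1 mx s lam - (∑ lam)/(k+1)) ≤ Γβ(s,μ) ≤ β (Gm C0 C1 mx s lam - (∑ lam)/(k+1)) + log(k+1)`.
Every `μ` comes from some `lam` (`lam 0 = 0`, `lam i.succ = μ_i/β`), so `β g0 ≤ Γβ(0,μ)`, `β g1 ≤ Γβ(1,μ)` for all
`μ`; `conc` gives `(1-s) β g0 + s β g1 ≤ β (Gm mx s lam - (∑ lam)/(k+1)) + log(k+1)`.  Divide by `β`, `β → ∞`. -/
theorem conc_max {k n0 n1 : ℕ} (C0 : Fin n0 → Fin (k + 1) → ℝ) (C1 : Fin n1 → Fin (k + 1) → ℝ)
    (g0 g1 : ℝ)
    (h0 : ∀ lam : Fin (k + 1) → ℝ, g0 ≤ Gm C0 C1 mx 0 lam - (∑ j, lam j) / (k + 1))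
    (h1 : ∀ lam : Fin (k + 1) → ℝ, g1 ≤ Gm C0 C1 mx 1 lam - (∑ j, lam j) / (k + 1))
    (s : ℝ) (hs0 : 0 ≤ s) (hs1 : s ≤ 1) (lam : Fin (k + 1) → ℝ) :
    (1 - s) * g0 + s * g1 ≤ Gm C0 C1 mx s lam - (∑ j, lam j) / (k + 1) := by
  have hlog : 0 ≤ Real.log ((k:ℝ) + 1) := Real.log_nonneg (by
    have : (0:ℝ) ≤ k := Nat.cast_nonneg k
    linarith)
  -- the lower bound for all `μ`
  have hlow : ∀ (β : ℝ), 0 < β → ∀ (r g : ℝ),
      (∀ lam : Fin (k + 1) → ℝ, g ≤ Gm C0 C1 mx r lam - (∑ j, lam j) / (k + 1)) →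
      ∀ mu : Fin k → ℝ, β * g ≤ Gm (fun a (i : Fin k) => β * (C0 a i.succ - C0 a 0))
        (fun a i => β * (C1 a i.succ - C1 a 0)) phi r mu - (∑ j, mu j) / (k + 1) := by
    intro β hβ r g hg mu
    have hmu : mu = fun i : Fin k => β * ((Fin.cons 0 (fun i => mu i / β) : Fin (k + 1) → ℝ) i.succ
        - (Fin.cons 0 (fun i => mu i / β) : Fin (k + 1) → ℝ) 0) := by
      funext i
      rw [Fin.cons_succ, Fin.cons_zero, sub_zero]
      field_simp
    generalize (Fin.cons 0 (fun i => mu i / β) : Fin (k + 1) → ℝ) = l at hmu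
    subst hmu
    have hb := (j13_bd C0 C1 β hβ r l).1
    have hg' := mul_le_mul_of_nonneg_left (hg l) hβ.le
    rw [j13_sum]
    linarith
  have key : ∀ β : ℝ, 0 < β → β * ((1 - s) * g0 + s * g1) ≤
      β * (Gm C0 C1 mx s lam - (∑ j, lam j) / (k + 1)) + Real.log (k + 1) := by
    intro β hβ
    have hc := conc (fun a (i : Fin k) => β * (C0 a i.succ - C0 a 0))
      (fun a i => β * (C1 a i.succ - C1 a 0)) (β * g0) (β * g1) (hlow β hβ 0 g0 h0)
      (hlow β hβ 1 g1 h1) s hs0 hs1 (fun i : Fin k => β * (lam i.succ - lam 0))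
    rw [j13_sum] at hc
    have hb := (j13_bd C0 C1 β hβ s lam).2
    linarith
  refine le_of_forall_pos_le_add fun ε hε => ?_
  have hβ : 0 < (Real.log ((k:ℝ) + 1) + 1) / ε := by positivity
  have hk := key _ hβ
  have hε2 : (Real.log ((k:ℝ) + 1) + 1) / ε * ε = Real.log ((k:ℝ) + 1) + 1 := by
    field_simp
  have h5 : (Real.log ((k:ℝ) + 1) + 1) / ε * ((1 - s) * g0 + s * g1) ≤
      (Real.log ((k:ℝ) + 1) + 1) / ε *
        (Gm C0 C1 mx s lam - (∑ j, lam j) / (k + 1) + ε) := by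
    have h6 : (Real.log ((k:ℝ) + 1) + 1) / ε *
        (Gm C0 C1 mx s lam - (∑ j, lam j) / (k + 1) + ε) =
        (Real.log ((k:ℝ) + 1) + 1) / ε * (Gm C0 C1 mx s lam - (∑ j, lam j) / (k + 1)) +
          (Real.log ((k:ℝ) + 1) + 1) := by
      rw [mul_add, hε2]
    rw [h6]
    linarith
  exact le_of_mul_le_mul_left h5 hβ

end Pool.Agent.SSQ
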