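import Pool.Agent.SSQ.J1

set_option autoImplicit false
open MeasureTheory ProbabilityTheory Set Real

namespace Pool.Agent.SSQ
open Pool.Agent.SSC3N (gam GG TT)

private def j2B {k : ℕ} (A : Fin k → Fin k → ℝ) (u w : Fin k → ℝ) : ℝ :=
  ∑ i, ∑ j, u i * w j * A i j

private lemma j2B_symm {k : ℕ} {A : Fin k → Fin k → ℝ} (hA : ∀ i j, A i j = A j i)
    (u w : Fin k → ℝ) : j2B A u w = j2B A w u := by
  unfold j2B
  rw [Finset.sum_comm]
  exact Finset.sum_congr rfl fun i _ => Finset.sum_congr rfl fun j _ => by rw [hA i j]; ring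

private lemma j2B_eq {k : ℕ} (A : Fin k → Fin k → ℝ) (u w : Fin k → ℝ) :
    j2B A u w = ∑ i, u i * ∑ j, A i j * w j := by
  unfold j2B
  refine Finset.sum_congr rfl fun i _ => ?_
  rw [Finset.mul_sum]
  exact Finset.sum_congr rfl fun j _ => by ring

private lemma j2B_add {k : ℕ} (A : Fin k → Fin k → ℝ) (u u' w : Fin k → ℝ) :
    j2B A (fun i => u i + u' i) w = j2B A u w + j2B A u' w := by
  unfold j2B
  rw [← Finset.sum_add_distrib]
  refine Finset.sum_congr rfl fun i _ => ?_
  rw [← Finset.sum_add_distrib]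
  exact Finset.sum_congr rfl fun j _ => by ring

private lemma j2B_sub {k : ℕ} (A : Fin k → Fin k → ℝ) (u u' w : Fin k → ℝ) :
    j2B A (fun i => u i - u' i) w = j2B A u w - j2B A u' w := by
  unfold j2B
  rw [← Finset.sum_sub_distrib]
  refine Finset.sum_congr rfl fun i _ => ?_
  rw [← Finset.sum_sub_distrib]
  exact Finset.sum_congr rfl fun j _ => by ring

private lemma j2_key {k : ℕ} {M M' M'' : Fin k → Fin k → ℝ} {b b' v z z' : Fin k → ℝ} {a : ℝ}
    (hsym : ∀ i j, M i j = M j i) (hnn : ∀ y : Fin k → ℝ, 0 ≤ j2B M y y)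
    (hz' : ∀ i, ∑ j, M i j * z' j = (b i + ∑ j, M i j * v j) - ∑ j, M' i j * z j)
    (hst : ∃ y : Fin k → ℝ,
      a - 2 * ∑ i, z i * b' i + ∑ i, ∑ j, z i * z j * M'' i j
        + 2 * ∑ i, y i * (b i - ∑ j, M' i j * z j) + ∑ i, ∑ j, y i * y j * M i j ≤ 0) :
    a + 2 * ∑ i, v i * b i + ∑ i, ∑ j, v i * v j * M i j ≤
      2 * ∑ i, (z' i * b i + z i * b' i) - (2 * j2B M' z' z + j2B M'' z z)
        + 2 * ∑ i, v i * (b i + ∑ j, M i j * v j) := by
  obtain ⟨y, hy⟩ := hst
  have he : ∀ i, b i - ∑ j, M' i j * z j = ∑ j, M i j * (z' j - v j) := by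
    intro i
    have h1 : ∑ j, M i j * (z' j - v j) = ∑ j, M i j * z' j - ∑ j, M i j * v j := by
      rw [← Finset.sum_sub_distrib]
      exact Finset.sum_congr rfl fun j _ => by ring
    rw [h1, hz']
    ring
  have h1 : ∀ u : Fin k → ℝ, ∑ i, u i * (b i - ∑ j, M' i j * z j) =
      j2B M u (fun j => z' j - v j) := by
    intro u
    rw [j2B_eq]
    exact Finset.sum_congr rfl fun i _ => by rw [he]
  have h2 : ∀ u : Fin k → ℝ, ∑ i, u i * (b i - ∑ j, M' i j * z j) =
      ∑ i, u i * b i - j2B M' u z := by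
    intro u
    rw [j2B_eq, ← Finset.sum_sub_distrib]
    exact Finset.sum_congr rfl fun i _ => by ring
  have h3 : ∑ i, v i * (b i + ∑ j, M i j * v j) = ∑ i, v i * b i + j2B M v v := by
    rw [j2B_eq, ← Finset.sum_add_distrib]
    exact Finset.sum_congr rfl fun i _ => by ring
  have h4 : ∑ i, (z' i * b i + z i * b' i) = ∑ i, z' i * b i + ∑ i, z i * b' i :=
    Finset.sum_add_distrib
  have hS := hnn (fun i => y i + (z' i - v i))
  rw [j2B_add, j2B_symm hsym y, j2B_symm hsym (fun i => z' i - v i), j2B_add, j2B_add] at hS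
  have hp : j2B M (fun i => z' i - v i) (fun i => z' i - v i) =
      j2B M z' z' - 2 * j2B M z' v + j2B M v v := by
    rw [j2B_sub, j2B_symm hsym z' (fun i => z' i - v i), j2B_symm hsym v (fun i => z' i - v i),
      j2B_sub, j2B_sub, j2B_symm hsym v z']
    ring
  have hyp : j2B M (fun i => z' i - v i) y = j2B M y (fun i => z' i - v i) := j2B_symm hsym _ _
  have hzp : j2B M z' (fun j => z' j - v j) = j2B M z' z' - j2B M z' v := by
    rw [j2B_symm hsym z' (fun i => z' i - v i), j2B_sub, j2B_symm hsym v z']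
  have e1 := h1 z'
  have e2 := h2 z'
  have e3 := h1 y
  have f1 : ∑ i, ∑ j, y i * y j * M i j = j2B M y y := rfl
  have f2 : ∑ i, ∑ j, v i * v j * M i j = j2B M v v := rfl
  have f3 : ∑ i, ∑ j, z i * z j * M'' i j = j2B M'' z z := rfl
  have f4 := hnn z'
  rw [f1, f3, e3] at hy
  rw [f2, h3, h4]
  linarith

/-- [J2] MATRIX PREKOPA, one variable, compact interval.
PROOF.  `I(x) := a + 2 v·b + vᵀHv`.  Choose `v` with `∫_{-L}^L (b + H v) = 0` (possible: the matrix
`∫_{-L}^L H` is positive definite, hence invertible: `J1` or `Matrix` lemma).  Put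
`c(x) = ∫_{-L}^x (b + H v)` (so `c(-L) = c(L) = 0`, `c' = b + H v` continuous) and take `z, z'` from
`solve_deriv` (`H z = c`, `H z' = c' - H' z`).  `z(-L) = z(L) = 0` (positive definiteness).
Apply `hst x (z x)`: with `e = b - H' z` (vector), `p = z' - v`:  `H p = H z' - H v = c' - H' z - H v = e`.
For the `y` of `hst`: `2 y·e + yᵀHy = (y+p)ᵀH(y+p) - pᵀHp ≥ -pᵀHp` (symmetry, positivity), hence
  `a ≤ 2 z·b' - zᵀH''z + pᵀHp`.                                                     (1)
Let `Ψ = 2 z·b - zᵀH'z + 2 v·c` (`c = Hz`).  `Ψ' = 2 z'·b + 2 z·b' - 2 z'ᵀH'z - zᵀH''z + 2 v·c'`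
(`H'` is symmetric because `H` is: differentiate).  Then (use `c' = b + Hv`, `Hz' + H'z = b + Hv`)
  `a + 2 v·b + vᵀHv ≤ Ψ' - z'ᵀHz' ≤ Ψ'`:
by (1) it is enough that `2z·b' - zᵀH''z + (z'-v)ᵀH(z'-v) + 2v·b + vᵀHv = Ψ' - z'ᵀHz'`, i.e.
`(z'-v)ᵀH(z'-v) + 2v·b + vᵀHv = 2z'·b - 2z'ᵀH'z + 2v·(b+Hv) - z'ᵀHz'`; as `b - H'z = Hz' - Hv`,
`2z'·(b - H'z) = 2z'ᵀHz' - 2z'ᵀHv`, both sides equal `z'ᵀHz' - 2 z'ᵀHv + 2vᵀHv + 2 v·b`.
Integrate (`intervalIntegral.integral_eq_sub_of_hasDerivAt`): `∫ I ≤ Ψ(L) - Ψ(-L) = 0`. -/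
theorem nk1 {k : ℕ} (L : ℝ) (hL : 0 < L) (a : ℝ → ℝ) (b b' : ℝ → Fin k → ℝ)
    (H H' H'' : ℝ → Fin k → Fin k → ℝ)
    (ha : Continuous a) (hb' : ∀ i, Continuous (fun x => b' x i))
    (hH'' : ∀ i j, Continuous (fun x => H'' x i j))
    (hbd : ∀ x i, HasDerivAt (fun s => b s i) (b' x i) x)
    (hHd : ∀ x i j, HasDerivAt (fun s => H s i j) (H' x i j) x)
    (hH'd : ∀ x i j, HasDerivAt (fun s => H' s i j) (H'' x i j) x)
    (hsym : ∀ x i j, H x i j = H x j i)
    (hpos : ∀ x (y : Fin k → ℝ), y ≠ 0 → 0 < ∑ i, ∑ j, y i * y j * H x i j)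
    (hst : ∀ x (z : Fin k → ℝ), ∃ y : Fin k → ℝ,
      a x - 2 * ∑ i, z i * b' x i + ∑ i, ∑ j, z i * z j * H'' x i j
        + 2 * ∑ i, y i * (b x i - ∑ j, H' x i j * z j) + ∑ i, ∑ j, y i * y j * H x i j ≤ 0) :
    ∃ v : Fin k → ℝ,
      ∫ x in (-L)..L, (a x + 2 * ∑ i, v i * b x i + ∑ i, ∑ j, v i * v j * H x i j) ≤ 0 := by
  have hLL : -L ≤ L := by linarith
  have hbc : Continuous b := continuous_pi fun i =>
    continuous_iff_continuousAt.2 fun x => (hbd x i).continuousAt
  have hHc : Continuous H := continuous_pi fun i => continuous_pi fun j =>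
    continuous_iff_continuousAt.2 fun x => (hHd x i j).continuousAt
  have hH'c : Continuous H' := continuous_pi fun i => continuous_pi fun j =>
    continuous_iff_continuousAt.2 fun x => (hH'd x i j).continuousAt
  have hb'c : Continuous b' := continuous_pi hb'
  have hH''c : Continuous H'' := continuous_pi fun i => continuous_pi fun j => hH'' i j
  have hHij : ∀ i j, Continuous fun x => H x i j := fun i j => by fun_prop
  have hbi : ∀ i, Continuous fun x => b x i := fun i => by fun_prop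
  -- the choice of v
  obtain ⟨v, hv⟩ : ∃ v : Fin k → ℝ, ∀ i, ∑ j, (∫ x in (-L)..L, H x i j) * v j =
      -∫ x in (-L)..L, b x i := by
    obtain ⟨z, z', hz, -⟩ := solve_deriv (k := k) (fun _ i j => ∫ x in (-L)..L, H x i j)
      (fun _ _ _ => 0) (fun _ i => -∫ x in (-L)..L, b x i) (fun _ _ => 0)
      (fun x i j => hasDerivAt_const _ _) (fun _ _ => continuous_const)
      (fun x i => hasDerivAt_const _ _) (fun _ => continuous_const) (fun _ y hy => by
        have h1 : ∑ i, ∑ j, y i * y j * (∫ x in (-L)..L, H x i j) =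
            ∫ x in (-L)..L, ∑ i, ∑ j, y i * y j * H x i j := by
          rw [intervalIntegral.integral_finsetSum (fun i _ =>
            (Continuous.intervalIntegrable (by fun_prop) _ _))]
          refine Finset.sum_congr rfl fun i _ => ?_
          rw [intervalIntegral.integral_finsetSum (fun j _ =>
            (Continuous.intervalIntegrable (by fun_prop) _ _))]
          refine Finset.sum_congr rfl fun j _ => ?_
          rw [intervalIntegral.integral_const_mul]
        rw [h1]
        exact intervalIntegral.intervalIntegral_pos_of_pos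
          (Continuous.intervalIntegrable (by fun_prop) _ _) (fun x => hpos x y hy) (by linarith))
    exact ⟨z 0, fun i => hz 0 i⟩
  refine ⟨v, ?_⟩
  -- the primitive c
  obtain ⟨c, hc⟩ : ∃ c : ℝ → Fin k → ℝ, ∀ x i, c x i =
      ∫ s in (-L)..x, (b s i + ∑ j, H s i j * v j) := ⟨_, fun _ _ => rfl⟩
  have hcd : ∀ x i, HasDerivAt (fun s => c s i) (b x i + ∑ j, H x i j * v j) x := by
    intro x i
    have h1 : Continuous fun s => b s i + ∑ j, H s i j * v j := by fun_prop
    have h2 := (h1.integral_hasStrictDerivAt (-L) x).hasDerivAt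
    have h3 : (fun s => c s i) = fun u => ∫ s in (-L)..u, (b s i + ∑ j, H s i j * v j) := by
      funext u
      exact hc u i
    rw [h3]
    exact h2
  have hcL : ∀ i, c L i = 0 := by
    intro i
    rw [hc, intervalIntegral.integral_add (Continuous.intervalIntegrable (by fun_prop) _ _)
      (Continuous.intervalIntegrable (by fun_prop) _ _),
      intervalIntegral.integral_finsetSum (fun j _ =>
        (Continuous.intervalIntegrable (by fun_prop) _ _))]
    have h1 : ∑ j, ∫ s in (-L)..L, H s i j * v j = ∑ j, (∫ x in (-L)..L, H x i j) * v j :=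
      Finset.sum_congr rfl fun j _ => by rw [intervalIntegral.integral_mul_const]
    rw [h1, hv]
    ring
  have hcL' : ∀ i, c (-L) i = 0 := by
    intro i
    rw [hc, intervalIntegral.integral_same]
  obtain ⟨z, z', hz, hzd, hz'c, hz'⟩ := solve_deriv H H' c
    (fun x i => b x i + ∑ j, H x i j * v j) hHd (fun i j => by fun_prop) hcd
    (fun i => by fun_prop) hpos
  have hzc : Continuous z := continuous_pi fun i =>
    continuous_iff_continuousAt.2 fun x => (hzd x i).continuousAt
  have hz'c' : Continuous z' := continuous_pi hz'c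
  have hz0 : ∀ x, (∀ i, c x i = 0) → z x = 0 := by
    intro x hx
    by_contra hne
    have h1 := hpos x (z x) hne
    have h2 : ∑ i, ∑ j, z x i * z x j * H x i j = 0 := by
      have h3 := j2B_eq (H x) (z x) (z x)
      unfold j2B at h3
      rw [h3]
      refine Finset.sum_eq_zero fun i _ => ?_
      rw [hz, hx, mul_zero]
    linarith
  have hsym' : ∀ x i j, H' x i j = H' x j i := by
    intro x i j
    have h1 := hHd x i j
    have h2 : (fun s => H s i j) = fun s => H s j i := by
      funext s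
      exact hsym s i j
    rw [h2] at h1
    exact h1.unique (hHd x j i)
  have hnn : ∀ x (y : Fin k → ℝ), 0 ≤ j2B (H x) y y := by
    intro x y
    by_cases hy : y = 0
    · rw [hy]
      unfold j2B
      simp
    · exact (hpos x y hy).le
  -- the function Psi
  have hΨ : ∀ x, HasDerivAt (fun s => 2 * ∑ i, z s i * b s i - ∑ i, ∑ j, z s i * z s j * H' s i j
      + 2 * ∑ i, v i * c s i)
      (2 * ∑ i, (z' x i * b x i + z x i * b' x i)
        - (2 * j2B (H' x) (z' x) (z x) + j2B (H'' x) (z x) (z x))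
        + 2 * ∑ i, v i * (b x i + ∑ j, H x i j * v j)) x := by
    intro x
    have d1 : HasDerivAt (fun s => ∑ i, z s i * b s i)
        (∑ i, (z' x i * b x i + z x i * b' x i)) x :=
      HasDerivAt.fun_sum fun i _ => (hzd x i).mul (hbd x i)
    have d2 : HasDerivAt (fun s => ∑ i, ∑ j, z s i * z s j * H' s i j)
        (∑ i, ∑ j, ((z' x i * z x j + z x i * z' x j) * H' x i j
          + z x i * z x j * H'' x i j)) x :=
      HasDerivAt.fun_sum fun i _ => HasDerivAt.fun_sum fun j _ =>
        ((hzd x i).mul (hzd x j)).mul (hH'd x i j)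
    have d3 : HasDerivAt (fun s => ∑ i, v i * c s i)
        (∑ i, v i * (b x i + ∑ j, H x i j * v j)) x :=
      HasDerivAt.fun_sum fun i _ => (hcd x i).const_mul (v i)
    have e2 : ∑ i, ∑ j, ((z' x i * z x j + z x i * z' x j) * H' x i j
          + z x i * z x j * H'' x i j) =
        2 * j2B (H' x) (z' x) (z x) + j2B (H'' x) (z x) (z x) := by
      have e3 : ∑ i, ∑ j, ((z' x i * z x j + z x i * z' x j) * H' x i j
          + z x i * z x j * H'' x i j) = j2B (H' x) (z' x) (z x) + j2B (H' x) (z x) (z' x) +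
          j2B (H'' x) (z x) (z x) := by
        unfold j2B
        rw [← Finset.sum_add_distrib, ← Finset.sum_add_distrib]
        refine Finset.sum_congr rfl fun i _ => ?_
        rw [← Finset.sum_add_distrib, ← Finset.sum_add_distrib]
        exact Finset.sum_congr rfl fun j _ => by ring
      rw [e3, j2B_symm (hsym' x) (z x) (z' x)]
      ring
    rw [e2] at d2
    exact ((d1.const_mul 2).sub d2).add (d3.const_mul 2)
  have hΨc : Continuous fun x => 2 * ∑ i, (z' x i * b x i + z x i * b' x i)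
        - (2 * j2B (H' x) (z' x) (z x) + j2B (H'' x) (z x) (z x))
        + 2 * ∑ i, v i * (b x i + ∑ j, H x i j * v j) := by
    unfold j2B
    fun_prop
  have hint := intervalIntegral.integral_eq_sub_of_hasDerivAt (a := -L) (b := L)
    (fun x _ => hΨ x) (hΨc.intervalIntegrable _ _)
  have hle : ∫ x in (-L)..L, (a x + 2 * ∑ i, v i * b x i + ∑ i, ∑ j, v i * v j * H x i j) ≤
      ∫ x in (-L)..L, (2 * ∑ i, (z' x i * b x i + z x i * b' x i)
        - (2 * j2B (H' x) (z' x) (z x) + j2B (H'' x) (z x) (z x))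
        + 2 * ∑ i, v i * (b x i + ∑ j, H x i j * v j)) := by
    apply intervalIntegral.integral_mono hLL
    · exact Continuous.intervalIntegrable (by fun_prop) _ _
    · exact hΨc.intervalIntegrable _ _
    · intro x
      exact j2_key (hsym x) (hnn x) (hz' x) (hst x (z x))
  rw [hint] at hle
  have hzL := hz0 L hcL
  have hzL' := hz0 (-L) hcL'
  simp only [hzL, hzL', hcL, hcL', Pi.zero_apply, zero_mul, mul_zero, Finset.sum_const_zero,
    sub_self, add_zero] at hle
  exact hle

end Pool.Agent.SSQ
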