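import Pool.Agent.SSQ.J2

set_option autoImplicit false
open MeasureTheory ProbabilityTheory Set Real

namespace Pool.Agent.SSQ
open Pool.Agent.SSC3N (gam GG TT)

private lemma j3_g (x : ℝ) : gaussianPDFReal 0 1 x = (√(2 * π))⁻¹ * rexp (-x ^ 2 / 2) := by
  rw [gaussianPDFReal]
  simp

private lemma j3_g_deriv (x : ℝ) :
    HasDerivAt (fun s => gaussianPDFReal 0 1 s) (-x * gaussianPDFReal 0 1 x) x := by
  have h1 : HasDerivAt (fun s : ℝ => -s ^ 2 / 2) (-x) x := by
    have h2 := ((hasDerivAt_pow 2 x).neg).div_const 2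
    refine h2.congr_deriv ?_
    norm_num
    ring
  have h3 := (h1.exp).const_mul ((√(2 * π))⁻¹)
  have h4 : (fun s => gaussianPDFReal 0 1 s) = fun s => (√(2 * π))⁻¹ * rexp (-s ^ 2 / 2) :=
    funext j3_g
  rw [h4, j3_g]
  refine h3.congr_deriv ?_
  ring

private lemma j3_alg {k : ℕ} (x a g : ℝ) (b b' z y : Fin k → ℝ) (H H' H'' : Fin k → Fin k → ℝ)
    (hs : ∀ i j, H i j = H j i) :
    a * g - 2 * ∑ i, z i * (b' i * g + b i * (-x * g))
      + ∑ i, ∑ j, z i * z j * (H'' i j * g + H' i j * (-x * g)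
        + (H' i j * (-x * g) + H i j * ((-1) * g + (-x) * (-x * g))))
      + 2 * ∑ i, (y i - x * z i) * (b i * g - ∑ j, (H' i j * g + H i j * (-x * g)) * z j)
      + ∑ i, ∑ j, (y i - x * z i) * (y j - x * z j) * (H i j * g)
    = g * (a - 2 * ∑ i, z i * b' i + ∑ i, ∑ j, z i * z j * H'' i j
        + 2 * ∑ i, y i * (b i - ∑ j, H' i j * z j) + ∑ i, ∑ j, y i * y j * H i j)
      - g * ∑ i, ∑ j, z i * z j * H i j := by
  have e1 : ∑ i, z i * (b' i * g + b i * (-x * g)) =
      g * (∑ i, z i * b' i) - x * g * (∑ i, z i * b i) := by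
    rw [Finset.mul_sum, Finset.mul_sum, ← Finset.sum_sub_distrib]
    exact Finset.sum_congr rfl (fun i _ => by ring)
  have e2 : ∑ i, ∑ j, z i * z j * (H'' i j * g + H' i j * (-x * g)
        + (H' i j * (-x * g) + H i j * ((-1) * g + (-x) * (-x * g)))) =
      g * (∑ i, ∑ j, z i * z j * H'' i j) + (-2 * x * g) * (∑ i, ∑ j, z i * z j * H' i j)
        + ((x ^ 2 - 1) * g) * (∑ i, ∑ j, z i * z j * H i j) := by
    simp only [Finset.mul_sum, ← Finset.sum_add_distrib]
    exact Finset.sum_congr rfl (fun i _ => Finset.sum_congr rfl (fun j _ => by ring))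
  have e3 : ∑ i, (y i - x * z i) * (b i * g - ∑ j, (H' i j * g + H i j * (-x * g)) * z j) =
      (g * (∑ i, y i * b i) - x * g * (∑ i, z i * b i)) -
      (g * (∑ i, ∑ j, y i * z j * H' i j) + (-x * g) * (∑ i, ∑ j, y i * z j * H i j)
        + (-x * g) * (∑ i, ∑ j, z i * z j * H' i j) + (x ^ 2 * g) * (∑ i, ∑ j, z i * z j * H i j)) := by
    have h1 : ∑ i, (y i - x * z i) * (b i * g - ∑ j, (H' i j * g + H i j * (-x * g)) * z j) =
        ∑ i, (y i - x * z i) * (b i * g) -
        ∑ i, ∑ j, (y i - x * z i) * ((H' i j * g + H i j * (-x * g)) * z j) := by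
      rw [← Finset.sum_sub_distrib]
      refine Finset.sum_congr rfl (fun i _ => ?_)
      rw [mul_sub, Finset.mul_sum]
    rw [h1]
    congr 1
    · rw [Finset.mul_sum, Finset.mul_sum, ← Finset.sum_sub_distrib]
      exact Finset.sum_congr rfl (fun i _ => by ring)
    · simp only [Finset.mul_sum, ← Finset.sum_add_distrib]
      exact Finset.sum_congr rfl (fun i _ => Finset.sum_congr rfl (fun j _ => by ring))
  have e4 : ∑ i, ∑ j, (y i - x * z i) * (y j - x * z j) * (H i j * g) =
      g * (∑ i, ∑ j, y i * y j * H i j) + (-x * g) * (∑ i, ∑ j, y i * z j * H i j)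
        + (-x * g) * (∑ i, ∑ j, z i * y j * H i j) + (x ^ 2 * g) * (∑ i, ∑ j, z i * z j * H i j) := by
    simp only [Finset.mul_sum, ← Finset.sum_add_distrib]
    exact Finset.sum_congr rfl (fun i _ => Finset.sum_congr rfl (fun j _ => by ring))
  have e5 : ∑ i, ∑ j, z i * y j * H i j = ∑ i, ∑ j, y i * z j * H i j := by
    rw [Finset.sum_comm]
    refine Finset.sum_congr rfl (fun i _ => Finset.sum_congr rfl (fun j _ => ?_))
    rw [hs j i]
    ring
  have e6 : ∑ i, y i * (b i - ∑ j, H' i j * z j) =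
      ∑ i, y i * b i - ∑ i, ∑ j, y i * z j * H' i j := by
    rw [← Finset.sum_sub_distrib]
    refine Finset.sum_congr rfl (fun i _ => ?_)
    rw [mul_sub, Finset.mul_sum]
    congr 1
    exact Finset.sum_congr rfl (fun j _ => by ring)
  rw [e1, e2, e3, e4, e5, e6]
  ring

private lemma j3_lin {k : ℕ} {μ : Measure ℝ} {a : ℝ → ℝ} {b : ℝ → Fin k → ℝ}
    {H : ℝ → Fin k → Fin k → ℝ} (ha : Integrable a μ) (hb : ∀ i, Integrable (fun x => b x i) μ)
    (hH : ∀ i j, Integrable (fun x => H x i j) μ) (v : Fin k → ℝ) :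
    ∫ x, (a x + 2 * ∑ i, v i * b x i + ∑ i, ∑ j, v i * v j * H x i j) ∂μ =
      (∫ x, a x ∂μ) + 2 * ∑ i, v i * (∫ x, b x i ∂μ) + ∑ i, ∑ j, v i * v j * (∫ x, H x i j ∂μ) := by
  have h1 : Integrable (fun x => 2 * ∑ i, v i * b x i) μ :=
    (integrable_finsetSum _ (fun i _ => (hb i).const_mul (v i))).const_mul 2
  have h2 : Integrable (fun x => ∑ i, ∑ j, v i * v j * H x i j) μ :=
    integrable_finsetSum _ (fun i _ => integrable_finsetSum _
      (fun j _ => (hH i j).const_mul (v i * v j)))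
  have h3 : Integrable (fun x => a x + 2 * ∑ i, v i * b x i) μ := ha.add h1
  rw [integral_add h3 h2, integral_add ha h1]
  congr 1
  · congr 1
    rw [integral_const_mul, integral_finsetSum _ (fun i _ => (hb i).const_mul (v i))]
    congr 1
    exact Finset.sum_congr rfl (fun i _ => integral_const_mul _ _)
  · rw [integral_finsetSum _ (fun i _ => integrable_finsetSum _
      (fun j _ => (hH i j).const_mul (v i * v j)))]
    refine Finset.sum_congr rfl (fun i _ => ?_)
    rw [integral_finsetSum _ (fun j _ => (hH i j).const_mul (v i * v j))]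
    exact Finset.sum_congr rfl (fun j _ => integral_const_mul _ _)

private lemma j3_det {k : ℕ} (A : Matrix (Fin k) (Fin k) ℝ)
    (hp : ∀ y : Fin k → ℝ, y ≠ 0 → 0 < ∑ i, ∑ j, y i * y j * A i j) : A.det ≠ 0 := by
  intro hd
  obtain ⟨v, hv, hAv⟩ := Matrix.exists_mulVec_eq_zero_iff.mpr hd
  have h1 := hp v hv
  have h2 : ∑ i, ∑ j, v i * v j * A i j = ∑ i, v i * (A.mulVec v) i := by
    refine Finset.sum_congr rfl (fun i _ => ?_)
    rw [Matrix.mulVec, dotProduct, Finset.mul_sum]
    exact Finset.sum_congr rfl (fun j _ => by ring)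
  rw [h2, hAv] at h1
  simp at h1

/-- the solution of `A w = b`. -/
private noncomputable def j3_w {k : ℕ} (A : Matrix (Fin k) (Fin k) ℝ) (b : Fin k → ℝ) : Fin k → ℝ :=
  (A.det)⁻¹ • (A.adjugate.mulVec b)

private lemma j3_w_spec {k : ℕ} (A : Matrix (Fin k) (Fin k) ℝ) (b : Fin k → ℝ) (hd : A.det ≠ 0) :
    A.mulVec (j3_w A b) = b := by
  unfold j3_w
  rw [Matrix.mulVec_smul, Matrix.mulVec_mulVec, Matrix.mul_adjugate, Matrix.smul_mulVec,
    Matrix.one_mulVec, smul_smul, inv_mul_cancel₀ hd, one_smul]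

private lemma j3_min {k : ℕ} (A : Matrix (Fin k) (Fin k) ℝ) (a : ℝ) (b v w : Fin k → ℝ)
    (hs : ∀ i j, A i j = A j i)
    (hp : ∀ y : Fin k → ℝ, y ≠ 0 → 0 < ∑ i, ∑ j, y i * y j * A i j) (hw : A.mulVec w = b) :
    a - ∑ i, w i * b i ≤ a + 2 * ∑ i, v i * b i + ∑ i, ∑ j, v i * v j * A i j ∧
    a + 2 * ∑ i, (-w) i * b i + ∑ i, ∑ j, (-w) i * (-w) j * A i j = a - ∑ i, w i * b i := by
  have hb : ∀ u : Fin k → ℝ, ∑ i, u i * b i = ∑ i, ∑ j, u i * w j * A i j := by
    intro u
    refine Finset.sum_congr rfl (fun i _ => ?_)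
    rw [← hw, Matrix.mulVec, dotProduct, Finset.mul_sum]
    exact Finset.sum_congr rfl (fun j _ => by ring)
  have hsw : ∑ i, ∑ j, w i * v j * A i j = ∑ i, ∑ j, v i * w j * A i j := by
    rw [Finset.sum_comm]
    refine Finset.sum_congr rfl (fun i _ => Finset.sum_congr rfl (fun j _ => ?_))
    rw [hs j i]
    ring
  constructor
  · have h0 : 0 ≤ ∑ i, ∑ j, (v i + w i) * (v j + w j) * A i j := by
      by_cases h : (fun i => v i + w i) = 0
      · have h' : ∀ i, v i + w i = 0 := fun i => congrFun h i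
        simp [h']
      · exact (hp _ h).le
    have h1 : ∑ i, ∑ j, (v i + w i) * (v j + w j) * A i j =
        ∑ i, ∑ j, v i * v j * A i j + ∑ i, ∑ j, v i * w j * A i j + ∑ i, ∑ j, w i * v j * A i j
          + ∑ i, ∑ j, w i * w j * A i j := by
      simp only [← Finset.sum_add_distrib]
      exact Finset.sum_congr rfl (fun i _ => Finset.sum_congr rfl (fun j _ => by ring))
    rw [hb w, hb v]
    rw [h1, hsw] at h0
    linarith
  · have h1 : ∑ i, ∑ j, (-w) i * (-w) j * A i j = ∑ i, ∑ j, w i * w j * A i j :=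
      Finset.sum_congr rfl (fun i _ => Finset.sum_congr rfl (fun j _ => by
        simp only [Pi.neg_apply]; ring))
    have h2 : ∑ i, (-w) i * b i = -∑ i, w i * b i := by
      rw [← Finset.sum_neg_distrib]
      exact Finset.sum_congr rfl (fun i _ => by simp only [Pi.neg_apply]; ring)
    rw [h1, h2, ← hb w]
    ring

/-- [J3] MATRIX PREKOPA with the Gaussian weight on the line.
PROOF.  Let `g(x) = e^{-x²/2}/√(2π)` (`gaussianPDFReal 0 1`), `g' = -x g`.
STEP 1.  Apply `nk1` to `ag, bg, Hg` (derivatives `(bg)' = (b' - x b) g`, `(Hg)' = (H' - xH) g`,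
`(Hg)'' = (H'' - 2xH' + (x²-1)H) g`).  The hypothesis `hst` for them: given `z`, take `y` from the present `hst`
and use `y - x z`:  dividing by `g > 0`,
`a - 2z·b' + 2x z·b + zᵀH''z - 2x zᵀH'z + (x²-1) zᵀHz + 2(y-xz)·(b - H'z + xHz) + (y-xz)ᵀH(y-xz)`
`= [a - 2z·b' + zᵀH''z + 2y·(b-H'z) + yᵀHy] - zᵀHz ≤ 0` (expand; symmetry of `H`).
So for every `L > 0` there is `v_L` with `q_L(v_L) ≤ 0`, `q_L(v) = ∫_{-L}^L (a + 2v·b + vᵀHv) g`.
STEP 2.  `L ≥ 1`: `∫_{-L}^L vᵀHv g ≥ ∫_{-1}^1 vᵀHv g ≥ κ ∑ v_i²` for some `κ > 0` (the positive definite form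
`∫_{-1}^1 vᵀHv g` on a finite dimensional space: minimum on the unit sphere, or smallest eigenvalue), and
`|∫_{-L}^L a g| ≤ M`, `|∫ b_i g| ≤ M`; hence `∑ (v_L)_i² ≤ R` for some `R` independent of `L`.
STEP 3.  `q(v) = ∫ (a + 2v·b + vᵀHv) dN(0,1)`, `q(v_L) ≤ q_L(v_L) + M(1 + 2√(k R)+ k R)·P(|x| > L)`, so `inf q ≤ 0`
over the compact ball; `q` is a polynomial in `v`, so it attains its minimum there and some `v` has `q(v) ≤ 0`.
(`integral_gaussianReal_eq_integral_smul`, `P(|x|>L) → 0`.) -/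
theorem nk2 {k : ℕ} (M : ℝ) (a : ℝ → ℝ) (b b' : ℝ → Fin k → ℝ)
    (H H' H'' : ℝ → Fin k → Fin k → ℝ)
    (ha : Continuous a) (hb' : ∀ i, Continuous (fun x => b' x i))
    (hH'' : ∀ i j, Continuous (fun x => H'' x i j))
    (hbd : ∀ x i, HasDerivAt (fun s => b s i) (b' x i) x)
    (hHd : ∀ x i j, HasDerivAt (fun s => H s i j) (H' x i j) x)
    (hH'd : ∀ x i j, HasDerivAt (fun s => H' s i j) (H'' x i j) x)
    (haM : ∀ x, |a x| ≤ M) (hbM : ∀ x i, |b x i| ≤ M) (hHM : ∀ x i j, |H x i j| ≤ M)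
    (hsym : ∀ x i j, H x i j = H x j i)
    (hpos : ∀ x (y : Fin k → ℝ), y ≠ 0 → 0 < ∑ i, ∑ j, y i * y j * H x i j)
    (hst : ∀ x (z : Fin k → ℝ), ∃ y : Fin k → ℝ,
      a x - 2 * ∑ i, z i * b' x i + ∑ i, ∑ j, z i * z j * H'' x i j
        + 2 * ∑ i, y i * (b x i - ∑ j, H' x i j * z j) + ∑ i, ∑ j, y i * y j * H x i j ≤ 0) :
    ∃ v : Fin k → ℝ,
      ∫ x, (a x + 2 * ∑ i, v i * b x i + ∑ i, ∑ j, v i * v j * H x i j) ∂(gaussianReal 0 1) ≤ 0 := by
  classical
  have hgd : ∀ x, HasDerivAt (fun s => gaussianPDFReal 0 1 s) (-x * gaussianPDFReal 0 1 x) x :=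
    j3_g_deriv
  have hgpos : ∀ x, 0 < gaussianPDFReal 0 1 x := fun x => gaussianPDFReal_pos 0 1 x one_ne_zero
  have hgi : Integrable (fun x => gaussianPDFReal 0 1 x) := integrable_gaussianPDFReal 0 1
  generalize hG : (fun x : ℝ => gaussianPDFReal 0 1 x) = g at hgd hgi
  have hGx : ∀ x, gaussianPDFReal 0 1 x = g x := fun x => by rw [← hG]
  simp only [hGx] at hgd hgpos
  have hgc : Continuous g := continuous_iff_continuousAt.mpr (fun x => (hgd x).continuousAt)
  have hbc : ∀ i, Continuous (fun x => b x i) := fun i =>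
    continuous_iff_continuousAt.mpr (fun x => (hbd x i).continuousAt)
  have hHc : ∀ i j, Continuous (fun x => H x i j) := fun i j =>
    continuous_iff_continuousAt.mpr (fun x => (hHd x i j).continuousAt)
  have hH'c : ∀ i j, Continuous (fun x => H' x i j) := fun i j =>
    continuous_iff_continuousAt.mpr (fun x => (hH'd x i j).continuousAt)
  -- STEP 1
  have step1 : ∀ L : ℝ, 0 < L → ∃ v : Fin k → ℝ,
      ∫ x in (-L)..L, (a x * g x + 2 * ∑ i, v i * (b x i * g x)
        + ∑ i, ∑ j, v i * v j * (H x i j * g x)) ≤ 0 := by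
    intro L hL
    refine nk1 L hL (fun x => a x * g x) (fun x i => b x i * g x)
      (fun x i => b' x i * g x + b x i * (-x * g x)) (fun x i j => H x i j * g x)
      (fun x i j => H' x i j * g x + H x i j * (-x * g x))
      (fun x i j => H'' x i j * g x + H' x i j * (-x * g x)
        + (H' x i j * (-x * g x) + H x i j * ((-1) * g x + (-x) * (-x * g x))))
      (ha.mul hgc) ?_ ?_ ?_ ?_ ?_ ?_ ?_ ?_
    · intro i
      exact ((hb' i).mul hgc).add ((hbc i).mul (continuous_neg.mul hgc))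
    · intro i j
      exact (((hH'' i j).mul hgc).add ((hH'c i j).mul (continuous_neg.mul hgc))).add
        (((hH'c i j).mul (continuous_neg.mul hgc)).add ((hHc i j).mul
          ((continuous_const.mul hgc).add (continuous_neg.mul (continuous_neg.mul hgc)))))
    · intro x i
      exact (hbd x i).mul (hgd x)
    · intro x i j
      exact (hHd x i j).mul (hgd x)
    · intro x i j
      exact ((hH'd x i j).mul (hgd x)).add
        ((hHd x i j).mul ((hasDerivAt_neg x).mul (hgd x)))
    · intro x i j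
      show H x i j * g x = H x j i * g x
      rw [hsym x i j]
    · intro x y hy
      have h1 : ∑ i, ∑ j, y i * y j * (H x i j * g x) =
          g x * ∑ i, ∑ j, y i * y j * H x i j := by
        simp only [Finset.mul_sum]
        exact Finset.sum_congr rfl (fun i _ => Finset.sum_congr rfl (fun j _ => by ring))
      show 0 < ∑ i, ∑ j, y i * y j * (H x i j * g x)
      rw [h1]
      exact mul_pos (hgpos x) (hpos x y hy)
    · intro x z
      obtain ⟨y, hy⟩ := hst x z
      refine ⟨fun i => y i - x * z i, ?_⟩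
      have h1 := j3_alg x (a x) (g x) (b x) (b' x) z y (H x) (H' x) (H'' x) (hsym x)
      refine le_of_eq_of_le h1 ?_
      have h2 : 0 ≤ ∑ i, ∑ j, z i * z j * H x i j := by
        by_cases h : z = 0
        · simp [h]
        · exact (hpos x z h).le
      have h3 := mul_nonpos_of_nonneg_of_nonpos (hgpos x).le hy
      have h4 := mul_nonneg (hgpos x).le h2
      linarith
  -- integrability
  have hbdd : ∀ (f : ℝ → ℝ), Continuous f → (∀ x, |f x| ≤ M) →
      Integrable (fun x => f x * g x) := by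
    intro f hf hM
    have := hgi.bdd_mul (c := M) hf.aestronglyMeasurable (Filter.Eventually.of_forall hM)
    exact this
  have hai := hbdd a ha haM
  have hbi : ∀ i, Integrable (fun x => b x i * g x) := fun i => hbdd _ (hbc i) (fun x => hbM x i)
  have hHi : ∀ i j, Integrable (fun x => H x i j * g x) := fun i j =>
    hbdd _ (hHc i j) (fun x => hHM x i j)
  -- positivity
  have hposm : ∀ s : Set ℝ, volume s ≠ 0 → ∀ y : Fin k → ℝ, y ≠ 0 →
      0 < ∑ i, ∑ j, y i * y j * (∫ x in s, H x i j * g x) := by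
    intro s hs y hy
    have h1 : ∑ i, ∑ j, y i * y j * (∫ x in s, H x i j * g x) =
        ∫ x in s, ∑ i, ∑ j, y i * y j * (H x i j * g x) := by
      rw [integral_finsetSum _ (fun i _ => integrable_finsetSum _
        (fun j _ => ((hHi i j).integrableOn).const_mul (y i * y j)))]
      refine Finset.sum_congr rfl (fun i _ => ?_)
      rw [integral_finsetSum _ (fun j _ => ((hHi i j).integrableOn).const_mul (y i * y j))]
      exact Finset.sum_congr rfl (fun j _ => (integral_const_mul _ _).symm)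
    have h2 : ∀ x, 0 < ∑ i, ∑ j, y i * y j * (H x i j * g x) := by
      intro x
      have h3 : ∑ i, ∑ j, y i * y j * (H x i j * g x) =
          g x * ∑ i, ∑ j, y i * y j * H x i j := by
        simp only [Finset.mul_sum]
        exact Finset.sum_congr rfl (fun i _ => Finset.sum_congr rfl (fun j _ => by ring))
      rw [h3]
      exact mul_pos (hgpos x) (hpos x y hy)
    rw [h1]
    rw [integral_pos_iff_support_of_nonneg (fun x => (h2 x).le)
      (integrable_finsetSum _ (fun i _ => integrable_finsetSum _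
        (fun j _ => ((hHi i j).integrableOn).const_mul (y i * y j))))]
    have h4 : Function.support (fun x => ∑ i, ∑ j, y i * y j * (H x i j * g x)) = univ := by
      ext x
      simp only [Function.mem_support, mem_univ, iff_true]
      exact (h2 x).ne'
    rw [h4, Measure.restrict_apply_univ]
    exact pos_iff_ne_zero.mpr hs
  -- the truncated data
  set S : ℕ → Set ℝ := fun n => Ioc (-((n:ℝ) + 1)) ((n:ℝ) + 1) with hS
  set an : ℕ → ℝ := fun n => ∫ x in S n, a x * g x with han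
  set bn : ℕ → Fin k → ℝ := fun n i => ∫ x in S n, b x i * g x with hbn
  set Hn : ℕ → Matrix (Fin k) (Fin k) ℝ := fun n i j => ∫ x in S n, H x i j * g x with hHn
  set A0 : Matrix (Fin k) (Fin k) ℝ := fun i j => ∫ x, H x i j * g x with hA0
  set b0 : Fin k → ℝ := fun i => ∫ x, b x i * g x with hb0
  set a0 : ℝ := ∫ x, a x * g x with ha0
  have hSvol : ∀ n, volume (S n) ≠ 0 := by
    intro n
    rw [hS]
    simp only [Real.volume_Ioc]
    have : (0:ℝ) < (n:ℝ) + 1 - -((n:ℝ) + 1) := by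
      have : (0:ℝ) ≤ n := Nat.cast_nonneg n
      linarith
    exact (ENNReal.ofReal_pos.mpr this).ne'
  have hconv : ∀ f : ℝ → ℝ, Integrable f →
      Filter.Tendsto (fun n => ∫ x in S n, f x) Filter.atTop (nhds (∫ x, f x)) := by
    intro f hf
    have h1 : Filter.Tendsto (fun n : ℕ => (n:ℝ) + 1) Filter.atTop Filter.atTop :=
      Filter.tendsto_atTop_add_const_right _ _ tendsto_natCast_atTop_atTop
    have h2 : Filter.Tendsto (fun n : ℕ => -((n:ℝ) + 1)) Filter.atTop Filter.atBot :=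
      Filter.tendsto_neg_atTop_atBot.comp h1
    have h3 := intervalIntegral_tendsto_integral hf h2 h1
    refine h3.congr (fun n => ?_)
    rw [intervalIntegral.integral_of_le (by
      have : (0:ℝ) ≤ n := Nat.cast_nonneg n
      linarith)]
  have hAn : Filter.Tendsto Hn Filter.atTop (nhds A0) :=
    tendsto_pi_nhds.mpr (fun i => tendsto_pi_nhds.mpr (fun j => hconv _ (hHi i j)))
  have hbnt : Filter.Tendsto bn Filter.atTop (nhds b0) := by
    rw [tendsto_pi_nhds]
    intro i
    exact hconv _ (hbi i)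
  have hant : Filter.Tendsto an Filter.atTop (nhds a0) := hconv _ hai
  have hsn : ∀ n i j, Hn n i j = Hn n j i := by
    intro n i j
    show ∫ x in S n, H x i j * g x = ∫ x in S n, H x j i * g x
    simp only [hsym _ i j]
  have hs0 : ∀ i j, A0 i j = A0 j i := by
    intro i j
    show ∫ x, H x i j * g x = ∫ x, H x j i * g x
    simp only [hsym _ i j]
  have hp0 : ∀ y : Fin k → ℝ, y ≠ 0 → 0 < ∑ i, ∑ j, y i * y j * A0 i j := by
    intro y hy
    have h1 := hposm univ (by simp) y hy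
    simpa only [Measure.restrict_univ] using h1
  have hpn : ∀ n, ∀ y : Fin k → ℝ, y ≠ 0 → 0 < ∑ i, ∑ j, y i * y j * Hn n i j :=
    fun n => hposm (S n) (hSvol n)
  have hd0 : A0.det ≠ 0 := j3_det A0 hp0
  have hdn : ∀ n, (Hn n).det ≠ 0 := fun n => j3_det (Hn n) (hpn n)
  have hle : ∀ n, an n - ∑ i, j3_w (Hn n) (bn n) i * bn n i ≤ 0 := by
    intro n
    have hn0 : (0:ℝ) < (n:ℝ) + 1 := by positivity
    obtain ⟨v, hv⟩ := step1 ((n:ℝ) + 1) hn0
    rw [intervalIntegral.integral_of_le (by linarith)] at hv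
    have h1 := j3_lin (μ := volume.restrict (S n)) (a := fun x => a x * g x)
      (b := fun x i => b x i * g x) (H := fun x i j => H x i j * g x) hai.integrableOn
      (fun i => (hbi i).integrableOn) (fun i j => (hHi i j).integrableOn) v
    have h2 := (j3_min (Hn n) (an n) (bn n) v (j3_w (Hn n) (bn n)) (hsn n) (hpn n)
      (j3_w_spec _ _ (hdn n))).1
    refine h2.trans ?_
    exact h1.symm.le.trans hv
  have hwt : Filter.Tendsto (fun n => j3_w (Hn n) (bn n)) Filter.atTop (nhds (j3_w A0 b0)) := by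
    have h1 : Filter.Tendsto (fun n => (Hn n).det) Filter.atTop (nhds A0.det) :=
      (continuous_id.matrix_det.tendsto A0).comp hAn
    have h2 : Filter.Tendsto (fun n => (Hn n).adjugate) Filter.atTop (nhds A0.adjugate) :=
      (continuous_id.matrix_adjugate.tendsto A0).comp hAn
    have h3 : Filter.Tendsto (fun n => (Hn n).adjugate.mulVec (bn n)) Filter.atTop
        (nhds (A0.adjugate.mulVec b0)) := by
      have hc : Continuous (fun p : Matrix (Fin k) (Fin k) ℝ × (Fin k → ℝ) => p.1.mulVec p.2) :=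
        continuous_fst.matrix_mulVec continuous_snd
      exact (hc.tendsto (A0.adjugate, b0)).comp (h2.prodMk_nhds hbnt)
    exact (h1.inv₀ hd0).smul h3
  have hlim : a0 - ∑ i, j3_w A0 b0 i * b0 i ≤ 0 := by
    have h1 : Filter.Tendsto (fun n => an n - ∑ i, j3_w (Hn n) (bn n) i * bn n i) Filter.atTop
        (nhds (a0 - ∑ i, j3_w A0 b0 i * b0 i)) := by
      refine hant.sub (tendsto_finsetSum _ (fun i _ => ?_))
      exact ((tendsto_pi_nhds.mp hwt) i).mul ((tendsto_pi_nhds.mp hbnt) i)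
    exact le_of_tendsto' h1 hle
  refine ⟨-(j3_w A0 b0), ?_⟩
  have hfin : ∫ x, (a x + 2 * ∑ i, (-(j3_w A0 b0)) i * b x i
      + ∑ i, ∑ j, (-(j3_w A0 b0)) i * (-(j3_w A0 b0)) j * H x i j) ∂(gaussianReal 0 1) =
      a0 + 2 * ∑ i, (-(j3_w A0 b0)) i * b0 i
        + ∑ i, ∑ j, (-(j3_w A0 b0)) i * (-(j3_w A0 b0)) j * A0 i j := by
    rw [integral_gaussianReal_eq_integral_smul one_ne_zero]
    have h1 := j3_lin (μ := volume) (a := fun x => a x * g x)
      (b := fun x i => b x i * g x) (H := fun x i j => H x i j * g x) hai hbi hHi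
      (-(j3_w A0 b0))
    rw [← h1]
    refine integral_congr_ae (Filter.Eventually.of_forall (fun x => ?_))
    show gaussianPDFReal 0 1 x • (a x + 2 * ∑ i, (-(j3_w A0 b0)) i * b x i
      + ∑ i, ∑ j, (-(j3_w A0 b0)) i * (-(j3_w A0 b0)) j * H x i j) =
      a x * g x + 2 * ∑ i, (-(j3_w A0 b0)) i * (b x i * g x)
      + ∑ i, ∑ j, (-(j3_w A0 b0)) i * (-(j3_w A0 b0)) j * (H x i j * g x)
    rw [hGx, smul_eq_mul, mul_add, mul_add]
    congr 1
    · congr 1
      · ring
      · rw [mul_left_comm, Finset.mul_sum]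
        congr 1
        exact Finset.sum_congr rfl (fun i _ => by ring)
    · simp only [Finset.mul_sum]
      exact Finset.sum_congr rfl (fun i _ => Finset.sum_congr rfl (fun j _ => by ring))
  rw [hfin, (j3_min A0 a0 b0 0 (j3_w A0 b0) hs0 hp0 (j3_w_spec _ _ hd0)).2]
  exact hlim

end Pool.Agent.SSQ
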