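import Pool.Agent.SSQ.Defs

set_option autoImplicit false
open MeasureTheory ProbabilityTheory Set Real

namespace Pool.Agent.SSQ
open Pool.Agent.SSC3N (gam GG TT)

/-- [J4a] Gaussian averages of bounded continuous functions are continuous (dominated convergence,
`continuous_of_dominated`) and bounded. -/
theorem av1_cont {k : ℕ} (c : Fin k → ℝ) (F : (Fin k → ℝ) → ℝ) (M : ℝ) (hF : Continuous F)
    (hM : ∀ x, |F x| ≤ M) : Continuous (av1 c F) ∧ ∀ x, |av1 c F x| ≤ M := by
  constructor
  · change Continuous fun x => ∫ u : ℝ, F (x + u • c) ∂(gaussianReal 0 1)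
    apply continuous_of_dominated (bound := fun _ => M)
    · intro x
      exact (hF.comp (by fun_prop)).aestronglyMeasurable
    · intro x
      exact Filter.Eventually.of_forall fun u => hM _
    · exact integrable_const M
    · exact Filter.Eventually.of_forall fun u => hF.comp (by fun_prop)
  · intro x
    have h1 := norm_integral_le_of_norm_le_const (μ := gaussianReal 0 1)
      (f := fun u : ℝ => F (x + u • c)) (C := M) (Filter.Eventually.of_forall fun u => hM _)
    rw [probReal_univ, mul_one] at h1
    exact h1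

/-- [J4b] derivative under the average (`hasDerivAt_integral_of_dominated_loc_of_deriv_le`; the integrand is
`s ↦ F (x + s e + u c)`, derivative `F' (x + s e + u c)` bounded by `M`). -/
theorem av1_deriv {k : ℕ} (c e : Fin k → ℝ) (F F' : (Fin k → ℝ) → ℝ) (M : ℝ) (hF : Continuous F)
    (hF' : Continuous F') (hM : ∀ x, |F x| ≤ M) (hM' : ∀ x, |F' x| ≤ M)
    (hd : ∀ x t, HasDerivAt (fun s : ℝ => F (x + s • e)) (F' (x + t • e)) t) (x : Fin k → ℝ) (t : ℝ) :
    HasDerivAt (fun s : ℝ => av1 c F (x + s • e)) (av1 c F' (x + t • e)) t := by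
  have h1 := hasDerivAt_integral_of_dominated_loc_of_deriv_le (μ := gaussianReal 0 1) (𝕜 := ℝ)
    (F := fun (s u : ℝ) => F (x + s • e + u • c)) (F' := fun (s u : ℝ) => F' (x + s • e + u • c))
    (x₀ := t) (s := Set.univ) (bound := fun _ => M) Filter.univ_mem
    (Filter.Eventually.of_forall fun s => (hF.comp (by fun_prop)).aestronglyMeasurable)
    (Integrable.of_bound ((hF.comp (by fun_prop)).aestronglyMeasurable) M
      (Filter.Eventually.of_forall fun u => hM _))
    ((hF'.comp (by fun_prop)).aestronglyMeasurable)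
    (Filter.Eventually.of_forall fun u s _ => hM' _)
    (integrable_const M)
    (Filter.Eventually.of_forall fun u s _ => by
      have h2 := hd (x + u • c) s
      have h3 : (fun s : ℝ => F (x + s • e + u • c)) = fun s : ℝ => F (x + u • c + s • e) := by
        funext s
        rw [add_right_comm]
      change HasDerivAt (fun s : ℝ => F (x + s • e + u • c)) (F' (x + s • e + u • c)) s
      rw [h3, add_right_comm]
      exact h2)
  exact h1.2

/-- [J4c] Fubini: an average over `n + 1` directions is an average over `n` directions followed by one.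
`gam (n+1) = Measure.pi`, `measurePreserving_piFinSuccAbove` (index 0), `integral_prod`; everything is bounded
and continuous; `∑ a : Fin (n+1), z a • C a = z 0 • C 0 + ∑ a : Fin n, z a.succ • C a.succ`. -/
theorem avn_succ {k n : ℕ} (C : Fin (n + 1) → Fin k → ℝ) (F : (Fin k → ℝ) → ℝ) (M : ℝ)
    (hF : Continuous F) (hM : ∀ x, |F x| ≤ M) (x : Fin k → ℝ) :
    avn C F x = avn (fun a => C a.succ) (av1 (C 0) F) x := by
  have hmp := measurePreserving_piFinSuccAbove (fun _ : Fin (n + 1) => gaussianReal 0 1) 0
  have h1 : avn C F x = ∫ p : ℝ × (Fin n → ℝ),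
      F (x + (∑ a : Fin n, p.2 a • C a.succ) + p.1 • C 0)
        ∂((gaussianReal 0 1).prod (gam n)) := by
    have h2 := hmp.integral_comp' (g := fun p : ℝ × (Fin n → ℝ) =>
      F (x + (∑ a : Fin n, p.2 a • C a.succ) + p.1 • C 0))
    change _ = ∫ p, _ ∂((gaussianReal 0 1).prod (Measure.pi fun _ : Fin n => gaussianReal 0 1))
    rw [← h2]
    change ∫ z, F (x + ∑ a, z a • C a) ∂(Measure.pi fun _ : Fin (n + 1) => gaussianReal 0 1) = _
    congr 1
    funext z
    rw [Fin.sum_univ_succ]
    change F (x + (z 0 • C 0 + ∑ i : Fin n, z i.succ • C i.succ)) =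
      F (x + (∑ a : Fin n, z ((0 : Fin (n + 1)).succAbove a) • C a.succ) + z 0 • C 0)
    congr 1
    have h3 : ∀ a : Fin n, (0 : Fin (n + 1)).succAbove a = a.succ := fun a => by simp
    simp only [h3]
    abel
  have hprob : IsProbabilityMeasure (gam n) := by
    unfold gam
    infer_instance
  rw [h1, integral_prod_symm]
  · rfl
  · have hc : Continuous fun p : ℝ × (Fin n → ℝ) =>
        F (x + (∑ a : Fin n, p.2 a • C a.succ) + p.1 • C 0) := hF.comp (by fun_prop)
    exact Integrable.of_bound hc.aestronglyMeasurable M (Filter.Eventually.of_forall fun u => hM _)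

/-- [J4d] no direction. -/
theorem avn_zero {k : ℕ} (C : Fin 0 → Fin k → ℝ) (F : (Fin k → ℝ) → ℝ) (x : Fin k → ℝ) :
    avn C F x = F x := by
  unfold avn gam
  simp

end Pool.Agent.SSQ
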