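import Pool.Agent.SSQ.J3
import Pool.Agent.SSQ.J4

set_option autoImplicit false
open MeasureTheory ProbabilityTheory Set Real

namespace Pool.Agent.SSQ
open Pool.Agent.SSC3N (gam GG TT)

/-- continuous and bounded -/
structure J5BC {X : Type*} [TopologicalSpace X] (f : X → ℝ) : Prop where
  cont : Continuous f
  bd : ∃ B, ∀ x, |f x| ≤ B

theorem j5_sum {X ι : Type*} [TopologicalSpace X] [Fintype ι] {f : ι → X → ℝ}
    (h : ∀ i, J5BC (f i)) : J5BC (fun x => ∑ i, f i x) := by
  refine ⟨continuous_finsetSum _ fun i _ => (h i).cont, ?_⟩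
  choose B hB using fun i => (h i).bd
  exact ⟨∑ i, B i, fun x => (Finset.abs_sum_le_sum_abs _ _).trans
    (Finset.sum_le_sum fun i _ => hB i x)⟩

theorem j5_cmul {X : Type*} [TopologicalSpace X] {f : X → ℝ} (h : J5BC f) (c : ℝ) :
    J5BC (fun x => c * f x) := by
  refine ⟨continuous_const.mul h.cont, ?_⟩
  obtain ⟨B, hB⟩ := h.bd
  refine ⟨|c| * B, fun x => ?_⟩
  rw [abs_mul]
  exact mul_le_mul_of_nonneg_left (hB x) (abs_nonneg c)

theorem j5_add {X : Type*} [TopologicalSpace X] {f g : X → ℝ} (h : J5BC f) (h' : J5BC g) :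
    J5BC (fun x => f x + g x) := by
  refine ⟨h.cont.add h'.cont, ?_⟩
  obtain ⟨B, hB⟩ := h.bd
  obtain ⟨B', hB'⟩ := h'.bd
  exact ⟨B + B', fun x => (abs_add_le _ _).trans (add_le_add (hB x) (hB' x))⟩

theorem j5_comp {X Y : Type*} [TopologicalSpace X] [TopologicalSpace Y] {f : X → ℝ} (h : J5BC f)
    {g : Y → X} (hg : Continuous g) : J5BC (fun y => f (g y)) := by
  refine ⟨h.cont.comp hg, ?_⟩
  obtain ⟨B, hB⟩ := h.bd
  exact ⟨B, fun y => hB _⟩

theorem j5_int {k : ℕ} {F : (Fin k → ℝ) → ℝ} (hF : J5BC F) (c x : Fin k → ℝ) :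
    Integrable (fun u : ℝ => F (x + u • c)) (gaussianReal 0 1) := by
  obtain ⟨B, hB⟩ := hF.bd
  exact Integrable.of_bound ((hF.cont.comp (by fun_prop)).aestronglyMeasurable) B
    (Filter.Eventually.of_forall fun u => hB _)

theorem j5_av_sum {k : ℕ} {ι : Type*} [Fintype ι] {F : ι → (Fin k → ℝ) → ℝ} (hF : ∀ i, J5BC (F i))
    (c x : Fin k → ℝ) : av1 c (fun y => ∑ i, F i y) x = ∑ i, av1 c (F i) x := by
  unfold av1
  exact integral_finsetSum _ fun i _ => j5_int (hF i) c x

theorem j5_av_mul {k : ℕ} (F : (Fin k → ℝ) → ℝ) (r : ℝ)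
    (c x : Fin k → ℝ) : av1 c (fun y => r * F y) x = r * av1 c F x := by
  unfold av1
  exact integral_const_mul _ _

theorem j5_av_add {k : ℕ} {F G : (Fin k → ℝ) → ℝ} (hF : J5BC F) (hG : J5BC G)
    (c x : Fin k → ℝ) : av1 c (fun y => F y + G y) x = av1 c F x + av1 c G x := by
  unfold av1
  exact integral_add (j5_int hF c x) (j5_int hG c x)

theorem j5_deriv {k : ℕ} (c e : Fin k → ℝ) (F F' : (Fin k → ℝ) → ℝ) (hF : J5BC F) (hF' : J5BC F')
    (hd : ∀ x t, HasDerivAt (fun s : ℝ => F (x + s • e)) (F' (x + t • e)) t) (x : Fin k → ℝ) (t : ℝ) :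
    HasDerivAt (fun s : ℝ => av1 c F (x + s • e)) (av1 c F' (x + t • e)) t := by
  obtain ⟨B, hB⟩ := hF.bd
  obtain ⟨B', hB'⟩ := hF'.bd
  exact av1_deriv c e F F' (max B B') hF.cont hF'.cont (fun x => (hB x).trans (le_max_left _ _))
    (fun x => (hB' x).trans (le_max_right _ _)) hd x t

theorem j5_pairs {k : ℕ} (f : Fin k → Fin k → Fin k → Fin k → ℝ) :
    ∑ i, ∑ j, ∑ l, ∑ m, f i j l m = ∑ i, ∑ j, ∑ l, ∑ m, f l m i j := by
  calc ∑ i, ∑ j, ∑ l, ∑ m, f i j l m
      = ∑ p : Fin k × Fin k, ∑ q : Fin k × Fin k, f p.1 p.2 q.1 q.2 := by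
        simp only [Fintype.sum_prod_type]
    _ = ∑ q : Fin k × Fin k, ∑ p : Fin k × Fin k, f p.1 p.2 q.1 q.2 := Finset.sum_comm
    _ = _ := by simp only [Fintype.sum_prod_type]

theorem j5_s34 {k : ℕ} (f : Fin k → Fin k → Fin k → Fin k → ℝ) :
    ∑ i, ∑ j, ∑ l, ∑ m, f i j l m = ∑ i, ∑ j, ∑ l, ∑ m, f i j m l :=
  Finset.sum_congr rfl fun _ _ => Finset.sum_congr rfl fun _ _ => Finset.sum_comm

theorem j5_s12 {k : ℕ} (f : Fin k → Fin k → Fin k → Fin k → ℝ) :
    ∑ i, ∑ j, ∑ l, ∑ m, f i j l m = ∑ i, ∑ j, ∑ l, ∑ m, f j i l m :=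
  Finset.sum_comm

/-- the expansion of `quad` as it appears in `nk2` -/
theorem j5_quad {k : ℕ} (h : Fin k → Fin k → ℝ) (t : Fin k → Fin k → Fin k → ℝ)
    (u : Fin k → Fin k → Fin k → Fin k → ℝ) (D : Fin k → Fin k → ℝ) (v : Fin k → ℝ) :
    quad h t u D v = (1 / 4 * ∑ i, ∑ j, ∑ l, ∑ m, D i j * D l m * u i j l m)
      + 2 * ∑ l, v l * (1 / 2 * ∑ i, ∑ j, D i j * t i j l) + ∑ i, ∑ j, v i * v j * h i j := by
  unfold quad
  congr 2
  rw [Finset.mul_sum]
  have h1 : ∀ l, 2 * (v l * (1 / 2 * ∑ i, ∑ j, D i j * t i j l)) =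
      ∑ i, ∑ j, D i j * v l * t i j l := by
    intro l
    have h2 : 2 * (v l * (1 / 2 * ∑ i, ∑ j, D i j * t i j l)) =
        v l * ∑ i, ∑ j, D i j * t i j l := by ring
    rw [h2, Finset.mul_sum]
    apply Finset.sum_congr rfl
    intro i _
    rw [Finset.mul_sum]
    apply Finset.sum_congr rfl
    intro j _
    ring
  simp only [h1]
  symm
  rw [Finset.sum_comm]
  exact Finset.sum_congr rfl fun i _ => Finset.sum_comm

/-- `quad` of the averages is the average of `quad` -/
theorem j5_av_quad {k : ℕ} (c x : Fin k → ℝ) (H : (Fin k → ℝ) → Fin k → Fin k → ℝ)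
    (T : (Fin k → ℝ) → Fin k → Fin k → Fin k → ℝ)
    (U : (Fin k → ℝ) → Fin k → Fin k → Fin k → Fin k → ℝ)
    (hH : ∀ i j, J5BC (fun y => H y i j)) (hT : ∀ i j l, J5BC (fun y => T y i j l))
    (hU : ∀ i j l m, J5BC (fun y => U y i j l m)) (D : Fin k → Fin k → ℝ) (v : Fin k → ℝ) :
    quad (fun i j => av1 c (fun y => H y i j) x) (fun i j l => av1 c (fun y => T y i j l) x)
      (fun i j l m => av1 c (fun y => U y i j l m) x) D v =
    av1 c (fun y => quad (H y) (T y) (U y) D v) x := by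
  unfold quad
  have hU' : ∀ i j l m, J5BC (fun y => D i j * D l m * U y i j l m) :=
    fun i j l m => j5_cmul (hU i j l m) _
  have hT' : ∀ i j l, J5BC (fun y => D i j * v l * T y i j l) :=
    fun i j l => j5_cmul (hT i j l) _
  have hH' : ∀ i j, J5BC (fun y => v i * v j * H y i j) :=
    fun i j => j5_cmul (hH i j) _
  have a1 : J5BC (fun y => ∑ i, ∑ j, ∑ l, ∑ m, D i j * D l m * U y i j l m) :=
    j5_sum fun i => j5_sum fun j => j5_sum fun l => j5_sum fun m => hU' i j l m
  have a2 : J5BC (fun y => ∑ i, ∑ j, ∑ l, D i j * v l * T y i j l) :=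
    j5_sum fun i => j5_sum fun j => j5_sum fun l => hT' i j l
  have a3 : J5BC (fun y => ∑ i, ∑ j, v i * v j * H y i j) :=
    j5_sum fun i => j5_sum fun j => hH' i j
  rw [j5_av_add (j5_add (j5_cmul a1 _) a2) a3, j5_av_add (j5_cmul a1 _) a2, j5_av_mul]
  congr 2
  · congr 1
    rw [j5_av_sum fun i => j5_sum fun j => j5_sum fun l => j5_sum fun m => hU' i j l m]
    refine Finset.sum_congr rfl fun i _ => ?_
    rw [j5_av_sum fun j => j5_sum fun l => j5_sum fun m => hU' i j l m]
    refine Finset.sum_congr rfl fun j _ => ?_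
    rw [j5_av_sum fun l => j5_sum fun m => hU' i j l m]
    refine Finset.sum_congr rfl fun l _ => ?_
    rw [j5_av_sum fun m => hU' i j l m]
    refine Finset.sum_congr rfl fun m _ => ?_
    rw [j5_av_mul]
  · rw [j5_av_sum fun i => j5_sum fun j => j5_sum fun l => hT' i j l]
    refine Finset.sum_congr rfl fun i _ => ?_
    rw [j5_av_sum fun j => j5_sum fun l => hT' i j l]
    refine Finset.sum_congr rfl fun j _ => ?_
    rw [j5_av_sum fun l => hT' i j l]
    refine Finset.sum_congr rfl fun l _ => ?_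
    rw [j5_av_mul]
  · rw [j5_av_sum fun i => j5_sum fun j => hH' i j]
    refine Finset.sum_congr rfl fun i _ => ?_
    rw [j5_av_sum fun j => hH' i j]
    refine Finset.sum_congr rfl fun j _ => ?_
    rw [j5_av_mul]

/-- the algebraic identity behind the step hypothesis of `nk2` -/
theorem j5_alg {k : ℕ} (h : Fin k → Fin k → ℝ) (t : Fin k → Fin k → Fin k → ℝ)
    (u : Fin k → Fin k → Fin k → Fin k → ℝ) (D : Fin k → Fin k → ℝ) (c z y : Fin k → ℝ)
    (T12 : ∀ i j l, t i j l = t j i l) (T23 : ∀ i j l, t i j l = t i l j)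
    (U12 : ∀ i j l m, u i j l m = u j i l m) (U23 : ∀ i j l m, u i j l m = u i l j m)
    (U34 : ∀ i j l m, u i j l m = u i j m l) :
    quad h t u (fun i j => D i j - (z i * c j + c i * z j)) y =
      (1 / 4 * ∑ i, ∑ j, ∑ l, ∑ m, D i j * D l m * u i j l m)
        - 2 * ∑ l, z l * (1 / 2 * ∑ i, ∑ j, D i j * ∑ m, c m * u i j l m)
        + ∑ i, ∑ j, z i * z j * (∑ l, c l * ∑ m, c m * u i j l m)
        + 2 * ∑ l, y l * ((1 / 2 * ∑ i, ∑ j, D i j * t i j l) - ∑ j, (∑ m, c m * t l j m) * z j)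
        + ∑ i, ∑ j, y i * y j * h i j := by
  have X0 : 2 * ∑ l, z l * (1 / 2 * ∑ i, ∑ j, D i j * ∑ m, c m * u i j l m) =
      ∑ i, ∑ j, ∑ l, ∑ m, D i j * (z l * c m) * u i j l m := by
    have h1 : ∀ l, 2 * (z l * (1 / 2 * ∑ i, ∑ j, D i j * ∑ m, c m * u i j l m)) =
        ∑ i, ∑ j, ∑ m, D i j * (z l * c m) * u i j l m := by
      intro l
      have h2 : 2 * (z l * (1 / 2 * ∑ i, ∑ j, D i j * ∑ m, c m * u i j l m)) =
          z l * ∑ i, ∑ j, D i j * ∑ m, c m * u i j l m := by ring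
      rw [h2]
      simp only [Finset.mul_sum]
      refine Finset.sum_congr rfl fun i _ => Finset.sum_congr rfl fun j _ =>
        Finset.sum_congr rfl fun m _ => ?_
      ring
    rw [Finset.mul_sum]
    simp only [h1]
    rw [Finset.sum_comm]
    exact Finset.sum_congr rfl fun i _ => Finset.sum_comm
  have Y0 : ∑ i, ∑ j, z i * z j * (∑ l, c l * ∑ m, c m * u i j l m) =
      ∑ i, ∑ j, ∑ l, ∑ m, (z i * c j) * (z l * c m) * u i j l m := by
    refine Finset.sum_congr rfl fun i _ => ?_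
    conv_rhs => rw [Finset.sum_comm]
    simp only [Finset.mul_sum]
    refine Finset.sum_congr rfl fun j _ => Finset.sum_congr rfl fun l _ =>
        Finset.sum_congr rfl fun m _ => ?_
    rw [U23 i j l m]
    ring
  have Z0 : ∑ l, y l * (∑ j, (∑ m, c m * t l j m) * z j) =
      ∑ i, ∑ j, ∑ l, (z i * c j) * y l * t i j l := by
    have h1 : ∀ l, y l * (∑ j, (∑ m, c m * t l j m) * z j) =
        ∑ i, ∑ j, (z i * c j) * y l * t i j l := by
      intro l
      simp only [Finset.mul_sum, Finset.sum_mul]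
      refine Finset.sum_congr rfl fun j _ => Finset.sum_congr rfl fun m _ => ?_
      rw [T12 l j m, T23 j l m]
      ring
    simp only [h1]
    rw [Finset.sum_comm]
    exact Finset.sum_congr rfl fun i _ => Finset.sum_comm
  have B0 : 2 * ∑ l, y l * (1 / 2 * ∑ i, ∑ j, D i j * t i j l) =
      ∑ i, ∑ j, ∑ l, D i j * y l * t i j l := by
    have h1 : ∀ l, 2 * (y l * (1 / 2 * ∑ i, ∑ j, D i j * t i j l)) =
        ∑ i, ∑ j, D i j * y l * t i j l := by
      intro l
      have h2 : 2 * (y l * (1 / 2 * ∑ i, ∑ j, D i j * t i j l)) =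
          y l * ∑ i, ∑ j, D i j * t i j l := by ring
      rw [h2]
      simp only [Finset.mul_sum]
      refine Finset.sum_congr rfl fun i _ => Finset.sum_congr rfl fun j _ => ?_
      ring
    rw [Finset.mul_sum]
    simp only [h1]
    rw [Finset.sum_comm]
    exact Finset.sum_congr rfl fun i _ => Finset.sum_comm
  have upair : ∀ i j l m, u l m i j = u i j l m := by
    intro i j l m
    rw [U23 l m i j, U12 l i m j, U34 i l m j, U23 i l j m]
  have X2 : ∑ i, ∑ j, ∑ l, ∑ m, D i j * (c l * z m) * u i j l m =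
      ∑ i, ∑ j, ∑ l, ∑ m, D i j * (z l * c m) * u i j l m := by
    rw [j5_s34]
    refine Finset.sum_congr rfl fun i _ => Finset.sum_congr rfl fun j _ =>
      Finset.sum_congr rfl fun l _ => Finset.sum_congr rfl fun m _ => ?_
    rw [U34 i j l m]
    ring
  have X3 : ∑ i, ∑ j, ∑ l, ∑ m, (z i * c j) * D l m * u i j l m =
      ∑ i, ∑ j, ∑ l, ∑ m, D i j * (z l * c m) * u i j l m := by
    rw [j5_pairs]
    refine Finset.sum_congr rfl fun i _ => Finset.sum_congr rfl fun j _ =>
      Finset.sum_congr rfl fun l _ => Finset.sum_congr rfl fun m _ => ?_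
    rw [upair i j l m]
    ring
  have X4 : ∑ i, ∑ j, ∑ l, ∑ m, (c i * z j) * D l m * u i j l m =
      ∑ i, ∑ j, ∑ l, ∑ m, D i j * (z l * c m) * u i j l m := by
    rw [← X3, j5_s12]
    refine Finset.sum_congr rfl fun i _ => Finset.sum_congr rfl fun j _ =>
      Finset.sum_congr rfl fun l _ => Finset.sum_congr rfl fun m _ => ?_
    rw [U12 i j l m]
    ring
  have Y2 : ∑ i, ∑ j, ∑ l, ∑ m, (z i * c j) * (c l * z m) * u i j l m =
      ∑ i, ∑ j, ∑ l, ∑ m, (z i * c j) * (z l * c m) * u i j l m := by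
    rw [j5_s34]
    refine Finset.sum_congr rfl fun i _ => Finset.sum_congr rfl fun j _ =>
      Finset.sum_congr rfl fun l _ => Finset.sum_congr rfl fun m _ => ?_
    rw [U34 i j l m]
    ring
  have Y3 : ∑ i, ∑ j, ∑ l, ∑ m, (c i * z j) * (z l * c m) * u i j l m =
      ∑ i, ∑ j, ∑ l, ∑ m, (z i * c j) * (z l * c m) * u i j l m := by
    rw [j5_s12]
    refine Finset.sum_congr rfl fun i _ => Finset.sum_congr rfl fun j _ =>
      Finset.sum_congr rfl fun l _ => Finset.sum_congr rfl fun m _ => ?_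
    rw [U12 i j l m]
    ring
  have Y4 : ∑ i, ∑ j, ∑ l, ∑ m, (c i * z j) * (c l * z m) * u i j l m =
      ∑ i, ∑ j, ∑ l, ∑ m, (z i * c j) * (z l * c m) * u i j l m := by
    rw [← Y3, j5_s34]
    refine Finset.sum_congr rfl fun i _ => Finset.sum_congr rfl fun j _ =>
      Finset.sum_congr rfl fun l _ => Finset.sum_congr rfl fun m _ => ?_
    rw [U34 i j l m]
    ring
  have C2 : ∑ i, ∑ j, ∑ l, (c i * z j) * y l * t i j l =
      ∑ i, ∑ j, ∑ l, (z i * c j) * y l * t i j l := by
    rw [Finset.sum_comm]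
    refine Finset.sum_congr rfl fun i _ => Finset.sum_congr rfl fun j _ =>
      Finset.sum_congr rfl fun l _ => ?_
    rw [T12 i j l]
    ring
  have E4 : ∑ i, ∑ j, ∑ l, ∑ m, (D i j - (z i * c j + c i * z j)) *
        (D l m - (z l * c m + c l * z m)) * u i j l m =
      (∑ i, ∑ j, ∑ l, ∑ m, D i j * D l m * u i j l m) -
        (∑ i, ∑ j, ∑ l, ∑ m, D i j * (z l * c m) * u i j l m) -
        (∑ i, ∑ j, ∑ l, ∑ m, D i j * (c l * z m) * u i j l m) -
        (∑ i, ∑ j, ∑ l, ∑ m, (z i * c j) * D l m * u i j l m) -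
        (∑ i, ∑ j, ∑ l, ∑ m, (c i * z j) * D l m * u i j l m) +
        (∑ i, ∑ j, ∑ l, ∑ m, (z i * c j) * (z l * c m) * u i j l m) +
        (∑ i, ∑ j, ∑ l, ∑ m, (z i * c j) * (c l * z m) * u i j l m) +
        (∑ i, ∑ j, ∑ l, ∑ m, (c i * z j) * (z l * c m) * u i j l m) +
        (∑ i, ∑ j, ∑ l, ∑ m, (c i * z j) * (c l * z m) * u i j l m) := by
    simp only [← Finset.sum_sub_distrib, ← Finset.sum_add_distrib]
    refine Finset.sum_congr rfl fun i _ => Finset.sum_congr rfl fun j _ =>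
      Finset.sum_congr rfl fun l _ => Finset.sum_congr rfl fun m _ => ?_
    ring
  have E3 : ∑ i, ∑ j, ∑ l, (D i j - (z i * c j + c i * z j)) * y l * t i j l =
      (∑ i, ∑ j, ∑ l, D i j * y l * t i j l) - (∑ i, ∑ j, ∑ l, (z i * c j) * y l * t i j l) -
        ∑ i, ∑ j, ∑ l, (c i * z j) * y l * t i j l := by
    simp only [← Finset.sum_sub_distrib]
    refine Finset.sum_congr rfl fun i _ => Finset.sum_congr rfl fun j _ =>
      Finset.sum_congr rfl fun l _ => ?_
    ring
  have W0 : 2 * ∑ l, y l * ((1 / 2 * ∑ i, ∑ j, D i j * t i j l) -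
        ∑ j, (∑ m, c m * t l j m) * z j) =
      2 * (∑ l, y l * (1 / 2 * ∑ i, ∑ j, D i j * t i j l)) -
        2 * ∑ l, y l * (∑ j, (∑ m, c m * t l j m) * z j) := by
    rw [← mul_sub, ← Finset.sum_sub_distrib]
    congr 1
    refine Finset.sum_congr rfl fun l _ => ?_
    ring
  unfold quad
  rw [E4, E3, W0, B0, Z0, Y0, X0, X2, X3, X4, Y2, Y3, Y4, C2]
  ring

theorem jet_av1 {k : ℕ} (c : Fin k → ℝ) (H : (Fin k → ℝ) → Fin k → Fin k → ℝ)
    (T : (Fin k → ℝ) → Fin k → Fin k → Fin k → ℝ)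
    (U : (Fin k → ℝ) → Fin k → Fin k → Fin k → Fin k → ℝ) (h : IsJet H T U) :
    IsJet (fun x i j => av1 c (fun y => H y i j) x) (fun x i j l => av1 c (fun y => T y i j l) x)
      (fun x i j l m => av1 c (fun y => U y i j l m) x) := by
  obtain ⟨M, hHM, hTM, hUM⟩ := h.bdd
  have hH : ∀ i j, J5BC (fun y => H y i j) := fun i j => ⟨h.H_cont i j, M, fun x => hHM x i j⟩
  have hT : ∀ i j l, J5BC (fun y => T y i j l) :=
    fun i j l => ⟨h.T_cont i j l, M, fun x => hTM x i j l⟩
  have hU : ∀ i j l m, J5BC (fun y => U y i j l m) :=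
    fun i j l m => ⟨h.U_cont i j l m, M, fun x => hUM x i j l m⟩
  refine
    { H_symm := fun x i j => congrArg (fun F => av1 c F x) (funext fun y => h.H_symm y i j)
      T12 := fun x i j l => congrArg (fun F => av1 c F x) (funext fun y => h.T12 y i j l)
      T23 := fun x i j l => congrArg (fun F => av1 c F x) (funext fun y => h.T23 y i j l)
      U12 := fun x i j l m => congrArg (fun F => av1 c F x) (funext fun y => h.U12 y i j l m)
      U23 := fun x i j l m => congrArg (fun F => av1 c F x) (funext fun y => h.U23 y i j l m)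
      U34 := fun x i j l m => congrArg (fun F => av1 c F x) (funext fun y => h.U34 y i j l m)
      bdd := ⟨M, fun x i j => (av1_cont c _ M (h.H_cont i j) fun y => hHM y i j).2 x,
        fun x i j l => (av1_cont c _ M (h.T_cont i j l) fun y => hTM y i j l).2 x,
        fun x i j l m => (av1_cont c _ M (h.U_cont i j l m) fun y => hUM y i j l m).2 x⟩
      H_cont := fun i j => (av1_cont c _ M (h.H_cont i j) fun y => hHM y i j).1
      T_cont := fun i j l => (av1_cont c _ M (h.T_cont i j l) fun y => hTM y i j l).1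
      U_cont := fun i j l m => (av1_cont c _ M (h.U_cont i j l m) fun y => hUM y i j l m).1
      H_deriv := ?_
      T_deriv := ?_
      pos := ?_
      nak := ?_ }
  · intro x e i j t
    have h1 := j5_deriv c e (fun y => H y i j) (fun y => ∑ l, e l * T y i j l) (hH i j)
      (j5_sum fun l => j5_cmul (hT i j l) _) (fun x t => h.H_deriv x e i j t) x t
    rw [j5_av_sum fun l => j5_cmul (hT i j l) _] at h1
    simp only [j5_av_mul] at h1
    exact h1
  · intro x e i j l t
    have h1 := j5_deriv c e (fun y => T y i j l) (fun y => ∑ m, e m * U y i j l m) (hT i j l)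
      (j5_sum fun m => j5_cmul (hU i j l m) _) (fun x t => h.T_deriv x e i j l t) x t
    rw [j5_av_sum fun m => j5_cmul (hU i j l m) _] at h1
    simp only [j5_av_mul] at h1
    exact h1
  · intro x y hy
    have hq : ∀ i j, J5BC (fun w => y i * y j * H w i j) := fun i j => j5_cmul (hH i j) _
    have h1 : ∑ i, ∑ j, y i * y j * av1 c (fun w => H w i j) x =
        av1 c (fun w => ∑ i, ∑ j, y i * y j * H w i j) x := by
      rw [j5_av_sum fun i => j5_sum fun j => hq i j]
      refine Finset.sum_congr rfl fun i _ => ?_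
      rw [j5_av_sum fun j => hq i j]
      refine Finset.sum_congr rfl fun j _ => ?_
      rw [j5_av_mul]
    rw [h1]
    have hint := j5_int (j5_sum fun i => j5_sum fun j => hq i j) c x
    unfold av1
    rw [integral_pos_iff_support_of_nonneg (fun u => (h.pos _ y hy).le) hint]
    have h2 : (Function.support fun u : ℝ => ∑ i, ∑ j, y i * y j * H (x + u • c) i j) =
        Set.univ := by
      ext u
      simp only [Function.mem_support, Set.mem_univ, iff_true]
      exact (h.pos _ y hy).ne'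
    rw [h2]
    simp
  · intro x D hD
    have hp : Continuous fun t : ℝ => x + t • c := by fun_prop
    have ca : J5BC (fun t : ℝ => 1 / 4 * ∑ i, ∑ j, ∑ l, ∑ m, D i j * D l m * U (x + t • c) i j l m) :=
      j5_cmul (j5_sum fun i => j5_sum fun j => j5_sum fun l => j5_sum fun m =>
        j5_cmul (j5_comp (hU i j l m) hp) _) _
    have cb : ∀ l, J5BC (fun t : ℝ => 1 / 2 * ∑ i, ∑ j, D i j * T (x + t • c) i j l) := fun l =>
      j5_cmul (j5_sum fun i => j5_sum fun j => j5_cmul (j5_comp (hT i j l) hp) _) _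
    have cb' : ∀ l, J5BC (fun t : ℝ => 1 / 2 * ∑ i, ∑ j, D i j *
        ∑ m, c m * U (x + t • c) i j l m) := fun l =>
      j5_cmul (j5_sum fun i => j5_sum fun j => j5_cmul (j5_sum fun m => j5_cmul
        (j5_comp (hU i j l m) hp) _) _) _
    have cH'' : ∀ i j, J5BC (fun t : ℝ => ∑ l, c l * ∑ m, c m * U (x + t • c) i j l m) :=
      fun i j => j5_sum fun l => j5_cmul (j5_sum fun m => j5_cmul (j5_comp (hU i j l m) hp) _) _
    obtain ⟨Ba, hBa⟩ := ca.bd
    choose Bb hBb using fun l => (cb l).bd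
    have hBb0 : ∀ l, 0 ≤ Bb l := fun l => (abs_nonneg _).trans (hBb l 0)
    have hBa0 : 0 ≤ Ba := (abs_nonneg _).trans (hBa 0)
    have hsum0 : 0 ≤ ∑ l, Bb l := Finset.sum_nonneg fun l _ => hBb0 l
    obtain ⟨v, hv⟩ := nk2 (Ba + (∑ l, Bb l) + |M|)
      (fun t => 1 / 4 * ∑ i, ∑ j, ∑ l, ∑ m, D i j * D l m * U (x + t • c) i j l m)
      (fun t l => 1 / 2 * ∑ i, ∑ j, D i j * T (x + t • c) i j l)
      (fun t l => 1 / 2 * ∑ i, ∑ j, D i j * ∑ m, c m * U (x + t • c) i j l m)
      (fun t => H (x + t • c))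
      (fun t i j => ∑ l, c l * T (x + t • c) i j l)
      (fun t i j => ∑ l, c l * ∑ m, c m * U (x + t • c) i j l m)
      ca.cont (fun l => (cb' l).cont) (fun i j => (cH'' i j).cont)
      (fun t l => by
        apply HasDerivAt.const_mul
        apply HasDerivAt.fun_sum
        intro i _
        apply HasDerivAt.fun_sum
        intro j _
        apply HasDerivAt.const_mul
        exact h.T_deriv x c i j l t)
      (fun t i j => h.H_deriv x c i j t)
      (fun t i j => by
        apply HasDerivAt.fun_sum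
        intro l _
        apply HasDerivAt.const_mul
        exact h.T_deriv x c i j l t)
      (fun t => by
        have := hBa t
        have := abs_nonneg M
        linarith)
      (fun t l => by
        have h1 := hBb l t
        have h2 : Bb l ≤ ∑ l, Bb l := Finset.single_le_sum (fun l _ => hBb0 l) (Finset.mem_univ l)
        have := abs_nonneg M
        linarith)
      (fun t i j => by
        have h1 := hHM (x + t • c) i j
        have := le_abs_self M
        linarith)
      (fun t i j => h.H_symm _ i j)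
      (fun t y hy => h.pos _ y hy)
      (fun t z => by
        obtain ⟨y, hy⟩ := h.nak (x + t • c) (fun i j => D i j - (z i * c j + c i * z j))
          (fun i j => by
            rw [hD i j]
            ring)
        refine ⟨y, ?_⟩
        rw [j5_alg _ _ _ D c z y (h.T12 _) (h.T23 _) (h.U12 _) (h.U23 _) (h.U34 _)] at hy
        exact hy)
    refine ⟨v, ?_⟩
    rw [j5_av_quad c x H T U hH hT hU D v]
    unfold av1
    refine le_of_eq_of_le ?_ hv
    congr 1
    funext t
    exact j5_quad _ _ _ D v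

end Pool.Agent.SSQ
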