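import Pool.Agent.SSQ.J5

set_option autoImplicit false
open MeasureTheory ProbabilityTheory Set Real

namespace Pool.Agent.SSQ
open Pool.Agent.SSC3N (gam GG TT)

/-- [J6] Jets are stable under Gaussian averages in finitely many directions: induction on `n` with
`avn_succ`, `avn_zero` (boundedness and continuity from `IsJet.bdd`, `H_cont`, ...) and `jet_av1`
(`funext` to rewrite the averaged functions). -/
theorem jet_avn {k n : ℕ} (C : Fin n → Fin k → ℝ) (H : (Fin k → ℝ) → Fin k → Fin k → ℝ)
    (T : (Fin k → ℝ) → Fin k → Fin k → Fin k → ℝ)
    (U : (Fin k → ℝ) → Fin k → Fin k → Fin k → Fin k → ℝ) (h : IsJet H T U) :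
    IsJet (fun x i j => avn C (fun y => H y i j) x) (fun x i j l => avn C (fun y => T y i j l) x)
      (fun x i j l m => avn C (fun y => U y i j l m) x) := by
  induction n generalizing H T U with
  | zero =>
    have e1 : (fun x i j => avn C (fun y => H y i j) x) = H := by
      funext x i j
      exact avn_zero C _ x
    have e2 : (fun x i j l => avn C (fun y => T y i j l) x) = T := by
      funext x i j l
      exact avn_zero C _ x
    have e3 : (fun x i j l m => avn C (fun y => U y i j l m) x) = U := by
      funext x i j l m
      exact avn_zero C _ x
    rw [e1, e2, e3]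
    exact h
  | succ n ih =>
    have h1 := ih (fun a => C a.succ) _ _ _ (jet_av1 (C 0) H T U h)
    obtain ⟨M, hM1, hM2, hM3⟩ := h.bdd
    have e1 : (fun x i j => avn C (fun y => H y i j) x)
        = (fun x i j => avn (fun a => C a.succ)
          (fun y => (fun x i j => av1 (C 0) (fun y => H y i j) x) y i j) x) := by
      funext x i j
      exact avn_succ C (fun y => H y i j) M (h.H_cont i j) (fun y => hM1 y i j) x
    have e2 : (fun x i j l => avn C (fun y => T y i j l) x)
        = (fun x i j l => avn (fun a => C a.succ)
          (fun y => (fun x i j l => av1 (C 0) (fun y => T y i j l) x) y i j l) x) := by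
      funext x i j l
      exact avn_succ C (fun y => T y i j l) M (h.T_cont i j l) (fun y => hM2 y i j l) x
    have e3 : (fun x i j l m => avn C (fun y => U y i j l m) x)
        = (fun x i j l m => avn (fun a => C a.succ)
          (fun y => (fun x i j l m => av1 (C 0) (fun y => U y i j l m) x) y i j l m) x) := by
      funext x i j l m
      exact avn_succ C (fun y => U y i j l m) M (h.U_cont i j l m) (fun y => hM3 y i j l m) x
    rw [e1, e2, e3]
    exact h1

end Pool.Agent.SSQ
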