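import Pool.Agent.SSQ.Defs

set_option autoImplicit false
open MeasureTheory ProbabilityTheory Set Real

namespace Pool.Agent.SSQ
open Pool.Agent.SSC3N (gam GG TT)

private theorem j7_Zs_pos {k : ℕ} (x : Fin k → ℝ) : 0 < Zs x := by
  have h : 0 ≤ ∑ i, Real.exp (x i) := Finset.sum_nonneg fun i _ => (Real.exp_pos _).le
  unfold Zs
  linarith

/-- [J7a] weights: `0 < w`, `∑ w < 1`, `w ≤ 1`. -/
theorem wS_basic {k : ℕ} (x : Fin k → ℝ) :
    (∀ i, 0 < wS x i) ∧ (∀ i, wS x i ≤ 1) ∧ ∑ i, wS x i < 1 := by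
  have hZ := j7_Zs_pos x
  refine ⟨fun i => div_pos (Real.exp_pos _) hZ, fun i => ?_, ?_⟩
  · unfold wS
    rw [div_le_one hZ]
    have h1 : Real.exp (x i) ≤ ∑ j, Real.exp (x j) :=
      Finset.single_le_sum (f := fun j => Real.exp (x j)) (fun j _ => (Real.exp_pos _).le)
        (Finset.mem_univ i)
    unfold Zs
    linarith
  · unfold wS
    rw [← Finset.sum_div, div_lt_one hZ]
    unfold Zs
    linarith

private theorem j7_exp_deriv {k : ℕ} (x c : Fin k → ℝ) (i : Fin k) (t : ℝ) :
    HasDerivAt (fun s : ℝ => Real.exp ((x + s • c) i)) (c i * Real.exp ((x + t • c) i)) t := by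
  have h1 : HasDerivAt (fun s : ℝ => (x + s • c) i) (c i) t := by
    have h2 : HasDerivAt (fun s : ℝ => x i + s * c i) (1 * c i) t :=
      ((hasDerivAt_id t).mul_const (c i)).const_add (x i)
    rw [one_mul] at h2
    exact h2
  have h3 := h1.exp
  rw [mul_comm] at h3
  exact h3

private theorem j7_Zs_deriv {k : ℕ} (x c : Fin k → ℝ) (t : ℝ) :
    HasDerivAt (fun s : ℝ => Zs (x + s • c)) (∑ i, c i * Real.exp ((x + t • c) i)) t := by
  have h1 : HasDerivAt (fun s : ℝ => ∑ i, Real.exp ((x + s • c) i))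
      (∑ i, c i * Real.exp ((x + t • c) i)) t :=
    HasDerivAt.fun_sum fun i _ => j7_exp_deriv x c i t
  exact h1.const_add 1

/-- [J7b] `d/ds φ(x + s c) = ∑ c_i w_i`. -/
theorem phi_deriv {k : ℕ} (x c : Fin k → ℝ) (t : ℝ) :
    HasDerivAt (fun s : ℝ => phi (x + s • c)) (∑ i, c i * wS (x + t • c) i) t := by
  have hZ := j7_Zs_pos (x + t • c)
  have h1 := (j7_Zs_deriv x c t).log hZ.ne'
  have h2 : (∑ i, c i * Real.exp ((x + t • c) i)) / Zs (x + t • c) =
      ∑ i, c i * wS (x + t • c) i := by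
    rw [Finset.sum_div]
    refine Finset.sum_congr rfl fun i _ => ?_
    unfold wS
    ring
  rw [h2] at h1
  exact h1

/-- [J7c] `d/ds w_i(x + s c) = ∑_j c_j H_ij`. -/
theorem wS_deriv {k : ℕ} (x c : Fin k → ℝ) (i : Fin k) (t : ℝ) :
    HasDerivAt (fun s : ℝ => wS (x + s • c) i) (∑ j, c j * SH (x + t • c) i j) t := by
  have hZ := j7_Zs_pos (x + t • c)
  have h1 := (j7_exp_deriv x c i t).div (j7_Zs_deriv x c t) hZ.ne'
  have h2 : (c i * Real.exp ((x + t • c) i) * Zs (x + t • c) -
      Real.exp ((x + t • c) i) * ∑ j, c j * Real.exp ((x + t • c) j)) / Zs (x + t • c) ^ 2 =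
      ∑ j, c j * SH (x + t • c) i j := by
    have h3 : ∑ j, c j * SH (x + t • c) i j =
        c i * wS (x + t • c) i - wS (x + t • c) i * ∑ j, c j * wS (x + t • c) j := by
      unfold SH
      simp only [mul_sub, Finset.sum_sub_distrib, mul_ite, mul_zero, Finset.sum_ite_eq,
        Finset.mem_univ, if_true, Finset.mul_sum]
      congr 1
      exact Finset.sum_congr rfl fun j _ => by ring
    have h4 : ∑ j, c j * wS (x + t • c) j =
        (∑ j, c j * Real.exp ((x + t • c) j)) / Zs (x + t • c) := by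
      rw [Finset.sum_div]
      exact Finset.sum_congr rfl fun j _ => by unfold wS; ring
    rw [h3, h4]
    unfold wS
    field_simp
  rw [h2] at h1
  exact h1

/-- [J7d] `d/ds H_ij(x + s c) = ∑_l c_l T_ijl` (product rule, `wS_deriv`). -/
theorem SH_deriv {k : ℕ} (x c : Fin k → ℝ) (i j : Fin k) (t : ℝ) :
    HasDerivAt (fun s : ℝ => SH (x + s • c) i j) (∑ l, c l * ST (x + t • c) i j l) t := by
  have hi := wS_deriv x c i t
  have hj := wS_deriv x c j t
  have h1 : HasDerivAt (fun s : ℝ => if i = j then wS (x + s • c) i else 0)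
      (if i = j then ∑ l, c l * SH (x + t • c) i l else 0) t := by
    by_cases h : i = j
    · simp only [h, if_true]
      exact wS_deriv x c j t
    · simp only [h, if_false]
      exact hasDerivAt_const t (0 : ℝ)
  have h2 := h1.sub (hi.mul hj)
  have h3 : (if i = j then ∑ l, c l * SH (x + t • c) i l else 0) -
      ((∑ l, c l * SH (x + t • c) i l) * wS (x + t • c) j +
        wS (x + t • c) i * ∑ l, c l * SH (x + t • c) j l) =
      ∑ l, c l * ST (x + t • c) i j l := by
    have h4 : (if i = j then ∑ l, c l * SH (x + t • c) i l else 0) =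
        ∑ l, c l * (if i = j then SH (x + t • c) i l else 0) := by
      by_cases h : i = j
      · simp only [h, if_true]
      · simp only [h, if_false, mul_zero, Finset.sum_const_zero]
    rw [h4, Finset.sum_mul, Finset.mul_sum, ← Finset.sum_add_distrib, ← Finset.sum_sub_distrib]
    refine Finset.sum_congr rfl fun l _ => ?_
    unfold ST
    ring
  rw [h3] at h2
  exact h2

/-- [J7e] `d/ds T_ijl(x + s c) = ∑_m c_m U_ijlm`. -/
theorem ST_deriv {k : ℕ} (x c : Fin k → ℝ) (i j l : Fin k) (t : ℝ) :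
    HasDerivAt (fun s : ℝ => ST (x + s • c) i j l) (∑ m, c m * SU (x + t • c) i j l m) t := by
  have hi := wS_deriv x c i t
  have hj := wS_deriv x c j t
  have hil := SH_deriv x c i l t
  have hjl := SH_deriv x c j l t
  have h1 : HasDerivAt (fun s : ℝ => if i = j then SH (x + s • c) i l else 0)
      (if i = j then ∑ m, c m * ST (x + t • c) i l m else 0) t := by
    by_cases h : i = j
    · simp only [h, if_true]
      exact SH_deriv x c j l t
    · simp only [h, if_false]
      exact hasDerivAt_const t (0 : ℝ)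
  have h2 := (h1.sub (hil.mul hj)).sub (hi.mul hjl)
  have h3 : (if i = j then ∑ m, c m * ST (x + t • c) i l m else 0) -
      ((∑ m, c m * ST (x + t • c) i l m) * wS (x + t • c) j +
        SH (x + t • c) i l * ∑ m, c m * SH (x + t • c) j m) -
      ((∑ m, c m * SH (x + t • c) i m) * SH (x + t • c) j l +
        wS (x + t • c) i * ∑ m, c m * ST (x + t • c) j l m) =
      ∑ m, c m * SU (x + t • c) i j l m := by
    have h4 : (if i = j then ∑ m, c m * ST (x + t • c) i l m else 0) =
        ∑ m, c m * (if i = j then ST (x + t • c) i l m else 0) := by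
      by_cases h : i = j
      · simp only [h, if_true]
      · simp only [h, if_false, mul_zero, Finset.sum_const_zero]
    rw [h4, Finset.sum_mul, Finset.mul_sum, Finset.sum_mul, Finset.mul_sum,
      ← Finset.sum_add_distrib, ← Finset.sum_add_distrib, ← Finset.sum_sub_distrib,
      ← Finset.sum_sub_distrib]
    refine Finset.sum_congr rfl fun m _ => ?_
    unfold SU
    ring
  rw [h3] at h2
  exact h2

private theorem j7_SH_symm {k : ℕ} (x : Fin k → ℝ) (i j : Fin k) : SH x i j = SH x j i := by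
  unfold SH
  by_cases h : i = j
  · subst h; ring
  · have h' : ¬ j = i := fun h2 => h h2.symm
    simp only [h, h', if_false]
    ring

private theorem j7_ST_12 {k : ℕ} (x : Fin k → ℝ) (i j l : Fin k) : ST x i j l = ST x j i l := by
  unfold ST
  by_cases h : i = j
  · subst h; ring
  · have h' : ¬ j = i := fun h2 => h h2.symm
    simp only [h, h', if_false]
    ring

private theorem j7_ST_23 {k : ℕ} (x : Fin k → ℝ) (i j l : Fin k) : ST x i j l = ST x i l j := by
  unfold ST SH
  by_cases h1 : i = j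
  · subst h1
    by_cases h2 : i = l
    · subst h2; ring
    · have h2' : ¬ l = i := fun h => h2 h.symm
      simp only [h2, h2', if_true, if_false]
      ring
  · by_cases h2 : i = l
    · subst h2
      have h1' : ¬ j = i := fun h => h1 h.symm
      simp only [h1, h1', if_true, if_false]
      ring
    · by_cases h3 : j = l
      · subst h3
        ring
      · have h3' : ¬ l = j := fun h => h3 h.symm
        simp only [h1, h2, h3, h3', if_false]
        ring

private theorem j7_SU_12 {k : ℕ} (x : Fin k → ℝ) (i j l m : Fin k) :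
    SU x i j l m = SU x j i l m := by
  unfold SU
  by_cases h : i = j
  · subst h; ring
  · have h' : ¬ j = i := fun h2 => h h2.symm
    simp only [h, h', if_false]
    ring

private theorem j7_SU_34 {k : ℕ} (x : Fin k → ℝ) (i j l m : Fin k) :
    SU x i j l m = SU x i j m l := by
  unfold SU
  rw [j7_ST_23 x i l m, j7_ST_23 x j l m]
  ring

private theorem j7_SH_self {k : ℕ} (x : Fin k → ℝ) (i : Fin k) :
    SH x i i = wS x i - wS x i * wS x i := by
  unfold SH
  simp only [if_true]

private theorem j7_SH_ne {k : ℕ} (x : Fin k → ℝ) {i j : Fin k} (h : ¬ i = j) :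
    SH x i j = - (wS x i * wS x j) := by
  unfold SH
  simp only [h, if_false, zero_sub]

private theorem j7_SU_23 {k : ℕ} (x : Fin k → ℝ) (i j l m : Fin k) :
    SU x i j l m = SU x i l j m := by
  unfold SU ST
  by_cases h1 : i = j
  · subst h1
    by_cases h2 : i = l
    · subst h2; ring
    · have h2' : ¬ l = i := fun h => h2 h.symm
      simp only [h2, h2', if_true, if_false, j7_SH_self x i, j7_SH_ne x h2, j7_SH_ne x h2']
      ring
  · have h1' : ¬ j = i := fun h => h1 h.symm
    by_cases h2 : i = l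
    · subst h2
      simp only [h1, h1', if_true, if_false, j7_SH_self x i, j7_SH_ne x h1, j7_SH_ne x h1']
      ring
    · by_cases h3 : j = l
      · subst h3
        ring
      · have h3' : ¬ l = j := fun h => h3 h.symm
        simp only [h1, h2, h3, h3', if_false, j7_SH_ne x h1, j7_SH_ne x h2, j7_SH_ne x h3,
          j7_SH_ne x h3']
        ring

/-- [J7f] symmetries.  `ST` is the third cumulant
`δ_ijl w_i - δ_ij w_i w_l - δ_jl w_j w_i - δ_il w_i w_j + 2 w_i w_j w_l`; `SU` the fourth one: unfold everything and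
split on the equalities of the indices (`by_cases`/`split_ifs`, `subst`, `ring`).  The last symmetry of `SU`
may also be read off the formula using those of `SH`, `ST`. -/
theorem soft_symm {k : ℕ} (x : Fin k → ℝ) :
    (∀ i j, SH x i j = SH x j i) ∧ (∀ i j l, ST x i j l = ST x j i l) ∧
    (∀ i j l, ST x i j l = ST x i l j) ∧ (∀ i j l m, SU x i j l m = SU x j i l m) ∧
    (∀ i j l m, SU x i j l m = SU x i l j m) ∧ (∀ i j l m, SU x i j l m = SU x i j m l) :=
  ⟨j7_SH_symm x, j7_ST_12 x, j7_ST_23 x, j7_SU_12 x, j7_SU_23 x, j7_SU_34 x⟩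

private theorem j7_abs_w {k : ℕ} (x : Fin k → ℝ) (i : Fin k) : |wS x i| ≤ 1 := by
  obtain ⟨h1, h2, _⟩ := wS_basic x
  rw [abs_of_pos (h1 i)]
  exact h2 i

private theorem j7_abs_mul {a b A B : ℝ} (ha : |a| ≤ A) (hb : |b| ≤ B) : |a * b| ≤ A * B := by
  rw [abs_mul]
  exact mul_le_mul ha hb (abs_nonneg _) ((abs_nonneg _).trans ha)

private theorem j7_abs_ite {P : Prop} [Decidable P] {a A : ℝ} (ha : |a| ≤ A) :
    |if P then a else 0| ≤ A := by
  by_cases h : P
  · simp only [h, if_true]; exact ha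
  · simp only [h, if_false, abs_zero]; exact (abs_nonneg _).trans ha

private theorem j7_SH_bdd {k : ℕ} (x : Fin k → ℝ) (i j : Fin k) : |SH x i j| ≤ 2 := by
  unfold SH
  have h1 : |if i = j then wS x i else 0| ≤ 1 := j7_abs_ite (j7_abs_w x i)
  have h2 := j7_abs_mul (j7_abs_w x i) (j7_abs_w x j)
  rw [abs_le] at h1 h2 ⊢
  constructor <;> linarith [h1.1, h1.2, h2.1, h2.2]

private theorem j7_ST_bdd {k : ℕ} (x : Fin k → ℝ) (i j l : Fin k) : |ST x i j l| ≤ 6 := by
  unfold ST
  have h1 : |if i = j then SH x i l else 0| ≤ 2 := j7_abs_ite (j7_SH_bdd x i l)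
  have h2 := j7_abs_mul (j7_SH_bdd x i l) (j7_abs_w x j)
  have h3 := j7_abs_mul (j7_abs_w x i) (j7_SH_bdd x j l)
  rw [abs_le] at h1 h2 h3 ⊢
  constructor <;> linarith [h1.1, h1.2, h2.1, h2.2, h3.1, h3.2]

private theorem j7_SU_bdd {k : ℕ} (x : Fin k → ℝ) (i j l m : Fin k) : |SU x i j l m| ≤ 26 := by
  unfold SU
  have h1 : |if i = j then ST x i l m else 0| ≤ 6 := j7_abs_ite (j7_ST_bdd x i l m)
  have h2 := j7_abs_mul (j7_ST_bdd x i l m) (j7_abs_w x j)
  have h3 := j7_abs_mul (j7_SH_bdd x i l) (j7_SH_bdd x j m)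
  have h4 := j7_abs_mul (j7_SH_bdd x i m) (j7_SH_bdd x j l)
  have h5 := j7_abs_mul (j7_abs_w x i) (j7_ST_bdd x j l m)
  rw [abs_le] at h1 h2 h3 h4 h5 ⊢
  constructor <;>
    linarith [h1.1, h1.2, h2.1, h2.2, h3.1, h3.2, h4.1, h4.2, h5.1, h5.2]

private theorem j7_Zs_cont {k : ℕ} : Continuous (Zs (k := k)) := by
  unfold Zs
  exact continuous_const.add
    (continuous_finsetSum _ fun i _ => Real.continuous_exp.comp (continuous_apply i))

private theorem j7_wS_cont {k : ℕ} (i : Fin k) : Continuous (fun x : Fin k → ℝ => wS x i) := by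
  unfold wS
  exact (Real.continuous_exp.comp (continuous_apply i)).div j7_Zs_cont
    fun x => (j7_Zs_pos x).ne'

private theorem j7_ite_cont {k : ℕ} {P : Prop} [Decidable P] {f : (Fin k → ℝ) → ℝ}
    (hf : Continuous f) : Continuous (fun x : Fin k → ℝ => if P then f x else 0) := by
  by_cases h : P
  · simp only [h, if_true]; exact hf
  · simp only [h, if_false]; exact continuous_const

private theorem j7_SH_cont {k : ℕ} (i j : Fin k) :
    Continuous (fun x : Fin k → ℝ => SH x i j) := by
  unfold SH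
  exact (j7_ite_cont (j7_wS_cont i)).sub ((j7_wS_cont i).mul (j7_wS_cont j))

private theorem j7_ST_cont {k : ℕ} (i j l : Fin k) :
    Continuous (fun x : Fin k → ℝ => ST x i j l) := by
  unfold ST
  exact ((j7_ite_cont (j7_SH_cont i l)).sub ((j7_SH_cont i l).mul (j7_wS_cont j))).sub
    ((j7_wS_cont i).mul (j7_SH_cont j l))

private theorem j7_SU_cont {k : ℕ} (i j l m : Fin k) :
    Continuous (fun x : Fin k → ℝ => SU x i j l m) := by
  unfold SU
  exact ((((j7_ite_cont (j7_ST_cont i l m)).sub ((j7_ST_cont i l m).mul (j7_wS_cont j))).sub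
    ((j7_SH_cont i l).mul (j7_SH_cont j m))).sub ((j7_SH_cont i m).mul (j7_SH_cont j l))).sub
    ((j7_wS_cont i).mul (j7_ST_cont j l m))

/-- [J7g] bounds and continuity (`0 < w ≤ 1`; `phi`, `wS` are continuous). -/
theorem soft_bdd {k : ℕ} :
    (∀ (x : Fin k → ℝ) i j, |SH x i j| ≤ 2) ∧ (∀ (x : Fin k → ℝ) i j l, |ST x i j l| ≤ 6) ∧
    (∀ (x : Fin k → ℝ) i j l m, |SU x i j l m| ≤ 26) ∧ Continuous (phi (k := k)) ∧
    (∀ i, Continuous (fun x : Fin k → ℝ => wS x i)) ∧
    (∀ i j, Continuous (fun x : Fin k → ℝ => SH x i j)) ∧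
    (∀ i j l, Continuous (fun x : Fin k → ℝ => ST x i j l)) ∧
    (∀ i j l m, Continuous (fun x : Fin k → ℝ => SU x i j l m)) := by
  refine ⟨j7_SH_bdd, j7_ST_bdd, j7_SU_bdd, ?_, j7_wS_cont, j7_SH_cont, j7_ST_cont, j7_SU_cont⟩
  unfold phi
  exact j7_Zs_cont.log fun x => (j7_Zs_pos x).ne'

end Pool.Agent.SSQ
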