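import Pool.Agent.SSQ.Defs

set_option autoImplicit false
open MeasureTheory ProbabilityTheory Set Real

namespace Pool.Agent.SSQ
open Pool.Agent.SSC3N (gam GG TT)

/-! Part II: one-dimensional Gaussian functions. -/

/-- Gaussian density. -/
noncomputable def ph (t : ℝ) : ℝ := gaussianPDFReal 0 1 t

/-- Gaussian distribution function. -/
noncomputable def Ph (t : ℝ) : ℝ := ∫ v in Iic t, ph v

/-- `φ/Φ`. -/
noncomputable def rr (t : ℝ) : ℝ := ph t / Ph t

noncomputable def psi (t : ℝ) : ℝ := t + rr t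

noncomputable def ww (t : ℝ) : ℝ := 1 - t * rr t - rr t ^ 2

/-- `h_m = ∫ φ² Φ^m` (`m = q - 2`). -/
noncomputable def hh (m : ℕ) : ℝ := ∫ t, ph t ^ 2 * Ph t ^ m

theorem n1_ph_eq (t : ℝ) : ph t = (Real.sqrt (2 * π))⁻¹ * Real.exp (-(t ^ 2 / 2)) := by
  unfold ph gaussianPDFReal
  rw [sub_zero]
  norm_num
  left
  ring_nf

theorem n1_ph_pos (t : ℝ) : 0 < ph t := gaussianPDFReal_pos 0 1 t one_ne_zero

theorem n1_c_le : (Real.sqrt (2 * π))⁻¹ ≤ 1 := by
  have h1 : (1 : ℝ) ≤ Real.sqrt (2 * π) := by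
    rw [Real.one_le_sqrt]
    nlinarith [Real.pi_gt_three]
  exact inv_le_one_of_one_le₀ h1

theorem n1_c_nonneg : 0 ≤ (Real.sqrt (2 * π))⁻¹ := inv_nonneg.mpr (Real.sqrt_nonneg _)

theorem n1_ph_le (t : ℝ) : ph t ≤ 1 := by
  rw [n1_ph_eq]
  have h1 := n1_c_le
  have h0 := n1_c_nonneg
  have h2 : Real.exp (-(t ^ 2 / 2)) ≤ 1 := by
    rw [Real.exp_le_one_iff]
    nlinarith [sq_nonneg t]
  calc (Real.sqrt (2 * π))⁻¹ * Real.exp (-(t ^ 2 / 2)) ≤ 1 * 1 :=
        mul_le_mul h1 h2 (Real.exp_pos _).le zero_le_one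
    _ = 1 := one_mul 1

theorem n1_ph_deriv (t : ℝ) : HasDerivAt ph (-(t * ph t)) t := by
  have he : ph = fun t : ℝ => (Real.sqrt (2 * π))⁻¹ * Real.exp (-(t ^ 2 / 2)) := funext n1_ph_eq
  have h1 : HasDerivAt (fun t : ℝ => -(t ^ 2 / 2)) (-t) t := by
    have h := ((hasDerivAt_pow 2 t).div_const 2).neg
    refine h.congr_deriv ?_
    norm_num
  have h2 := (h1.exp).const_mul ((Real.sqrt (2 * π))⁻¹)
  rw [n1_ph_eq t]
  nth_rewrite 1 [he]
  refine h2.congr_deriv ?_
  ring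

theorem n1_ph_cont : Continuous ph := by
  rw [continuous_iff_continuousAt]
  intro t
  exact (n1_ph_deriv t).continuousAt

theorem n1_deriv_le (t : ℝ) : |-(t * ph t)| ≤ 1 := by
  rw [abs_neg, abs_mul, abs_of_pos (n1_ph_pos t), n1_ph_eq]
  have h1 : |t| ≤ Real.exp (t ^ 2 / 2) := by
    have h2 := Real.add_one_le_exp (t ^ 2 / 2)
    have h3 : |t| ≤ t ^ 2 / 2 + 1 := by
      rw [abs_le]
      constructor
      · nlinarith [sq_nonneg (t + 1)]
      · nlinarith [sq_nonneg (t - 1)]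
    linarith
  have h0 := n1_c_nonneg
  have h4 := n1_c_le
  have h5 : |t| * Real.exp (-(t ^ 2 / 2)) ≤ 1 := by
    calc |t| * Real.exp (-(t ^ 2 / 2)) ≤ Real.exp (t ^ 2 / 2) * Real.exp (-(t ^ 2 / 2)) :=
          mul_le_mul_of_nonneg_right h1 (Real.exp_pos _).le
      _ = 1 := by rw [← Real.exp_add, add_neg_cancel, Real.exp_zero]
  calc |t| * ((Real.sqrt (2 * π))⁻¹ * Real.exp (-(t ^ 2 / 2)))
      = (Real.sqrt (2 * π))⁻¹ * (|t| * Real.exp (-(t ^ 2 / 2))) := by ring
    _ ≤ 1 * 1 := mul_le_mul h4 h5 (mul_nonneg (abs_nonneg _) (Real.exp_pos _).le) zero_le_one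
    _ = 1 := one_mul 1

theorem n1_ph_int : Integrable ph := integrable_gaussianPDFReal 0 1

theorem n1_ph_int1 : Integrable (fun v : ℝ => v * ph v) := by
  have h := integrable_rpow_mul_exp_neg_mul_sq (b := 1 / 2) (by norm_num) (s := 1) (by norm_num)
  have h2 := h.const_mul ((Real.sqrt (2 * π))⁻¹)
  refine h2.congr (Filter.Eventually.of_forall ?_)
  intro v
  simp only [Real.rpow_one]
  rw [n1_ph_eq v]
  have : -(1 / 2 : ℝ) * v ^ 2 = -(v ^ 2 / 2) := by ring
  rw [this]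
  ring

theorem n1_ph_int2 : Integrable (fun v : ℝ => v ^ 2 * ph v) := by
  have h := integrable_rpow_mul_exp_neg_mul_sq (b := 1 / 2) (by norm_num) (s := 2) (by norm_num)
  have h2 := h.const_mul ((Real.sqrt (2 * π))⁻¹)
  refine h2.congr (Filter.Eventually.of_forall ?_)
  intro v
  simp only [Real.rpow_two]
  rw [n1_ph_eq v]
  have : -(1 / 2 : ℝ) * v ^ 2 = -(v ^ 2 / 2) := by ring
  rw [this]
  ring

theorem n1_Ph_deriv (t : ℝ) : HasDerivAt Ph (ph t) t := by
  have he : Ph = fun t : ℝ => Ph 0 + ∫ v in (0:ℝ)..t, ph v := by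
    funext t
    have := intervalIntegral.integral_Iic_sub_Iic (f := ph) (μ := volume) (a := 0) (b := t)
      n1_ph_int.integrableOn n1_ph_int.integrableOn
    rw [← this]
    show (∫ v in Iic t, ph v) = (∫ v in Iic 0, ph v) + _
    ring
  rw [he]
  have h := intervalIntegral.integral_hasDerivAt_right (f := ph) (a := 0) (b := t)
    (n1_ph_cont.intervalIntegrable 0 t)
    (n1_ph_cont.stronglyMeasurableAtFilter volume (nhds t)) n1_ph_cont.continuousAt
  exact h.const_add (Ph 0)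

theorem n1_Ph_pos (t : ℝ) : 0 < Ph t := by
  unfold Ph
  rw [setIntegral_pos_iff_support_of_nonneg_ae]
  · have : Function.support ph = univ := by
      ext v
      simp only [Function.mem_support, mem_univ, iff_true]
      exact (n1_ph_pos v).ne'
    rw [this, univ_inter, Real.volume_Iic]
    exact ENNReal.zero_lt_top
  · exact Filter.Eventually.of_forall (fun v => (n1_ph_pos v).le)
  · exact n1_ph_int.integrableOn

theorem n1_Ph_le (t : ℝ) : Ph t ≤ 1 := by
  have h1 : ∫ v, ph v = 1 := integral_gaussianPDFReal_eq_one 0 one_ne_zero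
  rw [← h1]
  exact setIntegral_le_integral n1_ph_int
    (Filter.Eventually.of_forall (fun v => (n1_ph_pos v).le))

theorem n1_Ph_meas (t : ℝ) : (gaussianReal 0 1).real (Iic t) = Ph t := by
  unfold Measure.real
  rw [gaussianReal_apply_eq_integral 0 one_ne_zero]
  exact ENNReal.toReal_ofReal (n1_Ph_pos t).le

theorem n1_trans (t : ℝ) (g : ℝ → ℝ) :
    ∫ v, (if v ≤ t then g v else 0) ∂(gaussianReal 0 1) = ∫ v in Iic t, ph v * g v := by
  rw [integral_gaussianReal_eq_integral_smul one_ne_zero, ← integral_indicator measurableSet_Iic]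
  refine integral_congr_ae (Filter.Eventually.of_forall ?_)
  intro v
  show gaussianPDFReal 0 1 v • (if v ≤ t then g v else 0) = _
  by_cases hv : v ≤ t
  · rw [if_pos hv, indicator_of_mem (show v ∈ Iic t from hv)]
    rfl
  · rw [if_neg hv, indicator_of_notMem (show v ∉ Iic t from hv), smul_zero]

theorem n1_ph_lim : Filter.Tendsto ph Filter.atBot (nhds 0) :=
  tendsto_zero_of_hasDerivAt_of_integrableOn_Iic (a := 0) (fun x _ => n1_ph_deriv x)
    (n1_ph_int1.neg.integrableOn) n1_ph_int.integrableOn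

theorem n1_vph_deriv (x : ℝ) : HasDerivAt (fun v : ℝ => v * ph v) (ph x - x ^ 2 * ph x) x := by
  have h := (hasDerivAt_id x).mul (n1_ph_deriv x)
  refine h.congr_deriv ?_
  simp only [id]
  ring

theorem n1_vph_lim : Filter.Tendsto (fun v : ℝ => v * ph v) Filter.atBot (nhds 0) :=
  tendsto_zero_of_hasDerivAt_of_integrableOn_Iic (a := 0) (fun x _ => n1_vph_deriv x)
    ((n1_ph_int.sub n1_ph_int2).integrableOn) n1_ph_int1.integrableOn

theorem n1_Ph_lim : Filter.Tendsto Ph Filter.atBot (nhds 0) := by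
  have h := tendsto_cdf_atBot (gaussianReal 0 1)
  refine h.congr ?_
  intro t
  rw [cdf_eq_real, n1_Ph_meas]

/-- [N1a] the density: `φ(t) = e^{-t²/2}/√(2π)`; `|φ'| = |t| φ ≤ 1` gives the Lipschitz bound (mean value). -/
theorem ph_basic : Continuous ph ∧ (∀ t, 0 < ph t) ∧ (∀ t, ph t ≤ 1) ∧
    (∀ t, HasDerivAt ph (-(t * ph t)) t) ∧ (∀ s t, |ph s - ph t| ≤ |s - t|) ∧
    (∀ t, ph t = (Real.sqrt (2 * π))⁻¹ * Real.exp (-(t ^ 2 / 2))) := by
  refine ⟨n1_ph_cont, n1_ph_pos, n1_ph_le, n1_ph_deriv, ?_, n1_ph_eq⟩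
  intro s t
  have h := Convex.norm_image_sub_le_of_norm_hasDerivWithin_le (f := ph)
    (f' := fun t => -(t * ph t)) (C := 1) (s := univ) (x := t) (y := s)
    (fun x _ => (n1_ph_deriv x).hasDerivWithinAt) (fun x _ => n1_deriv_le x) convex_univ
    (mem_univ _) (mem_univ _)
  rw [one_mul] at h
  exact h

/-- [N1b] the distribution function. -/
theorem Ph_basic : Continuous Ph ∧ (∀ t, 0 < Ph t) ∧ (∀ t, Ph t ≤ 1) ∧
    (∀ t, HasDerivAt Ph (ph t) t) ∧ (∀ t, (gaussianReal 0 1).real (Iic t) = Ph t) ∧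
    (∀ t, ∫ v, (if v ≤ t then (1:ℝ) else 0) ∂(gaussianReal 0 1) = Ph t) := by
  refine ⟨?_, n1_Ph_pos, n1_Ph_le, n1_Ph_deriv, n1_Ph_meas, ?_⟩
  · rw [continuous_iff_continuousAt]
    intro t
    exact (n1_Ph_deriv t).continuousAt
  · intro t
    rw [n1_trans t (fun _ => (1:ℝ))]
    simp only [mul_one]
    rfl

/-- [N1c] `∫_{v ≤ t} (v - t) φ = -(φ(t) + t Φ(t)) = -Φ ψ`. -/
theorem tail_one (t : ℝ) : ∫ v, (if v ≤ t then v - t else 0) ∂(gaussianReal 0 1) = -(Ph t * psi t) := by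
  rw [n1_trans t (fun v => v - t)]
  have hd : ∀ x ∈ Iic t, HasDerivAt (fun v : ℝ => -ph v - t * Ph v) (ph x * (x - t)) x := by
    intro x _
    have h := (n1_ph_deriv x).neg.sub ((n1_Ph_deriv x).const_mul t)
    refine h.congr_deriv ?_
    ring
  have hi : IntegrableOn (fun v : ℝ => ph v * (v - t)) (Iic t) := by
    have h : Integrable (fun v : ℝ => ph v * (v - t)) := by
      refine (n1_ph_int1.sub (n1_ph_int.const_mul t)).congr (Filter.Eventually.of_forall ?_)
      intro v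
      simp only [Pi.sub_apply]
      ring
    exact h.integrableOn
  have hl : Filter.Tendsto (fun v : ℝ => -ph v - t * Ph v) Filter.atBot (nhds 0) := by
    have h := n1_ph_lim.neg.sub (n1_Ph_lim.const_mul t)
    rw [neg_zero, mul_zero, sub_zero] at h
    exact h
  rw [integral_Iic_of_hasDerivAt_of_tendsto' hd hi hl]
  unfold psi rr
  have hp := (n1_Ph_pos t).ne'
  field_simp
  ring

/-- [N1d] `∫_{v ≤ t} (v - t)² φ = (1+t²) Φ + t φ = Φ (ψ² + w)`. -/
theorem tail_two (t : ℝ) :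
    ∫ v, (if v ≤ t then (v - t) ^ 2 else 0) ∂(gaussianReal 0 1) = Ph t * (psi t ^ 2 + ww t) := by
  rw [n1_trans t (fun v => (v - t) ^ 2)]
  have hd : ∀ x ∈ Iic t, HasDerivAt (fun v : ℝ => (1 + t ^ 2) * Ph v + 2 * t * ph v - v * ph v)
      (ph x * (x - t) ^ 2) x := by
    intro x _
    have h := (((n1_Ph_deriv x).const_mul (1 + t ^ 2)).add
      ((n1_ph_deriv x).const_mul (2 * t))).sub (n1_vph_deriv x)
    refine h.congr_deriv ?_
    ring
  have hi : IntegrableOn (fun v : ℝ => ph v * (v - t) ^ 2) (Iic t) := by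
    have h : Integrable (fun v : ℝ => ph v * (v - t) ^ 2) := by
      refine ((n1_ph_int2.sub (n1_ph_int1.const_mul (2 * t))).add
        (n1_ph_int.const_mul (t ^ 2))).congr (Filter.Eventually.of_forall ?_)
      intro v
      simp only [Pi.sub_apply, Pi.add_apply]
      ring
    exact h.integrableOn
  have hl : Filter.Tendsto (fun v : ℝ => (1 + t ^ 2) * Ph v + 2 * t * ph v - v * ph v)
      Filter.atBot (nhds 0) := by
    have h := ((n1_Ph_lim.const_mul (1 + t ^ 2)).add (n1_ph_lim.const_mul (2 * t))).sub n1_vph_lim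
    rw [mul_zero, mul_zero, add_zero, sub_zero] at h
    exact h
  rw [integral_Iic_of_hasDerivAt_of_tendsto' hd hi hl]
  unfold psi ww rr
  have hp := (n1_Ph_pos t).ne'
  field_simp
  ring

end Pool.Agent.SSQ
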