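import Pool.Agent.SSQ.N9
import Pool.Agent.SSQ.N3

set_option autoImplicit false
open MeasureTheory ProbabilityTheory Set Real

namespace Pool.Agent.SSQ
open Pool.Agent.SSC3N (gam GG TT)

private theorem n10_prob (m : ℕ) : IsProbabilityMeasure (gam m) := by
  unfold gam; infer_instance

private instance n10_inst (m : ℕ) : IsProbabilityMeasure (gam m) := n10_prob m

private theorem n10_cf1 (L : StrongDual ℝ ℝ) :
    charFunDual (gaussianReal 0 1) L = Complex.exp (-((L 1 : ℝ) : ℂ) ^ 2 / 2) := by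
  have h1 : charFunDual (gaussianReal 0 1) L = charFun (gaussianReal 0 1) (L 1) := by
    rw [charFunDual_apply, charFun_apply_real]
    congr 1
    ext v
    have : L v = L 1 * v := by
      have := L.map_smul v 1
      simp only [smul_eq_mul, mul_one] at this
      rw [this, mul_comm]
    rw [this]
    push_cast
    ring_nf
  rw [h1, charFun_gaussianReal]
  congr 1
  push_cast
  ring

private theorem n10_cf {m : ℕ} (L : StrongDual ℝ (Fin m → ℝ)) :
    charFunDual (gam m) L = Complex.exp (-((∑ i, (L (Pi.single i 1)) ^ 2 : ℝ) : ℂ) / 2) := by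
  unfold gam
  rw [charFunDual_pi]
  simp_rw [n10_cf1]
  rw [← Complex.exp_sum]
  congr 1
  push_cast
  rw [← Finset.sum_div, ← Finset.sum_neg_distrib]
  rfl

/-- the linear map `z ↦ ∑ z_a C_a`. -/
private noncomputable def n10_lin {n q : ℕ} (C : Fin n → Fin q → ℝ) :
    (Fin n → ℝ) →L[ℝ] (Fin q → ℝ) :=
  ∑ a, (ContinuousLinearMap.proj (R := ℝ) (φ := fun _ : Fin n => ℝ) a).smulRight (C a)

private theorem n10_lin_apply {n q : ℕ} (C : Fin n → Fin q → ℝ) (z : Fin n → ℝ) :
    n10_lin C z = ∑ a, z a • C a := by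
  unfold n10_lin
  rw [ContinuousLinearMap.sum_apply]
  rfl

private theorem n10_lin_single {n q : ℕ} (C : Fin n → Fin q → ℝ) (a : Fin n) :
    n10_lin C (Pi.single a 1) = C a := by
  rw [n10_lin_apply, Finset.sum_eq_single a]
  · simp
  · intro b _ hb
    simp [Pi.single_eq_of_ne hb]
  · intro h
    exact absurd (Finset.mem_univ a) h

private theorem n10_expand {q : ℕ} (L : StrongDual ℝ (Fin q → ℝ)) (v : Fin q → ℝ) :
    L v = ∑ i, v i * L (Pi.single i 1) := by
  have h := LinearMap.pi_apply_eq_sum_univ (L : (Fin q → ℝ) →ₗ[ℝ] ℝ) v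
  simp only [smul_eq_mul] at h
  calc L v = (L : (Fin q → ℝ) →ₗ[ℝ] ℝ) v := rfl
    _ = _ := h
    _ = ∑ i, v i * L (Pi.single i 1) := by
      refine Finset.sum_congr rfl fun i _ => ?_
      congr 1
      show L _ = L _
      congr 1
      funext j
      by_cases hj : j = i
      · subst hj; simp
      · simp [Pi.single_apply, hj, Ne.symm hj]

private theorem n10_quad {n q : ℕ} (C : Fin n → Fin q → ℝ) (L : StrongDual ℝ (Fin q → ℝ)) :
    ∑ a, (L (C a)) ^ 2 =
      ∑ i, ∑ j, L (Pi.single i 1) * L (Pi.single j 1) * Gr C i j := by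
  unfold Gr
  have h1 : ∀ a, (L (C a)) ^ 2 =
      ∑ i, ∑ j, L (Pi.single i 1) * L (Pi.single j 1) * (C a i * C a j) := by
    intro a
    rw [n10_expand L (C a), sq, Finset.sum_mul_sum]
    refine Finset.sum_congr rfl fun i _ => Finset.sum_congr rfl fun j _ => ?_
    ring
  simp_rw [h1]
  rw [Finset.sum_comm]
  refine Finset.sum_congr rfl fun i _ => ?_
  rw [Finset.sum_comm]
  refine Finset.sum_congr rfl fun j _ => ?_
  rw [Finset.mul_sum]

private theorem n10_cfmap {n q : ℕ} (C : Fin n → Fin q → ℝ) (L : StrongDual ℝ (Fin q → ℝ)) :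
    charFunDual ((gam n).map (n10_lin C)) L =
      Complex.exp (-((∑ i, ∑ j, L (Pi.single i 1) * L (Pi.single j 1) * Gr C i j : ℝ) : ℂ) / 2) := by
  rw [charFunDual_map, n10_cf]
  congr 4
  rw [← n10_quad]
  refine Finset.sum_congr rfl fun a _ => ?_
  rw [ContinuousLinearMap.comp_apply, n10_lin_single]

/-- [N10a] LAW.  A centred Gaussian vector is determined by its covariance: the images of two standard Gaussian
measures under linear maps with equal Gram matrices coincide.
PROOF.  Characteristic functions: `Measure.ext_of_charFun` (transport to `EuclideanSpace` or use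
`charFunDual`/`Measure.ext_of_charFunDual` on `Fin q → ℝ` as in the proof of `GG_semigroup` in
`Pool/Agent/SSC3N/Noise.lean`): `E exp(i ∑_j t_j (∑_a z_a C_aj)) = ∏_a exp(-(∑_j t_j C_aj)²/2) = exp(-½ ∑_ij t_i t_j G_ij)`.
Alternative: both are Gaussian measures (`IsGaussian`) with the same mean and covariance. -/
theorem law_map {q n n' : ℕ} (C : Fin n → Fin q → ℝ) (C' : Fin n' → Fin q → ℝ)
    (h : ∀ i j, Gr C i j = Gr C' i j) :
    (gam n).map (fun z => ∑ a, z a • C a) = (gam n').map (fun z => ∑ a, z a • C' a) := by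
  have e1 : (fun z : Fin n → ℝ => ∑ a, z a • C a) = n10_lin C := by
    funext z; rw [n10_lin_apply]
  have e2 : (fun z : Fin n' → ℝ => ∑ a, z a • C' a) = n10_lin C' := by
    funext z; rw [n10_lin_apply]
  rw [e1, e2]
  have : IsProbabilityMeasure (Measure.map (n10_lin C) (gam n)) :=
    Measure.isProbabilityMeasure_map (n10_lin C).continuous.measurable.aemeasurable
  have : IsProbabilityMeasure (Measure.map (n10_lin C') (gam n')) :=
    Measure.isProbabilityMeasure_map (n10_lin C').continuous.measurable.aemeasurable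
  refine Measure.ext_of_charFunDual ?_
  ext L
  rw [n10_cfmap, n10_cfmap]
  simp_rw [h]

/-- [N10b] the two-stage version: the law of `√(1-s) C₀ z + √s C₁ z'` (`z, z'` independent). -/
theorem law_map2 {q n0 n1 n2 : ℕ} (C0 : Fin n0 → Fin q → ℝ) (C1 : Fin n1 → Fin q → ℝ)
    (C2 : Fin n2 → Fin q → ℝ) (s : ℝ) (hs0 : 0 ≤ s) (hs1 : s ≤ 1)
    (h : ∀ i j, (1 - s) * Gr C0 i j + s * Gr C1 i j = Gr C2 i j) :
    ((gam n0).prod (gam n1)).map (fun p => Real.sqrt (1 - s) • (∑ a, p.1 a • C0 a)
      + Real.sqrt s • (∑ a, p.2 a • C1 a)) = (gam n2).map (fun z => ∑ a, z a • C2 a) := by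
  let Φ : ((Fin n0 → ℝ) × (Fin n1 → ℝ)) →L[ℝ] (Fin q → ℝ) :=
    Real.sqrt (1 - s) • (n10_lin C0).comp (ContinuousLinearMap.fst ℝ _ _) +
      Real.sqrt s • (n10_lin C1).comp (ContinuousLinearMap.snd ℝ _ _)
  have e1 : (fun p : (Fin n0 → ℝ) × (Fin n1 → ℝ) => Real.sqrt (1 - s) • (∑ a, p.1 a • C0 a)
      + Real.sqrt s • (∑ a, p.2 a • C1 a)) = (Φ : _ → _) := by
    funext p
    show _ = Real.sqrt (1 - s) • n10_lin C0 p.1 + Real.sqrt s • n10_lin C1 p.2
    rw [n10_lin_apply, n10_lin_apply]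
  have e2 : (fun z : Fin n2 → ℝ => ∑ a, z a • C2 a) = n10_lin C2 := by
    funext z; rw [n10_lin_apply]
  rw [e1, e2]
  have : IsProbabilityMeasure (Measure.map Φ ((gam n0).prod (gam n1))) :=
    Measure.isProbabilityMeasure_map Φ.continuous.measurable.aemeasurable
  have : IsProbabilityMeasure (Measure.map (n10_lin C2) (gam n2)) :=
    Measure.isProbabilityMeasure_map (n10_lin C2).continuous.measurable.aemeasurable
  refine Measure.ext_of_charFunDual ?_
  ext L
  rw [n10_cfmap, charFunDual_map, charFunDual_prod, n10_cf, n10_cf, ← Complex.exp_add]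
  congr 1
  have r0 : Real.sqrt (1 - s) ^ 2 = 1 - s := Real.sq_sqrt (by linarith)
  have r1 : Real.sqrt s ^ 2 = s := Real.sq_sqrt hs0
  have a0 : ∀ a : Fin n0, (((L.comp Φ).comp (.inl ℝ _ _)) (Pi.single a 1)) ^ 2
      = (1 - s) * (L (C0 a)) ^ 2 := by
    intro a
    have : ((L.comp Φ).comp (.inl ℝ _ _)) (Pi.single a 1) = Real.sqrt (1 - s) * L (C0 a) := by
      show L (Real.sqrt (1 - s) • n10_lin C0 (Pi.single a 1) + Real.sqrt s • n10_lin C1 0) = _
      rw [n10_lin_single, map_zero, smul_zero, add_zero, map_smul, smul_eq_mul]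
    rw [this, mul_pow, r0]
  have a1 : ∀ a : Fin n1, (((L.comp Φ).comp (.inr ℝ _ _)) (Pi.single a 1)) ^ 2
      = s * (L (C1 a)) ^ 2 := by
    intro a
    have : ((L.comp Φ).comp (.inr ℝ _ _)) (Pi.single a 1) = Real.sqrt s * L (C1 a) := by
      show L (Real.sqrt (1 - s) • n10_lin C0 0 + Real.sqrt s • n10_lin C1 (Pi.single a 1)) = _
      rw [n10_lin_single, map_zero, smul_zero, zero_add, map_smul, smul_eq_mul]
    rw [this, mul_pow, r1]
  rw [Finset.sum_congr rfl fun a _ => a0 a, Finset.sum_congr rfl fun a _ => a1 a,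
    ← Finset.mul_sum, ← Finset.mul_sum, n10_quad, n10_quad, ← add_div, ← neg_add,
    ← Complex.ofReal_add]
  congr 4
  rw [Finset.mul_sum, Finset.mul_sum, ← Finset.sum_add_distrib]
  refine Finset.sum_congr rfl fun i _ => ?_
  rw [Finset.mul_sum, Finset.mul_sum, ← Finset.sum_add_distrib]
  refine Finset.sum_congr rfl fun j _ => ?_
  rw [← h i j]
  ring

/-- [N10c] integrals of continuous functions of linear growth (`law_map2`, `integral_map`, Fubini `integral_prod`,
integrability from `gam_poly`). -/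
theorem law_Gm {q n0 n1 n2 : ℕ} (C0 : Fin n0 → Fin q → ℝ) (C1 : Fin n1 → Fin q → ℝ)
    (C2 : Fin n2 → Fin q → ℝ) (s : ℝ) (hs0 : 0 ≤ s) (hs1 : s ≤ 1)
    (h : ∀ i j, (1 - s) * Gr C0 i j + s * Gr C1 i j = Gr C2 i j) (F : (Fin q → ℝ) → ℝ)
    (hF : Continuous F) (K : ℝ) (hK : ∀ x, |F x| ≤ K * (1 + ∑ l, |x l|)) (lam : Fin q → ℝ) :
    Gm C0 C1 F s lam = ∫ z, F (lam + ∑ a, z a • C2 a) ∂(gam n2) := by
  have hK0 : 0 ≤ K := by
    have := hK 0
    simp only [Pi.zero_apply, abs_zero, Finset.sum_const_zero, add_zero, mul_one] at this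
    exact le_trans (abs_nonneg _) this
  set T : (Fin n0 → ℝ) × (Fin n1 → ℝ) → (Fin q → ℝ) := fun p =>
    Real.sqrt (1 - s) • (∑ a, p.1 a • C0 a) + Real.sqrt s • (∑ a, p.2 a • C1 a) with hT
  set S : (Fin n2 → ℝ) → (Fin q → ℝ) := fun z => ∑ a, z a • C2 a with hS
  have hTc : Continuous T := by
    rw [hT]; fun_prop
  have hSc : Continuous S := by
    rw [hS]; fun_prop
  have hlaw : ((gam n0).prod (gam n1)).map T = (gam n2).map S :=
    law_map2 C0 C1 C2 s hs0 hs1 h
  have hG : Continuous (fun x : Fin q → ℝ => F (lam + x)) := by fun_prop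
  -- integrability on the right
  have hi2 : Integrable (fun z => F (lam + S z)) (gam n2) := by
    have hp := gam_poly n2 1
    simp only [pow_one] at hp
    have hb := hp.const_mul (K * (1 + ∑ l, |lam l| + ∑ l, ∑ a, |C2 a l|))
    refine hb.mono' (hG.comp hSc).aestronglyMeasurable (Filter.Eventually.of_forall fun z => ?_)
    rw [Real.norm_eq_abs]
    refine le_trans (hK _) ?_
    rw [mul_assoc]
    refine mul_le_mul_of_nonneg_left ?_ hK0
    have hz : 0 ≤ ∑ a, |z a| := Finset.sum_nonneg fun _ _ => abs_nonneg _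
    have hl : 0 ≤ ∑ l, |lam l| := Finset.sum_nonneg fun _ _ => abs_nonneg _
    have hc : 0 ≤ ∑ l, ∑ a, |C2 a l| :=
      Finset.sum_nonneg fun _ _ => Finset.sum_nonneg fun _ _ => abs_nonneg _
    have h1 : ∀ l, |(lam + S z) l| ≤ |lam l| + (∑ a, |C2 a l|) * ∑ a, |z a| := by
      intro l
      have : (lam + S z) l = lam l + ∑ a, z a * C2 a l := by
        simp [hS, Finset.sum_apply]
      rw [this]
      refine le_trans (abs_add_le _ _) (add_le_add le_rfl ?_)
      refine le_trans (Finset.abs_sum_le_sum_abs _ _) ?_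
      rw [Finset.sum_mul]
      refine Finset.sum_le_sum fun a _ => ?_
      rw [abs_mul, mul_comm]
      exact mul_le_mul_of_nonneg_left
        (Finset.single_le_sum (f := fun a => |z a|) (fun _ _ => abs_nonneg _) (Finset.mem_univ a))
        (abs_nonneg _)
    have h2 : ∑ l, |(lam + S z) l| ≤ ∑ l, |lam l| + (∑ l, ∑ a, |C2 a l|) * ∑ a, |z a| := by
      refine le_trans (Finset.sum_le_sum fun l _ => h1 l) ?_
      rw [Finset.sum_add_distrib, Finset.sum_mul]
    nlinarith [mul_nonneg hl hz, mul_nonneg hc hz]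
  have hi1 : Integrable (fun p => F (lam + T p)) ((gam n0).prod (gam n1)) := by
    have ha : Integrable (fun x : Fin q → ℝ => F (lam + x)) ((gam n2).map S) :=
      (integrable_map_measure hG.aestronglyMeasurable hSc.measurable.aemeasurable).2 hi2
    rw [← hlaw] at ha
    exact (integrable_map_measure hG.aestronglyMeasurable hTc.measurable.aemeasurable).1 ha
  have hpt : ∀ z z', pt C0 C1 s lam z z' = lam + T (z, z') := by
    intro z z'
    simp only [pt, hT, add_assoc]
  have e1 : Gm C0 C1 F s lam = ∫ p, F (lam + T p) ∂((gam n0).prod (gam n1)) := by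
    rw [integral_prod _ hi1]
    unfold Gm
    simp_rw [hpt]
  rw [e1, ← integral_map (φ := T) hTc.measurable.aemeasurable (f := fun x => F (lam + x))
    hG.aestronglyMeasurable, hlaw,
    integral_map (φ := S) hSc.measurable.aemeasurable (f := fun x => F (lam + x))
    hG.aestronglyMeasurable]

end Pool.Agent.SSQ
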