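import Pool.Agent.SSQ.N8
import Pool.Agent.SSQ.N10
import Pool.Agent.SSQ.J13

set_option autoImplicit false
open MeasureTheory ProbabilityTheory Set Real

namespace Pool.Agent.SSQ
open Pool.Agent.SSC3N (gam GG TT)

private instance n11_prob (m : ℕ) : IsProbabilityMeasure (gam m) := by
  unfold Pool.Agent.SSC3N.gam
  infer_instance

private lemma n11_coord {n : ℕ} (j : Fin n) :
    Integrable (fun z : Fin n → ℝ => z j) (gam n) := by
  have h := integrable_abs_coord j
  exact (integrable_norm_iff (measurable_pi_apply j).aestronglyMeasurable).1 h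

private lemma n11_mx_sub {k : ℕ} (w : Fin (k + 1) → ℝ) (c : ℝ) :
    mx (fun i => w i - c) = mx w - c := by
  unfold mx
  apply le_antisymm
  · refine Finset.sup'_le _ _ fun i hi => ?_
    have h1 := Finset.le_sup' w hi
    linarith
  · rw [sub_le_iff_le_add]
    refine Finset.sup'_le _ _ fun i hi => ?_
    have h1 : w i - c ≤ Finset.univ.sup' Finset.univ_nonempty (fun i => w i - c) :=
      Finset.le_sup' (fun i => w i - c) hi
    linarith

/-- [N11a] the columns of `Π + B` (as vectors of `ℝ^q`, indexed by `Fin q`): for `x ~ gam q`,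
`mx (λ + ∑_a x_a • (Π+B)_a) = mx (x + Bx + λ) - mean x`, so the integrals agree. -/
theorem int_cols (m : ℕ) (B : Fin (m + 2) → Fin (m + 2) → ℝ) (hB : ∀ i l, B i l = B l i)
    (lam : Fin (m + 2) → ℝ) :
    ∫ x, mx (lam + ∑ a, x a • (fun i => Pc (m + 2) a i + B a i)) ∂(gam (m + 2)) =
      ∫ x, mx (fun i => x i + ∑ l, B i l * x l + lam i) ∂(gam (m + 2)) := by
  obtain ⟨-, -, -, -, hcont, hbd⟩ := cl_basic (m + 1)
  have hpt : ∀ x : Fin (m + 2) → ℝ,
      mx (lam + ∑ a, x a • (fun i => Pc (m + 2) a i + B a i)) =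
        mx (fun i => x i + ∑ l, B i l * x l + lam i) - (∑ a, x a) / ((m + 2 : ℕ) : ℝ) := by
    intro x
    rw [← n11_mx_sub]
    congr 1
    funext i
    rw [Pi.add_apply, Finset.sum_apply]
    have h1 : ∀ a, (x a • (fun i => Pc (m + 2) a i + B a i)) i =
        (if a = i then x a else 0) - x a * (1 / ((m + 2 : ℕ) : ℝ)) + B i a * x a := by
      intro a
      rw [Pi.smul_apply, smul_eq_mul, hB i a]
      unfold Pc
      split_ifs <;> ring
    simp only [h1]
    rw [Finset.sum_add_distrib, Finset.sum_sub_distrib, ← Finset.sum_mul]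
    simp only [Finset.sum_ite_eq', Finset.mem_univ, if_true]
    ring
  have hw : ∀ i, Integrable (fun x : Fin (m + 2) → ℝ => x i + ∑ l, B i l * x l + lam i)
      (gam (m + 2)) := by
    intro i
    refine Integrable.add (Integrable.add (n11_coord i) ?_) (integrable_const _)
    exact integrable_finsetSum _ fun l _ => (n11_coord l).const_mul _
  have hmx : Integrable (fun x : Fin (m + 2) → ℝ =>
      mx (fun i => x i + ∑ l, B i l * x l + lam i)) (gam (m + 2)) := by
    have hg : Integrable (fun x : Fin (m + 2) → ℝ => ∑ i, |x i + ∑ l, B i l * x l + lam i|)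
        (gam (m + 2)) := integrable_finsetSum _ fun i _ => (hw i).abs
    refine Integrable.mono' hg ?_ (Filter.Eventually.of_forall fun x => ?_)
    · have hc : Continuous (fun x : Fin (m + 2) → ℝ =>
          (fun i => x i + ∑ l, B i l * x l + lam i : Fin (m + 2) → ℝ)) := by
        fun_prop
      exact (hcont.comp hc).aestronglyMeasurable
    · rw [Real.norm_eq_abs]
      exact hbd _
  have hs : Integrable (fun x : Fin (m + 2) → ℝ => (∑ a, x a) / ((m + 2 : ℕ) : ℝ))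
      (gam (m + 2)) := (integrable_finsetSum _ fun a _ => n11_coord a).div_const _
  simp only [hpt]
  rw [integral_sub hmx hs]
  have h0 : ∫ x : Fin (m + 2) → ℝ, (∑ a, x a) / ((m + 2 : ℕ) : ℝ) ∂(gam (m + 2)) = 0 := by
    rw [integral_div, integral_finsetSum _ fun a _ => n11_coord a]
    simp only [integral_coord, Finset.sum_const_zero, zero_div]
  rw [h0, sub_zero]

/-- [N11b] NEAR GAP.  For a symmetric positive semidefinite `G` with zero row sums, trace `m + 1` and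
`Dq G ≤ δ`, there are `B` with `(Π+B)² = G` and `λ` with `∑λ = 0`, `λ_i² ≤ K Dq G`,
`∫ mx (λ + (Π+B)x) ≤ eqv (m+1) - c Dq G`.
PROOF.  `sqrt_near`: `|B|² ≤ Dq G =: D`; `near` with `b = √D` (`|B_il| ≤ |B| ≤ √D ≤ 1/8`); `sqrt_trace`:
`2 tr B = -|B|²`, so the bound is `eqv - (m+2)h|B|²/2 + (m+1)h|B|²/2 + C b³ = eqv - h|B|²/2 + C D^{3/2}`, and
`|B|² ≥ D/9`: `≤ eqv - (h/18) D + C √D D ≤ eqv - (h/36) D` for `D ≤ δ`.  `int_cols`. -/
theorem gap_near (m : ℕ) : ∃ δ c K : ℝ, 0 < δ ∧ 0 < c ∧ 0 ≤ K ∧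
    ∀ G : Fin (m + 2) → Fin (m + 2) → ℝ, (∀ i j, G i j = G j i) →
      (∀ y : Fin (m + 2) → ℝ, 0 ≤ ∑ i, ∑ j, y i * y j * G i j) → (∀ i, ∑ j, G i j = 0) →
      ∑ i, G i i = (m : ℝ) + 1 → Dq G ≤ δ →
      ∃ (C2 : Fin (m + 2) → Fin (m + 2) → ℝ) (lam : Fin (m + 2) → ℝ), (∀ i j, Gr C2 i j = G i j) ∧
        ∑ i, lam i = 0 ∧ (∀ i, lam i ^ 2 ≤ K * Dq G) ∧
        ∫ x, mx (lam + ∑ a, x a • C2 a) ∂(gam (m + 2)) ≤ eqv (m + 1) - c * Dq G := by
  obtain ⟨C, hC0, hC⟩ := near m
  have hh0 : 0 < hh m := (hh_pos m).1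
  refine ⟨min (1 / 64) ((hh m / (36 * (C + 1))) ^ 2), hh m / 36, C ^ 2, ?_, by positivity,
    by positivity, ?_⟩
  · have h1 : 0 < hh m / (36 * (C + 1)) := by positivity
    exact lt_min (by norm_num) (by positivity)
  intro G hG hp h0 htr hD
  obtain ⟨B, hB, hB0, hGB, hBD⟩ := sqrt_near (m + 2) (by omega) G hG hp h0
  obtain ⟨ht1, ht2⟩ := sqrt_trace (m + 2) (by omega) G B hB hB0 hGB
  have hD0 : 0 ≤ Dq G := by
    unfold Dq
    exact Finset.sum_nonneg fun i _ => Finset.sum_nonneg fun j _ => sq_nonneg _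
  have hD1 : Dq G ≤ 1 / 64 := hD.trans (min_le_left _ _)
  have hD2 : Dq G ≤ (hh m / (36 * (C + 1))) ^ 2 := hD.trans (min_le_right _ _)
  have hb8 : Real.sqrt (Dq G) ≤ 1 / 8 := by
    have h1 : Real.sqrt (Dq G) ≤ Real.sqrt ((1 / 8) ^ 2) := Real.sqrt_le_sqrt (by norm_num; linarith)
    rwa [Real.sqrt_sq (by norm_num)] at h1
  have hbh : Real.sqrt (Dq G) ≤ hh m / (36 * (C + 1)) := by
    have h1 := Real.sqrt_le_sqrt hD2
    rwa [Real.sqrt_sq (by positivity)] at h1
  have hBb : ∀ i l, |B i l| ≤ Real.sqrt (Dq G) := by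
    intro i l
    refine Real.abs_le_sqrt (le_trans ?_ hBD)
    have h1 : B i l ^ 2 ≤ ∑ j, B i j ^ 2 :=
      Finset.single_le_sum (f := fun j => B i j ^ 2) (fun j _ => sq_nonneg _) (Finset.mem_univ l)
    have h2 : ∑ j, B i j ^ 2 ≤ ∑ i, ∑ j, B i j ^ 2 :=
      Finset.single_le_sum (f := fun i => ∑ j, B i j ^ 2)
        (fun i _ => Finset.sum_nonneg fun j _ => sq_nonneg _) (Finset.mem_univ i)
    exact h1.trans h2
  obtain ⟨lam, hl0, hl1, hint⟩ := hC B (Real.sqrt (Dq G)) (Real.sqrt_nonneg _) hb8 hBb hB hB0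
  refine ⟨fun a i => Pc (m + 2) a i + B a i, lam, ?_, hl0, ?_, ?_⟩
  · intro i j
    rw [← hGB i j]
    unfold Gr
    refine Finset.sum_congr rfl fun a _ => ?_
    have h1 : Pc (m + 2) a i = Pc (m + 2) i a := by
      unfold Pc
      by_cases h : a = i
      · rw [h]
      · rw [if_neg h, if_neg (Ne.symm h)]
    show (Pc (m + 2) a i + B a i) * (Pc (m + 2) a j + B a j) = _
    rw [h1, hB a i]
  · intro i
    have h1 := hl1 i
    have h2 : lam i ^ 2 ≤ (C * Real.sqrt (Dq G)) ^ 2 := by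
      rw [← sq_abs]
      exact pow_le_pow_left₀ (abs_nonneg _) h1 2
    rwa [mul_pow, Real.sq_sqrt hD0] at h2
  · rw [int_cols m B hB lam]
    refine hint.trans ?_
    have hq : ((m + 2 : ℕ) : ℝ) = (m : ℝ) + 2 := by push_cast; ring
    rw [htr, hq] at ht1
    have htrB : ∑ i, B i i = - (∑ i, ∑ j, B i j ^ 2) / 2 := by linarith
    have hB1 : ∑ i, ∑ j, B i j ^ 2 ≤ 1 := by linarith
    have h9 := ht2 hB1
    rw [htrB]
    have hb3 : Real.sqrt (Dq G) ^ 3 = Real.sqrt (Dq G) * Dq G := by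
      rw [pow_succ', Real.sq_sqrt hD0]
    rw [hb3]
    have hfin : C * (Real.sqrt (Dq G) * Dq G) ≤ hh m / 36 * Dq G := by
      have h1 : C * Real.sqrt (Dq G) ≤ hh m / 36 := by
        calc C * Real.sqrt (Dq G) ≤ (C + 1) * (hh m / (36 * (C + 1))) :=
              mul_le_mul (by linarith) hbh (Real.sqrt_nonneg _) (by linarith)
          _ = hh m / 36 := by
              field_simp
      calc C * (Real.sqrt (Dq G) * Dq G) = (C * Real.sqrt (Dq G)) * Dq G := by ring
        _ ≤ hh m / 36 * Dq G := mul_le_mul_of_nonneg_right h1 hD0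
    have hx : hh m * Dq G ≤ hh m * (9 * ∑ i, ∑ j, B i j ^ 2) :=
      mul_le_mul_of_nonneg_left h9 hh0.le
    nlinarith [hx, hfin]

end Pool.Agent.SSQ
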