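import Pool.Agent.SSQ.N1

set_option autoImplicit false
open MeasureTheory ProbabilityTheory Set Real

namespace Pool.Agent.SSQ
open Pool.Agent.SSC3N (gam GG TT)

private theorem n2_int_pow (k : ℕ) : Integrable (fun v : ℝ => |v| ^ k) (gaussianReal 0 1) := by
  have h := (memLp_id_gaussianReal' (μ := 0) (v := 1) (k : ENNReal)
    (ENNReal.natCast_ne_top k)).integrable_norm_pow'
  simpa using h

private theorem n2_int_iff (g : ℝ → ℝ) :
    Integrable g (gaussianReal 0 1) ↔ Integrable (fun t => ph t * g t) := by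
  rw [gaussianReal_of_var_ne_zero 0 one_ne_zero,
    integrable_withDensity_iff_integrable_smul' (measurable_gaussianPDF 0 1)
      (Filter.Eventually.of_forall fun _ => gaussianPDF_lt_top)]
  simp only [toReal_gaussianPDF, smul_eq_mul]
  rfl

private theorem n2_int_ph (k : ℕ) : Integrable (fun t : ℝ => ph t * |t| ^ k) :=
  (n2_int_iff _).1 (n2_int_pow k)

private theorem n2_add3 {μ : Measure ℝ} {f g h : ℝ → ℝ} (hf : Integrable f μ)
    (hg : Integrable g μ) (hh : Integrable h μ) :
    ∫ x, (f x + g x + h x) ∂μ = ∫ x, f x ∂μ + ∫ x, g x ∂μ + ∫ x, h x ∂μ := by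
  rw [integral_add (f := fun x => f x + g x) (hf.add hg) hh, integral_add hf hg]

/-- domination by `K (1 + t²) φ` -/
private theorem n2_dom {f : ℝ → ℝ} (hf : Continuous f) (K : ℝ)
    (h : ∀ t, |f t| ≤ K * (1 + t ^ 2) * ph t) : Integrable f := by
  have h1 : Integrable (fun t : ℝ => K * (ph t * |t| ^ 0 + ph t * |t| ^ 2)) :=
    ((n2_int_ph 0).add (n2_int_ph 2)).const_mul K
  refine h1.mono' hf.aestronglyMeasurable (Filter.Eventually.of_forall fun t => ?_)
  rw [Real.norm_eq_abs]
  refine (h t).trans (le_of_eq ?_)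
  rw [sq_abs]
  ring

private theorem n2_dom_g {f : ℝ → ℝ} (hf : AEStronglyMeasurable f (gaussianReal 0 1)) (K : ℝ)
    (h : ∀ t, |f t| ≤ K * (1 + t ^ 2)) : Integrable f (gaussianReal 0 1) := by
  have h1 : Integrable (fun t : ℝ => K * (|t| ^ 0 + |t| ^ 2)) (gaussianReal 0 1) :=
    ((n2_int_pow 0).add (n2_int_pow 2)).const_mul K
  refine h1.mono' hf (Filter.Eventually.of_forall fun t => ?_)
  rw [Real.norm_eq_abs]
  refine (h t).trans (le_of_eq ?_)
  rw [sq_abs]
  ring

private theorem n2_rr_deriv (t : ℝ) : HasDerivAt rr (-(rr t * psi t)) t := by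
  have h1 := ph_basic.2.2.2.1 t
  have h2 := Ph_basic.2.2.2.1 t
  have h3 := (Ph_basic.2.1 t).ne'
  have h4 := h1.div h2 h3
  have h5 : (-(t * ph t) * Ph t - ph t * ph t) / Ph t ^ 2 = -(rr t * psi t) := by
    unfold psi rr
    field_simp
    ring
  rw [h5] at h4
  exact h4

private theorem n2_psi_deriv (t : ℝ) : HasDerivAt psi (ww t) t := by
  have h1 := (hasDerivAt_id t).add (n2_rr_deriv t)
  have h2 : 1 + -(rr t * psi t) = ww t := by
    unfold ww psi
    ring
  rw [h2] at h1
  exact h1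

/-- [N2a] `ψ ≥ 0` (`tail_one`: the integral is `≤ 0`), `0 ≤ w` (Cauchy-Schwarz / variance:
`(∫_{≤t} (v-t))² ≤ (∫_{≤t} 1)(∫_{≤t} (v-t)²)`, i.e. `(Φψ)² ≤ Φ · Φ(ψ²+w)`; or `0 ≤ ∫_{≤t} (v - t + ψ)²`), and
`w = 1 - r ψ ≤ 1`. -/
theorem psi_w (t : ℝ) : 0 ≤ psi t ∧ 0 ≤ ww t ∧ ww t ≤ 1 ∧ 0 < rr t := by
  have hPh := Ph_basic.2.1 t
  have hrr : 0 < rr t := div_pos (ph_basic.2.1 t) hPh
  have hpsi : 0 ≤ psi t := by
    have h1 : ∫ v, (if v ≤ t then v - t else 0) ∂(gaussianReal 0 1) ≤ 0 := by
      refine integral_nonpos fun v => ?_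
      show (if v ≤ t then v - t else 0) ≤ 0
      split_ifs with h
      · linarith
      · exact le_rfl
    rw [tail_one] at h1
    by_contra h2
    push Not at h2
    have : 0 < -(Ph t * psi t) := by
      have := mul_pos hPh (neg_pos.2 h2)
      linarith
    linarith
  refine ⟨hpsi, ?_, ?_, hrr⟩
  · have hm : MeasurableSet {v : ℝ | v ≤ t} := measurableSet_Iic
    have i1 : Integrable (fun v : ℝ => if v ≤ t then (v - t) ^ 2 else 0) (gaussianReal 0 1) := by
      refine n2_dom_g ?_ (2 + 2 * t ^ 2) fun v => ?_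
      · exact (Measurable.ite hm (by fun_prop) (by fun_prop)).aestronglyMeasurable
      · split_ifs
        · rw [abs_of_nonneg (sq_nonneg _)]
          nlinarith [sq_nonneg (v + t), sq_nonneg (v * t)]
        · rw [abs_zero]; positivity
    have i2 : Integrable (fun v : ℝ => if v ≤ t then v - t else 0) (gaussianReal 0 1) := by
      refine n2_dom_g ?_ (2 + 2 * t ^ 2) fun v => ?_
      · exact (Measurable.ite hm (by fun_prop) (by fun_prop)).aestronglyMeasurable
      · split_ifs
        · rw [abs_le]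
          constructor <;> nlinarith [sq_nonneg (v + 1), sq_nonneg (v - 1), sq_nonneg (t - 1),
            sq_nonneg (t + 1), sq_nonneg (v * t)]
        · rw [abs_zero]; positivity
    have i3 : Integrable (fun v : ℝ => if v ≤ t then (1 : ℝ) else 0) (gaussianReal 0 1) := by
      refine n2_dom_g ?_ 1 fun v => ?_
      · exact (Measurable.ite hm (by fun_prop) (by fun_prop)).aestronglyMeasurable
      · split_ifs
        · rw [abs_one]; nlinarith [sq_nonneg v]
        · rw [abs_zero]; positivity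
    have h1 : 0 ≤ ∫ v, (if v ≤ t then (v - t + psi t) ^ 2 else 0) ∂(gaussianReal 0 1) := by
      refine integral_nonneg fun v => ?_
      show 0 ≤ (if v ≤ t then (v - t + psi t) ^ 2 else 0)
      split_ifs
      · positivity
      · exact le_rfl
    have h2 : ∫ v, (if v ≤ t then (v - t + psi t) ^ 2 else 0) ∂(gaussianReal 0 1) =
        ∫ v, ((if v ≤ t then (v - t) ^ 2 else 0) + 2 * psi t * (if v ≤ t then v - t else 0) +
          psi t ^ 2 * (if v ≤ t then (1 : ℝ) else 0)) ∂(gaussianReal 0 1) := by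
      refine integral_congr_ae (Filter.Eventually.of_forall fun v => ?_)
      show (if v ≤ t then (v - t + psi t) ^ 2 else 0) = (if v ≤ t then (v - t) ^ 2 else 0) +
        2 * psi t * (if v ≤ t then v - t else 0) + psi t ^ 2 * (if v ≤ t then (1 : ℝ) else 0)
      split_ifs <;> ring
    rw [h2, n2_add3 i1 (i2.const_mul (2 * psi t)) (i3.const_mul (psi t ^ 2)),
      integral_const_mul, integral_const_mul, tail_two,
      tail_one, Ph_basic.2.2.2.2.2] at h1
    have h3 : Ph t * (psi t ^ 2 + ww t) + 2 * psi t * -(Ph t * psi t) + psi t ^ 2 * Ph t =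
        Ph t * ww t := by ring
    rw [h3] at h1
    by_contra h4
    push Not at h4
    have := mul_pos hPh (neg_pos.2 h4)
    linarith
  · have h1 : ww t = 1 - rr t * psi t := by
      unfold ww psi
      ring
    rw [h1]
    have := mul_nonneg hrr.le hpsi
    linarith

/-- [N2b] `r' = -r ψ ≤ 0`, `ψ' = w ∈ [0,1]`; hence `r` is decreasing, `ψ` is 1-Lipschitz and
`r(t) = ψ(t) - t ≤ ψ(0) + |t| + |t| ≤ 1 + 2|t|` (`ψ(0) = r(0) = 2 φ(0) < 1`, `Φ(0) = 1/2`; if you prefer any constant:
the statement allows `∃ K`). -/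
theorem rr_psi : Antitone rr ∧ (∀ s t, |psi s - psi t| ≤ |s - t|) ∧ Continuous rr ∧
    (∃ K : ℝ, ∀ t, rr t ≤ K + 2 * |t|) := by
  have hlip : ∀ s t, |psi s - psi t| ≤ |s - t| := by
    intro s t
    have h1 := (convex_univ : Convex ℝ (Set.univ : Set ℝ)).norm_image_sub_le_of_norm_hasDerivWithin_le
      (f := psi) (f' := ww) (C := 1) (fun x _ => (n2_psi_deriv x).hasDerivWithinAt)
      (fun x _ => by
        rw [Real.norm_eq_abs, abs_of_nonneg (psi_w x).2.1]
        exact (psi_w x).2.2.1) (Set.mem_univ t) (Set.mem_univ s)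
    rw [one_mul] at h1
    exact h1
  refine ⟨?_, hlip, ?_, ?_⟩
  · refine antitone_of_deriv_nonpos (fun t => (n2_rr_deriv t).differentiableAt) fun t => ?_
    rw [(n2_rr_deriv t).deriv]
    have := mul_nonneg (psi_w t).2.2.2.le (psi_w t).1
    linarith
  · exact continuous_iff_continuousAt.2 fun t => (n2_rr_deriv t).continuousAt
  · refine ⟨psi 0, fun t => ?_⟩
    have h1 := hlip t 0
    rw [sub_zero] at h1
    have h2 := (abs_le.1 h1).2
    have h3 : rr t = psi t - t := by unfold psi; ring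
    have h4 := neg_abs_le t
    rw [h3]
    linarith

/-- [N2c] integrability of polynomials against `φ²Φ^m` and positivity. -/
theorem hh_pos (m : ℕ) : 0 < hh m ∧ Integrable (fun t => ph t ^ 2 * Ph t ^ m) ∧
    Integrable (fun t => t * (ph t ^ 2 * Ph t ^ m)) ∧
    Integrable (fun t => t ^ 2 * (ph t ^ 2 * Ph t ^ m)) ∧
    Integrable (fun t => rr t * (ph t ^ 2 * Ph t ^ m)) ∧
    Integrable (fun t => t * rr t * (ph t ^ 2 * Ph t ^ m)) := by
  have hc : Continuous (fun t => ph t ^ 2 * Ph t ^ m) := (ph_basic.1.pow 2).mul (Ph_basic.1.pow m)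
  have hle : ∀ t, |ph t ^ 2 * Ph t ^ m| ≤ ph t := by
    intro t
    have h1 := (ph_basic.2.1 t).le
    have h2 := ph_basic.2.2.1 t
    have h3 : Ph t ^ m ≤ 1 := pow_le_one₀ (Ph_basic.2.1 t).le (Ph_basic.2.2.1 t)
    have h4 : 0 ≤ Ph t ^ m := pow_nonneg (Ph_basic.2.1 t).le m
    rw [abs_of_nonneg (mul_nonneg (sq_nonneg _) h4)]
    have h5 : ph t ^ 2 ≤ ph t := by nlinarith
    nlinarith [sq_nonneg (ph t)]
  obtain ⟨K, hK⟩ := rr_psi.2.2.2
  have hrc := rr_psi.2.2.1
  have hph := fun t => (ph_basic.2.1 t).le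
  have hK0 : 0 ≤ |K| := abs_nonneg K
  have hrK : ∀ t, |rr t| ≤ |K| + 2 * |t| := fun t => by
    rw [abs_of_pos (psi_w t).2.2.2]
    exact (hK t).trans (by linarith [le_abs_self K])
  have i0 : Integrable (fun t => ph t ^ 2 * Ph t ^ m) := by
    refine n2_dom hc 1 fun t => (hle t).trans ?_
    nlinarith [hph t, sq_nonneg t, mul_nonneg (sq_nonneg t) (hph t)]
  have hmul : ∀ (g : ℝ → ℝ) (L : ℝ), Continuous g → (∀ t, |g t| ≤ L * (1 + t ^ 2)) →
      Integrable (fun t => g t * (ph t ^ 2 * Ph t ^ m)) := by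
    intro g L hg hL
    refine n2_dom (hg.mul hc) L fun t => ?_
    rw [abs_mul]
    exact mul_le_mul (hL t) (hle t) (abs_nonneg _) ((abs_nonneg _).trans (hL t))
  have ht : ∀ t : ℝ, |t| ≤ 1 + t ^ 2 := fun t => by
    nlinarith [sq_abs t, sq_nonneg (|t| - 1), abs_nonneg t]
  refine ⟨?_, i0, ?_, ?_, ?_, ?_⟩
  · unfold hh
    have hp : ∀ t, 0 < ph t ^ 2 * Ph t ^ m := fun t =>
      mul_pos (pow_pos (ph_basic.2.1 t) 2) (pow_pos (Ph_basic.2.1 t) m)
    rw [integral_pos_iff_support_of_nonneg (fun t => (hp t).le) i0]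
    have h1 : Function.support (fun t => ph t ^ 2 * Ph t ^ m) = Set.univ := by
      ext t
      simp only [Function.mem_support, Set.mem_univ, iff_true]
      exact (hp t).ne'
    rw [h1]
    simp
  · refine hmul (fun t => t) 1 continuous_id fun t => ?_
    rw [one_mul]
    exact ht t
  · refine hmul (fun t => t ^ 2) 1 (by fun_prop) fun t => ?_
    rw [abs_of_nonneg (sq_nonneg t)]
    linarith
  · refine hmul rr (|K| + 2) hrc fun t => (hrK t).trans ?_
    nlinarith [ht t, sq_nonneg t, mul_nonneg hK0 (sq_nonneg t)]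
  · refine hmul (fun t => t * rr t) (|K| + 2) (continuous_id.mul hrc) fun t => ?_
    rw [abs_mul]
    have h1 := mul_le_mul_of_nonneg_left (hrK t) (abs_nonneg t)
    have h2 := mul_le_mul_of_nonneg_left (ht t) hK0
    nlinarith [sq_abs t]

/-- [N2d] VARIANCE BOUND.  Let `P = φ²Φ^m`, `t₀ = ∫ tP / ∫ P`.  `P' = (-2t + m r) P` and `((t-t₀)P)' = P + (t-t₀)(-2t + m r)P`
has integral zero (`integral_of_hasDerivAt_of_tendsto`, limits 0 at `±∞`), so
`∫ (t-t₀)² P = ∫ (t-t₀) t P = ½ (∫ P + m ∫ (t-t₀) r P)` and `∫ (t-t₀) r P = ∫ (t-t₀)(r(t) - r(t₀)) P ≤ 0` since `r` is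
decreasing.  Hence `∫ (t-t₀)²P ≤ ½ ∫ P ≤ ∫ P`; finally `(ψ(t) - ψ(t₀))² ≤ (t-t₀)²`; `α = ψ(t₀)`. -/
theorem var_psi (m : ℕ) : ∃ α : ℝ, Integrable (fun t => (psi t - α) ^ 2 * (ph t ^ 2 * Ph t ^ m)) ∧
    ∫ t, (psi t - α) ^ 2 * (ph t ^ 2 * Ph t ^ m) ≤ hh m := by
  obtain ⟨hpos, i0, i1, i2, i3, i4⟩ := hh_pos m
  set P : ℝ → ℝ := fun t => ph t ^ 2 * Ph t ^ m with hP
  have hP0 : ∀ t, 0 ≤ P t := fun t => mul_nonneg (sq_nonneg _) (pow_nonneg (Ph_basic.2.1 t).le m)
  have hPc : Continuous P := (ph_basic.1.pow 2).mul (Ph_basic.1.pow m)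
  have hhP : hh m = ∫ t, P t := rfl
  set t0 : ℝ := (∫ t, t * P t) / hh m with ht0
  have hmean : ∫ t, t * P t = t0 * hh m := by
    rw [ht0, div_mul_cancel₀ _ hpos.ne']
  obtain ⟨hanti, hlip, hrc, -⟩ := rr_psi
  -- derivative of P
  have hPd : ∀ t, HasDerivAt P ((-2 * t + m * rr t) * P t) t := by
    intro t
    have h1 := (ph_basic.2.2.2.1 t).pow 2
    have h2 := (Ph_basic.2.2.2.1 t).pow m
    have h3 := h1.mul h2
    have hPt := (Ph_basic.2.1 t).ne'
    have h5 : (m : ℝ) * Ph t ^ (m - 1) * ph t = m * rr t * Ph t ^ m := by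
      rcases Nat.eq_zero_or_pos m with hm | hm
      · subst hm; simp
      · obtain ⟨k, rfl⟩ := Nat.exists_eq_succ_of_ne_zero hm.ne'
        simp only [Nat.succ_eq_add_one, Nat.add_sub_cancel]
        unfold rr
        field_simp
        try ring
    have h4 : (((2 : ℕ) : ℝ) * ph t ^ (2 - 1) * -(t * ph t)) * (Ph ^ m) t +
        (ph ^ 2) t * ((m : ℝ) * Ph t ^ (m - 1) * ph t) = (-2 * t + m * rr t) * P t := by
      rw [h5]
      simp only [hP, Pi.pow_apply]
      push_cast
      ring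
    rw [h4] at h3
    exact h3
  have j1 : Integrable (fun t => (t - t0) * P t) := by
    have := i1.sub (i0.const_mul t0)
    refine this.congr (Filter.Eventually.of_forall fun t => ?_)
    show t * P t - t0 * P t = (t - t0) * P t
    ring
  have j2 : Integrable (fun t => (t - t0) ^ 2 * P t) := by
    have := (i2.sub (i1.const_mul (2 * t0))).add (i0.const_mul (t0 ^ 2))
    refine this.congr (Filter.Eventually.of_forall fun t => ?_)
    show t ^ 2 * P t - 2 * t0 * (t * P t) + t0 ^ 2 * P t = (t - t0) ^ 2 * P t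
    ring
  have j3 : Integrable (fun t => (t - t0) * rr t * P t) := by
    have := i4.sub (i3.const_mul t0)
    refine this.congr (Filter.Eventually.of_forall fun t => ?_)
    show t * rr t * P t - t0 * (rr t * P t) = (t - t0) * rr t * P t
    ring
  have j0 : ∫ t, (t - t0) * P t = 0 := by
    have h1 : ∫ t, (t - t0) * P t = ∫ t, (t * P t - t0 * P t) := by
      refine integral_congr_ae (Filter.Eventually.of_forall fun t => ?_)
      show (t - t0) * P t = t * P t - t0 * P t
      ring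
    rw [h1, integral_sub i1 (i0.const_mul t0), integral_const_mul, hmean, ← hhP]
    ring
  -- the derivative identity
  have hd : ∀ t, HasDerivAt (fun t => (t - t0) * P t)
      (P t + (-2 * ((t - t0) ^ 2 * P t) + -2 * t0 * ((t - t0) * P t)) +
        m * ((t - t0) * rr t * P t)) t := by
    intro t
    have h1 := ((hasDerivAt_id t).sub_const t0).mul (hPd t)
    have h2 : 1 * P t + (id t - t0) * ((-2 * t + m * rr t) * P t) =
        P t + (-2 * ((t - t0) ^ 2 * P t) + -2 * t0 * ((t - t0) * P t)) +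
        m * ((t - t0) * rr t * P t) := by
      simp only [id]
      ring
    rw [h2] at h1
    exact h1
  have k1 : Integrable (fun t => P t + (-2 * ((t - t0) ^ 2 * P t) + -2 * t0 * ((t - t0) * P t)) +
        m * ((t - t0) * rr t * P t)) :=
    (i0.add ((j2.const_mul (-2)).add (j1.const_mul (-2 * t0)))).add (j3.const_mul m)
  have k2 := integral_eq_zero_of_hasDerivAt_of_integrable hd k1 j1
  have j12 : Integrable (fun t => -2 * ((t - t0) ^ 2 * P t) + -2 * t0 * ((t - t0) * P t)) :=
    (j2.const_mul (-2)).add (j1.const_mul (-2 * t0))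
  rw [n2_add3 i0 j12 (j3.const_mul m),
    integral_add (j2.const_mul (-2)) (j1.const_mul (-2 * t0)), integral_const_mul,
    integral_const_mul, integral_const_mul, j0, ← hhP] at k2
  -- monotonicity of r
  have k3 : ∫ t, (t - t0) * rr t * P t ≤ 0 := by
    have h1 : ∫ t, (t - t0) * rr t * P t =
        ∫ t, ((t - t0) * (rr t - rr t0) * P t + rr t0 * ((t - t0) * P t)) := by
      refine integral_congr_ae (Filter.Eventually.of_forall fun t => ?_)
      show (t - t0) * rr t * P t = (t - t0) * (rr t - rr t0) * P t + rr t0 * ((t - t0) * P t)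
      ring
    have h2 : Integrable (fun t => (t - t0) * (rr t - rr t0) * P t) := by
      have := j3.sub (j1.const_mul (rr t0))
      refine this.congr (Filter.Eventually.of_forall fun t => ?_)
      show (t - t0) * rr t * P t - rr t0 * ((t - t0) * P t) = (t - t0) * (rr t - rr t0) * P t
      ring
    rw [h1, integral_add h2 (j1.const_mul _), integral_const_mul, j0, mul_zero, add_zero]
    refine integral_nonpos fun t => ?_
    show (t - t0) * (rr t - rr t0) * P t ≤ 0
    have h3 : (t - t0) * (rr t - rr t0) ≤ 0 := by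
      rcases le_total t t0 with h | h
      · have := hanti h
        exact mul_nonpos_of_nonpos_of_nonneg (by linarith) (by linarith)
      · have := hanti h
        exact mul_nonpos_of_nonneg_of_nonpos (by linarith) (by linarith)
    exact mul_nonpos_of_nonpos_of_nonneg h3 (hP0 t)
  have k4 : (m : ℝ) * ∫ t, (t - t0) * rr t * P t ≤ 0 :=
    mul_nonpos_of_nonneg_of_nonpos (Nat.cast_nonneg m) k3
  have k5 : ∫ t, (t - t0) ^ 2 * P t ≤ hh m := by
    nlinarith [hpos]
  have hle : ∀ t, (psi t - psi t0) ^ 2 * P t ≤ (t - t0) ^ 2 * P t := by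
    intro t
    refine mul_le_mul_of_nonneg_right ?_ (hP0 t)
    rw [← sq_abs (psi t - psi t0), ← sq_abs (t - t0)]
    exact pow_le_pow_left₀ (abs_nonneg _) (hlip t t0) 2
  have hpsic : Continuous psi := continuous_iff_continuousAt.2 fun t =>
    (n2_psi_deriv t).continuousAt
  have hI : Integrable (fun t => (psi t - psi t0) ^ 2 * P t) := by
    refine j2.mono' (((hpsic.sub continuous_const).pow 2).mul hPc).aestronglyMeasurable
      (Filter.Eventually.of_forall fun t => ?_)
    rw [Real.norm_eq_abs, abs_of_nonneg (mul_nonneg (sq_nonneg _) (hP0 t))]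
    exact hle t
  exact ⟨psi t0, hI, (integral_mono hI j2 hle).trans k5⟩

end Pool.Agent.SSQ
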