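import Pool.Agent.SSQ.N2
import Pool.Agent.SSQ.N3

set_option autoImplicit false
open MeasureTheory ProbabilityTheory Set Real

namespace Pool.Agent.SSQ
open Pool.Agent.SSC3N (gam GG TT)

/-- open cell of the maximum (`q = k + 1` coordinates) -/
def cl {k : ℕ} (i : Fin (k + 1)) : Set (Fin (k + 1) → ℝ) := {x | ∀ l, l ≠ i → x l < x i}

/-- expected maximum of `k + 1` independent standard Gaussian variables -/
noncomputable def eqv (k : ℕ) : ℝ := ∫ x, mx x ∂(gam (k + 1))

private theorem n5_prob (m : ℕ) : IsProbabilityMeasure (gam m) := by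
  unfold Pool.Agent.SSC3N.gam
  infer_instance

private theorem n5_tie (k : ℕ) (i j : Fin (k + 1)) (hij : i ≠ j) :
    gam (k + 1) {x | x i = x j} = 0 := by
  obtain ⟨l, hl⟩ := Fin.exists_succAbove_eq hij.symm
  have hmp := gam_split_mp k i
  have hs : MeasurableSet {p : ℝ × (Fin k → ℝ) | p.1 = p.2 l} :=
    measurableSet_eq_fun measurable_fst ((measurable_pi_apply l).comp measurable_snd)
  have h1 := hmp.measure_preimage hs.nullMeasurableSet
  have h2 : (fun x : Fin (k + 1) → ℝ => (x i, fun l : Fin k => x (i.succAbove l))) ⁻¹'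
      {p | p.1 = p.2 l} = {x | x i = x j} := by
    ext x
    show x i = x (i.succAbove l) ↔ x i = x j
    rw [hl]
  rw [h2] at h1
  have := n5_prob k
  rw [h1, Measure.measure_prod_null hs]
  have : NullSingletonClass (gaussianReal 0 1) := nullSingletonClass_gaussianReal one_ne_zero
  refine Filter.Eventually.of_forall fun t => ?_
  show gam k {y | t = y l} = 0
  have h3 : {y : Fin k → ℝ | t = y l} = {y | y l = t} := by
    ext y
    exact eq_comm
  rw [h3]
  exact Measure.pi_hyperplane (fun _ : Fin k => gaussianReal 0 1) l t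

private theorem n5_noties (k : ℕ) :
    ∀ᵐ x ∂(gam (k + 1)), ∀ i j : Fin (k + 1), i ≠ j → x i ≠ x j := by
  rw [ae_all_iff]
  intro i
  rw [ae_all_iff]
  intro j
  by_cases hij : i = j
  · exact Filter.Eventually.of_forall fun x h => absurd hij h
  · have h1 := n5_tie k i j hij
    rw [ae_iff]
    refine measure_mono_null (fun x hx => ?_) h1
    by_contra h
    exact hx fun _ => h

/-- [N5a] measurability, disjointness, the cells cover up to a null set (ties `x_i = x_j` are null: split off the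
coordinate `i`; a hyperplane has measure zero), `mx x = x i` on `cl i`, growth and continuity of `mx`. -/
theorem cl_basic (k : ℕ) : (∀ i : Fin (k + 1), MeasurableSet (cl i)) ∧
    (∀ i j : Fin (k + 1), i ≠ j → Disjoint (cl i) (cl j)) ∧
    (∀ᵐ x ∂(gam (k + 1)), ∃ i, x ∈ cl i) ∧ (∀ i : Fin (k + 1), ∀ x ∈ cl i, mx x = x i) ∧
    Continuous (mx (k := k)) ∧ (∀ x : Fin (k + 1) → ℝ, |mx x| ≤ ∑ l, |x l|) := by
  refine ⟨fun i => ?_, fun i j hij => ?_, ?_, fun i x hx => ?_, ?_, fun x => ?_⟩
  · have h1 : (cl i : Set (Fin (k + 1) → ℝ)) = ⋂ l, ⋂ (_ : l ≠ i), {x | x l < x i} := by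
      ext x
      simp only [cl, mem_iInter]; rfl
    rw [h1]
    exact MeasurableSet.iInter fun l => MeasurableSet.iInter fun _ =>
      measurableSet_lt (measurable_pi_apply l) (measurable_pi_apply i)
  · rw [Set.disjoint_left]
    intro x h1 h2
    have h3 := h1 j hij.symm
    have h4 := h2 i hij
    exact lt_asymm h3 h4
  · filter_upwards [n5_noties k] with x hx
    obtain ⟨i, -, hi⟩ := Finset.exists_max_image Finset.univ x Finset.univ_nonempty
    exact ⟨i, fun l hl => lt_of_le_of_ne (hi l (Finset.mem_univ l)) (hx l i hl)⟩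
  · apply le_antisymm
    · refine Finset.sup'_le _ _ fun l _ => ?_
      by_cases hl : l = i
      · rw [hl]
      · exact (hx l hl).le
    · exact Finset.le_sup' x (Finset.mem_univ i)
  · exact Continuous.finset_sup'_apply (f := fun i (x : Fin (k + 1) → ℝ) => x i)
      Finset.univ_nonempty fun i _ => continuous_apply i
  · obtain ⟨i, -, hi⟩ := Finset.exists_mem_eq_sup' Finset.univ_nonempty x
    have h1 : mx x = x i := hi
    rw [h1]
    exact Finset.single_le_sum (f := fun l => |x l|) (fun l _ => abs_nonneg _) (Finset.mem_univ i)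

/-- [N5b] decomposition of an integral over the cells (`cl_basic`, `integral_iUnion_fintype`-type lemma). -/
theorem int_cells (k : ℕ) (F : (Fin (k + 1) → ℝ) → ℝ) (hF : Integrable F (gam (k + 1))) :
    ∫ x, F x ∂(gam (k + 1)) = ∑ i, ∫ x in cl i, F x ∂(gam (k + 1)) := by
  obtain ⟨h1, h2, h3, -⟩ := cl_basic k
  rw [← integral_iUnion_fintype h1 (fun i j hij => h2 i j hij) fun i => hF.integrableOn]
  refine integral_eq_setIntegral ?_ F
  filter_upwards [h3] with x hx
  exact Set.mem_iUnion.2 hx

/-- [N5c] masses: `∫ φ Φ^k = [Φ^{k+1}/(k+1)] = 1/(k+1)`: split off the coordinate `i` (`gam_split`), the inner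
integral is `(Φ(t))^k` (product measure; ties are null, or use `v < t` directly), derivative of `Φ^{k+1}`. -/
theorem cl_mass (k : ℕ) (i : Fin (k + 1)) : (gam (k + 1)).real (cl i) = 1 / ((k : ℝ) + 1) := by
  have hp := n5_prob (k + 1)
  have hall : ∀ j, (gam (k + 1)).real (cl j) = (gam (k + 1)).real (cl i) := by
    intro j
    have hmp : MeasurePreserving
        (MeasurableEquiv.piCongrLeft (fun _ : Fin (k + 1) => ℝ) (Equiv.swap i j))
        (gam (k + 1)) (gam (k + 1)) :=
      measurePreserving_piCongrLeft (α := fun _ : Fin (k + 1) => ℝ)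
        (fun _ : Fin (k + 1) => gaussianReal 0 1) (Equiv.swap i j)
    have h1 := hmp.measure_preimage ((cl_basic k).1 i).nullMeasurableSet
    have h0 : ∀ (x : Fin (k + 1) → ℝ) (a : Fin (k + 1)),
        (MeasurableEquiv.piCongrLeft (fun _ : Fin (k + 1) => ℝ) (Equiv.swap i j)) x a
          = x (Equiv.swap i j a) := by
      intro x a
      have h2 := Equiv.piCongrLeft_apply_apply (fun _ : Fin (k + 1) => ℝ) (Equiv.swap i j) x
        (Equiv.swap i j a)
      rw [Equiv.swap_apply_self] at h2
      exact h2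
    have h2 : (MeasurableEquiv.piCongrLeft (fun _ : Fin (k + 1) => ℝ) (Equiv.swap i j)) ⁻¹' (cl i)
        = cl j := by
      ext x
      constructor
      · intro hx l hl
        have h3 := hx (Equiv.swap i j l) (by
          intro h4
          apply hl
          rw [← Equiv.swap_apply_self i j l, h4, Equiv.swap_apply_left])
        rw [h0, h0, Equiv.swap_apply_self, Equiv.swap_apply_left] at h3
        exact h3
      · intro hx l hl
        show (MeasurableEquiv.piCongrLeft (fun _ : Fin (k + 1) => ℝ) (Equiv.swap i j)) x l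
          < (MeasurableEquiv.piCongrLeft (fun _ : Fin (k + 1) => ℝ) (Equiv.swap i j)) x i
        rw [h0, h0, Equiv.swap_apply_left]
        refine hx _ fun h4 => hl ?_
        rw [← Equiv.swap_apply_self i j l, h4, Equiv.swap_apply_right]
    rw [h2] at h1
    unfold Measure.real
    rw [h1]
  have hsum := int_cells k (fun _ => 1) (integrable_const 1)
  have h3 : ∀ j, ∫ _ in cl j, (1 : ℝ) ∂(gam (k + 1)) = (gam (k + 1)).real (cl i) := by
    intro j
    rw [setIntegral_const, smul_eq_mul, mul_one, hall j]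
  rw [Finset.sum_congr rfl fun j _ => h3 j, integral_const, Finset.sum_const, Finset.card_univ,
    Fintype.card_fin, probReal_univ, smul_eq_mul, mul_one, nsmul_eq_mul] at hsum
  have hk : (0 : ℝ) < (k : ℝ) + 1 := by positivity
  rw [eq_div_iff hk.ne']
  push_cast at hsum
  linarith

private theorem n5_cell (k : ℕ) (i : Fin (k + 1)) (F : ℝ → (Fin k → ℝ) → ℝ)
    (hF : Integrable (Function.uncurry F) ((gaussianReal 0 1).prod (gam k))) :
    ∫ x in cl i, F (x i) (fun l => x (i.succAbove l)) ∂(gam (k + 1)) =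
      ∫ t, ∫ y, (if ∀ l, y l ≤ t then F t y else 0) ∂(gam k) ∂(gaussianReal 0 1) := by
  classical
  rw [← integral_indicator ((cl_basic k).1 i)]
  have hS : MeasurableSet {p : ℝ × (Fin k → ℝ) | ∀ l, p.2 l ≤ p.1} := by
    have h1 : {p : ℝ × (Fin k → ℝ) | ∀ l, p.2 l ≤ p.1} = ⋂ l, {p | p.2 l ≤ p.1} := by
      ext p
      simp only [mem_iInter]; rfl
    rw [h1]
    exact MeasurableSet.iInter fun l =>
      measurableSet_le ((measurable_pi_apply l).comp measurable_snd) measurable_fst
  have hG : Integrable (Function.uncurry fun t y => if ∀ l, y l ≤ t then F t y else 0)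
      ((gaussianReal 0 1).prod (gam k)) := by
    have h1 : (Function.uncurry fun t y => if ∀ l, y l ≤ t then F t y else 0)
        = {p : ℝ × (Fin k → ℝ) | ∀ l, p.2 l ≤ p.1}.indicator (Function.uncurry F) := by
      funext p
      show (if ∀ l, p.2 l ≤ p.1 then F p.1 p.2 else 0) = _
      by_cases h : ∀ l, p.2 l ≤ p.1
      · have h' : p ∈ {p : ℝ × (Fin k → ℝ) | ∀ l, p.2 l ≤ p.1} := h
        rw [if_pos h, Set.indicator_of_mem h']
        rfl
      · have h' : p ∉ {p : ℝ × (Fin k → ℝ) | ∀ l, p.2 l ≤ p.1} := h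
        rw [if_neg h, Set.indicator_of_notMem h']
    rw [h1]
    exact hF.indicator hS
  rw [← gam_split k i _ hG]
  refine integral_congr_ae ?_
  filter_upwards [n5_noties k] with x hx
  have h1 : x ∈ cl i ↔ ∀ l, x (i.succAbove l) ≤ x i := by
    constructor
    · intro h l
      exact (h _ (Fin.succAbove_ne i l)).le
    · intro h l hl
      obtain ⟨l', hl'⟩ := Fin.exists_succAbove_eq hl
      refine lt_of_le_of_ne ?_ (hx l i hl)
      rw [← hl']
      exact h l'
  by_cases h2 : x ∈ cl i
  · rw [Set.indicator_of_mem h2, if_pos (h1.1 h2)]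
  · rw [Set.indicator_of_notMem h2, if_neg fun h3 => h2 (h1.2 h3)]

private theorem n5_id : Integrable (fun t : ℝ => t) (gaussianReal 0 1) :=
  (memLp_id_gaussianReal (μ := 0) (v := 1) 1).integrable le_rfl

private theorem n5_coord (k : ℕ) (l : Fin k) : MemLp (fun y : Fin k → ℝ => y l) 2 (gam k) := by
  have h1 : MeasurePreserving (Function.eval l) (gam k) (gaussianReal 0 1) :=
    measurePreserving_eval (fun _ : Fin k => gaussianReal 0 1) l
  exact (memLp_id_gaussianReal (μ := 0) (v := 1) 2).comp_measurePreserving h1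

private theorem n5_coordI (k : ℕ) (l : Fin k) : Integrable (fun y : Fin k → ℝ => y l) (gam k) := by
  have := n5_prob k
  exact (n5_coord k l).integrable (by norm_num)

private theorem n5_ph : Integrable ph := integrable_gaussianPDFReal 0 1

private theorem n5_tph : Integrable fun t : ℝ => t * ph t := by
  have h1 := (integrable_mul_exp_neg_mul_sq (b := 1 / 2) (by norm_num)).const_mul
    (Real.sqrt (2 * π))⁻¹
  refine h1.congr (Filter.Eventually.of_forall fun t => ?_)
  show (Real.sqrt (2 * π))⁻¹ * (t * Real.exp (-(1 / 2) * t ^ 2)) = t * ph t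
  rw [ph_basic.2.2.2.2.2 t]
  have h2 : -(1 / 2) * t ^ 2 = -(t ^ 2 / 2) := by ring
  rw [h2]
  ring

private theorem n5_gauss (f : ℝ → ℝ) :
    ∫ t, f t ∂(gaussianReal 0 1) = ∫ t, ph t * f t := by
  rw [integral_gaussianReal_eq_integral_smul one_ne_zero]
  rfl

private theorem n5_box (m : ℕ) (t : ℝ) :
    ∫ y, (if ∀ l, y l ≤ t then (1 : ℝ) else 0) ∂(gam m) = Ph t ^ m := by
  have h1 := box_sq m (fun _ => 0) 1 t
  simp only [zero_mul, Finset.sum_const_zero, zero_add, one_pow, mul_zero, sub_zero,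
    ne_eq, OfNat.ofNat_ne_zero, not_false_eq_true, zero_pow, add_zero, mul_one] at h1
  exact h1

private theorem n5_Ssub (m : ℕ) (t : ℝ) : MeasurableSet {y : Fin m → ℝ | ∀ l, y l ≤ t} := by
  have h1 : {y : Fin m → ℝ | ∀ l, y l ≤ t} = ⋂ l, {y | y l ≤ t} := by
    ext p
    simp only [mem_iInter]; rfl
  rw [h1]
  exact MeasurableSet.iInter fun l => measurableSet_le (measurable_pi_apply l) measurable_const

private theorem n5_ite (m : ℕ) (t : ℝ) (f : (Fin m → ℝ) → ℝ) (hf : Integrable f (gam m)) :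
    Integrable (fun y => if ∀ l, y l ≤ t then f y else 0) (gam m) := by
  classical
  have h1 : (fun y => if ∀ l, y l ≤ t then f y else 0)
      = {y : Fin m → ℝ | ∀ l, y l ≤ t}.indicator f := by
    funext y
    by_cases h : ∀ l, y l ≤ t
    · have h' : y ∈ {y : Fin m → ℝ | ∀ l, y l ≤ t} := h
      rw [if_pos h, Set.indicator_of_mem h']
    · have h' : y ∉ {y : Fin m → ℝ | ∀ l, y l ≤ t} := h
      rw [if_neg h, Set.indicator_of_notMem h']
  rw [h1]
  exact hf.indicator (n5_Ssub m t)

private theorem n5_lin (m : ℕ) (l0 : Fin (m + 1)) (t : ℝ) :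
    ∫ y, (if ∀ l, y l ≤ t then y l0 else 0) ∂(gam (m + 1)) = -(ph t * Ph t ^ m) := by
  classical
  have hp := n5_prob (m + 1)
  have hsq : ∀ a : ℝ, Integrable (fun y : Fin (m + 1) → ℝ => (y l0 - t + a) ^ 2)
      (gam (m + 1)) := by
    intro a
    have h1 : MemLp (fun y : Fin (m + 1) → ℝ => y l0 - t + a) 2 (gam (m + 1)) :=
      ((n5_coord (m + 1) l0).sub (memLp_const t)).add (memLp_const a)
    exact h1.integrable_sq
  have hq : ∀ a : ℝ, ∫ y, (if ∀ l, y l ≤ t then (y l0 - t + a) ^ 2 else 0) ∂(gam (m + 1))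
      = Ph t ^ (m + 1) * ((a - psi t) ^ 2 + ww t) := by
    intro a
    have h1 := box_sq (m + 1) (Pi.single l0 1) a t
    have h2 : ∀ y : Fin (m + 1) → ℝ,
        ∑ l, (Pi.single l0 (1 : ℝ) : Fin (m + 1) → ℝ) l * (y l - t) = y l0 - t := by
      intro y
      rw [Finset.sum_eq_single l0]
      · rw [Pi.single_eq_same, one_mul]
      · intro b _ hb
        rw [Pi.single_eq_of_ne hb, zero_mul]
      · intro h
        exact absurd (Finset.mem_univ l0) h
    have h3 : ∑ l, (Pi.single l0 (1 : ℝ) : Fin (m + 1) → ℝ) l = 1 := by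
      rw [Finset.sum_eq_single l0]
      · rw [Pi.single_eq_same]
      · intro b _ hb
        rw [Pi.single_eq_of_ne hb]
      · intro h
        exact absurd (Finset.mem_univ l0) h
    have h4 : ∑ l, (Pi.single l0 (1 : ℝ) : Fin (m + 1) → ℝ) l ^ 2 = 1 := by
      rw [Finset.sum_eq_single l0]
      · rw [Pi.single_eq_same, one_pow]
      · intro b _ hb
        rw [Pi.single_eq_of_ne hb, zero_pow two_ne_zero]
      · intro h
        exact absurd (Finset.mem_univ l0) h
    simp only [h2] at h1
    rw [h3, h4, mul_one, mul_one] at h1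
    exact h1
  have hpt : ∀ y : Fin (m + 1) → ℝ, (if ∀ l, y l ≤ t then y l0 else 0)
      = 1 / 4 * ((if ∀ l, y l ≤ t then (y l0 - t + 1) ^ 2 else 0)
        - (if ∀ l, y l ≤ t then (y l0 - t + -1) ^ 2 else 0))
        + t * (if ∀ l, y l ≤ t then (1 : ℝ) else 0) := by
    intro y
    by_cases h : ∀ l, y l ≤ t
    · rw [if_pos h, if_pos h, if_pos h, if_pos h]
      ring
    · rw [if_neg h, if_neg h, if_neg h, if_neg h]
      ring
  have i1 := n5_ite (m + 1) t _ (hsq 1)
  have i2 := n5_ite (m + 1) t _ (hsq (-1))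
  have i3 := n5_ite (m + 1) t (fun _ => (1 : ℝ)) (integrable_const 1)
  have e1 : Integrable (fun y : Fin (m + 1) → ℝ =>
      1 / 4 * ((if ∀ l, y l ≤ t then (y l0 - t + 1) ^ 2 else 0)
        - (if ∀ l, y l ≤ t then (y l0 - t + -1) ^ 2 else 0))) (gam (m + 1)) :=
    (i1.sub i2).const_mul _
  have e2 : Integrable (fun y : Fin (m + 1) → ℝ =>
      t * (if ∀ l, y l ≤ t then (1 : ℝ) else 0)) (gam (m + 1)) := i3.const_mul _
  rw [integral_congr_ae (Filter.Eventually.of_forall hpt),
    integral_add e1 e2, integral_const_mul, integral_const_mul,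
    integral_sub i1 i2, hq 1, hq (-1), n5_box]
  have hP : Ph t ≠ 0 := (Ph_basic.2.1 t).ne'
  have h5 : psi t = t + ph t / Ph t := rfl
  rw [h5]
  field_simp
  ring

/-- [N5d] first moments, `q = m + 2`.  `∫_{cl i} x_i = ∫ t φ Φ^{m+1} dt = (m+1) ∫ φ² Φ^m` (integration by parts,
`φ' = -tφ`); for `j ≠ i`: split off `i`, then integrate over `x_j`:
`∫_{v<t} v φ(v) dv = -φ(t)`, so `∫_{cl i} x_j = -∫ φ² Φ^m`.  (For the second one use `gam_split` twice or the
product structure of the inner integral.) -/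
theorem cl_moment (m : ℕ) (i : Fin (m + 2)) :
    ∫ x in cl i, x i ∂(gam (m + 2)) = (m + 1) * hh m ∧
    ∀ j, j ≠ i → ∫ x in cl i, x j ∂(gam (m + 2)) = -hh m := by
  have hp := n5_prob (m + 1)
  constructor
  · have hF : Integrable (Function.uncurry fun (t : ℝ) (_ : Fin (m + 1) → ℝ) => t)
        ((gaussianReal 0 1).prod (gam (m + 1))) := n5_id.comp_fst (gam (m + 1))
    have h1 := n5_cell (m + 1) i _ hF
    have h2 : ∀ t : ℝ, ∫ y, (if ∀ l, y l ≤ t then t else 0) ∂(gam (m + 1))
        = t * Ph t ^ (m + 1) := by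
      intro t
      rw [← n5_box (m + 1) t, ← integral_const_mul]
      refine integral_congr_ae (Filter.Eventually.of_forall fun y => ?_)
      show (if ∀ l, y l ≤ t then t else 0) = t * (if ∀ l, y l ≤ t then (1 : ℝ) else 0)
      by_cases h : ∀ l, y l ≤ t
      · rw [if_pos h, if_pos h, mul_one]
      · rw [if_neg h, if_neg h, mul_zero]
    rw [integral_congr_ae (Filter.Eventually.of_forall h2), n5_gauss] at h1
    rw [h1]
    have hd : ∀ t, HasDerivAt (fun t => -(ph t * Ph t ^ (m + 1)))
        (ph t * (t * Ph t ^ (m + 1)) - (m + 1) * (ph t ^ 2 * Ph t ^ m)) t := by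
      intro t
      have d1 := ph_basic.2.2.2.1 t
      have d2 := (Ph_basic.2.2.2.1 t).pow (m + 1)
      refine (d1.mul d2).neg.congr_deriv ?_
      simp only [Nat.add_sub_cancel, Pi.pow_apply]
      push_cast
      ring
    have hb : ∀ t, ‖Ph t ^ (m + 1)‖ ≤ 1 := by
      intro t
      rw [norm_pow, Real.norm_eq_abs, abs_of_pos (Ph_basic.2.1 t)]
      exact pow_le_one₀ (Ph_basic.2.1 t).le (Ph_basic.2.2.1 t)
    have hc : Continuous fun t => Ph t ^ (m + 1) := Ph_basic.1.pow _
    have i1 : Integrable fun t => ph t * (t * Ph t ^ (m + 1)) := by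
      have h3 : Integrable fun t => Ph t ^ (m + 1) * (t * ph t) :=
        n5_tph.bdd_mul hc.aestronglyMeasurable (Filter.Eventually.of_forall hb)
      refine h3.congr (Filter.Eventually.of_forall fun t => ?_)
      show Ph t ^ (m + 1) * (t * ph t) = ph t * (t * Ph t ^ (m + 1))
      ring
    have i2 : Integrable fun t => (m + 1 : ℝ) * (ph t ^ 2 * Ph t ^ m) :=
      (hh_pos m).2.1.const_mul _
    have i3 : Integrable fun t => -(ph t * Ph t ^ (m + 1)) := by
      have h3 : Integrable fun t => Ph t ^ (m + 1) * ph t :=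
        n5_ph.bdd_mul hc.aestronglyMeasurable (Filter.Eventually.of_forall hb)
      refine (h3.congr (Filter.Eventually.of_forall fun t => ?_)).neg
      show Ph t ^ (m + 1) * ph t = ph t * Ph t ^ (m + 1)
      ring
    have h4 := integral_eq_zero_of_hasDerivAt_of_integrable hd (i1.sub i2) i3
    rw [integral_sub i1 i2, integral_const_mul] at h4
    unfold hh
    linarith
  · intro j hj
    obtain ⟨l0, hl0⟩ := Fin.exists_succAbove_eq hj
    have hF : Integrable (Function.uncurry fun (_ : ℝ) (y : Fin (m + 1) → ℝ) => y l0)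
        ((gaussianReal 0 1).prod (gam (m + 1))) :=
      (n5_coordI (m + 1) l0).comp_snd (gaussianReal 0 1)
    have h1 := n5_cell (m + 1) i _ hF
    rw [integral_congr_ae (Filter.Eventually.of_forall fun t => n5_lin m l0 t),
      n5_gauss] at h1
    have h2 : ∫ x in cl i, x j ∂(gam (m + 2)) = ∫ t, ph t * -(ph t * Ph t ^ m) := by
      rw [← hl0]
      exact h1
    rw [h2]
    unfold hh
    rw [← integral_neg]
    refine integral_congr_ae (Filter.Eventually.of_forall fun t => ?_)
    show ph t * -(ph t * Ph t ^ m) = -(ph t ^ 2 * Ph t ^ m)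
    ring

private theorem n5_mxI (k : ℕ) : Integrable (fun x : Fin (k + 1) → ℝ => ∑ l, |x l|)
    (gam (k + 1)) :=
  integrable_finsetSum _ fun l _ => (n5_coordI (k + 1) l).abs

private theorem n5_eqv (k : ℕ) : eqv k = ∑ i, ∫ x in cl i, x i ∂(gam (k + 1)) := by
  obtain ⟨h1, -, -, h4, h5, h6⟩ := cl_basic k
  have hI : Integrable (fun x : Fin (k + 1) → ℝ => mx x) (gam (k + 1)) :=
    (n5_mxI k).mono' h5.aestronglyMeasurable (Filter.Eventually.of_forall fun x => by
      rw [Real.norm_eq_abs]
      exact h6 x)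
  unfold eqv
  rw [int_cells k _ hI]
  exact Finset.sum_congr rfl fun i _ => setIntegral_congr_fun (h1 i) fun x hx => h4 i x hx

/-- [N5e] `E max = (m+2)(m+1) h_m` (`int_cells`, `cl_moment`). -/
theorem eqv_eq (m : ℕ) : eqv (m + 1) = (m + 2) * (m + 1) * hh m := by
  rw [n5_eqv (m + 1), Finset.sum_congr rfl fun i _ => (cl_moment m i).1, Finset.sum_const,
    Finset.card_univ, Fintype.card_fin, nsmul_eq_mul]
  push_cast
  ring

/-- [N5f] `λ = 0` minimises `E max(λ + z) - mean λ`: on `cl i`, `mx (λ + z) ≥ λ_i + z_i`; integrate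
(`cl_mass`, `int_cells`). -/
theorem eqv_le (k : ℕ) (lam : Fin (k + 1) → ℝ) :
    eqv k ≤ (∫ x, mx (lam + x) ∂(gam (k + 1))) - (∑ j, lam j) / (k + 1) := by
  obtain ⟨h1, -, -, h4, h5, h6⟩ := cl_basic k
  have hp := n5_prob (k + 1)
  have hI : Integrable (fun x : Fin (k + 1) → ℝ => mx (lam + x)) (gam (k + 1)) := by
    have hb : Integrable (fun x : Fin (k + 1) → ℝ => ∑ l, |lam l| + ∑ l, |x l|) (gam (k + 1)) :=
      (integrable_const _).add (n5_mxI k)
    refine hb.mono' (h5.comp (continuous_const.add continuous_id)).aestronglyMeasurable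
      (Filter.Eventually.of_forall fun x => ?_)
    rw [Real.norm_eq_abs]
    refine (h6 (lam + x)).trans ?_
    rw [← Finset.sum_add_distrib]
    exact Finset.sum_le_sum fun l _ => abs_add_le _ _
  rw [int_cells k _ hI, n5_eqv k]
  have h7 : ∀ i, lam i / (k + 1) + ∫ x in cl i, x i ∂(gam (k + 1))
      ≤ ∫ x in cl i, mx (lam + x) ∂(gam (k + 1)) := by
    intro i
    have h8 : ∫ x in cl i, (lam i + x i) ∂(gam (k + 1))
        = lam i / (k + 1) + ∫ x in cl i, x i ∂(gam (k + 1)) := by
      rw [integral_add (integrable_const _) (n5_coordI (k + 1) i).integrableOn, setIntegral_const,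
        cl_mass, smul_eq_mul]
      ring
    rw [← h8]
    refine setIntegral_mono_on ?_ hI.integrableOn (h1 i) fun x _ => ?_
    · exact ((integrable_const _).add (n5_coordI (k + 1) i)).integrableOn
    · exact Finset.le_sup' (lam + x) (Finset.mem_univ i)
  have h9 := Finset.sum_le_sum fun i (_ : i ∈ Finset.univ) => h7 i
  rw [Finset.sum_add_distrib, ← Finset.sum_div] at h9
  linarith

end Pool.Agent.SSQ
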