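import Pool.Agent.SSQ.N5

set_option autoImplicit false
open MeasureTheory ProbabilityTheory Set Real

namespace Pool.Agent.SSQ
open Pool.Agent.SSC3N (gam GG TT)

/-- the linear form `λ_j - λ_i + ∑_{l≠j} (B_jl - B_il)(x_l - x_i)` (it does not depend on `x_j`; the term `l = i`
vanishes). -/
noncomputable def elij {m : ℕ} (B : Fin (m + 2) → Fin (m + 2) → ℝ) (lam : Fin (m + 2) → ℝ)
    (i j : Fin (m + 2)) (x : Fin (m + 2) → ℝ) : ℝ :=
  lam j - lam i + ∑ l, (if l = j then 0 else (B j l - B i l) * (x l - x i))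

/-- cost of the pair `(i,j)`, `ξ = B x + λ`. -/
noncomputable def Pij {m : ℕ} (B : Fin (m + 2) → Fin (m + 2) → ℝ) (lam : Fin (m + 2) → ℝ)
    (i j : Fin (m + 2)) : ℝ :=
  ∫ x in cl i, max ((∑ l, B j l * x l + lam j) - (∑ l, B i l * x l + lam i) - (x i - x j)) 0 ∂(gam (m + 2))

/-- leading part of the cost. -/
noncomputable def Qij {m : ℕ} (B : Fin (m + 2) → Fin (m + 2) → ℝ) (lam : Fin (m + 2) → ℝ)
    (i j : Fin (m + 2)) : ℝ :=
  ∫ x, (if ∀ l, l ≠ i → l ≠ j → x l ≤ x i then ph (x i) * (max (elij B lam i j x) 0) ^ 2 / 2 else 0)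
    ∂(gam (m + 2))

private theorem n6_elij_meas {m : ℕ} (B : Fin (m + 2) → Fin (m + 2) → ℝ) (lam : Fin (m + 2) → ℝ)
    (i j : Fin (m + 2)) : Measurable (elij B lam i j) := by
  unfold elij
  refine measurable_const.add (Finset.measurable_sum _ fun l _ => ?_)
  by_cases h : l = j
  · simp only [h, if_true]
    exact measurable_const
  · simp only [h, if_false]
    fun_prop

private theorem n6_elij_le {m : ℕ} (B : Fin (m + 2) → Fin (m + 2) → ℝ) (lam : Fin (m + 2) → ℝ)
    (i j : Fin (m + 2)) : ∃ K : ℝ, 0 ≤ K ∧ ∀ x, |elij B lam i j x| ≤ K * (1 + ∑ l, |x l|) := by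
  refine ⟨|lam j - lam i| + ∑ l, |B j l - B i l| * 2, by positivity, fun x => ?_⟩
  have hS : ∀ l, |x l| ≤ ∑ l, |x l| := fun l =>
    Finset.single_le_sum (f := fun l => |x l|) (fun l _ => abs_nonneg _) (Finset.mem_univ l)
  have hS0 : 0 ≤ ∑ l, |x l| := Finset.sum_nonneg fun l _ => abs_nonneg _
  unfold elij
  rw [add_mul]
  refine (abs_add_le _ _).trans (add_le_add ?_ ?_)
  · exact le_mul_of_one_le_right (abs_nonneg _) (by linarith)
  · rw [Finset.sum_mul]
    refine (Finset.abs_sum_le_sum_abs _ _).trans (Finset.sum_le_sum fun l _ => ?_)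
    split_ifs
    · rw [abs_zero]
      positivity
    · rw [abs_mul, mul_assoc]
      refine mul_le_mul_of_nonneg_left ?_ (abs_nonneg _)
      have h1 := abs_sub (x l) (x i)
      have h2 := hS l
      have h3 := hS i
      linarith

private theorem n6_box {m : ℕ} (i j : Fin (m + 2)) :
    MeasurableSet {x : Fin (m + 2) → ℝ | ∀ l, l ≠ i → l ≠ j → x l ≤ x i} := by
  have h1 : {x : Fin (m + 2) → ℝ | ∀ l, l ≠ i → l ≠ j → x l ≤ x i} =
      ⋂ l, ⋂ (_ : l ≠ i), ⋂ (_ : l ≠ j), {x | x l ≤ x i} := by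
    ext x
    simp only [mem_iInter]
    rfl
  rw [h1]
  exact MeasurableSet.iInter fun l => MeasurableSet.iInter fun _ => MeasurableSet.iInter fun _ =>
    measurableSet_le (measurable_pi_apply l) (measurable_pi_apply i)

private theorem n6_int {m : ℕ} (B : Fin (m + 2) → Fin (m + 2) → ℝ) (lam : Fin (m + 2) → ℝ)
    (i j : Fin (m + 2)) (g : ℝ → ℝ) (hg : Measurable g) (hle : ∀ e, |g e| ≤ e ^ 2) :
    Integrable (fun x : Fin (m + 2) → ℝ => if ∀ l, l ≠ i → l ≠ j → x l ≤ x i then
      ph (x i) * g (elij B lam i j x) / 2 else 0) (gam (m + 2)) := by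
  obtain ⟨K, hK, hb⟩ := n6_elij_le B lam i j
  refine ((gam_poly (m + 2) 2).const_mul (K ^ 2)).mono' ?_ (Filter.Eventually.of_forall fun x => ?_)
  · refine (Measurable.ite (n6_box i j) ?_ measurable_const).aestronglyMeasurable
    have h1 : Measurable (fun x : Fin (m + 2) → ℝ => ph (x i)) :=
      ph_basic.1.measurable.comp (measurable_pi_apply i)
    exact (h1.mul (hg.comp (n6_elij_meas B lam i j))).div_const 2
  · rw [Real.norm_eq_abs]
    have hS0 : 0 ≤ ∑ l, |x l| := Finset.sum_nonneg fun l _ => abs_nonneg _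
    split_ifs
    · rw [abs_div, abs_mul, abs_of_pos (ph_basic.2.1 _), abs_two]
      have h1 := ph_basic.2.2.1 (x i)
      have h2 := hle (elij B lam i j x)
      have h3 : (elij B lam i j x) ^ 2 ≤ (K * (1 + ∑ l, |x l|)) ^ 2 :=
        sq_le_sq' (abs_le.1 (hb x)).1 (abs_le.1 (hb x)).2
      have h4 := mul_le_mul_of_nonneg_right h1 (abs_nonneg (g (elij B lam i j x)))
      rw [mul_pow] at h3
      have h5 := abs_nonneg (g (elij B lam i j x))
      linarith
    · rw [abs_zero]
      positivity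

private theorem n6_anti (t l c : ℝ) (v : ℝ) :
    HasDerivAt (fun v : ℝ => -(ph t * (l * (t - v) - c * (t - v) ^ 2 / 2) +
      (l * (t - v) ^ 2 / 2 - c * (t - v) ^ 3 / 3)))
      ((ph t + (t - v)) * (l - c * (t - v))) v := by
  have h0 : HasDerivAt (fun v : ℝ => t - v) (-1) v := by
    exact (hasDerivAt_id v).const_sub t
  have h2 : HasDerivAt (fun v : ℝ => (t - v) ^ 2) (2 * (t - v) * (-1)) v := by
    exact (h0.fun_pow 2).congr_deriv (by norm_num)
  have h3 : HasDerivAt (fun v : ℝ => (t - v) ^ 3) (3 * (t - v) ^ 2 * (-1)) v := by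
    exact (h0.fun_pow 3).congr_deriv (by norm_num)
  have h := ((((h0.const_mul l).fun_sub ((h2.const_mul c).div_const 2)).const_mul (ph t)).fun_add
    (((h2.const_mul l).div_const 2).fun_sub ((h3.const_mul c).div_const 3))).fun_neg
  refine h.congr_deriv ?_
  ring

/-- [N6a] one variable.  `∫_{v<t} (ℓ - c(t-v))_+ φ(v) dv ≤ φ(t) ℓ_+²/(2c) + ℓ_+³/(6c²)`: `φ(v) ≤ φ(t) + (t - v)`
(`ph_basic`) and `∫_0^∞ (ℓ-cu)_+ du = ℓ_+²/(2c)`, `∫_0^∞ u (ℓ-cu)_+ du = ℓ_+³/(6c²)`. -/
theorem cost_one (t l c : ℝ) (hc : 0 < c) :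
    ∫ v, (if v < t then max (l - c * (t - v)) 0 else 0) ∂(gaussianReal 0 1) ≤
      ph t * (max l 0) ^ 2 / (2 * c) + (max l 0) ^ 3 / (6 * c ^ 2) := by
  have e1 : ∀ f : ℝ → ℝ, ∫ v, f v ∂(gaussianReal 0 1) = ∫ v, ph v * f v := by
    intro f
    rw [integral_gaussianReal_eq_integral_smul one_ne_zero]
    rfl
  rw [e1]
  rcases le_or_gt l 0 with hl | hl
  · have h0 : ∀ v, ph v * (if v < t then max (l - c * (t - v)) 0 else 0) = 0 := by
      intro v
      split_ifs with hv
      · have h1 : 0 < c * (t - v) := mul_pos hc (by linarith)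
        rw [max_eq_right (by linarith), mul_zero]
      · rw [mul_zero]
    simp only [h0, integral_zero]
    rw [max_eq_right hl]
    norm_num
  · rw [max_eq_left hl.le]
    set a : ℝ := t - l / c with ha
    have hlc : 0 < l / c := div_pos hl hc
    have hat : a ≤ t := by linarith
    have hcl : c * (l / c) = l := by field_simp
    have hcont : Continuous (fun v : ℝ => (ph t + (t - v)) * (l - c * (t - v))) := by fun_prop
    have hgi : Integrable ((Ioc a t).indicator
        (fun v : ℝ => (ph t + (t - v)) * (l - c * (t - v)))) := by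
      rw [integrable_indicator_iff measurableSet_Ioc]
      exact (hcont.integrableOn_Icc).mono_set Ioc_subset_Icc_self
    have hle : ∫ v, ph v * (if v < t then max (l - c * (t - v)) 0 else 0) ≤
        ∫ v, (Ioc a t).indicator (fun v : ℝ => (ph t + (t - v)) * (l - c * (t - v))) v := by
      refine integral_mono_of_nonneg (Filter.Eventually.of_forall fun v => ?_) hgi
        (Filter.Eventually.of_forall fun v => ?_)
      · have h1 := (ph_basic.2.1 v).le
        show 0 ≤ ph v * (if v < t then max (l - c * (t - v)) 0 else 0)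
        split_ifs
        · exact mul_nonneg h1 (le_max_right _ _)
        · rw [mul_zero]
      · show ph v * (if v < t then max (l - c * (t - v)) 0 else 0) ≤
          (Ioc a t).indicator (fun v : ℝ => (ph t + (t - v)) * (l - c * (t - v))) v
        by_cases hv : v ∈ Ioc a t
        · rw [indicator_of_mem hv]
          obtain ⟨hv1, hv2⟩ := hv
          have hpos : 0 < l - c * (t - v) := by
            have : c * (t - v) < c * (l / c) := mul_lt_mul_of_pos_left (by linarith) hc
            linarith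
          have h1 := (ph_basic.2.1 t)
          split_ifs with h
          · rw [max_eq_left hpos.le]
            refine mul_le_mul_of_nonneg_right ?_ hpos.le
            have h2 := ph_basic.2.2.2.2.1 v t
            rw [abs_sub_comm v t, abs_of_nonneg (by linarith : (0 : ℝ) ≤ t - v)] at h2
            have h3 := le_abs_self (ph v - ph t)
            linarith
          · rw [mul_zero]
            exact mul_nonneg (by linarith) hpos.le
        · rw [indicator_of_notMem hv]
          split_ifs with h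
          · have h1 : v ≤ a := by
              by_contra h2
              exact hv ⟨not_le.1 h2, h.le⟩
            have h2 : c * (l / c) ≤ c * (t - v) := mul_le_mul_of_nonneg_left (by linarith) hc.le
            rw [max_eq_right (by linarith), mul_zero]
          · rw [mul_zero]
    refine hle.trans (le_of_eq ?_)
    rw [integral_indicator measurableSet_Ioc, ← intervalIntegral.integral_of_le hat,
      intervalIntegral.integral_eq_sub_of_hasDerivAt (fun v _ => n6_anti t l c v)
        (hcont.intervalIntegrable _ _)]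
    have hta : t - a = l / c := by rw [ha]; ring
    rw [sub_self, hta]
    field_simp
    ring

/-- [N6c] exchange of the coordinates `i, j` (measure preserving, `MeasureTheory.measurePreserving_piCongrLeft` or
`volume`-free version for `Measure.pi` with `Equiv.swap i j`): `ℓ_ji(x ∘ swap) = -ℓ_ij(x)`, the box is the same and
`(x ∘ swap)_j = x_i`.  So `Qij + Qji = ∫ 1{x_l ≤ x_i, l ≠ i,j} φ(x_i) ℓ_ij(x)²/2` (`(a_+)² + ((-a)_+)² = a²`). -/
theorem pair_swap (m : ℕ) (B : Fin (m + 2) → Fin (m + 2) → ℝ) (lam : Fin (m + 2) → ℝ)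
    (i j : Fin (m + 2)) (hij : i ≠ j) :
    Qij B lam i j + Qij B lam j i =
      ∫ x, (if ∀ l, l ≠ i → l ≠ j → x l ≤ x i then ph (x i) * (elij B lam i j x) ^ 2 / 2 else 0)
        ∂(gam (m + 2)) := by
  have hmp : MeasurePreserving
      (MeasurableEquiv.piCongrLeft (fun _ : Fin (m + 2) => ℝ) (Equiv.swap i j))
      (gam (m + 2)) (gam (m + 2)) :=
    measurePreserving_piCongrLeft (α := fun _ : Fin (m + 2) => ℝ)
      (fun _ : Fin (m + 2) => gaussianReal 0 1) (Equiv.swap i j)
  have h0 : ∀ (x : Fin (m + 2) → ℝ) (a : Fin (m + 2)),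
      (MeasurableEquiv.piCongrLeft (fun _ : Fin (m + 2) => ℝ) (Equiv.swap i j)) x a
        = x (Equiv.swap i j a) := by
    intro x a
    have h2 := Equiv.piCongrLeft_apply_apply (fun _ : Fin (m + 2) => ℝ) (Equiv.swap i j) x
      (Equiv.swap i j a)
    rw [Equiv.swap_apply_self] at h2
    exact h2
  have hQ2 : Qij B lam j i = ∫ x, (if ∀ l, l ≠ i → l ≠ j → x l ≤ x i then
      ph (x i) * (max (-elij B lam i j x) 0) ^ 2 / 2 else 0) ∂(gam (m + 2)) := by
    unfold Qij
    rw [← hmp.integral_comp' (fun x : Fin (m + 2) → ℝ => if ∀ l, l ≠ j → l ≠ i → x l ≤ x j then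
      ph (x j) * (max (elij B lam j i x) 0) ^ 2 / 2 else 0)]
    refine integral_congr_ae (Filter.Eventually.of_forall fun x => ?_)
    set y := (MeasurableEquiv.piCongrLeft (fun _ : Fin (m + 2) => ℝ) (Equiv.swap i j)) x with hy
    have hyj : y j = x i := by rw [hy, h0, Equiv.swap_apply_right]
    have hyl : ∀ l, l ≠ i → l ≠ j → y l = x l := by
      intro l h1 h2
      rw [hy, h0, Equiv.swap_apply_of_ne_of_ne h1 h2]
    have hel : elij B lam j i y = -elij B lam i j x := by
      unfold elij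
      rw [neg_add, ← Finset.sum_neg_distrib]
      congr 1
      · ring
      · refine Finset.sum_congr rfl fun l _ => ?_
        by_cases h1 : l = i
        · rw [if_pos h1, h1, if_neg hij, sub_self, mul_zero, neg_zero]
        · by_cases h2 : l = j
          · rw [if_neg h1, if_pos h2, h2, sub_self, mul_zero, neg_zero]
          · rw [if_neg h1, if_neg h2, hyj, hyl l h1 h2]
            ring
    have hbox : (∀ l, l ≠ j → l ≠ i → y l ≤ y j) ↔ ∀ l, l ≠ i → l ≠ j → x l ≤ x i := by
      constructor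
      · intro h l h1 h2
        rw [← hyl l h1 h2, ← hyj]
        exact h l h2 h1
      · intro h l h2 h1
        rw [hyl l h1 h2, hyj]
        exact h l h1 h2
    show (if ∀ l, l ≠ j → l ≠ i → y l ≤ y j then ph (y j) * (max (elij B lam j i y) 0) ^ 2 / 2
      else 0) = if ∀ l, l ≠ i → l ≠ j → x l ≤ x i then
      ph (x i) * (max (-elij B lam i j x) 0) ^ 2 / 2 else 0
    by_cases h : ∀ l, l ≠ i → l ≠ j → x l ≤ x i
    · rw [if_pos h, if_pos (hbox.2 h), hyj, hel]
    · rw [if_neg h, if_neg (fun h' => h (hbox.1 h'))]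
  have hmx : ∀ e : ℝ, |(max e 0) ^ 2| ≤ e ^ 2 := by
    intro e
    rw [abs_of_nonneg (sq_nonneg _)]
    rcases le_total e 0 with h | h
    · rw [max_eq_right h]
      nlinarith [sq_nonneg e]
    · rw [max_eq_left h]
  have i1 := n6_int B lam i j (fun e => (max e 0) ^ 2) (by fun_prop) hmx
  have i2 := n6_int B lam i j (fun e => (max (-e) 0) ^ 2) (by fun_prop)
    (fun e => (hmx (-e)).trans (by rw [neg_sq]))
  rw [hQ2]
  unfold Qij
  rw [← integral_add i1 i2]
  refine integral_congr_ae (Filter.Eventually.of_forall fun x => ?_)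
  show (if ∀ l, l ≠ i → l ≠ j → x l ≤ x i then ph (x i) * (max (elij B lam i j x) 0) ^ 2 / 2
      else 0) + (if ∀ l, l ≠ i → l ≠ j → x l ≤ x i then
      ph (x i) * (max (-elij B lam i j x) 0) ^ 2 / 2 else 0) =
      if ∀ l, l ≠ i → l ≠ j → x l ≤ x i then ph (x i) * (elij B lam i j x) ^ 2 / 2 else 0
  by_cases h : ∀ l, l ≠ i → l ≠ j → x l ≤ x i
  · rw [if_pos h, if_pos h, if_pos h]
    rcases le_total (elij B lam i j x) 0 with h1 | h1
    · rw [max_eq_right h1, max_eq_left (by linarith)]
      ring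
    · rw [max_eq_left h1, max_eq_right (by linarith)]
      ring
  · rw [if_neg h, if_neg h, if_neg h, add_zero]

end Pool.Agent.SSQ
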