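import Pool.Agent.SSQ.N6

set_option autoImplicit false
open MeasureTheory ProbabilityTheory Set Real

namespace Pool.Agent.SSQ
open Pool.Agent.SSC3N (gam GG TT)


/-- the linear form in the coordinates other than `j` -/
private noncomputable def n6bE {m : ℕ} (B : Fin (m + 2) → Fin (m + 2) → ℝ) (lam : Fin (m + 2) → ℝ)
    (j : Fin (m + 2)) (i' : Fin (m + 1)) (y : Fin (m + 1) → ℝ) : ℝ :=
  lam j - lam (j.succAbove i') +
    ∑ l, (B j (j.succAbove l) - B (j.succAbove i') (j.succAbove l)) * (y l - y i')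

private noncomputable def n6bS {m : ℕ} (y : Fin (m + 1) → ℝ) : ℝ := 1 + ∑ l, |y l|

private theorem n6b_elij {m : ℕ} (B : Fin (m + 2) → Fin (m + 2) → ℝ) (lam : Fin (m + 2) → ℝ)
    (j : Fin (m + 2)) (i' : Fin (m + 1)) (x : Fin (m + 2) → ℝ) :
    elij B lam (j.succAbove i') j x = n6bE B lam j i' (fun l => x (j.succAbove l)) := by
  unfold elij n6bE
  rw [Fin.sum_univ_succAbove _ j, if_pos rfl, zero_add]
  congr 1
  refine Finset.sum_congr rfl fun l _ => ?_
  rw [if_neg (Fin.succAbove_ne j l)]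

private theorem n6b_box {m : ℕ} (j : Fin (m + 2)) (i' : Fin (m + 1)) (x : Fin (m + 2) → ℝ) :
    (∀ l, l ≠ j.succAbove i' → l ≠ j → x l ≤ x (j.succAbove i')) ↔
      ∀ l : Fin (m + 1), x (j.succAbove l) ≤ x (j.succAbove i') := by
  constructor
  · intro h l
    by_cases hl : l = i'
    · rw [hl]
    · exact h _ (fun h' => hl (Fin.succAbove_right_injective h')) (Fin.succAbove_ne j l)
  · intro h l _ hlj
    obtain ⟨l', rfl⟩ := Fin.exists_succAbove_eq hlj
    exact h l'

private theorem n6b_arg {m : ℕ} (B : Fin (m + 2) → Fin (m + 2) → ℝ) (lam : Fin (m + 2) → ℝ)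
    (hr : ∀ i, ∑ l, B i l = 0) (j : Fin (m + 2)) (i' : Fin (m + 1)) (x : Fin (m + 2) → ℝ) :
    (∑ l, B j l * x l + lam j) - (∑ l, B (j.succAbove i') l * x l + lam (j.succAbove i')) -
      (x (j.succAbove i') - x j) =
    n6bE B lam j i' (fun l => x (j.succAbove l)) -
      (1 + B j j - B (j.succAbove i') j) * (x (j.succAbove i') - x j) := by
  have e1 : ∑ l, B j l * x l - ∑ l, B (j.succAbove i') l * x l =
      ∑ l, (B j l - B (j.succAbove i') l) * (x l - x (j.succAbove i')) := by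
    have h1 : ∑ l, (B j l - B (j.succAbove i') l) * (x l - x (j.succAbove i')) =
        (∑ l, B j l * x l - ∑ l, B (j.succAbove i') l * x l) -
          (∑ l, B j l - ∑ l, B (j.succAbove i') l) * x (j.succAbove i') := by
      rw [← Finset.sum_sub_distrib, ← Finset.sum_sub_distrib, Finset.sum_mul,
        ← Finset.sum_sub_distrib]
      refine Finset.sum_congr rfl fun l _ => ?_
      ring
    rw [h1, hr, hr]
    ring
  rw [Fin.sum_univ_succAbove (fun l => (B j l - B (j.succAbove i') l) *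
    (x l - x (j.succAbove i'))) j] at e1
  unfold n6bE
  linarith

private theorem n6b_S_one {m : ℕ} (y : Fin (m + 1) → ℝ) : 1 ≤ n6bS y := by
  unfold n6bS
  have : 0 ≤ ∑ l, |y l| := Finset.sum_nonneg fun l _ => abs_nonneg _
  linarith

private theorem n6b_E_le {m : ℕ} {Lam : ℝ} (hL : 0 ≤ Lam)
    (B : Fin (m + 2) → Fin (m + 2) → ℝ) (lam : Fin (m + 2) → ℝ) (b : ℝ) (hb : 0 ≤ b)
    (hB : ∀ i l, |B i l| ≤ b) (hl : ∀ i, |lam i| ≤ Lam * b) (j : Fin (m + 2)) (i' : Fin (m + 1))
    (y : Fin (m + 1) → ℝ) :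
    |n6bE B lam j i' y| ≤ (2 * Lam + 2 * ((m : ℝ) + 2)) * b * n6bS y := by
  unfold n6bE
  have h1 : |lam j - lam (j.succAbove i')| ≤ 2 * Lam * b := by
    have := abs_sub (lam j) (lam (j.succAbove i'))
    have h2 := hl j
    have h3 := hl (j.succAbove i')
    linarith
  have h2 : |∑ l, (B j (j.succAbove l) - B (j.succAbove i') (j.succAbove l)) * (y l - y i')| ≤
      ∑ l : Fin (m + 1), (2 * b * |y l| + 2 * b * |y i'|) := by
    refine (Finset.abs_sum_le_sum_abs _ _).trans (Finset.sum_le_sum fun l _ => ?_)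
    rw [abs_mul]
    have h3 : |B j (j.succAbove l) - B (j.succAbove i') (j.succAbove l)| ≤ 2 * b := by
      have := abs_sub (B j (j.succAbove l)) (B (j.succAbove i') (j.succAbove l))
      have h4 := hB j (j.succAbove l)
      have h5 := hB (j.succAbove i') (j.succAbove l)
      linarith
    have h4 : |y l - y i'| ≤ |y l| + |y i'| := abs_sub _ _
    calc _ ≤ 2 * b * (|y l| + |y i'|) :=
          mul_le_mul h3 h4 (abs_nonneg _) (by linarith)
      _ = _ := by ring
  have h3 : ∑ l : Fin (m + 1), (2 * b * |y l| + 2 * b * |y i'|) =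
      2 * b * ∑ l, |y l| + ((m : ℝ) + 1) * (2 * b * |y i'|) := by
    rw [Finset.sum_add_distrib, ← Finset.mul_sum, Finset.sum_const, Finset.card_univ,
      Fintype.card_fin, nsmul_eq_mul]
    push_cast
    ring
  have h4 : |y i'| ≤ ∑ l, |y l| :=
    Finset.single_le_sum (f := fun l => |y l|) (fun l _ => abs_nonneg _) (Finset.mem_univ i')
  have h5 : 0 ≤ ∑ l, |y l| := Finset.sum_nonneg fun l _ => abs_nonneg _
  have h6 : ((m : ℝ) + 1) * (2 * b * |y i'|) ≤ ((m : ℝ) + 1) * (2 * b * ∑ l, |y l|) := by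
    have : (0 : ℝ) ≤ m := Nat.cast_nonneg m
    gcongr
  have h7 := abs_add_le (lam j - lam (j.succAbove i'))
    (∑ l, (B j (j.succAbove l) - B (j.succAbove i') (j.succAbove l)) * (y l - y i'))
  have hS : n6bS y = 1 + ∑ l, |y l| := rfl
  rw [hS]
  have h8 : 0 ≤ Lam * b * ∑ l, |y l| := by positivity
  have h9 : 0 ≤ b * ((m : ℝ) + 2) := by positivity
  nlinarith [h1, h2, h3, h6, h7, h8, h9]

private theorem n6b_E_meas {m : ℕ} (B : Fin (m + 2) → Fin (m + 2) → ℝ) (lam : Fin (m + 2) → ℝ)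
    (j : Fin (m + 2)) (i' : Fin (m + 1)) : Measurable (n6bE B lam j i') := by
  unfold n6bE
  fun_prop

private theorem n6b_boxset {m : ℕ} (i' : Fin (m + 1)) :
    MeasurableSet {y : Fin (m + 1) → ℝ | ∀ l, y l ≤ y i'} := by
  have : {y : Fin (m + 1) → ℝ | ∀ l, y l ≤ y i'} = ⋂ l, {y | y l ≤ y i'} := by
    ext y; simp
  rw [this]
  exact MeasurableSet.iInter fun l => measurableSet_le (by fun_prop) (by fun_prop)

/-- the integrand after the splitting -/
private noncomputable def n6bF {m : ℕ} (B : Fin (m + 2) → Fin (m + 2) → ℝ) (lam : Fin (m + 2) → ℝ)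
    (j : Fin (m + 2)) (i' : Fin (m + 1)) (c : ℝ) (v : ℝ) (y : Fin (m + 1) → ℝ) : ℝ :=
  if ∀ l, y l ≤ y i' then
    (if v < y i' then max (n6bE B lam j i' y - c * (y i' - v)) 0 else 0) else 0

private noncomputable def n6bH {m : ℕ} (B : Fin (m + 2) → Fin (m + 2) → ℝ) (lam : Fin (m + 2) → ℝ)
    (j : Fin (m + 2)) (i' : Fin (m + 1)) (y : Fin (m + 1) → ℝ) : ℝ :=
  if ∀ l, y l ≤ y i' then ph (y i') * (max (n6bE B lam j i' y) 0) ^ 2 / 2 else 0

private theorem n6b_F_meas {m : ℕ} (B : Fin (m + 2) → Fin (m + 2) → ℝ) (lam : Fin (m + 2) → ℝ)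
    (j : Fin (m + 2)) (i' : Fin (m + 1)) (c : ℝ) :
    Measurable (Function.uncurry (n6bF B lam j i' c)) := by
  have hE := n6b_E_meas B lam j i'
  have h1 : MeasurableSet {p : ℝ × (Fin (m + 1) → ℝ) | ∀ l, p.2 l ≤ p.2 i'} :=
    measurable_snd (n6b_boxset i')
  have h2 : MeasurableSet {p : ℝ × (Fin (m + 1) → ℝ) | p.1 < p.2 i'} :=
    measurableSet_lt (by fun_prop) (by fun_prop)
  have h3 : Measurable (fun p : ℝ × (Fin (m + 1) → ℝ) =>
      max (n6bE B lam j i' p.2 - c * (p.2 i' - p.1)) 0) := by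
    have : Measurable (fun p : ℝ × (Fin (m + 1) → ℝ) => n6bE B lam j i' p.2) :=
      hE.comp measurable_snd
    exact (Measurable.sub this (by fun_prop)).max measurable_const
  exact Measurable.ite h1 (Measurable.ite h2 h3 measurable_const) measurable_const

private theorem n6b_H_meas {m : ℕ} (B : Fin (m + 2) → Fin (m + 2) → ℝ) (lam : Fin (m + 2) → ℝ)
    (j : Fin (m + 2)) (i' : Fin (m + 1)) : Measurable (n6bH B lam j i') := by
  have hE := n6b_E_meas B lam j i'
  have hph : Measurable ph := ph_basic.1.measurable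
  refine Measurable.ite (n6b_boxset i') ?_ measurable_const
  have h1 : Measurable (fun y : Fin (m + 1) → ℝ => ph (y i')) :=
    hph.comp (measurable_pi_apply i')
  exact (h1.mul ((hE.max measurable_const).pow_const 2)).div_const 2

private theorem n6b_max_sq_le {e M : ℝ} (h : |e| ≤ M) : (max e 0) ^ 2 ≤ M ^ 2 := by
  have h1 : max e 0 ≤ M := max_le ((le_abs_self e).trans h) ((abs_nonneg e).trans h)
  exact pow_le_pow_left₀ (le_max_right _ _) h1 2

private theorem n6b_max_cu_le {e M : ℝ} (h : |e| ≤ M) : (max e 0) ^ 3 ≤ M ^ 3 := by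
  have h1 : max e 0 ≤ M := max_le ((le_abs_self e).trans h) ((abs_nonneg e).trans h)
  exact pow_le_pow_left₀ (le_max_right _ _) h1 3

/-- [N6b] ONE PAIR.  On `cl i`, since the row sums of `B` vanish, `ξ_j - ξ_i - (x_i - x_j) = ℓ_ij(x) - c (x_i - x_j)`
with `c = 1 + B_jj - B_ij ∈ [1 - 2b, 1 + 2b]`.  Enlarge `cl i` to `{x_l ≤ x_i for l ≠ i,j} ∩ {x_j < x_i}` (the
integrand is nonnegative) and integrate first over the coordinate `x_j` (`gam_split` with index `j`:
`x_j = t'`, the other coordinates `y`; note that `ℓ_ij`, `x_i` do not depend on `x_j`): `cost_one` with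
`t = x_i`, `v = x_j`.  Since `1/c ≤ 1 + 4b` (`b ≤ 1/4`) and `|ℓ_ij(x)| ≤ (2Λ + 2)·b·(1 + ∑|x_l|)·(m+2)·2`, the result is
`≤ Qij + C b³` (`φ ≤ 1`, `gam_poly`).  In `Qij` the integrand does not depend on `x_j`, so the outer integral is `Qij`
itself (`gam_split` backwards). -/
theorem pair_one (m : ℕ) (Lam : ℝ) (hL : 0 ≤ Lam) : ∃ C : ℝ, 0 ≤ C ∧
    ∀ (B : Fin (m + 2) → Fin (m + 2) → ℝ) (lam : Fin (m + 2) → ℝ) (b : ℝ), 0 ≤ b → b ≤ 1 / 8 →
      (∀ i l, |B i l| ≤ b) → (∀ i, ∑ l, B i l = 0) → (∀ i, |lam i| ≤ Lam * b) →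
      ∀ i j, i ≠ j → Pij B lam i j ≤ Qij B lam i j + C * b ^ 3 := by
  have hg1 : IsProbabilityMeasure (gam (m + 1)) := by unfold gam; infer_instance
  have hg2 : IsProbabilityMeasure (gam (m + 2)) := by unfold gam; infer_instance
  set A : ℝ := 2 * Lam + 2 * ((m : ℝ) + 2) with hA
  have hA0 : 0 ≤ A := by rw [hA]; positivity
  have hS3 : Integrable (fun y : Fin (m + 1) → ℝ => n6bS y ^ 3) (gam (m + 1)) := gam_poly (m + 1) 3
  have hS2 : Integrable (fun y : Fin (m + 1) → ℝ => n6bS y ^ 2) (gam (m + 1)) := gam_poly (m + 1) 2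
  have hS1 : Integrable (fun y : Fin (m + 1) → ℝ => n6bS y) (gam (m + 1)) := by
    have := gam_poly (m + 1) 1
    simp only [pow_one] at this
    exact this
  have hSpos : ∀ y : Fin (m + 1) → ℝ, 0 ≤ n6bS y := fun y => zero_le_one.trans (n6b_S_one y)
  refine ⟨(2 * A ^ 2 + A ^ 3) * ∫ y, n6bS y ^ 3 ∂(gam (m + 1)), ?_, ?_⟩
  · refine mul_nonneg (by positivity) (integral_nonneg fun y => ?_)
    exact pow_nonneg (hSpos y) 3
  intro B lam b hb hb8 hB hr hl i j hij
  obtain ⟨i', rfl⟩ := Fin.exists_succAbove_eq hij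
  set c : ℝ := 1 + B j j - B (j.succAbove i') j with hc
  have hc1 : 1 - 2 * b ≤ c := by
    have h1 := abs_le.1 (hB j j)
    have h2 := abs_le.1 (hB (j.succAbove i') j)
    linarith [h1.1, h2.2]
  have hc34 : 3 / 4 ≤ c := by linarith
  have hc0 : 0 < c := by linarith
  have hEle : ∀ y, |n6bE B lam j i' y| ≤ A * b * n6bS y :=
    fun y => n6b_E_le hL B lam b hb hB hl j i' y
  -- bounds and integrability of the integrand
  have hFle : ∀ v y, |n6bF B lam j i' c v y| ≤ A * b * n6bS y := by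
    intro v y
    have h0 : 0 ≤ A * b * n6bS y := by
      have := hSpos y
      positivity
    unfold n6bF
    split_ifs with h1 h2
    · rw [abs_of_nonneg (le_max_right _ _)]
      refine max_le ?_ h0
      have h3 : 0 ≤ c * (y i' - v) := mul_nonneg hc0.le (by linarith)
      have h4 := (le_abs_self _).trans (hEle y)
      linarith
    · rw [abs_zero]; exact h0
    · rw [abs_zero]; exact h0
  have hF : Integrable (Function.uncurry (n6bF B lam j i' c))
      ((gaussianReal 0 1).prod (gam (m + 1))) := by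
    have h1 : Integrable (fun p : ℝ × (Fin (m + 1) → ℝ) => A * b * n6bS p.2)
        ((gaussianReal 0 1).prod (gam (m + 1))) :=
      (hS1.const_mul (A * b)).comp_snd (gaussianReal 0 1)
    refine h1.mono (n6b_F_meas B lam j i' c).aestronglyMeasurable (Filter.Eventually.of_forall ?_)
    intro p
    rw [Real.norm_eq_abs, Real.norm_eq_abs]
    exact (hFle p.1 p.2).trans (le_abs_self _)
  have hHle : ∀ y, |n6bH B lam j i' y| ≤ A ^ 2 * b ^ 2 * n6bS y ^ 2 := by
    intro y
    have h0 : 0 ≤ A ^ 2 * b ^ 2 * n6bS y ^ 2 := by positivity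
    unfold n6bH
    split_ifs with h1
    · have h2 := ph_basic.2.1 (y i')
      have h3 := ph_basic.2.2.1 (y i')
      have h4 := n6b_max_sq_le (hEle y)
      have h5 : 0 ≤ (max (n6bE B lam j i' y) 0) ^ 2 := sq_nonneg _
      rw [abs_of_nonneg (by positivity)]
      have h6 : ph (y i') * (max (n6bE B lam j i' y) 0) ^ 2 ≤
          1 * (max (n6bE B lam j i' y) 0) ^ 2 := mul_le_mul_of_nonneg_right h3 h5
      have h7 : (A * b * n6bS y) ^ 2 = A ^ 2 * b ^ 2 * n6bS y ^ 2 := by ring
      linarith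
    · rw [abs_zero]; exact h0
  have hH : Integrable (n6bH B lam j i') (gam (m + 1)) := by
    refine (hS2.const_mul (A ^ 2 * b ^ 2)).mono (n6b_H_meas B lam j i').aestronglyMeasurable
      (Filter.Eventually.of_forall ?_)
    intro y
    rw [Real.norm_eq_abs, Real.norm_eq_abs]
    exact (hHle y).trans (le_abs_self _)
  -- the leading part
  have hQ : Qij B lam (j.succAbove i') j = ∫ y, n6bH B lam j i' y ∂(gam (m + 1)) := by
    have h1 : Qij B lam (j.succAbove i') j =
        ∫ x, (fun (_ : ℝ) (y : Fin (m + 1) → ℝ) => n6bH B lam j i' y) (x j)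
          (fun l => x (j.succAbove l)) ∂(gam (m + 2)) := by
      unfold Qij
      refine integral_congr_ae (Filter.Eventually.of_forall fun x => ?_)
      simp only [n6bH, n6b_elij]
      by_cases h : ∀ l : Fin (m + 1), x (j.succAbove l) ≤ x (j.succAbove i')
      · rw [if_pos h, if_pos ((n6b_box j i' x).2 h)]
      · rw [if_neg h, if_neg (fun h' => h ((n6b_box j i' x).1 h'))]
    rw [h1, gam_split (m + 1) j (fun (_ : ℝ) (y : Fin (m + 1) → ℝ) => n6bH B lam j i' y)
      (hH.comp_snd (gaussianReal 0 1))]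
    rw [integral_const, probReal_univ, one_smul]
  -- the cost
  have hFnn : ∀ v y, 0 ≤ n6bF B lam j i' c v y := by
    intro v y
    unfold n6bF
    split_ifs
    · exact le_max_right _ _
    · exact le_refl _
    · exact le_refl _
  have hFx : Integrable (fun x : Fin (m + 2) → ℝ =>
      n6bF B lam j i' c (x j) (fun l => x (j.succAbove l))) (gam (m + 2)) :=
    (gam_split_mp (m + 1) j).integrable_comp_of_integrable hF
  have hP1 : Pij B lam (j.succAbove i') j =
      ∫ x in cl (j.succAbove i'), n6bF B lam j i' c (x j) (fun l => x (j.succAbove l))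
        ∂(gam (m + 2)) := by
    unfold Pij
    refine setIntegral_congr_fun ((cl_basic (m + 1)).1 _) ?_
    intro x hx
    have hx' : ∀ l, l ≠ j.succAbove i' → x l < x (j.succAbove i') := hx
    simp only [n6bF]
    rw [if_pos (fun l => ?_), if_pos (hx' j (Fin.succAbove_ne j i').symm), n6b_arg B lam hr]
    by_cases hl' : l = i'
    · rw [hl']
    · exact (hx' _ (fun h' => hl' (Fin.succAbove_right_injective h'))).le
  have hP2 : Pij B lam (j.succAbove i') j ≤
      ∫ y, ∫ v, n6bF B lam j i' c v y ∂(gaussianReal 0 1) ∂(gam (m + 1)) := by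
    rw [hP1]
    refine (setIntegral_le_integral hFx (Filter.Eventually.of_forall fun x => hFnn _ _)).trans ?_
    rw [gam_split (m + 1) j (n6bF B lam j i' c) hF, integral_integral_swap hF]
  -- the inner integral
  have hin : ∀ y, ∫ v, n6bF B lam j i' c v y ∂(gaussianReal 0 1) ≤
      n6bH B lam j i' y + (2 * A ^ 2 + A ^ 3) * b ^ 3 * n6bS y ^ 3 := by
    intro y
    have hS := hSpos y
    have hS1' := n6b_S_one y
    by_cases hbox : ∀ l, y l ≤ y i'
    · have h1 : ∫ v, n6bF B lam j i' c v y ∂(gaussianReal 0 1) =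
          ∫ v, (if v < y i' then max (n6bE B lam j i' y - c * (y i' - v)) 0 else 0)
            ∂(gaussianReal 0 1) := by
        refine integral_congr_ae (Filter.Eventually.of_forall fun v => ?_)
        simp only [n6bF]
        rw [if_pos hbox]
      have h2 := cost_one (y i') (n6bE B lam j i' y) c hc0
      rw [← h1] at h2
      refine h2.trans ?_
      have h3 : n6bH B lam j i' y = ph (y i') * (max (n6bE B lam j i' y) 0) ^ 2 / 2 := by
        unfold n6bH
        rw [if_pos hbox]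
      rw [h3]
      have p0 := ph_basic.2.1 (y i')
      have p1 := ph_basic.2.2.1 (y i')
      have e2 := n6b_max_sq_le (hEle y)
      have e3 := n6b_max_cu_le (hEle y)
      have hm0 : 0 ≤ max (n6bE B lam j i' y) 0 := le_max_right _ _
      set M := max (n6bE B lam j i' y) 0 with hM
      have q1 : ph (y i') * M ^ 2 / (2 * c) ≤ ph (y i') * M ^ 2 / 2 + 2 * b * M ^ 2 := by
        have hX : 0 ≤ ph (y i') * M ^ 2 := by positivity
        have hX1 : ph (y i') * M ^ 2 ≤ M ^ 2 := by
          have := mul_le_mul_of_nonneg_right p1 (sq_nonneg M)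
          linarith
        rw [div_le_iff₀ (by linarith)]
        have hcb : 1 ≤ c * (1 + 4 * b) := by nlinarith
        have t1 : ph (y i') * M ^ 2 ≤ ph (y i') * M ^ 2 * (c * (1 + 4 * b)) :=
          le_mul_of_one_le_right hX hcb
        have t2 : 0 ≤ 4 * b * c * (M ^ 2 - ph (y i') * M ^ 2) := by
          have : 0 ≤ M ^ 2 - ph (y i') * M ^ 2 := by linarith
          positivity
        nlinarith [t1, t2]
      have q2 : M ^ 3 / (6 * c ^ 2) ≤ M ^ 3 := by
        have hM3 : 0 ≤ M ^ 3 := by positivity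
        have h6 : 1 ≤ 6 * c ^ 2 := by nlinarith
        exact div_le_self hM3 h6
      have q3 : 2 * b * M ^ 2 ≤ 2 * A ^ 2 * b ^ 3 * n6bS y ^ 3 := by
        have h7 : 2 * b * M ^ 2 ≤ 2 * b * (A * b * n6bS y) ^ 2 :=
          mul_le_mul_of_nonneg_left e2 (by positivity)
        have h8 : n6bS y ^ 2 ≤ n6bS y ^ 3 := pow_le_pow_right₀ hS1' (by norm_num)
        have h9 : 2 * A ^ 2 * b ^ 3 * n6bS y ^ 2 ≤ 2 * A ^ 2 * b ^ 3 * n6bS y ^ 3 :=
          mul_le_mul_of_nonneg_left h8 (by positivity)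
        have h10 : 2 * b * (A * b * n6bS y) ^ 2 = 2 * A ^ 2 * b ^ 3 * n6bS y ^ 2 := by ring
        linarith
      have q4 : M ^ 3 ≤ A ^ 3 * b ^ 3 * n6bS y ^ 3 := by
        have : (A * b * n6bS y) ^ 3 = A ^ 3 * b ^ 3 * n6bS y ^ 3 := by ring
        linarith
      have q5 : (2 * A ^ 2 + A ^ 3) * b ^ 3 * n6bS y ^ 3 =
          2 * A ^ 2 * b ^ 3 * n6bS y ^ 3 + A ^ 3 * b ^ 3 * n6bS y ^ 3 := by ring
      rw [q5]
      linarith
    · have h1 : ∫ v, n6bF B lam j i' c v y ∂(gaussianReal 0 1) = 0 := by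
        have : ∀ v, n6bF B lam j i' c v y = 0 := by
          intro v
          unfold n6bF
          rw [if_neg hbox]
        simp only [this, integral_zero]
      have h3 : n6bH B lam j i' y = 0 := by
        unfold n6bH
        rw [if_neg hbox]
      rw [h1, h3]
      positivity
  refine hP2.trans ?_
  have hK : Integrable (fun y : Fin (m + 1) → ℝ => (2 * A ^ 2 + A ^ 3) * b ^ 3 * n6bS y ^ 3)
      (gam (m + 1)) := hS3.const_mul _
  have hfin := integral_mono (μ := gam (m + 1)) hF.integral_prod_right (hH.add hK) hin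
  refine hfin.trans ?_
  have hadd := integral_add (μ := gam (m + 1)) hH hK
  simp only [Pi.add_apply]
  rw [hadd, ← hQ, integral_const_mul]
  apply le_of_eq
  ring

end Pool.Agent.SSQ
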