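import Pool.Agent.SSQ.N6

set_option autoImplicit false
open MeasureTheory ProbabilityTheory Set Real

namespace Pool.Agent.SSQ
open Pool.Agent.SSC3N (gam GG TT)

/-- the linear form in the coordinates other than `j` -/
private noncomputable def n6dE {m : ℕ} (B : Fin (m + 2) → Fin (m + 2) → ℝ) (lam : Fin (m + 2) → ℝ)
    (j : Fin (m + 2)) (i' : Fin (m + 1)) (y : Fin (m + 1) → ℝ) : ℝ :=
  lam j - lam (j.succAbove i') +
    ∑ l, (B j (j.succAbove l) - B (j.succAbove i') (j.succAbove l)) * (y l - y i')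

private theorem n6d_elij {m : ℕ} (B : Fin (m + 2) → Fin (m + 2) → ℝ) (lam : Fin (m + 2) → ℝ)
    (j : Fin (m + 2)) (i' : Fin (m + 1)) (x : Fin (m + 2) → ℝ) :
    elij B lam (j.succAbove i') j x = n6dE B lam j i' (fun l => x (j.succAbove l)) := by
  unfold elij n6dE
  rw [Fin.sum_univ_succAbove _ j, if_pos rfl, zero_add]
  congr 1
  refine Finset.sum_congr rfl fun l _ => ?_
  rw [if_neg (Fin.succAbove_ne j l)]

private theorem n6d_box {m : ℕ} (j : Fin (m + 2)) (i' : Fin (m + 1)) (x : Fin (m + 2) → ℝ) :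
    (∀ l, l ≠ j.succAbove i' → l ≠ j → x l ≤ x (j.succAbove i')) ↔
      ∀ l : Fin (m + 1), x (j.succAbove l) ≤ x (j.succAbove i') := by
  constructor
  · intro h l
    by_cases hl : l = i'
    · rw [hl]
    · exact h _ (fun h' => hl (Fin.succAbove_right_injective h')) (Fin.succAbove_ne j l)
  · intro h l _ hlj
    obtain ⟨l', rfl⟩ := Fin.exists_succAbove_eq hlj
    exact h l'

private theorem n6d_box' {m : ℕ} (i' : Fin (m + 1)) (y : Fin (m + 1) → ℝ) :
    (∀ l, y l ≤ y i') ↔ ∀ l : Fin m, y (i'.succAbove l) ≤ y i' := by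
  constructor
  · intro h l
    exact h _
  · intro h l
    by_cases hl : l = i'
    · rw [hl]
    · obtain ⟨l', rfl⟩ := Fin.exists_succAbove_eq hl
      exact h l'

private theorem n6d_boxset {m : ℕ} (i' : Fin (m + 1)) :
    MeasurableSet {y : Fin (m + 1) → ℝ | ∀ l, y l ≤ y i'} := by
  have : {y : Fin (m + 1) → ℝ | ∀ l, y l ≤ y i'} = ⋂ l, {y | y l ≤ y i'} := by
    ext y; simp
  rw [this]
  exact MeasurableSet.iInter fun l => measurableSet_le (by fun_prop) (by fun_prop)

private noncomputable def n6dG {m : ℕ} (B : Fin (m + 2) → Fin (m + 2) → ℝ) (lam : Fin (m + 2) → ℝ)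
    (j : Fin (m + 2)) (i' : Fin (m + 1)) (y : Fin (m + 1) → ℝ) : ℝ :=
  if ∀ l, y l ≤ y i' then ph (y i') * (n6dE B lam j i' y) ^ 2 / 2 else 0

private theorem n6d_E_meas {m : ℕ} (B : Fin (m + 2) → Fin (m + 2) → ℝ) (lam : Fin (m + 2) → ℝ)
    (j : Fin (m + 2)) (i' : Fin (m + 1)) : Measurable (n6dE B lam j i') := by
  unfold n6dE
  fun_prop

private theorem n6d_G_meas {m : ℕ} (B : Fin (m + 2) → Fin (m + 2) → ℝ) (lam : Fin (m + 2) → ℝ)
    (j : Fin (m + 2)) (i' : Fin (m + 1)) : Measurable (n6dG B lam j i') := by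
  have hE := n6d_E_meas B lam j i'
  have hph : Measurable ph := ph_basic.1.measurable
  refine Measurable.ite (n6d_boxset i') ?_ measurable_const
  have h1 : Measurable (fun y : Fin (m + 1) → ℝ => ph (y i')) :=
    hph.comp (measurable_pi_apply i')
  exact (h1.mul (hE.pow_const 2)).div_const 2

private theorem n6d_E_le {m : ℕ} (B : Fin (m + 2) → Fin (m + 2) → ℝ) (lam : Fin (m + 2) → ℝ)
    (j : Fin (m + 2)) (i' : Fin (m + 1)) : ∃ K : ℝ, 0 ≤ K ∧ ∀ y : Fin (m + 1) → ℝ,
      |n6dE B lam j i' y| ≤ K * (1 + ∑ l, |y l|) := by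
  set c : Fin (m + 1) → ℝ := fun l => B j (j.succAbove l) - B (j.succAbove i') (j.succAbove l)
    with hc
  refine ⟨|lam j - lam (j.succAbove i')| + ∑ l, |c l| * 2, ?_, ?_⟩
  · have : 0 ≤ ∑ l, |c l| * 2 := Finset.sum_nonneg fun l _ => by positivity
    positivity
  intro y
  have hS : 0 ≤ ∑ l, |y l| := Finset.sum_nonneg fun l _ => abs_nonneg _
  have h1 : |∑ l, c l * (y l - y i')| ≤ ∑ l, |c l| * 2 * (1 + ∑ l, |y l|) := by
    refine (Finset.abs_sum_le_sum_abs _ _).trans (Finset.sum_le_sum fun l _ => ?_)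
    rw [abs_mul]
    have h2 : |y l| ≤ ∑ l, |y l| :=
      Finset.single_le_sum (f := fun l => |y l|) (fun l _ => abs_nonneg _) (Finset.mem_univ l)
    have h3 : |y i'| ≤ ∑ l, |y l| :=
      Finset.single_le_sum (f := fun l => |y l|) (fun l _ => abs_nonneg _) (Finset.mem_univ i')
    have h4 : |y l - y i'| ≤ |y l| + |y i'| := abs_sub _ _
    have h5 : |y l - y i'| ≤ 2 * (1 + ∑ l, |y l|) := by linarith
    calc |c l| * |y l - y i'| ≤ |c l| * (2 * (1 + ∑ l, |y l|)) :=
          mul_le_mul_of_nonneg_left h5 (abs_nonneg _)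
      _ = _ := by ring
  rw [← Finset.sum_mul] at h1
  have h2 : |n6dE B lam j i' y| ≤ |lam j - lam (j.succAbove i')| + |∑ l, c l * (y l - y i')| := by
    unfold n6dE
    exact abs_add_le _ _
  have h3 : |lam j - lam (j.succAbove i')| ≤
      |lam j - lam (j.succAbove i')| * (1 + ∑ l, |y l|) :=
    le_mul_of_one_le_right (abs_nonneg _) (by linarith)
  rw [add_mul]
  linarith

private theorem n6d_G_int {m : ℕ} (B : Fin (m + 2) → Fin (m + 2) → ℝ) (lam : Fin (m + 2) → ℝ)
    (j : Fin (m + 2)) (i' : Fin (m + 1)) : Integrable (n6dG B lam j i') (gam (m + 1)) := by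
  obtain ⟨K, hK, hle⟩ := n6d_E_le B lam j i'
  refine ((gam_poly (m + 1) 2).const_mul (K ^ 2)).mono' (n6d_G_meas B lam j i').aestronglyMeasurable
    (Filter.Eventually.of_forall fun y => ?_)
  have hS : 0 ≤ ∑ l, |y l| := Finset.sum_nonneg fun l _ => abs_nonneg _
  rw [Real.norm_eq_abs]
  unfold n6dG
  split_ifs with h1
  · have h2 := ph_basic.2.1 (y i')
    have h3 := ph_basic.2.2.1 (y i')
    have h4 : (n6dE B lam j i' y) ^ 2 ≤ (K * (1 + ∑ l, |y l|)) ^ 2 := by
      rw [← sq_abs]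
      exact pow_le_pow_left₀ (abs_nonneg _) (hle y) 2
    have h5 : 0 ≤ (n6dE B lam j i' y) ^ 2 := sq_nonneg _
    rw [abs_of_nonneg (by positivity)]
    have h6 : ph (y i') * (n6dE B lam j i' y) ^ 2 ≤ 1 * (n6dE B lam j i' y) ^ 2 :=
      mul_le_mul_of_nonneg_right h3 h5
    have h7 : (K * (1 + ∑ l, |y l|)) ^ 2 = K ^ 2 * (1 + ∑ l, |y l|) ^ 2 := by ring
    linarith
  · rw [abs_zero]; positivity

private theorem n6d_gauss (f : ℝ → ℝ) :
    ∫ t, f t ∂(gaussianReal 0 1) = ∫ t, ph t * f t := by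
  rw [integral_gaussianReal_eq_integral_smul one_ne_zero]
  rfl

/-- [N6d] evaluation.  Write `i`, `j = i.succAbove j'`, the others `i.succAbove (j'.succAbove l)`, `l : Fin m`
(`gam_split` twice; the integrand does not depend on `x_j`): the inner integral is `box_sq` with
`β_l = B_jl - B_il`, `μ = λ_j - λ_i`, `t = x_i`, and `∫ F(x_i) d N = ∫ F(t) φ(t) dt`
(`integral_gaussianReal_eq_integral_smul`).  `∑_{l≠i,j} (B_jl - B_il) = B_ii - B_jj` by the zero row sums and symmetry;
`λ_j - λ_i = α (B_ii - B_jj)`. -/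
theorem pair_eval (m : ℕ) (B : Fin (m + 2) → Fin (m + 2) → ℝ) (hB : ∀ i l, B i l = B l i)
    (hB0 : ∀ i, ∑ l, B i l = 0) (α τ : ℝ) (i j : Fin (m + 2)) (hij : i ≠ j) :
    ∫ x, (if ∀ l, l ≠ i → l ≠ j → x l ≤ x i then
        ph (x i) * (elij B (fun a => -α * B a a + τ) i j x) ^ 2 / 2 else 0) ∂(gam (m + 2)) =
      1 / 2 * ∫ t, (ph t ^ 2 * Ph t ^ m) * ((psi t - α) ^ 2 * (B i i - B j j) ^ 2
        + ww t * ∑ l, (if l = i ∨ l = j then 0 else (B i l - B j l) ^ 2)) := by
  have hg0 : IsProbabilityMeasure (gam m) := by unfold gam; infer_instance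
  have hg1 : IsProbabilityMeasure (gam (m + 1)) := by unfold gam; infer_instance
  have hg2 : IsProbabilityMeasure (gam (m + 2)) := by unfold gam; infer_instance
  obtain ⟨i', rfl⟩ := Fin.exists_succAbove_eq hij
  set lam : Fin (m + 2) → ℝ := fun a => -α * B a a + τ with hlam
  set β : Fin m → ℝ := fun l => B j (j.succAbove (i'.succAbove l)) -
    B (j.succAbove i') (j.succAbove (i'.succAbove l)) with hβ
  set μ : ℝ := lam j - lam (j.succAbove i') with hμ
  set F : ℝ → (Fin m → ℝ) → ℝ := fun t z =>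
    if ∀ l, z l ≤ t then ph t * (∑ l, β l * (z l - t) + μ) ^ 2 / 2 else 0 with hF
  -- first splitting
  have h1 : ∫ x, (if ∀ l, l ≠ j.succAbove i' → l ≠ j → x l ≤ x (j.succAbove i') then
        ph (x (j.succAbove i')) * (elij B lam (j.succAbove i') j x) ^ 2 / 2 else 0) ∂(gam (m + 2)) =
      ∫ y, n6dG B lam j i' y ∂(gam (m + 1)) := by
    have h2 : ∫ x, (if ∀ l, l ≠ j.succAbove i' → l ≠ j → x l ≤ x (j.succAbove i') then
        ph (x (j.succAbove i')) * (elij B lam (j.succAbove i') j x) ^ 2 / 2 else 0)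
          ∂(gam (m + 2)) =
        ∫ x, (fun (_ : ℝ) (y : Fin (m + 1) → ℝ) => n6dG B lam j i' y) (x j)
          (fun l => x (j.succAbove l)) ∂(gam (m + 2)) := by
      refine integral_congr_ae (Filter.Eventually.of_forall fun x => ?_)
      simp only [n6dG, n6d_elij]
      by_cases h : ∀ l : Fin (m + 1), x (j.succAbove l) ≤ x (j.succAbove i')
      · rw [if_pos h, if_pos ((n6d_box j i' x).2 h)]
      · rw [if_neg h, if_neg (fun h' => h ((n6d_box j i' x).1 h'))]
    rw [h2, gam_split (m + 1) j (fun (_ : ℝ) (y : Fin (m + 1) → ℝ) => n6dG B lam j i' y)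
      ((n6d_G_int B lam j i').comp_snd (gaussianReal 0 1))]
    rw [integral_const, probReal_univ, one_smul]
  -- second splitting
  have hGF : ∀ y : Fin (m + 1) → ℝ, n6dG B lam j i' y = F (y i') (fun l => y (i'.succAbove l)) := by
    intro y
    have hE : n6dE B lam j i' y = ∑ l, β l * (y (i'.succAbove l) - y i') + μ := by
      unfold n6dE
      rw [Fin.sum_univ_succAbove _ i', sub_self, mul_zero, zero_add, add_comm]
    simp only [n6dG, hF, hE]
    by_cases h : ∀ l : Fin m, y (i'.succAbove l) ≤ y i'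
    · rw [if_pos h, if_pos ((n6d_box' i' y).2 h)]
    · rw [if_neg h, if_neg (fun h' => h ((n6d_box' i' y).1 h'))]
  have hFm : Measurable (Function.uncurry F) := by
    have hph : Measurable ph := ph_basic.1.measurable
    refine Measurable.ite ?_ ?_ measurable_const
    · have : {p : ℝ × (Fin m → ℝ) | ∀ l, p.2 l ≤ p.1} = ⋂ l, {p | p.2 l ≤ p.1} := by
        ext y; simp
      rw [this]
      exact MeasurableSet.iInter fun l => measurableSet_le (by fun_prop) (by fun_prop)
    · have h3 : Measurable (fun p : ℝ × (Fin m → ℝ) => ph p.1) := hph.comp measurable_fst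
      have h4 : Measurable (fun p : ℝ × (Fin m → ℝ) => (∑ l, β l * (p.2 l - p.1) + μ) ^ 2) := by
        fun_prop
      exact (h3.mul h4).div_const 2
  have hFint : Integrable (Function.uncurry F) ((gaussianReal 0 1).prod (gam m)) := by
    refine ((gam_split_mp m i').integrable_comp hFm.aestronglyMeasurable).1 ?_
    refine (n6d_G_int B lam j i').congr (Filter.Eventually.of_forall fun y => ?_)
    exact hGF y
  have h2 : ∫ y, n6dG B lam j i' y ∂(gam (m + 1)) = ∫ t, ∫ z, F t z ∂(gam m) ∂(gaussianReal 0 1) := by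
    rw [← gam_split m i' F hFint]
    exact integral_congr_ae (Filter.Eventually.of_forall fun y => hGF y)
  -- the inner integral
  have h3 : ∀ t, ∫ z, F t z ∂(gam m) = ph t / 2 * (Ph t ^ m * ((μ - psi t * ∑ l, β l) ^ 2 +
      ww t * ∑ l, β l ^ 2)) := by
    intro t
    rw [← box_sq m β μ t, ← integral_const_mul]
    refine integral_congr_ae (Filter.Eventually.of_forall fun z => ?_)
    simp only [hF]
    by_cases h : ∀ l, z l ≤ t
    · rw [if_pos h, if_pos h]; ring
    · rw [if_neg h, if_neg h]; ring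
  -- algebra
  have hs : ∀ f : Fin (m + 2) → ℝ, ∑ l, f l =
      f j + (f (j.succAbove i') + ∑ l : Fin m, f (j.succAbove (i'.succAbove l))) := by
    intro f
    rw [Fin.sum_univ_succAbove f j, Fin.sum_univ_succAbove (fun l => f (j.succAbove l)) i']
  have hβs : ∑ l, β l = B (j.succAbove i') (j.succAbove i') - B j j := by
    have e1 := hB0 j
    have e2 := hB0 (j.succAbove i')
    rw [hs] at e1 e2
    have e3 := hB j (j.succAbove i')
    rw [hβ, Finset.sum_sub_distrib]
    linarith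
  have hβ2 : ∑ l, β l ^ 2 = ∑ l, (if l = j.succAbove i' ∨ l = j then 0 else
      (B (j.succAbove i') l - B j l) ^ 2) := by
    rw [hs, if_pos (Or.inr rfl), if_pos (Or.inl rfl), zero_add, zero_add]
    refine Finset.sum_congr rfl fun l _ => ?_
    rw [if_neg, hβ]
    · ring
    · rintro (h | h)
      · exact Fin.succAbove_ne i' l (Fin.succAbove_right_injective h)
      · exact Fin.succAbove_ne j _ h
  have hμ' : μ = α * (B (j.succAbove i') (j.succAbove i') - B j j) := by
    rw [hμ, hlam]; ring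
  rw [h1, h2, n6d_gauss, ← integral_const_mul]
  refine integral_congr_ae (Filter.Eventually.of_forall fun t => ?_)
  simp only [h3]
  rw [hβs, hβ2, hμ']
  ring

end Pool.Agent.SSQ
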