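import Pool.Agent.SSQ.N6d

set_option autoImplicit false
open MeasureTheory ProbabilityTheory Set Real

namespace Pool.Agent.SSQ
open Pool.Agent.SSC3N (gam GG TT)

/-- [N7a] algebra, `q` indices.  `∑_{i,j} (B_ii - B_jj)² ≤ 2q ∑ B_ii²` (it equals `2q ∑ B_ii² - 2 (tr B)²`);
`∑_{i,j} ∑_l (B_il - B_jl)² = 2q |B|²` (column sums vanish); the terms `l = i` and `l = j` contribute
`2 ∑_{i,j} (B_ii - B_ij)² = 2 (q ∑ B_ii² - 2·0 + |B|²)` (symmetry: `(B_ij - B_jj)` for `l = j`; `∑_j B_ij = 0`), so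
`∑_{i,j} ∑_{l≠i,j} (B_il - B_jl)² = 2(q-1)|B|² - 2q ∑ B_ii²` (for `i = j` everything vanishes). -/
theorem alg_pairs (q : ℕ) (B : Fin q → Fin q → ℝ) (hB : ∀ i l, B i l = B l i)
    (hB0 : ∀ i, ∑ l, B i l = 0) :
    ∑ i, ∑ j, ((B i i - B j j) ^ 2 + ∑ l, (if l = i ∨ l = j then 0 else (B i l - B j l) ^ 2)) ≤
      2 * ((q : ℝ) - 1) * ∑ i, ∑ l, B i l ^ 2 := by
  have hcol : ∀ l, ∑ j, B j l = 0 := by
    intro l
    rw [← hB0 l]
    exact Finset.sum_congr rfl fun j _ => hB j l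
  have hpt : ∀ i j, (∑ l, (if l = i ∨ l = j then 0 else (B i l - B j l) ^ 2)) =
      ∑ l, (B i l - B j l) ^ 2 - (B i i - B j i) ^ 2 - (B i j - B j j) ^ 2 := by
    intro i j
    by_cases hij : i = j
    · subst hij
      simp
    · have h1 : ∀ l, (if l = i ∨ l = j then 0 else (B i l - B j l) ^ 2) =
          (B i l - B j l) ^ 2 - (if l = i then (B i i - B j i) ^ 2 else 0)
            - (if l = j then (B i j - B j j) ^ 2 else 0) := by
        intro l
        by_cases h2 : l = i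
        · subst h2
          rw [if_pos (Or.inl rfl), if_pos rfl, if_neg hij]
          ring
        · by_cases h3 : l = j
          · subst h3
            rw [if_pos (Or.inr rfl), if_neg h2, if_pos rfl]
            ring
          · rw [if_neg (not_or.2 ⟨h2, h3⟩), if_neg h2, if_neg h3]
            ring
      rw [Finset.sum_congr rfl fun l _ => h1 l, Finset.sum_sub_distrib, Finset.sum_sub_distrib,
        Finset.sum_ite_eq', Finset.sum_ite_eq', if_pos (Finset.mem_univ _),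
        if_pos (Finset.mem_univ _)]
  set S := ∑ i, B i i ^ 2 with hS
  set N := ∑ i, ∑ l, B i l ^ 2 with hN
  have e1 : ∑ i, ∑ j, (B i i - B j j) ^ 2 = 2 * q * S - 2 * (∑ i, B i i) ^ 2 := by
    have h1 : ∀ i, ∑ j, (B i i - B j j) ^ 2 = q * B i i ^ 2 - 2 * B i i * (∑ j, B j j) + S := by
      intro i
      have h2 : ∀ j, (B i i - B j j) ^ 2 = B i i ^ 2 - 2 * B i i * B j j + B j j ^ 2 := by
        intro j; ring
      rw [Finset.sum_congr rfl fun j _ => h2 j, Finset.sum_add_distrib, Finset.sum_sub_distrib,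
        ← Finset.mul_sum, Finset.sum_const, Finset.card_univ, Fintype.card_fin, nsmul_eq_mul]
    rw [Finset.sum_congr rfl fun i _ => h1 i, Finset.sum_add_distrib, Finset.sum_sub_distrib,
      ← Finset.mul_sum, ← Finset.sum_mul, ← Finset.mul_sum, Finset.sum_const, Finset.card_univ,
      Fintype.card_fin, nsmul_eq_mul]
    ring
  have e2 : ∑ i, ∑ j, ∑ l, (B i l - B j l) ^ 2 = 2 * q * N := by
    have h1 : ∀ i, ∑ j, ∑ l, (B i l - B j l) ^ 2 = q * (∑ l, B i l ^ 2) + N := by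
      intro i
      have h2 : ∀ j, ∑ l, (B i l - B j l) ^ 2 =
          ∑ l, B i l ^ 2 - 2 * (∑ l, B i l * B j l) + ∑ l, B j l ^ 2 := by
        intro j
        rw [Finset.mul_sum, ← Finset.sum_sub_distrib, ← Finset.sum_add_distrib]
        exact Finset.sum_congr rfl fun l _ => by ring
      have h3 : ∑ j, ∑ l, B i l * B j l = 0 := by
        rw [Finset.sum_comm]
        refine Finset.sum_eq_zero fun l _ => ?_
        rw [← Finset.mul_sum, hcol l, mul_zero]
      rw [Finset.sum_congr rfl fun j _ => h2 j, Finset.sum_add_distrib, Finset.sum_sub_distrib,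
        ← Finset.mul_sum, h3, Finset.sum_const, Finset.card_univ, Fintype.card_fin, nsmul_eq_mul]
      ring
    rw [Finset.sum_congr rfl fun i _ => h1 i, Finset.sum_add_distrib, ← Finset.mul_sum,
      Finset.sum_const, Finset.card_univ, Fintype.card_fin, nsmul_eq_mul]
    ring
  have e3 : ∑ i, ∑ j, (B i i - B j i) ^ 2 = q * S + N := by
    have h1 : ∀ i, ∑ j, (B i i - B j i) ^ 2 = q * B i i ^ 2 + ∑ j, B i j ^ 2 := by
      intro i
      have h2 : ∀ j, (B i i - B j i) ^ 2 = B i i ^ 2 - 2 * B i i * B j i + B i j ^ 2 := by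
        intro j; rw [hB i j]; ring
      rw [Finset.sum_congr rfl fun j _ => h2 j, Finset.sum_add_distrib, Finset.sum_sub_distrib,
        ← Finset.mul_sum, hcol i, Finset.sum_const, Finset.card_univ, Fintype.card_fin,
        nsmul_eq_mul]
      ring
    rw [Finset.sum_congr rfl fun i _ => h1 i, Finset.sum_add_distrib, ← Finset.mul_sum]
  have e4 : ∑ i, ∑ j, (B i j - B j j) ^ 2 = q * S + N := by
    rw [Finset.sum_comm, ← e3]
    refine Finset.sum_congr rfl fun i _ => Finset.sum_congr rfl fun j _ => ?_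
    ring
  have e5 : ∑ i, ∑ j, ((B i i - B j j) ^ 2 +
      ∑ l, (if l = i ∨ l = j then 0 else (B i l - B j l) ^ 2)) =
      ∑ i, ∑ j, (B i i - B j j) ^ 2 + ∑ i, ∑ j, ∑ l, (B i l - B j l) ^ 2
        - ∑ i, ∑ j, (B i i - B j i) ^ 2 - ∑ i, ∑ j, (B i j - B j j) ^ 2 := by
    rw [← Finset.sum_add_distrib, ← Finset.sum_sub_distrib, ← Finset.sum_sub_distrib]
    refine Finset.sum_congr rfl fun i _ => ?_
    rw [← Finset.sum_add_distrib, ← Finset.sum_sub_distrib, ← Finset.sum_sub_distrib]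
    refine Finset.sum_congr rfl fun j _ => ?_
    rw [hpt i j]
    ring
  rw [e5, e1, e2, e3, e4]
  have h9 := sq_nonneg (∑ i, B i i)
  nlinarith

/-- [N7b] bound for the leading part: with `α` from `var_psi m`, `λ_a = -α B_aa + τ`:
`Qij + Qji ≤ (h_m/2) ((B_ii - B_jj)² + ∑_{l≠i,j} (B_il - B_jl)²)` (`pair_swap`, `pair_eval`, `0 ≤ w ≤ 1`,
`∫ (ψ-α)² φ²Φ^m ≤ h_m`). -/
theorem pair_bound (m : ℕ) : ∃ α : ℝ, ∀ (B : Fin (m + 2) → Fin (m + 2) → ℝ),
    (∀ i l, B i l = B l i) → (∀ i, ∑ l, B i l = 0) → ∀ (τ : ℝ) (i j : Fin (m + 2)), i ≠ j →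
    Qij B (fun a => -α * B a a + τ) i j + Qij B (fun a => -α * B a a + τ) j i ≤
      hh m / 2 * ((B i i - B j j) ^ 2 + ∑ l, (if l = i ∨ l = j then 0 else (B i l - B j l) ^ 2)) := by
  obtain ⟨α, hα1, hα2⟩ := var_psi m
  refine ⟨α, fun B hB hB0 τ i j hij => ?_⟩
  rw [pair_swap m B _ i j hij, pair_eval m B hB hB0 α τ i j hij]
  set D := (B i i - B j j) ^ 2 with hD
  set E := ∑ l, (if l = i ∨ l = j then 0 else (B i l - B j l) ^ 2) with hE
  have hD0 : 0 ≤ D := sq_nonneg _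
  have hE0 : 0 ≤ E := by
    refine Finset.sum_nonneg fun l _ => ?_
    split_ifs
    · exact le_rfl
    · exact sq_nonneg _
  obtain ⟨hh0, hP, -⟩ := hh_pos m
  have hP0 : ∀ t, 0 ≤ ph t ^ 2 * Ph t ^ m := fun t =>
    mul_nonneg (sq_nonneg _) (pow_nonneg (Ph_basic.2.1 t).le m)
  have hg : Integrable (fun t => D * ((psi t - α) ^ 2 * (ph t ^ 2 * Ph t ^ m)) +
      E * (ph t ^ 2 * Ph t ^ m)) := (hα1.const_mul D).add (hP.const_mul E)
  have h1 : ∫ t, (ph t ^ 2 * Ph t ^ m) * ((psi t - α) ^ 2 * D + ww t * E) ≤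
      ∫ t, (D * ((psi t - α) ^ 2 * (ph t ^ 2 * Ph t ^ m)) + E * (ph t ^ 2 * Ph t ^ m)) := by
    refine integral_mono_of_nonneg (Filter.Eventually.of_forall fun t => ?_) hg
      (Filter.Eventually.of_forall fun t => ?_)
    · exact mul_nonneg (hP0 t) (add_nonneg (mul_nonneg (sq_nonneg _) hD0)
        (mul_nonneg (psi_w t).2.1 hE0))
    · have h2 : ww t * E ≤ 1 * E := mul_le_mul_of_nonneg_right (psi_w t).2.2.1 hE0
      have h3 := mul_le_mul_of_nonneg_left h2 (hP0 t)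
      show (ph t ^ 2 * Ph t ^ m) * ((psi t - α) ^ 2 * D + ww t * E) ≤
        D * ((psi t - α) ^ 2 * (ph t ^ 2 * Ph t ^ m)) + E * (ph t ^ 2 * Ph t ^ m)
      nlinarith
  have h4 : ∫ t, (D * ((psi t - α) ^ 2 * (ph t ^ 2 * Ph t ^ m)) + E * (ph t ^ 2 * Ph t ^ m)) =
      D * (∫ t, (psi t - α) ^ 2 * (ph t ^ 2 * Ph t ^ m)) + E * hh m := by
    rw [integral_add (hα1.const_mul D) (hP.const_mul E), integral_const_mul, integral_const_mul]
    rfl
  have h5 : D * (∫ t, (psi t - α) ^ 2 * (ph t ^ 2 * Ph t ^ m)) ≤ D * hh m :=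
    mul_le_mul_of_nonneg_left hα2 hD0
  linarith

/-- [N7c] pointwise inequality on `cl i`:
`mx (x + ξ) ≤ x_i + ξ_i + ∑_{j≠i} ((ξ_j - ξ_i) - (x_i - x_j))_+`. -/
theorem mx_pert (k : ℕ) (x ξ : Fin (k + 1) → ℝ) (i : Fin (k + 1)) :
    mx (x + ξ) ≤ x i + ξ i + ∑ j, (if j = i then 0 else max (ξ j - ξ i - (x i - x j)) 0) := by
  unfold mx
  refine Finset.sup'_le _ _ fun a _ => ?_
  have h0 : ∀ j ∈ Finset.univ, (0 : ℝ) ≤ (if j = i then 0 else max (ξ j - ξ i - (x i - x j)) 0) := by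
    intro j _
    split_ifs
    · exact le_rfl
    · exact le_max_right _ _
  have h1 := Finset.single_le_sum h0 (Finset.mem_univ a)
  rw [Pi.add_apply]
  by_cases ha : a = i
  · subst ha
    rw [if_pos rfl] at h1
    linarith
  · rw [if_neg ha] at h1
    have h2 := le_max_left (ξ a - ξ i - (x i - x a)) 0
    linarith

end Pool.Agent.SSQ
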