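import Pool.Agent.SSQ.N7
import Pool.Agent.SSQ.N6b

set_option autoImplicit false
open MeasureTheory ProbabilityTheory Set Real

namespace Pool.Agent.SSQ
open Pool.Agent.SSC3N (gam GG TT)

/-- [N7d] NEAR LEMMA.  `α` from `pair_bound`, `τ = α tr B/(m+2)`, `λ_a = -α B_aa + τ` (so `∑ λ = 0`,
`|λ_a| ≤ 2|α| b`).  `∫ mx (x + Bx + λ) = ∑_i ∫_{cl i} ≤ ∑_i ∫_{cl i} (x_i + (Bx)_i + λ_i) + ∑_{i≠j} Pij` (`int_cells`,
`mx_pert`).  First sum: `eqv (m+1) + ∑_i (B_ii (m+1) h - h ∑_{j≠i} B_ij) + ∑ λ_i/(m+2) = eqv + (m+2) h tr B`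
(`cl_moment`, `cl_mass`, zero row sums).  Second: `∑_{i≠j} Pij = ½ ∑_{i≠j} (Pij + Pji) ≤ ½ ∑_{i≠j} (Qij + Qji) + C b³`
`≤ (h/4) ∑_{i,j} (...) + C b³ ≤ (h/2)(m+1)|B|² + C b³` (`pair_one`, `pair_bound`, `alg_pairs`). -/
theorem near (m : ℕ) : ∃ C : ℝ, 0 ≤ C ∧ ∀ (B : Fin (m + 2) → Fin (m + 2) → ℝ) (b : ℝ), 0 ≤ b →
    b ≤ 1 / 8 → (∀ i l, |B i l| ≤ b) → (∀ i l, B i l = B l i) → (∀ i, ∑ l, B i l = 0) →
    ∃ lam : Fin (m + 2) → ℝ, ∑ i, lam i = 0 ∧ (∀ i, |lam i| ≤ C * b) ∧
      ∫ x, mx (fun i => x i + ∑ l, B i l * x l + lam i) ∂(gam (m + 2)) ≤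
        eqv (m + 1) + (m + 2) * hh m * ∑ i, B i i + (m + 1) / 2 * hh m * ∑ i, ∑ l, B i l ^ 2
          + C * b ^ 3 := by
  obtain ⟨α, hα⟩ := pair_bound m
  obtain ⟨C1, hC1, hP⟩ := pair_one m (2 * |α|) (by positivity)
  refine ⟨2 * |α| + (m + 2) ^ 2 * C1, by positivity, fun B b hb0 hb1 hBb hB hB0 => ?_⟩
  obtain ⟨hh0, -⟩ := hh_pos m
  set τ : ℝ := α * (∑ i, B i i) / (m + 2) with hτ
  set lam : Fin (m + 2) → ℝ := fun a => -α * B a a + τ with hlam
  have hm2 : (0 : ℝ) < (m : ℝ) + 2 := by positivity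
  have hsum : ∑ i, lam i = 0 := by
    simp only [hlam]
    rw [Finset.sum_add_distrib, ← Finset.mul_sum, Finset.sum_const, Finset.card_univ,
      Fintype.card_fin, nsmul_eq_mul, hτ]
    push_cast
    field_simp
    ring
  have hτb : |τ| ≤ |α| * b := by
    rw [hτ, abs_div, abs_mul, abs_of_pos hm2, div_le_iff₀ hm2]
    have h1 : |∑ i, B i i| ≤ (m + 2) * b := by
      refine (Finset.abs_sum_le_sum_abs _ _).trans ?_
      refine (Finset.sum_le_sum fun i _ => hBb i i).trans ?_
      rw [Finset.sum_const, Finset.card_univ, Fintype.card_fin, nsmul_eq_mul]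
      push_cast
      exact le_rfl
    have h2 := mul_le_mul_of_nonneg_left h1 (abs_nonneg α)
    linarith
  have hlamb : ∀ i, |lam i| ≤ 2 * |α| * b := by
    intro i
    have h1 : |lam i| ≤ |-α * B i i| + |τ| := abs_add_le _ _
    have h2 : |-α * B i i| ≤ |α| * b := by
      rw [abs_mul, abs_neg]
      exact mul_le_mul_of_nonneg_left (hBb i i) (abs_nonneg α)
    linarith
  have hb3 : 0 ≤ b ^ 3 := pow_nonneg hb0 3
  refine ⟨lam, hsum, ?_, ?_⟩
  · intro i
    refine (hlamb i).trans ?_
    have h1 : 0 ≤ (m + 2 : ℝ) ^ 2 * C1 * b := by positivity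
    linarith
  -- integrability of the coordinates
  have hx : ∀ i, Integrable (fun x : Fin (m + 2) → ℝ => x i) (gam (m + 2)) := by
    intro i
    refine (gam_poly (m + 2) 1).mono' (measurable_pi_apply i).aestronglyMeasurable
      (Filter.Eventually.of_forall fun x => ?_)
    rw [Real.norm_eq_abs, pow_one]
    have h1 := Finset.single_le_sum (f := fun l => |x l|) (fun l _ => abs_nonneg (x l))
      (Finset.mem_univ i)
    linarith
  have hprob : IsProbabilityMeasure (gam (m + 2)) := by
    unfold gam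
    infer_instance
  set ξ : (Fin (m + 2) → ℝ) → Fin (m + 2) → ℝ := fun x a => ∑ l, B a l * x l + lam a with hξ
  have hξi : ∀ a, Integrable (fun x => ξ x a) (gam (m + 2)) := by
    intro a
    refine Integrable.add ?_ (integrable_const _)
    exact integrable_finsetSum _ fun l _ => (hx l).const_mul _
  have hξc : ∀ a, Continuous (fun x => ξ x a) := by
    intro a
    refine Continuous.add ?_ continuous_const
    exact continuous_finsetSum _ fun l _ => (continuous_apply l).const_mul _
  set F : (Fin (m + 2) → ℝ) → ℝ := fun x => mx (x + ξ x) with hF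
  have hFc : Continuous F := by
    refine (cl_basic (m + 1)).2.2.2.2.1.comp ?_
    exact continuous_id.add (continuous_pi hξc)
  have hFi : Integrable F (gam (m + 2)) := by
    have h1 : Integrable (fun x => ∑ a, |x a + ξ x a|) (gam (m + 2)) :=
      integrable_finsetSum _ fun a _ => ((hx a).add (hξi a)).abs
    refine h1.mono' hFc.aestronglyMeasurable (Filter.Eventually.of_forall fun x => ?_)
    rw [Real.norm_eq_abs]
    exact (cl_basic (m + 1)).2.2.2.2.2 (x + ξ x)
  have hFe : ∫ x, mx (fun i => x i + ∑ l, B i l * x l + lam i) ∂(gam (m + 2)) =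
      ∫ x, F x ∂(gam (m + 2)) := by
    refine integral_congr_ae (Filter.Eventually.of_forall fun x => ?_)
    show mx (fun i => x i + ∑ l, B i l * x l + lam i) = mx (x + ξ x)
    congr 1
    funext i
    rw [Pi.add_apply, hξ, add_assoc]
  rw [hFe, int_cells (m + 1) F hFi]
  -- the cell integrals
  have hmaxi : ∀ i j, Integrable (fun x => max (ξ x j - ξ x i - (x i - x j)) 0) (gam (m + 2)) := by
    intro i j
    have h1 : Integrable (fun x => ξ x j - ξ x i - (x i - x j)) (gam (m + 2)) :=
      ((hξi j).sub (hξi i)).sub ((hx i).sub (hx j))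
    exact h1.pos_part
  have hcell : ∀ i, ∫ x in cl i, F x ∂(gam (m + 2)) ≤
      (m + 1) * hh m + ((m + 2) * hh m * B i i + lam i / (m + 2)) +
        ∑ j, (if j = i then 0 else Pij B lam i j) := by
    intro i
    have hGi : Integrable (fun x => x i + ξ x i +
        ∑ j, (if j = i then 0 else max (ξ x j - ξ x i - (x i - x j)) 0)) (gam (m + 2)) := by
      refine ((hx i).add (hξi i)).add (integrable_finsetSum _ fun j _ => ?_)
      by_cases hj : j = i
      · simp only [if_pos hj]
        exact integrable_zero _ _ _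
      · simp only [if_neg hj]
        exact hmaxi i j
    have h1 : ∫ x in cl i, F x ∂(gam (m + 2)) ≤ ∫ x in cl i, (x i + ξ x i +
        ∑ j, (if j = i then 0 else max (ξ x j - ξ x i - (x i - x j)) 0)) ∂(gam (m + 2)) :=
      setIntegral_mono hFi.integrableOn hGi.integrableOn fun x => mx_pert (m + 1) x (ξ x) i
    refine h1.trans (le_of_eq ?_)
    have hsi : ∀ j ∈ Finset.univ, Integrable (fun x : Fin (m + 2) → ℝ =>
        (if j = i then 0 else max (ξ x j - ξ x i - (x i - x j)) 0))
        ((gam (m + 2)).restrict (cl i)) := by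
      intro j _
      by_cases hj : j = i
      · simp only [if_pos hj]
        exact integrable_zero _ _ _
      · simp only [if_neg hj]
        exact (hmaxi i j).integrableOn
    have hxx : Integrable (fun x => x i + ξ x i) ((gam (m + 2)).restrict (cl i)) :=
      ((hx i).add (hξi i)).integrableOn
    have hx' : Integrable (fun x : Fin (m + 2) → ℝ => x i) ((gam (m + 2)).restrict (cl i)) :=
      (hx i).integrableOn
    have hξ' : Integrable (fun x => ξ x i) ((gam (m + 2)).restrict (cl i)) :=
      (hξi i).integrableOn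
    rw [integral_add hxx (integrable_finsetSum _ hsi), integral_add hx' hξ',
      integral_finsetSum _ hsi]
    obtain ⟨hm1, hm3⟩ := cl_moment m i
    have h2 : ∫ x in cl i, ξ x i ∂(gam (m + 2)) = (m + 2) * hh m * B i i + lam i / (m + 2) := by
      have h3 : ∫ x in cl i, ξ x i ∂(gam (m + 2)) =
          ∑ l, B i l * (∫ x in cl i, x l ∂(gam (m + 2))) + lam i * (1 / ((m : ℝ) + 2)) := by
        show ∫ x in cl i, (∑ l, B i l * x l + lam i) ∂(gam (m + 2)) = _
        rw [integral_add (integrable_finsetSum _ fun l _ => ((hx l).const_mul _).integrableOn)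
          (integrable_const _), integral_finsetSum _ fun l _ => ((hx l).const_mul _).integrableOn]
        congr 1
        · exact Finset.sum_congr rfl fun l _ => integral_const_mul _ _
        · rw [integral_const, smul_eq_mul, mul_comm]
          congr 1
          rw [measureReal_restrict_apply_univ, cl_mass (m + 1) i]
          push_cast
          ring
      rw [h3]
      have h4 : ∑ l, B i l * (∫ x in cl i, x l ∂(gam (m + 2))) =
          ∑ l, (B i l * (-hh m) + (if l = i then (m + 2) * hh m * B i i else 0)) := by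
        refine Finset.sum_congr rfl fun l _ => ?_
        by_cases hl : l = i
        · rw [if_pos hl, hl, hm1]
          ring
        · rw [if_neg hl, hm3 l hl]
          ring
      rw [h4, Finset.sum_add_distrib, ← Finset.sum_mul, hB0 i, Finset.sum_ite_eq',
        if_pos (Finset.mem_univ _)]
      ring
    rw [hm1, h2]
    congr 1
    refine Finset.sum_congr rfl fun j _ => ?_
    by_cases hj : j = i
    · simp only [if_pos hj, integral_zero]
    · simp only [if_neg hj]
      rfl
  have hsumcell := Finset.sum_le_sum fun i (_ : i ∈ (Finset.univ : Finset (Fin (m + 2)))) =>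
    hcell i
  refine hsumcell.trans ?_
  rw [Finset.sum_add_distrib, Finset.sum_add_distrib, Finset.sum_add_distrib, ← Finset.sum_div,
    hsum, ← Finset.mul_sum, Finset.sum_const, Finset.card_univ, Fintype.card_fin, nsmul_eq_mul,
    eqv_eq]
  -- pair costs
  have hpairs : ∑ i, ∑ j, (if j = i then 0 else Pij B lam i j) ≤
      (m + 1) / 2 * hh m * ∑ i, ∑ l, B i l ^ 2 + (m + 2) ^ 2 * C1 * b ^ 3 := by
    have h1 : ∑ i, ∑ j, (if j = i then 0 else Pij B lam i j) ≤
        ∑ i, ∑ j, ((if j = i then 0 else Qij B lam i j) + C1 * b ^ 3) := by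
      refine Finset.sum_le_sum fun i _ => Finset.sum_le_sum fun j _ => ?_
      by_cases hj : j = i
      · rw [if_pos hj, if_pos hj, zero_add]
        exact mul_nonneg hC1 hb3
      · rw [if_neg hj, if_neg hj]
        exact hP B lam b hb0 hb1 hBb hB0 hlamb i j (Ne.symm hj)
    have h2 : ∑ i, ∑ j, ((if j = i then 0 else Qij B lam i j) + C1 * b ^ 3) =
        ∑ i, ∑ j, (if j = i then 0 else Qij B lam i j) + (m + 2) ^ 2 * C1 * b ^ 3 := by
      simp only [Finset.sum_add_distrib, Finset.sum_const, Finset.card_univ, Fintype.card_fin,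
        nsmul_eq_mul]
      push_cast
      ring
    have h3 : ∑ i, ∑ j, (if j = i then 0 else Qij B lam i j) =
        1 / 2 * ∑ i, ∑ j, (if j = i then 0 else Qij B lam i j + Qij B lam j i) := by
      have h4 : ∑ i, ∑ j, (if j = i then 0 else Qij B lam i j + Qij B lam j i) =
          ∑ i, ∑ j, (if j = i then 0 else Qij B lam i j) +
            ∑ i, ∑ j, (if j = i then 0 else Qij B lam j i) := by
        rw [← Finset.sum_add_distrib]
        refine Finset.sum_congr rfl fun i _ => ?_
        rw [← Finset.sum_add_distrib]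
        refine Finset.sum_congr rfl fun j _ => ?_
        by_cases hj : j = i
        · rw [if_pos hj, if_pos hj, if_pos hj, add_zero]
        · rw [if_neg hj, if_neg hj, if_neg hj]
      have h5 : ∑ i, ∑ j, (if j = i then 0 else Qij B lam j i) =
          ∑ i, ∑ j, (if j = i then 0 else Qij B lam i j) := by
        rw [Finset.sum_comm]
        refine Finset.sum_congr rfl fun i _ => Finset.sum_congr rfl fun j _ => ?_
        by_cases hj : j = i
        · rw [if_pos hj, if_pos hj.symm]
        · rw [if_neg hj, if_neg (Ne.symm hj)]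
      rw [h4, h5]
      ring
    have h6 : ∑ i, ∑ j, (if j = i then 0 else Qij B lam i j + Qij B lam j i) ≤
        ∑ i, ∑ j, hh m / 2 * ((B i i - B j j) ^ 2 +
          ∑ l, (if l = i ∨ l = j then 0 else (B i l - B j l) ^ 2)) := by
      refine Finset.sum_le_sum fun i _ => Finset.sum_le_sum fun j _ => ?_
      by_cases hj : j = i
      · rw [if_pos hj]
        refine mul_nonneg (by positivity) (add_nonneg (sq_nonneg _)
          (Finset.sum_nonneg fun l _ => ?_))
        split_ifs
        · exact le_rfl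
        · exact sq_nonneg _
      · rw [if_neg hj]
        exact hα B hB hB0 τ i j (Ne.symm hj)
    have h7 : ∑ i, ∑ j, hh m / 2 * ((B i i - B j j) ^ 2 +
        ∑ l, (if l = i ∨ l = j then 0 else (B i l - B j l) ^ 2)) =
        hh m / 2 * ∑ i, ∑ j, ((B i i - B j j) ^ 2 +
          ∑ l, (if l = i ∨ l = j then 0 else (B i l - B j l) ^ 2)) := by
      rw [Finset.mul_sum]
      exact Finset.sum_congr rfl fun i _ => (Finset.mul_sum _ _ _).symm
    have h8 := alg_pairs (m + 2) B hB hB0
    push_cast at h8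
    have h9 := mul_le_mul_of_nonneg_left h8 (show 0 ≤ hh m / 2 by positivity)
    rw [h2] at h1
    rw [h3] at h1
    rw [h7] at h6
    refine h1.trans ?_
    have h10 : hh m / 2 * (2 * ((m : ℝ) + 2 - 1) * ∑ i, ∑ l, B i l ^ 2) =
        2 * ((m + 1) / 2 * hh m * ∑ i, ∑ l, B i l ^ 2) := by ring
    rw [h10] at h9
    linarith
  have hfin : 0 ≤ 2 * |α| * b ^ 3 := by positivity
  have hcast : ((m + 2 : ℕ) : ℝ) = (m : ℝ) + 2 := by push_cast; ring
  rw [hcast]
  have hsplit : (2 * |α| + (m + 2) ^ 2 * C1) * b ^ 3 =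
      2 * |α| * b ^ 3 + (m + 2) ^ 2 * C1 * b ^ 3 := by ring
  rw [hsplit]
  have hz : (0 : ℝ) / (m + 2) = 0 := zero_div _
  have hmul : ∑ x, ((m : ℝ) + 2) * hh m * B x x = ((m : ℝ) + 2) * hh m * ∑ x, B x x :=
    (Finset.mul_sum _ _ _).symm
  rw [hz, hmul]
  linarith

end Pool.Agent.SSQ
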