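import Pool.Agent.SSQ.Defs

set_option autoImplicit false
open MeasureTheory ProbabilityTheory Set Real

namespace Pool.Agent.SSQ
open Pool.Agent.SSC3N (gam GG TT)

/-- the centring projection `Π = 1 - 11ᵀ/q`. -/
noncomputable def Pc (q : ℕ) (i j : Fin q) : ℝ := (if i = j then 1 else 0) - 1 / (q : ℝ)

/-- Gram matrix of the columns. -/
noncomputable def Gr {n q : ℕ} (C : Fin n → Fin q → ℝ) (i j : Fin q) : ℝ := ∑ a, C a i * C a j

/-- `|G - Π|²`. -/
noncomputable def Dq {q : ℕ} (G : Fin q → Fin q → ℝ) : ℝ := ∑ i, ∑ j, (G i j - Pc q i j) ^ 2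

/-- the centring projection as a matrix -/
private noncomputable def n9_P (q : ℕ) : Matrix (Fin q) (Fin q) ℝ := Matrix.of (Pc q)

private theorem n9_P_apply (q : ℕ) (i j : Fin q) : n9_P q i j = Pc q i j := rfl

private theorem n9_row (q : ℕ) (hq : 0 < q) (i : Fin q) : ∑ j, Pc q i j = 0 := by
  have hq' : (q : ℝ) ≠ 0 := by exact_mod_cast hq.ne'
  simp only [Pc, Finset.sum_sub_distrib, Finset.sum_ite_eq, Finset.mem_univ, if_true,
    Finset.sum_const, Finset.card_univ, Fintype.card_fin, nsmul_eq_mul]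
  field_simp
  ring

private theorem n9_symm (q : ℕ) : (n9_P q).transpose = n9_P q := by
  ext i j
  simp only [Matrix.transpose_apply, n9_P_apply, Pc]
  by_cases h : i = j
  · subst h; rfl
  · rw [if_neg h, if_neg (Ne.symm h)]

/-- a matrix with zero row sums is fixed by the centring projection on the right -/
private theorem n9_mulP (q : ℕ) (M : Matrix (Fin q) (Fin q) ℝ) (hM : ∀ i, ∑ j, M i j = 0) :
    M * n9_P q = M := by
  ext i j
  rw [Matrix.mul_apply]
  simp only [n9_P_apply, Pc, mul_sub, Finset.sum_sub_distrib, mul_ite, mul_one, mul_zero,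
    Finset.sum_ite_eq', Finset.mem_univ, if_true, ← Finset.sum_mul, hM i, zero_mul, sub_zero]

private theorem n9_Pmul (q : ℕ) (M : Matrix (Fin q) (Fin q) ℝ) (hM : ∀ i, ∑ j, M i j = 0)
    (hs : M.transpose = M) : n9_P q * M = M := by
  have h := congrArg Matrix.transpose (n9_mulP q M hM)
  rw [Matrix.transpose_mul, n9_symm, hs] at h
  exact h

private theorem n9_PP (q : ℕ) (hq : 0 < q) : n9_P q * n9_P q = n9_P q :=
  n9_mulP q _ fun i => n9_row q hq i

private theorem n9_trP (q : ℕ) (hq : 0 < q) : (n9_P q).trace = (q : ℝ) - 1 := by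
  have hq' : (q : ℝ) ≠ 0 := by exact_mod_cast hq.ne'
  simp only [Matrix.trace, Matrix.diag_apply, n9_P_apply, Pc, if_true, Finset.sum_const,
    Finset.card_univ, Fintype.card_fin, nsmul_eq_mul]
  field_simp

private theorem n9_tr (q : ℕ) (M : Matrix (Fin q) (Fin q) ℝ) (hs : M.transpose = M) :
    ∑ i, ∑ j, M i j ^ 2 = (M * M).trace := by
  simp only [Matrix.trace, Matrix.diag_apply, Matrix.mul_apply]
  refine Finset.sum_congr rfl fun i _ => Finset.sum_congr rfl fun j _ => ?_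
  have h := congrFun (congrFun hs i) j
  rw [Matrix.transpose_apply] at h
  rw [h, sq]

open scoped MatrixOrder in
private theorem n9_sqrt (q : ℕ) (A : Matrix (Fin q) (Fin q) ℝ) (hA : A.PosSemidef) :
    ∃ S : Matrix (Fin q) (Fin q) ℝ, S.PosSemidef ∧ S * S = A :=
  ⟨CFC.sqrt A, Matrix.nonneg_iff_posSemidef.1 (CFC.sqrt_nonneg A),
    CFC.sqrt_mul_sqrt_self A hA.nonneg⟩

/-- [N9a] SQUARE ROOT near `Π`.  `G` symmetric positive semidefinite with zero row sums.
PROOF.  Let `S` be the positive semidefinite square root of the matrix `G` (`Matrix.PosSemidef` / spectral theorem /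
`CFC.sqrt`; `S` symmetric, `S² = G`).  `|S1|² = 1ᵀG1 = 0`, so `S1 = 0`, `SΠ = ΠS = S`.  `B = S - Π` is symmetric with zero
row sums, `(Π+B)² = G`.  `G - Π = S² - Π² = (S-Π)(S+Π) = B (S+Π)` (`S`, `Π` commute), and
`|G-Π|² = tr(B (S+Π)² B) = tr(B S² B) + 2 tr(B S B) + tr(BΠB) ≥ tr(BΠB) = tr(B²) = |B|²`
(`tr(B S B) ≥ 0`, `tr(B S²B) ≥ 0` for `S` positive semidefinite, `ΠB = B`). -/
theorem sqrt_near (q : ℕ) (hq : 0 < q) (G : Fin q → Fin q → ℝ) (hG : ∀ i j, G i j = G j i)
    (hp : ∀ y : Fin q → ℝ, 0 ≤ ∑ i, ∑ j, y i * y j * G i j) (h0 : ∀ i, ∑ j, G i j = 0) :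
    ∃ B : Fin q → Fin q → ℝ, (∀ i j, B i j = B j i) ∧ (∀ i, ∑ j, B i j = 0) ∧
      (∀ i j, ∑ l, (Pc q i l + B i l) * (Pc q l j + B l j) = G i j) ∧
      ∑ i, ∑ j, B i j ^ 2 ≤ Dq G := by
  set A : Matrix (Fin q) (Fin q) ℝ := Matrix.of G with hAdef
  have hAt : A.transpose = A := by
    ext i j
    exact hG j i
  have hA : A.PosSemidef := by
    refine Matrix.PosSemidef.of_dotProduct_mulVec_nonneg ?_ fun y => ?_
    · rw [Matrix.IsHermitian, Matrix.conjTranspose_eq_transpose_of_trivial, hAt]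
    · have h := hp y
      refine h.trans_eq ?_
      simp only [dotProduct, Matrix.mulVec, star_trivial, Finset.mul_sum]
      exact Finset.sum_congr rfl fun i _ => Finset.sum_congr rfl fun j _ => by
        rw [hAdef, Matrix.of_apply]; ring
  obtain ⟨S, hS, hSS⟩ := n9_sqrt q A hA
  have hSt : S.transpose = S := by
    have h := hS.isHermitian
    rwa [Matrix.IsHermitian, Matrix.conjTranspose_eq_transpose_of_trivial] at h
  have hSs : ∀ i j, S i j = S j i := fun i j => (congrFun (congrFun hSt i) j).symm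
  have hS1 : ∀ i, ∑ j, S i j = 0 := by
    have h1 : ∑ i, (∑ j, S i j) ^ 2 = 0 := by
      have h2 : ∀ i, (∑ j, S i j) ^ 2 = ∑ j, ∑ l, S j i * S i l := by
        intro i
        rw [sq, Finset.sum_mul_sum]
        exact Finset.sum_congr rfl fun j _ => Finset.sum_congr rfl fun l _ => by rw [hSs i j]
      simp_rw [h2]
      rw [Finset.sum_comm]
      refine Finset.sum_eq_zero fun j _ => ?_
      rw [Finset.sum_comm]
      have h3 : ∀ l, ∑ i, S j i * S i l = G j l := by
        intro l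
        have := congrFun (congrFun hSS j) l
        rw [Matrix.mul_apply] at this
        exact this
      rw [Finset.sum_congr rfl fun l _ => h3 l]
      exact h0 j
    intro i
    have h2 := (Finset.sum_eq_zero_iff_of_nonneg fun i _ => sq_nonneg (∑ j, S i j)).1 h1 i
      (Finset.mem_univ i)
    exact pow_eq_zero_iff two_ne_zero |>.1 h2
  have hSP : S * n9_P q = S := n9_mulP q S hS1
  have hPS : n9_P q * S = S := n9_Pmul q S hS1 hSt
  have hPP := n9_PP q hq
  refine ⟨fun i j => S i j - Pc q i j, fun i j => ?_, fun i => ?_, fun i j => ?_, ?_⟩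
  · have := congrFun (congrFun (n9_symm q) i) j
    rw [Matrix.transpose_apply, n9_P_apply, n9_P_apply] at this
    show S i j - Pc q i j = S j i - Pc q j i
    rw [hSs i j, this]
  · rw [Finset.sum_sub_distrib, hS1 i, n9_row q hq i, sub_zero]
  · have h := congrFun (congrFun hSS i) j
    rw [Matrix.mul_apply] at h
    refine Eq.trans ?_ h
    exact Finset.sum_congr rfl fun l _ => by ring
  · have hBt : (S - n9_P q).transpose = S - n9_P q := by
      rw [Matrix.transpose_sub, hSt, n9_symm]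
    have hDt : (A - n9_P q).transpose = A - n9_P q := by
      rw [Matrix.transpose_sub, hAt, n9_symm]
    have e1 : ∑ i, ∑ j, (S i j - Pc q i j) ^ 2 = ((S - n9_P q) * (S - n9_P q)).trace :=
      n9_tr q _ hBt
    have e2 : Dq G = ((A - n9_P q) * (A - n9_P q)).trace := n9_tr q _ hDt
    rw [e1, e2, ← hSS]
    have e3 : (S - n9_P q) * (S - n9_P q) = S * S - S - S + n9_P q := by
      rw [sub_mul, mul_sub, mul_sub, hSP, hPS, hPP]; abel
    have e4 : (S * S - n9_P q) * (S * S - n9_P q) =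
        S * S * (S * S) - S * S - S * S + n9_P q := by
      have h1 : S * S * n9_P q = S * S := by rw [Matrix.mul_assoc, hSP]
      have h2 : n9_P q * (S * S) = S * S := by rw [← Matrix.mul_assoc, hPS]
      rw [sub_mul, mul_sub, mul_sub, h1, h2, hPP]; abel
    have hT : (S - 1).transpose = S - 1 := by
      rw [Matrix.transpose_sub, hSt, Matrix.transpose_one]
    have h5 : 0 ≤ ((S - 1) * S * (S - 1)).trace := by
      have h := (hS.mul_mul_conjTranspose_same (S - 1)).trace_nonneg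
      rwa [Matrix.conjTranspose_eq_transpose_of_trivial, hT] at h
    have h6 : 0 ≤ ((S - 1) * (S * S) * (S - 1)).trace := by
      rw [hSS]
      have h := (hA.mul_mul_conjTranspose_same (S - 1)).trace_nonneg
      rwa [Matrix.conjTranspose_eq_transpose_of_trivial, hT] at h
    have e5 : (S - 1) * S * (S - 1) = S * S * S - S * S - S * S + S := by noncomm_ring
    have e6 : (S - 1) * (S * S) * (S - 1) = S * S * (S * S) - S * S * S - S * S * S + S * S := by
      noncomm_ring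
    rw [e5] at h5
    rw [e6] at h6
    rw [e3, e4]
    simp only [Matrix.trace_add, Matrix.trace_sub] at h5 h6 ⊢
    linarith

/-- [N9b] consequences of `(Π+B)² = G`, zero row sums: trace `tr G = (q-1) + 2 tr B + |B|²` and
`|G-Π|² = |2B + B²|² ≤ (2|B| + |B|²)²`, so `≤ 9 |B|²` if `|B|² ≤ 1` (`|B²| ≤ |B|²`: Cauchy-Schwarz; `ΠB = BΠ = B`). -/
theorem sqrt_trace (q : ℕ) (hq : 0 < q) (G B : Fin q → Fin q → ℝ) (hB : ∀ i j, B i j = B j i)
    (hB0 : ∀ i, ∑ j, B i j = 0)
    (hGB : ∀ i j, ∑ l, (Pc q i l + B i l) * (Pc q l j + B l j) = G i j) :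
    ∑ i, G i i = (q : ℝ) - 1 + 2 * ∑ i, B i i + ∑ i, ∑ j, B i j ^ 2 ∧
    (∑ i, ∑ j, B i j ^ 2 ≤ 1 → Dq G ≤ 9 * ∑ i, ∑ j, B i j ^ 2) := by
  set M : Matrix (Fin q) (Fin q) ℝ := Matrix.of B with hMdef
  have hMt : M.transpose = M := by
    ext i j
    exact hB j i
  have hMP : M * n9_P q = M := n9_mulP q M hB0
  have hPM : n9_P q * M = M := n9_Pmul q M hB0 hMt
  have hPP := n9_PP q hq
  have hA : (Matrix.of G : Matrix (Fin q) (Fin q) ℝ) = n9_P q + M + M + M * M := by
    have h1 : (Matrix.of G : Matrix (Fin q) (Fin q) ℝ) = (n9_P q + M) * (n9_P q + M) := by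
      ext i j
      rw [Matrix.mul_apply]
      exact (hGB i j).symm
    rw [h1, add_mul, mul_add, mul_add, hMP, hPM, hPP]; abel
  have hGij : ∀ i j, G i j = Pc q i j + 2 * B i j + ∑ l, B i l * B l j := by
    intro i j
    have h := congrFun (congrFun hA i) j
    simp only [Matrix.add_apply, Matrix.mul_apply, n9_P_apply] at h
    have h2 : (Matrix.of G : Matrix (Fin q) (Fin q) ℝ) i j = G i j := rfl
    rw [h2] at h
    rw [h]
    simp only [hMdef, Matrix.of_apply]
    ring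
  constructor
  · have h1 := congrArg Matrix.trace hA
    simp only [Matrix.trace_add] at h1
    rw [n9_trP q hq, ← n9_tr q M hMt] at h1
    have h2 : (Matrix.of G : Matrix (Fin q) (Fin q) ℝ).trace = ∑ i, G i i := rfl
    have h3 : M.trace = ∑ i, B i i := rfl
    have h4 : ∑ i, ∑ j, M i j ^ 2 = ∑ i, ∑ j, B i j ^ 2 := rfl
    rw [h2, h3, h4] at h1
    rw [h1]; ring
  · intro hle
    set b : ℝ := ∑ i, ∑ j, B i j ^ 2 with hb
    have hb0 : 0 ≤ b := Finset.sum_nonneg fun i _ => Finset.sum_nonneg fun j _ => sq_nonneg _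
    have h1 : Dq G ≤ ∑ i, ∑ j, (6 * B i j ^ 2 + 3 * (∑ l, B i l * B l j) ^ 2) := by
      unfold Dq
      refine Finset.sum_le_sum fun i _ => Finset.sum_le_sum fun j _ => ?_
      rw [hGij i j]
      nlinarith [sq_nonneg (B i j - ∑ l, B i l * B l j)]
    have h2 : ∑ i, ∑ j, (∑ l, B i l * B l j) ^ 2 ≤ b * b := by
      have h3 : ∀ i j, (∑ l, B i l * B l j) ^ 2 ≤ (∑ l, B i l ^ 2) * ∑ l, B l j ^ 2 :=
        fun i j => Finset.sum_mul_sq_le_sq_mul_sq _ _ _
      refine (Finset.sum_le_sum fun i _ => Finset.sum_le_sum fun j _ => h3 i j).trans_eq ?_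
      have h4 : ∑ j, ∑ l, B l j ^ 2 = b := by rw [hb, Finset.sum_comm]
      simp_rw [← Finset.mul_sum, h4, ← Finset.sum_mul]
      rw [← hb]
    have h5 : ∑ i, ∑ j, (6 * B i j ^ 2 + 3 * (∑ l, B i l * B l j) ^ 2) =
        6 * b + 3 * ∑ i, ∑ j, (∑ l, B i l * B l j) ^ 2 := by
      simp only [Finset.sum_add_distrib, ← Finset.mul_sum]
      rw [← hb]
    rw [h5] at h1
    nlinarith

/-- [N9c] a Gram matrix with zero column sums of `C` and trace `q - 1` satisfies `|G - Π|² ≤ 4 q²`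
(`|G| ≤ tr G` since `G` is positive semidefinite: `G_ij² ≤ G_ii G_jj`, so `|G|² ≤ (tr G)²`). -/
theorem Dq_le (n q : ℕ) (hq : 0 < q) (C : Fin n → Fin q → ℝ) (ht : ∑ a, ∑ i, C a i ^ 2 = (q : ℝ) - 1) :
    Dq (Gr C) ≤ 4 * (q : ℝ) ^ 2 := by
  have h1 : Dq (Gr C) ≤ ∑ i, ∑ j, (2 * Gr C i j ^ 2 + 2 * Pc q i j ^ 2) := by
    unfold Dq
    refine Finset.sum_le_sum fun i _ => Finset.sum_le_sum fun j _ => ?_
    nlinarith [sq_nonneg (Gr C i j + Pc q i j)]
  have h2 : ∑ i, ∑ j, Pc q i j ^ 2 = (q : ℝ) - 1 := by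
    have h := n9_tr q (n9_P q) (n9_symm q)
    rw [n9_PP q hq, n9_trP q hq] at h
    exact h
  have h3 : ∑ i, ∑ j, Gr C i j ^ 2 ≤ ((q : ℝ) - 1) ^ 2 := by
    have h4 : ∀ i j, Gr C i j ^ 2 ≤ (∑ a, C a i ^ 2) * ∑ a, C a j ^ 2 :=
      fun i j => Finset.sum_mul_sq_le_sq_mul_sq _ _ _
    refine (Finset.sum_le_sum fun i _ => Finset.sum_le_sum fun j _ => h4 i j).trans_eq ?_
    have h5 : ∑ i, ∑ a, C a i ^ 2 = (q : ℝ) - 1 := by rw [Finset.sum_comm]; exact ht
    simp_rw [← Finset.mul_sum, h5, ← Finset.sum_mul]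
    rw [h5]; ring
  have h6 : ∑ i, ∑ j, (2 * Gr C i j ^ 2 + 2 * Pc q i j ^ 2) =
      2 * ∑ i, ∑ j, Gr C i j ^ 2 + 2 * ∑ i, ∑ j, Pc q i j ^ 2 := by
    simp only [Finset.sum_add_distrib, ← Finset.mul_sum]
  have hq1 : (1 : ℝ) ≤ q := by exact_mod_cast hq
  rw [h6, h2] at h1
  nlinarith

end Pool.Agent.SSQ
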