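import Pool.Agent.SSQ.E7
import Pool.Agent.SSQ.D1

set_option autoImplicit false
open MeasureTheory ProbabilityTheory Set Real

namespace Pool.Agent.SSQ
open Pool.Agent.SSC3N (gam GG TT gam_prob cubq cubi)

/-! Part IV in `ℝ^(k+M)`, with constants depending only on `k` (dimension free). -/

/-- extension of a simplex of `ℝ^k` to `ℝ^(k+M)` -/
def ext {q k : ℕ} (M : ℕ) (a : Fin q → Fin k → ℝ) (i : Fin q) : Fin (k + M) → ℝ :=
  Fin.append (a i) (fun _ => 0)

/-- first `k` coordinates -/
def fc {k M : ℕ} (z : Fin (k + M) → ℝ) : Fin k → ℝ := fun l => z (Fin.castAdd M l)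

/-- slice of a family of functions -/
def sl {q k M : ℕ} (f : Fin q → (Fin (k + M) → ℝ) → ℝ) (y : Fin M → ℝ) (j : Fin q)
    (x : Fin k → ℝ) : ℝ := cur (f j) x y

private theorem p1_sum {k M : ℕ} (b : Fin k → ℝ) (g : Fin (k + M) → ℝ) :
    ∑ l, (Fin.append b (fun _ => 0) : Fin (k + M) → ℝ) l * g l = ∑ l, b l * g (Fin.castAdd M l) := by
  rw [Fin.sum_univ_add]
  simp only [Fin.append_left, Fin.append_right, zero_mul, Finset.sum_const_zero, add_zero]

private theorem p1_form {q k : ℕ} (M : ℕ) (a : Fin q → Fin k → ℝ) (i : Fin q)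
    (z : Fin (k + M) → ℝ) : ∑ l, ext M a i l * z l = ∑ l, a i l * fc z l :=
  p1_sum (a i) z

private theorem p1_mem {q k : ℕ} (M : ℕ) (a : Fin q → Fin k → ℝ) (i : Fin q)
    (z : Fin (k + M) → ℝ) : z ∈ sxc (ext M a) i ↔ fc z ∈ sxc a i := by
  unfold sxc
  simp only [mem_ofPred_eq, p1_form]

private theorem p1_append_meas {k : ℕ} (m : ℕ) : Measurable (fun p : (Fin k → ℝ) × (Fin m → ℝ) =>
    (Fin.append p.1 p.2 : Fin (k + m) → ℝ)) := by
  refine measurable_pi_lambda _ fun i => ?_
  refine Fin.addCases (fun j => ?_) (fun j => ?_) i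
  · simp only [Fin.append_left]
    fun_prop
  · simp only [Fin.append_right]
    fun_prop

private theorem p1_fc_mp (k m : ℕ) :
    MeasurePreserving (fc : (Fin (k + m) → ℝ) → (Fin k → ℝ)) (gam (k + m)) (gam k) := by
  have hg : IsProbabilityMeasure (gam m) := gam_prob m
  have hg' : IsProbabilityMeasure (gam k) := gam_prob k
  have h1 := split_mp k m
  have h2 : MeasurePreserving (Prod.fst : (Fin k → ℝ) × (Fin m → ℝ) → (Fin k → ℝ))
      ((gam k).prod (gam m)) (gam k) := measurePreserving_fst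
  exact h2.comp h1

/-- [P1a] elementary facts on the extension (`Fin.sum_univ_add`, `Fin.append_left`, `Fin.append_right`). -/
theorem ext_basic {q k : ℕ} (M : ℕ) (a : Fin q → Fin k → ℝ) :
    (IsSx a → IsSx (ext M a)) ∧
    (∀ i (z : Fin (k + M) → ℝ), ∑ l, ext M a i l * z l = ∑ l, a i l * fc z l) ∧
    (∀ i j (z : Fin (k + M) → ℝ), sd (ext M a) i j z = sd a i j (fc z)) ∧
    (∀ i (z : Fin (k + M) → ℝ), z ∈ sxc (ext M a) i ↔ fc z ∈ sxc a i) ∧
    (∀ i (z : Fin (k + M) → ℝ), fst (ext M a) i z = fst a i (fc z)) ∧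
    (∀ (x : Fin k → ℝ) (y : Fin M → ℝ), fc (Fin.append x y : Fin (k + M) → ℝ) = x) := by
  have h0 : ∀ i (l : Fin k), ext M a i (Fin.castAdd M l) = a i l := by
    intro i l
    unfold ext
    rw [Fin.append_left]
  refine ⟨?_, p1_form M a, ?_, p1_mem M a, ?_, ?_⟩
  · rintro ⟨h1, h2⟩
    refine ⟨fun i => ?_, fun i j hij => ?_⟩
    · rw [p1_form, ← h1 i]
      exact Finset.sum_congr rfl fun l _ => by unfold fc; rw [h0]
    · rw [p1_form, ← h2 i j hij]
      exact Finset.sum_congr rfl fun l _ => by unfold fc; rw [h0]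
  · intro i j z
    unfold sd
    simp only [sub_mul, Finset.sum_sub_distrib]
    rw [p1_form, p1_form]
  · intro i z
    unfold fst
    by_cases h : fc z ∈ sxc a i
    · rw [Set.indicator_of_mem h, Set.indicator_of_mem ((p1_mem M a i z).2 h)]
    · rw [Set.indicator_of_notMem h, Set.indicator_of_notMem (fun h' => h ((p1_mem M a i z).1 h'))]
  · intro x y
    funext l
    unfold fc
    rw [Fin.append_left]

/-- [P1b] `T_ρ` of the extended simplex cells depends only on the first `k` coordinates (`split_mp`, the projection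
`fc` maps `gam (k+M)` to `gam k`). -/
theorem TT_ext {q k : ℕ} (M : ℕ) (a : Fin q → Fin k → ℝ) (ρ : ℝ) (i : Fin q)
    (z : Fin (k + M) → ℝ) : TT ρ (fst (ext M a) i) z = TT ρ (fst a i) (fc z) := by
  obtain ⟨-, -, hFP, -⟩ := sxc_basic (Fin.pos i) a
  have hmp := p1_fc_mp k M
  have hm : Measurable (fun v : Fin k → ℝ =>
      fst a i (ρ • fc z + Real.sqrt (1 - ρ ^ 2) • v)) := (hFP.1 i).comp (by fun_prop)
  unfold TT
  rw [← hmp.map_eq, integral_map hmp.measurable.aemeasurable
    (by rw [hmp.map_eq]; exact hm.aestronglyMeasurable)]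
  refine integral_congr_ae (Filter.Eventually.of_forall fun v => ?_)
  exact (ext_basic M a).2.2.2.2.1 i _

/-- [P1c] slices of a fractional partition are fractional partitions (joint measurability of `cur`). -/
theorem sl_FP {q k M : ℕ} (f : Fin q → (Fin (k + M) → ℝ) → ℝ) (hf : FP f) (y : Fin M → ℝ) :
    FP (sl f y) := by
  obtain ⟨h1, h2, h3⟩ := hf
  refine ⟨fun i => ?_, fun i x => h2 i _, fun x => h3 _⟩
  exact (h1 i).comp ((p1_append_meas M).comp (by fun_prop : Measurable
    (fun x : Fin k → ℝ => (x, y))))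

/-- [P1d] FUBINI for the cost functionals (`split_mp`); measurability and boundedness of the slice costs
(`|CE| ≤ ∑_ij ∫ |w_ij|` because `0 ≤ f_j ≤ 1`). -/
theorem CE_slice {q k : ℕ} (M : ℕ) (a : Fin q → Fin k → ℝ) (hq : 0 < q)
    (f : Fin q → (Fin (k + M) → ℝ) → ℝ) (hf : FP f) (N : Set (Fin k → ℝ)) (hN : MeasurableSet N)
    (w : Fin q → Fin q → (Fin k → ℝ) → ℝ) (hw : ∀ i j, Measurable (w i j))
    (hwi : ∀ i j, Integrable (w i j) (gam k)) :
    Measurable (fun y => CE a (sl f y) N w) ∧
    (∀ y, |CE a (sl f y) N w| ≤ ∑ i, ∑ j, ∫ x, |w i j x| ∂(gam k)) ∧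
    CE (ext M a) f {z | fc z ∈ N} (fun i j z => w i j (fc z)) =
      ∫ y, CE a (sl f y) N w ∂(gam M) := by
  classical
  have hgk : IsProbabilityMeasure (gam k) := gam_prob k
  have hgM : IsProbabilityMeasure (gam M) := gam_prob M
  obtain ⟨hms, -, -, -⟩ := sxc_basic hq a
  obtain ⟨hf1, hf2, hf3⟩ := hf
  have hle : ∀ j z, f j z ≤ 1 := by
    intro j z
    rw [← hf3 z]
    exact Finset.single_le_sum (fun i _ => hf2 i z) (Finset.mem_univ j)
  set H : Fin q → (Fin k → ℝ) × (Fin M → ℝ) → ℝ := fun i p =>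
    if p.1 ∈ sxc a i ∩ N then ∑ j, f j (Fin.append p.1 p.2) * w i j p.1 else 0 with hH
  have hHm : ∀ i, Measurable (H i) := by
    intro i
    refine Measurable.ite (measurable_fst ((hms i).inter hN)) ?_ measurable_const
    refine Finset.measurable_sum _ fun j _ => ?_
    exact ((hf1 j).comp (p1_append_meas M)).mul ((hw i j).comp measurable_fst)
  have hHb : ∀ i p, |H i p| ≤ ∑ j, |w i j p.1| := by
    intro i p
    simp only [hH]
    split_ifs
    · refine (Finset.abs_sum_le_sum_abs _ _).trans (Finset.sum_le_sum fun j _ => ?_)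
      rw [abs_mul, abs_of_nonneg (hf2 j _)]
      exact mul_le_of_le_one_left (abs_nonneg _) (hle j _)
    · rw [abs_zero]
      exact Finset.sum_nonneg fun j _ => abs_nonneg _
  have hHi : ∀ i, Integrable (H i) ((gam k).prod (gam M)) := by
    intro i
    have h1 : Integrable (fun x => ∑ j, |w i j x|) (gam k) :=
      integrable_finsetSum _ fun j _ => (hwi i j).abs
    refine (h1.comp_fst (gam M)).mono' (hHm i).aestronglyMeasurable
      (Filter.Eventually.of_forall fun p => ?_)
    rw [Real.norm_eq_abs]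
    exact hHb i p
  have hCE : ∀ y, CE a (sl f y) N w = ∑ i, ∫ x, H i (x, y) ∂(gam k) := by
    intro y
    unfold CE
    refine Finset.sum_congr rfl fun i _ => ?_
    rw [← integral_indicator ((hms i).inter hN)]
    refine integral_congr_ae (Filter.Eventually.of_forall fun x => ?_)
    simp only [hH]
    by_cases hx : x ∈ sxc a i ∩ N
    · rw [if_pos hx, Set.indicator_of_mem hx]
      rfl
    · rw [if_neg hx, Set.indicator_of_notMem hx]
  have hHy : ∀ i y, Integrable (fun x => H i (x, y)) (gam k) := by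
    intro i y
    have h1 : Integrable (fun x => ∑ j, |w i j x|) (gam k) :=
      integrable_finsetSum _ fun j _ => (hwi i j).abs
    refine h1.mono' ((hHm i).comp (by fun_prop : Measurable
      (fun x : Fin k → ℝ => (x, y)))).aestronglyMeasurable
      (Filter.Eventually.of_forall fun x => ?_)
    rw [Real.norm_eq_abs]
    exact hHb i (x, y)
  have hHI : ∀ i, Measurable (fun y => ∫ x, H i (x, y) ∂(gam k)) := fun i =>
    ((hHm i).stronglyMeasurable.integral_prod_left' (μ := gam k)).measurable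
  refine ⟨?_, ?_, ?_⟩
  · simp only [hCE]
    exact Finset.measurable_sum _ fun i _ => hHI i
  · intro y
    rw [hCE]
    refine (Finset.abs_sum_le_sum_abs _ _).trans (Finset.sum_le_sum fun i _ => ?_)
    rw [← integral_finsetSum _ fun j _ => (hwi i j).abs]
    refine (abs_integral_le_integral_abs).trans ?_
    exact integral_mono (hHy i y).abs (integrable_finsetSum _ fun j _ => (hwi i j).abs)
      fun x => hHb i (x, y)
  · have e1 : ∀ i, ∫ x in sxc (ext M a) i ∩ {z | fc z ∈ N},
        ∑ j, f j x * w i j (fc x) ∂(gam (k + M)) = ∫ p, H i p ∂((gam k).prod (gam M)) := by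
      intro i
      have h1 := split_mp k M
      have hset : MeasurableSet (sxc (ext M a) i ∩ {z | fc z ∈ N}) :=
        ((sxc_basic hq (ext M a)).1 i).inter ((p1_fc_mp k M).measurable hN)
      rw [← h1.map_eq, integral_map h1.measurable.aemeasurable
        (by rw [h1.map_eq]; exact (hHm i).aestronglyMeasurable), ← integral_indicator hset]
      refine integral_congr_ae (Filter.Eventually.of_forall fun z => ?_)
      have hz : z = Fin.append (fun i : Fin k => z (Fin.castAdd M i))
          (fun j : Fin M => z (Fin.natAdd k j)) := by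
        rw [Fin.append_castAdd_natAdd]
      have hmem : z ∈ sxc (ext M a) i ∩ {z | fc z ∈ N} ↔
          (fun i : Fin k => z (Fin.castAdd M i)) ∈ sxc a i ∩ N := by
        constructor
        · rintro ⟨h2, h3⟩
          exact ⟨(p1_mem M a i z).1 h2, h3⟩
        · rintro ⟨h2, h3⟩
          exact ⟨(p1_mem M a i z).2 h2, h3⟩
      simp only [hH]
      by_cases hx : z ∈ sxc (ext M a) i ∩ {z | fc z ∈ N}
      · rw [Set.indicator_of_mem hx, if_pos (hmem.1 hx)]
        refine Finset.sum_congr rfl fun j _ => ?_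
        rw [← hz]
        rfl
      · rw [Set.indicator_of_notMem hx, if_neg (fun h => hx (hmem.2 h))]
    have e2 : CE (ext M a) f {z | fc z ∈ N} (fun i j z => w i j (fc z)) =
        ∑ i, ∫ p, H i p ∂((gam k).prod (gam M)) := by
      unfold CE
      exact Finset.sum_congr rfl fun i _ => e1 i
    rw [e2]
    simp only [hCE]
    rw [integral_finsetSum _ fun i _ => (hHi i).integral_prod_right]
    exact Finset.sum_congr rfl fun i _ => integral_prod_symm _ (hHi i)

end Pool.Agent.SSQ
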