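import Pool.Agent.SSQ.E2
import Pool.Agent.SSCP.LA2

set_option autoImplicit false
open MeasureTheory ProbabilityTheory Set Real

namespace Pool.Agent.SSQ
open Pool.Agent.SSC3N (gam GG TT gam_prob gam_ou cubq cubi)

private noncomputable def p2_Phi (M : ℕ) (ρ : ℝ) (p : (Fin M → ℝ) × (Fin M → ℝ)) : Fin M → ℝ :=
  ρ • p.1 + Real.sqrt (1 - ρ ^ 2) • p.2

private theorem p2_meas (M : ℕ) (ρ : ℝ) : Measurable (p2_Phi M ρ) := by
  unfold p2_Phi
  fun_prop

private theorem p2_int {α : Type} [MeasurableSpace α] (μ : Measure α) [IsProbabilityMeasure μ]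
    (f : α → ℝ) (hf : Measurable f) (B : ℝ) (hB : ∀ x, |f x| ≤ B) : Integrable f μ :=
  Integrable.mono' (integrable_const B) hf.aestronglyMeasurable
    (Filter.Eventually.of_forall fun x => by rw [Real.norm_eq_abs]; exact hB x)

private theorem p2_GG {M : ℕ} (ρ : ℝ) (g h : (Fin M → ℝ) → ℝ) (hg : Measurable g)
    (hh : Measurable h) (B : ℝ) (hB : ∀ y, |g y| ≤ B) (hB' : ∀ y, |h y| ≤ B) :
    GG ρ g h = ∫ p, g p.1 * h (p2_Phi M ρ p) ∂((gam M).prod (gam M)) ∧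
      Integrable (fun p => g p.1 * h (p2_Phi M ρ p)) ((gam M).prod (gam M)) := by
  have hP : IsProbabilityMeasure (gam M) := inferInstance
  have hB0 : 0 ≤ B := (abs_nonneg _).trans (hB 0)
  have hi : Integrable (fun p => g p.1 * h (p2_Phi M ρ p)) ((gam M).prod (gam M)) := by
    refine p2_int _ _ ((hg.comp measurable_fst).mul (hh.comp (p2_meas M ρ))) (B * B) fun p => ?_
    rw [abs_mul]
    exact mul_le_mul (hB _) (hB' _) (abs_nonneg _) hB0
  refine ⟨?_, hi⟩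
  rw [integral_prod _ hi]
  rfl

private theorem p2_snd {M : ℕ} (ρ : ℝ) (h0 : -1 ≤ ρ) (h1 : ρ ≤ 1) (h : (Fin M → ℝ) → ℝ)
    (hh : Measurable h) :
    ∫ p, h (p2_Phi M ρ p) ∂((gam M).prod (gam M)) = ∫ y, h y ∂(gam M) := by
  have hm := gam_ou M ρ h0 h1
  have h2 := integral_map (μ := (gam M).prod (gam M)) hm.measurable.aemeasurable
    (f := h) hh.aestronglyMeasurable
  rw [hm.map_eq] at h2
  exact h2.symm

private theorem p2_fst {M : ℕ} (h : (Fin M → ℝ) → ℝ) (hh : Measurable h) :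
    ∫ p, h p.1 ∂((gam M).prod (gam M)) = ∫ y, h y ∂(gam M) := by
  have hm : MeasurePreserving Prod.fst ((gam M).prod (gam M)) (gam M) := measurePreserving_fst
  have h2 := integral_map (μ := (gam M).prod (gam M)) hm.measurable.aemeasurable
    (f := h) hh.aestronglyMeasurable
  rw [hm.map_eq] at h2
  exact h2.symm

/-- bounded by the second moment -/
private theorem p2_i {M : ℕ} (ρ : ℝ) (h0 : -1 ≤ ρ) (h1 : ρ ≤ 1) (g : (Fin M → ℝ) → ℝ)
    (hg : Measurable g) (B : ℝ) (hB : ∀ y, |g y| ≤ B) :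
    |GG ρ g g| ≤ ∫ y, g y ^ 2 ∂(gam M) := by
  have hP : IsProbabilityMeasure (gam M) := inferInstance
  have hB0 : 0 ≤ B := (abs_nonneg _).trans (hB 0)
  obtain ⟨e1, hi⟩ := p2_GG ρ g g hg hg B hB hB
  have hg2 : Measurable fun y => g y ^ 2 := hg.pow_const 2
  have hb2 : ∀ y, |g y ^ 2| ≤ B ^ 2 := by
    intro y
    rw [abs_pow]
    exact pow_le_pow_left₀ (abs_nonneg _) (hB y) 2
  have i1 : Integrable (fun p : (Fin M → ℝ) × (Fin M → ℝ) => g p.1 ^ 2) ((gam M).prod (gam M)) :=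
    p2_int _ _ (hg2.comp measurable_fst) (B ^ 2) fun p => hb2 _
  have i2 : Integrable (fun p : (Fin M → ℝ) × (Fin M → ℝ) => g (p2_Phi M ρ p) ^ 2)
      ((gam M).prod (gam M)) :=
    p2_int _ _ (hg2.comp (p2_meas M ρ)) (B ^ 2) fun p => hb2 _
  have e2 := p2_fst (fun y => g y ^ 2) hg2
  have e3 := p2_snd ρ h0 h1 (fun y => g y ^ 2) hg2
  have e4 : ∫ p, (g p.1 ^ 2 + g (p2_Phi M ρ p) ^ 2) / 2 ∂((gam M).prod (gam M)) =
      ∫ y, g y ^ 2 ∂(gam M) := by
    rw [integral_div, integral_add i1 i2, e2, e3]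
    ring
  rw [e1, abs_le]
  constructor
  · rw [← e4, ← integral_neg]
    refine integral_mono ((i1.add i2).div_const 2).neg hi fun p => ?_
    have := sq_nonneg (g p.1 + g (p2_Phi M ρ p))
    change -((g p.1 ^ 2 + g (p2_Phi M ρ p) ^ 2) / 2) ≤ g p.1 * g (p2_Phi M ρ p)
    nlinarith
  · rw [← e4]
    refine integral_mono hi ((i1.add i2).div_const 2) fun p => ?_
    have := sq_nonneg (g p.1 - g (p2_Phi M ρ p))
    change g p.1 * g (p2_Phi M ρ p) ≤ (g p.1 ^ 2 + g (p2_Phi M ρ p) ^ 2) / 2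
    nlinarith

/-- centring -/
private theorem p2_ctr {M : ℕ} (ρ : ℝ) (h0 : -1 ≤ ρ) (h1 : ρ ≤ 1) (g : (Fin M → ℝ) → ℝ)
    (hg : Measurable g) (B : ℝ) (hB : ∀ y, |g y| ≤ B) (c : ℝ) (hc : c = ∫ y, g y ∂(gam M)) :
    GG ρ g g - c ^ 2 = GG ρ (fun y => g y - c) (fun y => g y - c) := by
  have hP : IsProbabilityMeasure (gam M) := inferInstance
  obtain ⟨e1, hi⟩ := p2_GG ρ g g hg hg B hB hB
  have hgc : Measurable fun y => g y - c := hg.sub_const c
  have hbc : ∀ y, |g y - c| ≤ B + |c| := fun y => (abs_sub _ _).trans (by linarith [hB y])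
  obtain ⟨e2, hi2⟩ := p2_GG ρ (fun y => g y - c) (fun y => g y - c) hgc hgc (B + |c|) hbc hbc
  have i1 : Integrable (fun p : (Fin M → ℝ) × (Fin M → ℝ) => g p.1) ((gam M).prod (gam M)) :=
    p2_int _ _ (hg.comp measurable_fst) B fun p => hB _
  have i2 : Integrable (fun p : (Fin M → ℝ) × (Fin M → ℝ) => g (p2_Phi M ρ p))
      ((gam M).prod (gam M)) :=
    p2_int _ _ (hg.comp (p2_meas M ρ)) B fun p => hB _
  have f1 := p2_fst g hg
  have f2 := p2_snd ρ h0 h1 g hg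
  rw [e1, e2]
  have e3 : ∫ p, (g p.1 - c) * (g (p2_Phi M ρ p) - c) ∂((gam M).prod (gam M)) =
      ∫ p, ((g p.1 * g (p2_Phi M ρ p) - c * g p.1) - c * g (p2_Phi M ρ p) + c ^ 2)
        ∂((gam M).prod (gam M)) := by
    refine integral_congr_ae (Filter.Eventually.of_forall fun p => ?_)
    change (g p.1 - c) * (g (p2_Phi M ρ p) - c) =
      (g p.1 * g (p2_Phi M ρ p) - c * g p.1) - c * g (p2_Phi M ρ p) + c ^ 2
    ring
  have a1 : Integrable (fun p => (g p.1 * g (p2_Phi M ρ p) - c * g p.1) - c * g (p2_Phi M ρ p))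
      ((gam M).prod (gam M)) := (hi.sub (i1.const_mul c)).sub (i2.const_mul c)
  have a2 : Integrable (fun p => g p.1 * g (p2_Phi M ρ p) - c * g p.1)
      ((gam M).prod (gam M)) := hi.sub (i1.const_mul c)
  have b1 : ∫ p, ((g p.1 * g (p2_Phi M ρ p) - c * g p.1) - c * g (p2_Phi M ρ p) + c ^ 2)
        ∂((gam M).prod (gam M)) =
      ∫ p, ((g p.1 * g (p2_Phi M ρ p) - c * g p.1) - c * g (p2_Phi M ρ p))
        ∂((gam M).prod (gam M)) + ∫ _, c ^ 2 ∂((gam M).prod (gam M)) :=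
    integral_add a1 (integrable_const _)
  have b2 : ∫ p, ((g p.1 * g (p2_Phi M ρ p) - c * g p.1) - c * g (p2_Phi M ρ p))
        ∂((gam M).prod (gam M)) =
      ∫ p, (g p.1 * g (p2_Phi M ρ p) - c * g p.1) ∂((gam M).prod (gam M)) -
        ∫ p, c * g (p2_Phi M ρ p) ∂((gam M).prod (gam M)) :=
    integral_sub a2 (i2.const_mul c)
  have b3 : ∫ p, (g p.1 * g (p2_Phi M ρ p) - c * g p.1) ∂((gam M).prod (gam M)) =
      ∫ p, g p.1 * g (p2_Phi M ρ p) ∂((gam M).prod (gam M)) -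
        ∫ p, c * g p.1 ∂((gam M).prod (gam M)) :=
    integral_sub hi (i1.const_mul c)
  rw [e3, b1, b2, b3, integral_const_mul, integral_const_mul, f1, f2, ← hc, integral_const,
    probReal_univ, one_smul]
  ring

/-- negative correlations -/
private theorem p2_neg {M : ℕ} (s : ℝ) (k : (Fin M → ℝ) → ℝ) :
    GG (-s) k k = GG s k (fun y => k (-y)) := by
  unfold GG
  refine integral_congr_ae (Filter.Eventually.of_forall fun y => ?_)
  change ∫ z, k y * k ((-s) • y + Real.sqrt (1 - (-s) ^ 2) • z) ∂(gam M) =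
    ∫ z, k y * k (-(s • y + Real.sqrt (1 - s ^ 2) • z)) ∂(gam M)
  have hm := Pool.Agent.SSC3N.cub_neg_mp M
  have h1 := hm.integral_comp (MeasurableEquiv.neg (Fin M → ℝ)).measurableEmbedding
    (fun z => k y * k ((-s) • y + Real.sqrt (1 - (-s) ^ 2) • z))
  rw [← h1]
  refine integral_congr_ae (Filter.Eventually.of_forall fun z => ?_)
  change k y * k ((-s) • y + Real.sqrt (1 - (-s) ^ 2) • -z) =
    k y * k (-(s • y + Real.sqrt (1 - s ^ 2) • z))
  have e : (-s) • y + Real.sqrt (1 - (-s) ^ 2) • -z = -(s • y + Real.sqrt (1 - s ^ 2) • z) := by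
    rw [neg_sq, neg_smul, smul_neg, neg_add]
  rw [e]

private theorem p2_memLp {M : ℕ} (k : (Fin M → ℝ) → ℝ) (hk : Measurable k) (B : ℝ)
    (hB : ∀ y, |k y| ≤ B) : MemLp k 2 (gam M) :=
  MemLp.of_bound hk.aestronglyMeasurable B
    (Filter.Eventually.of_forall fun x => by rw [Real.norm_eq_abs]; exact hB x)

/-- from the diagonal form at `s ≥ 0` to both signs -/
private theorem p2_abs {M : ℕ} (s : ℝ) (h0 : 0 ≤ s) (h1 : s ≤ 1) (k : (Fin M → ℝ) → ℝ)
    (hk : Measurable k) (B : ℝ) (hB : ∀ y, |k y| ≤ B) (T : ℝ) (hT : GG s k k ≤ T)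
    (hT' : GG s (fun y => k (-y)) (fun y => k (-y)) ≤ T) :
    |GG s k k| ≤ T ∧ |GG (-s) k k| ≤ T := by
  have hk' : Measurable fun y : Fin M → ℝ => k (-y) := hk.comp measurable_neg
  have hB' : ∀ y : Fin M → ℝ, |k (-y)| ≤ B := fun y => hB _
  have m1 := p2_memLp k hk B hB
  have m2 := p2_memLp (fun y => k (-y)) hk' B hB'
  obtain ⟨a1, a2⟩ := Pool.Agent.SSC3N.cub_semigroup s h0 h1 k k m1 m1
  obtain ⟨b1, b2⟩ := Pool.Agent.SSC3N.cub_semigroup s h0 h1 (fun y => k (-y)) (fun y => k (-y)) m2 m2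
  obtain ⟨c1, c2⟩ := Pool.Agent.SSC3N.cub_semigroup s h0 h1 k (fun y => k (-y)) m1 m2
  have hnn : 0 ≤ GG s k k := by
    rw [a1]
    exact integral_nonneg fun y => mul_self_nonneg _
  constructor
  · rw [abs_of_nonneg hnn]
    exact hT
  · have e4 : ∫ y, (TT (Real.sqrt s) k y * TT (Real.sqrt s) k y +
        TT (Real.sqrt s) (fun y => k (-y)) y * TT (Real.sqrt s) (fun y => k (-y)) y) / 2 ∂(gam M) =
        (GG s k k + GG s (fun y => k (-y)) (fun y => k (-y))) / 2 := by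
      rw [integral_div, integral_add a2 b2, ← a1, ← b1]
    have e5 : (GG s k k + GG s (fun y => k (-y)) (fun y => k (-y))) / 2 ≤ T := by linarith
    rw [p2_neg, c1, abs_le]
    constructor
    · refine (neg_le_neg e5).trans ?_
      rw [← e4, ← integral_neg]
      refine integral_mono ((a2.add b2).div_const 2).neg c2 fun y => ?_
      have := sq_nonneg (TT (Real.sqrt s) k y + TT (Real.sqrt s) (fun y => k (-y)) y)
      change -((TT (Real.sqrt s) k y * TT (Real.sqrt s) k y +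
        TT (Real.sqrt s) (fun y => k (-y)) y * TT (Real.sqrt s) (fun y => k (-y)) y) / 2) ≤
        TT (Real.sqrt s) k y * TT (Real.sqrt s) (fun y => k (-y)) y
      nlinarith
    · refine le_trans ?_ e5
      rw [← e4]
      refine integral_mono c2 ((a2.add b2).div_const 2) fun y => ?_
      have := sq_nonneg (TT (Real.sqrt s) k y - TT (Real.sqrt s) (fun y => k (-y)) y)
      change TT (Real.sqrt s) k y * TT (Real.sqrt s) (fun y => k (-y)) y ≤
        (TT (Real.sqrt s) k y * TT (Real.sqrt s) k y +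
        TT (Real.sqrt s) (fun y => k (-y)) y * TT (Real.sqrt s) (fun y => k (-y)) y) / 2
      nlinarith

private theorem p2_int_neg {M : ℕ} (F : (Fin M → ℝ) → ℝ) :
    ∫ y, F (-y) ∂(gam M) = ∫ y, F y ∂(gam M) :=
  (Pool.Agent.SSC3N.cub_neg_mp M).integral_comp
    (MeasurableEquiv.neg (Fin M → ℝ)).measurableEmbedding F

/-- [P2a] noise form of one bounded function, both signs of the correlation.
(i) `|GG ρ g g| ≤ ∫ g²`: Cauchy-Schwarz, both marginals are `gam M` (`gam_ou`).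
(ii) `|GG ρ g g - (∫g)²| ≤ |ρ| ∫ g²`, (iii) `|GG ρ g g| ≤ ρ² ∫ g²` if `∫ g = 0` and `∫ y_j g = 0`.
For `ρ ≥ 0`: `GG ρ g g ≥ 0` for centred... use `GG_semigroup`/`cub_semigroup` (nonnegativity of `GG ρ k k`) and `gap1`, `gap2`
(`Pool/Agent/SSCP/A2, A3`) for `k = g - ∫g` (`GG ρ g g = (∫g)² + GG ρ k k`, `∫ k² ≤ ∫ g²`).
For `ρ = -s`: `GG (-s) g g = GG s (g∘neg) g` (`cub_neg_mp` in both variables), `g∘neg` has the same norms and
moments up to sign, and `|GG s g h| ≤ √(GG s g g) √(GG s h h)` (`cub_semigroup` and Cauchy-Schwarz, `cub_cs`).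
(iv) the same (i) for two functions of absolute value: `|GG ρ g h| ≤ GG ρ |g| |h|`. -/
theorem GG_sign {M : ℕ} (ρ : ℝ) (h0 : -1 ≤ ρ) (h1 : ρ ≤ 1) (g : (Fin M → ℝ) → ℝ)
    (hg : Measurable g) (B : ℝ) (hB : ∀ y, |g y| ≤ B) :
    |GG ρ g g| ≤ ∫ y, g y ^ 2 ∂(gam M) ∧
    |GG ρ g g - (∫ y, g y ∂(gam M)) ^ 2| ≤ |ρ| * ∫ y, g y ^ 2 ∂(gam M) ∧
    (∫ y, g y ∂(gam M) = 0 → (∀ j, ∫ y, y j * g y ∂(gam M) = 0) →
      |GG ρ g g| ≤ ρ ^ 2 * ∫ y, g y ^ 2 ∂(gam M)) := by
  have hP : IsProbabilityMeasure (gam M) := inferInstance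
  have hB0 : 0 ≤ B := (abs_nonneg _).trans (hB 0)
  have hg2 : Measurable fun y => g y ^ 2 := hg.pow_const 2
  have hb2 : ∀ y, |g y ^ 2| ≤ B ^ 2 := by
    intro y
    rw [abs_pow]
    exact pow_le_pow_left₀ (abs_nonneg _) (hB y) 2
  have hig : Integrable g (gam M) := p2_int _ g hg B hB
  have hig2 : Integrable (fun y => g y ^ 2) (gam M) := p2_int _ _ hg2 (B ^ 2) hb2
  refine ⟨p2_i ρ h0 h1 g hg B hB, ?_, ?_⟩
  · obtain ⟨c, hc⟩ : ∃ c : ℝ, c = ∫ y, g y ∂(gam M) := ⟨_, rfl⟩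
    rw [← hc, p2_ctr ρ h0 h1 g hg B hB c hc]
    obtain ⟨k, hk⟩ : ∃ k : (Fin M → ℝ) → ℝ, k = fun y => g y - c := ⟨_, rfl⟩
    have hkm : Measurable k := by
      rw [hk]
      exact hg.sub_const c
    have hkb : ∀ y, |k y| ≤ B + |c| := by
      intro y
      rw [hk]
      exact (abs_sub _ _).trans (by linarith [hB y])
    have hk0 : ∫ y, k y ∂(gam M) = 0 := by
      rw [hk, integral_sub hig (integrable_const c), ← hc, integral_const, probReal_univ,
        one_smul, sub_self]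
    have hk2 : ∫ y, k y ^ 2 ∂(gam M) ≤ ∫ y, g y ^ 2 ∂(gam M) := by
      have e1 : ∫ y, k y ^ 2 ∂(gam M) =
          ∫ y, ((g y ^ 2 - 2 * c * g y) + c ^ 2) ∂(gam M) := by
        refine integral_congr_ae (Filter.Eventually.of_forall fun y => ?_)
        rw [hk]
        change (g y - c) ^ 2 = (g y ^ 2 - 2 * c * g y) + c ^ 2
        ring
      have a2 : Integrable (fun y => g y ^ 2 - 2 * c * g y) (gam M) := hig2.sub (hig.const_mul _)
      have b1 : ∫ y, ((g y ^ 2 - 2 * c * g y) + c ^ 2) ∂(gam M) =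
          ∫ y, (g y ^ 2 - 2 * c * g y) ∂(gam M) + ∫ _, c ^ 2 ∂(gam M) :=
        integral_add a2 (integrable_const _)
      have b2 : ∫ y, (g y ^ 2 - 2 * c * g y) ∂(gam M) =
          ∫ y, g y ^ 2 ∂(gam M) - ∫ y, 2 * c * g y ∂(gam M) :=
        integral_sub hig2 (hig.const_mul _)
      rw [e1, b1, b2, integral_const_mul, ← hc, integral_const,
        probReal_univ, one_smul]
      nlinarith [sq_nonneg c]
    rw [← hk]
    have hs0 : 0 ≤ |ρ| := abs_nonneg ρ
    have hs1 : |ρ| ≤ 1 := abs_le.2 ⟨h0, h1⟩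
    have hkn : Measurable fun y : Fin M → ℝ => k (-y) := hkm.comp measurable_neg
    have g1 := SSCP.gap1 |ρ| (B + |c|) hs0 hs1 k hkm hkb hk0
    have g2 := SSCP.gap1 |ρ| (B + |c|) hs0 hs1 (fun y => k (-y)) hkn (fun y => hkb _)
      ((p2_int_neg k).trans hk0)
    rw [p2_int_neg (fun y => k y ^ 2)] at g2
    have h3 := p2_abs |ρ| hs0 hs1 k hkm (B + |c|) hkb _ g1 g2
    have h4 : |GG ρ k k| ≤ |ρ| * ∫ y, k y ^ 2 ∂(gam M) := by
      rcases le_total 0 ρ with h | h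
      · have h5 := h3.1
        rw [abs_of_nonneg h] at h5 ⊢
        exact h5
      · have h5 := h3.2
        rw [abs_of_nonpos h] at h5 ⊢
        rw [neg_neg] at h5
        exact h5
    exact h4.trans (mul_le_mul_of_nonneg_left hk2 hs0)
  · intro hm0 hm1
    have hs0 : 0 ≤ |ρ| := abs_nonneg ρ
    have hs1 : |ρ| ≤ 1 := abs_le.2 ⟨h0, h1⟩
    have hgn : Measurable fun y : Fin M → ℝ => g (-y) := hg.comp measurable_neg
    have g1 := SSCP.gap2 |ρ| B hs0 hs1 g hg hB hm0 hm1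
    have hm1' : ∀ j, ∫ y : Fin M → ℝ, y j * g (-y) ∂(gam M) = 0 := by
      intro j
      have e1 := p2_int_neg (M := M) (fun y => y j * g y)
      rw [hm1 j] at e1
      have e2 : ∫ y : Fin M → ℝ, (-y) j * g (-y) ∂(gam M) =
          -∫ y : Fin M → ℝ, y j * g (-y) ∂(gam M) := by
        rw [← integral_neg]
        refine integral_congr_ae (Filter.Eventually.of_forall fun y => ?_)
        change (-y) j * g (-y) = -(y j * g (-y))
        rw [Pi.neg_apply, neg_mul]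
      have e3 : ∫ y : Fin M → ℝ, (-y) j * g (-y) ∂(gam M) = 0 := e1
      rw [e2] at e3
      linarith
    have g2 := SSCP.gap2 |ρ| B hs0 hs1 (fun y => g (-y)) hgn (fun y => hB _)
      ((p2_int_neg g).trans hm0) hm1'
    rw [p2_int_neg (fun y => g y ^ 2)] at g2
    have h3 := p2_abs |ρ| hs0 hs1 g hg B hB _ g1 g2
    rw [sq_abs] at h3
    rcases le_total 0 ρ with h | h
    · have h5 := h3.1
      rw [abs_of_nonneg h] at h5
      exact h5
    · have h5 := h3.2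
      rw [abs_of_nonpos h, neg_neg] at h5
      exact h5

end Pool.Agent.SSQ
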