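import Pool.Agent.SSQ.P2
import Pool.Agent.SSQ.D1

set_option autoImplicit false
open MeasureTheory ProbabilityTheory Set Real

namespace Pool.Agent.SSQ
open Pool.Agent.SSC3N (gam GG TT gam_prob gam_ou cubq cubi)

private instance p2b_prob (m : ℕ) : IsProbabilityMeasure (gam m) := gam_prob m

private theorem p2b_append_meas {k : ℕ} (m : ℕ) : Measurable (fun p : (Fin k → ℝ) × (Fin m → ℝ) =>
    (Fin.append p.1 p.2 : Fin (k + m) → ℝ)) := by
  refine measurable_pi_lambda _ fun i => ?_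
  refine Fin.addCases (fun j => ?_) (fun j => ?_) i
  · simp only [Fin.append_left]
    fun_prop
  · simp only [Fin.append_right]
    fun_prop

private theorem p2b_cur_meas {k : ℕ} {m : ℕ} {f : (Fin (k + m) → ℝ) → ℝ} (hf : Measurable f) :
    Measurable (fun p : (Fin k → ℝ) × (Fin m → ℝ) => cur f p.1 p.2) :=
  hf.comp (p2b_append_meas m)

private theorem p2b_bint {α : Type*} [MeasurableSpace α] (μ : Measure α)
    [IsProbabilityMeasure μ] (f : α → ℝ) (hf : Measurable f) (B : ℝ) (hb : ∀ y, |f y| ≤ B) :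
    Integrable f μ :=
  Integrable.of_bound hf.aestronglyMeasurable B (Filter.Eventually.of_forall hb)

private theorem p2b_bd {α : Type*} [MeasurableSpace α] (μ : Measure α)
    [IsProbabilityMeasure μ] (f : α → ℝ) (B : ℝ) (hb : ∀ y, |f y| ≤ B) : |∫ y, f y ∂μ| ≤ B := by
  have := norm_integral_le_of_norm_le_const (μ := μ) (f := f) (C := B)
    (Filter.Eventually.of_forall hb)
  simpa using this

private theorem p2b_mul {a b : ℝ} (ha : |a| ≤ 1) (hb : |b| ≤ 1) : |a * b| ≤ 1 := by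
  rw [abs_mul]
  exact mul_le_one₀ ha (abs_nonneg _) hb

private theorem p2b_sh_meas {k M : ℕ} (ρ : ℝ) {d : (Fin (k + M) → ℝ) → ℝ} (hd : Measurable d) :
    Measurable (fun q : (((Fin k → ℝ) × (Fin k → ℝ)) × (Fin M → ℝ)) × (Fin M → ℝ) =>
      cur d q.1.1.1 q.1.2 * cur d q.1.1.2 (ρ • q.1.2 + Real.sqrt (1 - ρ ^ 2) • q.2)) := by
  have h1 : Measurable (fun q : (((Fin k → ℝ) × (Fin k → ℝ)) × (Fin M → ℝ)) × (Fin M → ℝ) =>
      cur d q.1.1.1 q.1.2) :=
    (p2b_cur_meas hd).comp (by fun_prop : Measurable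
      (fun q : (((Fin k → ℝ) × (Fin k → ℝ)) × (Fin M → ℝ)) × (Fin M → ℝ) =>
        (q.1.1.1, q.1.2)))
  have h2 : Measurable (fun q : (((Fin k → ℝ) × (Fin k → ℝ)) × (Fin M → ℝ)) × (Fin M → ℝ) =>
      cur d q.1.1.2 (ρ • q.1.2 + Real.sqrt (1 - ρ ^ 2) • q.2)) :=
    (p2b_cur_meas hd).comp (by fun_prop : Measurable
      (fun q : (((Fin k → ℝ) × (Fin k → ℝ)) × (Fin M → ℝ)) × (Fin M → ℝ) =>
        (q.1.1.2, ρ • q.1.2 + Real.sqrt (1 - ρ ^ 2) • q.2)))
  exact h1.mul h2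

private theorem p2b_GG_meas {k M : ℕ} (ρ : ℝ) {d : (Fin (k + M) → ℝ) → ℝ} (hd : Measurable d) :
    Measurable (fun p : (Fin k → ℝ) × (Fin k → ℝ) => GG ρ (cur d p.1) (cur d p.2)) := by
  have h1 := (p2b_sh_meas ρ hd).stronglyMeasurable.integral_prod_right' (ν := gam M)
  have h2 := h1.integral_prod_right' (ν := gam M)
  exact h2.measurable

private theorem p2b_GG_bd {k M : ℕ} (ρ : ℝ) {d : (Fin (k + M) → ℝ) → ℝ} (hb : ∀ z, |d z| ≤ 1)
    (x x' : Fin k → ℝ) : |GG ρ (cur d x) (cur d x')| ≤ 1 :=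
  p2b_bd _ _ _ fun y => p2b_bd _ _ _ fun z => p2b_mul (hb _) (hb _)

/-- the noise form as an integral over the product -/
private theorem p2b_GG_prodm {k M : ℕ} (ρ : ℝ) {d : (Fin (k + M) → ℝ) → ℝ} (hd : Measurable d)
    (hb : ∀ z, |d z| ≤ 1) (x x' : Fin k → ℝ) :
    GG ρ (cur d x) (cur d x') = ∫ q : (Fin M → ℝ) × (Fin M → ℝ),
      cur d x q.1 * cur d x' (ρ • q.1 + Real.sqrt (1 - ρ ^ 2) • q.2) ∂((gam M).prod (gam M)) := by
  unfold GG
  rw [integral_prod]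
  refine p2b_bint _ _ ?_ 1 fun q => p2b_mul (hb _) (hb _)
  exact (p2b_sh_meas ρ hd).comp (by fun_prop : Measurable
    (fun q : (Fin M → ℝ) × (Fin M → ℝ) => (((x, x'), q.1), q.2)))

/-- [P2b] KERNEL FORM of the noise form in `ℝ^k × ℝ^M`: `SS_diag` (`GG ρ d d = ∫_x ∫_z GG ρ (F x)(F (ρx+√(1-ρ²)z))`,
`F = cur d`) and, for fixed `x`, `TT_kernel` applied to the bounded measurable function `x' ↦ GG ρ (F x) (F x')`. -/
theorem GG_prod {k M : ℕ} (ρ : ℝ) (h0 : -1 < ρ) (h1 : ρ < 1) (d : (Fin (k + M) → ℝ) → ℝ)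
    (hd : Measurable d) (hb : ∀ z, |d z| ≤ 1) :
    GG ρ d d = ∫ x, ∫ x', MK ρ x x' * GG ρ (cur d x) (cur d x') ∂(gam k) ∂(gam k) := by
  rw [SS_diag ρ d hd hb]
  unfold SS
  refine integral_congr_ae (Filter.Eventually.of_forall fun x => ?_)
  have hg : Measurable (fun x' : Fin k → ℝ => GG ρ (cur d x) (cur d x')) :=
    (p2b_GG_meas ρ hd).comp (by fun_prop : Measurable
      (fun x' : Fin k → ℝ => (x, x')))
  have h := (TT_kernel ρ h0 h1 (fun x' => GG ρ (cur d x) (cur d x')) hg 1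
    (fun x' => p2b_GG_bd ρ hb x x') x).2
  exact h

/-- [P2c] weighted averages.  For measurable `u, v : ℝ^k → ℝ` with `|u|, |v| ≤ C e^{cubq/32}` and `F = cur d`:
`∫∫ u(x) v(x') GG ρ (F x) (F x') = GG ρ (∫ u F) (∫ v F)` (Fubini; everything is dominated by
`C² e^{X/32} e^{X'/32}`).  Also `|GG ρ (F x) (F x')| ≤ GG ρ |F x| |F x'|`. -/
theorem GG_avg {k M : ℕ} (ρ : ℝ) (h0 : -1 < ρ) (h1 : ρ < 1) (d : (Fin (k + M) → ℝ) → ℝ)
    (hd : Measurable d) (hb : ∀ z, |d z| ≤ 1) (u v : (Fin k → ℝ) → ℝ) (hu : Measurable u)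
    (hv : Measurable v) (C : ℝ) (huC : ∀ x, |u x| ≤ C * Real.exp (cubq x / 32))
    (hvC : ∀ x, |v x| ≤ C * Real.exp (cubq x / 32)) :
    Integrable (fun p : (Fin k → ℝ) × (Fin k → ℝ) => u p.1 * v p.2 * GG ρ (cur d p.1) (cur d p.2))
      ((gam k).prod (gam k)) ∧
    ∫ x, ∫ x', u x * v x' * GG ρ (cur d x) (cur d x') ∂(gam k) ∂(gam k) =
      GG ρ (fun y => ∫ x, u x * cur d x y ∂(gam k)) (fun y => ∫ x, v x * cur d x y ∂(gam k)) := by
  have hW : Integrable (fun x : Fin k → ℝ => Real.exp (cubq x / 32)) (gam k) := by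
    have h := (exp_mom k).1 (1 / 32) (by norm_num)
    refine h.congr (Filter.Eventually.of_forall fun x => ?_)
    change Real.exp (1 / 32 * cubq x) = Real.exp (cubq x / 32)
    congr 1
    ring
  have huI : Integrable u (gam k) :=
    (hW.const_mul C).mono' hu.aestronglyMeasurable (Filter.Eventually.of_forall fun x => huC x)
  have hvI : Integrable v (gam k) :=
    (hW.const_mul C).mono' hv.aestronglyMeasurable (Filter.Eventually.of_forall fun x => hvC x)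
  have hG := p2b_GG_meas ρ hd
  have huv : Integrable (fun p : (Fin k → ℝ) × (Fin k → ℝ) => u p.1 * v p.2)
      ((gam k).prod (gam k)) := huI.mul_prod hvI
  have hint : Integrable (fun p : (Fin k → ℝ) × (Fin k → ℝ) =>
      u p.1 * v p.2 * GG ρ (cur d p.1) (cur d p.2)) ((gam k).prod (gam k)) :=
    huv.mul_bdd (c := 1) hG.aestronglyMeasurable (Filter.Eventually.of_forall fun p => by
      rw [Real.norm_eq_abs]
      exact p2b_GG_bd ρ hb _ _)
  refine ⟨hint, ?_⟩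
  set s : ℝ := Real.sqrt (1 - ρ ^ 2) with hs
  have hK : Measurable (fun q : ((Fin k → ℝ) × (Fin k → ℝ)) × ((Fin M → ℝ) × (Fin M → ℝ)) =>
      cur d q.1.1 q.2.1 * cur d q.1.2 (ρ • q.2.1 + s • q.2.2)) :=
    (p2b_sh_meas ρ hd).comp (by fun_prop : Measurable
      (fun q : ((Fin k → ℝ) × (Fin k → ℝ)) × ((Fin M → ℝ) × (Fin M → ℝ)) =>
        ((q.1, q.2.1), q.2.2)))
  have hΦ : Integrable (fun q : ((Fin k → ℝ) × (Fin k → ℝ)) × ((Fin M → ℝ) × (Fin M → ℝ)) =>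
      u q.1.1 * v q.1.2 * (cur d q.1.1 q.2.1 * cur d q.1.2 (ρ • q.2.1 + s • q.2.2)))
      (((gam k).prod (gam k)).prod ((gam M).prod (gam M))) :=
    (huv.comp_fst ((gam M).prod (gam M))).mul_bdd (c := 1) hK.aestronglyMeasurable
      (Filter.Eventually.of_forall fun p => by
        rw [Real.norm_eq_abs]
        exact p2b_mul (hb _) (hb _))
  have e1 : ∫ x, ∫ x', u x * v x' * GG ρ (cur d x) (cur d x') ∂(gam k) ∂(gam k) =
      ∫ p : (Fin k → ℝ) × (Fin k → ℝ), u p.1 * v p.2 * GG ρ (cur d p.1) (cur d p.2)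
        ∂((gam k).prod (gam k)) := (integral_prod _ hint).symm
  have e2 : ∀ p : (Fin k → ℝ) × (Fin k → ℝ), u p.1 * v p.2 * GG ρ (cur d p.1) (cur d p.2) =
      ∫ q : (Fin M → ℝ) × (Fin M → ℝ), u p.1 * v p.2 *
        (cur d p.1 q.1 * cur d p.2 (ρ • q.1 + s • q.2)) ∂((gam M).prod (gam M)) := by
    intro p
    rw [integral_const_mul, p2b_GG_prodm ρ hd hb]
  have e3 : ∀ q : (Fin M → ℝ) × (Fin M → ℝ), ∫ p : (Fin k → ℝ) × (Fin k → ℝ), u p.1 * v p.2 *
        (cur d p.1 q.1 * cur d p.2 (ρ • q.1 + s • q.2)) ∂((gam k).prod (gam k)) =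
      (∫ x, u x * cur d x q.1 ∂(gam k)) * ∫ x, v x * cur d x (ρ • q.1 + s • q.2) ∂(gam k) := by
    intro q
    rw [← integral_prod_mul (fun x => u x * cur d x q.1)
      (fun x => v x * cur d x (ρ • q.1 + s • q.2))]
    refine integral_congr_ae (Filter.Eventually.of_forall fun p => ?_)
    change u p.1 * v p.2 * (cur d p.1 q.1 * cur d p.2 (ρ • q.1 + s • q.2)) =
      u p.1 * cur d p.1 q.1 * (v p.2 * cur d p.2 (ρ • q.1 + s • q.2))
    ring
  rw [e1, integral_congr_ae (Filter.Eventually.of_forall e2), integral_integral_swap hΦ,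
    integral_congr_ae (Filter.Eventually.of_forall e3)]
  have h5 := hΦ.integral_prod_right
  have h6 : Integrable (fun q : (Fin M → ℝ) × (Fin M → ℝ) =>
      (∫ x, u x * cur d x q.1 ∂(gam k)) * ∫ x, v x * cur d x (ρ • q.1 + s • q.2) ∂(gam k))
      ((gam M).prod (gam M)) := h5.congr (Filter.Eventually.of_forall e3)
  rw [integral_prod _ h6]
  rfl

private theorem p2b_Wm {k : ℕ} : Measurable (fun x : Fin k → ℝ => Real.exp (cubq x / 32)) :=
  Real.continuous_exp.measurable.comp (Pool.Agent.SSC3N.cubq_measurable.div_const _)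

private theorem p2b_WI (k : ℕ) : Integrable (fun x : Fin k → ℝ => Real.exp (cubq x / 32)) (gam k) := by
  have h := (exp_mom k).1 (1 / 32) (by norm_num)
  refine h.congr (Filter.Eventually.of_forall fun x => ?_)
  change Real.exp (1 / 32 * cubq x) = Real.exp (cubq x / 32)
  congr 1
  ring

private theorem p2b_W1 {k : ℕ} (x : Fin k → ℝ) : 1 ≤ Real.exp (cubq x / 32) :=
  Real.one_le_exp (div_nonneg (Pool.Agent.SSC3N.cubq_nonneg x) (by norm_num))

/-- averages of the slices -/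
private theorem p2b_V {k M : ℕ} {d : (Fin (k + M) → ℝ) → ℝ} (hd : Measurable d)
    (hb : ∀ z, |d z| ≤ 1) (u : (Fin k → ℝ) → ℝ) (hu : Measurable u) (C : ℝ)
    (huC : ∀ x, |u x| ≤ C * Real.exp (cubq x / 32)) :
    Measurable (fun y : Fin M → ℝ => ∫ x, u x * cur d x y ∂(gam k)) ∧
    (∀ y : Fin M → ℝ, |∫ x, u x * cur d x y ∂(gam k)| ≤
      C * ∫ x, |cur d x y| * Real.exp (cubq x / 32) ∂(gam k)) ∧
    (∀ y : Fin M → ℝ, ∫ x, |cur d x y| * Real.exp (cubq x / 32) ∂(gam k) ≤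
      ∫ x, Real.exp (cubq x / 32) ∂(gam k)) := by
  have hcm : ∀ y : Fin M → ℝ, Measurable (fun x : Fin k → ℝ => cur d x y) := fun y =>
    (p2b_cur_meas hd).comp (by fun_prop : Measurable (fun x : Fin k → ℝ => (x, y)))
  have hDI : ∀ y : Fin M → ℝ, Integrable (fun x : Fin k → ℝ => |cur d x y| *
      Real.exp (cubq x / 32)) (gam k) := by
    intro y
    refine (p2b_WI k).mono'
      ((continuous_abs.measurable.comp (hcm y)).mul p2b_Wm).aestronglyMeasurable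
      (Filter.Eventually.of_forall fun x => ?_)
    rw [Real.norm_eq_abs, abs_mul, abs_abs, abs_of_pos (Real.exp_pos _)]
    have h1 : |cur d x y| ≤ 1 := hb _
    calc |cur d x y| * Real.exp (cubq x / 32) ≤ 1 * Real.exp (cubq x / 32) :=
          mul_le_mul_of_nonneg_right h1 (Real.exp_pos _).le
      _ = _ := one_mul _
  refine ⟨?_, ?_, ?_⟩
  · have h1 : Measurable (fun p : (Fin M → ℝ) × (Fin k → ℝ) => u p.2 * cur d p.2 p.1) := by
      have h2 : Measurable (fun p : (Fin M → ℝ) × (Fin k → ℝ) => cur d p.2 p.1) :=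
        (p2b_cur_meas hd).comp (by fun_prop : Measurable
          (fun p : (Fin M → ℝ) × (Fin k → ℝ) => (p.2, p.1)))
      exact (hu.comp measurable_snd).mul h2
    exact (h1.stronglyMeasurable.integral_prod_right' (ν := gam k)).measurable
  · intro y
    have h1 : ∀ x, ‖u x * cur d x y‖ ≤ C * (|cur d x y| * Real.exp (cubq x / 32)) := by
      intro x
      rw [Real.norm_eq_abs, abs_mul]
      calc |u x| * |cur d x y| ≤ (C * Real.exp (cubq x / 32)) * |cur d x y| :=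
            mul_le_mul_of_nonneg_right (huC x) (abs_nonneg _)
        _ = _ := by ring
    have h2 := norm_integral_le_of_norm_le ((hDI y).const_mul C)
      (Filter.Eventually.of_forall h1)
    rw [integral_const_mul, Real.norm_eq_abs] at h2
    exact h2
  · intro y
    refine integral_mono (hDI y) (p2b_WI k) fun x => ?_
    have h1 : |cur d x y| ≤ 1 := hb _
    calc |cur d x y| * Real.exp (cubq x / 32) ≤ 1 * Real.exp (cubq x / 32) :=
          mul_le_mul_of_nonneg_right h1 (Real.exp_pos _).le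
      _ = _ := one_mul _

/-- the noise form of two slices is bounded by the one of the absolute values -/
private theorem p2b_abs {k M : ℕ} (ρ : ℝ) {d : (Fin (k + M) → ℝ) → ℝ} (hd : Measurable d)
    (hb : ∀ z, |d z| ≤ 1) (x x' : Fin k → ℝ) :
    |GG ρ (cur d x) (cur d x')| ≤ GG ρ (cur (fun z => |d z|) x) (cur (fun z => |d z|) x') := by
  have hd' : Measurable (fun z : Fin (k + M) → ℝ => |d z|) := continuous_abs.measurable.comp hd
  have hb' : ∀ z : Fin (k + M) → ℝ, |(fun z => |d z|) z| ≤ 1 := fun z => by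
    change |(|d z|)| ≤ 1
    rw [abs_abs]
    exact hb z
  rw [p2b_GG_prodm ρ hd hb, p2b_GG_prodm ρ hd' hb']
  refine (abs_integral_le_integral_abs).trans (le_of_eq ?_)
  refine integral_congr_ae (Filter.Eventually.of_forall fun q => ?_)
  exact abs_mul _ _

private theorem p2b_int_x {k M : ℕ} (d : (Fin (k + M) → ℝ) → ℝ) (hd : Measurable d)
    (hb : ∀ z, |d z| ≤ 1) (l : Fin k) :
    ∫ z, z (Fin.castAdd M l) * d z ∂(gam (k + M)) =
      ∫ y, (∫ x, x l * cur d x y ∂(gam k)) ∂(gam M) := by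
  have hm : Measurable (fun p : (Fin k → ℝ) × (Fin M → ℝ) => p.1 l * cur d p.1 p.2) := by
    have h2 : Measurable (fun p : (Fin k → ℝ) × (Fin M → ℝ) => p.1 l) := by fun_prop
    exact h2.mul (p2b_cur_meas hd)
  have h1 : ∫ z : Fin (k + M) → ℝ, (fun p : (Fin k → ℝ) × (Fin M → ℝ) => p.1 l * cur d p.1 p.2)
      ((fun i : Fin k => z (Fin.castAdd M i)), (fun j : Fin M => z (Fin.natAdd k j)))
      ∂(gam (k + M)) = ∫ p : (Fin k → ℝ) × (Fin M → ℝ), p.1 l * cur d p.1 p.2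
        ∂((gam k).prod (gam M)) := by
    have h := (split_mp k M).map_eq
    rw [← h, integral_map (split_mp k M).measurable.aemeasurable hm.aestronglyMeasurable]
  have h2 : ∫ z, z (Fin.castAdd M l) * d z ∂(gam (k + M)) =
      ∫ p : (Fin k → ℝ) × (Fin M → ℝ), p.1 l * cur d p.1 p.2 ∂((gam k).prod (gam M)) := by
    rw [← h1]
    refine integral_congr_ae (Filter.Eventually.of_forall fun z => ?_)
    change z (Fin.castAdd M l) * d z = z (Fin.castAdd M l) * cur d _ _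
    unfold cur
    rw [Fin.append_castAdd_natAdd]
  have hI : Integrable (fun x : Fin k → ℝ => x l) (gam k) := by
    obtain ⟨C, hC, h3⟩ := (exp_mom k).2.1 (1 / 4) (by norm_num)
    exact (((exp_mom k).1 (1 / 4) le_rfl).const_mul C).mono'
      (measurable_pi_apply l).aestronglyMeasurable (Filter.Eventually.of_forall fun x => h3 x l)
  have hint : Integrable (fun p : (Fin k → ℝ) × (Fin M → ℝ) => p.1 l * cur d p.1 p.2)
      ((gam k).prod (gam M)) :=
    (hI.comp_fst (gam M)).mul_bdd (c := 1) (p2b_cur_meas hd).aestronglyMeasurable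
      (Filter.Eventually.of_forall fun p => by
        rw [Real.norm_eq_abs]
        exact hb _)
  rw [h2, integral_prod_symm _ hint]

/-- square integral of an average -/
private theorem p2b_sq {M : ℕ} {V W : (Fin M → ℝ) → ℝ} (hV : Measurable V) (hW : Measurable W)
    (C B : ℝ) (hC : 0 ≤ C) (hVW : ∀ y, |V y| ≤ C * W y) (hWB : ∀ y, W y ≤ B)
    (hW0 : ∀ y, 0 ≤ W y) :
    ∫ y, V y ^ 2 ∂(gam M) ≤ C ^ 2 * ∫ y, W y ^ 2 ∂(gam M) := by
  rw [← integral_const_mul]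
  have h1 : ∀ y, V y ^ 2 ≤ C ^ 2 * W y ^ 2 := by
    intro y
    rw [← sq_abs, ← mul_pow]
    exact pow_le_pow_left₀ (abs_nonneg _) (hVW y) 2
  have h2 : ∀ y, C ^ 2 * W y ^ 2 ≤ C ^ 2 * B ^ 2 := fun y =>
    mul_le_mul_of_nonneg_left (pow_le_pow_left₀ (hW0 y) (hWB y) 2) (sq_nonneg _)
  refine integral_mono ?_ ?_ h1
  · refine p2b_bint _ _ (hV.pow_const 2) (C ^ 2 * B ^ 2) fun y => ?_
    rw [abs_of_nonneg (sq_nonneg _)]
    exact (h1 y).trans (h2 y)
  · refine p2b_bint _ _ ((hW.pow_const 2).const_mul _) (C ^ 2 * B ^ 2) fun y => ?_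
    rw [abs_of_nonneg (by positivity)]
    exact h2 y

/-- [P2d] DIMENSION FREE SELF ENERGY.  Constants depend only on `k`.
PROOF.  `MK ρ x x' = 1 + ρ ∑_l x_l x'_l + R`, `|R| ≤ C ρ² e^{X/32} e^{X'/32}` (`MK_est`).  By `GG_prod`, `GG_avg`:
`GG ρ d d = GG ρ V₀ V₀ + ρ ∑_l GG ρ V_l V_l + Err`, `V₀(y) = ∫ F(x,y)`, `V_l(y) = ∫ x_l F(x,y)`,
`|Err| ≤ Cρ² ∫∫ e^{X/32}e^{X'/32} GG ρ |F x| |F x'| = Cρ² GG ρ V_W V_W ≤ Cρ² ∫ V_W²`, `V_W(y) = ∫ |F(x,y)| e^{X/32}`
(`GG_avg` for `|d|`, `GG_sign`).  `∫ V₀ = ∫ d = 0`, `∫ y_j V₀ = 0`: `|GG ρ V₀ V₀| ≤ ρ² ∫ V₀²`; `∫ V_l = ∫ z_l d`: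
`|GG ρ V_l V_l - (∫ z_l d)²| ≤ |ρ| ∫ V_l²`.  `|V₀| ≤ V_W`, `|V_l| ≤ C V_W` (`exp_mom`).  (`int_cur`, `int_cur_y`-type
Fubini for `∫ z_l d`.) -/
theorem energy_prod (k : ℕ) : ∃ ρ0 C : ℝ, 0 < ρ0 ∧ ρ0 ≤ 1 / 2 ∧ 0 ≤ C ∧ ∀ (M : ℕ) (ρ : ℝ), |ρ| ≤ ρ0 →
    ∀ d : (Fin (k + M) → ℝ) → ℝ, Measurable d → (∀ z, |d z| ≤ 1) → ∫ z, d z ∂(gam (k + M)) = 0 →
      (∀ j : Fin M, ∫ z, z (Fin.natAdd k j) * d z ∂(gam (k + M)) = 0) →
      |GG ρ d d - ρ * ∑ l : Fin k, (∫ z, z (Fin.castAdd M l) * d z ∂(gam (k + M))) ^ 2| ≤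
        C * ρ ^ 2 * ∫ y, (∫ x, |cur d x y| * Real.exp (cubq x / 32) ∂(gam k)) ^ 2 ∂(gam M) := by
  obtain ⟨ρ1, C1, hρ1, hρ1', hC1, hMK⟩ := MK_est k
  obtain ⟨C2, hC2, hco⟩ := (exp_mom k).2.1 (1 / 32) (by norm_num)
  refine ⟨ρ1, 1 + k * C2 ^ 2 + C1, hρ1, hρ1', by positivity, ?_⟩
  intro M ρ hρ d hd hb hd0 hdy
  have hρ2 : |ρ| ≤ 1 / 2 := hρ.trans hρ1'
  obtain ⟨hρ3, hρ4⟩ := abs_le.1 hρ2
  have hm1 : -1 < ρ := by linarith
  have hm2 : ρ < 1 := by linarith
  have hco' : ∀ (x : Fin k → ℝ) (l : Fin k), |x l| ≤ C2 * Real.exp (cubq x / 32) := by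
    intro x l
    have h := hco x l
    have e : (1 / 32 : ℝ) * cubq x = cubq x / 32 := by ring
    rw [e] at h
    exact h
  have h11 : ∀ x : Fin k → ℝ, |(fun _ : Fin k → ℝ => (1 : ℝ)) x| ≤
      1 * Real.exp (cubq x / 32) := by
    intro x
    rw [one_mul]
    change |(1 : ℝ)| ≤ _
    rw [abs_one]
    exact p2b_W1 x
  have hWW : ∀ x : Fin k → ℝ, |Real.exp (cubq x / 32)| ≤ 1 * Real.exp (cubq x / 32) := by
    intro x
    rw [one_mul, abs_of_pos (Real.exp_pos _)]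
  have hd' : Measurable (fun z : Fin (k + M) → ℝ => |d z|) := continuous_abs.measurable.comp hd
  have hb' : ∀ z : Fin (k + M) → ℝ, |(fun z => |d z|) z| ≤ 1 := fun z => by
    change |(|d z|)| ≤ 1
    rw [abs_abs]
    exact hb z
  -- the averages
  obtain ⟨hV0m, hV0b, hVWB⟩ := p2b_V hd hb (fun _ => 1) measurable_const 1 h11
  have hVl := fun l : Fin k => p2b_V hd hb (fun x => x l) (measurable_pi_apply l) C2
    (fun x => hco' x l)
  obtain ⟨hVWm', -, -⟩ := p2b_V hd' hb' (fun x : Fin k → ℝ => Real.exp (cubq x / 32)) p2b_Wm 1 hWW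
  set VW : (Fin M → ℝ) → ℝ := fun y => ∫ x, |cur d x y| * Real.exp (cubq x / 32) ∂(gam k)
    with hVWd
  have hVWe : (fun y : Fin M → ℝ => ∫ x, Real.exp (cubq x / 32) * cur (fun z => |d z|) x y
      ∂(gam k)) = VW := by
    funext y
    refine integral_congr_ae (Filter.Eventually.of_forall fun x => ?_)
    exact mul_comm _ _
  rw [hVWe] at hVWm'
  have hVW0 : ∀ y, 0 ≤ VW y := fun y => integral_nonneg fun x =>
    mul_nonneg (abs_nonneg _) (Real.exp_pos _).le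
  set B : ℝ := ∫ x : Fin k → ℝ, Real.exp (cubq x / 32) ∂(gam k) with hB
  set A : ℝ := ∫ y, VW y ^ 2 ∂(gam M) with hA
  have hA0 : 0 ≤ A := integral_nonneg fun y => sq_nonneg _
  have hB0 : 0 ≤ B := integral_nonneg fun x => (Real.exp_pos _).le
  -- the three kinds of terms
  obtain ⟨hi0, he0⟩ := GG_avg ρ hm1 hm2 d hd hb (fun _ => 1) (fun _ => 1) measurable_const
    measurable_const 1 h11 h11
  rw [← integral_prod _ hi0] at he0
  have hil := fun l : Fin k => (GG_avg ρ hm1 hm2 d hd hb (fun x => x l) (fun x => x l)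
    (measurable_pi_apply l) (measurable_pi_apply l) C2 (fun x => hco' x l)
    (fun x => hco' x l)).1
  have hel := fun l : Fin k => (GG_avg ρ hm1 hm2 d hd hb (fun x => x l) (fun x => x l)
    (measurable_pi_apply l) (measurable_pi_apply l) C2 (fun x => hco' x l)
    (fun x => hco' x l)).2
  have hel' : ∀ l : Fin k, ∫ p : (Fin k → ℝ) × (Fin k → ℝ),
      p.1 l * p.2 l * GG ρ (cur d p.1) (cur d p.2) ∂((gam k).prod (gam k)) =
      GG ρ (fun y => ∫ x, x l * cur d x y ∂(gam k)) (fun y => ∫ x, x l * cur d x y ∂(gam k)) := by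
    intro l
    rw [← hel l]
    exact integral_prod _ (hil l)
  obtain ⟨hiW, heW⟩ := GG_avg ρ hm1 hm2 (fun z => |d z|) hd' hb'
    (fun x : Fin k → ℝ => Real.exp (cubq x / 32)) (fun x : Fin k → ℝ => Real.exp (cubq x / 32))
    p2b_Wm p2b_Wm 1 hWW hWW
  rw [← integral_prod _ hiW, hVWe] at heW
  -- the noise form as an integral over the product
  have hMKm : Measurable (fun p : (Fin k → ℝ) × (Fin k → ℝ) => MK ρ p.1 p.2) :=
    (MK_basic ρ hm1 hm2).2.2.measurable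
  have hWWI : Integrable (fun p : (Fin k → ℝ) × (Fin k → ℝ) =>
      Real.exp (cubq p.1 / 32) * Real.exp (cubq p.2 / 32)) ((gam k).prod (gam k)) :=
    (p2b_WI k).mul_prod (p2b_WI k)
  have hexpe : ∀ p : (Fin k → ℝ) × (Fin k → ℝ), Real.exp ((cubq p.1 + cubq p.2) / 32) =
      Real.exp (cubq p.1 / 32) * Real.exp (cubq p.2 / 32) := by
    intro p
    rw [← Real.exp_add]
    congr 1
    ring
  have hZI : Integrable (fun p : (Fin k → ℝ) × (Fin k → ℝ) =>
      MK ρ p.1 p.2 * GG ρ (cur d p.1) (cur d p.2)) ((gam k).prod (gam k)) := by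
    refine (hWWI.const_mul (1 + C1 * |ρ|)).mono'
      (hMKm.mul (p2b_GG_meas ρ hd)).aestronglyMeasurable
      (Filter.Eventually.of_forall fun p => ?_)
    rw [Real.norm_eq_abs, abs_mul]
    have h1 := (hMK ρ hρ p.1 p.2).2
    rw [hexpe p] at h1
    have h2 : |MK ρ p.1 p.2| ≤ |MK ρ p.1 p.2 - 1| + 1 := by
      have := abs_add_le (MK ρ p.1 p.2 - 1) 1
      simpa using this
    have h3 : 1 ≤ Real.exp (cubq p.1 / 32) * Real.exp (cubq p.2 / 32) :=
      one_le_mul_of_one_le_of_one_le (p2b_W1 _) (p2b_W1 _)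
    have h4 := p2b_GG_bd ρ hb p.1 p.2
    calc |MK ρ p.1 p.2| * |GG ρ (cur d p.1) (cur d p.2)| ≤ |MK ρ p.1 p.2| * 1 :=
          mul_le_mul_of_nonneg_left h4 (abs_nonneg _)
      _ ≤ _ := by
          rw [mul_one]
          nlinarith
  have hGG : GG ρ d d = ∫ p : (Fin k → ℝ) × (Fin k → ℝ),
      MK ρ p.1 p.2 * GG ρ (cur d p.1) (cur d p.2) ∂((gam k).prod (gam k)) := by
    rw [GG_prod ρ hm1 hm2 d hd hb]
    exact (integral_prod _ hZI).symm
  -- the main term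
  set V0 : (Fin M → ℝ) → ℝ := fun y => ∫ x, (1 : ℝ) * cur d x y ∂(gam k) with hV0d
  set V : Fin k → (Fin M → ℝ) → ℝ := fun l y => ∫ x, x l * cur d x y ∂(gam k) with hVd
  have hsI : Integrable (fun p : (Fin k → ℝ) × (Fin k → ℝ) =>
      ∑ l, p.1 l * p.2 l * GG ρ (cur d p.1) (cur d p.2)) ((gam k).prod (gam k)) :=
    integrable_finsetSum _ fun l _ => hil l
  have hmI : Integrable (fun p : (Fin k → ℝ) × (Fin k → ℝ) =>
      1 * 1 * GG ρ (cur d p.1) (cur d p.2) +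
        ρ * ∑ l, p.1 l * p.2 l * GG ρ (cur d p.1) (cur d p.2)) ((gam k).prod (gam k)) :=
    hi0.add (hsI.const_mul ρ)
  have hmain : ∫ p : (Fin k → ℝ) × (Fin k → ℝ), (1 * 1 * GG ρ (cur d p.1) (cur d p.2) +
      ρ * ∑ l, p.1 l * p.2 l * GG ρ (cur d p.1) (cur d p.2)) ∂((gam k).prod (gam k)) =
      GG ρ V0 V0 + ρ * ∑ l, GG ρ (V l) (V l) := by
    have h1 : ∫ p : (Fin k → ℝ) × (Fin k → ℝ),
        ρ * ∑ l, p.1 l * p.2 l * GG ρ (cur d p.1) (cur d p.2) ∂((gam k).prod (gam k)) =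
        ρ * ∑ l, GG ρ (V l) (V l) := by
      rw [integral_const_mul, integral_finsetSum _ fun l _ => hil l]
      congr 1
      exact Finset.sum_congr rfl fun l _ => hel' l
    rw [integral_add hi0 (hsI.const_mul ρ), h1, he0]
  have herr : |GG ρ d d - (GG ρ V0 V0 + ρ * ∑ l, GG ρ (V l) (V l))| ≤ C1 * ρ ^ 2 * A := by
    rw [hGG, ← hmain, ← integral_sub hZI hmI]
    have hbound : ∀ p : (Fin k → ℝ) × (Fin k → ℝ),
        ‖MK ρ p.1 p.2 * GG ρ (cur d p.1) (cur d p.2) - (1 * 1 * GG ρ (cur d p.1) (cur d p.2) +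
          ρ * ∑ l, p.1 l * p.2 l * GG ρ (cur d p.1) (cur d p.2))‖ ≤
        C1 * ρ ^ 2 * (Real.exp (cubq p.1 / 32) * Real.exp (cubq p.2 / 32) *
          GG ρ (cur (fun z => |d z|) p.1) (cur (fun z => |d z|) p.2)) := by
      intro p
      have e1 : MK ρ p.1 p.2 * GG ρ (cur d p.1) (cur d p.2) -
          (1 * 1 * GG ρ (cur d p.1) (cur d p.2) +
            ρ * ∑ l, p.1 l * p.2 l * GG ρ (cur d p.1) (cur d p.2)) =
          (MK ρ p.1 p.2 - 1 - ρ * cubi p.1 p.2) * GG ρ (cur d p.1) (cur d p.2) := by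
        rw [← Finset.sum_mul]
        unfold cubi
        ring
      rw [e1, Real.norm_eq_abs, abs_mul]
      have h1 := (hMK ρ hρ p.1 p.2).1
      rw [hexpe p] at h1
      have h2 := p2b_abs ρ hd hb p.1 p.2
      calc _ ≤ C1 * ρ ^ 2 * (Real.exp (cubq p.1 / 32) * Real.exp (cubq p.2 / 32)) *
            |GG ρ (cur d p.1) (cur d p.2)| := mul_le_mul_of_nonneg_right h1 (abs_nonneg _)
        _ ≤ C1 * ρ ^ 2 * (Real.exp (cubq p.1 / 32) * Real.exp (cubq p.2 / 32)) *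
            GG ρ (cur (fun z => |d z|) p.1) (cur (fun z => |d z|) p.2) :=
            mul_le_mul_of_nonneg_left h2 (by positivity)
        _ = _ := by ring
    have h5 := norm_integral_le_of_norm_le (hiW.const_mul (C1 * ρ ^ 2))
      (Filter.Eventually.of_forall hbound)
    rw [integral_const_mul, heW, Real.norm_eq_abs] at h5
    refine h5.trans (mul_le_mul_of_nonneg_left ?_ (by positivity))
    have h6 := (GG_sign ρ hm1.le hm2.le VW hVWm' B fun y => by
      rw [abs_of_nonneg (hVW0 y)]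
      exact hVWB y).1
    exact (le_abs_self _).trans h6
  -- the average over the first coordinates
  have hV0B : ∀ y, |V0 y| ≤ B := fun y => (hV0b y).trans (by
    rw [one_mul]
    exact hVWB y)
  have hV0i : ∫ y, V0 y ∂(gam M) = 0 := by
    have h1 := int_cur' d hd hb
    rw [hd0] at h1
    rw [h1]
    refine integral_congr_ae (Filter.Eventually.of_forall fun y => ?_)
    refine integral_congr_ae (Filter.Eventually.of_forall fun x => ?_)
    exact one_mul _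
  have hV0y : ∀ j, ∫ y, y j * V0 y ∂(gam M) = 0 := by
    intro j
    have h1 := int_cur_y d hd hb j
    rw [hdy j] at h1
    rw [h1]
    refine integral_congr_ae (Filter.Eventually.of_forall fun y => ?_)
    change y j * V0 y = y j * ∫ x, cur d x y ∂(gam k)
    congr 1
    refine integral_congr_ae (Filter.Eventually.of_forall fun x => ?_)
    exact one_mul _
  have hg0 : |GG ρ V0 V0| ≤ ρ ^ 2 * A := by
    refine ((GG_sign ρ hm1.le hm2.le V0 hV0m B hV0B).2.2 hV0i hV0y).trans ?_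
    refine mul_le_mul_of_nonneg_left ?_ (sq_nonneg _)
    have h1 := p2b_sq hV0m hVWm' 1 B zero_le_one hV0b hVWB hVW0
    rw [one_pow, one_mul] at h1
    exact h1
  have hgl : ∀ l, |GG ρ (V l) (V l) -
      (∫ z, z (Fin.castAdd M l) * d z ∂(gam (k + M))) ^ 2| ≤ |ρ| * (C2 ^ 2 * A) := by
    intro l
    rw [p2b_int_x d hd hb l]
    have h1 : ∀ y, |V l y| ≤ C2 * B := fun y => ((hVl l).2.1 y).trans
      (mul_le_mul_of_nonneg_left (hVWB y) hC2)
    refine ((GG_sign ρ hm1.le hm2.le (V l) (hVl l).1 (C2 * B) h1).2.1).trans ?_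
    refine mul_le_mul_of_nonneg_left ?_ (abs_nonneg _)
    exact p2b_sq (hVl l).1 hVWm' C2 B hC2 (hVl l).2.1 hVWB hVW0
  -- the sum
  set m : Fin k → ℝ := fun l => (∫ z, z (Fin.castAdd M l) * d z ∂(gam (k + M))) ^ 2 with hmd
  have hsum : |ρ * ∑ l, GG ρ (V l) (V l) - ρ * ∑ l, m l| ≤ k * C2 ^ 2 * (ρ ^ 2 * A) := by
    rw [← mul_sub, ← Finset.sum_sub_distrib, abs_mul]
    have h1 : |∑ l, (GG ρ (V l) (V l) - m l)| ≤ ∑ _l : Fin k, |ρ| * (C2 ^ 2 * A) :=
      (Finset.abs_sum_le_sum_abs _ _).trans (Finset.sum_le_sum fun l _ => hgl l)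
    rw [Finset.sum_const, Finset.card_univ, Fintype.card_fin, nsmul_eq_mul] at h1
    calc |ρ| * |∑ l, (GG ρ (V l) (V l) - m l)| ≤ |ρ| * ((k : ℝ) * (|ρ| * (C2 ^ 2 * A))) :=
          mul_le_mul_of_nonneg_left h1 (abs_nonneg _)
      _ = k * C2 ^ 2 * (|ρ| ^ 2 * A) := by ring
      _ = _ := by rw [sq_abs]
  have hfin : GG ρ d d - ρ * ∑ l, m l = (GG ρ d d - (GG ρ V0 V0 + ρ * ∑ l, GG ρ (V l) (V l))) +
      GG ρ V0 V0 + (ρ * ∑ l, GG ρ (V l) (V l) - ρ * ∑ l, m l) := by ring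
  calc |GG ρ d d - ρ * ∑ l, m l| ≤ |GG ρ d d - (GG ρ V0 V0 + ρ * ∑ l, GG ρ (V l) (V l))| +
      |GG ρ V0 V0| + |ρ * ∑ l, GG ρ (V l) (V l) - ρ * ∑ l, m l| := by
        rw [hfin]
        exact (abs_add_le _ _).trans (add_le_add (abs_add_le _ _) le_rfl)
    _ ≤ C1 * ρ ^ 2 * A + ρ ^ 2 * A + k * C2 ^ 2 * (ρ ^ 2 * A) :=
        add_le_add (add_le_add herr hg0) hsum
    _ = (1 + k * C2 ^ 2 + C1) * ρ ^ 2 * A := by ring

end Pool.Agent.SSQ
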